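import Pool.Agent.TCub.Stmts

open Finset

namespace Pool.Agent.TCub

namespace AST

lemma HW_anti {a b : ℝ} (h : a ≤ b) : HW b ≤ HW a := by
  unfold HW
  exact Real.exp_le_exp.mpr (by linarith)

lemma HU_anti {a b : ℝ} (ha : 0 < a) (h : a ≤ b) : HU b ≤ HU a := by
  unfold HU
  have hb : 0 < b := lt_of_lt_of_le ha h
  by_cases h1 : b ≤ 3
  · have h2 : a ≤ 3 := le_trans h h1
    rw [if_pos h1, if_pos h2]
    exact div_le_div_of_nonneg_left (by norm_num) ha h
  · rw [if_neg h1]
    by_cases h2 : a ≤ 3
    · rw [if_pos h2]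
      have e1 : Real.exp (-(b - 3)) ≤ 1 := by
        rw [Real.exp_le_one_iff]; push Not at h1; linarith
      have e2 : (8 / 7 : ℝ) / 3 ≤ (8 / 7) / a := div_le_div_of_nonneg_left (by norm_num) ha h2
      nlinarith
    · rw [if_neg h2]
      have e1 : Real.exp (-(b - 3)) ≤ Real.exp (-(a - 3)) := Real.exp_le_exp.mpr (by linarith)
      nlinarith

lemma HU_nonneg {a : ℝ} (ha : 0 < a) : 0 ≤ HU a := by
  unfold HU
  split_ifs
  · positivity
  · positivity

lemma HW_nonneg (a : ℝ) : 0 ≤ HW a := by
  unfold HW; positivity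

end AST

open AST in
theorem tAST (hsum : St_sum) (hGexp : St_Gexp) (hstU : St_stU) (hstW : St_stW) : St_AST := by
  obtain ⟨e1, C1, he1, he1', hC1, HU1⟩ := hstU
  obtain ⟨e2, C2, he2, he2', hC2, HW1⟩ := hstW
  obtain ⟨G1, G2, G3⟩ := hGexp
  refine ⟨min e1 e2, max C1 C2, lt_min he1 he2, (min_le_left _ _).trans he1',
    hC1.trans (le_max_left _ _), ?_⟩
  intro U W hFP hW2 g c u ε δ hε hδ hS
  have hε0 := hS.hε
  have hδ0 := hS.hδ
  have hεe1 : ε ≤ e1 := hε.trans (min_le_left _ _)
  have hεe2 : ε ≤ e2 := hε.trans (min_le_right _ _)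
  have hδe1 : δ ≤ e1 := hδ.trans (min_le_left _ _)
  have hδe2 : δ ≤ e2 := hδ.trans (min_le_right _ _)
  have hτ1 : C1 * (ε + δ) ≤ max C1 C2 * (ε + δ) :=
    mul_le_mul_of_nonneg_right (le_max_left _ _) (by linarith)
  have hτ2 : C2 * (ε + δ) ≤ max C1 C2 * (ε + δ) :=
    mul_le_mul_of_nonneg_right (le_max_right _ _) (by linarith)
  have hτ0 : 0 ≤ max C1 C2 * (ε + δ) := by
    have : 0 ≤ max C1 C2 := le_trans (by linarith) (le_max_left C1 C2)
    positivity
  generalize max C1 C2 * (ε + δ) = τ at hτ1 hτ2 hτ0
  have hVn : ∀ w, 0 ≤ VV g u w := fun w =>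
    (G3 g c u w (fun p hp => ⟨hS.hg0 p hp, (hS.hg1 p hp).le⟩) 0).2.2
  -- strong induction
  have key : ∀ n : ℕ, ∀ w L : ℝ, ⌈w⌉₊ = n → 1 < w → 0 < L →
    GG g c u ⌈w⌉₊ true L ≤ VV g u ⌈w⌉₊ *
      (1 + U (L / Real.log w) + τ * HU (L / Real.log w)) ∧
    (2 * Real.log w ≤ L → VV g u ⌈w⌉₊ *
      (1 - W (L / Real.log w) - τ * HW (L / Real.log w)) ≤ GG g c u ⌈w⌉₊ false L) := by
    intro n
    induction n using Nat.strong_induction_on with
    | _ n ih =>
      intro w L hwn hw hL
      have hlw : 0 < Real.log w := Real.log_pos hw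
      set s := L / Real.log w with hs
      have hs0 : 0 < s := div_pos hL hlw
      -- facts on the primes
      have hpf : ∀ p ∈ prs u ⌈w⌉₊, p.Prime ∧ u ≤ p ∧ p < ⌈w⌉₊ ∧ 0 < Real.log p ∧ Real.log p < Real.log w ∧
          s < L / Real.log p := by
        intro p hp
        simp only [prs, mem_filter, mem_range] at hp
        obtain ⟨h1, h2, h3⟩ := hp
        have h4 : (p:ℝ) < w := Nat.lt_ceil.mp h1
        have h5 : (1:ℝ) < p := by exact_mod_cast h2.one_lt
        have h6 : 0 < Real.log p := Real.log_pos h5
        have h7 : Real.log p < Real.log w := Real.log_lt_log (by linarith) h4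
        refine ⟨h2, h3, h1, h6, h7, ?_⟩
        rw [hs]
        exact div_lt_div_of_pos_left hL h6 h7
      constructor
      · -- upper bound
        obtain ⟨A1, A2, A3, A4, A5, A6, A7⟩ := HU1 U W hFP hW2 ε δ τ hε0 hεe1 hδ0 hδe1 hτ1 s hs0
        have e1 := G1 g c u ⌈w⌉₊ true L
        have e2 := G2 g u ⌈w⌉₊
        have T1 := hsum g c u ε δ hS w L s (Φ₁ W δ) hw hL le_rfl A1 A2 A3
        have T2 := hsum g c u ε δ hS w L (max s 3) (Φ₂ τ δ) hw hL (le_max_left _ _) A4
          (fun t _ => A5 t) A6
        -- pointwise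
        have hpt : ∀ p ∈ prs u ⌈w⌉₊,
            g p * VV g u p - (if 3 * c p < L then g p * GG g c u p false (L - c p) else 0) ≤
            g p * VV g u p * Φ₁ W δ (L / Real.log p) +
            (if max s 3 < L / Real.log p then g p * VV g u p * Φ₂ τ δ (L / Real.log p) else 0) := by
          intro p hp
          obtain ⟨hpp, hup, hpw, hlp, hlpw, hsp⟩ := hpf p hp
          have hg0 := hS.hg0 p hpp
          have hc1 := hS.hc1 p hpp hup
          have hc2 := hS.hc2 p hpp hup
          have hgV : 0 ≤ g p * VV g u p := mul_nonneg hg0 (hVn p)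
          have hp1 : (1:ℝ) < p := by exact_mod_cast hpp.one_lt
          have hcl : c p / Real.log p ≤ 1 + δ := by
            rw [div_le_iff₀ hlp]; linarith
          by_cases hc : 3 * c p < L
          · rw [if_pos hc]
            have hL' : 0 < L - c p := by linarith
            have hih := (ih p (by omega) (p:ℝ) (L - c p) (by simp) hp1 hL').2 (by linarith)
            rw [Nat.ceil_natCast] at hih
            set sp := (L - c p) / Real.log p with hsp'
            have hsp2 : 2 ≤ sp := by
              rw [hsp', le_div_iff₀ hlp]; linarith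
            have hspt : L / Real.log p - 1 - δ ≤ sp := by
              rw [hsp', sub_div]; linarith
            have ht3 : 3 < L / Real.log p := by
              rw [lt_div_iff₀ hlp]; linarith
            rw [if_pos (max_lt hsp ht3)]
            have hWp : W sp ≤ Φ₁ W δ (L / Real.log p) := by
              unfold Φ₁
              split_ifs with h
              · rw [← hW2]
                exact hFP.Wanti (Set.mem_Ici.mpr le_rfl) (Set.mem_Ici.mpr hsp2) hsp2
              · push Not at h
                exact hFP.Wanti (Set.mem_Ici.mpr (by linarith)) (Set.mem_Ici.mpr hsp2) hspt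
            have hHp : τ * HW sp ≤ Φ₂ τ δ (L / Real.log p) := by
              unfold Φ₂
              exact mul_le_mul_of_nonneg_left (HW_anti (max_le hsp2 hspt)) hτ0
            have h1 : g p * (VV g u p * (1 - W sp - τ * HW sp)) ≤ g p * GG g c u p false (L - c p) :=
              mul_le_mul_of_nonneg_left hih hg0
            have h2 : g p * VV g u p * W sp ≤ g p * VV g u p * Φ₁ W δ (L / Real.log p) :=
              mul_le_mul_of_nonneg_left hWp hgV
            have h3 : g p * VV g u p * (τ * HW sp) ≤ g p * VV g u p * Φ₂ τ δ (L / Real.log p) :=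
              mul_le_mul_of_nonneg_left hHp hgV
            nlinarith
          · rw [if_neg hc]
            push Not at hc
            have h1 : Φ₁ W δ (L / Real.log p) = 1 := by
              unfold Φ₁
              rw [if_pos]
              rw [div_le_iff₀ hlp]
              nlinarith
            rw [h1]
            have h2 : 0 ≤ (if max s 3 < L / Real.log p then g p * VV g u p * Φ₂ τ δ (L / Real.log p) else 0) := by
              split_ifs
              · exact mul_nonneg hgV (A5 _)
              · exact le_rfl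
            linarith
        have hsumpt := Finset.sum_le_sum hpt
        rw [Finset.sum_sub_distrib, Finset.sum_add_distrib, ← Finset.sum_filter, ← Finset.sum_filter] at hsumpt
        have f1 : (prs u ⌈w⌉₊).filter (fun p : ℕ => s < L / Real.log p) = prs u ⌈w⌉₊ := by
          apply Finset.filter_true_of_mem
          intro p hp
          exact (hpf p hp).2.2.2.2.2
        rw [f1] at T1
        have f2 : (prs u ⌈w⌉₊).filter (fun p => true = true → 3 * c p < L) =
            (prs u ⌈w⌉₊).filter (fun p => 3 * c p < L) := by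
          apply Finset.filter_congr
          intro p _
          simp
        have f3 : ∑ p ∈ (prs u ⌈w⌉₊).filter (fun p => true = true → 3 * c p < L),
            g p * GG g c u p (!true) (L - c p) =
            ∑ p ∈ (prs u ⌈w⌉₊).filter (fun p => 3 * c p < L), g p * GG g c u p false (L - c p) := by
          rw [f2]; rfl
        have r1 : Real.log w / L = 1 / s := by rw [hs]; field_simp
        have r2 : ∀ a : ℝ, a * Real.log w / L = a / s := by
          intro a; rw [hs]; field_simp
        rw [r1, r2] at T1 T2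
        have hfin : GG g c u ⌈w⌉₊ true L - VV g u ⌈w⌉₊ ≤ VV g u ⌈w⌉₊ * (U s + τ * HU s) := by
          have q1 : GG g c u ⌈w⌉₊ true L - VV g u ⌈w⌉₊ = ∑ p ∈ prs u ⌈w⌉₊, g p * VV g u p -
              ∑ p ∈ (prs u ⌈w⌉₊).filter (fun p => 3 * c p < L), g p * GG g c u p false (L - c p) := by
            rw [e1, ← f3]
            conv_lhs => rw [e2]
            ring
          rw [q1]
          refine hsumpt.trans ((add_le_add T1 T2).trans ?_)
          rw [← mul_add]
          exact mul_le_mul_of_nonneg_left A7 (hVn _)
        nlinarith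
      · -- lower bound
        intro h2w
        have hs2 : 2 ≤ s := by rw [hs, le_div_iff₀ hlw]; linarith
        obtain ⟨A1, A2, A3, A7⟩ := HW1 U W hFP ε δ τ hε0 hεe2 hδ0 hδe2 hτ2 s hs2
        have e1 := G1 g c u ⌈w⌉₊ false L
        have e2 := G2 g u ⌈w⌉₊
        have T1 := hsum g c u ε δ hS w L s (Φ₃ U τ δ) hw hL le_rfl A1 A2 A3
        have hδ1 : δ ≤ 1 / 10 := hδe2.trans he2'
        have hpt : ∀ p ∈ prs u ⌈w⌉₊,
            g p * GG g c u p true (L - c p) - g p * VV g u p ≤
            g p * VV g u p * Φ₃ U τ δ (L / Real.log p) := by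
          intro p hp
          obtain ⟨hpp, hup, hpw, hlp, hlpw, hsp⟩ := hpf p hp
          have hg0 := hS.hg0 p hpp
          have hc1 := hS.hc1 p hpp hup
          have hc2 := hS.hc2 p hpp hup
          have hgV : 0 ≤ g p * VV g u p := mul_nonneg hg0 (hVn p)
          have hp1 : (1:ℝ) < p := by exact_mod_cast hpp.one_lt
          have hcl : c p / Real.log p ≤ 1 + δ := by
            rw [div_le_iff₀ hlp]; linarith
          have hL' : 0 < L - c p := by nlinarith
          have hih := (ih p (by omega) (p:ℝ) (L - c p) (by simp) hp1 hL').1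
          rw [Nat.ceil_natCast] at hih
          set sp := (L - c p) / Real.log p with hsp'
          have hspt : L / Real.log p - 1 - δ ≤ sp := by
            rw [hsp', sub_div]; linarith
          have ht0 : 0 < L / Real.log p - 1 - δ := by linarith
          have hsp0 : 0 < sp := lt_of_lt_of_le ht0 hspt
          have hUp : U sp + τ * HU sp ≤ Φ₃ U τ δ (L / Real.log p) := by
            unfold Φ₃
            have h1 : U sp ≤ U (L / Real.log p - 1 - δ) :=
              hFP.Uanti (Set.mem_Ioi.mpr ht0) (Set.mem_Ioi.mpr hsp0) hspt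
            have h2 : τ * HU sp ≤ τ * HU (L / Real.log p - 1 - δ) :=
              mul_le_mul_of_nonneg_left (HU_anti ht0 hspt) hτ0
            linarith
          have h1 : g p * GG g c u p true (L - c p) ≤ g p * (VV g u p * (1 + U sp + τ * HU sp)) :=
            mul_le_mul_of_nonneg_left hih hg0
          have h2 : g p * VV g u p * (U sp + τ * HU sp) ≤ g p * VV g u p * Φ₃ U τ δ (L / Real.log p) :=
            mul_le_mul_of_nonneg_left hUp hgV
          nlinarith
        have hsumpt := Finset.sum_le_sum hpt
        rw [Finset.sum_sub_distrib] at hsumpt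
        have f1 : (prs u ⌈w⌉₊).filter (fun p : ℕ => s < L / Real.log p) = prs u ⌈w⌉₊ := by
          apply Finset.filter_true_of_mem
          intro p hp
          exact (hpf p hp).2.2.2.2.2
        rw [f1] at T1
        have f3 : ∑ p ∈ (prs u ⌈w⌉₊).filter (fun p => false = true → 3 * c p < L),
            g p * GG g c u p (!false) (L - c p) =
            ∑ p ∈ prs u ⌈w⌉₊, g p * GG g c u p true (L - c p) := by
          rw [Finset.filter_true_of_mem (fun p _ h => absurd h (by simp))]; rfl
        have r1 : Real.log w / L = 1 / s := by rw [hs]; field_simp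
        have r2 : ∀ a : ℝ, a * Real.log w / L = a / s := by
          intro a; rw [hs]; field_simp
        rw [r1, r2] at T1
        have hfin : VV g u ⌈w⌉₊ - GG g c u ⌈w⌉₊ false L ≤ VV g u ⌈w⌉₊ * (W s + τ * HW s) := by
          have q1 : VV g u ⌈w⌉₊ - GG g c u ⌈w⌉₊ false L = ∑ p ∈ prs u ⌈w⌉₊, g p * GG g c u p true (L - c p)
              - ∑ p ∈ prs u ⌈w⌉₊, g p * VV g u p := by
            rw [e1, ← f3]
            conv_lhs => rw [e2]
            ring
          rw [q1]
          refine hsumpt.trans (T1.trans ?_)
          exact mul_le_mul_of_nonneg_left A7 (hVn _)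
        nlinarith
  intro w L hw hL
  exact key _ w L rfl hw hL

end Pool.Agent.TCub
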