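import Pool.Agent.TCub.Stmts

open Finset

namespace Pool.Agent.TCub

namespace Adms

theorem ed_nonneg (N j : ℕ) : 0 ≤ ed N j := by unfold ed; positivity

theorem ed_mono (N : ℕ) {i j : ℕ} (hij : i ≤ j) : ed N i ≤ ed N j := by
  unfold ed
  apply div_le_div_of_nonneg_right _ (by positivity)
  have : (i : ℝ) ≤ j := by exact_mod_cast hij
  linarith

theorem adm_sum (N : ℕ) : ∀ (js : List ℕ) (b : Bool) (l : ℝ), 0 < l → js.Pairwise (· ≥ ·) →
    Adm N b l js → (b = false → ∀ j ∈ js, ed N j < l) → (js.map (ed N)).sum < l := by
  intro js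
  induction js with
  | nil => intro b l hl _ _ _; simpa using hl
  | cons j js ih =>
    intro b l hl hs hA hf
    rw [List.pairwise_cons] at hs
    rw [Adm] at hA
    rw [List.map_cons, List.sum_cons]
    cases b with
    | true =>
      have h3 := hA.1 rfl
      have hl' : 0 < l - ed N j := by have := ed_nonneg N j; linarith
      have h4 := ih (!true) (l - ed N j) hl' hs.2 hA.2 (by
        intro _ i hi
        have h5 := ed_mono N (hs.1 i hi)
        have := ed_nonneg N j
        linarith)
      linarith
    | false =>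
      have h3 := hf rfl j (List.mem_cons_self)
      have hl' : 0 < l - ed N j := by linarith
      have h4 := ih (!false) (l - ed N j) hl' hs.2 hA.2 (by
        intro h
        simp at h)
      linarith

theorem filter_nil (N : ℕ) (θ : ℝ) (d : ℕ) (rest : List ℕ) (h : (d :: rest).Pairwise (· ≥ ·))
    (hd : ed N d ≤ θ) : (d :: rest).filter (fun j => decide (θ < ed N j)) = [] := by
  rw [List.filter_eq_nil_iff]
  intro i hi
  rw [decide_eq_true_eq, not_lt]
  rw [List.mem_cons] at hi
  rcases hi with rfl | hi
  · exact hd
  · rw [List.pairwise_cons] at h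
    exact (ed_mono N (h.1 i hi)).trans hd

theorem large3 (N : ℕ) (θ : ℝ) (js : List ℕ) (hs : js.Pairwise (· ≥ ·))
    (h : ∀ a b c d rest, js = a :: b :: c :: d :: rest → ed N d ≤ θ) :
    (js.filter (fun j => decide (θ < ed N j))).length ≤ 3 := by
  match js, hs, h with
  | [], _, _ => simp
  | [a], _, _ => exact (List.length_filter_le _ _).trans (by simp)
  | [a, b], _, _ => exact (List.length_filter_le _ _).trans (by simp)
  | [a, b, c], _, _ => exact (List.length_filter_le _ _).trans (by simp)
  | a :: b :: c :: d :: rest, hs, h =>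
    have h1 := h a b c d rest rfl
    have h2 : a :: b :: c :: d :: rest = [a, b, c] ++ (d :: rest) := rfl
    rw [h2, List.filter_append, filter_nil N θ d rest ?_ h1, List.append_nil]
    · exact (List.length_filter_le _ _).trans (by simp)
    · rw [List.pairwise_cons, List.pairwise_cons, List.pairwise_cons] at hs
      exact hs.2.2.2

theorem large2 (N : ℕ) (θ : ℝ) (js : List ℕ) (hs : js.Pairwise (· ≥ ·))
    (h : ∀ a b c rest, js = a :: b :: c :: rest → ed N c ≤ θ) :
    (js.filter (fun j => decide (θ < ed N j))).length ≤ 2 := by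
  match js, hs, h with
  | [], _, _ => simp
  | [a], _, _ => exact (List.length_filter_le _ _).trans (by simp)
  | [a, b], _, _ => exact (List.length_filter_le _ _).trans (by simp)
  | a :: b :: c :: rest, hs, h =>
    have h1 := h a b c rest rfl
    have h2 : a :: b :: c :: rest = [a, b] ++ (c :: rest) := rfl
    rw [h2, List.filter_append, filter_nil N θ c rest ?_ h1, List.append_nil]
    · exact (List.length_filter_le _ _).trans (by simp)
    · rw [List.pairwise_cons, List.pairwise_cons] at hs
      exact hs.2.2

theorem card_filter (N : ℕ) (θ : ℝ) (m : Multiset ℕ) :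
    Multiset.card (m.filter (fun j => θ < ed N j)) =
      ((m.sort (· ≥ ·)).filter (fun j => decide (θ < ed N j))).length := by
  conv_lhs => rw [← Multiset.sort_eq m (· ≥ ·)]
  rw [Multiset.filter_coe, Multiset.coe_card]

theorem tv_sort (N : ℕ) (m : Multiset ℕ) : tv N m = ((m.sort (· ≥ ·)).map (ed N)).sum := by
  unfold tv
  conv_lhs => rw [← Multiset.sort_eq m (· ≥ ·)]
  rw [Multiset.map_coe, Multiset.sum_coe]

theorem mem_Ty {J r : ℕ} {m : Multiset ℕ} (hm : m ∈ Ty J r) : ∀ j ∈ m, j < J := by
  intro j hj
  unfold Ty at hm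
  rw [Multiset.mem_toFinset, Multiset.mem_powerset] at hm
  have h1 := Multiset.mem_of_le hm hj
  rw [Multiset.mem_sum] at h1
  obtain ⟨i, hi, h2⟩ := h1
  rw [Multiset.mem_replicate] at h2
  rw [h2.2]
  exact Finset.mem_range.1 hi

theorem mem_Tya {N : ℕ} {b : Bool} {l : ℝ} {J r : ℕ} {m : Multiset ℕ} (hm : m ∈ Tya N b l J r) :
    (∀ j ∈ m, j < J) ∧ Multiset.card m ≤ r ∧ Adm N b l (m.sort (· ≥ ·)) := by
  classical
  unfold Tya at hm
  rw [mem_filter] at hm
  exact ⟨mem_Ty hm.1, hm.2.1, hm.2.2⟩

theorem ed_le {N j : ℕ} (hN : 1 ≤ N) (hj : j < 425 * N) : ed N j ≤ 425 / 1000 := by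
  have hN0 : (0 : ℝ) < N := by exact_mod_cast hN
  unfold ed
  rw [div_le_div_iff₀ (by positivity) (by norm_num)]
  have : (j : ℝ) + 1 ≤ 425 * N := by exact_mod_cast hj
  nlinarith

end Adms

open Adms in
theorem tAdms : St_adm := by
  intro N r hN
  have hN0 : (0 : ℝ) < N := by exact_mod_cast hN
  refine ⟨?_, ?_, ?_⟩
  · intro m hm
    obtain ⟨h1, h2, h3⟩ := mem_Tya hm
    have hs := Multiset.pairwise_sort m (· ≥ ·)
    have htot := adm_sum N (m.sort (· ≥ ·)) false (17 / 10) (by norm_num) hs h3 (by
      intro _ j hj
      rw [Multiset.mem_sort] at hj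
      have := ed_le hN (h1 j hj)
      linarith)
    rw [← tv_sort] at htot
    refine ⟨h2, by linarith, ?_, ?_⟩
    · rw [Adms.card_filter]
      apply large3 N _ _ hs
      intro a b c d rest hjs
      by_contra hcon
      push Not at hcon
      rw [hjs] at h3 hs
      simp only [Adm, List.pairwise_cons] at h3 hs
      have e1 := ed_mono N (hs.1 d (by simp))
      have e2 := ed_mono N (hs.2.1 d (by simp))
      have e3 := ed_mono N (hs.2.2.1 d (by simp))
      have h4 := h3.2.2.2.1 (by simp)
      linarith
    · intro j hj hj2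
      have := ed_le hN (h1 j hj)
      linarith
  · intro m hm
    obtain ⟨h1, h2, h3⟩ := mem_Tya hm
    have hs := Multiset.pairwise_sort m (· ≥ ·)
    have htot := adm_sum N (m.sort (· ≥ ·)) true 1 (by norm_num) hs h3 (by
      intro h; simp at h)
    have htot' := htot
    rw [← tv_sort] at htot
    refine ⟨h2, by linarith, ?_, ?_⟩
    · rw [Adms.card_filter]
      apply large3 N _ _ hs
      intro a b c d rest hjs
      by_contra hcon
      push Not at hcon
      rw [hjs] at htot' hs
      simp only [List.pairwise_cons] at hs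
      have e1 := ed_mono N (hs.1 d (by simp))
      have e2 := ed_mono N (hs.2.1 d (by simp))
      have e3 := ed_mono N (hs.2.2.1 d (by simp))
      simp only [List.map_cons, List.sum_cons] at htot'
      have e4 : 0 ≤ (rest.map (ed N)).sum := by
        apply List.sum_nonneg
        intro z hz
        rw [List.mem_map] at hz
        obtain ⟨i, -, rfl⟩ := hz
        exact ed_nonneg N i
      linarith
    · intro j hj hj2
      have := ed_le hN (h1 j hj)
      linarith
  · intro j hj1 hj2
    have ht1 : 425 / 1000 < ed N j := by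
      unfold ed
      rw [div_lt_div_iff₀ (by norm_num) (by positivity)]
      have : (425 : ℝ) * N ≤ j := by exact_mod_cast hj1
      nlinarith
    have ht2 : ed N j ≤ 1405 / 1000 := by
      unfold ed
      rw [div_le_div_iff₀ (by positivity) (by norm_num)]
      have : (j : ℝ) + 1 ≤ 1405 * N := by exact_mod_cast hj2
      nlinarith
    have hm1 : min (17 / 10 : ℝ) (199 / 100 - ed N j / 3) ≤ 17 / 10 := min_le_left _ _
    have hm2 : min (17 / 10 : ℝ) (199 / 100 - ed N j / 3) ≤ 199 / 100 - ed N j / 3 :=
      min_le_right _ _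
    have hlv0 : 0 < lv N j := by
      unfold lv
      have : ed N j < min (17 / 10 : ℝ) (199 / 100 - ed N j / 3) := by
        apply lt_min <;> linarith
      linarith
    have hlv1 : lv N j ≤ 1275 / 1000 := by
      unfold lv
      linarith
    refine ⟨hlv0, hlv1, ?_⟩
    intro m hm
    obtain ⟨h1, h2, h3⟩ := mem_Tya hm
    have hs := Multiset.pairwise_sort m (· ≥ ·)
    have htot := adm_sum N (m.sort (· ≥ ·)) true (lv N j) hlv0 hs h3 (by
      intro h; simp at h)
    rw [← tv_sort] at htot
    have htv : tv N (j ::ₘ m) = ed N j + tv N m := by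
      unfold tv
      rw [Multiset.map_cons, Multiset.sum_cons]
    have htot2 : tv N (j ::ₘ m) < min (17 / 10 : ℝ) (199 / 100 - ed N j / 3) := by
      rw [htv]
      unfold lv at htot
      linarith
    refine ⟨h2, ⟨by linarith, ?_, ?_⟩, ?_⟩
    · rw [Multiset.filter_cons_of_pos _ (by linarith), Multiset.card_cons]
      have : Multiset.card (m.filter (fun j => 2865 / 10000 < ed N j)) ≤ 2 := by
        rw [Adms.card_filter]
        apply large2 N _ _ hs
        intro a b c rest hjs
        by_contra hcon
        push Not at hcon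
        rw [hjs] at h3 hs
        simp only [Adm, List.pairwise_cons] at h3 hs
        have e1 := ed_mono N (hs.1 c (by simp))
        have e2 := ed_mono N (hs.2.1 c (by simp))
        have h4 := h3.2.2.1 (by simp)
        linarith
      omega
    · intro i hi hi2
      rw [Multiset.mem_cons] at hi
      have hij : i = j := by
        rcases hi with hi | hi
        · exact hi
        · have := ed_le hN (h1 i hi)
          linarith
      subst hij
      refine ⟨by linarith, ?_⟩
      intro i' hi'
      rw [Multiset.erase_cons_head] at hi'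
      exact ed_le hN (h1 i' hi')
    · intro i hi
      exact lt_of_lt_of_le (h1 i hi) hj1

end Pool.Agent.TCub
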