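import Pool.Agent.TCub.Stmts2

open Finset

namespace Pool.Agent.TCub

namespace Bfin

/-- sum of the cubes -/
def vv (t : ℕ × ℕ × ℕ) : ℕ := t.1 ^ 3 + t.2.1 ^ 3 + t.2.2 ^ 3

/-- combinatorial Cauchy-Schwarz -/
lemma comb (P : ℕ) (S : Finset (ℕ × ℕ × ℕ)) (V : Finset ℕ)
    (hS : ∀ t ∈ S, (1 ≤ t.1 ∧ t.1 ≤ P) ∧ (1 ≤ t.2.1 ∧ t.2.1 ≤ P) ∧ (1 ≤ t.2.2 ∧ t.2.2 ≤ P))
    (hV : ∀ t ∈ S, vv t ∈ V) : S.card ^ 2 ≤ V.card * JJ 3 P := by
  classical
  have h1 : S.card = ∑ v ∈ V, (S.filter fun t => vv t = v).card :=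
    Finset.card_eq_sum_card_fiberwise hV
  have h2 : (∑ v ∈ V, (S.filter fun t => vv t = v).card) ^ 2 ≤
      V.card * ∑ v ∈ V, (S.filter fun t => vv t = v).card ^ 2 :=
    sq_sum_le_card_mul_sum_sq
  have h3 : ∑ v ∈ V, (S.filter fun t => vv t = v).card ^ 2 ≤ JJ 3 P := by
    have h31 : ∑ v ∈ V, (S.filter fun t => vv t = v).card ^ 2 =
        (V.sigma fun v => (S.filter fun t => vv t = v) ×ˢ (S.filter fun t => vv t = v)).card := by
      rw [Finset.card_sigma]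
      refine Finset.sum_congr rfl fun v _ => ?_
      rw [Finset.card_product, sq]
    rw [h31]
    unfold JJ
    refine Finset.card_le_card_of_injOn
      (fun z : (Σ _ : ℕ, (ℕ × ℕ × ℕ) × (ℕ × ℕ × ℕ)) =>
        ((![z.2.1.1, z.2.1.2.1, z.2.1.2.2] : Fin 3 → ℕ),
          (![z.2.2.1, z.2.2.2.1, z.2.2.2.2] : Fin 3 → ℕ))) ?_ ?_
    · rintro ⟨v, t, t'⟩ hz
      simp only [Finset.coe_sigma, Set.mem_sigma_iff, Finset.mem_coe, Finset.mem_product,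
        Finset.mem_filter] at hz
      obtain ⟨-, ⟨ht, htv⟩, ht', htv'⟩ := hz
      have a := hS t ht
      have a' := hS t' ht'
      simp only [Finset.coe_filter, Finset.mem_product, Fintype.mem_piFinset, Set.mem_ofPred_eq,
        Fin.sum_univ_three, Finset.mem_Icc]
      refine ⟨⟨?_, ?_⟩, ?_⟩
      · intro i
        fin_cases i
        · exact a.1
        · exact a.2.1
        · exact a.2.2
      · intro i
        fin_cases i
        · exact a'.1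
        · exact a'.2.1
        · exact a'.2.2
      · have : vv t = vv t' := by rw [htv, htv']
        exact this
    · rintro ⟨v, ⟨a, b, c⟩, ⟨a', b', c'⟩⟩ hz ⟨w, ⟨d, e, f⟩, ⟨d', e', f'⟩⟩ hw h
      simp only [Finset.coe_sigma, Set.mem_sigma_iff, Finset.mem_coe, Finset.mem_product,
        Finset.mem_filter] at hz hw
      simp only [Prod.mk.injEq] at h
      obtain ⟨h1, h2⟩ := h
      have e0 := congrFun h1 0
      have e1 := congrFun h1 1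
      have e2 := congrFun h1 2
      have f0 := congrFun h2 0
      have f1 := congrFun h2 1
      have f2 := congrFun h2 2
      simp at e0 e1 e2 f0 f1 f2
      subst e0 e1 e2 f0 f1 f2
      have : v = w := by rw [← hz.2.1.2, ← hw.2.1.2]
      subst this
      rfl
  calc S.card ^ 2 = (∑ v ∈ V, (S.filter fun t => vv t = v).card) ^ 2 := by rw [← h1]
    _ ≤ V.card * ∑ v ∈ V, (S.filter fun t => vv t = v).card ^ 2 := h2
    _ ≤ V.card * JJ 3 P := Nat.mul_le_mul_left _ h3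

lemma le_floor {X : ℝ} {a n : ℕ} (h : (n:ℝ) ≤ X) (ha : a ^ 3 ≤ n) : a ≤ ⌊X ^ (1 / 3 : ℝ)⌋₊ := by
  apply Nat.le_floor
  have h1 : ((a:ℝ)) ^ 3 ≤ X := by
    have : ((a:ℝ)) ^ 3 ≤ (n:ℝ) := by exact_mod_cast ha
    exact this.trans h
  have h2 : ((a:ℝ) ^ 3) ^ (1 / 3 : ℝ) ≤ X ^ (1 / 3 : ℝ) :=
    Real.rpow_le_rpow (by positivity) h1 (by norm_num)
  have h3 : ((a:ℝ) ^ 3) ^ (1 / 3 : ℝ) = a := by
    rw [← Real.rpow_natCast, ← Real.rpow_mul (by positivity)]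
    norm_num
  rwa [h3] at h2

end Bfin

open Bfin in
/- HINT: P=floor(X^{1/3}); every t in Tg8 X has entries <=P. Map t -> n; #Tg8^2 <= #values * #{(t,t') same value} <= #values * JJ 3 P. (cX/log X)^2/(C X^{7/6+eps/3}) >= X^{5/6-eps} for large X. -/
theorem tBfin (hJ3 : St_J3) (hT1s : St_T1s) : St_B := by
  classical
  intro ε hε
  obtain ⟨c, hc, X₁, hX₁⟩ := hT1s
  obtain ⟨C, hC, hJ⟩ := hJ3 ε hε
  -- `log X ≤ δ X^{ε/3}` for large `X`, `δ² = c²/C`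
  have hδ : 0 < c / Real.sqrt C := div_pos hc (Real.sqrt_pos.mpr hC)
  have hlog := (isLittleO_log_rpow_atTop (show (0:ℝ) < ε / 3 by positivity)).bound hδ
  obtain ⟨X₂, hX₂⟩ := Filter.eventually_atTop.mp hlog
  refine ⟨max (max X₁ X₂) 3, ?_⟩
  intro X hX
  have hX1 : X₁ ≤ X := (le_max_left _ _).trans ((le_max_left _ _).trans hX)
  have hX2 : X₂ ≤ X := (le_max_right _ _).trans ((le_max_left _ _).trans hX)
  have hX3 : (3:ℝ) ≤ X := (le_max_right _ _).trans hX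
  have hX0 : (0:ℝ) < X := by linarith
  set V : Set ℕ := {n : ℕ | (n:ℝ) ≤ X ∧ ArithmeticFunction.cardFactors n ≤ 2 ∧
      (∀ p : ℕ, p.Prime → p ∣ n → X ^ (7 / 50 : ℝ) ≤ p) ∧
      ∃ k l m : ℕ, 1 ≤ k ∧ 1 ≤ l ∧ 1 ≤ m ∧ n = k ^ 3 + l ^ 3 + m ^ 3} with hVdef
  have hVfin : V.Finite := by
    refine (Set.finite_Iic ⌊X⌋₊).subset ?_
    intro n hn
    exact Nat.le_floor hn.1
  set P : ℕ := ⌊X ^ (1 / 3 : ℝ)⌋₊ with hP
  have hPle : (P:ℝ) ≤ X ^ (1 / 3 : ℝ) := Nat.floor_le (by positivity)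
  have hP1 : 1 ≤ P := by
    apply Nat.le_floor
    push_cast
    exact Real.one_le_rpow (by linarith) (by norm_num)
  have hP0 : (0:ℝ) < P := by exact_mod_cast hP1
  have hent : ∀ t ∈ Tg8 X, (1 ≤ t.1 ∧ t.1 ≤ P) ∧ (1 ≤ t.2.1 ∧ t.2.1 ≤ P) ∧
      (1 ≤ t.2.2 ∧ t.2.2 ≤ P) := by
    intro t ht
    obtain ⟨h1, h2, h3, h4, -⟩ := ht
    exact ⟨⟨h1, le_floor h4 (by omega)⟩, ⟨h2, le_floor h4 (by omega)⟩,
      ⟨h3, le_floor h4 (by omega)⟩⟩
  have hSfin : (Tg8 X).Finite := by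
    refine ((Finset.Icc 1 P) ×ˢ ((Finset.Icc 1 P) ×ˢ (Finset.Icc 1 P))).finite_toSet.subset ?_
    intro t ht
    have := hent t ht
    simp only [Finset.coe_product, Set.mem_prod, Finset.mem_coe, Finset.mem_Icc]
    exact this
  have hcomb := comb P hSfin.toFinset hVfin.toFinset
    (fun t ht => hent t (hSfin.mem_toFinset.mp ht))
    (fun t ht => by
      have ht' := hSfin.mem_toFinset.mp ht
      rw [hVfin.mem_toFinset]
      obtain ⟨h1, h2, h3, h4, h5, h6⟩ := ht'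
      exact ⟨h4, h5, h6, t.1, t.2.1, t.2.2, h1, h2, h3, rfl⟩)
  rw [← Set.ncard_eq_toFinset_card _ hSfin, ← Set.ncard_eq_toFinset_card _ hVfin] at hcomb
  have hcR : ((Tg8 X).ncard : ℝ) ^ 2 ≤ (V.ncard : ℝ) * (JJ 3 P : ℝ) := by exact_mod_cast hcomb
  have hS := hX₁ X hX1
  have hlogpos : 0 < Real.log X := Real.log_pos (by linarith)
  have hJJ : (JJ 3 P : ℝ) ≤ C * X ^ (7 / 6 + ε / 3) := by
    refine (hJ P hP1).trans ?_
    have : (P:ℝ) ^ (7 / 2 + ε) ≤ X ^ (7 / 6 + ε / 3) := by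
      refine (Real.rpow_le_rpow hP0.le hPle (by positivity)).trans ?_
      rw [← Real.rpow_mul hX0.le]
      refine le_of_eq ?_
      congr 1
      ring
    gcongr
  have hl := hX₂ X hX2
  rw [Real.norm_eq_abs, Real.norm_eq_abs, abs_of_pos hlogpos, abs_of_pos (by positivity)] at hl
  -- (cX)^2 ≤ V * C * X^(7/6+ε/3) * log² X
  have hmain : (c * X) ^ 2 ≤ (V.ncard : ℝ) * (C * X ^ (7 / 6 + ε / 3)) * Real.log X ^ 2 := by
    have h1 : (c * X / Real.log X) ^ 2 ≤ (V.ncard : ℝ) * (C * X ^ (7 / 6 + ε / 3)) := by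
      calc (c * X / Real.log X) ^ 2 ≤ ((Tg8 X).ncard : ℝ) ^ 2 := by
            gcongr
        _ ≤ (V.ncard : ℝ) * (JJ 3 P : ℝ) := hcR
        _ ≤ _ := by gcongr
    rw [div_pow, div_le_iff₀ (by positivity)] at h1
    exact h1
  have hl2 : Real.log X ^ 2 ≤ c ^ 2 / C * X ^ (2 * ε / 3) := by
    have : Real.log X ^ 2 ≤ (c / Real.sqrt C * X ^ (ε / 3)) ^ 2 := by gcongr
    rw [mul_pow, div_pow, Real.sq_sqrt hC.le, ← Real.rpow_natCast (X ^ (ε / 3)),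
      ← Real.rpow_mul hX0.le] at this
    refine this.trans (le_of_eq ?_)
    congr 2
    push_cast
    ring
  have hfin : (c * X) ^ 2 ≤ (V.ncard : ℝ) * (c ^ 2 * (X ^ (7 / 6 + ε / 3) * X ^ (2 * ε / 3))) := by
    calc (c * X) ^ 2 ≤ (V.ncard : ℝ) * (C * X ^ (7 / 6 + ε / 3)) * Real.log X ^ 2 := hmain
      _ ≤ (V.ncard : ℝ) * (C * X ^ (7 / 6 + ε / 3)) * (c ^ 2 / C * X ^ (2 * ε / 3)) := by gcongr
      _ = _ := by field_simp
  rw [← Real.rpow_add hX0] at hfin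
  have hexp : (7 / 6 + ε / 3 + 2 * ε / 3 : ℝ) = 2 - (5 / 6 - ε) := by ring
  rw [hexp, Real.rpow_sub hX0] at hfin
  have hpp : 0 < X ^ (5 / 6 - ε : ℝ) := by positivity
  have hx2 : X ^ (2:ℝ) = X ^ 2 := by norm_num
  rw [hx2] at hfin
  have hfin2 : (c ^ 2 * X ^ 2) * X ^ (5 / 6 - ε : ℝ) ≤ (c ^ 2 * X ^ 2) * (V.ncard : ℝ) := by
    have := mul_le_mul_of_nonneg_right hfin hpp.le
    have e1 : (V.ncard : ℝ) * (c ^ 2 * (X ^ 2 / X ^ (5 / 6 - ε : ℝ))) * X ^ (5 / 6 - ε : ℝ) =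
      (c ^ 2 * X ^ 2) * (V.ncard : ℝ) := by
      field_simp
    rw [e1, mul_pow] at this
    exact this
  exact le_of_mul_le_mul_left hfin2 (by positivity)

end Pool.Agent.TCub
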