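import Pool.Agent.TCub.Stmts

open Finset

namespace Pool.Agent.TCub

namespace Bil

/-- `∑_{e ≤ N, e ∣ m, e ∣ n} μ(e) = 1[(m,n)=1]` -/
theorem moeb {N m n : ℕ} (hm : 1 ≤ m) (hmN : m ≤ N) :
    ∑ e ∈ Finset.Icc 1 N, (if e ∣ m ∧ e ∣ n then ((ArithmeticFunction.moebius e : ℤ) : ℂ) else 0) =
      if Nat.Coprime m n then 1 else 0 := by
  rw [← Finset.sum_filter]
  have e1 : (Finset.Icc 1 N).filter (fun e => e ∣ m ∧ e ∣ n) = (Nat.gcd m n).divisors := by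
    ext e
    simp only [Finset.mem_filter, Finset.mem_Icc, Nat.mem_divisors, Nat.dvd_gcd_iff]
    constructor
    · rintro ⟨h1, h2⟩
      exact ⟨h2, (Nat.gcd_pos_of_pos_left n hm).ne'⟩
    · rintro ⟨h1, h2⟩
      exact ⟨⟨Nat.pos_of_dvd_of_pos h1.1 hm, (Nat.le_of_dvd hm h1.1).trans hmN⟩, h1⟩
  rw [e1]
  have h2 : ∑ e ∈ (Nat.gcd m n).divisors, ArithmeticFunction.moebius e =
      if Nat.gcd m n = 1 then 1 else 0 := by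
    rw [← ArithmeticFunction.coe_mul_zeta_apply, ArithmeticFunction.moebius_mul_coe_zeta,
      ArithmeticFunction.one_apply]
  rw [← Int.cast_sum, h2]
  unfold Nat.Coprime
  split_ifs <;> simp

/-- the inner sums -/
noncomputable def A (N : ℕ) (a : ℕ → ℂ) (n₃ e : ℕ) (h : Fin 3 → ℤ) : ℂ :=
  ∑ n ∈ (Finset.Icc 1 N).filter (fun n => Squarefree n ∧ e ∣ n),
    (if Nat.Coprime n n₃ then a n else 0) * sS n h

theorem A_eq (N : ℕ) (a : ℕ → ℂ) (n₃ e : ℕ) (h : Fin 3 → ℤ) :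
    A N a n₃ e h = ∑ n ∈ Finset.Icc 1 N, if Squarefree n ∧ e ∣ n then
      (if Nat.Coprime n n₃ then a n else 0) * sS n h else 0 := by
  unfold A
  rw [Finset.sum_filter]

theorem sqf3 {a b c : ℕ} : Squarefree (a * b * c) ↔
    Squarefree a ∧ Squarefree b ∧ Squarefree c ∧ Nat.Coprime a b ∧ Nat.Coprime a c ∧
      Nat.Coprime b c := by
  rw [Nat.squarefree_mul_iff, Nat.squarefree_mul_iff, Nat.coprime_mul_iff_left]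
  tauto

theorem point (hsS : St_sS) {N₁ n₁ n₂ n₃ : ℕ} (h1 : 1 ≤ n₁) (h1N : n₁ ≤ N₁)
    (a₁ a₂ a₃ : ℕ → ℂ) (h : Fin 3 → ℤ) :
    (if Squarefree (n₁ * n₂ * n₃) then a₁ n₁ * a₂ n₂ * a₃ n₃ * sS (n₁ * n₂ * n₃) h else 0) =
    ∑ e ∈ Finset.Icc 1 N₁, ((ArithmeticFunction.moebius e : ℤ) : ℂ) *
      (if Squarefree n₃ then a₃ n₃ * sS n₃ h else 0) *
      (if Squarefree n₁ ∧ e ∣ n₁ then (if Nat.Coprime n₁ n₃ then a₁ n₁ else 0) * sS n₁ h else 0) *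
      (if Squarefree n₂ ∧ e ∣ n₂ then (if Nat.Coprime n₂ n₃ then a₂ n₂ else 0) * sS n₂ h else 0) := by
  by_cases hh : Squarefree n₁ ∧ Squarefree n₂ ∧ Squarefree n₃ ∧ Nat.Coprime n₁ n₃ ∧
      Nat.Coprime n₂ n₃
  · obtain ⟨s1, s2, s3, c1, c2⟩ := hh
    have e1 : ∀ e ∈ Finset.Icc 1 N₁, ((ArithmeticFunction.moebius e : ℤ) : ℂ) *
      (if Squarefree n₃ then a₃ n₃ * sS n₃ h else 0) *
      (if Squarefree n₁ ∧ e ∣ n₁ then (if Nat.Coprime n₁ n₃ then a₁ n₁ else 0) * sS n₁ h else 0) *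
      (if Squarefree n₂ ∧ e ∣ n₂ then (if Nat.Coprime n₂ n₃ then a₂ n₂ else 0) * sS n₂ h else 0) =
      (a₃ n₃ * sS n₃ h * (a₁ n₁ * sS n₁ h) * (a₂ n₂ * sS n₂ h)) *
        (if e ∣ n₁ ∧ e ∣ n₂ then ((ArithmeticFunction.moebius e : ℤ) : ℂ) else 0) := by
      intro e _
      rw [if_pos s3, if_pos c1, if_pos c2]
      by_cases d1 : e ∣ n₁ <;> by_cases d2 : e ∣ n₂
      · rw [if_pos ⟨s1, d1⟩, if_pos ⟨s2, d2⟩, if_pos ⟨d1, d2⟩]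
        ring
      · rw [if_neg (fun hc => d2 hc.2 : ¬ (Squarefree n₂ ∧ e ∣ n₂)),
          if_neg (fun hc => d2 hc.2 : ¬ (e ∣ n₁ ∧ e ∣ n₂))]
        ring
      · rw [if_neg (fun hc => d1 hc.2 : ¬ (Squarefree n₁ ∧ e ∣ n₁)),
          if_neg (fun hc => d1 hc.1 : ¬ (e ∣ n₁ ∧ e ∣ n₂))]
        ring
      · rw [if_neg (fun hc => d1 hc.2 : ¬ (Squarefree n₁ ∧ e ∣ n₁)),
          if_neg (fun hc => d1 hc.1 : ¬ (e ∣ n₁ ∧ e ∣ n₂))]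
        ring
    rw [Finset.sum_congr rfl e1, ← Finset.mul_sum, moeb h1 h1N]
    by_cases hc : Nat.Coprime n₁ n₂
    · rw [if_pos hc, if_pos (sqf3.2 ⟨s1, s2, s3, hc, c1, c2⟩),
        hsS.2.2.1 (n₁ * n₂) n₃ (Nat.Coprime.mul_left c1 c2), hsS.2.2.1 n₁ n₂ hc]
      ring
    · rw [if_neg hc, if_neg (fun hc2 => hc (sqf3.1 hc2).2.2.2.1)]
      ring
  · rw [if_neg (fun hc => hh ⟨(sqf3.1 hc).1, (sqf3.1 hc).2.1, (sqf3.1 hc).2.2.1,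
      (sqf3.1 hc).2.2.2.2.1, (sqf3.1 hc).2.2.2.2.2⟩)]
    symm
    apply Finset.sum_eq_zero
    intro e _
    by_cases s3 : Squarefree n₃
    · by_cases s1 : Squarefree n₁
      · by_cases s2 : Squarefree n₂
        · by_cases c1 : Nat.Coprime n₁ n₃
          · by_cases c2 : Nat.Coprime n₂ n₃
            · exact absurd ⟨s1, s2, s3, c1, c2⟩ hh
            · rw [if_neg c2]
              simp
          · rw [if_neg c1]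
            simp
        · rw [if_neg (fun hc => s2 hc.1 : ¬ (Squarefree n₂ ∧ e ∣ n₂))]
          ring
      · rw [if_neg (fun hc => s1 hc.1 : ¬ (Squarefree n₁ ∧ e ∣ n₁))]
        ring
    · rw [if_neg s3]
      ring

theorem triple (hsS : St_sS) (N₁ N₂ N₃ : ℕ) (a₁ a₂ a₃ : ℕ → ℂ) (h : Fin 3 → ℤ) :
    ∑ n₁ ∈ Finset.Icc 1 N₁, ∑ n₂ ∈ Finset.Icc 1 N₂, ∑ n₃ ∈ Finset.Icc 1 N₃,
      (if Squarefree (n₁ * n₂ * n₃) then a₁ n₁ * a₂ n₂ * a₃ n₃ * sS (n₁ * n₂ * n₃) h else 0) =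
    ∑ n₃ ∈ Finset.Icc 1 N₃, ∑ e ∈ Finset.Icc 1 N₁, ((ArithmeticFunction.moebius e : ℤ) : ℂ) *
      (if Squarefree n₃ then a₃ n₃ * sS n₃ h else 0) * A N₁ a₁ n₃ e h * A N₂ a₂ n₃ e h := by
  have e1 : ∀ n₁ ∈ Finset.Icc 1 N₁, ∀ n₂ ∈ Finset.Icc 1 N₂, ∀ n₃ ∈ Finset.Icc 1 N₃,
      (if Squarefree (n₁ * n₂ * n₃) then a₁ n₁ * a₂ n₂ * a₃ n₃ * sS (n₁ * n₂ * n₃) h else 0) =
    ∑ e ∈ Finset.Icc 1 N₁, ((ArithmeticFunction.moebius e : ℤ) : ℂ) *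
      (if Squarefree n₃ then a₃ n₃ * sS n₃ h else 0) *
      (if Squarefree n₁ ∧ e ∣ n₁ then (if Nat.Coprime n₁ n₃ then a₁ n₁ else 0) * sS n₁ h else 0) *
      (if Squarefree n₂ ∧ e ∣ n₂ then (if Nat.Coprime n₂ n₃ then a₂ n₂ else 0) * sS n₂ h else 0) := by
    intro n₁ hn₁ n₂ _ n₃ _
    rw [Finset.mem_Icc] at hn₁
    exact point hsS hn₁.1 hn₁.2 a₁ a₂ a₃ h
  rw [Finset.sum_congr rfl (fun n₁ h1 => Finset.sum_congr rfl (fun n₂ h2 =>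
    Finset.sum_congr rfl (fun n₃ h3 => e1 n₁ h1 n₂ h2 n₃ h3)))]
  have e2 : ∀ n₃ e, ((ArithmeticFunction.moebius e : ℤ) : ℂ) *
      (if Squarefree n₃ then a₃ n₃ * sS n₃ h else 0) * A N₁ a₁ n₃ e h * A N₂ a₂ n₃ e h =
      ∑ n₁ ∈ Finset.Icc 1 N₁, ∑ n₂ ∈ Finset.Icc 1 N₂, ((ArithmeticFunction.moebius e : ℤ) : ℂ) *
      (if Squarefree n₃ then a₃ n₃ * sS n₃ h else 0) *
      (if Squarefree n₁ ∧ e ∣ n₁ then (if Nat.Coprime n₁ n₃ then a₁ n₁ else 0) * sS n₁ h else 0) *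
      (if Squarefree n₂ ∧ e ∣ n₂ then (if Nat.Coprime n₂ n₃ then a₂ n₂ else 0) * sS n₂ h else 0) := by
    intro n₃ e
    rw [A_eq, A_eq]
    rw [mul_assoc, Finset.sum_mul_sum, Finset.mul_sum]
    apply Finset.sum_congr rfl
    intro n₁ _
    rw [Finset.mul_sum]
    apply Finset.sum_congr rfl
    intro n₂ _
    ring
  rw [Finset.sum_congr rfl (fun n₃ _ => Finset.sum_congr rfl (fun e _ => e2 n₃ e))]
  -- swap the sums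
  have s1 : ∀ n₁ ∈ Finset.Icc 1 N₁, ∀ f : ℕ → ℕ → ℕ → ℂ,
      ∑ n₂ ∈ Finset.Icc 1 N₂, ∑ n₃ ∈ Finset.Icc 1 N₃, ∑ e ∈ Finset.Icc 1 N₁, f n₂ n₃ e =
      ∑ n₃ ∈ Finset.Icc 1 N₃, ∑ e ∈ Finset.Icc 1 N₁, ∑ n₂ ∈ Finset.Icc 1 N₂, f n₂ n₃ e := by
    intro n₁ _ f
    rw [Finset.sum_comm]
    apply Finset.sum_congr rfl
    intro n₃ _
    rw [Finset.sum_comm]
  rw [Finset.sum_congr rfl (fun n₁ h1 => s1 n₁ h1 _)]
  rw [Finset.sum_comm]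
  apply Finset.sum_congr rfl
  intro n₃ _
  rw [Finset.sum_comm]

theorem harm {δ : ℝ} (hδ : 0 < δ) {N H : ℕ} (hN : 1 ≤ N) (hNH : N ≤ H) :
    ∑ e ∈ Finset.Icc 1 N, (1 / (e : ℝ)) ≤ (1 + 1 / δ) * (H : ℝ) ^ δ := by
  have h1 : ∑ e ∈ Finset.Icc 1 N, (1 / (e : ℝ)) ≤ 1 + Real.log N := by
    have := harmonic_le_one_add_log N
    have e : ((harmonic N : ℚ) : ℝ) = ∑ e ∈ Finset.Icc 1 N, (1 / (e : ℝ)) := by
      rw [harmonic_eq_sum_Icc]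
      push_cast
      apply Finset.sum_congr rfl
      intro i _
      rw [one_div]
    rw [← e]
    exact this
  have hH : (1 : ℝ) ≤ H := by exact_mod_cast hN.trans hNH
  have h2 : Real.log N ≤ Real.log H :=
    Real.log_le_log (by exact_mod_cast hN) (by exact_mod_cast hNH)
  have h3 : Real.log H ≤ (H : ℝ) ^ δ / δ := Real.log_le_rpow_div (by linarith) hδ
  have h4 : (1 : ℝ) ≤ (H : ℝ) ^ δ := Real.one_le_rpow hH hδ.le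
  have h5 : (1 + 1 / δ) * (H : ℝ) ^ δ = (H : ℝ) ^ δ + (H : ℝ) ^ δ / δ := by ring
  rw [h5]
  linarith

end Bil

open Bil in
theorem tBil (hsS : St_sS) (hdiv : St_div) (hLSse : St_LSse) : St_Bil := by
  intro ε hε
  have hδ : 0 < ε / 2 := by positivity
  set δ : ℝ := ε / 2 with hδdef
  obtain ⟨C1, hC1, hd⟩ := hdiv δ hδ 10 (by norm_num)
  obtain ⟨C2, hC2, hL⟩ := hLSse δ hδ
  refine ⟨C1 * C2 * (1 + 1 / δ), by positivity, ?_⟩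
  intro H N₁ N₂ N₃ hN1 hN2 hN3 hN1H hN2H ω a₁ a₂ a₃ hω ha1 ha2 ha3
  have hH1 : 1 ≤ H := hN1.trans hN1H
  have hHr : (1 : ℝ) ≤ H := by exact_mod_cast hH1
  have hN3r : (1 : ℝ) ≤ N₃ := by exact_mod_cast hN3
  -- Cauchy-Schwarz
  have hCS : ∀ n₃ e : ℕ, 1 ≤ e → ∑ h ∈ cube H, ‖A N₁ a₁ n₃ e h‖ * ‖A N₂ a₂ n₃ e h‖ ≤
      C2 * (H : ℝ) ^ (3 + δ) * Real.sqrt ((N₁ : ℝ) * N₂) * (1 / (e : ℝ)) := by
    intro n₃ e he
    have her : (1 : ℝ) ≤ e := by exact_mod_cast he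
    have hb : ∀ (a : ℕ → ℂ), (∀ n, ‖a n‖ ≤ 1) → ∀ n, ‖(if Nat.Coprime n n₃ then a n else 0)‖ ≤ 1 := by
      intro a ha n
      split_ifs
      · exact ha n
      · simp
    have hA := hL N₁ H e hN1 hN1H he _ (hb a₁ ha1)
    have hB := hL N₂ H e hN2 hN2H he _ (hb a₂ ha2)
    have h1 := Real.sum_mul_le_sqrt_mul_sqrt (cube H) (fun h => ‖A N₁ a₁ n₃ e h‖)
      (fun h => ‖A N₂ a₂ n₃ e h‖)
    refine h1.trans ?_
    have h2 : Real.sqrt (∑ h ∈ cube H, ‖A N₁ a₁ n₃ e h‖ ^ 2) ≤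
        Real.sqrt (C2 * (H : ℝ) ^ (3 + δ) * N₁ / e) := Real.sqrt_le_sqrt hA
    have h3 : Real.sqrt (∑ h ∈ cube H, ‖A N₂ a₂ n₃ e h‖ ^ 2) ≤
        Real.sqrt (C2 * (H : ℝ) ^ (3 + δ) * N₂ / e) := Real.sqrt_le_sqrt hB
    refine (mul_le_mul h2 h3 (Real.sqrt_nonneg _) (Real.sqrt_nonneg _)).trans ?_
    have hX : 0 ≤ C2 * (H : ℝ) ^ (3 + δ) := by positivity
    rw [← Real.sqrt_mul (by positivity)]
    have e1 : C2 * (H : ℝ) ^ (3 + δ) * N₁ / e * (C2 * (H : ℝ) ^ (3 + δ) * N₂ / e) =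
        (C2 * (H : ℝ) ^ (3 + δ) / e) ^ 2 * ((N₁ : ℝ) * N₂) := by ring
    rw [e1, Real.sqrt_mul (by positivity), Real.sqrt_sq (by positivity)]
    apply le_of_eq
    ring
  -- bound for the coefficient of n₃
  have hcoef : ∀ n₃ ∈ Finset.Icc 1 N₃, ∀ h, ‖(if Squarefree n₃ then a₃ n₃ * sS n₃ h else 0)‖ ≤
      C1 * (N₃ : ℝ) ^ δ := by
    intro n₃ hn₃ h
    rw [Finset.mem_Icc] at hn₃
    have hn3r : (1 : ℝ) ≤ n₃ := by exact_mod_cast hn₃.1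
    have hle : (n₃ : ℝ) ^ δ ≤ (N₃ : ℝ) ^ δ :=
      Real.rpow_le_rpow (by linarith) (by exact_mod_cast hn₃.2) hδ.le
    split_ifs with hs
    · rw [norm_mul]
      have h1 := hsS.2.2.2 n₃ hs h
      have h2 := (hd n₃ hn₃.1).1
      have h3 : ‖a₃ n₃‖ * ‖sS n₃ h‖ ≤ 1 * ‖sS n₃ h‖ :=
        mul_le_mul_of_nonneg_right (ha3 n₃) (norm_nonneg _)
      have h4 : C1 * (n₃ : ℝ) ^ δ ≤ C1 * (N₃ : ℝ) ^ δ := mul_le_mul_of_nonneg_left hle hC1.le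
      linarith
    · rw [norm_zero]
      positivity
  have hmu : ∀ e : ℕ, ‖((ArithmeticFunction.moebius e : ℤ) : ℂ)‖ ≤ 1 := by
    intro e
    have h1 : |ArithmeticFunction.moebius e| ≤ 1 := ArithmeticFunction.abs_moebius_le_one
    rw [Complex.norm_intCast]
    exact_mod_cast h1
  -- main estimate
  have hmain : ‖∑ h ∈ cube H, ω h * ∑ n₁ ∈ Finset.Icc 1 N₁, ∑ n₂ ∈ Finset.Icc 1 N₂,
      ∑ n₃ ∈ Finset.Icc 1 N₃, (if Squarefree (n₁ * n₂ * n₃) then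
        a₁ n₁ * a₂ n₂ * a₃ n₃ * sS (n₁ * n₂ * n₃) h else 0)‖ ≤
      ∑ n₃ ∈ Finset.Icc 1 N₃, ∑ e ∈ Finset.Icc 1 N₁, C1 * (N₃ : ℝ) ^ δ *
        ∑ h ∈ cube H, ‖A N₁ a₁ n₃ e h‖ * ‖A N₂ a₂ n₃ e h‖ := by
    refine (norm_sum_le _ _).trans ?_
    have h1 : ∀ h ∈ cube H, ‖ω h * ∑ n₁ ∈ Finset.Icc 1 N₁, ∑ n₂ ∈ Finset.Icc 1 N₂,
      ∑ n₃ ∈ Finset.Icc 1 N₃, (if Squarefree (n₁ * n₂ * n₃) then
        a₁ n₁ * a₂ n₂ * a₃ n₃ * sS (n₁ * n₂ * n₃) h else 0)‖ ≤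
        ∑ n₃ ∈ Finset.Icc 1 N₃, ∑ e ∈ Finset.Icc 1 N₁, C1 * (N₃ : ℝ) ^ δ *
          (‖A N₁ a₁ n₃ e h‖ * ‖A N₂ a₂ n₃ e h‖) := by
      intro h _
      rw [triple hsS, norm_mul]
      refine (mul_le_mul_of_nonneg_right (hω h) (norm_nonneg _)).trans ?_
      rw [one_mul]
      refine (norm_sum_le _ _).trans (Finset.sum_le_sum fun n₃ hn₃ => ?_)
      refine (norm_sum_le _ _).trans (Finset.sum_le_sum fun e _ => ?_)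
      rw [norm_mul, norm_mul, norm_mul]
      have h2 := hcoef n₃ hn₃ h
      have h3 := hmu e
      have h4 : ‖((ArithmeticFunction.moebius e : ℤ) : ℂ)‖ *
          ‖(if Squarefree n₃ then a₃ n₃ * sS n₃ h else 0)‖ ≤ 1 * (C1 * (N₃ : ℝ) ^ δ) :=
        mul_le_mul h3 h2 (norm_nonneg _) zero_le_one
      rw [one_mul] at h4
      rw [mul_assoc]
      exact mul_le_mul_of_nonneg_right h4 (by positivity)
    refine (Finset.sum_le_sum h1).trans (le_of_eq ?_)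
    rw [Finset.sum_comm]
    apply Finset.sum_congr rfl
    intro n₃ _
    rw [Finset.sum_comm]
    apply Finset.sum_congr rfl
    intro e _
    rw [Finset.mul_sum]
  refine hmain.trans ?_
  have h5 : ∑ n₃ ∈ Finset.Icc 1 N₃, ∑ e ∈ Finset.Icc 1 N₁, C1 * (N₃ : ℝ) ^ δ *
        ∑ h ∈ cube H, ‖A N₁ a₁ n₃ e h‖ * ‖A N₂ a₂ n₃ e h‖ ≤
      ∑ n₃ ∈ Finset.Icc 1 N₃, ∑ e ∈ Finset.Icc 1 N₁, C1 * (N₃ : ℝ) ^ δ *
        (C2 * (H : ℝ) ^ (3 + δ) * Real.sqrt ((N₁ : ℝ) * N₂) * (1 / (e : ℝ))) := by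
    apply Finset.sum_le_sum
    intro n₃ _
    apply Finset.sum_le_sum
    intro e he
    rw [Finset.mem_Icc] at he
    exact mul_le_mul_of_nonneg_left (hCS n₃ e he.1) (by positivity)
  refine h5.trans ?_
  have h6 : ∑ n₃ ∈ Finset.Icc 1 N₃, ∑ e ∈ Finset.Icc 1 N₁, C1 * (N₃ : ℝ) ^ δ *
        (C2 * (H : ℝ) ^ (3 + δ) * Real.sqrt ((N₁ : ℝ) * N₂) * (1 / (e : ℝ))) =
      N₃ * (C1 * (N₃ : ℝ) ^ δ * (C2 * (H : ℝ) ^ (3 + δ) * Real.sqrt ((N₁ : ℝ) * N₂)) *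
        ∑ e ∈ Finset.Icc 1 N₁, (1 / (e : ℝ))) := by
    rw [Finset.sum_const, Nat.card_Icc, nsmul_eq_mul, Nat.add_sub_cancel]
    congr 1
    rw [Finset.mul_sum]
    apply Finset.sum_congr rfl
    intro e _
    ring
  rw [h6]
  have h7 := harm hδ hN1 hN1H
  have h8 : (N₃ : ℝ) ^ δ ≤ (N₃ : ℝ) ^ ε := by
    apply Real.rpow_le_rpow_of_exponent_le hN3r
    rw [hδdef]
    linarith
  have h9 : (H : ℝ) ^ (3 + δ) * (H : ℝ) ^ δ = (H : ℝ) ^ ε * (H : ℝ) ^ 3 := by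
    rw [← Real.rpow_natCast, ← Real.rpow_add (by linarith), ← Real.rpow_add (by linarith)]
    congr 1
    rw [hδdef]
    push_cast
    ring
  have h10 : ((H : ℝ) * N₃) ^ ε = (H : ℝ) ^ ε * (N₃ : ℝ) ^ ε :=
    Real.mul_rpow (by linarith) (by linarith)
  rw [h10]
  have hS : 0 ≤ Real.sqrt ((N₁ : ℝ) * N₂) := Real.sqrt_nonneg _
  calc N₃ * (C1 * (N₃ : ℝ) ^ δ * (C2 * (H : ℝ) ^ (3 + δ) * Real.sqrt ((N₁ : ℝ) * N₂)) *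
        ∑ e ∈ Finset.Icc 1 N₁, (1 / (e : ℝ)))
      ≤ N₃ * (C1 * (N₃ : ℝ) ^ ε * (C2 * (H : ℝ) ^ (3 + δ) * Real.sqrt ((N₁ : ℝ) * N₂)) *
        ((1 + 1 / δ) * (H : ℝ) ^ δ)) := by
        have hE : 0 ≤ ∑ e ∈ Finset.Icc 1 N₁, (1 / (e : ℝ)) :=
          Finset.sum_nonneg (fun e _ => by positivity)
        gcongr
    _ = C1 * C2 * (1 + 1 / δ) * (((H : ℝ) ^ (3 + δ) * (H : ℝ) ^ δ) * (N₃ : ℝ) ^ ε) * N₃ *
        Real.sqrt ((N₁ : ℝ) * N₂) := by ring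
    _ = C1 * C2 * (1 + 1 / δ) * ((H : ℝ) ^ ε * (N₃ : ℝ) ^ ε) * N₃ * (H : ℝ) ^ 3 *
        Real.sqrt ((N₁ : ℝ) * N₂) := by
        rw [h9]
        ring

end Pool.Agent.TCub
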