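import Pool.Agent.TCub.Stmts

open Finset

namespace Pool.Agent.TCub

namespace Boxs

noncomputable def lb (M N : ℕ) (s : Finset ℕ) : Multiset ℕ := s.val.map (lab M N)

theorem logM_pos {M : ℕ} (hM : 2 ≤ M) : 0 < Real.log M :=
  Real.log_pos (by exact_mod_cast hM)

theorem lab_mono {M N p q : ℕ} (hM : 2 ≤ M) (hp : 1 ≤ p) (hpq : p ≤ q) :
    lab M N p ≤ lab M N q := by
  unfold lab
  apply Nat.floor_le_floor
  apply div_le_div_of_nonneg_right _ (logM_pos hM).le
  apply mul_le_mul_of_nonneg_left _ (by positivity)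
  apply Real.log_le_log
  · exact_mod_cast hp
  · exact_mod_cast hpq

theorem prs_succ_of {u w : ℕ} (hw : w.Prime ∧ u ≤ w) : prs u (w + 1) = insert w (prs u w) := by
  ext p
  simp only [prs, mem_filter, mem_range, mem_insert]
  constructor
  · rintro ⟨h1, h2, h3⟩
    rcases Nat.lt_succ_iff_lt_or_eq.1 h1 with h | h
    · exact Or.inr ⟨h, h2, h3⟩
    · exact Or.inl h
  · rintro (h | ⟨h1, h2, h3⟩)
    · subst h
      exact ⟨Nat.lt_succ_self _, hw.1, hw.2⟩
    · exact ⟨Nat.lt_succ_of_lt h1, h2, h3⟩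

theorem prs_succ_not {u w : ℕ} (hw : ¬ (w.Prime ∧ u ≤ w)) : prs u (w + 1) = prs u w := by
  ext p
  simp only [prs, mem_filter, mem_range]
  constructor
  · rintro ⟨h1, h2, h3⟩
    rcases Nat.lt_succ_iff_lt_or_eq.1 h1 with h | h
    · exact ⟨h, h2, h3⟩
    · subst h
      exact absurd ⟨h2, h3⟩ hw
  · rintro ⟨h1, h2, h3⟩
    exact ⟨Nat.lt_succ_of_lt h1, h2, h3⟩

theorem not_mem_prs {u w : ℕ} : w ∉ prs u w := by
  simp [prs]

open Classical in
noncomputable def F (M N : ℕ) (b : Bool) (l : ℝ) (φ : ℕ → ℝ) (s : Finset ℕ) : ℝ :=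
  if Adm N b l ((lb M N s).sort (· ≥ ·)) then (-1 : ℝ) ^ (s.card) * φ (∏ p ∈ s, p) else 0

theorem sort_insert {M N u w : ℕ} (hM : 2 ≤ M) {t : Finset ℕ} (ht : t ⊆ prs u w) :
    (lb M N (insert w t)).sort (· ≥ ·) = lab M N w :: (lb M N t).sort (· ≥ ·) := by
  have hwt : w ∉ t := fun h => not_mem_prs (ht h)
  have h1 : lb M N (insert w t) = lab M N w ::ₘ lb M N t := by
    unfold lb
    rw [Finset.insert_val_of_notMem hwt, Multiset.map_cons]
  rw [h1]
  apply Multiset.sort_cons
  intro j hj
  unfold lb at hj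
  rw [Multiset.mem_map] at hj
  obtain ⟨p, hp, rfl⟩ := hj
  have hp' := ht hp
  simp only [prs, mem_filter, mem_range] at hp'
  exact lab_mono hM hp'.2.1.one_le hp'.1.le

theorem F_insert {M N u w : ℕ} (hM : 2 ≤ M) (b : Bool) (l : ℝ) (φ : ℕ → ℝ) {t : Finset ℕ}
    (ht : t ⊆ prs u w) (hc : b = true → 3 * ed N (lab M N w) < l) :
    F M N b l φ (insert w t) = - F M N (!b) (l - ed N (lab M N w)) (fun d => φ (w * d)) t := by
  have hwt : w ∉ t := fun h => not_mem_prs (ht h)
  unfold F
  rw [sort_insert hM ht]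
  have h1 : Adm N b l (lab M N w :: (lb M N t).sort (· ≥ ·)) ↔
      Adm N (!b) (l - ed N (lab M N w)) ((lb M N t).sort (· ≥ ·)) := by
    rw [Adm]
    exact ⟨fun h => h.2, fun h => ⟨hc, h⟩⟩
  by_cases h2 : Adm N (!b) (l - ed N (lab M N w)) ((lb M N t).sort (· ≥ ·))
  · rw [if_pos (h1.2 h2), if_pos h2, Finset.card_insert_of_notMem hwt,
      Finset.prod_insert hwt, pow_succ]
    ring
  · rw [if_neg (fun h => h2 (h1.1 h)), if_neg h2, neg_zero]

theorem F_insert_zero {M N u w : ℕ} (hM : 2 ≤ M) (b : Bool) (l : ℝ) (φ : ℕ → ℝ) {t : Finset ℕ}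
    (ht : t ⊆ prs u w) (hc : ¬ (b = true → 3 * ed N (lab M N w) < l)) :
    F M N b l φ (insert w t) = 0 := by
  unfold F
  rw [sort_insert hM ht, if_neg]
  intro h
  rw [Adm] at h
  exact hc h.1

theorem Lam_eq {M N u : ℕ} (hM : 2 ≤ M) (w : ℕ) : ∀ (b : Bool) (l : ℝ) (φ : ℕ → ℝ),
    Lam (cb M N) u w b (l * Real.log M) φ = ∑ s ∈ (prs u w).powerset, F M N b l φ s := by
  have hlog := logM_pos hM
  induction w with
  | zero =>
    intro b l φ
    have h0 : prs u 0 = ∅ := by simp [prs]
    rw [h0, Finset.powerset_empty, Finset.sum_singleton]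
    simp [Lam, F, lb, Adm]
  | succ w ih =>
    intro b l φ
    have hcond : (b = true → 3 * cb M N w < l * Real.log M) ↔
        (b = true → 3 * ed N (lab M N w) < l) := by
      unfold cb
      constructor
      · intro h hb
        have h1 := h hb
        rw [← mul_assoc] at h1
        exact lt_of_mul_lt_mul_right h1 hlog.le
      · intro h hb
        rw [← mul_assoc]
        exact mul_lt_mul_of_pos_right (h hb) hlog
    rw [Lam, ih b l φ]
    by_cases hw : w.Prime ∧ u ≤ w
    · rw [prs_succ_of hw, Finset.sum_powerset_insert not_mem_prs]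
      by_cases hc : b = true → 3 * ed N (lab M N w) < l
      · rw [if_pos ⟨hw.1, hw.2, hcond.2 hc⟩]
        have h1 : l * Real.log M - cb M N w = (l - ed N (lab M N w)) * Real.log M := by
          unfold cb; ring
        rw [h1, ih, sub_eq_add_neg, ← Finset.sum_neg_distrib]
        congr 1
        refine Finset.sum_congr rfl fun t ht => ?_
        rw [Finset.mem_powerset] at ht
        exact (F_insert hM b l φ ht hc).symm
      · rw [if_neg (fun h => hc (hcond.1 h.2.2)), sub_zero]
        have h0 : ∑ t ∈ (prs u w).powerset, F M N b l φ (insert w t) = 0 := by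
          apply Finset.sum_eq_zero
          intro t ht
          rw [Finset.mem_powerset] at ht
          exact F_insert_zero hM b l φ ht hc
        rw [h0, add_zero]
    · rw [prs_succ_not hw, if_neg (fun h => hw ⟨h.1, h.2.1⟩), sub_zero]

theorem adm_sum (N : ℕ) : ∀ (js : List ℕ) (b : Bool) (l : ℝ), 0 < l → js.Pairwise (· ≥ ·) →
    Adm N b l js → (b = false → ∀ j ∈ js, ed N j < l) → (js.map (ed N)).sum < l := by
  have hed : ∀ j, 0 ≤ ed N j := fun j => by unfold ed; positivity
  have hmono : ∀ i j : ℕ, i ≤ j → ed N i ≤ ed N j := by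
    intro i j hij
    unfold ed
    apply div_le_div_of_nonneg_right _ (by positivity)
    have : (i : ℝ) ≤ j := by exact_mod_cast hij
    linarith
  intro js
  induction js with
  | nil => intro b l hl _ _ _; simpa using hl
  | cons j js ih =>
    intro b l hl hs hA hf
    rw [List.pairwise_cons] at hs
    rw [Adm] at hA
    rw [List.map_cons, List.sum_cons]
    cases b with
    | true =>
      have h3 := hA.1 rfl
      have hl' : 0 < l - ed N j := by have := hed j; linarith
      have h4 := ih (!true) (l - ed N j) hl' hs.2 hA.2 (by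
        intro _ i hi
        have h5 := hmono i j (hs.1 i hi)
        have := hed j
        linarith)
      linarith
    | false =>
      have h3 := hf rfl j (List.mem_cons_self)
      have hl' : 0 < l - ed N j := by linarith
      have h4 := ih (!false) (l - ed N j) hl' hs.2 hA.2 (by
        intro h
        simp at h)
      linarith

theorem ed_lab {M N p : ℕ} {υ : ℝ} (hM : 2 ≤ M) (hN : 1 ≤ N) (hp : (M : ℝ) ^ υ ≤ p) :
    υ < ed N (lab M N p) := by
  have hlog := logM_pos hM
  have hM0 : (0 : ℝ) < M := by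
    have : 0 < M := by omega
    exact_mod_cast this
  have h1 : υ * Real.log M ≤ Real.log p := by
    rw [← Real.log_rpow hM0]
    exact Real.log_le_log (Real.rpow_pos_of_pos hM0 _) hp
  have hN0 : (0 : ℝ) < N := by exact_mod_cast hN
  unfold ed lab
  rw [lt_div_iff₀ (by positivity)]
  have h2 := Nat.lt_floor_add_one (1000 * (N : ℝ) * Real.log p / Real.log M)
  refine lt_of_le_of_lt ?_ h2
  rw [le_div_iff₀ hlog]
  have h3 : υ * (1000 * (N : ℝ)) * Real.log M = 1000 * (N : ℝ) * (υ * Real.log M) := by ring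
  rw [h3]
  exact mul_le_mul_of_nonneg_left h1 (by positivity)

theorem card_mul_le (N : ℕ) (υ : ℝ) (js : List ℕ) (h : ∀ j ∈ js, υ ≤ ed N j) :
    υ * js.length ≤ (js.map (ed N)).sum := by
  induction js with
  | nil => simp
  | cons j js ih =>
    rw [List.map_cons, List.sum_cons, List.length_cons]
    have h1 := ih fun i hi => h i (List.mem_cons_of_mem _ hi)
    have h2 := h j List.mem_cons_self
    push_cast
    linarith

theorem mem_Ty {J r : ℕ} {m : Multiset ℕ} :
    m ∈ Ty J r ↔ ∀ j, m.count j ≤ if j < J then r else 0 := by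
  unfold Ty
  rw [Multiset.mem_toFinset, Multiset.mem_powerset, Multiset.le_iff_count]
  refine forall_congr' fun j => ?_
  have h1 : (∑ i ∈ Finset.range J, Multiset.replicate r i).count j = if j < J then r else 0 := by
    rw [Multiset.count_sum']
    simp only [Multiset.count_replicate]
    rw [Finset.sum_ite_eq']
    simp
  rw [h1]

end Boxs

open Boxs in
theorem tBoxs (hDcl : St_Dcl) : St_box := by
  intro M N u J r υ l b hM hN hυ hu hr hl hl2 hJ φ
  classical
  obtain ⟨hD1, -, -, hD4⟩ := hDcl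
  rw [Lam_eq hM]
  set P := prs u ⌈(M:ℝ) ^ ((J:ℝ) / (1000 * N))⌉₊ with hP
  have hmemP : ∀ p, p ∈ P ↔ p.Prime ∧ u ≤ p ∧ lab M N p < J := by
    intro p
    rw [hP]
    simp only [prs, mem_filter, mem_range]
    constructor
    · rintro ⟨h1, h2, h3⟩
      refine ⟨h2, h3, (hD4 M N J p hM hN h2).2 (Nat.lt_ceil.1 h1)⟩
    · rintro ⟨h1, h2, h3⟩
      exact ⟨Nat.lt_ceil.2 ((hD4 M N J p hM hN h1).1 h3), h1, h2⟩
  have hF : ∑ s ∈ P.powerset, F M N b l φ s =
      ∑ s ∈ P.powerset.filter (fun s => Adm N b l ((lb M N s).sort (· ≥ ·))),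
        (-1 : ℝ) ^ (s.card) * φ (∏ p ∈ s, p) := by
    rw [Finset.sum_filter]
    refine Finset.sum_congr rfl fun s _ => ?_
    unfold F
    congr
  rw [hF]
  have hprime : ∀ s ⊆ P, ∀ p ∈ s, p.Prime := fun s hs p hp => ((hmemP p).1 (hs hp)).1
  have hmaps : ∀ s ∈ P.powerset.filter (fun s => Adm N b l ((lb M N s).sort (· ≥ ·))),
      lb M N s ∈ Tya N b l J r := by
    intro s hs
    rw [mem_filter, mem_powerset] at hs
    obtain ⟨hs1, hs2⟩ := hs
    have hlbJ : ∀ j ∈ lb M N s, j < J := by
      intro j hj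
      unfold lb at hj
      rw [Multiset.mem_map] at hj
      obtain ⟨p, hp, rfl⟩ := hj
      exact ((hmemP p).1 (hs1 hp)).2.2
    have hlbυ : ∀ j ∈ lb M N s, υ < ed N j := by
      intro j hj
      unfold lb at hj
      rw [Multiset.mem_map] at hj
      obtain ⟨p, hp, rfl⟩ := hj
      apply ed_lab hM hN
      refine hu.trans ?_
      exact_mod_cast ((hmemP p).1 (hs1 hp)).2.1
    have hcard : Multiset.card (lb M N s) ≤ r := by
      have h1 := adm_sum N ((lb M N s).sort (· ≥ ·)) b l hl
        (Multiset.pairwise_sort _ _) hs2 (by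
          intro hb j hj
          rw [Multiset.mem_sort] at hj
          have h2 := hlbJ j hj
          have h3 := hJ hb
          refine lt_of_le_of_lt ?_ h3
          unfold ed
          apply div_le_div_of_nonneg_right _ (by positivity)
          exact_mod_cast h2)
      have h2 := card_mul_le N υ ((lb M N s).sort (· ≥ ·)) (by
        intro j hj
        rw [Multiset.mem_sort] at hj
        exact (hlbυ j hj).le)
      rw [Multiset.length_sort] at h2
      have h3 : υ * (Multiset.card (lb M N s) : ℝ) < 2 := by linarith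
      have h4 : (Multiset.card (lb M N s) : ℝ) < 2 / υ := by
        rw [lt_div_iff₀ hυ, mul_comm]
        exact h3
      have h5 : (Multiset.card (lb M N s) : ℝ) ≤ r := by linarith
      exact_mod_cast h5
    unfold Tya
    rw [mem_filter]
    refine ⟨?_, hcard, hs2⟩
    rw [mem_Ty]
    intro j
    split_ifs with hj
    · exact (Multiset.count_le_card _ _).trans hcard
    · rw [Nat.le_zero, Multiset.count_eq_zero]
      intro hj'
      exact hj (hlbJ j hj')
  rw [← Finset.sum_fiberwise_of_maps_to hmaps]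
  refine Finset.sum_congr rfl fun m hm => ?_
  have hm' : (∀ j ∈ m, j < J) ∧ Adm N b l (m.sort (· ≥ ·)) := by
    unfold Tya at hm
    rw [mem_filter] at hm
    refine ⟨?_, hm.2.2⟩
    intro j hj
    have h1 := mem_Ty.1 hm.1 j
    by_contra hcon
    rw [if_neg hcon, Nat.le_zero, Multiset.count_eq_zero] at h1
    exact h1 hj
  rw [Finset.mul_sum]
  refine Finset.sum_nbij' (fun s => ∏ p ∈ s, p) Nat.primeFactors ?_ ?_ ?_ ?_ ?_
  · intro s hs
    rw [mem_filter, mem_filter, mem_powerset] at hs
    obtain ⟨⟨hs1, hs2⟩, hs3⟩ := hs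
    have hpf : (∏ p ∈ s, p).primeFactors = s := Nat.primeFactors_prod (hprime s hs1)
    rw [hD1 M N u m _ hM hN]
    refine ⟨?_, ?_, ?_⟩
    · apply Finset.squarefree_prod_of_pairwise_isCoprime
      · intro p hp q hq hpq
        show IsRelPrime p q
        rw [← Nat.coprime_iff_isRelPrime]
        exact (Nat.coprime_primes (hprime s hs1 p hp) (hprime s hs1 q hq)).2 hpq
      · intro p hp
        exact (hprime s hs1 p hp).squarefree
    · intro p hp
      rw [hpf] at hp
      exact ((hmemP p).1 (hs1 hp)).2.1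
    · unfold typ
      rw [hpf]
      exact hs3
  · intro d hd
    rw [hD1 M N u m d hM hN] at hd
    obtain ⟨hd1, hd2, hd3⟩ := hd
    rw [mem_filter, mem_filter, mem_powerset]
    have hlb : lb M N d.primeFactors = m := hd3
    refine ⟨⟨?_, ?_⟩, hlb⟩
    · intro p hp
      rw [hmemP]
      refine ⟨Nat.prime_of_mem_primeFactors hp, hd2 p hp, ?_⟩
      apply hm'.1
      rw [← hd3]
      unfold typ
      exact Multiset.mem_map_of_mem _ hp
    · rw [hlb]; exact hm'.2
  · intro s hs
    rw [mem_filter, mem_filter, mem_powerset] at hs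
    exact Nat.primeFactors_prod (hprime s hs.1.1)
  · intro d hd
    rw [hD1 M N u m d hM hN] at hd
    exact Nat.prod_primeFactors_of_squarefree hd.1
  · intro s hs
    rw [mem_filter, mem_filter, mem_powerset] at hs
    have h1 : s.card = Multiset.card m := by
      rw [← hs.2]
      unfold lb
      rw [Multiset.card_map]
      rfl
    rw [h1]

end Pool.Agent.TCub
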