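import Pool.Agent.TCub.Stmts

open Finset

namespace Pool.Agent.TCub

namespace CLf

lemma mem_prs {u w p : ℕ} : p ∈ prs u w ↔ p < w ∧ p.Prime ∧ u ≤ p := by
  simp [prs]

lemma P_ne (w : ℕ) : (∏ p ∈ prs 0 w, p) ≠ 0 := by
  rw [Finset.prod_ne_zero_iff]
  intro p hp
  exact (mem_prs.1 hp).2.1.ne_zero

/-- divisors of the primorial -/
lemma sqf_P (w : ℕ) : Squarefree (∏ p ∈ prs 0 w, p) := by
  refine Finset.squarefree_prod_of_pairwise_isCoprime (fun p hp q hq hpq ↦ ?_)
    fun p hp ↦ (mem_prs.1 hp).2.1.squarefree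
  have h1 := (mem_prs.1 (Finset.mem_coe.1 hp)).2.1
  have h2 := (mem_prs.1 (Finset.mem_coe.1 hq)).2.1
  simp only [← Nat.coprime_iff_isRelPrime]
  exact (Nat.coprime_primes h1 h2).2 hpq

lemma dvd_P {w p : ℕ} (hp : p.Prime) (h : p ∣ ∏ p ∈ prs 0 w, p) : p < w := by
  rw [hp.prime.dvd_finsetProd_iff] at h
  obtain ⟨q, hq, hpq⟩ := h
  have h2 := mem_prs.1 hq
  rw [(Nat.prime_dvd_prime_iff_eq hp h2.2.1).1 hpq]
  exact h2.1

lemma gd_zero : gd 0 = 0 := by simp [gd]

lemma gd_one : gd 1 = 1 := by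
  have : rho 1 = 1 := by
    unfold rho cone
    rw [Finset.filter_true_of_mem]
    · simp [Fintype.card_piFinset]
    · intro x _; simp
  simp [gd, this]

lemma gd_mul (h : ∀ m n : ℕ, Nat.Coprime m n → rho (m * n) = rho m * rho n) (m n : ℕ)
    (hc : Nat.Coprime m n) : gd (m * n) = gd m * gd n := by
  unfold gd
  rw [h m n hc]
  push_cast
  rw [mul_pow, mul_div_mul_comm]

/-- `gd` as an arithmetic function -/
noncomputable def gA : ArithmeticFunction ℝ := ⟨gd, gd_zero⟩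

lemma gA_apply (n : ℕ) : gA n = gd n := rfl

lemma gA_mult (h : ∀ m n : ℕ, Nat.Coprime m n → rho (m * n) = rho m * rho n) :
    gA.IsMultiplicative :=
  ⟨gd_one, fun {m n} hc => gd_mul h m n hc⟩

lemma primeFactors_P (w : ℕ) : (∏ p ∈ prs 0 w, p).primeFactors = prs 0 w := by
  ext p
  rw [Nat.mem_primeFactors]
  constructor
  · rintro ⟨h1, h2, _⟩
    exact mem_prs.2 ⟨dvd_P h1 h2, h1, Nat.zero_le _⟩
  · intro hp
    exact ⟨(mem_prs.1 hp).2.1, Finset.dvd_prod_of_mem _ hp, P_ne w⟩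

lemma sum_moebius (h : ∀ m n : ℕ, Nat.Coprime m n → rho (m * n) = rho m * rho n) (w : ℕ) :
    ∑ d₀ ∈ (∏ p ∈ prs 0 w, p).divisors, ((ArithmeticFunction.moebius d₀ : ℤ) : ℝ) * gd d₀ =
      VV gd 0 w := by
  have := ArithmeticFunction.IsMultiplicative.prodPrimeFactors_one_sub_of_squarefree gA (gA_mult h)
    (sqf_P w)
  rw [primeFactors_P] at this
  unfold VV
  simp only [gA_apply] at this
  rw [this]

/-- `gd` on squarefree numbers -/
lemma gd_sqf (h : ∀ m n : ℕ, Nat.Coprime m n → rho (m * n) = rho m * rho n) (d : ℕ)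
    (hd : Squarefree d) : gd d = ∏ p ∈ d.primeFactors, gd p := by
  have := (gA_mult h).map_prod_of_subset_primeFactors d d.primeFactors (Finset.Subset.refl _)
  rw [Nat.prod_primeFactors_of_squarefree hd] at this
  simpa [gA_apply] using this

/-- coprimality from separated prime factors -/
lemma coprime_sep {m n v : ℕ} (h1 : ∀ p : ℕ, p.Prime → p ∣ m → p < v)
    (h2 : ∀ p : ℕ, p.Prime → p ∣ n → v ≤ p) : Nat.Coprime m n := by
  by_contra hc
  obtain ⟨p, hp, hpm, hpn⟩ := Nat.Prime.not_coprime_iff_dvd.1 hc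
  exact absurd (h1 p hp hpm) (not_lt.2 (h2 p hp hpn))

end CLf

open CLf in
theorem tCLf (hsS : St_sS) (hLam : St_Lam) : St_CLf := by
  obtain ⟨hrho, _, _, _⟩ := hsS
  obtain ⟨hL1, hL2, hL3⟩ := hLam
  refine ⟨?_, ?_, ?_, ?_⟩
  · intro M N u₀ u z b₁ b₂ l ι s a φ
    unfold CL
    simp only [hL1 (cb M N) u z b₂ (l * Real.log M) ι s a]
    have : ∀ d₀ : ℕ, Lam (fun p => Real.log p) u₀ u b₁ (1 / 5000 * Real.log M)
        (fun m => ∑ i ∈ s, a i * Lam (cb M N) u z b₂ (l * Real.log M) (fun d => φ i (d₀ * m * d))) =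
        ∑ i ∈ s, a i * Lam (fun p => Real.log p) u₀ u b₁ (1 / 5000 * Real.log M)
          (fun m => Lam (cb M N) u z b₂ (l * Real.log M) (fun d => φ i (d₀ * m * d))) := by
      intro d₀
      exact hL1 _ _ _ _ _ ι s a
        (fun i m => Lam (cb M N) u z b₂ (l * Real.log M) (fun d => φ i (d₀ * m * d)))
    simp only [this]
    simp only [Finset.mul_sum]
    rw [Finset.sum_comm]
    refine Finset.sum_congr rfl fun i _ => Finset.sum_congr rfl fun d₀ _ => ?_
    ring
  · intro M N u₀ u z b₁ b₂ l φ ψ h1 h2 h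
    unfold CL
    refine Finset.sum_congr rfl fun d₀ hd₀ => ?_
    congr 1
    apply hL2
    intro m hm hm2
    apply hL2
    intro d hd hd2
    have hd₀' := Nat.mem_divisors.1 hd₀
    have p0 : ∀ p : ℕ, p.Prime → p ∣ d₀ → p < u₀ :=
      fun p hp hpd => dvd_P hp (hpd.trans hd₀'.1)
    have p1 : ∀ p : ℕ, p.Prime → p ∣ m → u₀ ≤ p ∧ p < u :=
      fun p hp hpd => hm2 p (Nat.mem_primeFactors.2 ⟨hp, hpd, hm.ne_zero⟩)
    have p2 : ∀ p : ℕ, p.Prime → p ∣ d → u ≤ p ∧ p < z :=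
      fun p hp hpd => hd2 p (Nat.mem_primeFactors.2 ⟨hp, hpd, hd.ne_zero⟩)
    have s0 : Squarefree d₀ := (sqf_P u₀).squarefree_of_dvd hd₀'.1
    have c1 : Nat.Coprime d₀ m := coprime_sep p0 (fun p hp hpd => (p1 p hp hpd).1)
    have q1 : ∀ p : ℕ, p.Prime → p ∣ d₀ * m → p < u := by
      intro p hp hpd
      rcases (hp.dvd_mul).1 hpd with h3 | h3
      · exact (p0 p hp h3).trans_le h1
      · exact (p1 p hp h3).2
    have c2 : Nat.Coprime (d₀ * m) d := coprime_sep q1 (fun p hp hpd => (p2 p hp hpd).1)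
    apply h
    · rw [Nat.squarefree_mul c2, Nat.squarefree_mul c1]
      exact ⟨⟨s0, hm⟩, hd⟩
    · intro p hp
      obtain ⟨hp1, hp2, _⟩ := Nat.mem_primeFactors.1 hp
      rcases (hp1.dvd_mul).1 hp2 with h3 | h3
      · exact (q1 p hp1 h3).trans_le h2
      · exact (p2 p hp1 h3).2
  · intro M N u₀ u z b₁ b₂ l h1 h2
    unfold CL
    have key : ∀ d₀ ∈ (∏ p ∈ prs 0 u₀, p).divisors,
        ((ArithmeticFunction.moebius d₀ : ℤ) : ℝ) *
        Lam (fun p => Real.log p) u₀ u b₁ (1 / 5000 * Real.log M) (fun m =>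
          Lam (cb M N) u z b₂ (l * Real.log M) (fun d => gd (d₀ * m * d))) =
        ((ArithmeticFunction.moebius d₀ : ℤ) : ℝ) * gd d₀ *
          (GG gd (fun p => Real.log p) u₀ u b₁ (1 / 5000 * Real.log M) *
            GG gd (cb M N) u z b₂ (l * Real.log M)) := by
      intro d₀ hd₀
      have hd₀' := Nat.mem_divisors.1 hd₀
      have p0 : ∀ p : ℕ, p.Prime → p ∣ d₀ → p < u₀ :=
        fun p hp hpd => dvd_P hp (hpd.trans hd₀'.1)
      have e1 : Lam (fun p => Real.log p) u₀ u b₁ (1 / 5000 * Real.log M) (fun m =>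
          Lam (cb M N) u z b₂ (l * Real.log M) (fun d => gd (d₀ * m * d))) =
          Lam (fun p => Real.log p) u₀ u b₁ (1 / 5000 * Real.log M) (fun m =>
            ∑ i ∈ ({()} : Finset Unit), (gd d₀ * GG gd (cb M N) u z b₂ (l * Real.log M)) *
              (∏ p ∈ m.primeFactors, gd p)) := by
        apply hL2
        intro m hm hm2
        have p1 : ∀ p : ℕ, p.Prime → p ∣ m → u₀ ≤ p ∧ p < u :=
          fun p hp hpd => hm2 p (Nat.mem_primeFactors.2 ⟨hp, hpd, hm.ne_zero⟩)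
        have c1 : Nat.Coprime d₀ m := coprime_sep p0 (fun p hp hpd => (p1 p hp hpd).1)
        have q1 : ∀ p : ℕ, p.Prime → p ∣ d₀ * m → p < u := by
          intro p hp hpd
          rcases (hp.dvd_mul).1 hpd with h3 | h3
          · exact (p0 p hp h3).trans_le h1
          · exact (p1 p hp h3).2
        have e2 : Lam (cb M N) u z b₂ (l * Real.log M) (fun d => gd (d₀ * m * d)) =
            Lam (cb M N) u z b₂ (l * Real.log M) (fun d =>
              ∑ i ∈ ({()} : Finset Unit), gd (d₀ * m) * (∏ p ∈ d.primeFactors, gd p)) := by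
          apply hL2
          intro d hd hd2
          have p2 : ∀ p : ℕ, p.Prime → p ∣ d → u ≤ p ∧ p < z :=
            fun p hp hpd => hd2 p (Nat.mem_primeFactors.2 ⟨hp, hpd, hd.ne_zero⟩)
          have c2 : Nat.Coprime (d₀ * m) d :=
            coprime_sep q1 (fun p hp hpd => (p2 p hp hpd).1)
          simp only [Finset.sum_singleton]
          rw [gd_mul hrho _ _ c2, gd_sqf hrho d hd]
        rw [e2, hL1 (cb M N) u z b₂ (l * Real.log M) Unit {()} (fun _ => gd (d₀ * m))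
          (fun _ d => ∏ p ∈ d.primeFactors, gd p)]
        simp only [Finset.sum_singleton]
        rw [hL3, gd_mul hrho _ _ c1, gd_sqf hrho m hm]
        ring
      rw [e1, hL1 (fun p => Real.log p) u₀ u b₁ (1 / 5000 * Real.log M) Unit {()}
        (fun _ => gd d₀ * GG gd (cb M N) u z b₂ (l * Real.log M))
          (fun _ m => ∏ p ∈ m.primeFactors, gd p)]
      simp only [Finset.sum_singleton]
      rw [hL3]
      ring
    rw [Finset.sum_congr rfl key, ← Finset.sum_mul, sum_moebius hrho]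
    ring
  · intro p d hp hd hq
    apply gd_mul hrho
    rw [Nat.Prime.coprime_iff_not_dvd hp]
    intro hpd
    exact lt_irrefl _ (hq p (Nat.mem_primeFactors.2 ⟨hp, hpd, hd.ne_zero⟩))

end Pool.Agent.TCub
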