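import Pool.Agent.TCub.Stmts

open Finset

namespace Pool.Agent.TCub

namespace CLpt

open Classical in
/-- indicator of `p ∣ n` -/
noncomputable def gi (n p : ℕ) : ℝ := if p ∣ n then 1 else 0

theorem gi01 (n p : ℕ) : 0 ≤ gi n p ∧ gi n p ≤ 1 := by
  unfold gi
  split_ifs <;> norm_num

theorem sqf_dvd {d n : ℕ} (hd : Squarefree d) (hn : n ≠ 0) :
    d ∣ n ↔ ∀ p ∈ d.primeFactors, p ∣ n := by
  constructor
  · intro h p hp
    exact dvd_trans (Nat.dvd_of_mem_primeFactors hp) h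
  · intro h
    rw [← Nat.prod_primeFactors_of_squarefree hd]
    refine dvd_trans (Finset.prod_dvd_prod_of_subset _ n.primeFactors _ ?_)
      (Nat.prod_primeFactors_dvd n)
    intro p hp
    exact Nat.mem_primeFactors.2 ⟨Nat.prime_of_mem_primeFactors hp, h p hp, hn⟩

open Classical in
theorem prod_gi {d n : ℕ} (hd : Squarefree d) (hn : n ≠ 0) :
    ∏ p ∈ d.primeFactors, gi n p = if d ∣ n then 1 else 0 := by
  by_cases h : d ∣ n
  · rw [if_pos h]
    refine Finset.prod_eq_one (fun p hp => ?_)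
    unfold gi
    rw [if_pos ((sqf_dvd hd hn).1 h p hp)]
  · rw [if_neg h]
    rw [sqf_dvd hd hn] at h
    push Not at h
    obtain ⟨p, hp, hp2⟩ := h
    refine Finset.prod_eq_zero hp ?_
    unfold gi
    rw [if_neg hp2]

theorem cop {a b t : ℕ} (ha : a ≠ 0) (hb : b ≠ 0) (h1 : ∀ p ∈ a.primeFactors, p < t)
    (h2 : ∀ p ∈ b.primeFactors, t ≤ p) : Nat.Coprime a b := by
  rw [← Nat.disjoint_primeFactors ha hb, Finset.disjoint_left]
  intro p hp hp2
  have := h1 p hp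
  have := h2 p hp2
  omega

open Classical in
theorem dvd_split {a b n : ℕ} (h : Nat.Coprime a b) :
    (if a * b ∣ n then (1 : ℝ) else 0) = (if a ∣ n then 1 else 0) * (if b ∣ n then 1 else 0) := by
  by_cases h1 : a ∣ n
  · by_cases h2 : b ∣ n
    · rw [if_pos h1, if_pos h2, if_pos (Nat.Coprime.mul_dvd_of_dvd_of_dvd h h1 h2), mul_one]
    · rw [if_neg h2, mul_zero, if_neg]
      intro h3
      exact h2 (dvd_trans (dvd_mul_left _ _) h3)
  · rw [if_neg h1, zero_mul, if_neg]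
    intro h3
    exact h1 (dvd_trans (dvd_mul_right _ _) h3)

theorem lam_const (hLam : St_Lam) (c : ℕ → ℝ) (u w : ℕ) (b : Bool) (L t : ℝ) (φ : ℕ → ℝ) :
    Lam c u w b L (fun d => t * φ d) = t * Lam c u w b L φ := by
  have := hLam.1 c u w b L Unit {()} (fun _ => t) (fun _ => φ)
  simpa using this

open Classical in
theorem VV_gi (n u w : ℕ) : VV (gi n) u w = if (∀ p, p.Prime → u ≤ p → p < w → ¬ p ∣ n) then 1 else 0 := by
  unfold VV
  by_cases h : ∀ p, p.Prime → u ≤ p → p < w → ¬ p ∣ n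
  · rw [if_pos h]
    refine Finset.prod_eq_one (fun p hp => ?_)
    unfold prs at hp
    rw [Finset.mem_filter, Finset.mem_range] at hp
    unfold gi
    rw [if_neg (h p hp.2.1 hp.2.2 hp.1), sub_zero]
  · rw [if_neg h]
    push Not at h
    obtain ⟨p, hp, h1, h2, h3⟩ := h
    refine Finset.prod_eq_zero (i := p) ?_ ?_
    · unfold prs
      rw [Finset.mem_filter, Finset.mem_range]
      exact ⟨h2, hp, h1⟩
    · unfold gi
      rw [if_pos h3, sub_self]

theorem P_ne (u₀ : ℕ) : (∏ p ∈ prs 0 u₀, p) ≠ 0 := by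
  refine Finset.prod_ne_zero_iff.2 (fun p hp => ?_)
  unfold prs at hp
  rw [Finset.mem_filter] at hp
  exact hp.2.1.ne_zero

theorem P_pf (u₀ : ℕ) : (∏ p ∈ prs 0 u₀, p).primeFactors = prs 0 u₀ := by
  apply Nat.primeFactors_prod
  intro p hp
  unfold prs at hp
  rw [Finset.mem_filter] at hp
  exact hp.2.1

open Classical in
theorem moeb (u₀ n : ℕ) (hn : n ≠ 0) :
    ∑ d ∈ (∏ p ∈ prs 0 u₀, p).divisors, ((ArithmeticFunction.moebius d : ℤ) : ℝ) *
      (if d ∣ n then 1 else 0) = if (∀ p, p.Prime → p < u₀ → ¬ p ∣ n) then 1 else 0 := by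
  have h1 : ∑ d ∈ (∏ p ∈ prs 0 u₀, p).divisors, ((ArithmeticFunction.moebius d : ℤ) : ℝ) *
      (if d ∣ n then (1 : ℝ) else 0) =
      ((∑ d ∈ (Nat.gcd (∏ p ∈ prs 0 u₀, p) n).divisors, ArithmeticFunction.moebius d : ℤ) : ℝ) := by
    have e1 : (Nat.gcd (∏ p ∈ prs 0 u₀, p) n).divisors =
        (∏ p ∈ prs 0 u₀, p).divisors.filter (fun d => d ∣ n) := by
      ext d
      rw [Nat.mem_divisors, Finset.mem_filter, Nat.mem_divisors, Nat.dvd_gcd_iff]
      have h2 := P_ne u₀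
      have h3 : Nat.gcd (∏ p ∈ prs 0 u₀, p) n ≠ 0 := fun h => h2 (Nat.gcd_eq_zero_iff.1 h).1
      tauto
    rw [e1, Finset.sum_filter]
    push_cast
    refine Finset.sum_congr rfl (fun d _ => ?_)
    split_ifs <;> simp
  rw [h1]
  have h2 : ∑ d ∈ (Nat.gcd (∏ p ∈ prs 0 u₀, p) n).divisors, ArithmeticFunction.moebius d =
      if Nat.gcd (∏ p ∈ prs 0 u₀, p) n = 1 then 1 else 0 := by
    rw [← ArithmeticFunction.coe_mul_zeta_apply, ArithmeticFunction.moebius_mul_coe_zeta,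
      ArithmeticFunction.one_apply]
  rw [h2]
  have h3 : Nat.gcd (∏ p ∈ prs 0 u₀, p) n = 1 ↔ ∀ p, p.Prime → p < u₀ → ¬ p ∣ n := by
    have h4 : Nat.gcd (∏ p ∈ prs 0 u₀, p) n = 1 ↔ Nat.Coprime (∏ p ∈ prs 0 u₀, p) n := Iff.rfl
    rw [h4, Nat.coprime_prod_left_iff]
    constructor
    · intro h p hp h5
      have := h p (by unfold prs; rw [Finset.mem_filter, Finset.mem_range]; exact ⟨h5, hp, by omega⟩)
      exact (Nat.Prime.coprime_iff_not_dvd hp).1 this
    · intro h p hp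
      unfold prs at hp
      rw [Finset.mem_filter, Finset.mem_range] at hp
      exact (Nat.Prime.coprime_iff_not_dvd hp.2.1).2 (h p hp.2.1 hp.1)
  by_cases h5 : ∀ p, p.Prime → p < u₀ → ¬ p ∣ n
  · rw [if_pos h5, if_pos (h3.2 h5)]; simp
  · rw [if_neg h5, if_neg (fun h => h5 (h3.1 h))]; simp

open Classical in
theorem CL_eq (hLam : St_Lam) (M N u₀ u z : ℕ) (b₁ b₂ : Bool) (l : ℝ) (n : ℕ) (hn : n ≠ 0)
    (h0 : u₀ ≤ u) (_h1 : u ≤ z) :
    CL M N u₀ u z b₁ b₂ l (fun d => if d ∣ n then 1 else 0) =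
      (if (∀ p, p.Prime → p < u₀ → ¬ p ∣ n) then 1 else 0) *
        (GG (gi n) (fun p => Real.log p) u₀ u b₁ (1 / 5000 * Real.log M) *
          GG (gi n) (cb M N) u z b₂ (l * Real.log M)) := by
  unfold CL
  rw [← moeb u₀ n hn, Finset.sum_mul]
  refine Finset.sum_congr rfl (fun d₀ hd₀ => ?_)
  rw [mul_assoc]
  congr 1
  rw [Nat.mem_divisors] at hd₀
  have hd0 : d₀ ≠ 0 := fun h => hd₀.2 (by
    have := hd₀.1
    rw [h, zero_dvd_iff] at this
    exact this)
  have hpf : ∀ p ∈ d₀.primeFactors, p < u₀ := by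
    intro p hp
    have := Nat.primeFactors_mono hd₀.1 hd₀.2 hp
    rw [P_pf] at this
    unfold prs at this
    rw [Finset.mem_filter, Finset.mem_range] at this
    exact this.1
  have e1 : Lam (fun p => Real.log p) u₀ u b₁ (1 / 5000 * Real.log M) (fun m =>
      Lam (cb M N) u z b₂ (l * Real.log M) (fun d => if d₀ * m * d ∣ n then 1 else 0)) =
      Lam (fun p => Real.log p) u₀ u b₁ (1 / 5000 * Real.log M) (fun m =>
        ((if d₀ ∣ n then 1 else 0) * GG (gi n) (cb M N) u z b₂ (l * Real.log M)) *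
          ∏ p ∈ m.primeFactors, gi n p) := by
    apply hLam.2.1
    intro m hm hmp
    have hm0 := hm.ne_zero
    have hco1 : Nat.Coprime d₀ m := cop hd0 hm0 hpf (fun p hp => (hmp p hp).1)
    have e2 : Lam (cb M N) u z b₂ (l * Real.log M) (fun d => if d₀ * m * d ∣ n then (1:ℝ) else 0) =
        Lam (cb M N) u z b₂ (l * Real.log M) (fun d => (if d₀ * m ∣ n then (1:ℝ) else 0) *
          ∏ p ∈ d.primeFactors, gi n p) := by
      apply hLam.2.1
      intro d hd hdp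
      have hco2 : Nat.Coprime (d₀ * m) d := by
        refine cop (Nat.mul_ne_zero hd0 hm0) hd.ne_zero (t := u) ?_ (fun p hp => (hdp p hp).1)
        intro p hp
        rw [Nat.primeFactors_mul hd0 hm0, Finset.mem_union] at hp
        rcases hp with hp | hp
        · exact lt_of_lt_of_le (hpf p hp) h0
        · exact (hmp p hp).2
      rw [prod_gi hd hn, dvd_split hco2]
    rw [e2, lam_const hLam, hLam.2.2, dvd_split hco1, prod_gi hm hn]
    ring
  rw [e1, lam_const hLam, hLam.2.2]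
  ring

end CLpt

open CLpt in
theorem tCLpt (hLam : St_Lam) (hGexp : St_Gexp) : St_CLpt := by
  classical
  intro M N u₀ u z l₁ l₂ n hn h0 h1
  have hG := hGexp.2.2
  have g01 : ∀ p, p.Prime → 0 ≤ gi n p ∧ gi n p ≤ 1 := fun p _ => gi01 n p
  have hA := hG (gi n) (fun p => Real.log p) u₀ u g01 (1 / 5000 * Real.log M)
  have hB1 := hG (gi n) (cb M N) u z g01 (l₁ * Real.log M)
  have hB2 := hG (gi n) (cb M N) u z g01 (l₂ * Real.log M)
  have e1 := CL_eq hLam M N u₀ u z true true l₁ n hn h0 h1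
  have e2 := CL_eq hLam M N u₀ u z true false l₁ n hn h0 h1
  have e3 := CL_eq hLam M N u₀ u z false true l₂ n hn h0 h1
  have e4 := CL_eq hLam M N u₀ u z true true l₂ n hn h0 h1
  have hVA := VV_gi n u₀ u
  have hVB := VV_gi n u z
  obtain ⟨ap, hap⟩ : ∃ t, t = GG (gi n) (fun p => Real.log p) u₀ u true (1 / 5000 * Real.log M) :=
    ⟨_, rfl⟩
  obtain ⟨am, ham⟩ : ∃ t, t = GG (gi n) (fun p => Real.log p) u₀ u false (1 / 5000 * Real.log M) :=
    ⟨_, rfl⟩
  obtain ⟨bp, hbp⟩ : ∃ t, t = GG (gi n) (cb M N) u z true (l₁ * Real.log M) := ⟨_, rfl⟩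
  obtain ⟨bm, hbm⟩ : ∃ t, t = GG (gi n) (cb M N) u z false (l₁ * Real.log M) := ⟨_, rfl⟩
  obtain ⟨bp2, hbp2⟩ : ∃ t, t = GG (gi n) (cb M N) u z true (l₂ * Real.log M) := ⟨_, rfl⟩
  obtain ⟨VA, hVA'⟩ : ∃ t, t = VV (gi n) u₀ u := ⟨_, rfl⟩
  obtain ⟨VB, hVB'⟩ : ∃ t, t = VV (gi n) u z := ⟨_, rfl⟩
  obtain ⟨e, he⟩ : ∃ t : ℝ, t = if (∀ p, p.Prime → p < u₀ → ¬ p ∣ n) then 1 else 0 := ⟨_, rfl⟩
  rw [← hap, ← ham, ← hVA'] at hA
  rw [← hbp, ← hbm, ← hVB'] at hB1
  rw [← hbp2, ← hVB'] at hB2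
  rw [← hVA'] at hVA
  rw [← hVB'] at hVB
  rw [← he, ← hap, ← hbp] at e1
  rw [← he, ← hap, ← hbm] at e2
  rw [← he, ← ham, ← hbp2] at e3
  rw [← he, ← hap, ← hbp2] at e4
  have he0 : 0 ≤ e := by rw [he]; split_ifs <;> norm_num
  -- the indicator
  have hind : (if (∀ p, p.Prime → p ∣ n → z ≤ p) then (1:ℝ) else 0) = e * (VA * VB) := by
    rw [he, hVA, hVB]
    by_cases h : ∀ p, p.Prime → p ∣ n → z ≤ p
    · rw [if_pos h, if_pos, if_pos, if_pos]
      · norm_num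
      · intro p hp _ h3 h4
        have := h p hp h4
        omega
      · intro p hp _ h3 h4
        have := h p hp h4
        omega
      · intro p hp h3 h4
        have := h p hp h4
        omega
    · rw [if_neg h]
      push Not at h
      obtain ⟨p, hp, h3, h4⟩ := h
      by_cases h5 : p < u₀
      · rw [if_neg (c := ∀ p, p.Prime → p < u₀ → ¬ p ∣ n), zero_mul]
        intro h6
        exact h6 p hp h5 h3
      · by_cases h6 : p < u
        · rw [if_neg (c := ∀ p, p.Prime → u₀ ≤ p → p < u → ¬ p ∣ n), zero_mul, mul_zero]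
          intro h7
          exact h7 p hp (by omega) h6 h3
        · rw [if_neg (c := ∀ p, p.Prime → u ≤ p → p < z → ¬ p ∣ n), mul_zero, mul_zero]
          intro h7
          exact h7 p hp (by omega) h4 h3
  have hVA0 : 0 ≤ VA := hA.2.2
  have hVB0 : 0 ≤ VB := hB1.2.2
  refine ⟨?_, ?_, ?_⟩
  · intro h
    rw [e1]
    rw [if_pos h] at hind
    have h2 : VA * VB ≤ ap * bp := mul_le_mul hA.2.1 hB1.2.1 hVB0 (le_trans hVA0 hA.2.1)
    have h3 := mul_le_mul_of_nonneg_left h2 he0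
    linarith
  · rw [e1]
    exact mul_nonneg he0 (mul_nonneg (le_trans hVA0 hA.2.1) (le_trans hVB0 hB1.2.1))
  · rw [e2, e3, e4]
    have hgoal : e * (ap * bm) + e * (am * bp2) - e * (ap * bp2) ≤ e * (VA * VB) := by
      have f1 : ap * bm ≤ ap * VB := mul_le_mul_of_nonneg_left hB1.1 (le_trans hVA0 hA.2.1)
      have f2 : am * bp2 ≤ VA * bp2 := mul_le_mul_of_nonneg_right hA.1 (le_trans hVB0 hB2.2.1)
      have f3 : 0 ≤ (ap - VA) * (bp2 - VB) :=
        mul_nonneg (by linarith [hA.2.1]) (by linarith [hB2.2.1])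
      have f4 : ap * bm + am * bp2 - ap * bp2 ≤ VA * VB := by nlinarith
      have f5 := mul_le_mul_of_nonneg_left f4 he0
      linarith
    rw [← hind] at hgoal
    convert hgoal using 2

end Pool.Agent.TCub
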