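import Pool.Agent.TCub.Stmts

open Finset

namespace Pool.Agent.TCub

namespace CLr

theorem mem_prs {u w p : ℕ} : p ∈ prs u w ↔ p < w ∧ p.Prime ∧ u ≤ p := by
  unfold prs
  rw [mem_filter, mem_range]

theorem prime_dvd_Q {u₀ p : ℕ} (hp : p.Prime) (h : p ∣ ∏ q ∈ prs 0 u₀, q) : p < u₀ := by
  rw [Prime.dvd_finsetProd_iff hp.prime] at h
  obtain ⟨q, hq, hpq⟩ := h
  rw [mem_prs] at hq
  have := (Nat.prime_dvd_prime_iff_eq hp hq.2.1).1 hpq
  omega

theorem sqf_Q (u₀ : ℕ) : Squarefree (∏ q ∈ prs 0 u₀, q) := by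
  apply Finset.squarefree_prod_of_pairwise_isCoprime
  · intro p hp q hq hpq
    rw [mem_coe, mem_prs] at hp hq
    exact Nat.coprime_iff_isRelPrime.1 ((Nat.coprime_primes hp.2.1 hq.2.1).2 hpq)
  · intro q hq
    rw [mem_prs] at hq
    exact hq.2.1.squarefree

theorem Q_pos (u₀ : ℕ) : 0 < ∏ q ∈ prs 0 u₀, q := by
  apply prod_pos
  intro q hq
  rw [mem_prs] at hq
  exact hq.2.1.pos

theorem m0_facts {u₀ u d₀ m : ℕ} (huu : u₀ ≤ u) (hd : d₀ ∈ (∏ q ∈ prs 0 u₀, q).divisors)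
    (hm : Squarefree m) (hmp : ∀ p ∈ m.primeFactors, u₀ ≤ p ∧ p < u) :
    Squarefree (d₀ * m) ∧ ∀ p ∈ (d₀ * m).primeFactors, p < u := by
  have hdQ : d₀ ∣ ∏ q ∈ prs 0 u₀, q := Nat.dvd_of_mem_divisors hd
  have hd0 : d₀ ≠ 0 := by
    rintro rfl
    exact (Q_pos u₀).ne' (Nat.eq_zero_of_zero_dvd hdQ)
  have hcop : Nat.Coprime d₀ m := by
    apply Nat.Coprime.symm
    apply Nat.coprime_of_dvd
    intro p hp hpm hpd
    have h1 := prime_dvd_Q hp (hpd.trans hdQ)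
    have h2 := hmp p (Nat.mem_primeFactors.2 ⟨hp, hpm, hm.ne_zero⟩)
    omega
  constructor
  · rw [Nat.squarefree_mul hcop]
    exact ⟨(sqf_Q u₀).squarefree_of_dvd hdQ, hm⟩
  · intro p hp
    rw [Nat.primeFactors_mul hd0 hm.ne_zero, mem_union] at hp
    rcases hp with h | h
    · have h1 := prime_dvd_Q (Nat.prime_of_mem_primeFactors h)
        ((Nat.dvd_of_mem_primeFactors h).trans hdQ)
      omega
    · exact (hmp p h).2

/-- bound for the small sieve -/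
theorem core (hLams : St_Lams) {u₀ u M s₁ : ℕ} (hM : 2 ≤ M) (hs : 2 ≤ s₁) (hu : u = uu M s₁)
    (b : Bool) (B : ℝ) (hB : 0 ≤ B) (ψ : ℕ → ℝ)
    (hψ : ∀ m : ℕ, Squarefree m → (∀ p ∈ m.primeFactors, u₀ ≤ p ∧ p < u) →
      (m : ℝ) ≤ (M : ℝ) ^ (1 / 5000 : ℝ) → |ψ m| ≤ B) :
    |Lam (fun p => Real.log p) u₀ u b (1 / 5000 * Real.log M) ψ| ≤
      2 * (M : ℝ) ^ (1 / 5000 : ℝ) * B := by
  have hMr : (2 : ℝ) ≤ M := by exact_mod_cast hM
  have hM0 : (0 : ℝ) < M := by linarith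
  have hlog : 0 < Real.log M := Real.log_pos (by linarith)
  have hexp : Real.exp (1 / 5000 * Real.log M) = (M : ℝ) ^ (1 / 5000 : ℝ) := by
    rw [Real.rpow_def_of_pos hM0]
    congr 1
    ring
  have h1 := hLams (fun p => Real.log p) u₀ u b (1 / 5000 * Real.log M) (by positivity)
    (fun p _ _ => le_rfl)
    (fun p q hp hq _ hpq => Real.log_le_log (by exact_mod_cast hp.pos) (by exact_mod_cast hpq))
    (by
      intro _ p hp _ hpu
      rw [hu] at hpu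
      unfold uu at hpu
      rw [Nat.lt_ceil] at hpu
      have hs' : (2 : ℝ) ≤ s₁ := by exact_mod_cast hs
      have h2 : Real.log p < Real.log ((M : ℝ) ^ (1 / (5000 * (s₁:ℝ)))) :=
        Real.log_lt_log (by exact_mod_cast hp.pos) hpu
      rw [Real.log_rpow hM0] at h2
      refine h2.trans ?_
      apply mul_lt_mul_of_pos_right _ hlog
      apply one_div_lt_one_div_of_lt (by norm_num)
      linarith) ψ
  refine h1.trans ?_
  rw [hexp]
  have hone : (1 : ℝ) ≤ (M : ℝ) ^ (1 / 5000 : ℝ) := Real.one_le_rpow (by linarith) (by norm_num)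
  calc ∑ d ∈ (range ⌈(M : ℝ) ^ (1 / 5000 : ℝ)⌉₊).filter
        (fun d => Squarefree d ∧ ∀ p ∈ d.primeFactors, u₀ ≤ p ∧ p < u), |ψ d|
      ≤ ∑ d ∈ (range ⌈(M : ℝ) ^ (1 / 5000 : ℝ)⌉₊).filter
        (fun d => Squarefree d ∧ ∀ p ∈ d.primeFactors, u₀ ≤ p ∧ p < u), B := by
        apply sum_le_sum
        intro m hm
        rw [mem_filter, mem_range, Nat.lt_ceil] at hm
        exact hψ m hm.2.1 hm.2.2 hm.1.le
    _ ≤ ∑ d ∈ range ⌈(M : ℝ) ^ (1 / 5000 : ℝ)⌉₊, B := by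
        apply sum_le_sum_of_subset_of_nonneg (filter_subset _ _)
        intro _ _ _
        exact hB
    _ = (⌈(M : ℝ) ^ (1 / 5000 : ℝ)⌉₊ : ℝ) * B := by
        rw [sum_const, card_range, nsmul_eq_mul]
    _ ≤ 2 * (M : ℝ) ^ (1 / 5000 : ℝ) * B := by
        apply mul_le_mul_of_nonneg_right _ hB
        have := (Nat.ceil_lt_add_one (a := (M : ℝ) ^ (1 / 5000 : ℝ)) (by positivity)).le
        linarith

/-- the sum over `d₀` -/
theorem outer {M s₁ u₀ : ℕ} (hM : 2 ≤ M) (X B : ℝ) (hX : 0 ≤ X) (hB : 0 ≤ B)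
    (Φ : ℕ → ℝ) (hΦ : ∀ d₀ ∈ (∏ p ∈ prs 0 u₀, p).divisors, |Φ d₀| ≤
      2 * (M : ℝ) ^ (1 / 5000 : ℝ) * (B * X * (M : ℝ) ^ (-(1 / 500) : ℝ))) :
    |∑ d₀ ∈ (∏ p ∈ prs 0 u₀, p).divisors, ((ArithmeticFunction.moebius d₀ : ℤ) : ℝ) * Φ d₀| ≤
      (((∏ p ∈ prs 0 u₀, p).divisors.card : ℝ) * 2 * B) * X * (M : ℝ) ^ (-(1 / 1000) : ℝ) := by
  have hMr : (2 : ℝ) ≤ M := by exact_mod_cast hM
  have hM0 : (0 : ℝ) < M := by linarith
  calc |∑ d₀ ∈ (∏ p ∈ prs 0 u₀, p).divisors, ((ArithmeticFunction.moebius d₀ : ℤ) : ℝ) * Φ d₀|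
      ≤ ∑ d₀ ∈ (∏ p ∈ prs 0 u₀, p).divisors,
          |((ArithmeticFunction.moebius d₀ : ℤ) : ℝ) * Φ d₀| := abs_sum_le_sum_abs _ _
    _ ≤ ∑ d₀ ∈ (∏ p ∈ prs 0 u₀, p).divisors,
          2 * (M : ℝ) ^ (1 / 5000 : ℝ) * (B * X * (M : ℝ) ^ (-(1 / 500) : ℝ)) := by
        apply sum_le_sum
        intro d₀ hd₀
        rw [abs_mul]
        have h1 : |((ArithmeticFunction.moebius d₀ : ℤ) : ℝ)| ≤ 1 := by
          have := ArithmeticFunction.abs_moebius_le_one (n := d₀)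
          exact_mod_cast this
        calc |((ArithmeticFunction.moebius d₀ : ℤ) : ℝ)| * |Φ d₀| ≤ 1 * |Φ d₀| :=
              mul_le_mul_of_nonneg_right h1 (abs_nonneg _)
          _ = |Φ d₀| := one_mul _
          _ ≤ _ := hΦ d₀ hd₀
    _ = (((∏ p ∈ prs 0 u₀, p).divisors.card : ℝ) * 2 * B) * X *
          ((M : ℝ) ^ (1 / 5000 : ℝ) * (M : ℝ) ^ (-(1 / 500) : ℝ)) := by
        rw [sum_const, nsmul_eq_mul]
        ring
    _ ≤ _ := by
        apply mul_le_mul_of_nonneg_left _ (by positivity)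
        rw [← Real.rpow_add hM0]
        apply Real.rpow_le_rpow_of_exponent_le (by linarith)
        norm_num

theorem zz_eq {M N : ℕ} (hN : 1 ≤ N) :
    zz M = ⌈(M:ℝ) ^ (((425 * N : ℕ) : ℝ) / (1000 * N))⌉₊ := by
  unfold zz
  congr 2
  have : (0 : ℝ) < N := by exact_mod_cast hN
  push_cast
  field_simp

/-- a signed sum over types -/
theorem types_le {N r : ℕ} {b : Bool} {l : ℝ} (F : Multiset ℕ → ℝ) (B : ℝ) (hB : 0 ≤ B)
    (hF : ∀ τ ∈ Tya N b l (425 * N) r, |F τ| ≤ B) :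
    |∑ τ ∈ Tya N b l (425 * N) r, (-1 : ℝ) ^ (Multiset.card τ) * F τ| ≤
      ((Ty (425 * N) r).card : ℝ) * B := by
  calc |∑ τ ∈ Tya N b l (425 * N) r, (-1 : ℝ) ^ (Multiset.card τ) * F τ|
      ≤ ∑ τ ∈ Tya N b l (425 * N) r, |(-1 : ℝ) ^ (Multiset.card τ) * F τ| :=
        abs_sum_le_sum_abs _ _
    _ ≤ ∑ τ ∈ Tya N b l (425 * N) r, B := by
        apply sum_le_sum
        intro τ hτ
        rw [abs_mul, abs_pow, abs_neg, abs_one, one_pow, one_mul]
        exact hF τ hτ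
    _ = ((Tya N b l (425 * N) r).card : ℝ) * B := by rw [sum_const, nsmul_eq_mul]
    _ ≤ _ := by
        apply mul_le_mul_of_nonneg_right _ hB
        have : (Tya N b l (425 * N) r).card ≤ (Ty (425 * N) r).card := by
          classical
          unfold Tya
          exact card_le_card (filter_subset _ _)
        exact_mod_cast this

theorem XX_nonneg (M K : ℕ) : 0 ≤ XX M K := by
  unfold XX
  positivity

end CLr

open CLr in
theorem tCLrem (hLT : St_LT) (hLam : St_Lam) (hLams : St_Lams) (hbox : St_box) (hadm : St_adm) (hslack : St_slack) (hDcl : St_Dcl) (hsplitd : St_splitd) : St_CLrem := by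
  intro u₀ s₁ N K hs hN hK
  have hN1 : 1 ≤ N := by omega
  obtain ⟨C, hC, hLT'⟩ := hLT K (10000 * s₁ + 1) N hK hN1 (by omega)
  obtain ⟨ha1, ha2, ha3⟩ := hadm N (10000 * s₁) hN1
  obtain ⟨D₀, hD₀⟩ : ∃ D₀ : ℝ, D₀ = (((∏ p ∈ prs 0 u₀, p).divisors.card : ℕ) : ℝ) := ⟨_, rfl⟩
  obtain ⟨T₀, hT₀⟩ : ∃ T₀ : ℝ, T₀ = ((Ty (425 * N) (10000 * s₁)).card : ℝ) := ⟨_, rfl⟩
  obtain ⟨Q, hQ⟩ : ∃ Q : ℕ, Q = ∏ p ∈ prs 0 u₀, p := ⟨_, rfl⟩
  have hD₀0 : 0 ≤ D₀ := by rw [hD₀]; positivity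
  have hT₀0 : 0 ≤ T₀ := by rw [hT₀]; positivity
  have hsr : (2 : ℝ) ≤ s₁ := by exact_mod_cast hs
  have hev1 : ∀ᶠ M : ℕ in Filter.atTop, (u₀ : ℝ) ≤ (M : ℝ) ^ (1 / (5000 * (s₁:ℝ))) :=
    ((tendsto_rpow_atTop (by positivity)).comp tendsto_natCast_atTop_atTop).eventually_ge_atTop _
  have hev2 : ∀ᶠ M : ℕ in Filter.atTop, (Q : ℝ) ≤ (M : ℝ) ^ (1 / 20000 : ℝ) :=
    ((tendsto_rpow_atTop (by positivity)).comp tendsto_natCast_atTop_atTop).eventually_ge_atTop _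
  obtain ⟨M₀, hM₀⟩ := Filter.eventually_atTop.1 (hev1.and (hev2.and (Filter.eventually_ge_atTop 100)))
  refine ⟨D₀ * 2 * (T₀ * C) + 1, M₀, by positivity, ?_⟩
  intro M hM
  obtain ⟨hu₀M, hQM, hM100⟩ := hM₀ M hM
  have hM2 : 2 ≤ M := by omega
  have hMr : (100 : ℝ) ≤ M := by exact_mod_cast hM100
  have hM0 : (0 : ℝ) < M := by linarith
  have hX := XX_nonneg M K
  obtain ⟨u, hu⟩ : ∃ u, u = uu M s₁ := ⟨_, rfl⟩
  have hu₀u : u₀ ≤ u := by
    have h1 : (u₀ : ℝ) ≤ (u : ℝ) := by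
      refine hu₀M.trans ?_
      rw [hu]
      exact Nat.le_ceil _
    exact_mod_cast h1
  have hυ : (M : ℝ) ^ (1 / (5000 * (s₁:ℝ))) ≤ u := by
    rw [hu]
    exact Nat.le_ceil _
  -- the level of distribution for one type
  have hone : ∀ (d₀ m : ℕ) (τ : Multiset ℕ), d₀ ∈ (∏ q ∈ prs 0 u₀, q).divisors → Squarefree m →
      (∀ p ∈ m.primeFactors, u₀ ≤ p ∧ p < u) → (m : ℝ) ≤ (M : ℝ) ^ (1 / 5000 : ℝ) →
      Multiset.card τ ≤ 10000 * s₁ + 1 → SC N τ →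
      |∑ d ∈ Dcl M N u τ, RR M K (d₀ * m * d)| ≤ C * XX M K * (M:ℝ) ^ (-(1 / 500) : ℝ) := by
    intro d₀ m τ hd₀ hm hmp hmM hτ hSC
    obtain ⟨hsq, hpr⟩ := m0_facts hu₀u hd₀ hm hmp
    have htv : tv N τ ≤ 171 / 100 := by
      have := hSC.1
      linarith
    apply hLT' M hM100 u τ hτ htv (hslack N τ hN1 hSC) (d₀ * m) hsq hpr
    have hd₀Q : d₀ ≤ Q := by
      rw [hQ]
      exact Nat.divisor_le hd₀
    have hd₀Q' : (d₀ : ℝ) ≤ Q := by exact_mod_cast hd₀Q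
    push_cast
    calc (d₀ : ℝ) * m ≤ (M : ℝ) ^ (1 / 20000 : ℝ) * (M : ℝ) ^ (1 / 5000 : ℝ) :=
          mul_le_mul (hd₀Q'.trans hQM) hmM (by positivity) (by positivity)
      _ = (M : ℝ) ^ (1 / 4000 : ℝ) := by
          rw [← Real.rpow_add hM0]
          norm_num
  have hB0 : 0 ≤ C * XX M K * (M:ℝ) ^ (-(1 / 500) : ℝ) := by positivity
  have hr : (2 : ℝ) / (1 / (5000 * (s₁:ℝ))) ≤ ((10000 * s₁ : ℕ) : ℝ) := by
    have : (0 : ℝ) < s₁ := by linarith
    push_cast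
    rw [div_div_eq_mul_div, div_one]
    linarith
  have hz := zz_eq (M := M) hN1
  have hJ : (((425 * N : ℕ) : ℝ) / (1000 * N)) = 425 / 1000 := by
    have : (0 : ℝ) < N := by exact_mod_cast hN1
    push_cast
    field_simp
  -- part A
  have hA : ∀ (b₁ b₂ : Bool) (l : ℝ), 0 < l → l ≤ 2 →
      (b₂ = false → ((425 * N : ℕ) : ℝ) / (1000 * N) < l) →
      (∀ τ ∈ Tya N b₂ l (425 * N) (10000 * s₁), Multiset.card τ ≤ 10000 * s₁ ∧ SC N τ) →
      |CL M N u₀ u (zz M) b₁ b₂ l (RR M K)| ≤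
        (D₀ * 2 * (T₀ * C) + 1) * XX M K * (M:ℝ) ^ (-(1 / 1000) : ℝ) := by
    intro b₁ b₂ l hl0 hl2 hb hty
    have h1 : |CL M N u₀ u (zz M) b₁ b₂ l (RR M K)| ≤
        (((∏ p ∈ prs 0 u₀, p).divisors.card : ℝ) * 2 * (T₀ * C)) * XX M K *
          (M : ℝ) ^ (-(1 / 1000) : ℝ) := by
      unfold CL
      apply outer (s₁ := s₁) hM2 (XX M K) (T₀ * C) hX (by positivity)
      intro d₀ hd₀
      refine (core hLams hM2 hs hu b₁ (T₀ * (C * XX M K * (M:ℝ) ^ (-(1 / 500) : ℝ)))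
        (by positivity) _ ?_).trans (le_of_eq (by ring))
      intro m hm hmp hmM
      rw [hz, hbox M N u (425 * N) (10000 * s₁) (1 / (5000 * (s₁:ℝ))) l b₂ hM2 hN1 (by positivity)
        hυ hr hl0 hl2 hb]
      rw [hT₀]
      apply types_le _ _ hB0
      intro τ hτ
      exact hone d₀ m τ hd₀ hm hmp hmM ((hty τ hτ).1.trans (Nat.le_succ _)) (hty τ hτ).2
    refine h1.trans ?_
    rw [← hD₀]
    have h2 : 0 ≤ XX M K * (M:ℝ) ^ (-(1 / 1000) : ℝ) := by positivity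
    nlinarith
  refine ⟨fun b₁ => ⟨?_, ?_⟩, ?_⟩
  · rw [← hu]
    exact hA b₁ false (17 / 10) (by norm_num) (by norm_num) (by rw [hJ]; norm_num) ha1
  · rw [← hu]
    exact hA b₁ true 1 (by norm_num) (by norm_num) (by simp) ha2
  · intro j hj1 hj2
    obtain ⟨hl0, hl1, hty⟩ := ha3 j hj1 hj2
    rw [← hu]
    have hup : ∀ p ∈ bxp M N j, u ≤ p := by
      intro p hp
      obtain ⟨_, _, hD3, hD4⟩ := hDcl
      rw [hD3 M N j p hM2 hN1] at hp
      have h1 : ¬ ((p:ℝ) < (M:ℝ) ^ ((j:ℝ) / (1000 * N))) := by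
        rw [← hD4 M N j p hM2 hN1 hp.1, hp.2]
        exact lt_irrefl _
      rw [not_lt] at h1
      rw [hu]
      unfold uu
      rw [Nat.ceil_le]
      refine le_trans ?_ h1
      apply Real.rpow_le_rpow_of_exponent_le (by linarith)
      have hNr : (0 : ℝ) < N := by exact_mod_cast hN1
      have hjr : (425 : ℝ) * N ≤ j := by exact_mod_cast hj1
      calc 1 / (5000 * (s₁:ℝ)) ≤ 1 / 10 := by
            apply one_div_le_one_div_of_le (by norm_num)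
            linarith
        _ ≤ 425 / 1000 := by norm_num
        _ ≤ (j : ℝ) / (1000 * N) := by
            rw [div_le_div_iff₀ (by norm_num) (by positivity)]
            nlinarith
    have hswap : ∑ p ∈ bxp M N j, CL M N u₀ u (zz M) true true (lv N j)
        (fun d => RR M K (p * d)) =
        ∑ d₀ ∈ (∏ p ∈ prs 0 u₀, p).divisors, ((ArithmeticFunction.moebius d₀ : ℤ) : ℝ) *
          Lam (fun p => Real.log p) u₀ u true (1 / 5000 * Real.log M) (fun m =>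
            ∑ p ∈ bxp M N j, 1 * Lam (cb M N) u (zz M) true (lv N j * Real.log M)
              (fun d => RR M K (p * (d₀ * m * d)))) := by
      unfold CL
      rw [sum_comm]
      apply sum_congr rfl
      intro d₀ _
      rw [← mul_sum]
      congr 1
      rw [hLam.1 (fun p => Real.log p) u₀ u true (1 / 5000 * Real.log M) ℕ (bxp M N j)
        (fun _ => 1) (fun p m => Lam (cb M N) u (zz M) true (lv N j * Real.log M)
              (fun d => RR M K (p * (d₀ * m * d))))]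
      simp only [one_mul]
    rw [hswap]
    have h1 : |∑ d₀ ∈ (∏ p ∈ prs 0 u₀, p).divisors, ((ArithmeticFunction.moebius d₀ : ℤ) : ℝ) *
          Lam (fun p => Real.log p) u₀ u true (1 / 5000 * Real.log M) (fun m =>
            ∑ p ∈ bxp M N j, 1 * Lam (cb M N) u (zz M) true (lv N j * Real.log M)
              (fun d => RR M K (p * (d₀ * m * d))))| ≤
        (((∏ p ∈ prs 0 u₀, p).divisors.card : ℝ) * 2 * (T₀ * C)) * XX M K *
          (M : ℝ) ^ (-(1 / 1000) : ℝ) := by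
      apply outer (s₁ := s₁) hM2 (XX M K) (T₀ * C) hX (by positivity)
      intro d₀ hd₀
      refine (core hLams hM2 hs hu true (T₀ * (C * XX M K * (M:ℝ) ^ (-(1 / 500) : ℝ)))
        (by positivity) _ ?_).trans (le_of_eq (by ring))
      intro m hm hmp hmM
      have hrw : ∑ p ∈ bxp M N j, 1 * Lam (cb M N) u (zz M) true (lv N j * Real.log M)
              (fun d => RR M K (p * (d₀ * m * d))) =
          ∑ τ ∈ Tya N true (lv N j) (425 * N) (10000 * s₁), (-1 : ℝ) ^ (Multiset.card τ) *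
            ∑ p ∈ bxp M N j, ∑ d ∈ Dcl M N u τ, RR M K (d₀ * m * (p * d)) := by
        have : ∀ p ∈ bxp M N j, 1 * Lam (cb M N) u (zz M) true (lv N j * Real.log M)
              (fun d => RR M K (p * (d₀ * m * d))) =
            ∑ τ ∈ Tya N true (lv N j) (425 * N) (10000 * s₁), (-1 : ℝ) ^ (Multiset.card τ) *
              ∑ d ∈ Dcl M N u τ, RR M K (d₀ * m * (p * d)) := by
          intro p _
          rw [one_mul, hz, hbox M N u (425 * N) (10000 * s₁) (1 / (5000 * (s₁:ℝ))) (lv N j) true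
            hM2 hN1 (by positivity) hυ hr hl0 (by linarith) (by simp)]
          apply sum_congr rfl
          intro τ _
          congr 1
          apply sum_congr rfl
          intro d _
          congr 1
          ring
        rw [sum_congr rfl this, sum_comm]
        apply sum_congr rfl
        intro τ _
        rw [mul_sum]
      rw [hrw, hT₀]
      apply types_le _ _ hB0
      intro τ hτ
      obtain ⟨hc, hSC, hlt⟩ := hty τ hτ
      rw [hsplitd.2 M N u j τ hM2 hN1 hlt hup (fun d => RR M K (d₀ * m * d))]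
      apply hone d₀ m (j ::ₘ τ) hd₀ hm hmp hmM _ hSC
      rw [Multiset.card_cons]
      omega
    refine h1.trans ?_
    rw [← hD₀]
    have h2 : 0 ≤ XX M K * (M:ℝ) ^ (-(1 / 1000) : ℝ) := by positivity
    nlinarith

end Pool.Agent.TCub
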