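import Pool.Agent.TCub.Stmts

open Finset

namespace Pool.Agent.TCub

namespace Contr

open MeasureTheory

theorem log_le_of {y b : ℝ} (n : ℕ) (hy : 0 < y) (hb : 0 ≤ b)
    (h : y ≤ ∑ i ∈ range n, b ^ i / (Nat.factorial i : ℝ)) : Real.log y ≤ b := by
  rw [Real.log_le_iff_le_exp hy]
  exact h.trans (Real.sum_le_exp_of_nonneg hb n)

theorem piece {c L E v : ℝ} (hc : 0 < c) (hv : 0 < v) (hL : Real.log (3 / c) ≤ L)
    (hE0 : 0 ≤ E) (hE : E ≤ Real.exp (-(c - 1))) (hvc : v ≤ 1 + c)
    (hP : 8 / 7 * ((L - 1) * v + c) + 8 / 21 * v ≤ 7 / 8 * E * v * (v + 1) * (1 + c - v)) :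
    8 / 7 * Real.log (3 / v) + 8 / 21 ≤ 7 / 8 * (v + 1) * Real.exp (-(v - 1)) := by
  have h1 : Real.log (3 / v) ≤ L + (c / v - 1) := by
    have e1 : 3 / v = (3 / c) * (c / v) := by field_simp
    rw [e1, Real.log_mul (by positivity) (by positivity)]
    have := Real.log_le_sub_one_of_pos (show 0 < c / v by positivity)
    linarith
  have h2 : E * (1 + c - v) ≤ Real.exp (-(v - 1)) := by
    have e2 : Real.exp (-(v - 1)) = Real.exp (-(c - 1)) * Real.exp (c - v) := by
      rw [← Real.exp_add]; congr 1; ring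
    rw [e2]
    have h3 := Real.add_one_le_exp (c - v)
    have h4 : 0 ≤ 1 + c - v := by linarith
    calc E * (1 + c - v) ≤ Real.exp (-(c - 1)) * (1 + c - v) :=
          mul_le_mul_of_nonneg_right hE h4
      _ ≤ Real.exp (-(c - 1)) * Real.exp (c - v) :=
          mul_le_mul_of_nonneg_left (by linarith) (Real.exp_pos _).le
  have h5 : 8 / 7 * (L + (c / v - 1)) + 8 / 21 ≤ 7 / 8 * (v + 1) * (E * (1 + c - v)) := by
    have h6 : v * (8 / 7 * (L + (c / v - 1)) + 8 / 21) ≤
        v * (7 / 8 * (v + 1) * (E * (1 + c - v))) := by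
      have e3 : v * (8 / 7 * (L + (c / v - 1)) + 8 / 21) =
          8 / 7 * ((L - 1) * v + c) + 8 / 21 * v := by field_simp; ring
      rw [e3]
      linarith
    exact le_of_mul_le_mul_left h6 hv
  have h7 : 7 / 8 * (v + 1) * (E * (1 + c - v)) ≤ 7 / 8 * (v + 1) * Real.exp (-(v - 1)) :=
    mul_le_mul_of_nonneg_left h2 (by positivity)
  linarith

theorem cub {a b v p q r s : ℝ} (ha : a ≤ v) (hb : v ≤ b) (hp : 0 ≤ p) (hq : 0 ≤ q) (hr : 0 ≤ r)
    (hs : 0 ≤ s) : 0 ≤ p * (b - v) ^ 3 + q * ((v - a) * (b - v) ^ 2) +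
      r * ((v - a) ^ 2 * (b - v)) + s * (v - a) ^ 3 := by
  have h1 : 0 ≤ v - a := by linarith
  have h2 : 0 ≤ b - v := by linarith
  positivity

theorem exp_neg_ge {x B : ℝ} (h0 : 0 ≤ x) (h1 : x ≤ 1) {n : ℕ} (hn : 0 < n) (hB : 0 < B)
    (h : (∑ m ∈ range n, x ^ m / (Nat.factorial m : ℝ)) +
      x ^ n * (n + 1) / ((Nat.factorial n : ℝ) * n) ≤ 1 / B) : B ≤ Real.exp (-x) := by
  have h2 := Real.exp_bound' h0 h1 hn
  have h3 : Real.exp x ≤ 1 / B := h2.trans h
  rw [Real.exp_neg, ← one_div]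
  rw [le_one_div hB (Real.exp_pos x)]
  exact h3

theorem key {v : ℝ} (h1 : 1 ≤ v) (h3 : v ≤ 3) :
    8 / 7 * Real.log (3 / v) + 8 / 21 ≤ 7 / 8 * (v + 1) * Real.exp (-(v - 1)) := by
  have hv : 0 < v := by linarith
  rcases le_total v (3 / 2) with h | h
  · refine piece (c := 6 / 5) (L := 92 / 100) (E := 81 / 100) (by norm_num) hv ?_ (by norm_num) ?_
      (by linarith) ?_
    · refine log_le_of 6 (by norm_num) (by norm_num) ?_
      norm_num [Finset.sum_range_succ, Nat.factorial]
    · have e : Real.exp (-((6:ℝ) / 5 - 1)) = Real.exp (-(1 / 10)) * Real.exp (-(1 / 10)) := by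
        rw [← Real.exp_add]; congr 1; norm_num
      rw [e]
      have h9 : (9 / 10 : ℝ) ≤ Real.exp (-(1 / 10)) := by
        have := Real.add_one_le_exp (-(1 / 10 : ℝ))
        linarith
      nlinarith
    · nlinarith [mul_nonneg (sub_nonneg.2 h1) (sub_nonneg.2 h),
        mul_nonneg (mul_nonneg (sub_nonneg.2 h1) (sub_nonneg.2 h)) (sub_nonneg.2 h),
        mul_nonneg (mul_nonneg (sub_nonneg.2 h1) (sub_nonneg.2 h)) (sub_nonneg.2 h1),
        pow_nonneg (sub_nonneg.2 h) 3, pow_nonneg (sub_nonneg.2 h1) 3]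
  rcases le_total v 2 with h' | h'
  · refine piece (c := 7 / 4) (L := 545 / 1000) (E := 471 / 1000) (by norm_num) hv ?_
      (by norm_num) ?_ (by linarith) ?_
    · refine log_le_of 4 (by norm_num) (by norm_num) ?_
      norm_num [Finset.sum_range_succ, Nat.factorial]
    · have e : (-((7:ℝ) / 4 - 1)) = -(3 / 4) := by norm_num
      rw [e]
      refine exp_neg_ge (n := 4) (by norm_num) (by norm_num) (by norm_num) (by norm_num) ?_
      norm_num [Finset.sum_range_succ, Nat.factorial]
    · nlinarith [mul_nonneg (sub_nonneg.2 h) (sub_nonneg.2 h'),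
        mul_nonneg (mul_nonneg (sub_nonneg.2 h) (sub_nonneg.2 h')) (sub_nonneg.2 h'),
        mul_nonneg (mul_nonneg (sub_nonneg.2 h) (sub_nonneg.2 h')) (sub_nonneg.2 h),
        pow_nonneg (sub_nonneg.2 h') 3, pow_nonneg (sub_nonneg.2 h) 3]
  rcases le_total v (5 / 2) with h'' | h''
  · refine piece (c := 9 / 4) (L := 29 / 100) (E := 286 / 1000) (by norm_num) hv ?_
      (by norm_num) ?_ (by linarith) ?_
    · refine log_le_of 4 (by norm_num) (by norm_num) ?_
      norm_num [Finset.sum_range_succ, Nat.factorial]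
    · have e : Real.exp (-((9:ℝ) / 4 - 1)) = Real.exp (-(5 / 8)) * Real.exp (-(5 / 8)) := by
        rw [← Real.exp_add]; congr 1; norm_num
      rw [e]
      have h9 : (535 / 1000 : ℝ) ≤ Real.exp (-(5 / 8)) := by
        refine exp_neg_ge (n := 4) (by norm_num) (by norm_num) (by norm_num) (by norm_num) ?_
        norm_num [Finset.sum_range_succ, Nat.factorial]
      nlinarith
    · nlinarith [mul_nonneg (sub_nonneg.2 h') (sub_nonneg.2 h''),
        mul_nonneg (mul_nonneg (sub_nonneg.2 h') (sub_nonneg.2 h'')) (sub_nonneg.2 h''),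
        mul_nonneg (mul_nonneg (sub_nonneg.2 h') (sub_nonneg.2 h'')) (sub_nonneg.2 h'),
        pow_nonneg (sub_nonneg.2 h'') 3, pow_nonneg (sub_nonneg.2 h') 3]
  · refine piece (c := 11 / 4) (L := 9 / 100) (E := 173 / 1000) (by norm_num) hv ?_
      (by norm_num) ?_ (by linarith) ?_
    · refine log_le_of 3 (by norm_num) (by norm_num) ?_
      norm_num [Finset.sum_range_succ, Nat.factorial]
    · have e : Real.exp (-((11:ℝ) / 4 - 1)) = Real.exp (-(7 / 8)) * Real.exp (-(7 / 8)) := by
        rw [← Real.exp_add]; congr 1; norm_num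
      rw [e]
      have h9 : (416 / 1000 : ℝ) ≤ Real.exp (-(7 / 8)) := by
        refine exp_neg_ge (n := 5) (by norm_num) (by norm_num) (by norm_num) (by norm_num) ?_
        norm_num [Finset.sum_range_succ, Nat.factorial]
      nlinarith
    · nlinarith [mul_nonneg (sub_nonneg.2 h'') (sub_nonneg.2 h3),
        mul_nonneg (mul_nonneg (sub_nonneg.2 h'') (sub_nonneg.2 h3)) (sub_nonneg.2 h3),
        mul_nonneg (mul_nonneg (sub_nonneg.2 h'') (sub_nonneg.2 h3)) (sub_nonneg.2 h''),
        pow_nonneg (sub_nonneg.2 h3) 3, pow_nonneg (sub_nonneg.2 h'') 3]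

theorem HW_int (c : ℝ) : IntegrableOn (fun t => HW (t - 1)) (Set.Ioi c) ∧
    ∫ t in Set.Ioi c, HW (t - 1) = Real.exp (-(c - 3)) := by
  have e : (fun t => HW (t - 1)) = fun t => Real.exp 3 * Real.exp (-t) := by
    funext t
    unfold HW
    rw [← Real.exp_add]
    congr 1
    ring
  rw [e]
  constructor
  · exact (integrableOn_exp_neg_Ioi c).const_mul _
  · rw [integral_const_mul, integral_exp_neg_Ioi, ← Real.exp_add]
    congr 1
    ring

theorem HU_tail {c : ℝ} (hc : 4 ≤ c) : IntegrableOn (fun t => HU (t - 1)) (Set.Ioi c) ∧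
    ∫ t in Set.Ioi c, HU (t - 1) = 8 / 21 * Real.exp (-(c - 4)) := by
  have e : Set.EqOn (fun t => HU (t - 1)) (fun t => 8 / 21 * Real.exp 4 * Real.exp (-t))
      (Set.Ioi c) := by
    intro t ht
    have ht' : c < t := ht
    have h1 : ¬ (t - 1 ≤ 3) := by linarith
    simp only [HU, if_neg h1]
    rw [mul_assoc, ← Real.exp_add]
    congr 2
    ring
  constructor
  · refine IntegrableOn.congr_fun ?_ (fun t ht => (e ht).symm) measurableSet_Ioi
    exact (integrableOn_exp_neg_Ioi c).const_mul _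
  · rw [setIntegral_congr_fun measurableSet_Ioi e, integral_const_mul, integral_exp_neg_Ioi,
      mul_assoc, ← Real.exp_add]
    congr 2
    ring

theorem HU_mid {s : ℝ} (hs : 2 ≤ s) (hs4 : s ≤ 4) :
    IntegrableOn (fun t => HU (t - 1)) (Set.Ioc s 4) ∧
    ∫ t in Set.Ioc s 4, HU (t - 1) = 8 / 7 * Real.log (3 / (s - 1)) := by
  have e : Set.EqOn (fun t => HU (t - 1)) (fun t => 8 / 7 * (t - 1)⁻¹) (Set.Ioc s 4) := by
    intro t ht
    have h1 : t - 1 ≤ 3 := by linarith [ht.2]
    simp only [HU, if_pos h1]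
    rw [div_eq_mul_inv]
  have hcont : ContinuousOn (fun t : ℝ => 8 / 7 * (t - 1)⁻¹) (Set.Icc s 4) := by
    apply ContinuousOn.mul continuousOn_const
    apply ContinuousOn.inv₀ (by fun_prop)
    intro t ht
    have := ht.1
    have : t - 1 ≠ 0 := by linarith
    exact this
  constructor
  · refine IntegrableOn.congr_fun ?_ (fun t ht => (e ht).symm) measurableSet_Ioc
    exact (hcont.integrableOn_Icc).mono_set Set.Ioc_subset_Icc_self
  · rw [setIntegral_congr_fun measurableSet_Ioc e, ← intervalIntegral.integral_of_le hs4,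
      intervalIntegral.integral_const_mul]
    congr 1
    rw [intervalIntegral.integral_comp_sub_right (fun x => x⁻¹) 1]
    rw [integral_inv_of_pos (by linarith) (by norm_num)]
    norm_num

theorem split {s : ℝ} (hs4 : s ≤ 4) : Set.Ioi s = Set.Ioc s 4 ∪ Set.Ioi 4 := by
  rw [Set.Ioc_union_Ioi_eq_Ioi hs4]

end Contr

open Contr MeasureTheory in
theorem tContr : St_con := by
  refine ⟨(HW_int 3).1, ?_, ?_, ?_⟩
  · rw [split (by norm_num : (2:ℝ) ≤ 4)]
    exact (HU_mid le_rfl (by norm_num)).1.union (HU_tail le_rfl).1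
  · intro s hs
    rw [(HW_int _).2]
    unfold HU
    split_ifs with h
    · rw [max_eq_right h]
      have : 7 / 8 * (s * (8 / 7 / s)) = 1 := by field_simp
      rw [this]
      norm_num
    · rw [max_eq_left (by linarith)]
      have h3 : 3 < s := not_le.mp h
      have hE := Real.exp_pos (-(s - 3))
      nlinarith
  · intro s hs
    rcases le_total 4 s with h | h
    · rw [(HU_tail h).2]
      unfold HW
      have e : Real.exp (-(s - 4)) = Real.exp 2 * Real.exp (-(s - 2)) := by
        rw [← Real.exp_add]; congr 1; ring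
      rw [e]
      have hE := Real.exp_pos (-(s - 2))
      have h2 : Real.exp 2 ≤ 8 := by
        have h1 := Real.exp_one_lt_d9
        have e2 : Real.exp 2 = Real.exp 1 * Real.exp 1 := by
          rw [← Real.exp_add]; norm_num
        have h0 := Real.exp_pos 1
        rw [e2]
        nlinarith
      calc 8 / 21 * (Real.exp 2 * Real.exp (-(s - 2))) ≤ 8 / 21 * (8 * Real.exp (-(s - 2))) := by
            gcongr
        _ ≤ 7 / 8 * (4 * Real.exp (-(s - 2))) := by linarith
        _ ≤ 7 / 8 * (s * Real.exp (-(s - 2))) := by gcongr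
    · rw [split h, setIntegral_union _ measurableSet_Ioi (HU_mid hs h).1 (HU_tail le_rfl).1,
        (HU_mid hs h).2, (HU_tail le_rfl).2]
      · have hk := key (v := s - 1) (by linarith) (by linarith)
        unfold HW
        have e1 : Real.exp (-((4:ℝ) - 4)) = 1 := by norm_num
        rw [e1]
        have e2 : -(s - 2) = -(s - 1 - 1) := by ring
        rw [e2]
        have e3 : s - 1 + 1 = s := by ring
        rw [e3] at hk
        linarith
      · rw [Set.disjoint_left]
        intro x hx hx'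
        exact absurd hx.2 (not_le.mpr hx')

end Pool.Agent.TCub
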