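import Pool.Agent.TCub.Stmts

open Finset

namespace Pool.Agent.TCub

namespace DMs

lemma ee_add (a b : ℝ) : ee (a + b) = ee a * ee b := by
  unfold ee
  rw [← Complex.exp_add]
  congr 1
  push_cast
  ring

lemma ee_zero : ee 0 = 1 := by simp [ee]

lemma ee_sum {ι : Type*} (s : Finset ι) (f : ι → ℝ) : ee (∑ i ∈ s, f i) = ∏ i ∈ s, ee (f i) := by
  classical
  induction s using Finset.induction_on with
  | empty => simp [ee_zero]
  | insert a s ha ih => rw [Finset.sum_insert ha, Finset.prod_insert ha, ee_add, ih]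

lemma norm_ee (t : ℝ) : ‖ee t‖ = 1 := by
  unfold ee
  rw [show (2 * (Real.pi:ℂ) * (t:ℂ) * Complex.I) = ((2 * Real.pi * t : ℝ) : ℂ) * Complex.I by push_cast; ring]
  exact Complex.norm_exp_ofReal_mul_I _

lemma DM_int (M : ℕ) (θ : ℝ) : DM M θ = ∑ y ∈ Finset.Icc (1:ℤ) M, ee (θ * (y:ℝ)) := by
  unfold DM
  refine Finset.sum_bij (fun (y:ℕ) _ => (y:ℤ)) ?_ ?_ ?_ ?_
  · intro y hy
    rw [Finset.mem_Icc] at hy ⊢
    exact ⟨by exact_mod_cast hy.1, by exact_mod_cast hy.2⟩
  · intro a _ b _ h
    exact_mod_cast h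
  · intro b hb
    rw [Finset.mem_Icc] at hb
    refine ⟨b.toNat, ?_, ?_⟩
    · rw [Finset.mem_Icc]
      omega
    · exact Int.toNat_of_nonneg (by omega)
  · intro y _
    push_cast
    rw [mul_comm]

lemma sum_wt (M K : ℕ) (hK : 1 ≤ K) (θ : ℝ) :
    ∑ n ∈ Finset.Icc (1:ℤ) (K * M), (wt M K n : ℂ) * ee (θ * (n:ℝ)) = DM M θ ^ K := by
  have h1 : DM M θ ^ K = ∑ y ∈ Fintype.piFinset (fun _ : Fin K => Finset.Icc (1:ℤ) M),
      ee (θ * ((∑ i, y i : ℤ) : ℝ)) := by
    rw [DM_int]
    have := Finset.prod_univ_sum (fun _ : Fin K => Finset.Icc (1:ℤ) M) (fun _ y => ee (θ * (y:ℝ)))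
    rw [Finset.prod_const, Finset.card_univ, Fintype.card_fin] at this
    rw [this]
    refine Finset.sum_congr rfl (fun y _ => ?_)
    rw [← ee_sum]
    push_cast
    rw [Finset.mul_sum]
  rw [h1]
  have hmaps : ∀ y ∈ Fintype.piFinset (fun _ : Fin K => Finset.Icc (1:ℤ) M),
      (∑ i, y i) ∈ Finset.Icc (1:ℤ) (K * M) := by
    intro y hy
    rw [Fintype.mem_piFinset] at hy
    rw [Finset.mem_Icc]
    constructor
    · have : ∑ i : Fin K, (1:ℤ) ≤ ∑ i, y i :=
        Finset.sum_le_sum (fun i _ => (Finset.mem_Icc.1 (hy i)).1)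
      simp at this
      have hK' : (1:ℤ) ≤ K := by exact_mod_cast hK
      linarith
    · have : ∑ i, y i ≤ ∑ i : Fin K, (M:ℤ) :=
        Finset.sum_le_sum (fun i _ => (Finset.mem_Icc.1 (hy i)).2)
      simpa using this
  rw [← Finset.sum_fiberwise_of_maps_to hmaps]
  refine Finset.sum_congr rfl (fun n _ => ?_)
  rw [Finset.sum_congr rfl (g := fun _ => ee (θ * (n:ℝ))) (fun y hy => by
    rw [(Finset.mem_filter.1 hy).2]), Finset.sum_const, nsmul_eq_mul]
  rfl

end DMs

open DMs in
theorem tDMs : St_DM := by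
  classical
  have h1 : ∀ (M K : ℕ) (θ : Fin 3 → ℝ), 1 ≤ K →
    ∑ x ∈ bx M K, (WW M K x : ℂ) * ee (∑ i, θ i * (x i : ℝ)) = ∏ i, DM M (θ i) ^ K := by
    intro M K θ hK
    have h2 : ∀ i, DM M (θ i) ^ K = ∑ n ∈ Finset.Icc (1:ℤ) (K * M), (wt M K n : ℂ) * ee (θ i * (n:ℝ)) :=
      fun i => (sum_wt M K hK (θ i)).symm
    simp_rw [h2]
    rw [Finset.prod_univ_sum]
    refine Finset.sum_congr rfl (fun x _ => ?_)
    rw [Finset.prod_mul_distrib, ← ee_sum]
    congr 1
    unfold WW
    push_cast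
    rfl
  refine ⟨h1, ?_, ?_, ?_, ?_⟩
  · intro M θ
    unfold DM
    refine (norm_sum_le _ _).trans ?_
    simp [norm_ee]
  · intro M θ h0 h12
    have hgeo : DM M θ * (ee θ - 1) = ee θ * (ee (M * θ) - 1) := by
      unfold DM
      induction M with
      | zero => simp [ee_zero]
      | succ n ih =>
        rw [Finset.sum_Icc_succ_top (by omega), add_mul, ih]
        push_cast
        rw [show ((n:ℝ) + 1) * θ = n * θ + θ by ring, ee_add]
        ring
    have hn : ‖ee θ - 1‖ = 2 * |Real.sin (Real.pi * θ)| := by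
      have e1 : ee θ = Complex.exp (Complex.I * ((2 * (Real.pi * θ) : ℝ) : ℂ)) := by
        unfold ee
        congr 1
        push_cast
        ring
      rw [e1, Complex.norm_exp_I_mul_ofReal_sub_one]
      rw [show 2 * (Real.pi * θ) / 2 = Real.pi * θ by ring, norm_mul, Real.norm_eq_abs, Real.norm_eq_abs,
        abs_two]
    have hs : 2 * |θ| ≤ |Real.sin (Real.pi * θ)| := by
      have h3 : |Real.pi * θ| ≤ Real.pi / 2 := by
        rw [abs_mul, abs_of_pos Real.pi_pos]
        have := Real.pi_pos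
        nlinarith
      have h4 := Real.mul_abs_le_abs_sin h3
      rw [abs_mul, abs_of_pos Real.pi_pos] at h4
      have h5 : 2 / Real.pi * (Real.pi * |θ|) = 2 * |θ| := by
        have := Real.pi_ne_zero
        field_simp
      linarith
    have hpos : 0 < |θ| := abs_pos.2 h0
    have h6 : ‖DM M θ‖ * ‖ee θ - 1‖ ≤ 2 := by
      rw [← norm_mul, hgeo, norm_mul, norm_ee, one_mul]
      refine (norm_sub_le _ _).trans ?_
      rw [norm_ee, norm_one]
      norm_num
    rw [le_div_iff₀ (by positivity)]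
    rw [hn] at h6
    have h7 : 0 ≤ ‖DM M θ‖ := norm_nonneg _
    nlinarith
  · intro M K hK
    have := h1 M K (fun _ => 0) hK
    simp only [zero_mul, Finset.sum_const_zero, ee_zero, mul_one] at this
    have h3 : DM M 0 = M := by
      unfold DM
      simp [ee_zero]
    rw [h3] at this
    simp only [Finset.prod_const, Finset.card_univ, Fintype.card_fin] at this
    unfold XX
    rw [← pow_mul, mul_comm K 3] at this
    exact_mod_cast this
  · intro M K x hK
    have hw : ∀ n : ℤ, wt M K n ≤ M ^ (K - 1) := by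
      intro n
      obtain ⟨k, rfl⟩ : ∃ k, K = k + 1 := ⟨K - 1, by omega⟩
      unfold wt
      rw [Nat.add_sub_cancel]
      have : (Fintype.piFinset (fun _ : Fin k => Finset.Icc (1:ℤ) M)).card = M ^ k := by
        rw [Fintype.card_piFinset]
        simp
      rw [← this]
      refine Finset.card_le_card_of_injOn (fun y => fun i : Fin k => y i.castSucc) ?_ ?_
      · intro y hy
        have hy' := (Finset.mem_filter.1 hy).1
        rw [Fintype.mem_piFinset] at hy'
        rw [Finset.mem_coe, Fintype.mem_piFinset]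
        exact fun i => hy' _
      · intro y hy y' hy' hyy
        have e1 := (Finset.mem_filter.1 hy).2
        have e2 := (Finset.mem_filter.1 hy').2
        rw [Fin.sum_univ_castSucc] at e1 e2
        have e3 : ∀ i : Fin k, y i.castSucc = y' i.castSucc := fun i => congrFun hyy i
        have e4 : y (Fin.last k) = y' (Fin.last k) := by
          have : ∑ i : Fin k, y i.castSucc = ∑ i : Fin k, y' i.castSucc :=
            Finset.sum_congr rfl (fun i _ => e3 i)
          linarith
        funext i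
        refine Fin.lastCases e4 (fun i => e3 i) i
    unfold WW
    have h5 : (M:ℝ) ^ (3 * (K - 1)) = ∏ _i : Fin 3, (M:ℝ) ^ (K - 1) := by
      simp only [Finset.prod_const, Finset.card_univ, Fintype.card_fin]
      rw [← pow_mul, mul_comm]
    rw [h5]
    refine Finset.prod_le_prod (fun i _ => Nat.cast_nonneg _) (fun i _ => ?_)
    exact_mod_cast hw (x i)

end Pool.Agent.TCub
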