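import Pool.Agent.TCub.Stmts

open Finset

namespace Pool.Agent.TCub

namespace Dclm

lemma lab_lt (M N j p : ℕ) (hM : 2 ≤ M) (hN : 1 ≤ N) (hp : 1 ≤ p) :
    lab M N p < j ↔ (p:ℝ) < (M:ℝ) ^ ((j:ℝ) / (1000 * N)) := by
  have hM1 : (1:ℝ) < M := by exact_mod_cast hM
  have hlM : 0 < Real.log M := Real.log_pos hM1
  have hN0 : (0:ℝ) < N := by exact_mod_cast hN
  have hp0 : (0:ℝ) < p := by exact_mod_cast hp
  have hlp : 0 ≤ Real.log p := Real.log_nonneg (by exact_mod_cast hp)
  unfold lab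
  rw [Nat.floor_lt (by positivity), Real.lt_rpow_iff_log_lt hp0 (by linarith), div_lt_iff₀ hlM,
    div_mul_eq_mul_div, lt_div_iff₀ (by positivity)]
  constructor <;> intro h <;> linarith

lemma le_p (M N p : ℕ) (hM : 2 ≤ M) (hN : 1 ≤ N) (hp : 1 ≤ p) :
    (M:ℝ) ^ ((lab M N p : ℝ) / (1000 * N)) ≤ p := by
  have h := (lab_lt M N (lab M N p) p hM hN hp).not.1 (lt_irrefl _)
  exact not_lt.1 h

lemma p_lt (M N p : ℕ) (hM : 2 ≤ M) (hN : 1 ≤ N) (hp : 1 ≤ p) :
    (p:ℝ) < (M:ℝ) ^ (((lab M N p : ℝ) + 1) / (1000 * N)) := by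
  have h := (lab_lt M N (lab M N p + 1) p hM hN hp).1 (Nat.lt_succ_self _)
  push_cast at h
  exact h

lemma p_le_pow (M N p : ℕ) (hM : 2 ≤ M) (hN : 1 ≤ N) (hp : 1 ≤ p) :
    p ≤ M ^ (lab M N p + 1) := by
  have h := p_lt M N p hM hN hp
  have hM1 : (1:ℝ) ≤ M := by exact_mod_cast (by omega : 1 ≤ M)
  have h1 : (M:ℝ) ^ (((lab M N p : ℝ) + 1) / (1000 * N)) ≤ (M:ℝ) ^ (((lab M N p + 1 : ℕ) : ℝ)) := by
    refine Real.rpow_le_rpow_of_exponent_le hM1 ?_
    push_cast
    have hN1 : (1:ℝ) ≤ N := by exact_mod_cast hN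
    refine div_le_self (by positivity) (by linarith)
  rw [Real.rpow_natCast] at h1
  exact_mod_cast (h.le.trans h1)

lemma prod_bounds (M N : ℕ) (hM : 2 ≤ M) (hN : 1 ≤ N) (s : Finset ℕ) (hs : ∀ p ∈ s, 1 ≤ p) :
    (M:ℝ) ^ (tv N (s.val.map (lab M N)) - (Multiset.card (s.val.map (lab M N)) : ℝ) / (1000 * N)) ≤
      ((∏ p ∈ s, p : ℕ) : ℝ) ∧
    ((∏ p ∈ s, p : ℕ) : ℝ) ≤ (M:ℝ) ^ (tv N (s.val.map (lab M N))) ∧
    (∏ p ∈ s, p) ≤ M ^ ((s.val.map (lab M N)).sum + Multiset.card (s.val.map (lab M N))) := by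
  classical
  have hM0 : (0:ℝ) < M := by exact_mod_cast (by omega : 0 < M)
  induction s using Finset.induction_on with
  | empty => simp [tv]
  | insert a s ha ih =>
    obtain ⟨i1, i2, i3⟩ := ih (fun p hp => hs p (Finset.mem_insert_of_mem hp))
    have ha1 := hs a (Finset.mem_insert_self _ _)
    have hval : (insert a s).val = a ::ₘ s.val := Finset.insert_val_of_notMem ha
    rw [Finset.prod_insert ha, hval, Multiset.map_cons]
    have htv : tv N (lab M N a ::ₘ s.val.map (lab M N)) = ed N (lab M N a) + tv N (s.val.map (lab M N)) := by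
      simp [tv]
    rw [htv, Multiset.card_cons, Multiset.sum_cons]
    refine ⟨?_, ?_, ?_⟩
    · push_cast
      have e1 : ed N (lab M N a) + tv N (s.val.map (lab M N)) -
          ((Multiset.card (s.val.map (lab M N)) : ℝ) + 1) / (1000 * N) =
          (lab M N a : ℝ) / (1000 * N) + (tv N (s.val.map (lab M N)) -
            (Multiset.card (s.val.map (lab M N)) : ℝ) / (1000 * N)) := by
        unfold ed
        ring
      rw [e1, Real.rpow_add hM0]
      push_cast at i1
      exact mul_le_mul (le_p M N a hM hN ha1) i1 (by positivity) (by positivity)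
    · push_cast
      rw [Real.rpow_add hM0]
      push_cast at i2
      refine mul_le_mul ?_ i2 (by positivity) (by positivity)
      exact (p_lt M N a hM hN ha1).le
    · rw [show lab M N a + (s.val.map (lab M N)).sum + (Multiset.card (s.val.map (lab M N)) + 1) =
        (lab M N a + 1) + ((s.val.map (lab M N)).sum + Multiset.card (s.val.map (lab M N))) by ring,
        pow_add]
      exact Nat.mul_le_mul (p_le_pow M N a hM hN ha1) i3

lemma pf_pos (d : ℕ) : ∀ p ∈ d.primeFactors, 1 ≤ p := fun _ hp =>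
  (Nat.prime_of_mem_primeFactors hp).one_lt.le

end Dclm

open Dclm in
theorem tDclm : St_Dcl := by
  classical
  have key : ∀ (M N u : ℕ) (m : Multiset ℕ) (d : ℕ), 2 ≤ M → 1 ≤ N →
    (d ∈ Dcl M N u m ↔ Squarefree d ∧ (∀ p ∈ d.primeFactors, u ≤ p) ∧ typ M N d = m) := by
    intro M N u m d hM hN
    unfold Dcl
    rw [Finset.mem_filter, Finset.mem_range]
    constructor
    · exact fun h => h.2
    · rintro ⟨h1, h2, h3⟩
      refine ⟨?_, h1, h2, h3⟩
      have := (prod_bounds M N hM hN d.primeFactors (pf_pos d)).2.2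
      rw [Nat.prod_primeFactors_of_squarefree h1] at this
      unfold typ at h3
      rw [h3] at this
      omega
  refine ⟨key, ?_, ?_, ?_⟩
  · intro M N u m d hM hN hd
    obtain ⟨h1, h2, h3⟩ := (key M N u m d hM hN).1 hd
    obtain ⟨b1, b2, _⟩ := prod_bounds M N hM hN d.primeFactors (pf_pos d)
    rw [Nat.prod_primeFactors_of_squarefree h1] at b1 b2
    unfold typ at h3
    rw [h3] at b1 b2
    exact ⟨b1, b2⟩
  · intro M N j p hM hN
    unfold bxp
    rw [Finset.mem_filter, Finset.mem_range]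
    constructor
    · exact fun h => h.2
    · rintro ⟨h1, h2⟩
      refine ⟨?_, h1, h2⟩
      have := p_le_pow M N p hM hN h1.one_lt.le
      rw [h2] at this
      omega
  · intro M N j p hM hN hp
    exact lab_lt M N j p hM hN hp.one_lt.le

end Pool.Agent.TCub
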