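import Pool.Agent.TCub.Stmts

open Finset

namespace Pool.Agent.TCub

namespace DivA

theorem aux (S : Finset ℕ) (c g : ℕ → ℝ) (K : ℝ) (hK : 1 ≤ K) (P : ℕ)
    (hc : ∀ p ∈ S, 0 ≤ c p) (hg : ∀ p ∈ S, 0 ≤ g p)
    (h1 : ∀ p ∈ S, p < P → c p ≤ K * g p) (h2 : ∀ p ∈ S, P ≤ p → c p ≤ g p) :
    ∏ p ∈ S, c p ≤ K ^ P * ∏ p ∈ S, g p := by
  have h3 : ∏ p ∈ S, c p ≤ ∏ p ∈ S, ((if p < P then K else 1) * g p) := by
    apply prod_le_prod hc
    intro p hp
    split_ifs with h
    · exact h1 p hp h
    · rw [one_mul]; exact h2 p hp (not_lt.1 h)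
  refine h3.trans ?_
  rw [prod_mul_distrib]
  apply mul_le_mul_of_nonneg_right _ (prod_nonneg hg)
  rw [prod_ite, prod_const, prod_const_one, mul_one]
  apply pow_le_pow_right₀ hK
  calc (S.filter (fun p => p < P)).card ≤ (range P).card := by
        apply card_le_card
        intro p hp
        rw [mem_filter] at hp
        exact mem_range.2 hp.2
    _ = P := card_range P

theorem npow {n : ℕ} (hn : 1 ≤ n) (ε : ℝ) :
    (n : ℝ) ^ ε = ∏ p ∈ n.primeFactors, ((p : ℝ) ^ (n.factorization p)) ^ ε := by
  rw [Real.finset_prod_rpow _ _ (fun p _ => by positivity)]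
  congr 1
  have h := Nat.factorization_prod_pow_eq_self (by omega : n ≠ 0)
  conv_lhs => rw [← h]
  rw [Finsupp.prod, Nat.cast_prod, Nat.support_factorization]
  apply prod_congr rfl
  intro p _
  rw [Nat.cast_pow]

end DivA

theorem tDiv : St_div := by
  intro ε hε a ha
  have hlog2 : 0 < Real.log 2 := Real.log_pos one_lt_two
  set P₁ : ℕ := ⌈a ^ (1 / ε)⌉₊ with hP₁
  set P₂ : ℕ := ⌈(2 : ℝ) ^ (1 / ε)⌉₊ with hP₂
  set K : ℝ := 1 / (ε * Real.log 2) + 1 with hK
  have hK1 : 1 ≤ K := by
    rw [hK]
    have : 0 < 1 / (ε * Real.log 2) := by positivity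
    linarith
  have ha0 : 0 < a := by linarith
  refine ⟨max (a ^ P₁) (K ^ P₂), lt_max_of_lt_left (by positivity), ?_⟩
  intro n hn
  have hf : ∀ p ∈ n.primeFactors, 1 ≤ n.factorization p := by
    intro p hp
    rw [Nat.mem_primeFactors] at hp
    exact (hp.1.dvd_iff_one_le_factorization hp.2.2).1 hp.2.1
  have hp2 : ∀ p ∈ n.primeFactors, (2 : ℝ) ≤ p := by
    intro p hp
    exact_mod_cast (Nat.prime_of_mem_primeFactors hp).two_le
  have hge1 : ∀ p ∈ n.primeFactors, (1 : ℝ) ≤ ((p : ℝ) ^ (n.factorization p)) ^ ε := by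
    intro p hp
    apply Real.one_le_rpow _ hε.le
    exact one_le_pow₀ (by have := hp2 p hp; linarith)
  constructor
  · have h1 := DivA.aux n.primeFactors (fun _ => a)
      (fun p => ((p : ℝ) ^ (n.factorization p)) ^ ε) a ha P₁ (fun _ _ => ha0.le)
      (fun p _ => by positivity)
      (by
        intro p hp _
        have := hge1 p hp
        nlinarith)
      (by
        intro p hp hPp
        have h2 : a ^ (1 / ε) ≤ p := (Nat.le_ceil _).trans (by exact_mod_cast hPp)
        have h3 : a = (a ^ (1 / ε)) ^ ε := by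
          rw [← Real.rpow_mul ha0.le, one_div, inv_mul_cancel₀ hε.ne', Real.rpow_one]
        calc a = (a ^ (1 / ε)) ^ ε := h3
          _ ≤ (p : ℝ) ^ ε := Real.rpow_le_rpow (by positivity) h2 hε.le
          _ ≤ ((p : ℝ) ^ (n.factorization p)) ^ ε := by
              apply Real.rpow_le_rpow (by positivity) _ hε.le
              exact le_self_pow₀ (by have := hp2 p hp; linarith)
                (by have := hf p hp; omega))
    rw [prod_const, ← DivA.npow hn ε] at h1
    refine h1.trans ?_
    apply mul_le_mul_of_nonneg_right (le_max_left _ _) (by positivity)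
  · have h1 := DivA.aux n.primeFactors (fun p => ((n.factorization p + 1 : ℕ) : ℝ))
      (fun p => ((p : ℝ) ^ (n.factorization p)) ^ ε) K hK1 P₂
      (fun _ _ => by positivity)
      (fun p _ => by positivity)
      (by
        intro p hp _
        have h2 : ((2 : ℝ) ^ (n.factorization p)) ^ ε ≤ ((p : ℝ) ^ (n.factorization p)) ^ ε := by
          apply Real.rpow_le_rpow (by positivity) _ hε.le
          exact pow_le_pow_left₀ (by norm_num) (hp2 p hp) _
        have h3 : ((2 : ℝ) ^ (n.factorization p)) ^ ε =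
            Real.exp (Real.log 2 * (n.factorization p) * ε) := by
          rw [← Real.rpow_natCast, ← Real.rpow_mul (by norm_num),
            Real.rpow_def_of_pos (by norm_num)]
          ring_nf
        have h4 := Real.add_one_le_exp (Real.log 2 * (n.factorization p) * ε)
        rw [← h3] at h4
        have h5 := h4.trans h2
        have h6 : K * (Real.log 2 * (n.factorization p) * ε + 1) ≤
            K * ((p : ℝ) ^ (n.factorization p)) ^ ε :=
          mul_le_mul_of_nonneg_left h5 (by linarith)
        refine le_trans ?_ h6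
        push_cast
        have h7 : K * (Real.log 2 * (n.factorization p) * ε + 1) =
            (n.factorization p) + Real.log 2 * (n.factorization p) * ε + K := by
          rw [hK]
          field_simp
        rw [h7]
        have : 0 ≤ Real.log 2 * (n.factorization p) * ε := by positivity
        linarith)
      (by
        intro p hp hPp
        have h2 : (2 : ℝ) ^ (1 / ε) ≤ p := (Nat.le_ceil _).trans (by exact_mod_cast hPp)
        have h3 : (2 : ℝ) = ((2 : ℝ) ^ (1 / ε)) ^ ε := by
          rw [← Real.rpow_mul (by norm_num), one_div, inv_mul_cancel₀ hε.ne', Real.rpow_one]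
        have h4 : (2 : ℝ) ≤ (p : ℝ) ^ ε := by
          calc (2 : ℝ) = ((2 : ℝ) ^ (1 / ε)) ^ ε := h3
            _ ≤ _ := Real.rpow_le_rpow (by positivity) h2 hε.le
        have h5 : ((p : ℝ) ^ (n.factorization p)) ^ ε = ((p : ℝ) ^ ε) ^ (n.factorization p) := by
          rw [← Real.rpow_natCast, ← Real.rpow_natCast, ← Real.rpow_mul (by positivity),
            ← Real.rpow_mul (by positivity), mul_comm]
        rw [h5]
        calc ((n.factorization p + 1 : ℕ) : ℝ) ≤ ((2 ^ (n.factorization p) : ℕ) : ℝ) := by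
              exact_mod_cast Nat.lt_two_pow_self
          _ = (2 : ℝ) ^ (n.factorization p) := by push_cast; ring
          _ ≤ _ := pow_le_pow_left₀ (by norm_num) h4 _)
    rw [← DivA.npow hn ε, ← Nat.cast_prod, ← Nat.card_divisors (by omega)] at h1
    refine h1.trans ?_
    apply mul_le_mul_of_nonneg_right (le_max_right _ _) (by positivity)

end Pool.Agent.TCub
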