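import Pool.Agent.TCub.Stmts

open Finset

namespace Pool.Agent.TCub

namespace EstF

lemma ee_add (a b : ℝ) : ee (a + b) = ee a * ee b := by
  unfold ee
  rw [← Complex.exp_add]
  congr 1
  push_cast
  ring

lemma ee_int (n : ℤ) : ee (n : ℝ) = 1 := by
  unfold ee
  rw [Complex.exp_eq_one_iff]
  refine ⟨n, ?_⟩
  push_cast
  ring

lemma ee_add_int (a : ℝ) (n : ℤ) : ee (a + n) = ee a := by
  rw [ee_add, ee_int, mul_one]

lemma ee_zero : ee 0 = 1 := by
  have := ee_int 0
  simpa using this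

lemma ee_sum {ι : Type} (s : Finset ι) (f : ι → ℝ) : ee (∑ i ∈ s, f i) = ∏ i ∈ s, ee (f i) := by
  classical
  induction s using Finset.induction_on with
  | empty => simp [ee_zero]
  | insert a s ha ih => rw [Finset.sum_insert ha, Finset.prod_insert ha, ee_add, ih]

lemma ee_nat_mul (n : ℕ) (a : ℝ) : ee ((n:ℝ) * a) = ee a ^ n := by
  induction n with
  | zero => simp [ee_zero]
  | succ n ih =>
    rw [pow_succ, ← ih, ← ee_add]
    congr 1
    push_cast
    ring

/-- residue cube -/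
noncomputable def Q (d : ℕ) : Finset (Fin 3 → ℤ) := Fintype.piFinset fun _ : Fin 3 => Finset.Ico (0:ℤ) d

lemma mem_Q {d : ℕ} {z : Fin 3 → ℤ} : z ∈ Q d ↔ ∀ i, 0 ≤ z i ∧ z i < d := by
  simp [Q]

lemma card_Q (d : ℕ) : (Q d).card = d ^ 3 := by
  simp [Q, Fintype.card_piFinset]

lemma mem_symb {d : ℕ} (hd : 0 < d) {z : Fin 3 → ℤ} :
    z ∈ symb d ↔ ∀ i, -(d:ℤ) < 2 * z i ∧ 2 * z i ≤ d := by
  have hd' : (0:ℤ) < d := by exact_mod_cast hd
  simp only [symb, Fintype.mem_piFinset, Finset.mem_filter, Finset.mem_Icc]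
  constructor
  · intro h i
    exact (h i).2
  · intro h i
    have := h i
    refine ⟨⟨by omega, by omega⟩, this⟩

def Per (d : ℕ) (f : (Fin 3 → ℤ) → ℂ) : Prop :=
  ∀ z z' : Fin 3 → ℤ, (∀ i, (d:ℤ) ∣ z i - z' i) → f z = f z'

lemma eq_of_range {d : ℤ} {a b : ℤ} (h : d ∣ a - b) (h1 : |a - b| < d) : a = b := by
  have := Int.eq_zero_of_abs_lt_dvd h h1
  omega

lemma sum_symb_eq {d : ℕ} (hd : 0 < d) (f : (Fin 3 → ℤ) → ℂ) (hf : Per d f) :
    ∑ h ∈ symb d, f h = ∑ h ∈ Q d, f h := by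
  have hd' : (0:ℤ) < d := by exact_mod_cast hd
  refine Finset.sum_nbij (fun z i => z i % d) ?_ ?_ ?_ ?_
  · intro z _
    rw [mem_Q]
    intro i
    exact ⟨Int.emod_nonneg _ hd'.ne', Int.emod_lt_of_pos _ hd'⟩
  · intro z hz z' hz' h
    rw [Finset.mem_coe, mem_symb hd] at hz hz'
    funext i
    have h1 : z i % (d:ℤ) = z' i % (d:ℤ) := congrFun h i
    have h2 : (d:ℤ) ∣ z i - z' i := Int.ModEq.dvd (Int.ModEq.symm h1)
    apply eq_of_range h2
    have := hz i
    have := hz' i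
    rw [abs_lt]
    omega
  · intro y hy
    rw [Finset.mem_coe, mem_Q] at hy
    refine ⟨fun i => if 2 * y i ≤ d then y i else y i - d, ?_, ?_⟩
    · rw [Finset.mem_coe, mem_symb hd]
      intro i
      have := hy i
      show -(d:ℤ) < 2 * (if 2 * y i ≤ d then y i else y i - d) ∧
        2 * (if 2 * y i ≤ d then y i else y i - d) ≤ d
      by_cases h : 2 * y i ≤ d
      · rw [if_pos h]
        omega
      · rw [if_neg h]
        omega
    · funext i
      have := hy i
      show (if 2 * y i ≤ d then y i else y i - d) % (d:ℤ) = y i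
      by_cases h : 2 * y i ≤ d
      · rw [if_pos h]
        exact Int.emod_eq_of_lt this.1 this.2
      · rw [if_neg h, Int.sub_emod_right]
        exact Int.emod_eq_of_lt this.1 this.2
  · intro z _
    apply hf
    intro i
    exact Int.dvd_self_sub_emod

lemma sum_Q_mul {m n : ℕ} (hm : 0 < m) (hn : 0 < n) (hmn : Nat.Coprime m n)
    (f : (Fin 3 → ℤ) → ℂ) (hf : Per (m * n) f) :
    ∑ h ∈ Q (m * n), f h = ∑ h₁ ∈ Q m, ∑ h₂ ∈ Q n, f (fun i => n * h₁ i + m * h₂ i) := by
  have hm' : (0:ℤ) < m := by exact_mod_cast hm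
  have hn' : (0:ℤ) < n := by exact_mod_cast hn
  have hmn' : (0:ℤ) < ((m * n : ℕ) : ℤ) := by exact_mod_cast Nat.mul_pos hm hn
  have hco : IsCoprime (m:ℤ) (n:ℤ) := Nat.isCoprime_iff_coprime.mpr hmn
  rw [← Finset.sum_product']
  symm
  have hinj : Set.InjOn (fun w : (Fin 3 → ℤ) × (Fin 3 → ℤ) =>
      (fun i => (n * w.1 i + m * w.2 i) % ((m * n : ℕ) : ℤ) : Fin 3 → ℤ))
      ((Q m ×ˢ Q n : Finset _) : Set ((Fin 3 → ℤ) × (Fin 3 → ℤ))) := by
    rintro ⟨a, b⟩ h ⟨a', b'⟩ h' he
    rw [Finset.mem_coe, Finset.mem_product, mem_Q, mem_Q] at h h'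
    simp only at h h'
    have key : ∀ i, a i = a' i ∧ b i = b' i := by
      intro i
      have h1 := congrFun he i
      simp only at h1
      have h2 : ((m * n : ℕ) : ℤ) ∣ (n * a i + m * b i) - (n * a' i + m * b' i) :=
        Int.ModEq.dvd (Int.ModEq.symm h1)
      have h3 : (m:ℤ) ∣ n * (a i - a' i) := by
        have h4 : (m:ℤ) ∣ (n * a i + m * b i) - (n * a' i + m * b' i) := by
          refine dvd_trans ⟨n, by push_cast; ring⟩ h2
        have h5 : (n:ℤ) * (a i - a' i) = ((n * a i + m * b i) - (n * a' i + m * b' i)) -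
          m * (b i - b' i) := by ring
        rw [h5]
        exact dvd_sub h4 ⟨_, rfl⟩
      have h6 : (n:ℤ) ∣ m * (b i - b' i) := by
        have h4 : (n:ℤ) ∣ (n * a i + m * b i) - (n * a' i + m * b' i) := by
          refine dvd_trans ⟨m, by push_cast; ring⟩ h2
        have h5 : (m:ℤ) * (b i - b' i) = ((n * a i + m * b i) - (n * a' i + m * b' i)) -
          n * (a i - a' i) := by ring
        rw [h5]
        exact dvd_sub h4 ⟨_, rfl⟩
      have h7 : (m:ℤ) ∣ a i - a' i := hco.dvd_of_dvd_mul_left h3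
      have h8 : (n:ℤ) ∣ b i - b' i := hco.symm.dvd_of_dvd_mul_left h6
      have e1 := h.1 i
      have e2 := h.2 i
      have e3 := h'.1 i
      have e4 := h'.2 i
      constructor
      · apply eq_of_range h7
        rw [abs_lt]
        omega
      · apply eq_of_range h8
        rw [abs_lt]
        omega
    have k1 : a = a' := funext fun i => (key i).1
    have k2 : b = b' := funext fun i => (key i).2
    rw [k1, k2]
  have hmaps : Set.MapsTo (fun w : (Fin 3 → ℤ) × (Fin 3 → ℤ) =>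
      (fun i => (n * w.1 i + m * w.2 i) % ((m * n : ℕ) : ℤ) : Fin 3 → ℤ))
      ((Q m ×ˢ Q n : Finset _) : Set ((Fin 3 → ℤ) × (Fin 3 → ℤ))) (Q (m * n) : Set _) := by
    intro w _
    rw [Finset.mem_coe, mem_Q]
    intro i
    exact ⟨Int.emod_nonneg _ hmn'.ne', Int.emod_lt_of_pos _ hmn'⟩
  refine Finset.sum_nbij (fun w : (Fin 3 → ℤ) × (Fin 3 → ℤ) =>
      (fun i => (n * w.1 i + m * w.2 i) % ((m * n : ℕ) : ℤ) : Fin 3 → ℤ)) hmaps hinj ?_ ?_
  · apply Finset.surjOn_of_injOn_of_card_le _ hmaps hinj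
    rw [Finset.card_product, card_Q, card_Q, card_Q, mul_pow]
  · intro w _
    apply hf
    intro i
    exact Int.dvd_self_sub_emod

/-- the summand -/
noncomputable def ff (x : Fin 3 → ℤ) (d : ℕ) (h : Fin 3 → ℤ) : ℂ :=
  open Classical in if good d h then SS d h * ee (-((dot h x : ℝ) / d)) else 0

lemma dot_sub_dvd {d : ℤ} {z z' x : Fin 3 → ℤ} (h : ∀ i, d ∣ z i - z' i) :
    d ∣ dot z x - dot z' x := by
  unfold dot
  rw [← Finset.sum_sub_distrib]
  apply Finset.dvd_sum
  intro i _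
  rw [← sub_mul]
  exact Dvd.dvd.mul_right (h i) _

lemma ee_congr {d : ℕ} (hd : 0 < d) {a b : ℤ} (h : (d:ℤ) ∣ a - b) :
    ee (-((a:ℝ) / d)) = ee (-((b:ℝ) / d)) := by
  obtain ⟨k, hk⟩ := h
  have hd' : (d:ℝ) ≠ 0 := by exact_mod_cast hd.ne'
  have h1 : (a:ℝ) = b + d * k := by
    have : a = b + d * k := by linarith
    rw [this]
    push_cast
    ring
  have h2 : -((a:ℝ) / d) = -((b:ℝ) / d) + ((-k : ℤ) : ℝ) := by
    rw [h1]
    push_cast
    field_simp
    ring
  rw [h2, ee_add_int]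

lemma good_congr {d : ℕ} {z z' : Fin 3 → ℤ} (h : ∀ i, (d:ℤ) ∣ z i - z' i) :
    good d z ↔ good d z' := by
  unfold good
  refine forall_congr' fun p => forall_congr' fun _ => forall_congr' fun hpd => ?_
  refine exists_congr fun i => not_congr ?_
  have hp : (p:ℤ) ∣ z i - z' i := dvd_trans (by exact_mod_cast hpd) (h i)
  exact dvd_iff_dvd_of_dvd_sub hp

lemma ff_per (hSSunit : St_SSunit) (x : Fin 3 → ℤ) {d : ℕ} (hd : 0 < d) : Per d (ff x d) := by
  intro z z' h
  unfold ff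
  rw [hSSunit.2.1 d z z' h, ee_congr hd (dot_sub_dvd h)]
  by_cases hg : good d z
  · rw [if_pos hg, if_pos ((good_congr h).mp hg)]
  · rw [if_neg hg, if_neg (fun h' => hg ((good_congr h).mpr h'))]

lemma ff_mul (hSSmul : St_SSmul) (hSSunit : St_SSunit) (x : Fin 3 → ℤ) {m n : ℕ} (hm : 0 < m)
    (hn : 0 < n) (hmn : Nat.Coprime m n) (h₁ h₂ : Fin 3 → ℤ) :
    ff x (m * n) (fun i => n * h₁ i + m * h₂ i) = ff x m h₁ * ff x n h₂ := by
  have hco : IsCoprime (m:ℤ) (n:ℤ) := Nat.isCoprime_iff_coprime.mpr hmn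
  have hgood : good (m * n) (fun i => n * h₁ i + m * h₂ i) ↔ good m h₁ ∧ good n h₂ := by
    unfold good
    constructor
    · intro h
      constructor
      · intro p hp hpm
        obtain ⟨i, hi⟩ := h p hp (dvd_mul_of_dvd_left hpm n)
        refine ⟨i, fun hd => hi ?_⟩
        have hpm' : (p:ℤ) ∣ m := by exact_mod_cast hpm
        exact dvd_add (Dvd.dvd.mul_left hd _) (Dvd.dvd.mul_right hpm' _)
      · intro p hp hpn
        obtain ⟨i, hi⟩ := h p hp (dvd_mul_of_dvd_right hpn m)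
        refine ⟨i, fun hd => hi ?_⟩
        have hpn' : (p:ℤ) ∣ n := by exact_mod_cast hpn
        exact dvd_add (Dvd.dvd.mul_right hpn' _) (Dvd.dvd.mul_left hd _)
    · rintro ⟨ha, hb⟩ p hp hpmn
      rcases (Nat.Prime.dvd_mul hp).mp hpmn with hpm | hpn
      · obtain ⟨i, hi⟩ := ha p hp hpm
        refine ⟨i, fun hd => hi ?_⟩
        have hpm' : (p:ℤ) ∣ m := by exact_mod_cast hpm
        have h1 : (p:ℤ) ∣ n * h₁ i := (dvd_add_left (Dvd.dvd.mul_right hpm' _)).mp hd
        have hcp : IsCoprime (p:ℤ) (n:ℤ) := IsCoprime.of_isCoprime_of_dvd_left hco hpm'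
        exact hcp.dvd_of_dvd_mul_left h1
      · obtain ⟨i, hi⟩ := hb p hp hpn
        refine ⟨i, fun hd => hi ?_⟩
        have hpn' : (p:ℤ) ∣ n := by exact_mod_cast hpn
        have h1 : (p:ℤ) ∣ m * h₂ i := (dvd_add_right (Dvd.dvd.mul_right hpn' _)).mp hd
        have hcp : IsCoprime (p:ℤ) (m:ℤ) := IsCoprime.of_isCoprime_of_dvd_left hco.symm hpn'
        exact hcp.dvd_of_dvd_mul_left h1
  have hSS1 : SS m (fun i => n * h₁ i + m * h₂ i) = SS m h₁ := by
    rw [hSSunit.2.1 m (fun i => n * h₁ i + m * h₂ i) (fun i => n * h₁ i) (fun i => ⟨h₂ i, by ring⟩)]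
    exact hSSunit.1 m n hco.symm h₁
  have hSS2 : SS n (fun i => n * h₁ i + m * h₂ i) = SS n h₂ := by
    rw [hSSunit.2.1 n (fun i => n * h₁ i + m * h₂ i) (fun i => m * h₂ i) (fun i => ⟨h₁ i, by ring⟩)]
    exact hSSunit.1 n m hco h₂
  have hee : ee (-((dot (fun i => n * h₁ i + m * h₂ i) x : ℝ) / ((m * n : ℕ) : ℝ))) =
      ee (-((dot h₁ x : ℝ) / m)) * ee (-((dot h₂ x : ℝ) / n)) := by
    rw [← ee_add]
    congr 1
    have h1 : dot (fun i => n * h₁ i + m * h₂ i) x = n * dot h₁ x + m * dot h₂ x := by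
      unfold dot
      rw [Finset.mul_sum, Finset.mul_sum, ← Finset.sum_add_distrib]
      refine Finset.sum_congr rfl fun i _ => by ring
    rw [h1]
    have hm' : (m:ℝ) ≠ 0 := by exact_mod_cast hm.ne'
    have hn' : (n:ℝ) ≠ 0 := by exact_mod_cast hn.ne'
    push_cast
    field_simp
    ring
  unfold ff
  rw [hSSmul m n hmn, hSS1, hSS2, hee]
  by_cases ha : good m h₁
  · by_cases hb : good n h₂
    · rw [if_pos (hgood.mpr ⟨ha, hb⟩), if_pos ha, if_pos hb]
      ring
    · rw [if_neg (fun h => hb (hgood.mp h).2), if_neg hb, mul_zero]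
  · rw [if_neg (fun h => ha (hgood.mp h).1), if_neg ha, zero_mul]

lemma sum_ee {p : ℕ} (hp : 0 < p) (t : ℤ) :
    ∑ j ∈ Finset.Ico (0:ℤ) p, ee ((j:ℝ) * t / p) = if (p:ℤ) ∣ t then (p:ℂ) else 0 := by
  have hp' : (p:ℝ) ≠ 0 := by exact_mod_cast hp.ne'
  have h0 : ∑ j ∈ Finset.Ico (0:ℤ) p, ee ((j:ℝ) * t / p) =
      ∑ j ∈ Finset.range p, ee ((t:ℝ) / p) ^ j := by
    symm
    refine Finset.sum_nbij (fun j : ℕ => (j:ℤ)) ?_ ?_ ?_ ?_
    · intro j hj
      rw [Finset.mem_range] at hj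
      rw [Finset.mem_Ico]
      omega
    · intro a _ b _ h
      simp only at h
      exact_mod_cast h
    · intro j hj
      rw [Finset.mem_coe, Finset.mem_Ico] at hj
      refine ⟨j.toNat, ?_, ?_⟩
      · rw [Finset.mem_coe, Finset.mem_range]
        omega
      · simp only
        omega
    · intro j _
      rw [← ee_nat_mul]
      congr 1
      push_cast
      ring
  rw [h0]
  by_cases h : (p:ℤ) ∣ t
  · rw [if_pos h]
    obtain ⟨k, hk⟩ := h
    have h1 : ee ((t:ℝ) / p) = 1 := by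
      have : (t:ℝ) / p = (k:ℤ) := by
        rw [hk]
        push_cast
        field_simp
      rw [this, ee_int]
    rw [h1]
    simp
  · rw [if_neg h]
    have hne : ee ((t:ℝ) / p) ≠ 1 := by
      intro h1
      unfold ee at h1
      rw [Complex.exp_eq_one_iff] at h1
      obtain ⟨k, hk⟩ := h1
      have h2 : (t:ℂ) / p = k := by
        have hpi : (2 * (Real.pi:ℂ) * Complex.I) ≠ 0 := by
          have := Complex.two_pi_I_ne_zero
          exact this
        apply mul_right_cancel₀ hpi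
        rw [← hk]
        push_cast
        ring
      have hpc : (p:ℂ) ≠ 0 := by exact_mod_cast hp.ne'
      rw [div_eq_iff hpc] at h2
      have h3 : t = k * p := by exact_mod_cast h2
      exact h ⟨k, by rw [h3]; ring⟩
    rw [geom_sum_eq hne]
    have : ee ((t:ℝ) / p) ^ p = 1 := by
      rw [← ee_nat_mul]
      have : (p:ℝ) * ((t:ℝ) / p) = (t:ℤ) := by field_simp
      rw [this, ee_int]
    rw [this, sub_self, zero_div]

lemma sum_Q_ee {p : ℕ} (hp : 0 < p) (t : Fin 3 → ℤ) :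
    ∑ h ∈ Q p, ee ((dot h t : ℝ) / p) = if (∀ i, (p:ℤ) ∣ t i) then (p:ℂ) ^ 3 else 0 := by
  have h1 : ∀ h ∈ Q p, ee ((dot h t : ℝ) / p) = ∏ i, ee ((h i : ℝ) * t i / p) := by
    intro h _
    rw [← ee_sum]
    congr 1
    unfold dot
    push_cast
    rw [Finset.sum_div]
  rw [Finset.sum_congr rfl h1]
  unfold Q
  rw [← Finset.prod_univ_sum (fun _ : Fin 3 => Finset.Ico (0:ℤ) p)
    (fun i j => ee ((j : ℝ) * t i / p))]
  simp_rw [sum_ee hp]
  by_cases h : ∀ i, (p:ℤ) ∣ t i
  · rw [if_pos h]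
    rw [Finset.prod_congr rfl (fun i _ => if_pos (h i))]
    simp
  · rw [if_neg h]
    push Not at h
    obtain ⟨i, hi⟩ := h
    exact Finset.prod_eq_zero (Finset.mem_univ i) (if_neg hi)

lemma F3_congr {d : ℤ} {z z' : Fin 3 → ℤ} (h : ∀ i, d ∣ z i - z' i) : d ∣ F3 z - F3 z' := by
  have h1 : F3 z - F3 z' = (z 0 ^ 3 - z' 0 ^ 3) + (z 1 ^ 3 - z' 1 ^ 3) + (z 2 ^ 3 - z' 2 ^ 3) := by
    unfold F3
    ring
  rw [h1]
  exact dvd_add (dvd_add ((h 0).trans (sub_dvd_pow_sub_pow _ _ _))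
    ((h 1).trans (sub_dvd_pow_sub_pow _ _ _))) ((h 2).trans (sub_dvd_pow_sub_pow _ _ _))

lemma cone_count {p : ℕ} (hp : 0 < p) (x : Fin 3 → ℤ) (c : ℂ) :
    ∑ y ∈ cone p, (if (∀ i, (p:ℤ) ∣ y i - x i) then c else 0) =
      if (p:ℤ) ∣ F3 x then c else 0 := by
  classical
  have hp' : (0:ℤ) < p := by exact_mod_cast hp
  have huniq : ∀ y ∈ cone p, (∀ i, (p:ℤ) ∣ y i - x i) → y = fun i => x i % p := by
    intro y hy h
    simp only [cone, Finset.mem_filter, Fintype.mem_piFinset, Finset.mem_Ico] at hy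
    funext i
    apply eq_of_range (d := (p:ℤ))
    · have h1 : y i - x i % p = (y i - x i) + (x i - x i % p) := by ring
      rw [h1]
      exact dvd_add (h i) Int.dvd_self_sub_emod
    · have h2 := hy.1 i
      have h3 := Int.emod_nonneg (x i) hp'.ne'
      have h4 := Int.emod_lt_of_pos (x i) hp'
      rw [abs_lt]
      omega
  have hdv : ∀ i, (p:ℤ) ∣ (fun i => x i % (p:ℤ)) i - x i := by
    intro i
    have h1 : (p:ℤ) ∣ x i - x i % p := Int.dvd_self_sub_emod
    have h2 : (fun i => x i % (p:ℤ)) i - x i = -(x i - x i % p) := by ring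
    rw [h2]
    exact (dvd_neg).mpr h1
  by_cases h : (p:ℤ) ∣ F3 x
  · rw [if_pos h]
    rw [Finset.sum_eq_single (fun i => x i % (p:ℤ))]
    · rw [if_pos hdv]
    · intro y hy hne
      rw [if_neg]
      intro h1
      exact hne (huniq y hy h1)
    · intro hn
      exfalso
      apply hn
      simp only [cone, Finset.mem_filter, Fintype.mem_piFinset, Finset.mem_Ico]
      refine ⟨fun i => ⟨Int.emod_nonneg _ hp'.ne', Int.emod_lt_of_pos _ hp'⟩, ?_⟩
      have h1 := F3_congr hdv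
      exact (dvd_iff_dvd_of_dvd_sub h1).mpr h
  · rw [if_neg h]
    apply Finset.sum_eq_zero
    intro y hy
    rw [if_neg]
    intro h1
    apply h
    simp only [cone, Finset.mem_filter] at hy
    exact (dvd_iff_dvd_of_dvd_sub (F3_congr h1)).mp hy.2

/-- the prime case -/
lemma ff_prime (hSSunit : St_SSunit) (x : Fin 3 → ℤ) {p : ℕ} (hp : p.Prime) :
    ∑ h ∈ Q p, ff x p h =
      (p:ℂ) ^ 3 * ((((if (p:ℤ) ∣ F3 x then (1:ℝ) else 0) - gd p : ℝ)) : ℂ) := by
  classical
  have hp0 : 0 < p := hp.pos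
  have hp' : (0:ℤ) < p := by exact_mod_cast hp0
  have hpr : (p:ℝ) ≠ 0 := by exact_mod_cast hp0.ne'
  have h0Q : (0 : Fin 3 → ℤ) ∈ Q p := by
    rw [mem_Q]
    intro i
    simp [hp0]
  -- all h
  have hall : ∑ h ∈ Q p, SS p h * ee (-((dot h x : ℝ) / p)) =
      if (p:ℤ) ∣ F3 x then (p:ℂ) ^ 3 else 0 := by
    rw [← cone_count hp0 x ((p:ℂ) ^ 3)]
    unfold SS
    simp_rw [Finset.sum_mul]
    rw [Finset.sum_comm]
    refine Finset.sum_congr rfl fun y _ => ?_
    rw [← sum_Q_ee hp0 (fun i => y i - x i)]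
    refine Finset.sum_congr rfl fun h _ => ?_
    rw [← ee_add]
    congr 1
    have : dot h (fun i => y i - x i) = dot h y - dot h x := by
      unfold dot
      rw [← Finset.sum_sub_distrib]
      refine Finset.sum_congr rfl fun i _ => by ring
    rw [this]
    push_cast
    ring
  have hff : ∀ h ∈ Q p, ff x p h = SS p h * ee (-((dot h x : ℝ) / p)) -
      (if h = 0 then ((rho p : ℝ) : ℂ) else 0) := by
    intro h hh
    rw [mem_Q] at hh
    by_cases h0 : h = 0
    · subst h0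
      unfold ff
      rw [if_neg, if_pos rfl, hSSunit.2.2 p 0 (fun i => by simp)]
      · have : dot 0 x = 0 := by
          unfold dot
          simp
        rw [this]
        simp [ee_zero]
      · intro hg
        obtain ⟨i, hi⟩ := hg p hp dvd_rfl
        exact hi (by simp)
    · rw [if_neg h0, sub_zero]
      unfold ff
      rw [if_pos]
      intro q hq hqp
      have hqe : q = p := (Nat.prime_dvd_prime_iff_eq hq hp).mp hqp
      subst hqe
      by_contra hcon
      push Not at hcon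
      apply h0
      funext i
      apply eq_of_range (d := (q:ℤ))
      · simpa using hcon i
      · have := hh i
        simp only [Pi.zero_apply, sub_zero]
        rw [abs_lt]
        omega
  rw [Finset.sum_congr rfl hff, Finset.sum_sub_distrib, hall]
  rw [Finset.sum_ite_eq' (Q p) (0 : Fin 3 → ℤ), if_pos h0Q]
  unfold gd
  by_cases h : (p:ℤ) ∣ F3 x
  · rw [if_pos h, if_pos h]
    have hpc : (p:ℂ) ≠ 0 := by exact_mod_cast hp0.ne'
    push_cast
    field_simp
  · rw [if_neg h, if_neg h]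
    have hpc : (p:ℂ) ≠ 0 := by exact_mod_cast hp0.ne'
    push_cast
    field_simp
    ring

lemma ff_all (hSSmul : St_SSmul) (hSSunit : St_SSunit) (x : Fin 3 → ℤ) (d : ℕ) :
    Squarefree d → ∑ h ∈ Q d, ff x d h =
      (d:ℂ) ^ 3 * ((∏ p ∈ d.primeFactors, ((if (p:ℤ) ∣ F3 x then (1:ℝ) else 0) - gd p) : ℝ) : ℂ) := by
  induction d using induction_on_primes with
  | zero => intro h; exact absurd h not_squarefree_zero
  | one =>
    intro _
    have hQ : Q 1 = {0} := by
      ext z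
      rw [mem_Q, Finset.mem_singleton]
      constructor
      · intro h
        funext i
        have := h i
        simp only [Pi.zero_apply]
        push_cast at this
        omega
      · rintro rfl i
        simp
    have hcone : cone 1 = {0} := by
      have : cone 1 = Q 1 := by
        unfold cone Q
        apply Finset.filter_true_of_mem
        intro z _
        simp
      rw [this, hQ]
    rw [hQ, Finset.sum_singleton]
    unfold ff
    rw [if_pos]
    · unfold SS
      rw [hcone, Finset.sum_singleton]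
      have : ∀ y : Fin 3 → ℤ, dot 0 y = 0 := by
        intro y
        unfold dot
        simp
      rw [this, this]
      simp [ee_zero]
    · intro q hq hq1
      exact absurd (Nat.dvd_one.mp hq1) hq.one_lt.ne'
  | prime_mul p a hp ih =>
    intro hsq
    have ha0 : a ≠ 0 := by
      rintro rfl
      rw [mul_zero] at hsq
      exact not_squarefree_zero hsq
    have hco : Nat.Coprime p a := Nat.coprime_of_squarefree_mul hsq
    have hsa : Squarefree a := hsq.of_mul_right
    have hapos : 0 < a := Nat.pos_of_ne_zero ha0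
    rw [sum_Q_mul hp.pos hapos hco _ (ff_per hSSunit x (Nat.mul_pos hp.pos hapos))]
    simp_rw [ff_mul hSSmul hSSunit x hp.pos hapos hco]
    rw [← Finset.sum_mul_sum, ff_prime hSSunit x hp, ih hsa]
    rw [Nat.Coprime.primeFactors_mul hco, Finset.prod_union hco.disjoint_primeFactors,
      hp.primeFactors, Finset.prod_singleton]
    push_cast
    ring

end EstF

open EstF in
theorem tEstF (hSSmul : St_SSmul) (hSSunit : St_SSunit) : St_EstF := by
  classical
  intro M K d _ hd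
  have hd0 : 0 < d := Nat.pos_of_ne_zero hd.ne_zero
  have hdc : (d:ℂ) ≠ 0 := by exact_mod_cast hd0.ne'
  have h1 : ∀ h ∈ symb d, sS d h * ∑ x ∈ bx M K, (WW M K x : ℂ) * ee (-((dot h x : ℝ) / d)) =
      ∑ x ∈ bx M K, (WW M K x : ℂ) * (ff x d h / d) := by
    intro h _
    rw [Finset.mul_sum]
    refine Finset.sum_congr rfl fun x _ => ?_
    unfold sS ff sn
    by_cases hg : good d h
    · rw [if_pos hg, if_pos hg]
      ring
    · rw [if_neg hg, if_neg hg]
      ring
  rw [Finset.sum_congr rfl h1, Finset.sum_comm]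
  simp_rw [← Finset.mul_sum, ← Finset.sum_div]
  have h2 : ∀ x : Fin 3 → ℤ, ∑ h ∈ symb d, ff x d h = (d:ℂ) ^ 3 *
      ((∏ p ∈ d.primeFactors, ((if (p:ℤ) ∣ F3 x then (1:ℝ) else 0) - gd p) : ℝ) : ℂ) := by
    intro x
    rw [sum_symb_eq hd0 _ (ff_per hSSunit x hd0), ff_all hSSmul hSSunit x d hd]
  simp_rw [h2]
  unfold Est
  rw [Complex.ofReal_sum, Finset.mul_sum]
  refine Finset.sum_congr rfl fun x _ => ?_
  rw [Complex.ofReal_mul]
  field_simp

end Pool.Agent.TCub
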