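import Pool.Agent.TCub.Stmts

open Finset

namespace Pool.Agent.TCub

namespace EstI

lemma norm_ee (t : ℝ) : ‖ee t‖ = 1 := by
  unfold ee
  rw [Complex.norm_exp]
  simp

lemma card_cube (H : ℕ) : (cube H).card = (2 * H + 1) ^ 3 := by
  unfold cube
  rw [Fintype.card_piFinset]
  simp only [Int.card_Icc, Finset.prod_const, Finset.card_univ, Fintype.card_fin]
  congr 1
  omega

lemma WW_nonneg (M K : ℕ) (x : Fin 3 → ℤ) : 0 ≤ WW M K x := by
  unfold WW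
  exact Finset.prod_nonneg fun i _ => Nat.cast_nonneg _

lemma sS_zero {d : ℕ} (hd : 1 < d) : sS d 0 = 0 := by
  unfold sS
  rw [if_neg]
  intro hg
  obtain ⟨p, hp, hpd⟩ := Nat.exists_prime_and_dvd (ne_of_gt hd)
  obtain ⟨i, hi⟩ := hg p hp hpd
  exact hi (by simp)

lemma cube_zero {h : Fin 3 → ℤ} (hh : h ∈ cube 0) : h = 0 := by
  funext i
  have := (Fintype.mem_piFinset.mp hh) i
  simp at this
  simpa using this

end EstI

theorem tEstI (hsS : St_sS) (hdiv : St_div) (hDM : St_DM) (hEstT : St_EstT) : St_EstI := by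
  intro ε K hε hε1 hK
  obtain ⟨C₁, hC₁, hdv⟩ := hdiv ε hε 10 (by norm_num)
  have hK1 : 1 ≤ K := by
    rcases Nat.eq_zero_or_pos K with h | h
    · rw [h] at hK
      norm_num at hK
    · exact h
  refine ⟨27 * C₁ + 1, by positivity, ?_⟩
  intro M d hM hd hd1 hdM
  have hMr : (100:ℝ) ≤ M := by exact_mod_cast hM
  have hM0 : (0:ℝ) < M := by linarith
  have hdr : (1:ℝ) < d := by exact_mod_cast hd1
  have hd0 : (0:ℝ) < d := by linarith
  set H : ℕ := ⌊(d:ℝ) * (M:ℝ) ^ (ε - 1)⌋₊ with hH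
  have hpos : 0 ≤ (d:ℝ) * (M:ℝ) ^ (ε - 1) := by positivity
  have hH1 : (d:ℝ) * (M:ℝ) ^ (ε - 1) ≤ H + 1 := (Nat.lt_floor_add_one _).le
  have hH2 : (H:ℝ) ≤ (d:ℝ) * (M:ℝ) ^ (ε - 1) := Nat.floor_le hpos
  have hsmall : (M:ℝ) ^ (ε - 1) ≤ 1 / 4 := by
    have h10 : (100:ℝ) ^ (-(1 / 2) : ℝ) = 1 / 10 := by
      rw [Real.rpow_neg (by norm_num), ← Real.sqrt_eq_rpow]
      rw [show (100:ℝ) = 10 ^ 2 by norm_num, Real.sqrt_sq (by norm_num)]
      norm_num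
    calc (M:ℝ) ^ (ε - 1) ≤ (M:ℝ) ^ (-(1 / 2) : ℝ) :=
          Real.rpow_le_rpow_of_exponent_le (by linarith) (by linarith)
      _ ≤ (100:ℝ) ^ (-(1 / 2) : ℝ) := Real.rpow_le_rpow_of_nonpos (by norm_num) hMr (by norm_num)
      _ = 1 / 10 := h10
      _ ≤ 1 / 4 := by norm_num
  have hH3 : 2 * H < d := by
    have : (2 * H : ℝ) < d := by nlinarith
    exact_mod_cast this
  have key := hEstT ε M K d H hε hε1 hK hM hd hdM hH1 hH3
  have hXX : 0 ≤ XX M K := by unfold XX; positivity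
  have hW : ∀ h : Fin 3 → ℤ,
      ‖∑ x ∈ bx M K, (WW M K x : ℂ) * ee (-((dot h x : ℝ) / d))‖ ≤ XX M K := by
    intro h
    calc ‖∑ x ∈ bx M K, (WW M K x : ℂ) * ee (-((dot h x : ℝ) / d))‖
        ≤ ∑ x ∈ bx M K, ‖(WW M K x : ℂ) * ee (-((dot h x : ℝ) / d))‖ := norm_sum_le _ _
      _ = ∑ x ∈ bx M K, WW M K x := by
          apply Finset.sum_congr rfl
          intro x _
          rw [norm_mul, EstI.norm_ee, mul_one, Complex.norm_real, Real.norm_eq_abs,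
            abs_of_nonneg (EstI.WW_nonneg M K x)]
      _ = XX M K := hDM.2.2.2.1 M K hK1
  have hdv' : (10:ℝ) ^ (d.primeFactors.card) ≤ C₁ * (d:ℝ) ^ ε := (hdv d (by omega)).1
  set S : ℂ := ∑ h ∈ cube H, sS d h *
      ∑ x ∈ bx M K, (WW M K x : ℂ) * ee (-((dot h x : ℝ) / d)) with hS
  have hSb : ‖S‖ ≤ 27 * (H:ℝ) ^ 3 * (C₁ * (d:ℝ) ^ ε * XX M K) := by
    rcases Nat.eq_zero_or_pos H with h0 | h0
    · have : S = 0 := by
        rw [hS]
        apply Finset.sum_eq_zero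
        intro h hh
        rw [h0] at hh
        rw [EstI.cube_zero hh, EstI.sS_zero hd1, zero_mul]
      rw [this, norm_zero]
      positivity
    · have h0' : (1:ℝ) ≤ H := by exact_mod_cast h0
      calc ‖S‖ ≤ ∑ h ∈ cube H, ‖sS d h *
            ∑ x ∈ bx M K, (WW M K x : ℂ) * ee (-((dot h x : ℝ) / d))‖ := norm_sum_le _ _
        _ ≤ ∑ h ∈ cube H, (C₁ * (d:ℝ) ^ ε * XX M K) := by
            apply Finset.sum_le_sum
            intro h _
            rw [norm_mul]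
            exact mul_le_mul ((hsS.2.2.2 d hd h).trans hdv') (hW h) (norm_nonneg _)
              (by positivity)
        _ = ((cube H).card : ℝ) * (C₁ * (d:ℝ) ^ ε * XX M K) := by
            rw [Finset.sum_const, nsmul_eq_mul]
        _ ≤ 27 * (H:ℝ) ^ 3 * (C₁ * (d:ℝ) ^ ε * XX M K) := by
            apply mul_le_mul_of_nonneg_right _ (by positivity)
            rw [EstI.card_cube]
            push_cast
            have h3 : (2 * (H:ℝ) + 1) ≤ 3 * H := by linarith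
            calc (2 * (H:ℝ) + 1) ^ 3 ≤ (3 * H) ^ 3 := pow_le_pow_left₀ (by positivity) h3 3
              _ = 27 * (H:ℝ) ^ 3 := by ring
  have hH3' : (H:ℝ) ^ 3 ≤ (d:ℝ) ^ 3 * (M:ℝ) ^ (-3 + 4 * ε) := by
    calc (H:ℝ) ^ 3 ≤ ((d:ℝ) * (M:ℝ) ^ (ε - 1)) ^ 3 :=
          pow_le_pow_left₀ (by positivity) hH2 3
      _ = (d:ℝ) ^ 3 * (M:ℝ) ^ ((ε - 1) * 3) := by
          rw [mul_pow]
          congr 1
          rw [Real.rpow_mul hM0.le]
          norm_cast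
      _ ≤ (d:ℝ) ^ 3 * (M:ℝ) ^ (-3 + 4 * ε) := by
          apply mul_le_mul_of_nonneg_left _ (by positivity)
          exact Real.rpow_le_rpow_of_exponent_le (by linarith) (by linarith)
  have hsecond : ‖(1 / (d:ℂ) ^ 2) * S‖ ≤
      27 * C₁ * XX M K * ((M:ℝ) ^ (-3 + 4 * ε) * (d:ℝ) ^ (1 + ε)) := by
    rw [norm_mul]
    have h1 : ‖(1 / (d:ℂ) ^ 2)‖ = 1 / (d:ℝ) ^ 2 := by
      rw [norm_div, norm_one, norm_pow, Complex.norm_natCast]
    rw [h1]
    calc 1 / (d:ℝ) ^ 2 * ‖S‖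
        ≤ 1 / (d:ℝ) ^ 2 * (27 * ((d:ℝ) ^ 3 * (M:ℝ) ^ (-3 + 4 * ε)) *
            (C₁ * (d:ℝ) ^ ε * XX M K)) := by
          apply mul_le_mul_of_nonneg_left _ (by positivity)
          refine hSb.trans ?_
          apply mul_le_mul_of_nonneg_right _ (by positivity)
          exact mul_le_mul_of_nonneg_left hH3' (by norm_num)
      _ = 27 * C₁ * XX M K * ((M:ℝ) ^ (-3 + 4 * ε) * (d:ℝ) ^ (1 + ε)) := by
          rw [Real.rpow_add hd0 1 ε, Real.rpow_one]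
          field_simp
  have hfirst : XX M K * (M:ℝ) ^ (-14 : ℝ) ≤ XX M K * (M:ℝ) ^ (-12 : ℝ) := by
    apply mul_le_mul_of_nonneg_left _ hXX
    exact Real.rpow_le_rpow_of_exponent_le (by linarith) (by norm_num)
  have hfin : |Est M K d| ≤ XX M K * (M:ℝ) ^ (-12 : ℝ) +
      27 * C₁ * XX M K * ((M:ℝ) ^ (-3 + 4 * ε) * (d:ℝ) ^ (1 + ε)) := by
    have h2 : |Est M K d| = ‖(Est M K d : ℂ)‖ := by
      rw [Complex.norm_real, Real.norm_eq_abs]
    rw [h2]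
    calc ‖(Est M K d : ℂ)‖
        = ‖((Est M K d : ℂ) - (1 / (d:ℂ) ^ 2) * S) + (1 / (d:ℂ) ^ 2) * S‖ := by
          congr 1; ring
      _ ≤ ‖(Est M K d : ℂ) - (1 / (d:ℂ) ^ 2) * S‖ + ‖(1 / (d:ℂ) ^ 2) * S‖ := norm_add_le _ _
      _ ≤ _ := add_le_add (key.trans hfirst) hsecond
  refine hfin.trans ?_
  have hA : 0 ≤ XX M K * (M:ℝ) ^ (-12 : ℝ) := by positivity
  have hB : 0 ≤ XX M K * ((M:ℝ) ^ (-3 + 4 * ε) * (d:ℝ) ^ (1 + ε)) := by positivity
  nlinarith [mul_nonneg hC₁.le hA]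

end Pool.Agent.TCub
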