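import Pool.Agent.TCub.Stmts

open Finset

namespace Pool.Agent.TCub

namespace EstT

lemma norm_ee (t : ℝ) : ‖ee t‖ = 1 := by
  unfold ee
  have : (2 * Real.pi * t * Complex.I : ℂ) = ((2 * Real.pi * t : ℝ) : ℂ) * Complex.I := by
    push_cast; ring
  rw [this, Complex.norm_exp_ofReal_mul_I]

lemma card_cone (d : ℕ) : ((cone d).card : ℝ) ≤ (d:ℝ) ^ 3 := by
  have h1 : (cone d).card ≤ (Fintype.piFinset fun _ : Fin 3 => Finset.Ico (0:ℤ) d).card :=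
    Finset.card_filter_le _ _
  rw [Fintype.card_piFinset] at h1
  simp only [Int.card_Ico, sub_zero, Int.toNat_natCast, Finset.prod_const, Finset.card_univ,
    Fintype.card_fin] at h1
  exact_mod_cast h1

lemma norm_sS (d : ℕ) (hd : 1 ≤ d) (h : Fin 3 → ℤ) : ‖sS d h‖ ≤ (d:ℝ) ^ 2 := by
  have hd0 : (0:ℝ) < d := by exact_mod_cast hd
  unfold sS
  split_ifs
  · unfold sn SS
    rw [norm_div, Complex.norm_natCast, div_le_iff₀ hd0]
    have h1 : ‖∑ x ∈ cone d, ee ((dot h x : ℝ) / d)‖ ≤ ∑ x ∈ cone d, (1:ℝ) := by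
      refine (norm_sum_le _ _).trans ?_
      apply Finset.sum_le_sum
      intro x _
      rw [norm_ee]
    refine h1.trans ?_
    rw [Finset.sum_const, nsmul_eq_mul, mul_one]
    refine (card_cone d).trans (le_of_eq ?_)
    ring
  · rw [norm_zero]; positivity

lemma card_symb (d : ℕ) (hd : 1 ≤ d) : ((symb d).card : ℝ) ≤ 27 * (d:ℝ) ^ 3 := by
  unfold symb
  rw [Fintype.card_piFinset]
  simp only [Finset.prod_const, Finset.card_univ, Fintype.card_fin]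
  have h1 : ((Finset.Icc (-(d:ℤ)) d).filter fun z => -(d:ℤ) < 2 * z ∧ 2 * z ≤ d).card ≤ 3 * d := by
    refine (Finset.card_filter_le _ _).trans ?_
    rw [Int.card_Icc]
    omega
  have h2 : (((Finset.Icc (-(d:ℤ)) d).filter fun z => -(d:ℤ) < 2 * z ∧ 2 * z ≤ d).card : ℝ) ≤
      3 * d := by exact_mod_cast h1
  push_cast
  calc ((((Finset.Icc (-(d:ℤ)) d).filter fun z => -(d:ℤ) < 2 * z ∧ 2 * z ≤ d).card : ℝ)) ^ 3
      ≤ (3 * (d:ℝ)) ^ 3 := pow_le_pow_left₀ (by positivity) h2 3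
    _ = 27 * (d:ℝ) ^ 3 := by ring

lemma prod_three_le (a : Fin 3 → ℝ) (ha : ∀ i, 0 ≤ a i) (A B : ℝ) (hA : ∀ i, a i ≤ A)
    (i₀ : Fin 3) (hB : a i₀ ≤ B) : ∏ i, a i ≤ A ^ 2 * B := by
  have hA0 : 0 ≤ A := (ha i₀).trans (hA i₀)
  rw [← Finset.mul_prod_erase Finset.univ a (Finset.mem_univ i₀)]
  have h1 : ∏ i ∈ Finset.univ.erase i₀, a i ≤ ∏ i ∈ Finset.univ.erase i₀, A :=
    Finset.prod_le_prod (fun i _ => ha i) (fun i _ => hA i)
  rw [Finset.prod_const, Finset.card_erase_of_mem (Finset.mem_univ i₀), Finset.card_univ,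
    Fintype.card_fin] at h1
  have h2 : 0 ≤ ∏ i ∈ Finset.univ.erase i₀, a i := Finset.prod_nonneg (fun i _ => ha i)
  calc a i₀ * ∏ i ∈ Finset.univ.erase i₀, a i ≤ B * A ^ (3 - 1) :=
        mul_le_mul hB h1 h2 ((ha i₀).trans hB)
    _ = A ^ 2 * B := by ring

end EstT

open EstT in
theorem tEstT (hEstF : St_EstF) (hDM : St_DM) : St_EstT := by
  obtain ⟨hD1, hD2, hD3, _, _⟩ := hDM
  intro ε M K d H hε0 hε1 hKε hM hd hdM hdH h2H
  have hM0 : (0:ℝ) < M := by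
    have : (100:ℝ) ≤ M := by exact_mod_cast hM
    linarith
  have hM1 : (1:ℝ) ≤ M := by
    have : (100:ℝ) ≤ M := by exact_mod_cast hM
    linarith
  have hd1 : 1 ≤ d := Nat.one_le_iff_ne_zero.2 hd.ne_zero
  have hd0 : (0:ℝ) < d := by exact_mod_cast hd1
  have hKbig : (200:ℝ) ≤ K := by
    by_contra hc
    push Not at hc
    nlinarith
  have hK200 : 200 ≤ K := by exact_mod_cast hKbig
  have hK1 : 1 ≤ K := by omega
  have hsub : cube H ⊆ symb d := by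
    intro h hh
    unfold cube at hh
    unfold symb
    rw [Fintype.mem_piFinset] at hh ⊢
    intro i
    have := Finset.mem_Icc.1 (hh i)
    rw [Finset.mem_filter, Finset.mem_Icc]
    refine ⟨⟨?_, ?_⟩, ?_, ?_⟩ <;> omega
  set T : (Fin 3 → ℤ) → ℂ := fun h => sS d h *
      ∑ x ∈ bx M K, (WW M K x : ℂ) * ee (-((dot h x : ℝ) / d)) with hT
  have hdiff : (Est M K d : ℂ) - (1 / (d:ℂ) ^ 2) * ∑ h ∈ cube H, T h =
      (1 / (d:ℂ) ^ 2) * ∑ h ∈ symb d \ cube H, T h := by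
    rw [hEstF M K d hK1 hd, ← Finset.sum_sdiff hsub]
    ring
  rw [hdiff]
  -- bound for one term
  have hterm : ∀ h ∈ symb d \ cube H, ‖T h‖ ≤
      (d:ℝ) ^ 2 * ((M:ℝ) ^ (3 * K) * (M:ℝ) ^ (-20 : ℝ) / 2 ^ K) := by
    intro h hh
    rw [Finset.mem_sdiff] at hh
    obtain ⟨hs, hc⟩ := hh
    have hs' : ∀ i, -(d:ℤ) < 2 * h i ∧ 2 * h i ≤ d := by
      intro i
      unfold symb at hs
      exact (Finset.mem_filter.1 ((Fintype.mem_piFinset.1 hs) i)).2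
    have hex : ∃ i, (H:ℤ) + 1 ≤ |h i| := by
      by_contra hcon
      push Not at hcon
      apply hc
      unfold cube
      rw [Fintype.mem_piFinset]
      intro i
      rw [Finset.mem_Icc, ← abs_le]
      have := hcon i
      omega
    obtain ⟨i₀, hi₀⟩ := hex
    have hx : ∑ x ∈ bx M K, (WW M K x : ℂ) * ee (-((dot h x : ℝ) / d)) =
        ∏ i, DM M (-(h i : ℝ) / d) ^ K := by
      rw [← hD1 M K (fun i => -(h i : ℝ) / d) hK1]
      refine Finset.sum_congr rfl fun x _ => ?_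
      congr 2
      unfold dot
      push_cast
      rw [Finset.sum_div, ← Finset.sum_neg_distrib]
      refine Finset.sum_congr rfl fun i _ => ?_
      ring
    simp only [hT]
    rw [norm_mul]
    refine mul_le_mul (norm_sS d hd1 h) ?_ (norm_nonneg _) (by positivity)
    rw [hx, norm_prod]
    simp only [norm_pow]
    have hb1 : ∀ i, ‖DM M (-(h i : ℝ) / d)‖ ^ K ≤ (M:ℝ) ^ K :=
      fun i => pow_le_pow_left₀ (norm_nonneg _) (hD2 M _) K
    have habs : (H:ℝ) + 1 ≤ |(h i₀ : ℝ)| := by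
      have : (((H:ℤ) + 1 : ℤ) : ℝ) ≤ ((|h i₀| : ℤ) : ℝ) := by exact_mod_cast hi₀
      push_cast at this
      exact this
    have hpos : 0 < |(h i₀ : ℝ)| := by
      have : (0:ℝ) ≤ H := Nat.cast_nonneg _
      linarith
    have hθ : |(-(h i₀ : ℝ) / d)| = |(h i₀ : ℝ)| / d := by
      rw [abs_div, abs_neg, abs_of_pos hd0]
    have hθ2 : |(-(h i₀ : ℝ) / d)| ≤ 1 / 2 := by
      rw [hθ, div_le_iff₀ hd0]
      have h3 := hs' i₀
      have h4 : |2 * h i₀| ≤ (d:ℤ) := by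
        rw [abs_le]; constructor <;> omega
      have h5 : ((|2 * h i₀| : ℤ) : ℝ) ≤ ((d:ℤ) : ℝ) := by exact_mod_cast h4
      push_cast at h5
      rw [abs_mul, abs_two] at h5
      linarith
    have hθ0 : (-(h i₀ : ℝ) / d) ≠ 0 := by
      intro h0
      rw [h0, abs_zero] at hθ
      have : 0 < |(h i₀ : ℝ)| / d := div_pos hpos hd0
      linarith
    have hb2 : ‖DM M (-(h i₀ : ℝ) / d)‖ ≤ (M:ℝ) ^ (1 - ε) / 2 := by
      refine (hD3 M _ hθ0 hθ2).trans ?_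
      rw [hθ]
      have h6 : (d:ℝ) * (M:ℝ) ^ (ε - 1) ≤ |(h i₀ : ℝ)| := hdH.trans habs
      have h7 : (M:ℝ) ^ (ε - 1) * (M:ℝ) ^ (1 - ε) = 1 := by
        rw [← Real.rpow_add hM0]; simp
      have h8 : (0:ℝ) < (M:ℝ) ^ (1 - ε) := Real.rpow_pos_of_pos hM0 _
      rw [show 1 / (2 * (|(h i₀ : ℝ)| / d)) = (d / |(h i₀ : ℝ)|) / 2 by
        field_simp]
      apply div_le_div_of_nonneg_right _ (by norm_num)
      rw [div_le_iff₀ hpos]
      calc (d:ℝ) = d * ((M:ℝ) ^ (ε - 1) * (M:ℝ) ^ (1 - ε)) := by rw [h7, mul_one]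
        _ = (M:ℝ) ^ (1 - ε) * (d * (M:ℝ) ^ (ε - 1)) := by ring
        _ ≤ (M:ℝ) ^ (1 - ε) * |(h i₀ : ℝ)| := mul_le_mul_of_nonneg_left h6 h8.le
    have hb3 : ‖DM M (-(h i₀ : ℝ) / d)‖ ^ K ≤ ((M:ℝ) ^ (1 - ε) / 2) ^ K :=
      pow_le_pow_left₀ (norm_nonneg _) hb2 K
    refine (prod_three_le _ (fun i => by positivity) _ _ hb1 i₀ hb3).trans ?_
    rw [div_pow, ← Real.rpow_natCast ((M:ℝ) ^ (1 - ε)) K, ← Real.rpow_mul hM0.le, ← mul_div_assoc]
    apply div_le_div_of_nonneg_right _ (by positivity)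
    rw [← Real.rpow_natCast (M:ℝ) (3 * K), ← Real.rpow_natCast ((M:ℝ) ^ K) 2,
      ← Real.rpow_natCast (M:ℝ) K, ← Real.rpow_mul hM0.le, ← Real.rpow_add hM0, ← Real.rpow_add hM0]
    apply Real.rpow_le_rpow_of_exponent_le hM1
    push_cast
    nlinarith
  rw [norm_mul]
  have hn1 : ‖(1 / (d:ℂ) ^ 2)‖ = 1 / (d:ℝ) ^ 2 := by
    rw [norm_div, norm_one, norm_pow, Complex.norm_natCast]
  rw [hn1]
  have hsum : ‖∑ h ∈ symb d \ cube H, T h‖ ≤
      27 * (d:ℝ) ^ 3 * ((d:ℝ) ^ 2 * ((M:ℝ) ^ (3 * K) * (M:ℝ) ^ (-20 : ℝ) / 2 ^ K)) := by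
    refine (norm_sum_le_of_le _ hterm).trans ?_
    rw [Finset.sum_const, nsmul_eq_mul]
    apply mul_le_mul_of_nonneg_right _ (by positivity)
    refine le_trans ?_ (card_symb d hd1)
    exact_mod_cast Finset.card_le_card Finset.sdiff_subset
  calc 1 / (d:ℝ) ^ 2 * ‖∑ h ∈ symb d \ cube H, T h‖
      ≤ 1 / (d:ℝ) ^ 2 * (27 * (d:ℝ) ^ 3 *
        ((d:ℝ) ^ 2 * ((M:ℝ) ^ (3 * K) * (M:ℝ) ^ (-20 : ℝ) / 2 ^ K))) :=
        mul_le_mul_of_nonneg_left hsum (by positivity)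
    _ = (27 / 2 ^ K) * ((d:ℝ) ^ 3 * ((M:ℝ) ^ (3 * K) * (M:ℝ) ^ (-20 : ℝ))) := by
        field_simp
    _ ≤ 1 * ((M:ℝ) ^ 6 * ((M:ℝ) ^ (3 * K) * (M:ℝ) ^ (-20 : ℝ))) := by
        apply mul_le_mul
        · rw [div_le_one (by positivity)]
          calc (27:ℝ) ≤ 2 ^ 5 := by norm_num
            _ ≤ 2 ^ K := pow_le_pow_right₀ (by norm_num) (by omega)
        · apply mul_le_mul_of_nonneg_right _ (by positivity)
          calc (d:ℝ) ^ 3 ≤ ((M:ℝ) ^ 2) ^ 3 := pow_le_pow_left₀ hd0.le hdM 3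
            _ = (M:ℝ) ^ 6 := by ring
        · positivity
        · norm_num
    _ = XX M K * (M:ℝ) ^ (-14 : ℝ) := by
        unfold XX
        have : (M:ℝ) ^ 6 * (M:ℝ) ^ (-20 : ℝ) = (M:ℝ) ^ (-14 : ℝ) := by
          rw [← Real.rpow_natCast (M:ℝ) 6, ← Real.rpow_add hM0]
          norm_num
        rw [← this]; ring

end Pool.Agent.TCub
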