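import Pool.Agent.TCub.Stmts

open Finset

namespace Pool.Agent.TCub

open MeasureTheory in
theorem tFA : St_FA := by
  intro U W h hW2
  set I : ℝ := ∫ t in Set.Ioi 3, W (t - 1) with hI
  have hI0 : 0 ≤ I := by
    apply setIntegral_nonneg measurableSet_Ioi
    intro t ht
    have : (3:ℝ) < t := ht
    exact h.W0 _ (by linarith)
  refine ⟨3 + I, by linarith, ?_, ?_⟩
  · intro s hs hs3
    have h1 := h.Ueq s hs
    rw [max_eq_left (by linarith : (0:ℝ) ≤ 3 - s), max_eq_right hs3, ← hI] at h1
    rw [eq_div_iff (ne_of_gt hs)]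
    linarith
  · have hU : ∀ s, 0 < s → s ≤ 3 → U s = (3 + I) / s - 1 := by
      intro s hs hs3
      have h1 := h.Ueq s hs
      rw [max_eq_left (by linarith : (0:ℝ) ≤ 3 - s), max_eq_right hs3, ← hI] at h1
      rw [eq_sub_iff_add_eq, eq_div_iff (ne_of_gt hs)]
      linarith
    have h2 := h.Weq 2 le_rfl
    have h4 := h.Weq 4 (by norm_num)
    rw [hW2] at h2
    have hint : IntegrableOn (fun t => U (t - 1)) (Set.Ioi 2) := by
      by_contra hcon
      have : ∫ t in Set.Ioi 2, U (t - 1) = 0 := integral_undef hcon
      rw [this] at h2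
      norm_num at h2
    have hsplit : ∫ t in Set.Ioi 2, U (t - 1) =
        (∫ t in Set.Ioc 2 4, U (t - 1)) + ∫ t in Set.Ioi 4, U (t - 1) := by
      have hu : Set.Ioi (2:ℝ) = Set.Ioc 2 4 ∪ Set.Ioi 4 := by
        rw [Set.Ioc_union_Ioi_eq_Ioi (by norm_num)]
      rw [hu]
      apply setIntegral_union
      · rw [Set.disjoint_left]
        intro x hx hx'
        exact absurd hx.2 (not_le.mpr hx')
      · exact measurableSet_Ioi
      · exact hint.mono_set (by rw [hu]; exact Set.subset_union_left)
      · exact hint.mono_set (by rw [hu]; exact Set.subset_union_right)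
    have hval : ∫ t in Set.Ioc 2 4, U (t - 1) = (3 + I) * Real.log 3 - 2 := by
      have e1 : ∫ t in Set.Ioc 2 4, U (t - 1) = ∫ t in Set.Ioc 2 4, ((3 + I) / (t - 1) - 1) := by
        apply setIntegral_congr_fun measurableSet_Ioc
        intro t ht
        exact hU _ (by linarith [ht.1]) (by linarith [ht.2])
      rw [e1, ← intervalIntegral.integral_of_le (by norm_num)]
      have hcont : ContinuousOn (fun t : ℝ => (3 + I) / (t - 1)) (Set.uIcc 2 4) := by
        apply ContinuousOn.div continuousOn_const (by fun_prop)
        intro t ht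
        rw [Set.uIcc_of_le (by norm_num)] at ht
        have := ht.1
        have : t - 1 ≠ 0 := by linarith
        exact this
      rw [intervalIntegral.integral_sub hcont.intervalIntegrable (by simp)]
      have e2 : ∫ t in (2:ℝ)..4, (3 + I) / (t - 1) = (3 + I) * Real.log 3 := by
        have e3 : ∀ t : ℝ, (3 + I) / (t - 1) = (3 + I) * (t - 1)⁻¹ := fun t => by
          rw [div_eq_mul_inv]
        simp only [e3]
        rw [intervalIntegral.integral_const_mul]
        congr 1
        rw [intervalIntegral.integral_comp_sub_right (fun x => x⁻¹) 1]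
        rw [integral_inv_of_pos (by norm_num) (by norm_num)]
        norm_num
      rw [e2]
      simp
      norm_num
    rw [hsplit, hval] at h2
    linarith

end Pool.Agent.TCub
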