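import Pool.Agent.TCub.Stmts

open Finset

namespace Pool.Agent.TCub

namespace FL

theorem HU_eq {s : ℝ} (hs : 3 ≤ s) : HU s = 8 / 21 * Real.exp (-(s - 3)) := by
  unfold HU
  split_ifs with h
  · have : s = 3 := le_antisymm h hs
    subst this
    norm_num
  · rfl

end FL

open FL

theorem tFL (hFP : St_FP) (hW2 : St_W2) (hAST : St_AST) : St_FL := by
  obtain ⟨U, W, hUW⟩ := hFP
  have hW := hW2 U W hUW
  obtain ⟨ε₁, C, h0, h1, hC, hA⟩ := hAST
  have hexp3 : 1 ≤ Real.exp 3 := Real.one_le_exp (by norm_num)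
  refine ⟨ε₁, (21 + C) * Real.exp 3, h0, h1, by nlinarith, ?_⟩
  intro g c u ε δ hε hδ hS w L hw hL
  have hlw : 0 < Real.log w := Real.log_pos hw
  have hL0 : 0 < L := by nlinarith
  obtain ⟨a1, a2⟩ := hA U W hUW hW g c u ε δ hε hδ hS w L hw hL0
  have a3 := a2 (by linarith)
  set s : ℝ := L / Real.log w with hs
  have hs3 : 3 ≤ s := by
    rw [hs, le_div_iff₀ hlw]; exact hL
  have hV0 : 0 ≤ VV g u ⌈w⌉₊ := by
    unfold VV
    apply prod_nonneg
    intro p hp
    have hp' : p.Prime := by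
      have := (mem_filter.mp hp).2.1
      exact this
    linarith [hS.hg1 p hp']
  have hE0 : 0 < Real.exp (-s) := Real.exp_pos _
  have hHU : HU s ≤ Real.exp 3 * Real.exp (-s) := by
    rw [HU_eq hs3, ← Real.exp_add]
    have : Real.exp (-(s - 3)) = Real.exp (3 + -s) := by congr 1; ring
    rw [this]
    have := Real.exp_pos (3 + -s)
    linarith
  have hHU0 : 0 ≤ HU s := by
    rw [HU_eq hs3]; positivity
  have hHW : HW s ≤ Real.exp 3 * Real.exp (-s) := by
    unfold HW
    rw [← Real.exp_add]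
    apply Real.exp_le_exp.2
    linarith
  have hHW0 : 0 ≤ HW s := by unfold HW; positivity
  have hεδ : C * (ε + δ) ≤ C := by
    have : ε + δ ≤ 1 := by linarith
    nlinarith
  constructor
  · refine a1.trans ?_
    apply mul_le_mul_of_nonneg_left _ hV0
    have e1 := hUW.Ubd s (by linarith)
    have e2 : C * (ε + δ) * HU s ≤ C * HU s := mul_le_mul_of_nonneg_right hεδ hHU0
    have e3 : (21 + C) * HU s ≤ (21 + C) * (Real.exp 3 * Real.exp (-s)) :=
      mul_le_mul_of_nonneg_left hHU (by linarith)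
    linarith
  · refine le_trans ?_ a3
    apply mul_le_mul_of_nonneg_left _ hV0
    have e1 := hUW.Wbd s (by linarith)
    have e2 : C * (ε + δ) * HW s ≤ C * HW s := mul_le_mul_of_nonneg_right hεδ hHW0
    have e3 : (21 + C) * HW s ≤ (21 + C) * (Real.exp 3 * Real.exp (-s)) :=
      mul_le_mul_of_nonneg_left hHW (by linarith)
    linarith

end Pool.Agent.TCub
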