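import Pool.Agent.TCub.Stmts


namespace Pool.Agent.TCub

namespace FP

open MeasureTheory Set

noncomputable section

/-- invariant of the iteration -/
structure P (U W : ℝ → ℝ) : Prop where
  U0 : ∀ s, 0 < s → 0 ≤ U s
  Uanti : AntitoneOn U (Set.Ioi 0)
  Ubd : ∀ s, 0 < s → U s ≤ 21 * HU s
  W0 : ∀ s, 2 ≤ s → 0 ≤ W s
  Wanti : AntitoneOn W (Set.Ici 2)
  Wbd : ∀ s, 2 ≤ s → W s ≤ 21 * HW s

def TU (W : ℝ → ℝ) (s : ℝ) : ℝ := (max (3 - s) 0 + ∫ t in Set.Ioi (max s 3), W (t - 1)) / s
def TW (U : ℝ → ℝ) (s : ℝ) : ℝ := (∫ t in Set.Ioi s, U (t - 1)) / s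

lemma intW (hcon : St_con) {U W : ℝ → ℝ} (h : P U W) :
    IntegrableOn (fun t => W (t - 1)) (Ioi 3) := by
  have hb : IntegrableOn (fun t => 21 * HW (t - 1)) (Ioi 3) := hcon.1.const_mul 21
  refine Integrable.mono' hb ?_ ?_
  · have hanti : AntitoneOn (fun t => W (t - 1)) (Ioi 3) := by
      intro a ha b hb hab
      simp only [mem_Ioi] at ha hb
      exact h.Wanti (by simp only [mem_Ici]; linarith) (by simp only [mem_Ici]; linarith) (by linarith)
    exact (aemeasurable_restrict_of_antitoneOn measurableSet_Ioi hanti).aestronglyMeasurable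
  · refine (ae_restrict_iff' measurableSet_Ioi).2 (Filter.Eventually.of_forall ?_)
    intro t ht
    simp only [mem_Ioi] at ht
    rw [Real.norm_of_nonneg (h.W0 _ (by linarith))]
    exact h.Wbd _ (by linarith)

lemma intU (hcon : St_con) {U W : ℝ → ℝ} (h : P U W) :
    IntegrableOn (fun t => U (t - 1)) (Ioi 2) := by
  have hb : IntegrableOn (fun t => 21 * HU (t - 1)) (Ioi 2) := hcon.2.1.const_mul 21
  refine Integrable.mono' hb ?_ ?_
  · have hanti : AntitoneOn (fun t => U (t - 1)) (Ioi 2) := by
      intro a ha b hb hab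
      simp only [mem_Ioi] at ha hb
      exact h.Uanti (by simp only [mem_Ioi]; linarith) (by simp only [mem_Ioi]; linarith) (by linarith)
    exact (aemeasurable_restrict_of_antitoneOn measurableSet_Ioi hanti).aestronglyMeasurable
  · refine (ae_restrict_iff' measurableSet_Ioi).2 (Filter.Eventually.of_forall ?_)
    intro t ht
    simp only [mem_Ioi] at ht
    rw [Real.norm_of_nonneg (h.U0 _ (by linarith))]
    exact h.Ubd _ (by linarith)

lemma HW_nonneg (s : ℝ) : 0 ≤ HW s := (Real.exp_pos _).le

lemma sHU (s : ℝ) (hs : 0 < s) : max (3 - s) 0 ≤ 21 / 8 * (s * HU s) := by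
  unfold HU
  split_ifs with h
  · have : s * (8 / 7 / s) = 8 / 7 := by field_simp
    rw [this]
    exact max_le (by linarith) (by norm_num)
  · push Not at h
    have : max (3 - s) 0 = 0 := max_eq_right (by linarith)
    rw [this]
    positivity

lemma pres (hcon : St_con) {U W : ℝ → ℝ} (h : P U W) : P (TU W) (TW U) := by
  have iW := intW hcon h
  have iU := intU hcon h
  have iWs : ∀ s, IntegrableOn (fun t => W (t - 1)) (Ioi (max s 3)) := fun s =>
    iW.mono_set (Ioi_subset_Ioi (le_max_right _ _))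
  have iUs : ∀ s, 2 ≤ s → IntegrableOn (fun t => U (t - 1)) (Ioi s) := fun s hs =>
    iU.mono_set (Ioi_subset_Ioi hs)
  have nW : ∀ s, 0 ≤ ∫ t in Set.Ioi (max s 3), W (t - 1) := fun s =>
    setIntegral_nonneg measurableSet_Ioi (fun t ht => h.W0 _ (by
      simp only [mem_Ioi] at ht
      have := le_max_right s 3
      linarith))
  have nU : ∀ s, 2 ≤ s → 0 ≤ ∫ t in Set.Ioi s, U (t - 1) := fun s hs =>
    setIntegral_nonneg measurableSet_Ioi (fun t ht => h.U0 _ (by
      simp only [mem_Ioi] at ht
      linarith))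
  refine ⟨?_, ?_, ?_, ?_, ?_, ?_⟩
  · intro s hs
    unfold TU
    exact div_nonneg (add_nonneg (le_max_right _ _) (nW s)) hs.le
  · intro s hs s' hs' hss
    simp only [mem_Ioi] at hs hs'
    unfold TU
    have h1 : max (3 - s') 0 ≤ max (3 - s) 0 := max_le_max (by linarith) le_rfl
    have h2 : ∫ t in Set.Ioi (max s' 3), W (t - 1) ≤ ∫ t in Set.Ioi (max s 3), W (t - 1) := by
      refine setIntegral_mono_set (iWs s) ?_ ?_
      · refine (ae_restrict_iff' measurableSet_Ioi).2 (Filter.Eventually.of_forall ?_)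
        intro t ht
        simp only [mem_Ioi] at ht
        have := le_max_right s 3
        exact h.W0 _ (by linarith)
      · exact (Ioi_subset_Ioi (max_le_max hss le_rfl)).eventuallyLE
    exact div_le_div₀ (add_nonneg (le_max_right _ _) (nW s)) (add_le_add h1 h2) hs hss
  · intro s hs
    unfold TU
    rw [div_le_iff₀ hs]
    have h1 : ∫ t in Set.Ioi (max s 3), W (t - 1) ≤ ∫ t in Set.Ioi (max s 3), 21 * HW (t - 1) := by
      refine setIntegral_mono_on (iWs s) ?_ measurableSet_Ioi ?_
      · exact IntegrableOn.mono_set (s := Ioi 3) (t := Ioi 3) (hcon.1.const_mul 21) (le_rfl) |>.mono_set (Ioi_subset_Ioi (le_max_right _ _))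
      · intro t ht
        simp only [mem_Ioi] at ht
        have := le_max_right s 3
        exact h.Wbd _ (by linarith)
    rw [integral_const_mul] at h1
    have h2 := hcon.2.2.1 s hs
    have h3 := sHU s hs
    nlinarith
  · intro s hs
    unfold TW
    exact div_nonneg (nU s hs) (by linarith)
  · intro s hs s' hs' hss
    simp only [mem_Ici] at hs hs'
    unfold TW
    have h2 : ∫ t in Set.Ioi s', U (t - 1) ≤ ∫ t in Set.Ioi s, U (t - 1) := by
      refine setIntegral_mono_set (iUs s hs) ?_ ?_
      · refine (ae_restrict_iff' measurableSet_Ioi).2 (Filter.Eventually.of_forall ?_)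
        intro t ht
        simp only [mem_Ioi] at ht
        exact h.U0 _ (by linarith)
      · exact (Ioi_subset_Ioi hss).eventuallyLE
    exact div_le_div₀ (nU s hs) h2 (by linarith) hss
  · intro s hs
    unfold TW
    rw [div_le_iff₀ (by linarith)]
    have h1 : ∫ t in Set.Ioi s, U (t - 1) ≤ ∫ t in Set.Ioi s, 21 * HU (t - 1) := by
      refine setIntegral_mono_on (iUs s hs) ?_ measurableSet_Ioi ?_
      · exact IntegrableOn.mono_set (s := Ioi 2) (t := Ioi 2) (hcon.2.1.const_mul 21) (le_rfl) |>.mono_set (Ioi_subset_Ioi hs)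
      · intro t ht
        simp only [mem_Ioi] at ht
        exact h.Ubd _ (by linarith)
    rw [integral_const_mul] at h1
    have h2 := hcon.2.2.2 s hs
    have h3 : 0 ≤ s * HW s := mul_nonneg (by linarith) (HW_nonneg s)
    nlinarith

/-- the iteration -/
def it : ℕ → (ℝ → ℝ) × (ℝ → ℝ)
  | 0 => (fun _ => 0, fun _ => 0)
  | n + 1 => (TU (it n).2, TW (it n).1)

lemma P0 : P (fun _ => 0) (fun _ => 0) := by
  refine ⟨fun _ _ => le_rfl, fun _ _ _ _ _ => le_rfl, ?_, fun _ _ => le_rfl,
    fun _ _ _ _ _ => le_rfl, ?_⟩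
  · intro s hs
    unfold HU
    split_ifs
    · positivity
    · positivity
  · intro s hs
    have := HW_nonneg s
    show (0:ℝ) ≤ 21 * HW s
    linarith

lemma Pit (hcon : St_con) (n : ℕ) : P (it n).1 (it n).2 := by
  induction n with
  | zero => exact P0
  | succ n ih => exact pres hcon ih

lemma mono_step (hcon : St_con) (n : ℕ) :
    (∀ s, 0 < s → (it n).1 s ≤ (it (n + 1)).1 s) ∧ (∀ s, 2 ≤ s → (it n).2 s ≤ (it (n + 1)).2 s) := by
  induction n with
  | zero =>
    constructor
    · intro s hs
      exact (Pit hcon 1).U0 s hs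
    · intro s hs
      exact (Pit hcon 1).W0 s hs
  | succ n ih =>
    constructor
    · intro s hs
      show TU (it n).2 s ≤ TU (it (n + 1)).2 s
      unfold TU
      have h1 : ∫ t in Set.Ioi (max s 3), (it n).2 (t - 1) ≤
          ∫ t in Set.Ioi (max s 3), (it (n + 1)).2 (t - 1) := by
        refine setIntegral_mono_on
          ((intW hcon (Pit hcon n)).mono_set (Ioi_subset_Ioi (le_max_right _ _)))
          ((intW hcon (Pit hcon (n + 1))).mono_set (Ioi_subset_Ioi (le_max_right _ _)))
          measurableSet_Ioi ?_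
        intro t ht
        simp only [mem_Ioi] at ht
        have := le_max_right s 3
        exact ih.2 _ (by linarith)
      gcongr
    · intro s hs
      show TW (it n).1 s ≤ TW (it (n + 1)).1 s
      unfold TW
      have h1 : ∫ t in Set.Ioi s, (it n).1 (t - 1) ≤
          ∫ t in Set.Ioi s, (it (n + 1)).1 (t - 1) := by
        refine setIntegral_mono_on
          ((intU hcon (Pit hcon n)).mono_set (Ioi_subset_Ioi hs))
          ((intU hcon (Pit hcon (n + 1))).mono_set (Ioi_subset_Ioi hs))
          measurableSet_Ioi ?_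
        intro t ht
        simp only [mem_Ioi] at ht
        exact ih.1 _ (by linarith)
      have : 0 < s := by linarith
      gcongr

end

end FP

open MeasureTheory Set Filter Topology in
theorem tFP (hcon : St_con) : St_FP := by
  classical
  have hP := FP.Pit hcon
  have hUm : ∀ s, 0 < s → Monotone (fun n => (FP.it n).1 s) := fun s hs =>
    monotone_nat_of_le_succ (fun n => (FP.mono_step hcon n).1 s hs)
  have hWm : ∀ s, 2 ≤ s → Monotone (fun n => (FP.it n).2 s) := fun s hs =>
    monotone_nat_of_le_succ (fun n => (FP.mono_step hcon n).2 s hs)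
  have hUb : ∀ s, 0 < s → BddAbove (Set.range (fun n => (FP.it n).1 s)) := by
    intro s hs
    refine ⟨21 * HU s, ?_⟩
    rintro _ ⟨n, rfl⟩
    exact (hP n).Ubd s hs
  have hWb : ∀ s, 2 ≤ s → BddAbove (Set.range (fun n => (FP.it n).2 s)) := by
    intro s hs
    refine ⟨21 * HW s, ?_⟩
    rintro _ ⟨n, rfl⟩
    exact (hP n).Wbd s hs
  set U : ℝ → ℝ := fun s => ⨆ n, (FP.it n).1 s with hU
  set W : ℝ → ℝ := fun s => ⨆ n, (FP.it n).2 s with hW
  have tU : ∀ s, 0 < s → Tendsto (fun n => (FP.it n).1 s) atTop (𝓝 (U s)) := fun s hs =>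
    tendsto_atTop_ciSup (hUm s hs) (hUb s hs)
  have tW : ∀ s, 2 ≤ s → Tendsto (fun n => (FP.it n).2 s) atTop (𝓝 (W s)) := fun s hs =>
    tendsto_atTop_ciSup (hWm s hs) (hWb s hs)
  have hlim : FP.P U W := by
    refine ⟨?_, ?_, ?_, ?_, ?_, ?_⟩
    · intro s hs
      exact ge_of_tendsto' (tU s hs) (fun n => (hP n).U0 s hs)
    · intro s hs s' hs' hss
      exact le_of_tendsto_of_tendsto' (tU s' hs') (tU s hs) (fun n => (hP n).Uanti hs hs' hss)
    · intro s hs
      exact le_of_tendsto' (tU s hs) (fun n => (hP n).Ubd s hs)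
    · intro s hs
      exact ge_of_tendsto' (tW s hs) (fun n => (hP n).W0 s hs)
    · intro s hs s' hs' hss
      exact le_of_tendsto_of_tendsto' (tW s' hs') (tW s hs) (fun n => (hP n).Wanti hs hs' hss)
    · intro s hs
      exact le_of_tendsto' (tW s hs) (fun n => (hP n).Wbd s hs)
  refine ⟨U, W, hlim.U0, hlim.Uanti, hlim.Ubd, hlim.W0, hlim.Wanti, hlim.Wbd, ?_, ?_⟩
  · intro s hs
    have h1 : Tendsto (fun n => ∫ t in Set.Ioi (max s 3), (FP.it n).2 (t - 1)) atTop
        (𝓝 (∫ t in Set.Ioi (max s 3), W (t - 1))) := by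
      refine tendsto_integral_of_dominated_convergence (fun t => 21 * HW (t - 1)) ?_ ?_ ?_ ?_
      · intro n
        exact ((FP.intW hcon (hP n)).mono_set (Ioi_subset_Ioi (le_max_right _ _))).1
      · exact IntegrableOn.mono_set (s := Ioi 3) (t := Ioi 3) (hcon.1.const_mul 21) (le_rfl) |>.mono_set (Ioi_subset_Ioi (le_max_right _ _))
      · intro n
        refine (ae_restrict_iff' measurableSet_Ioi).2 (Filter.Eventually.of_forall ?_)
        intro t ht
        simp only [mem_Ioi] at ht
        have := le_max_right s 3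
        rw [Real.norm_of_nonneg ((hP n).W0 _ (by linarith))]
        exact (hP n).Wbd _ (by linarith)
      · refine (ae_restrict_iff' measurableSet_Ioi).2 (Filter.Eventually.of_forall ?_)
        intro t ht
        simp only [mem_Ioi] at ht
        have := le_max_right s 3
        exact tW _ (by linarith)
    have h2 : Tendsto (fun n => (FP.it (n + 1)).1 s) atTop
        (𝓝 ((max (3 - s) 0 + ∫ t in Set.Ioi (max s 3), W (t - 1)) / s)) := by
      show Tendsto (fun n => (max (3 - s) 0 + ∫ t in Set.Ioi (max s 3), (FP.it n).2 (t - 1)) / s) _ _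
      exact (h1.const_add _).div_const _
    have h3 := tendsto_nhds_unique ((tendsto_add_atTop_iff_nat 1).2 (tU s hs)) h2
    rw [h3]
    field_simp
  · intro s hs
    have h1 : Tendsto (fun n => ∫ t in Set.Ioi s, (FP.it n).1 (t - 1)) atTop
        (𝓝 (∫ t in Set.Ioi s, U (t - 1))) := by
      refine tendsto_integral_of_dominated_convergence (fun t => 21 * HU (t - 1)) ?_ ?_ ?_ ?_
      · intro n
        exact ((FP.intU hcon (hP n)).mono_set (Ioi_subset_Ioi hs)).1
      · exact IntegrableOn.mono_set (s := Ioi 2) (t := Ioi 2) (hcon.2.1.const_mul 21) (le_rfl) |>.mono_set (Ioi_subset_Ioi hs)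
      · intro n
        refine (ae_restrict_iff' measurableSet_Ioi).2 (Filter.Eventually.of_forall ?_)
        intro t ht
        simp only [mem_Ioi] at ht
        rw [Real.norm_of_nonneg ((hP n).U0 _ (by linarith))]
        exact (hP n).Ubd _ (by linarith)
      · refine (ae_restrict_iff' measurableSet_Ioi).2 (Filter.Eventually.of_forall ?_)
        intro t ht
        simp only [mem_Ioi] at ht
        exact tU _ (by linarith)
    have h2 : Tendsto (fun n => (FP.it (n + 1)).2 s) atTop
        (𝓝 ((∫ t in Set.Ioi s, U (t - 1)) / s)) := by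
      show Tendsto (fun n => (∫ t in Set.Ioi s, (FP.it n).1 (t - 1)) / s) _ _
      exact h1.div_const _
    have h3 := tendsto_nhds_unique ((tendsto_add_atTop_iff_nat 1).2 (tW s hs)) h2
    have h4 : s ≠ 0 := by linarith
    rw [h3]
    field_simp

end Pool.Agent.TCub
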