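import Pool.Agent.TCub.Stmts

open Finset

namespace Pool.Agent.TCub

namespace Fej

theorem ee_add (s t : ℝ) : ee (s + t) = ee s * ee t := by
  unfold ee
  rw [← Complex.exp_add]
  congr 1
  push_cast
  ring

theorem ee_zero : ee 0 = 1 := by
  unfold ee
  simp

theorem conj_ee (t : ℝ) : (starRingEnd ℂ) (ee t) = ee (-t) := by
  unfold ee
  rw [← Complex.exp_conj]
  congr 1
  simp only [map_mul, Complex.conj_ofReal, Complex.conj_I, map_ofNat]
  push_cast
  ring

theorem norm_ee (t : ℝ) : ‖ee t‖ = 1 := by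
  unfold ee
  have : (2 * (Real.pi : ℂ) * (t : ℂ) * Complex.I) = ((2 * Real.pi * t : ℝ) : ℂ) * Complex.I := by
    push_cast
    ring
  rw [this, Complex.norm_exp_ofReal_mul_I]

theorem ee_int (n : ℤ) : ee n = 1 := by
  unfold ee
  rw [Complex.exp_eq_one_iff]
  exact ⟨n, by push_cast; ring⟩

/-- `∑_{j<n} e(jθ)` -/
noncomputable def S (θ : ℝ) (n : ℕ) : ℂ := ∑ j ∈ Finset.range n, ee ((j : ℝ) * θ)

noncomputable def E (θ : ℝ) (n : ℕ) : ℂ := ∑ h ∈ Finset.Icc (-(n : ℤ)) n, ee ((h : ℝ) * θ)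

theorem Icc_succ (n : ℕ) : Finset.Icc (-((n + 1 : ℕ) : ℤ)) ((n + 1 : ℕ) : ℤ) =
    insert ((n : ℤ) + 1) (insert (-((n : ℤ) + 1)) (Finset.Icc (-(n:ℤ)) n)) := by
  ext t
  simp only [Finset.mem_Icc, Finset.mem_insert]
  push_cast
  omega

theorem E_succ (θ : ℝ) (n : ℕ) : E θ (n + 1) =
    ee (((n : ℝ) + 1) * θ) + ee (-((n : ℝ) + 1) * θ) + E θ n := by
  unfold E
  rw [Icc_succ, Finset.sum_insert, Finset.sum_insert]
  · push_cast
    ring
  · simp only [Finset.mem_Icc]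
    omega
  · simp only [Finset.mem_insert, Finset.mem_Icc]
    omega

theorem E_eq (θ : ℝ) (n : ℕ) : E θ n =
    ∑ j ∈ Finset.range n, (ee (((j : ℝ) - n) * θ) + ee (((n : ℝ) - j) * θ)) + 1 := by
  induction n with
  | zero =>
    unfold E
    simp [ee_zero]
  | succ n ih =>
    rw [E_succ, ih, Finset.sum_range_succ']
    have e : ∀ j : ℕ, ee ((((j + 1 : ℕ) : ℝ) - ((n + 1 : ℕ) : ℝ)) * θ) +
        ee ((((n + 1 : ℕ) : ℝ) - ((j + 1 : ℕ) : ℝ)) * θ) =
        ee (((j : ℝ) - n) * θ) + ee (((n : ℝ) - j) * θ) := by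
      intro j
      push_cast
      congr 2 <;> ring
    rw [Finset.sum_congr rfl (fun j _ => e j)]
    push_cast
    rw [zero_sub, sub_zero]
    ring

theorem conj_S (θ : ℝ) (n : ℕ) : (starRingEnd ℂ) (S θ n) =
    ∑ j ∈ Finset.range n, ee (-((j : ℝ) * θ)) := by
  unfold S
  rw [map_sum]
  exact Finset.sum_congr rfl (fun j _ => conj_ee _)

theorem fejer (θ : ℝ) (n : ℕ) :
    ∑ h ∈ Finset.Icc (-(n : ℤ)) n, ((((n : ℝ) - |(h : ℝ)| : ℝ)) : ℂ) * ee ((h : ℝ) * θ) =
      S θ n * (starRingEnd ℂ) (S θ n) := by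
  induction n with
  | zero =>
    unfold S
    simp
  | succ n ih =>
    have h1 : ∑ h ∈ Finset.Icc (-((n + 1 : ℕ) : ℤ)) ((n + 1 : ℕ) : ℤ),
        (((((n + 1 : ℕ) : ℝ) - |(h : ℝ)| : ℝ)) : ℂ) * ee ((h : ℝ) * θ) =
        ∑ h ∈ Finset.Icc (-(n : ℤ)) n, ((((n : ℝ) - |(h : ℝ)| : ℝ)) : ℂ) * ee ((h : ℝ) * θ) +
          E θ n := by
      rw [Icc_succ, Finset.sum_insert, Finset.sum_insert]
      · have z1 : (((n + 1 : ℕ) : ℝ) - |(((n : ℤ) + 1 : ℤ) : ℝ)| : ℝ) = 0 := by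
          push_cast
          rw [abs_of_nonneg (by positivity)]
          ring
        have z2 : (((n + 1 : ℕ) : ℝ) - |((-((n : ℤ) + 1) : ℤ) : ℝ)| : ℝ) = 0 := by
          push_cast
          rw [abs_neg, abs_of_nonneg (by positivity)]
          ring
        rw [z1, z2]
        unfold E
        rw [← Finset.sum_add_distrib]
        simp only [Complex.ofReal_zero, zero_mul, zero_add]
        apply Finset.sum_congr rfl
        intro h _
        push_cast
        ring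
      · simp only [Finset.mem_Icc]
        omega
      · simp only [Finset.mem_insert, Finset.mem_Icc]
        omega
    rw [h1, ih, E_eq]
    have h2 : S θ (n + 1) = S θ n + ee ((n : ℝ) * θ) := by
      unfold S
      rw [Finset.sum_range_succ]
    rw [h2, map_add, conj_ee]
    have h3 : S θ n * ee (-((n : ℝ) * θ)) = ∑ j ∈ Finset.range n, ee (((j : ℝ) - n) * θ) := by
      unfold S
      rw [Finset.sum_mul]
      apply Finset.sum_congr rfl
      intro j _
      rw [← ee_add]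
      congr 1
      ring
    have h4 : ee ((n : ℝ) * θ) * (starRingEnd ℂ) (S θ n) =
        ∑ j ∈ Finset.range n, ee (((n : ℝ) - j) * θ) := by
      rw [conj_S, Finset.mul_sum]
      apply Finset.sum_congr rfl
      intro j _
      rw [← ee_add]
      congr 1
      ring
    have h5 : ee ((n : ℝ) * θ) * ee (-((n : ℝ) * θ)) = 1 := by
      rw [← ee_add, add_neg_cancel, ee_zero]
    rw [Finset.sum_add_distrib]
    calc S θ n * (starRingEnd ℂ) (S θ n) + (∑ j ∈ Finset.range n, ee (((j : ℝ) - n) * θ) +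
          ∑ j ∈ Finset.range n, ee (((n : ℝ) - j) * θ) + 1)
        = S θ n * (starRingEnd ℂ) (S θ n) + (S θ n * ee (-((n : ℝ) * θ)) +
          ee ((n : ℝ) * θ) * (starRingEnd ℂ) (S θ n) + ee ((n : ℝ) * θ) * ee (-((n : ℝ) * θ))) := by
          rw [h3, h4, h5]
      _ = _ := by ring

theorem geom (θ : ℝ) (n : ℕ) : S θ n * (ee θ - 1) = ee ((n : ℝ) * θ) - 1 := by
  induction n with
  | zero =>
    unfold S
    simp [ee_zero]
  | succ n ih =>
    have h2 : S θ (n + 1) = S θ n + ee ((n : ℝ) * θ) := by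
      unfold S
      rw [Finset.sum_range_succ]
    have h3 : ee (((n + 1 : ℕ) : ℝ) * θ) = ee ((n : ℝ) * θ) * ee θ := by
      rw [← ee_add]
      congr 1
      push_cast
      ring
    rw [h2, add_mul, ih, h3]
    ring

theorem norm_ee_sub_one (θ : ℝ) : ‖ee θ - 1‖ = 2 * |Real.sin (Real.pi * θ)| := by
  have h1 : ee θ = ee (θ / 2) * ee (θ / 2) := by
    rw [← ee_add]
    congr 1
    ring
  have h2 : (1 : ℂ) = ee (θ / 2) * ee (-(θ / 2)) := by
    rw [← ee_add, add_neg_cancel, ee_zero]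
  have h3 : ee θ - 1 = ee (θ / 2) * (ee (θ / 2) - ee (-(θ / 2))) := by
    rw [mul_sub, ← h1, ← h2]
  rw [h3, norm_mul, norm_ee, one_mul]
  have h4 : ee (θ / 2) - ee (-(θ / 2)) = 2 * Complex.I * ((Real.sin (Real.pi * θ) : ℝ) : ℂ) := by
    unfold ee
    rw [Complex.ofReal_sin, Complex.sin]
    have e1 : (2 * (Real.pi : ℂ) * ((θ / 2 : ℝ) : ℂ) * Complex.I) =
        ((Real.pi * θ : ℝ) : ℂ) * Complex.I := by
      push_cast
      ring
    have e2 : (2 * (Real.pi : ℂ) * ((-(θ / 2) : ℝ) : ℂ) * Complex.I) =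
        -((Real.pi * θ : ℝ) : ℂ) * Complex.I := by
      push_cast
      ring
    rw [e1, e2]
    ring_nf
    rw [Complex.I_sq]
    ring
  rw [h4, norm_mul, norm_mul, Complex.norm_I, Complex.norm_real, Real.norm_eq_abs]
  norm_num

theorem S_le (θ : ℝ) (n : ℕ) : ‖S θ n‖ ≤ n := by
  unfold S
  refine (norm_sum_le _ _).trans ?_
  simp [norm_ee]

theorem S_le' {θ : ℝ} (h0 : θ ≠ 0) (h1 : |θ| ≤ 1 / 2) (n : ℕ) : ‖S θ n‖ ≤ 1 / (2 * |θ|) := by
  have hθ : 0 < |θ| := abs_pos.2 h0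
  have h2 : ‖S θ n‖ * ‖ee θ - 1‖ ≤ 2 := by
    rw [← norm_mul, geom]
    refine (norm_sub_le _ _).trans ?_
    rw [norm_ee, norm_one]
    norm_num
  have h3 : 2 * |θ| ≤ |Real.sin (Real.pi * θ)| := by
    have hpi := Real.pi_pos
    have key : ∀ t : ℝ, 0 ≤ t → t ≤ 1 / 2 → 2 * t ≤ Real.sin (Real.pi * t) := by
      intro t ht0 ht1
      have := Real.mul_le_sin (x := Real.pi * t) (by positivity) (by nlinarith)
      have e : 2 / Real.pi * (Real.pi * t) = 2 * t := by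
        field_simp
      rw [e] at this
      exact this
    rcases abs_cases θ with ⟨ha, hb⟩ | ⟨ha, hb⟩
    · rw [ha] at h1 ⊢
      exact (key θ hb h1).trans (le_abs_self _)
    · rw [ha] at h1 ⊢
      have := key (-θ) (by linarith) h1
      rw [mul_neg, mul_neg, Real.sin_neg] at this
      rw [mul_neg]
      exact this.trans (neg_le_abs _)
  rw [norm_ee_sub_one] at h2
  rw [le_div_iff₀ (by positivity)]
  nlinarith [norm_nonneg (S θ n)]

theorem Fh_eq (H : ℕ) (θ : ℝ) : Fh H θ = (1 / (3 * (H:ℝ))) * ‖S θ (4 * H)‖ ^ 2 := rfl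

end Fej

open Fej in
theorem tFej : St_fej := by
  intro H hH
  have hHr : (1 : ℝ) ≤ H := by exact_mod_cast hH
  refine ⟨?_, ?_, ?_, ?_, ?_, ?_, ?_⟩
  · intro h
    unfold fej
    positivity
  · intro h hh
    unfold fej
    have h1 : |(h : ℝ)| ≤ H := by
      have : ((|h| : ℤ) : ℝ) ≤ ((H : ℤ) : ℝ) := by exact_mod_cast hh
      rw [Int.cast_abs] at this
      simpa using this
    have h2 : |(h : ℝ)| / (4 * H) ≤ 1 / 4 := by
      rw [div_le_div_iff₀ (by positivity) (by norm_num)]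
      linarith
    have h3 : (3 : ℝ) / 4 ≤ max 0 (1 - |(h:ℝ)| / (4 * H)) := le_max_of_le_right (by linarith)
    linarith
  · intro θ
    have h1 := fejer θ (4 * H)
    have e1 : (Fh H θ : ℂ) = ((1 / (3 * (H:ℝ)) : ℝ) : ℂ) * (S θ (4 * H) *
        (starRingEnd ℂ) (S θ (4 * H))) := by
      rw [Fh_eq, Complex.mul_conj, Complex.normSq_eq_norm_sq]
      push_cast
      ring
    rw [e1, ← h1, Finset.mul_sum]
    push_cast
    apply Finset.sum_congr rfl
    intro h hh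
    rw [Finset.mem_Icc] at hh
    have h2 : |(h : ℝ)| ≤ 4 * H := by
      rw [abs_le]
      constructor
      · have : (-(4 * (H : ℤ)) : ℤ) ≤ h := hh.1
        have h3 : ((-(4 * (H : ℤ)) : ℤ) : ℝ) ≤ (h : ℝ) := by exact_mod_cast this
        push_cast at h3
        exact h3
      · have : h ≤ 4 * (H : ℤ) := hh.2
        have h3 : (h : ℝ) ≤ ((4 * (H : ℤ) : ℤ) : ℝ) := by exact_mod_cast this
        push_cast at h3
        exact h3
    have h3 : fej H h = 1 / (3 * (H : ℝ)) * (4 * (H : ℝ) - |(h : ℝ)|) := by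
      unfold fej
      rw [max_eq_right]
      · field_simp
      · rw [sub_nonneg, div_le_one (by positivity)]
        exact h2
    rw [h3]
    push_cast
    ring
  · intro θ
    unfold Fh
    positivity
  · intro θ n
    rw [Fh_eq, Fh_eq]
    congr 3
    unfold S
    apply Finset.sum_congr rfl
    intro j _
    have e : (j : ℝ) * (θ + n) = (j : ℝ) * θ + (((j : ℤ) * n : ℤ) : ℝ) := by
      push_cast
      ring
    rw [e, ee_add, ee_int, mul_one]
  · intro θ
    rw [Fh_eq]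
    have h1 := S_le θ (4 * H)
    push_cast at h1
    have h2 : ‖S θ (4 * H)‖ ^ 2 ≤ (4 * (H : ℝ)) ^ 2 := pow_le_pow_left₀ (norm_nonneg _) h1 2
    have h3 : (1 / (3 * (H:ℝ))) * ‖S θ (4 * H)‖ ^ 2 ≤ (1 / (3 * (H:ℝ))) * (4 * (H : ℝ)) ^ 2 :=
      mul_le_mul_of_nonneg_left h2 (by positivity)
    have h4 : (1 / (3 * (H:ℝ))) * (4 * (H : ℝ)) ^ 2 = 16 / 3 * H := by
      field_simp
      ring
    linarith
  · intro θ h0 h1
    rw [Fh_eq]
    have hθ : 0 < |θ| := abs_pos.2 h0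
    have h2 := S_le' h0 h1 (4 * H)
    have h3 : ‖S θ (4 * H)‖ ^ 2 ≤ (1 / (2 * |θ|)) ^ 2 := pow_le_pow_left₀ (norm_nonneg _) h2 2
    have h4 : (1 / (3 * (H:ℝ))) * ‖S θ (4 * H)‖ ^ 2 ≤ (1 / (3 * (H:ℝ))) * (1 / (2 * |θ|)) ^ 2 :=
      mul_le_mul_of_nonneg_left h3 (by positivity)
    refine h4.trans ?_
    have h5 : (1 / (2 * |θ|)) ^ 2 = 1 / (4 * θ ^ 2) := by
      rw [div_pow, mul_pow, sq_abs]
      norm_num
    have hθ2 : 0 < θ ^ 2 := by positivity
    rw [h5, div_mul_div_comm, one_mul, div_le_div_iff₀ (by positivity) (by positivity)]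
    nlinarith

end Pool.Agent.TCub
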