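import Pool.Agent.TCub.Stmts

open Finset

namespace Pool.Agent.TCub

theorem tFermat : St_fermat := by
  intro z hz
  unfold F3 at hz
  have hinj : Function.Injective (fun x : ℤ => x ^ 3) := (Odd.strictMono_pow (by decide)).injective
  have key : ∀ x y : ℤ, x ^ 3 + y ^ 3 = 0 → x = - y := by
    intro x y h
    apply hinj
    show x ^ 3 = (-y) ^ 3
    rw [Odd.neg_pow (by decide)]
    linarith
  have hflt := fermatLastTheoremFor_iff_int.1 fermatLastTheoremThree
  by_cases h0 : z 0 = 0
  · left
    refine ⟨h0, key _ _ ?_⟩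
    rw [h0] at hz
    linarith
  by_cases h1 : z 1 = 0
  · right; left
    refine ⟨h1, key _ _ ?_⟩
    rw [h1] at hz
    linarith
  by_cases h2 : z 2 = 0
  · right; right
    refine ⟨h2, key _ _ ?_⟩
    rw [h2] at hz
    linarith
  · exfalso
    refine hflt (z 0) (z 1) (- z 2) h0 h1 (neg_ne_zero.2 h2) ?_
    rw [Odd.neg_pow (by decide)]
    linarith

end Pool.Agent.TCub
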