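import Pool.Agent.TCub.Stmts

open Finset

namespace Pool.Agent.TCub

namespace Fibre

/-- symmetric residue -/
def sr (L : ℕ) (x : ℤ) : ℤ := if 2 * (x % L) ≤ L then x % L else x % L - L

theorem sr_dvd (L : ℕ) (x : ℤ) : (L:ℤ) ∣ x - sr L x := by
  have h : (L:ℤ) ∣ x - x % L := Int.dvd_self_sub_emod
  unfold sr
  split_ifs
  · exact h
  · have : x - (x % L - L) = (x - x % L) + L := by ring
    rw [this]
    exact dvd_add h (dvd_refl _)

theorem sr_bd {L : ℕ} (hL : 1 ≤ L) (x : ℤ) : -(L:ℤ) < 2 * sr L x ∧ 2 * sr L x ≤ L := by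
  have hL' : (0:ℤ) < L := by exact_mod_cast hL
  have h0 := Int.emod_nonneg x hL'.ne'
  have h1 := Int.emod_lt_of_pos x hL'
  unfold sr
  split_ifs with h
  · constructor <;> omega
  · constructor <;> omega

theorem sr_mem {L : ℕ} (hL : 1 ≤ L) (x : Fin 3 → ℤ) : (fun i => sr L (x i)) ∈ symb L := by
  unfold symb
  rw [Fintype.mem_piFinset]
  intro i
  have := sr_bd hL (x i)
  rw [Finset.mem_filter, Finset.mem_Icc]
  refine ⟨⟨?_, ?_⟩, this⟩ <;> omega

theorem F3_congr {n : ℤ} {x y : Fin 3 → ℤ} (h : ∀ i, n ∣ x i - y i) : n ∣ F3 x - F3 y := by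
  have hc : ∀ i, n ∣ x i ^ 3 - y i ^ 3 := fun i => (h i).trans (sub_dvd_pow_sub_pow _ _ 3)
  have : F3 x - F3 y = (x 0 ^ 3 - y 0 ^ 3) + (x 1 ^ 3 - y 1 ^ 3) + (x 2 ^ 3 - y 2 ^ 3) := by
    unfold F3; ring
  rw [this]
  exact dvd_add (dvd_add (hc 0) (hc 1)) (hc 2)

theorem F3_dvd_congr {n : ℤ} {x y : Fin 3 → ℤ} (h : ∀ i, n ∣ x i - y i) (hx : n ∣ F3 x) :
    n ∣ F3 y := by
  have := F3_congr h
  have e : F3 y = F3 x - (F3 x - F3 y) := by ring
  rw [e]
  exact dvd_sub hx this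

theorem F3_smul (c : ℤ) (x : Fin 3 → ℤ) : F3 (fun i => c * x i) = c ^ 3 * F3 x := by
  unfold F3; ring

theorem mem_cone {d : ℕ} {x : Fin 3 → ℤ} :
    x ∈ cone d ↔ (∀ i, 0 ≤ x i ∧ x i < d) ∧ (d:ℤ) ∣ F3 x := by
  unfold cone
  rw [Finset.mem_filter, Fintype.mem_piFinset]
  simp only [Finset.mem_Ico]

theorem dvd_image {e m₁ m₂ : ℕ} (h12 : Nat.Coprime m₁ m₂) {x x' : Fin 3 → ℤ}
    (hx : x ∈ cone (e * m₁)) (hx' : x' ∈ cone (e * m₂)) :
    ((m₁ * m₂ : ℕ) : ℤ) ∣ F3 (fun i => m₂ * x i - m₁ * x' i) := by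
  rw [mem_cone] at hx hx'
  have h1 : (m₁ : ℤ) ∣ F3 (fun i => m₂ * x i - m₁ * x' i) := by
    have ha : (m₁ : ℤ) ∣ F3 (fun i => (m₂ : ℤ) * x i) := by
      rw [F3_smul]
      refine Dvd.dvd.mul_left ?_ _
      refine dvd_trans ?_ hx.2
      push_cast
      exact Dvd.intro_left _ rfl
    refine F3_dvd_congr (fun i => ?_) ha
    have : (m₂ : ℤ) * x i - (m₂ * x i - m₁ * x' i) = m₁ * x' i := by ring
    rw [this]
    exact Dvd.intro _ rfl
  have h2 : (m₂ : ℤ) ∣ F3 (fun i => m₂ * x i - m₁ * x' i) := by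
    have ha : (m₂ : ℤ) ∣ F3 (fun i => (-(m₁ : ℤ)) * x' i) := by
      rw [F3_smul]
      refine Dvd.dvd.mul_left ?_ _
      refine dvd_trans ?_ hx'.2
      push_cast
      exact Dvd.intro_left _ rfl
    refine F3_dvd_congr (fun i => ?_) ha
    have : -(m₁ : ℤ) * x' i - (m₂ * x i - m₁ * x' i) = m₂ * (-x i) := by ring
    rw [this]
    exact Dvd.intro _ rfl
  push_cast
  exact IsCoprime.mul_dvd (Nat.isCoprime_iff_coprime.2 h12) h1 h2

theorem eq_of_dvd {n a b : ℤ} (ha0 : 0 ≤ a) (ha : a < n) (hb0 : 0 ≤ b) (hb : b < n)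
    (h : n ∣ a - b) : a = b := by
  obtain ⟨c, hc⟩ := h
  have hn : 0 < n := by linarith
  have h1 : c < 1 := by
    by_contra hcc
    push Not at hcc
    nlinarith
  have h2 : -1 < c := by
    by_contra hcc
    push Not at hcc
    nlinarith
  have : c = 0 := by omega
  rw [this, mul_zero] at hc
  linarith

end Fibre

open Fibre in
theorem tFibre : St_fibre := by
  intro e m₁ m₂ he hm₁ hm₂ he1 he2 h12 f hf hper
  classical
  set L : ℕ := e * m₁ * m₂ with hLdef
  have hL : 1 ≤ L := Nat.mul_pos (Nat.mul_pos he hm₁) hm₂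
  have hc12 : IsCoprime (m₁:ℤ) (m₂:ℤ) := Nat.isCoprime_iff_coprime.2 h12
  have hce1 : IsCoprime (e:ℤ) (m₁:ℤ) := Nat.isCoprime_iff_coprime.2 he1
  have hce2 : IsCoprime (e:ℤ) (m₂:ℤ) := Nat.isCoprime_iff_coprime.2 he2
  set T := (symb L).filter (fun z => ((m₁ * m₂ : ℕ) : ℤ) ∣ F3 z) with hT
  set r : (Fin 3 → ℤ) × (Fin 3 → ℤ) → (Fin 3 → ℤ) :=
    fun p i => sr L (m₂ * p.1 i - m₁ * p.2 i) with hr
  have hmaps : ∀ p ∈ cone (e * m₁) ×ˢ cone (e * m₂), r p ∈ T := by
    rintro ⟨x, x'⟩ hp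
    rw [Finset.mem_product] at hp
    rw [hT, Finset.mem_filter]
    refine ⟨sr_mem hL _, ?_⟩
    refine F3_dvd_congr (fun i => ?_) (dvd_image h12 hp.1 hp.2)
    refine dvd_trans ?_ (sr_dvd L _)
    rw [hLdef]
    push_cast
    exact ⟨e, by ring⟩
  rw [← Finset.sum_product' (f := fun (x x' : Fin 3 → ℤ) => f (fun i => m₂ * x i - m₁ * x' i))]
  have e1 : ∑ p ∈ cone (e * m₁) ×ˢ cone (e * m₂), f (fun i => m₂ * p.1 i - m₁ * p.2 i) =
      ∑ p ∈ cone (e * m₁) ×ˢ cone (e * m₂), f (r p) := by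
    refine Finset.sum_congr rfl (fun p _ => hper _ _ (fun i => ?_))
    exact sr_dvd L _
  rw [e1, ← Finset.sum_fiberwise_of_maps_to hmaps, Finset.mul_sum]
  refine Finset.sum_le_sum (fun z _ => ?_)
  have e2 : ∑ p ∈ (cone (e * m₁) ×ˢ cone (e * m₂)).filter (fun p => r p = z), f (r p) =
      (((cone (e * m₁) ×ˢ cone (e * m₂)).filter (fun p => r p = z)).card : ℝ) * f z := by
    rw [Finset.sum_congr rfl (g := fun _ => f z)
      (fun p hp => by rw [(Finset.mem_filter.1 hp).2]), Finset.sum_const, nsmul_eq_mul]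
  rw [e2]
  refine mul_le_mul_of_nonneg_right ?_ (hf z)
  have hcard : ((cone (e * m₁) ×ˢ cone (e * m₂)).filter (fun p => r p = z)).card ≤ rho e := by
    unfold rho
    refine Finset.card_le_card_of_injOn (fun p i => p.1 i % e) ?_ ?_
    · rintro ⟨x, x'⟩ hp
      rw [Finset.mem_coe, Finset.mem_filter, Finset.mem_product] at hp
      have hx := mem_cone.1 hp.1.1
      rw [Finset.mem_coe, mem_cone]
      have he' : (0:ℤ) < e := by exact_mod_cast he
      refine ⟨fun i => ⟨Int.emod_nonneg _ he'.ne', Int.emod_lt_of_pos _ he'⟩, ?_⟩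
      refine F3_dvd_congr (x := x) (fun i => Int.dvd_self_sub_emod) (dvd_trans ?_ hx.2)
      push_cast
      exact Dvd.intro _ rfl
    · rintro ⟨x, x'⟩ hp ⟨y, y'⟩ hq hxy
      rw [Finset.mem_coe, Finset.mem_filter, Finset.mem_product] at hp hq
      have hx := mem_cone.1 hp.1.1
      have hx' := mem_cone.1 hp.1.2
      have hy := mem_cone.1 hq.1.1
      have hy' := mem_cone.1 hq.1.2
      simp only at hx hx' hy hy' hxy
      have hLd : ∀ i, (L:ℤ) ∣ (m₂ * x i - m₁ * x' i) - (m₂ * y i - m₁ * y' i) := by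
        intro i
        have hrr : r (x, x') i = r (y, y') i := by rw [hp.2, hq.2]
        simp only [hr] at hrr
        have d1 := sr_dvd L (m₂ * x i - m₁ * x' i)
        have d2 := sr_dvd L (m₂ * y i - m₁ * y' i)
        rw [hrr] at d1
        have := dvd_sub d1 d2
        have e : (m₂ * x i - m₁ * x' i) - (m₂ * y i - m₁ * y' i) =
          (m₂ * x i - m₁ * x' i - sr L (m₂ * y i - m₁ * y' i)) -
            (m₂ * y i - m₁ * y' i - sr L (m₂ * y i - m₁ * y' i)) := by ring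
        rw [e]
        exact this
      have hxe : x = y := by
        funext i
        have de : (e:ℤ) ∣ x i - y i := by
          have h1 : x i % e = y i % e := congrFun hxy i
          exact (Int.ModEq.symm h1).dvd
        have dm : (m₁:ℤ) ∣ x i - y i := by
          have h1 : (m₁:ℤ) ∣ m₂ * (x i - y i) := by
            have h2 : (m₁:ℤ) ∣ (m₂ * x i - m₁ * x' i) - (m₂ * y i - m₁ * y' i) := by
              refine dvd_trans ?_ (hLd i)
              rw [hLdef]
              push_cast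
              exact ⟨e * m₂, by ring⟩
            have e3 : (m₂:ℤ) * (x i - y i) =
              ((m₂ * x i - m₁ * x' i) - (m₂ * y i - m₁ * y' i)) + m₁ * (x' i - y' i) := by ring
            rw [e3]
            exact dvd_add h2 (Dvd.intro _ rfl)
          exact hc12.dvd_of_dvd_mul_left h1
        have := hce1.mul_dvd de dm
        exact eq_of_dvd (hx.1 i).1 (by exact_mod_cast (hx.1 i).2) (hy.1 i).1
          (by exact_mod_cast (hy.1 i).2) (by exact_mod_cast this)
      have hxe' : x' = y' := by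
        funext i
        have h1 : (L:ℤ) ∣ m₁ * (y' i - x' i) := by
          have := hLd i
          rw [hxe] at this
          have e3 : (m₁:ℤ) * (y' i - x' i) = (m₂ * y i - m₁ * x' i) - (m₂ * y i - m₁ * y' i) := by
            ring
          rw [e3]
          exact this
        have h2 : ((e * m₂ : ℕ) : ℤ) ∣ y' i - x' i := by
          have e4 : (L:ℤ) = m₁ * ((e * m₂ : ℕ) : ℤ) := by
            rw [hLdef]; push_cast; ring
          rw [e4] at h1
          exact Int.dvd_of_mul_dvd_mul_left (by positivity) h1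
        exact (eq_of_dvd (hy'.1 i).1 (hy'.1 i).2 (hx'.1 i).1 (hx'.1 i).2 h2).symm
      rw [hxe, hxe']
  exact_mod_cast hcard

end Pool.Agent.TCub
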