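import Pool.Agent.TCub.Stmts2

/- HINT: ||f||^(2s) = (sum)^s (conj sum)^s = sum over pairs e(k(Sum x^3 - Sum y^3)/N); sum over k<N of e(k m/N) = N if N|m else 0; |m| <= 4P^3 < N so N|m iff m=0. General s via Finset.prod_univ_sum (sum over piFinset). -/

open Finset

namespace Pool.Agent.TCub

namespace Four

lemma ee_add (a b : ℝ) : ee (a + b) = ee a * ee b := by
  unfold ee
  rw [← Complex.exp_add]
  congr 1
  push_cast
  ring

lemma ee_int (n : ℤ) : ee (n : ℝ) = 1 := by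
  unfold ee
  rw [Complex.exp_eq_one_iff]
  refine ⟨n, ?_⟩
  push_cast
  ring

lemma ee_zero : ee 0 = 1 := by
  have := ee_int 0
  simpa using this

lemma ee_sum {ι : Type} (s : Finset ι) (f : ι → ℝ) : ee (∑ i ∈ s, f i) = ∏ i ∈ s, ee (f i) := by
  classical
  induction s using Finset.induction_on with
  | empty => simp [ee_zero]
  | insert a s ha ih => rw [Finset.sum_insert ha, Finset.prod_insert ha, ee_add, ih]

lemma ee_nat_mul (n : ℕ) (a : ℝ) : ee ((n:ℝ) * a) = ee a ^ n := by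
  induction n with
  | zero => simp [ee_zero]
  | succ n ih =>
    rw [pow_succ, ← ih, ← ee_add]
    congr 1
    push_cast
    ring

lemma ee_conj (t : ℝ) : (starRingEnd ℂ) (ee t) = ee (-t) := by
  unfold ee
  rw [← Complex.exp_conj]
  congr 1
  have h2 : (starRingEnd ℂ) 2 = 2 := by
    have := Complex.conj_ofReal 2
    simpa using this
  rw [map_mul, map_mul, map_mul, h2, Complex.conj_ofReal, Complex.conj_ofReal, Complex.conj_I]
  push_cast
  ring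

lemma ee_eq_one {x : ℝ} (h : ee x = 1) : ∃ n : ℤ, x = n := by
  unfold ee at h
  rw [Complex.exp_eq_one_iff] at h
  obtain ⟨n, hn⟩ := h
  refine ⟨n, ?_⟩
  have h1 : (2 * Real.pi * Complex.I : ℂ) ≠ 0 := Complex.two_pi_I_ne_zero
  have h2 : (x : ℂ) = (n : ℂ) := by
    apply mul_right_cancel₀ h1
    rw [← hn]
    ring
  exact_mod_cast h2

/-- geometric sums -/
lemma geo (N : ℕ) (hN : 1 ≤ N) (m : ℤ) :
    ∑ k ∈ Finset.range N, ee ((k:ℝ) * (m:ℝ) / N) = if (N:ℤ) ∣ m then (N:ℂ) else 0 := by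
  have hN0 : (N:ℝ) ≠ 0 := by
    have : N ≠ 0 := by omega
    exact_mod_cast this
  have h1 : ∀ k : ℕ, ee ((k:ℝ) * (m:ℝ) / N) = ee ((m:ℝ) / N) ^ k := by
    intro k
    rw [← ee_nat_mul, mul_div_assoc]
  rw [Finset.sum_congr rfl (fun k _ => h1 k)]
  split_ifs with h
  · obtain ⟨q, rfl⟩ := h
    have h2 : ((((N:ℤ) * q : ℤ)):ℝ) / N = (q : ℝ) := by
      push_cast
      field_simp
    rw [h2, ee_int]
    simp
  · have hne : ee ((m:ℝ) / N) ≠ 1 := by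
      intro h2
      obtain ⟨n, hn⟩ := ee_eq_one h2
      apply h
      refine ⟨n, ?_⟩
      rw [div_eq_iff hN0] at hn
      have : (m:ℝ) = (((N:ℤ) * n : ℤ) : ℝ) := by
        rw [hn]
        push_cast
        ring
      exact_mod_cast this
    have hpow : ee ((m:ℝ) / N) ^ N = 1 := by
      rw [← ee_nat_mul]
      have : (N:ℝ) * ((m:ℝ) / N) = (m:ℝ) := by field_simp
      rw [this, ee_int]
    rw [geom_sum_eq hne, hpow, sub_self, zero_div]

/-- the box -/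
def A (s P : ℕ) : Finset (Fin s → ℕ) := Fintype.piFinset fun _ : Fin s => Finset.Icc 1 P

/-- the difference of the sums of cubes -/
def D {s : ℕ} (t : (Fin s → ℕ) × (Fin s → ℕ)) : ℤ :=
  ((∑ i, t.1 i ^ 3 : ℕ) : ℤ) - ((∑ i, t.2 i ^ 3 : ℕ) : ℤ)

lemma pow_expand (s P N k : ℕ) :
    (fN P N k) ^ s = ∑ x ∈ A s P, ee ((k:ℝ) * ((∑ i, x i ^ 3 : ℕ) : ℝ) / N) := by
  have h1 : (fN P N k) ^ s = ∏ _i : Fin s, fN P N k := by
    rw [Finset.prod_const, Finset.card_univ, Fintype.card_fin]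
  rw [h1]
  unfold fN
  rw [Finset.prod_univ_sum]
  apply Finset.sum_congr rfl
  intro x _
  rw [← ee_sum]
  congr 1
  push_cast
  rw [Finset.mul_sum, Finset.sum_div]

lemma norm_expand (s P N k : ℕ) :
    ((‖fN P N k‖ ^ (2 * s) : ℝ) : ℂ) = ∑ t ∈ A s P ×ˢ A s P, ee ((k:ℝ) * ((D t : ℤ) : ℝ) / N) := by
  have h1 : ((‖fN P N k‖ ^ (2 * s) : ℝ) : ℂ) =
      (fN P N k) ^ s * (starRingEnd ℂ) ((fN P N k) ^ s) := by
    rw [map_pow, ← mul_pow, Complex.mul_conj', pow_mul]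
    push_cast
    rfl
  rw [h1, pow_expand, map_sum, Finset.sum_mul_sum, Finset.sum_product]
  apply Finset.sum_congr rfl
  intro x _
  apply Finset.sum_congr rfl
  intro y _
  rw [ee_conj, ← ee_add]
  congr 1
  unfold D
  push_cast
  ring

lemma sum_le {s P : ℕ} {x : Fin s → ℕ} (hx : x ∈ A s P) : ∑ i, x i ^ 3 ≤ s * P ^ 3 := by
  unfold A at hx
  rw [Fintype.mem_piFinset] at hx
  have h1 : ∀ i ∈ (Finset.univ : Finset (Fin s)), x i ^ 3 ≤ P ^ 3 := by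
    intro i _
    exact Nat.pow_le_pow_left (Finset.mem_Icc.mp (hx i)).2 3
  have h2 := Finset.sum_le_card_nsmul Finset.univ (fun i => x i ^ 3) (P ^ 3) h1
  rw [Finset.card_univ, Fintype.card_fin, smul_eq_mul] at h2
  exact h2

lemma abs_D_le {s P : ℕ} {t : (Fin s → ℕ) × (Fin s → ℕ)} (ht : t ∈ A s P ×ˢ A s P) :
    |D t| ≤ (s:ℤ) * (P:ℤ) ^ 3 := by
  rw [Finset.mem_product] at ht
  have h1 : ((∑ i, t.1 i ^ 3 : ℕ) : ℤ) ≤ (s:ℤ) * (P:ℤ) ^ 3 := by exact_mod_cast sum_le ht.1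
  have h2 : ((∑ i, t.2 i ^ 3 : ℕ) : ℤ) ≤ (s:ℤ) * (P:ℤ) ^ 3 := by exact_mod_cast sum_le ht.2
  have h3 : (0:ℤ) ≤ ((∑ i, t.1 i ^ 3 : ℕ) : ℤ) := Int.natCast_nonneg _
  have h4 : (0:ℤ) ≤ ((∑ i, t.2 i ^ 3 : ℕ) : ℤ) := Int.natCast_nonneg _
  unfold D
  rw [abs_le]
  constructor <;> linarith

lemma D_zero {s : ℕ} (t : (Fin s → ℕ) × (Fin s → ℕ)) :
    D t = 0 ↔ ∑ i, t.1 i ^ 3 = ∑ i, t.2 i ^ 3 := by
  unfold D
  rw [sub_eq_zero]
  exact Int.natCast_inj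

lemma dvd_iff {N : ℕ} {m : ℤ} (h : |m| < N) : (N:ℤ) ∣ m ↔ m = 0 := by
  constructor
  · intro h1
    exact Int.eq_zero_of_abs_lt_dvd h1 h
  · rintro rfl
    exact dvd_zero _

end Four

open Four in
theorem tFour : St_four := by
  intro s P N hP hs hN
  have hN1 : 1 ≤ N := by omega
  apply Complex.ofReal_injective
  push_cast
  have h1 : ∑ k ∈ Finset.range N, ((‖fN P N k‖ : ℂ)) ^ (2 * s) =
      ∑ k ∈ Finset.range N, ∑ t ∈ A s P ×ˢ A s P, ee ((k:ℝ) * ((D t : ℤ) : ℝ) / N) := by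
    apply Finset.sum_congr rfl
    intro k _
    rw [← norm_expand]
    push_cast
    rfl
  rw [h1, Finset.sum_comm]
  have h2 : ∀ t ∈ A s P ×ˢ A s P, ∑ k ∈ Finset.range N, ee ((k:ℝ) * ((D t : ℤ) : ℝ) / N) =
      if ∑ i, t.1 i ^ 3 = ∑ i, t.2 i ^ 3 then (N:ℂ) else 0 := by
    intro t ht
    rw [geo N hN1]
    have h3 := abs_D_le ht
    have h4 : |D t| < N := by
      refine h3.trans_lt ?_
      have h5 : (s:ℤ) * (P:ℤ) ^ 3 ≤ 4 * (P:ℤ) ^ 3 := by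
        apply mul_le_mul_of_nonneg_right _ (by positivity)
        exact_mod_cast hs
      have h6 : (0:ℤ) < (P:ℤ) ^ 3 := by positivity
      have h7 : 8 * (P:ℤ) ^ 3 < N := by exact_mod_cast hN
      linarith
    have h5 : ((N:ℤ) ∣ D t) ↔ ∑ i, t.1 i ^ 3 = ∑ i, t.2 i ^ 3 := by
      rw [dvd_iff h4, D_zero]
    by_cases h6 : ∑ i, t.1 i ^ 3 = ∑ i, t.2 i ^ 3
    · rw [if_pos h6, if_pos (h5.mpr h6)]
    · rw [if_neg h6, if_neg (fun h => h6 (h5.mp h))]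
  rw [Finset.sum_congr rfl h2, ← Finset.sum_filter, Finset.sum_const, nsmul_eq_mul, mul_comm]
  rfl

end Pool.Agent.TCub
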