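import Pool.Agent.TCub.Stmts

open Finset

namespace Pool.Agent.TCub

theorem tGbox (hV : St_V) : St_gbox := by
  classical
  obtain ⟨hg0, hg1, hM, _, _⟩ := hV
  intro N j ε hN hj hε
  set Lj : ℝ := Real.log (((j:ℝ) + 1) / j) with hLj
  have hj0 : (0:ℝ) < j := by exact_mod_cast hj
  have hN0 : (0:ℝ) < N := by exact_mod_cast hN
  have hLj0 : 0 < Lj := Real.log_pos (by rw [lt_div_iff₀ hj0]; linarith)
  have hε' : 0 < Real.exp (ε * Lj) - 1 := by
    have : (1:ℝ) < Real.exp (ε * Lj) := Real.one_lt_exp_iff.2 (mul_pos hε hLj0)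
    linarith
  obtain ⟨u₀, hu₀, hmain⟩ := hM _ hε'
  refine ⟨max 3 (u₀ ^ (1000 * N)), ?_⟩
  intro M hMM
  have hM3 : 3 ≤ M := le_trans (le_max_left _ _) hMM
  have hMu : u₀ ^ (1000 * N) ≤ M := le_trans (le_max_right _ _) hMM
  have hM1 : (1:ℝ) < M := by exact_mod_cast (by omega : 1 < M)
  have hM0 : (0:ℝ) < M := by linarith
  have hlogM : 0 < Real.log M := Real.log_pos hM1
  have hu0 : (1:ℝ) ≤ u₀ := by exact_mod_cast (by omega : 1 ≤ u₀)
  set x : ℝ := (M:ℝ) ^ ((j:ℝ) / (1000 * N)) with hx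
  set y : ℝ := (M:ℝ) ^ (((j:ℝ) + 1) / (1000 * N)) with hy
  have hx0 : 0 < x := Real.rpow_pos_of_pos hM0 _
  have hy0 : 0 < y := Real.rpow_pos_of_pos hM0 _
  have hlogx : Real.log x = (j:ℝ) / (1000 * N) * Real.log M := Real.log_rpow hM0 _
  have hlogy : Real.log y = ((j:ℝ) + 1) / (1000 * N) * Real.log M := Real.log_rpow hM0 _
  have hlogx0 : 0 < Real.log x := by rw [hlogx]; positivity
  have hratio : Real.log y / Real.log x = ((j:ℝ) + 1) / j := by
    rw [hlogx, hlogy]; field_simp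
  have hux : (u₀:ℝ) ≤ x := by
    have h1 : ((u₀:ℝ) ^ (1000 * N)) ≤ (M:ℝ) := by exact_mod_cast hMu
    have h2 : ((u₀:ℝ) ^ (1000 * N)) ^ ((j:ℝ) / (1000 * N)) ≤ x :=
      Real.rpow_le_rpow (by positivity) h1 (by positivity)
    have h3 : ((u₀:ℝ) ^ (1000 * N)) ^ ((j:ℝ) / (1000 * N)) = (u₀:ℝ) ^ j := by
      rw [← Real.rpow_natCast, ← Real.rpow_mul (by positivity), ← Real.rpow_natCast]
      congr 1
      push_cast
      field_simp
    rw [h3] at h2
    refine le_trans ?_ h2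
    calc (u₀:ℝ) = (u₀:ℝ) ^ 1 := (pow_one _).symm
      _ ≤ (u₀:ℝ) ^ j := pow_le_pow_right₀ hu0 hj
  have hxy : x ≤ y := by
    apply Real.rpow_le_rpow_of_exponent_le hM1.le
    apply div_le_div_of_nonneg_right (by linarith) (by positivity)
  have hkey := hmain u₀ le_rfl x y hux hxy
  rw [hratio] at hkey
  -- the primes of the box lie in the difference
  have hsub : bxp M N j ⊆ prs u₀ ⌈y⌉₊ \ prs u₀ ⌈x⌉₊ := by
    intro p hp
    unfold bxp at hp
    rw [Finset.mem_filter] at hp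
    obtain ⟨_, hpp, hlab⟩ := hp
    have hp0 : (0:ℝ) < p := by exact_mod_cast hpp.pos
    have hlp : 0 < Real.log p := Real.log_pos (by exact_mod_cast hpp.one_lt)
    unfold lab at hlab
    have hq : 0 ≤ 1000 * (N:ℝ) * Real.log p / Real.log M := by positivity
    have hlo : (j:ℝ) ≤ 1000 * (N:ℝ) * Real.log p / Real.log M := by
      rw [← hlab]; exact Nat.floor_le hq
    have hhi : 1000 * (N:ℝ) * Real.log p / Real.log M < (j:ℝ) + 1 := by
      rw [← hlab]; exact Nat.lt_floor_add_one _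
    have hxp : x ≤ p := by
      rw [← Real.log_le_log_iff hx0 hp0, hlogx]
      rw [le_div_iff₀ hlogM] at hlo
      rw [div_mul_eq_mul_div, div_le_iff₀ (by positivity)]
      linarith
    have hpy : (p:ℝ) < y := by
      rw [← Real.log_lt_log_iff hp0 hy0, hlogy]
      rw [div_lt_iff₀ hlogM] at hhi
      rw [div_mul_eq_mul_div, lt_div_iff₀ (by positivity)]
      linarith
    have hup : u₀ ≤ p := by exact_mod_cast hux.trans hxp
    rw [Finset.mem_sdiff]
    constructor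
    · unfold prs
      rw [Finset.mem_filter, Finset.mem_range, Nat.lt_ceil]
      exact ⟨hpy, hpp, hup⟩
    · unfold prs
      rw [Finset.mem_filter, Finset.mem_range, Nat.lt_ceil]
      intro h
      exact absurd h.1 (not_lt.2 hxp)
  have hprs : prs u₀ ⌈x⌉₊ ⊆ prs u₀ ⌈y⌉₊ := by
    intro p hp
    unfold prs at hp ⊢
    rw [Finset.mem_filter, Finset.mem_range] at hp ⊢
    exact ⟨lt_of_lt_of_le hp.1 (Nat.ceil_mono hxy), hp.2⟩
  have hpr : ∀ S : Finset ℕ, (∀ p ∈ S, p.Prime) → ∀ p ∈ S, 0 < 1 - gd p ∧ 1 - gd p ≤ 1 := by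
    intro S hS p hp
    have h1 := hg0 p (hS p hp)
    have h2 := hg1 p (hS p hp)
    constructor <;> linarith
  have hprime : ∀ w, ∀ p ∈ prs u₀ w, p.Prime := by
    intro w p hp
    unfold prs at hp
    exact (Finset.mem_filter.1 hp).2.1
  have hVx : 0 < VV gd u₀ ⌈x⌉₊ := by
    unfold VV
    exact Finset.prod_pos fun p hp => (hpr _ (hprime _) p hp).1
  have hbprime : ∀ p ∈ bxp M N j, p.Prime := by
    intro p hp
    unfold bxp at hp
    exact (Finset.mem_filter.1 hp).2.1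
  have hVy : VV gd u₀ ⌈y⌉₊ ≤ VV gd u₀ ⌈x⌉₊ * Real.exp (-∑ p ∈ bxp M N j, gd p) := by
    have h1 : VV gd u₀ ⌈y⌉₊ =
        (∏ p ∈ prs u₀ ⌈y⌉₊ \ prs u₀ ⌈x⌉₊, (1 - gd p)) * VV gd u₀ ⌈x⌉₊ := by
      unfold VV
      rw [Finset.prod_sdiff hprs]
    have h2 : ∏ p ∈ prs u₀ ⌈y⌉₊ \ prs u₀ ⌈x⌉₊, (1 - gd p) ≤ ∏ p ∈ bxp M N j, (1 - gd p) := by
      apply Finset.prod_le_prod_of_subset_of_le_one hsub
      · intro p hp
        exact (hpr _ (hprime _) p (Finset.mem_sdiff.1 hp).1).1.le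
      · intro p hp _
        exact (hpr _ (hprime _) p (Finset.mem_sdiff.1 hp).1).2
    have h3 : ∏ p ∈ bxp M N j, (1 - gd p) ≤ Real.exp (-∑ p ∈ bxp M N j, gd p) := by
      rw [← Finset.sum_neg_distrib, Real.exp_sum]
      apply Finset.prod_le_prod
      · intro p hp; exact (hpr _ hbprime p hp).1.le
      · intro p _
        have := Real.add_one_le_exp (-gd p)
        linarith
    rw [h1, mul_comm]
    exact mul_le_mul_of_nonneg_left (h2.trans h3) hVx.le
  have hfin : VV gd u₀ ⌈x⌉₊ ≤ Real.exp (ε * Lj) * (((j:ℝ) + 1) / j) *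
      (VV gd u₀ ⌈x⌉₊ * Real.exp (-∑ p ∈ bxp M N j, gd p)) := by
    refine hkey.trans ?_
    have h4 : (1 + (Real.exp (ε * Lj) - 1)) = Real.exp (ε * Lj) := by ring
    rw [h4]
    apply mul_le_mul_of_nonneg_left hVy (by positivity)
  have h5 : ((j:ℝ) + 1) / j = Real.exp Lj := by
    rw [hLj, Real.exp_log (by positivity)]
  rw [h5] at hfin
  have h6 : (1:ℝ) ≤ Real.exp (ε * Lj + Lj - ∑ p ∈ bxp M N j, gd p) := by
    have h7 : Real.exp (ε * Lj) * Real.exp Lj *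
      (VV gd u₀ ⌈x⌉₊ * Real.exp (-∑ p ∈ bxp M N j, gd p)) =
      VV gd u₀ ⌈x⌉₊ * Real.exp (ε * Lj + Lj - ∑ p ∈ bxp M N j, gd p) := by
      rw [sub_eq_add_neg, Real.exp_add, Real.exp_add]; ring
    rw [h7] at hfin
    by_contra hcon
    push Not at hcon
    have := mul_lt_mul_of_pos_left hcon hVx
    rw [mul_one] at this
    linarith
  have h8 : 0 ≤ ε * Lj + Lj - ∑ p ∈ bxp M N j, gd p := by
    rwa [← Real.exp_zero, Real.exp_le_exp] at h6
  linarith

end Pool.Agent.TCub
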