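import Pool.Agent.TCub.Stmts

open Finset

namespace Pool.Agent.TCub

namespace Gexp

theorem prs_succ_pos {u w : ℕ} (h : w.Prime ∧ u ≤ w) : prs u (w + 1) = insert w (prs u w) := by
  ext p
  simp only [prs, mem_filter, mem_range, mem_insert]
  constructor
  · rintro ⟨h1, h2⟩
    rcases Nat.lt_succ_iff_lt_or_eq.mp h1 with h3 | h3
    · exact Or.inr ⟨h3, h2⟩
    · exact Or.inl h3
  · rintro (h1 | ⟨h1, h2⟩)
    · subst h1; exact ⟨Nat.lt_succ_self _, h⟩
    · exact ⟨Nat.lt_succ_of_lt h1, h2⟩

theorem prs_succ_neg {u w : ℕ} (h : ¬ (w.Prime ∧ u ≤ w)) : prs u (w + 1) = prs u w := by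
  ext p
  simp only [prs, mem_filter, mem_range]
  constructor
  · rintro ⟨h1, h2⟩
    rcases Nat.lt_succ_iff_lt_or_eq.mp h1 with h3 | h3
    · exact ⟨h3, h2⟩
    · subst h3; exact absurd h2 h
  · rintro ⟨h1, h2⟩
    exact ⟨Nat.lt_succ_of_lt h1, h2⟩

theorem not_mem_prs (u w : ℕ) : w ∉ prs u w := by
  simp [prs]

theorem VV_succ_pos (g : ℕ → ℝ) {u w : ℕ} (h : w.Prime ∧ u ≤ w) :
    VV g u (w + 1) = (1 - g w) * VV g u w := by
  unfold VV
  rw [prs_succ_pos h, prod_insert (not_mem_prs u w)]

theorem VV_succ_neg (g : ℕ → ℝ) {u w : ℕ} (h : ¬ (w.Prime ∧ u ≤ w)) :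
    VV g u (w + 1) = VV g u w := by
  unfold VV
  rw [prs_succ_neg h]

end Gexp

open Gexp

theorem tGexp : St_Gexp := by
  refine ⟨?_, ?_, ?_⟩
  · intro g c u w b L
    induction w with
    | zero => simp [GG, prs]
    | succ w ih =>
      by_cases h : w.Prime ∧ u ≤ w
      · rw [prs_succ_pos h]
        by_cases hb : b = true → 3 * c w < L
        · rw [filter_insert, if_pos hb, sum_insert (by simp [not_mem_prs])]
          have hc : w.Prime ∧ u ≤ w ∧ (b = true → 3 * c w < L) := ⟨h.1, h.2, hb⟩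
          rw [GG, if_pos hc, ih]
          ring
        · rw [filter_insert, if_neg hb]
          have hc : ¬ (w.Prime ∧ u ≤ w ∧ (b = true → 3 * c w < L)) := fun hh => hb hh.2.2
          rw [GG, if_neg hc, ih]
          ring
      · rw [prs_succ_neg h]
        have hc : ¬ (w.Prime ∧ u ≤ w ∧ (b = true → 3 * c w < L)) := fun hh => h ⟨hh.1, hh.2.1⟩
        rw [GG, if_neg hc, ih]
        ring
  · intro g u w
    induction w with
    | zero => simp [VV, prs]
    | succ w ih =>
      by_cases h : w.Prime ∧ u ≤ w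
      · rw [prs_succ_pos h, sum_insert (not_mem_prs u w), VV_succ_pos g h]
        have : (1 - g w) * VV g u w = VV g u w - g w * VV g u w := by ring
        rw [this]
        nth_rewrite 1 [ih]
        ring
      · rw [prs_succ_neg h, VV_succ_neg g h, ih]
  · intro g c u w hg
    induction w with
    | zero =>
      intro L
      simp [GG, VV, prs]
    | succ w ih =>
      intro L
      by_cases h : w.Prime ∧ u ≤ w
      · obtain ⟨hg0, hg1⟩ := hg w h.1
        obtain ⟨h1, h2, h3⟩ := ih L
        obtain ⟨h4, h5, -⟩ := ih (L - c w)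
        rw [VV_succ_pos g h]
        refine ⟨?_, ?_, mul_nonneg (by linarith) h3⟩
        · have hc : w.Prime ∧ u ≤ w ∧ (false = true → 3 * c w < L) := ⟨h.1, h.2, by simp⟩
          rw [GG, if_pos hc]
          have : g w * VV g u w ≤ g w * GG g c u w (!false) (L - c w) :=
            mul_le_mul_of_nonneg_left h5 hg0
          linarith
        · rw [GG]
          have h6 : g w * GG g c u w (!true) (L - c w) ≤ g w * VV g u w :=
            mul_le_mul_of_nonneg_left h4 hg0
          have h7 : 0 ≤ g w * VV g u w := mul_nonneg hg0 h3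
          split_ifs <;> linarith
      · obtain ⟨h1, h2, h3⟩ := ih L
        rw [VV_succ_neg g h]
        refine ⟨?_, ?_, h3⟩
        · have hc : ¬ (w.Prime ∧ u ≤ w ∧ (false = true → 3 * c w < L)) := fun hh => h ⟨hh.1, hh.2.1⟩
          rw [GG, if_neg hc]
          linarith
        · have hc : ¬ (w.Prime ∧ u ≤ w ∧ (true = true → 3 * c w < L)) := fun hh => h ⟨hh.1, hh.2.1⟩
          rw [GG, if_neg hc]
          linarith

end Pool.Agent.TCub
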