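import Pool.Agent.TCub.Stmts2

open Finset

namespace Pool.Agent.TCub

namespace J2b

/-- for a given sum `s` and given `s * (y1² - y1 y2 + y2²)` there are at most two pairs -/
lemma pair_unique {a b c d : ℕ} (hs : a + b = c + d) (hn : a ^ 3 + b ^ 3 = c ^ 3 + d ^ 3)
    (h0 : 1 ≤ a) : (a = c ∧ b = d) ∨ (a = d ∧ b = c) := by
  have hs' : (a:ℤ) + b = c + d := by exact_mod_cast hs
  have hn' : (a:ℤ) ^ 3 + b ^ 3 = c ^ 3 + d ^ 3 := by exact_mod_cast hn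
  have hpos : (0:ℤ) < a + b := by
    have : (1:ℤ) ≤ a := by exact_mod_cast h0
    positivity
  have hd : (d:ℤ) = a + b - c := by linarith
  have hprod : ((a:ℤ) + b) * ((c - a) * (c - b)) = 0 := by
    rw [hd] at hn'
    nlinarith [hn']
  rcases mul_eq_zero.mp hprod with h | h
  · omega
  · rcases mul_eq_zero.mp h with h | h
    · left; omega
    · right; omega

/-- number of representations of `n` as a sum of two cubes of positive integers -/
lemma card_pairs (P n : ℕ) (hn : n ≠ 0) :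
    (((Finset.Icc 1 P) ×ˢ (Finset.Icc 1 P)).filter
      (fun y : ℕ × ℕ => n = y.1 ^ 3 + y.2 ^ 3)).card ≤ 2 * n.divisors.card := by
  classical
  refine Finset.card_le_mul_card_image_of_maps_to (f := fun y : ℕ × ℕ => y.1 + y.2)
    (t := n.divisors) ?_ 2 ?_
  · intro y hy
    simp only [Finset.mem_filter, Finset.mem_product, Finset.mem_Icc] at hy
    rw [Nat.mem_divisors]
    refine ⟨?_, hn⟩
    rw [hy.2]
    exact Odd.nat_add_dvd_pow_add_pow y.1 y.2 (by decide)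
  · intro s hs
    by_cases he : ∃ y ∈ (((Finset.Icc 1 P) ×ˢ (Finset.Icc 1 P)).filter
      (fun y : ℕ × ℕ => n = y.1 ^ 3 + y.2 ^ 3)), y.1 + y.2 = s
    · obtain ⟨y, hy, hys⟩ := he
      simp only [Finset.mem_filter, Finset.mem_product, Finset.mem_Icc] at hy
      calc _ ≤ ({(y.1, y.2), (y.2, y.1)} : Finset (ℕ × ℕ)).card := by
            refine Finset.card_le_card ?_
            intro z hz
            simp only [Finset.mem_filter, Finset.mem_product, Finset.mem_Icc] at hz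
            have := pair_unique (a := y.1) (b := y.2) (c := z.1) (d := z.2)
              (by omega) (by omega) hy.1.1.1
            simp only [Finset.mem_insert, Finset.mem_singleton]
            rcases this with ⟨h1, h2⟩ | ⟨h1, h2⟩
            · left; ext <;> simp [h1, h2]
            · right; ext <;> simp [h1, h2]
        _ ≤ 2 := Finset.card_le_two
    · have : (((Finset.Icc 1 P) ×ˢ (Finset.Icc 1 P)).filter
      (fun y : ℕ × ℕ => n = y.1 ^ 3 + y.2 ^ 3)).filter (fun y => y.1 + y.2 = s) = ∅ := by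
        rw [Finset.filter_eq_empty_iff]
        intro y hy hys
        exact he ⟨y, hy, hys⟩
      rw [this]; simp

end J2b

/- HINT: x1^3+x2^3=y1^3+y2^3=n: for fixed (x1,x2) (P^2 choices), y1+y2 divides n<=2P^3 and given s=y1+y2 | n, y1^2-y1y2+y2^2=n/s fixes y1y2, so <=2 solutions: <= 2 tau(n) <= C P^eps. -/
theorem tJ2b (hdiv : St_div) : St_J2 := by
  classical
  intro ε hε
  obtain ⟨C, hC, hC2⟩ := hdiv (ε / 3) (by positivity) 1 le_rfl
  refine ⟨2 * (C * 2 ^ (ε / 3)), by positivity, ?_⟩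
  intro P hP
  have hP0 : (0:ℝ) < P := by exact_mod_cast hP
  -- `JJ 2 P = Σ_{x} #{y}`
  have hJ : JJ 2 P ≤ ∑ x ∈ (Finset.Icc 1 P) ×ˢ (Finset.Icc 1 P),
      (((Finset.Icc 1 P) ×ˢ (Finset.Icc 1 P)).filter
      (fun y : ℕ × ℕ => x.1 ^ 3 + x.2 ^ 3 = y.1 ^ 3 + y.2 ^ 3)).card := by
    rw [← Finset.card_sigma]
    unfold JJ
    refine Finset.card_le_card_of_injOn
      (fun t => (⟨(t.1 0, t.1 1), (t.2 0, t.2 1)⟩ : Σ _ : ℕ × ℕ, ℕ × ℕ)) ?_ ?_
    · intro t ht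
      simp only [Finset.coe_filter, Finset.mem_product, Fintype.mem_piFinset, Set.mem_ofPred_eq,
        Fin.sum_univ_two] at ht
      simp only [Finset.coe_sigma, Set.mem_sigma_iff, Finset.mem_coe, Finset.mem_product,
        Finset.mem_filter]
      exact ⟨⟨ht.1.1 0, ht.1.1 1⟩, ⟨ht.1.2 0, ht.1.2 1⟩, ht.2⟩
    · intro t _ t' _ h
      simp only [Sigma.mk.injEq, Prod.mk.injEq, heq_eq_eq] at h
      obtain ⟨⟨h1, h2⟩, h3, h4⟩ := h
      ext i
      · fin_cases i <;> simp [h1, h2]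
      · fin_cases i <;> simp [h3, h4]
  have hb : ∀ x ∈ (Finset.Icc 1 P) ×ˢ (Finset.Icc 1 P),
      ((((Finset.Icc 1 P) ×ˢ (Finset.Icc 1 P)).filter
      (fun y : ℕ × ℕ => x.1 ^ 3 + x.2 ^ 3 = y.1 ^ 3 + y.2 ^ 3)).card : ℝ) ≤
      2 * (C * 2 ^ (ε / 3)) * (P:ℝ) ^ ε := by
    intro x hx
    simp only [Finset.mem_product, Finset.mem_Icc] at hx
    have hx1 : 1 ≤ x.1 ^ 3 := Nat.one_le_pow _ _ hx.1.1
    have h1 := J2b.card_pairs P (x.1 ^ 3 + x.2 ^ 3) (by omega)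
    have h2 := (hC2 (x.1 ^ 3 + x.2 ^ 3) (by omega)).2
    have h3 : (((x.1 ^ 3 + x.2 ^ 3 : ℕ)) : ℝ) ≤ 2 * (P:ℝ) ^ 3 := by
      have h31 : x.1 ^ 3 ≤ P ^ 3 := Nat.pow_le_pow_left hx.1.2 3
      have h32 : x.2 ^ 3 ≤ P ^ 3 := Nat.pow_le_pow_left hx.2.2 3
      have : x.1 ^ 3 + x.2 ^ 3 ≤ 2 * P ^ 3 := by omega
      exact_mod_cast this
    have h4 : (((x.1 ^ 3 + x.2 ^ 3 : ℕ)) : ℝ) ^ (ε / 3) ≤ 2 ^ (ε / 3) * (P:ℝ) ^ ε := by
      refine (Real.rpow_le_rpow (by positivity) h3 (by positivity)).trans ?_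
      rw [Real.mul_rpow (by norm_num) (by positivity), ← Real.rpow_natCast, ← Real.rpow_mul hP0.le]
      refine le_of_eq ?_
      congr 2
      push_cast
      ring
    calc ((((Finset.Icc 1 P) ×ˢ (Finset.Icc 1 P)).filter
      (fun y : ℕ × ℕ => x.1 ^ 3 + x.2 ^ 3 = y.1 ^ 3 + y.2 ^ 3)).card : ℝ)
        ≤ ((2 * (x.1 ^ 3 + x.2 ^ 3).divisors.card : ℕ) : ℝ) := by exact_mod_cast h1
      _ = 2 * ((x.1 ^ 3 + x.2 ^ 3).divisors.card : ℝ) := by push_cast; ring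
      _ ≤ 2 * (C * (((x.1 ^ 3 + x.2 ^ 3 : ℕ)) : ℝ) ^ (ε / 3)) := by gcongr
      _ ≤ 2 * (C * (2 ^ (ε / 3) * (P:ℝ) ^ ε)) := by gcongr
      _ = _ := by ring
  calc (JJ 2 P : ℝ) ≤ ((∑ x ∈ (Finset.Icc 1 P) ×ˢ (Finset.Icc 1 P),
      (((Finset.Icc 1 P) ×ˢ (Finset.Icc 1 P)).filter
      (fun y : ℕ × ℕ => x.1 ^ 3 + x.2 ^ 3 = y.1 ^ 3 + y.2 ^ 3)).card : ℕ) : ℝ) := by
        exact_mod_cast hJ
    _ ≤ ∑ x ∈ (Finset.Icc 1 P) ×ˢ (Finset.Icc 1 P), 2 * (C * 2 ^ (ε / 3)) * (P:ℝ) ^ ε := by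
        push_cast
        exact Finset.sum_le_sum hb
    _ = 2 * (C * 2 ^ (ε / 3)) * ((P:ℝ) ^ 2 * (P:ℝ) ^ ε) := by
        rw [Finset.sum_const, Finset.card_product, Nat.card_Icc, nsmul_eq_mul]
        simp only [Nat.add_sub_cancel]
        push_cast
        ring
    _ = 2 * (C * 2 ^ (ε / 3)) * (P:ℝ) ^ (2 + ε) := by
        rw [Real.rpow_add hP0]
        norm_num

end Pool.Agent.TCub
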