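import Pool.Agent.TCub.Stmts2

open Finset

namespace Pool.Agent.TCub

/- HINT: Cauchy-Schwarz: (Sum_k|f|^6)^2 <= Sum|f|^4 Sum|f|^8, St_four with s=2,3,4 and N=8P^3+1: J3^2 <= J2 J4. -/
theorem tJ3b (hfour : St_four) (hJ2 : St_J2) (hJ4 : St_J4) : St_J3 := by
  intro ε hε
  obtain ⟨C2, hC2, h2⟩ := hJ2 ε hε
  obtain ⟨C4, hC4, h4⟩ := hJ4 ε hε
  refine ⟨Real.sqrt (C2 * C4), Real.sqrt_pos.mpr (mul_pos hC2 hC4), ?_⟩
  intro P hP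
  have hP0 : (0:ℝ) < P := by exact_mod_cast hP
  set N : ℕ := 8 * P ^ 3 + 1 with hN
  have hN0 : (0:ℝ) < N := by
    rw [hN]; push_cast; positivity
  have e2 := hfour 2 P N hP (by norm_num) (by omega)
  have e3 := hfour 3 P N hP (by norm_num) (by omega)
  have e4 := hfour 4 P N hP (by norm_num) (by omega)
  have cs := Finset.sum_mul_sq_le_sq_mul_sq (Finset.range N) (fun k => ‖fN P N k‖ ^ 2)
    (fun k => ‖fN P N k‖ ^ 4)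
  have r3 : ∑ k ∈ Finset.range N, ‖fN P N k‖ ^ 2 * ‖fN P N k‖ ^ 4 = (N:ℝ) * JJ 3 P := by
    rw [← e3]
    refine Finset.sum_congr rfl fun k _ => ?_
    ring
  have r2 : ∑ k ∈ Finset.range N, (‖fN P N k‖ ^ 2) ^ 2 = (N:ℝ) * JJ 2 P := by
    rw [← e2]
    refine Finset.sum_congr rfl fun k _ => ?_
    ring
  have r4 : ∑ k ∈ Finset.range N, (‖fN P N k‖ ^ 4) ^ 2 = (N:ℝ) * JJ 4 P := by
    rw [← e4]
    refine Finset.sum_congr rfl fun k _ => ?_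
    ring
  rw [r3, r2, r4] at cs
  have cs2 : (JJ 3 P : ℝ) ^ 2 ≤ (JJ 2 P : ℝ) * (JJ 4 P : ℝ) := by
    have : (N:ℝ) ^ 2 * (JJ 3 P : ℝ) ^ 2 ≤ (N:ℝ) ^ 2 * ((JJ 2 P : ℝ) * (JJ 4 P : ℝ)) := by
      nlinarith [cs]
    exact le_of_mul_le_mul_left this (by positivity)
  have hb2 := h2 P hP
  have hb4 := h4 P hP
  have hprod : (JJ 2 P : ℝ) * (JJ 4 P : ℝ) ≤
      (C2 * (P:ℝ) ^ (2 + ε)) * (C4 * (P:ℝ) ^ (5 + ε)) :=
    mul_le_mul hb2 hb4 (by positivity) (by positivity)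
  have heq : (C2 * (P:ℝ) ^ (2 + ε)) * (C4 * (P:ℝ) ^ (5 + ε)) =
      (Real.sqrt (C2 * C4) * (P:ℝ) ^ (7 / 2 + ε)) ^ 2 := by
    rw [mul_pow, Real.sq_sqrt (mul_pos hC2 hC4).le, ← Real.rpow_natCast, ← Real.rpow_mul hP0.le]
    have : (P:ℝ) ^ (2 + ε) * (P:ℝ) ^ (5 + ε) = (P:ℝ) ^ ((7 / 2 + ε) * ((2:ℕ):ℝ)) := by
      rw [← Real.rpow_add hP0]
      congr 1
      push_cast
      ring
    rw [← this]
    ring
  rw [heq] at hprod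
  exact abs_le_of_sq_le_sq' (cs2.trans hprod) (by positivity) |>.2

end Pool.Agent.TCub
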