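import Pool.Agent.TCub.Stmts2

/- HINT: N=8P^3+1 is not enough for the wrap: take N=20P^3 say. Sum_k |f|^8 <= Sum_k |f|^4 Re Sum_m c_m e(km/N) = Sum_m c_m Re Sum_k |f|^4 e(km/N) = N Sum_m c_m #{x1^3+x2^3-y1^3-y2^3 = -m} (|.|<=2P^3+6P^3<N) <= N(c_0 J2 + max_{m<>0} c_m P^4). (expand |f|^4 = f^2 conj f^2 as in St_four.) -/

open Finset

namespace Pool.Agent.TCub

namespace J4b

lemma ee_add (a b : ℝ) : ee (a + b) = ee a * ee b := by
  unfold ee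
  rw [← Complex.exp_add]
  congr 1
  push_cast
  ring

lemma ee_int (n : ℤ) : ee (n : ℝ) = 1 := by
  unfold ee
  rw [Complex.exp_eq_one_iff]
  refine ⟨n, ?_⟩
  push_cast
  ring

lemma ee_zero : ee 0 = 1 := by
  have := ee_int 0
  simpa using this

lemma ee_sum {ι : Type} (s : Finset ι) (f : ι → ℝ) : ee (∑ i ∈ s, f i) = ∏ i ∈ s, ee (f i) := by
  classical
  induction s using Finset.induction_on with
  | empty => simp [ee_zero]
  | insert a s ha ih => rw [Finset.sum_insert ha, Finset.prod_insert ha, ee_add, ih]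

lemma ee_nat_mul (n : ℕ) (a : ℝ) : ee ((n:ℝ) * a) = ee a ^ n := by
  induction n with
  | zero => simp [ee_zero]
  | succ n ih =>
    rw [pow_succ, ← ih, ← ee_add]
    congr 1
    push_cast
    ring

lemma ee_conj (t : ℝ) : (starRingEnd ℂ) (ee t) = ee (-t) := by
  unfold ee
  rw [← Complex.exp_conj]
  congr 1
  have h2 : (starRingEnd ℂ) 2 = 2 := by
    have := Complex.conj_ofReal 2
    simpa using this
  rw [map_mul, map_mul, map_mul, h2, Complex.conj_ofReal, Complex.conj_ofReal, Complex.conj_I]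
  push_cast
  ring

lemma ee_eq_one {x : ℝ} (h : ee x = 1) : ∃ n : ℤ, x = n := by
  unfold ee at h
  rw [Complex.exp_eq_one_iff] at h
  obtain ⟨n, hn⟩ := h
  refine ⟨n, ?_⟩
  have h1 : (2 * Real.pi * Complex.I : ℂ) ≠ 0 := Complex.two_pi_I_ne_zero
  have h2 : (x : ℂ) = (n : ℂ) := by
    apply mul_right_cancel₀ h1
    rw [← hn]
    ring
  exact_mod_cast h2

/-- geometric sums -/
lemma geo (N : ℕ) (hN : 1 ≤ N) (m : ℤ) :
    ∑ k ∈ Finset.range N, ee ((k:ℝ) * (m:ℝ) / N) = if (N:ℤ) ∣ m then (N:ℂ) else 0 := by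
  have hN0 : (N:ℝ) ≠ 0 := by
    have : N ≠ 0 := by omega
    exact_mod_cast this
  have h1 : ∀ k : ℕ, ee ((k:ℝ) * (m:ℝ) / N) = ee ((m:ℝ) / N) ^ k := by
    intro k
    rw [← ee_nat_mul, mul_div_assoc]
  rw [Finset.sum_congr rfl (fun k _ => h1 k)]
  split_ifs with h
  · obtain ⟨q, rfl⟩ := h
    have h2 : ((((N:ℤ) * q : ℤ)):ℝ) / N = (q : ℝ) := by
      push_cast
      field_simp
    rw [h2, ee_int]
    simp
  · have hne : ee ((m:ℝ) / N) ≠ 1 := by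
      intro h2
      obtain ⟨n, hn⟩ := ee_eq_one h2
      apply h
      refine ⟨n, ?_⟩
      rw [div_eq_iff hN0] at hn
      have : (m:ℝ) = (((N:ℤ) * n : ℤ) : ℝ) := by
        rw [hn]
        push_cast
        ring
      exact_mod_cast this
    have hpow : ee ((m:ℝ) / N) ^ N = 1 := by
      rw [← ee_nat_mul]
      have : (N:ℝ) * ((m:ℝ) / N) = (m:ℝ) := by field_simp
      rw [this, ee_int]
    rw [geom_sum_eq hne, hpow, sub_self, zero_div]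

/-- the box -/
def A (s P : ℕ) : Finset (Fin s → ℕ) := Fintype.piFinset fun _ : Fin s => Finset.Icc 1 P

/-- the difference of the sums of cubes -/
def D {s : ℕ} (t : (Fin s → ℕ) × (Fin s → ℕ)) : ℤ :=
  ((∑ i, t.1 i ^ 3 : ℕ) : ℤ) - ((∑ i, t.2 i ^ 3 : ℕ) : ℤ)

lemma pow_expand (s P N k : ℕ) :
    (fN P N k) ^ s = ∑ x ∈ A s P, ee ((k:ℝ) * ((∑ i, x i ^ 3 : ℕ) : ℝ) / N) := by
  have h1 : (fN P N k) ^ s = ∏ _i : Fin s, fN P N k := by
    rw [Finset.prod_const, Finset.card_univ, Fintype.card_fin]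
  rw [h1]
  unfold fN
  rw [Finset.prod_univ_sum]
  apply Finset.sum_congr rfl
  intro x _
  rw [← ee_sum]
  congr 1
  push_cast
  rw [Finset.mul_sum, Finset.sum_div]

lemma norm_expand (s P N k : ℕ) :
    ((‖fN P N k‖ ^ (2 * s) : ℝ) : ℂ) = ∑ t ∈ A s P ×ˢ A s P, ee ((k:ℝ) * ((D t : ℤ) : ℝ) / N) := by
  have h1 : ((‖fN P N k‖ ^ (2 * s) : ℝ) : ℂ) =
      (fN P N k) ^ s * (starRingEnd ℂ) ((fN P N k) ^ s) := by
    rw [map_pow, ← mul_pow, Complex.mul_conj', pow_mul]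
    push_cast
    rfl
  rw [h1, pow_expand, map_sum, Finset.sum_mul_sum, Finset.sum_product]
  apply Finset.sum_congr rfl
  intro x _
  apply Finset.sum_congr rfl
  intro y _
  rw [ee_conj, ← ee_add]
  congr 1
  unfold D
  push_cast
  ring

lemma sum_le {s P : ℕ} {x : Fin s → ℕ} (hx : x ∈ A s P) : ∑ i, x i ^ 3 ≤ s * P ^ 3 := by
  unfold A at hx
  rw [Fintype.mem_piFinset] at hx
  have h1 : ∀ i ∈ (Finset.univ : Finset (Fin s)), x i ^ 3 ≤ P ^ 3 := by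
    intro i _
    exact Nat.pow_le_pow_left (Finset.mem_Icc.mp (hx i)).2 3
  have h2 := Finset.sum_le_card_nsmul Finset.univ (fun i => x i ^ 3) (P ^ 3) h1
  rw [Finset.card_univ, Fintype.card_fin, smul_eq_mul] at h2
  exact h2

lemma abs_D_le {s P : ℕ} {t : (Fin s → ℕ) × (Fin s → ℕ)} (ht : t ∈ A s P ×ˢ A s P) :
    |D t| ≤ (s:ℤ) * (P:ℤ) ^ 3 := by
  rw [Finset.mem_product] at ht
  have h1 : ((∑ i, t.1 i ^ 3 : ℕ) : ℤ) ≤ (s:ℤ) * (P:ℤ) ^ 3 := by exact_mod_cast sum_le ht.1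
  have h2 : ((∑ i, t.2 i ^ 3 : ℕ) : ℤ) ≤ (s:ℤ) * (P:ℤ) ^ 3 := by exact_mod_cast sum_le ht.2
  have h3 : (0:ℤ) ≤ ((∑ i, t.1 i ^ 3 : ℕ) : ℤ) := Int.natCast_nonneg _
  have h4 : (0:ℤ) ≤ ((∑ i, t.2 i ^ 3 : ℕ) : ℤ) := Int.natCast_nonneg _
  unfold D
  rw [abs_le]
  constructor <;> linarith

lemma D_zero {s : ℕ} (t : (Fin s → ℕ) × (Fin s → ℕ)) :
    D t = 0 ↔ ∑ i, t.1 i ^ 3 = ∑ i, t.2 i ^ 3 := by
  unfold D
  rw [sub_eq_zero]
  exact Int.natCast_inj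

lemma dvd_iff {N : ℕ} {m : ℤ} (h : |m| < N) : (N:ℤ) ∣ m ↔ m = 0 := by
  constructor
  · intro h1
    exact Int.eq_zero_of_abs_lt_dvd h1 h
  · rintro rfl
    exact dvd_zero _

lemma card_AA (P : ℕ) : (A 2 P ×ˢ A 2 P).card = P ^ 4 := by
  rw [Finset.card_product]
  unfold A
  rw [Fintype.card_piFinset]
  simp
  ring

end J4b

open J4b in
theorem tJ4b (hfour : St_four) (hJ2 : St_J2) (hweyl : St_weyl) : St_J4 := by
  intro ε hε
  obtain ⟨C₁, hC₁, hw⟩ := hweyl ε hε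
  obtain ⟨C₂, hC₂, hJ⟩ := hJ2 ε hε
  refine ⟨C₁ * C₂ + C₁, by positivity, ?_⟩
  intro P hP
  obtain ⟨c, hc0, hcz, hcm, hF⟩ := hw P hP
  have hPr : (1:ℝ) ≤ P := by exact_mod_cast hP
  have hP0 : (0:ℝ) < P := by linarith
  have hP3 : 1 ≤ P ^ 3 := Nat.one_le_pow _ _ hP
  obtain ⟨N, hNdef⟩ : ∃ N, N = 20 * P ^ 3 := ⟨_, rfl⟩
  have hN1 : 1 ≤ N := by omega
  have hNr : (0:ℝ) < N := by
    have : 0 < N := by omega
    exact_mod_cast this
  have h4 := hfour 4 P N hP (by norm_num) (by omega)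
  -- the bound for the sum of the eighth powers
  have hb : ∑ k ∈ Finset.range N, ‖fN P N k‖ ^ (2 * 4) ≤
      ∑ k ∈ Finset.range N, ‖fN P N k‖ ^ (2 * 2) *
        (∑ m ∈ Finset.Icc (-(6 * (P:ℤ) ^ 3)) (6 * (P:ℤ) ^ 3), (c m : ℂ) * ee ((k:ℝ) * (m:ℝ) / N)).re := by
    apply Finset.sum_le_sum
    intro k _
    have h1 := hF N k hN1
    have h2 : ‖fN P N k‖ ^ (2 * 4) = ‖fN P N k‖ ^ (2 * 2) * ‖fN P N k‖ ^ 4 := by ring
    rw [h2]
    exact mul_le_mul_of_nonneg_left h1 (by positivity)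
  -- evaluation
  have he : ∑ k ∈ Finset.range N, ‖fN P N k‖ ^ (2 * 2) *
        (∑ m ∈ Finset.Icc (-(6 * (P:ℤ) ^ 3)) (6 * (P:ℤ) ^ 3), (c m : ℂ) * ee ((k:ℝ) * (m:ℝ) / N)).re =
      N * ∑ t ∈ A 2 P ×ˢ A 2 P, c (-(D t)) := by
    apply Complex.ofReal_injective.eq_iff.mp
    have h1 : ∀ k ∈ Finset.range N, ‖fN P N k‖ ^ (2 * 2) *
        (∑ m ∈ Finset.Icc (-(6 * (P:ℤ) ^ 3)) (6 * (P:ℤ) ^ 3), (c m : ℂ) * ee ((k:ℝ) * (m:ℝ) / N)).re =
        (((‖fN P N k‖ ^ (2 * 2) : ℝ) : ℂ) *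
        (∑ m ∈ Finset.Icc (-(6 * (P:ℤ) ^ 3)) (6 * (P:ℤ) ^ 3), (c m : ℂ) * ee ((k:ℝ) * (m:ℝ) / N))).re := by
      intro k _
      rw [Complex.re_ofReal_mul]
    rw [Finset.sum_congr rfl h1, ← Complex.re_sum]
    have h2 : ∑ k ∈ Finset.range N, ((‖fN P N k‖ ^ (2 * 2) : ℝ) : ℂ) *
        (∑ m ∈ Finset.Icc (-(6 * (P:ℤ) ^ 3)) (6 * (P:ℤ) ^ 3), (c m : ℂ) * ee ((k:ℝ) * (m:ℝ) / N)) =
        ((N * ∑ t ∈ A 2 P ×ˢ A 2 P, c (-(D t)) : ℝ) : ℂ) := by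
      have e1 : ∀ k ∈ Finset.range N, ((‖fN P N k‖ ^ (2 * 2) : ℝ) : ℂ) *
          (∑ m ∈ Finset.Icc (-(6 * (P:ℤ) ^ 3)) (6 * (P:ℤ) ^ 3), (c m : ℂ) * ee ((k:ℝ) * (m:ℝ) / N)) =
          ∑ t ∈ A 2 P ×ˢ A 2 P, ∑ m ∈ Finset.Icc (-(6 * (P:ℤ) ^ 3)) (6 * (P:ℤ) ^ 3),
            (c m : ℂ) * ee ((k:ℝ) * ((D t + m : ℤ) : ℝ) / N) := by
        intro k _
        rw [norm_expand, Finset.sum_mul]
        apply Finset.sum_congr rfl
        intro t _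
        rw [Finset.mul_sum]
        apply Finset.sum_congr rfl
        intro m _
        have : (k:ℝ) * ((D t + m : ℤ) : ℝ) / N =
            (k:ℝ) * ((D t : ℤ) : ℝ) / N + (k:ℝ) * (m:ℝ) / N := by
          push_cast
          ring
        rw [this, ee_add]
        ring
      rw [Finset.sum_congr rfl e1, Finset.sum_comm]
      rw [Complex.ofReal_mul, Complex.ofReal_natCast, Complex.ofReal_sum]
      rw [Finset.mul_sum]
      apply Finset.sum_congr rfl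
      intro t ht
      rw [Finset.sum_comm]
      have hD := abs_D_le ht
      have hD2 : |D t| ≤ 2 * (P:ℤ) ^ 3 := by exact_mod_cast hD
      obtain ⟨hDa, hDb⟩ := abs_le.mp hD2
      have hP3z : (1:ℤ) ≤ (P:ℤ) ^ 3 := by exact_mod_cast hP3
      have e2 : ∀ m ∈ Finset.Icc (-(6 * (P:ℤ) ^ 3)) (6 * (P:ℤ) ^ 3),
          ∑ k ∈ Finset.range N, (c m : ℂ) * ee ((k:ℝ) * ((D t + m : ℤ) : ℝ) / N) =
          if m = -(D t) then (N:ℂ) * (c (-(D t)) : ℂ) else 0 := by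
        intro m hm
        rw [Finset.mem_Icc] at hm
        rw [← Finset.mul_sum, geo N hN1]
        have h5 : |D t + m| < (N:ℤ) := by
          rw [hNdef]
          push_cast
          rw [abs_lt]
          constructor <;> linarith [hm.1, hm.2]
        rw [if_congr (dvd_iff h5) rfl rfl]
        by_cases h6 : m = -(D t)
        · rw [if_pos h6, if_pos (by rw [h6]; ring), h6]
          ring
        · rw [if_neg h6, if_neg (fun h => h6 (by linarith)), mul_zero]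
      rw [Finset.sum_congr rfl e2, Finset.sum_ite_eq' _ _ _, if_pos]
      rw [Finset.mem_Icc]
      constructor <;> linarith
    rw [h2, Complex.ofReal_re]
  -- the final bound
  have hc : ∑ t ∈ A 2 P ×ˢ A 2 P, c (-(D t)) ≤
      (JJ 2 P : ℝ) * c 0 + (P:ℝ) ^ 4 * (C₁ * (P:ℝ) ^ (1 + ε)) := by
    have h1 : ∀ t ∈ A 2 P ×ˢ A 2 P, c (-(D t)) ≤
        (if ∑ i, t.1 i ^ 3 = ∑ i, t.2 i ^ 3 then c 0 else 0) + C₁ * (P:ℝ) ^ (1 + ε) := by
      intro t _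
      by_cases h2 : ∑ i, t.1 i ^ 3 = ∑ i, t.2 i ^ 3
      · rw [if_pos h2, (D_zero t).mpr h2, neg_zero]
        have : 0 ≤ C₁ * (P:ℝ) ^ (1 + ε) := by positivity
        linarith
      · rw [if_neg h2, zero_add]
        apply hcm
        intro h3
        exact h2 ((D_zero t).mp (by linarith))
    refine (Finset.sum_le_sum h1).trans ?_
    rw [Finset.sum_add_distrib, Finset.sum_const, card_AA, nsmul_eq_mul, ← Finset.sum_filter,
      Finset.sum_const, nsmul_eq_mul]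
    apply le_of_eq
    congr 1
    push_cast
    rfl
  have hfin : (N:ℝ) * (JJ 4 P : ℝ) ≤ N * ((JJ 2 P : ℝ) * c 0 + (P:ℝ) ^ 4 * (C₁ * (P:ℝ) ^ (1 + ε))) := by
    rw [← h4]
    refine hb.trans ?_
    rw [he]
    exact mul_le_mul_of_nonneg_left hc hNr.le
  have hfin2 := le_of_mul_le_mul_left hfin hNr
  refine hfin2.trans ?_
  have h5 : (JJ 2 P : ℝ) * c 0 ≤ C₂ * (P:ℝ) ^ (2 + ε) * (C₁ * (P:ℝ) ^ 3) :=
    mul_le_mul (hJ P hP) hcz (hc0 0) (by positivity)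
  have e3 : C₂ * (P:ℝ) ^ (2 + ε) * (C₁ * (P:ℝ) ^ 3) = C₁ * C₂ * (P:ℝ) ^ (5 + ε) := by
    have : (P:ℝ) ^ (5 + ε) = (P:ℝ) ^ (2 + ε) * (P:ℝ) ^ 3 := by
      rw [← Real.rpow_natCast, ← Real.rpow_add hP0]
      congr 1
      push_cast
      ring
    rw [this]
    ring
  have e4 : (P:ℝ) ^ 4 * (C₁ * (P:ℝ) ^ (1 + ε)) = C₁ * (P:ℝ) ^ (5 + ε) := by
    have : (P:ℝ) ^ (5 + ε) = (P:ℝ) ^ (1 + ε) * (P:ℝ) ^ 4 := by
      rw [← Real.rpow_natCast, ← Real.rpow_add hP0]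
      congr 1
      push_cast
      ring
    rw [this]
    ring
  rw [e4]
  rw [e3] at h5
  calc (JJ 2 P : ℝ) * c 0 + C₁ * (P:ℝ) ^ (5 + ε) ≤
        C₁ * C₂ * (P:ℝ) ^ (5 + ε) + C₁ * (P:ℝ) ^ (5 + ε) := by linarith
    _ = (C₁ * C₂ + C₁) * (P:ℝ) ^ (5 + ε) := by ring

end Pool.Agent.TCub
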