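import Pool.Agent.TCub.Stmts

open Finset

namespace Pool.Agent.TCub

namespace Kuhn

lemma pen_nonneg (N : ℕ) (hN : 1 ≤ N) (j : ℕ) : 0 ≤ pen N j := by
  have hN0 : (0:ℝ) < N := by exact_mod_cast hN
  unfold pen
  split_ifs with h1 h2
  · have h3 : (j:ℝ) < 1405 * N := by exact_mod_cast h1.2
    have h4 : (j:ℝ) / (1000 * N) / (1405 / 1000) ≤ 1 := by
      rw [div_div, div_le_one (by positivity)]
      linarith
    nlinarith
  · have h3 : (j:ℝ) < 1405 * N := by exact_mod_cast h1.2
    have h4 : (j:ℝ) / (1000 * N) / (1405 / 1000) ≤ 1 := by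
      rw [div_div, div_le_one (by positivity)]
      linarith
    nlinarith
  · exact le_refl _

/-- lower bound for the penalty of a prime `p ≥ M^{0.425}` -/
lemma pen_ge (N M p : ℕ) (hN : 1 ≤ N) (hM : 1 < (M:ℝ)) (hp : 425 / 1000 * Real.log M ≤ Real.log p) :
    (1157 / 1000) * (1 - Real.log p / Real.log M / (1405 / 1000)) ≤ pen N (lab M N p) := by
  have hN0 : (0:ℝ) < N := by exact_mod_cast hN
  have hlog : 0 < Real.log M := Real.log_pos hM
  have hlp : 0 ≤ Real.log p := by nlinarith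
  have hq : 0 ≤ 1000 * (N:ℝ) * Real.log p / Real.log M := by positivity
  have hj1 : ((lab M N p : ℕ) : ℝ) ≤ 1000 * (N:ℝ) * Real.log p / Real.log M :=
    Nat.floor_le hq
  have hj2 : 1000 * (N:ℝ) * Real.log p / Real.log M < (lab M N p : ℕ) + 1 :=
    Nat.lt_floor_add_one _
  have hj3 : 425 * N ≤ lab M N p := by
    unfold lab
    apply Nat.le_floor
    push_cast
    rw [le_div_iff₀ hlog]
    nlinarith
  unfold pen
  by_cases h : lab M N p < 1405 * N
  · rw [if_pos ⟨hj3, h⟩]
    have h5 : ((lab M N p : ℕ) : ℝ) / (1000 * N) ≤ Real.log p / Real.log M := by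
      rw [div_le_iff₀ (by positivity)]
      refine hj1.trans (le_of_eq ?_)
      ring
    have h6 : ((lab M N p : ℕ) : ℝ) / (1000 * N) / (1405 / 1000) ≤
      Real.log p / Real.log M / (1405 / 1000) :=
      div_le_div_of_nonneg_right h5 (by norm_num)
    have h7 : (0:ℝ) ≤ (if 999 * N ≤ lab M N p ∧ lab M N p < 1001 * N then (1:ℝ) else 0) := by
      split_ifs <;> norm_num
    linarith
  · rw [if_neg (fun hc => h hc.2)]
    push Not at h
    have h8 : (1405:ℝ) * N ≤ (lab M N p : ℕ) := by exact_mod_cast h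
    have h9 : 1 ≤ Real.log p / Real.log M / (1405 / 1000) := by
      rw [le_div_iff₀ (by norm_num), le_div_iff₀ hlog]
      have h10 : (1405:ℝ) * N ≤ 1000 * (N:ℝ) * Real.log p / Real.log M := h8.trans hj1
      rw [le_div_iff₀ hlog] at h10
      have h11 : (N:ℝ) * (1405 * Real.log M) ≤ N * (1000 * Real.log p) := by linarith
      have h12 := le_of_mul_le_mul_left h11 hN0
      linarith
    linarith

/-- a prime in the middle -/
lemma pen_mid (N M p : ℕ) (hN : 1 ≤ N) (hM : 1 < (M:ℝ))
    (h1 : 999 / 1000 * Real.log M < Real.log p) (h2 : Real.log p < 1001 / 1000 * Real.log M) :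
    1 ≤ pen N (lab M N p) := by
  have hN0 : (0:ℝ) < N := by exact_mod_cast hN
  have hlog : 0 < Real.log M := Real.log_pos hM
  have hlp : 0 ≤ Real.log p := by nlinarith
  have hq : 0 ≤ 1000 * (N:ℝ) * Real.log p / Real.log M := by positivity
  have hj3 : 999 * N ≤ lab M N p := by
    unfold lab
    apply Nat.le_floor
    push_cast
    rw [le_div_iff₀ hlog]
    nlinarith
  have hj4 : lab M N p < 1001 * N := by
    unfold lab
    rw [Nat.floor_lt hq]
    push_cast
    rw [div_lt_iff₀ hlog]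
    nlinarith
  unfold pen
  rw [if_pos ⟨by omega, by omega⟩, if_pos ⟨hj3, hj4⟩]
  have h3 : ((lab M N p : ℕ):ℝ) < 1001 * N := by exact_mod_cast hj4
  have h4 : ((lab M N p : ℕ):ℝ) / (1000 * N) / (1405 / 1000) ≤ 1 := by
    rw [div_div, div_le_one (by positivity)]
    linarith
  nlinarith

end Kuhn

open Kuhn in
theorem tKuhn : St_kuhn := by
  intro N K hN hK
  refine ⟨(3 * K ^ 3) ^ 2000, ?_⟩
  intro M hM x hx hS hpos
  have hK0 : (1:ℝ) ≤ K := by exact_mod_cast hK
  have hc3 : 3 ≤ 3 * K ^ 3 := by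
    have : 1 ≤ K ^ 3 := Nat.one_le_pow _ _ hK
    omega
  have hM3 : 3 ≤ M := by
    refine le_trans ?_ hM
    calc 3 ≤ 3 * K ^ 3 := hc3
      _ = (3 * K ^ 3) ^ 1 := (pow_one _).symm
      _ ≤ (3 * K ^ 3) ^ 2000 := Nat.pow_le_pow_right (by omega) (by norm_num)
  have hM1 : (1:ℝ) < M := by
    have : (3:ℝ) ≤ M := by exact_mod_cast hM3
    linarith
  have hM0 : (0:ℝ) < M := by linarith
  have hlog : 0 < Real.log M := Real.log_pos hM1
  have hlogbig : 2000 * Real.log (3 * (K:ℝ) ^ 3) ≤ Real.log M := by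
    have h1 : ((3 * (K:ℝ) ^ 3)) ^ 2000 ≤ (M:ℝ) := by exact_mod_cast hM
    have h2 := Real.log_le_log (by positivity) h1
    rw [Real.log_pow] at h2
    exact_mod_cast h2
  -- size of F3
  have hx' : ∀ i, 1 ≤ x i ∧ x i ≤ (K:ℤ) * M := by
    intro i
    unfold bx at hx
    exact Finset.mem_Icc.1 ((Fintype.mem_piFinset.1 hx) i)
  have hcube : ∀ i, 1 ≤ x i ^ 3 ∧ x i ^ 3 ≤ ((K:ℤ) * M) ^ 3 := by
    intro i
    have h0 := hx' i
    exact ⟨one_le_pow₀ h0.1, pow_le_pow_left₀ (by linarith) h0.2 3⟩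
  have hFpos : 0 < F3 x := by
    unfold F3
    linarith [(hcube 0).1, (hcube 1).1, (hcube 2).1]
  have hFle : F3 x ≤ 3 * ((K:ℤ) * M) ^ 3 := by
    unfold F3
    linarith [(hcube 0).2, (hcube 1).2, (hcube 2).2]
  set n := (F3 x).natAbs with hn
  have hnF : (n:ℤ) = F3 x := by
    rw [hn, Int.natCast_natAbs, abs_of_pos hFpos]
  have hn0 : n ≠ 0 := by
    intro h
    rw [h] at hnF
    simp at hnF
    omega
  have hz : ∀ p : ℕ, p.Prime → p ∣ n → zz M ≤ p := by
    intro p hp hpn
    apply hS p hp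
    rw [← hnF]
    exact_mod_cast hpn
  have hzlog : ∀ p : ℕ, p.Prime → p ∣ n → 425 / 1000 * Real.log M ≤ Real.log p := by
    intro p hp hpn
    have h1 : (M:ℝ) ^ (425 / 1000 : ℝ) ≤ p := (Nat.le_ceil _).trans (by exact_mod_cast hz p hp hpn)
    have h2 := Real.log_le_log (Real.rpow_pos_of_pos hM0 _) h1
    rwa [Real.log_rpow hM0] at h2
  by_cases hsq : Squarefree n
  · left
    by_contra hcon
    push Not at hcon
    have hω : ArithmeticFunction.cardFactors n = n.primeFactors.card := by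
      rw [← (ArithmeticFunction.cardDistinctFactors_eq_cardFactors_iff_squarefree hn0).2 hsq]
      rfl
    rw [hω] at hcon
    have hr : (3:ℝ) ≤ (n.primeFactors.card : ℝ) := by exact_mod_cast hcon
    have hsum1 : ∑ p ∈ n.primeFactors,
        (1157 / 1000) * (1 - Real.log p / Real.log M / (1405 / 1000)) ≤
        ∑ p ∈ n.primeFactors, pen N (lab M N p) := by
      apply Finset.sum_le_sum
      intro p hp
      obtain ⟨hp1, hp2, _⟩ := Nat.mem_primeFactors.1 hp
      exact pen_ge N M p hN hM1 (hzlog p hp1 hp2)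
    have hsum2 : ∑ p ∈ n.primeFactors, Real.log p = Real.log n := by
      conv_rhs => rw [← Nat.prod_primeFactors_of_squarefree hsq]
      push_cast
      rw [Real.log_prod]
      intro p hp
      have := (Nat.mem_primeFactors.1 hp).1.ne_zero
      exact_mod_cast this
    have hsum3 : ∑ p ∈ n.primeFactors,
        (1157 / 1000) * (1 - Real.log p / Real.log M / (1405 / 1000)) =
        (1157 / 1000) * ((n.primeFactors.card : ℝ) - Real.log n / Real.log M / (1405 / 1000)) := by
      rw [← Finset.mul_sum, Finset.sum_sub_distrib, ← Finset.sum_div, ← Finset.sum_div, hsum2]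
      simp
    rw [hsum3] at hsum1
    have hnle : (n:ℝ) ≤ (3 * (K:ℝ) ^ 3) * (M:ℝ) ^ 3 := by
      have h1 : (n:ℤ) ≤ 3 * ((K:ℤ) * M) ^ 3 := by rw [hnF]; exact hFle
      have h2 : (n:ℝ) ≤ 3 * ((K:ℝ) * M) ^ 3 := by exact_mod_cast h1
      refine h2.trans (le_of_eq ?_)
      ring
    have hnpos : (0:ℝ) < n := by exact_mod_cast Nat.pos_of_ne_zero hn0
    have hlogn : Real.log n ≤ Real.log (3 * (K:ℝ) ^ 3) + 3 * Real.log M := by
      have h3 := Real.log_le_log hnpos hnle
      rw [Real.log_mul (by positivity) (by positivity), Real.log_pow] at h3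
      exact_mod_cast h3
    have hq : Real.log n / Real.log M / (1405 / 1000) ≤ (3 + 1 / 2000) / (1405 / 1000) := by
      apply div_le_div_of_nonneg_right _ (by norm_num)
      rw [div_le_iff₀ hlog]
      linarith
    have h5 : (3 + 1 / 2000 : ℝ) / (1405 / 1000) ≤ 3 - 1000 / 1157 - 1 / 100000 := by norm_num
    have h6 : (1157 / 1000 : ℝ) * ((n.primeFactors.card : ℝ) - Real.log n / Real.log M / (1405 / 1000)) ≥
        (1157 / 1000) * (1000 / 1157 + 1 / 100000) := by
      apply mul_le_mul_of_nonneg_left _ (by norm_num)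
      linarith
    have h7 : (1157 / 1000 : ℝ) * (1000 / 1157 + 1 / 100000) > 1 := by norm_num
    linarith
  · right
    rw [Nat.squarefree_iff_prime_squarefree] at hsq
    push Not at hsq
    obtain ⟨p, hp, hpp⟩ := hsq
    have hpn : p ∣ n := (dvd_mul_right p p).trans hpp
    refine ⟨p, hp, ?_, hz p hp hpn, ?_⟩
    · rw [← hnF, pow_two]
      exact_mod_cast hpp
    · by_contra hcon
      push Not at hcon
      have hp0 : (0:ℝ) < p := by exact_mod_cast hp.pos
      have h1 : 999 / 1000 * Real.log M < Real.log p := by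
        have := Real.log_lt_log (Real.rpow_pos_of_pos hM0 _) hcon.1
        rwa [Real.log_rpow hM0] at this
      have h2 : Real.log p < 1001 / 1000 * Real.log M := by
        have := Real.log_lt_log hp0 hcon.2
        rwa [Real.log_rpow hM0] at this
      have h3 := pen_mid N M p hN hM1 h1 h2
      have h4 : pen N (lab M N p) ≤ ∑ p ∈ n.primeFactors, pen N (lab M N p) :=
        Finset.single_le_sum (f := fun p => pen N (lab M N p)) (fun q _ => pen_nonneg N hN _)
          (Nat.mem_primeFactors.2 ⟨hp, hpn, hn0⟩)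
      linarith

end Pool.Agent.TCub
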