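import Pool.Agent.TCub.Stmts

open Finset

namespace Pool.Agent.TCub

namespace LB

/-- the part of `a` in the cell `(N/q^(k+1), N/q^k]` -/
noncomputable def cel (a : ℕ → ℝ) (N q : ℝ) (k : ℕ) (n : ℕ) : ℝ :=
  if N / q ^ (k + 1) < n ∧ (n : ℝ) ≤ N / q ^ k then a n else 0

theorem cel_abs {a : ℕ → ℝ} (ha : ∀ n, |a n| ≤ 1) (N q : ℝ) (k n : ℕ) : |cel a N q k n| ≤ 1 := by
  unfold cel
  split_ifs
  · exact ha n
  · simp

theorem cel_supp {a : ℕ → ℝ} {N q : ℝ} {k n : ℕ} (h : cel a N q k n ≠ 0) :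
    N / q ^ k / q ≤ n ∧ (n : ℝ) ≤ N / q ^ k := by
  unfold cel at h
  split_ifs at h with hc
  · refine ⟨?_, hc.2⟩
    rw [div_div, ← pow_succ]
    exact hc.1.le
  · exact absurd rfl h

theorem cel_zero {a : ℕ → ℝ} {N q L : ℝ} (ha : ∀ n, a n ≠ 0 → L ≤ n ∧ (n : ℝ) ≤ N) {k : ℕ}
    (hk : N / q ^ k < L) (n : ℕ) : cel a N q k n = 0 := by
  unfold cel
  split_ifs with hc
  · by_contra hne
    have := (ha n hne).1
    linarith [hc.2]
  · rfl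

theorem cel_sum {a : ℕ → ℝ} {N q L : ℝ} (hq : 1 < q) (hN : 0 ≤ N)
    (ha : ∀ n, a n ≠ 0 → L ≤ n ∧ (n : ℝ) ≤ N) {R : ℕ} (hR : N / q ^ R < L) (n : ℕ) :
    ∑ k ∈ Finset.range R, cel a N q k n = a n := by
  have hq0 : 0 < q := by linarith
  have hanti : ∀ i j : ℕ, i ≤ j → N / q ^ j ≤ N / q ^ i := by
    intro i j hij
    apply div_le_div_of_nonneg_left hN (by positivity)
    exact pow_le_pow_right₀ hq.le hij
  by_cases h0 : a n = 0
  · rw [h0]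
    apply Finset.sum_eq_zero
    intro k _
    unfold cel
    rw [h0]
    simp
  · obtain ⟨h1, h2⟩ := ha n h0
    have hR0 : R ≠ 0 := by
      intro h
      rw [h, pow_zero, div_one] at hR
      linarith
    have hex : ∃ k, N / q ^ (k + 1) < n := by
      refine ⟨R - 1, ?_⟩
      have : R - 1 + 1 = R := by omega
      rw [this]
      linarith
    classical
    have hk1 := Nat.find_spec hex
    have hkmin : ∀ m, m < Nat.find hex → ¬ (N / q ^ (m + 1) < n) := fun m hm => Nat.find_min hex hm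
    have hkR : Nat.find hex ≤ R - 1 := by
      apply Nat.find_min' hex
      have : R - 1 + 1 = R := by omega
      rw [this]
      linarith
    set k := Nat.find hex with hkdef
    have hk2 : (n : ℝ) ≤ N / q ^ k := by
      rcases Nat.eq_zero_or_pos k with h | h
      · rw [h, pow_zero, div_one]
        exact h2
      · have := hkmin (k - 1) (by omega)
        have e : k - 1 + 1 = k := by omega
        rw [e] at this
        exact not_lt.1 this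
    rw [Finset.sum_eq_single k]
    · unfold cel
      rw [if_pos ⟨hk1, hk2⟩]
    · intro k' _ hne
      unfold cel
      rw [if_neg]
      rintro ⟨h3, h4⟩
      rcases Nat.lt_or_ge k' k with h | h
      · have := hanti (k' + 1) k (by omega)
        linarith
      · have hlt : k < k' := lt_of_le_of_ne h (Ne.symm hne)
        have := hanti (k + 1) k' (by omega)
        linarith
    · intro h
      exact absurd (Finset.mem_range.2 (by omega)) h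

theorem tri_congr {M K : ℕ} {N₁ N₂ N₃ : ℝ} {a₁ a₂ a₃ b₁ b₂ b₃ : ℕ → ℝ} (h1 : ∀ n, a₁ n = b₁ n)
    (h2 : ∀ n, a₂ n = b₂ n) (h3 : ∀ n, a₃ n = b₃ n) :
    TriE M K N₁ N₂ N₃ a₁ a₂ a₃ = TriE M K N₁ N₂ N₃ b₁ b₂ b₃ := by
  have e1 : a₁ = b₁ := funext h1
  have e2 : a₂ = b₂ := funext h2
  have e3 : a₃ = b₃ := funext h3
  rw [e1, e2, e3]

theorem tri1 (M K : ℕ) (N₁ N₂ N₃ : ℝ) (S : Finset ℕ) (b : ℕ → ℕ → ℝ) (a₂ a₃ : ℕ → ℝ) :
    TriE M K N₁ N₂ N₃ (fun n => ∑ k ∈ S, b k n) a₂ a₃ =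
      ∑ k ∈ S, TriE M K N₁ N₂ N₃ (b k) a₂ a₃ := by
  unfold TriE
  symm
  rw [Finset.sum_comm]
  apply Finset.sum_congr rfl
  intro n₁ _
  rw [Finset.sum_comm]
  apply Finset.sum_congr rfl
  intro n₂ _
  rw [Finset.sum_comm]
  apply Finset.sum_congr rfl
  intro n₃ _
  split_ifs
  · rw [Finset.sum_mul, Finset.sum_mul, Finset.sum_mul]
  · simp

theorem tri2 (M K : ℕ) (N₁ N₂ N₃ : ℝ) (S : Finset ℕ) (b : ℕ → ℕ → ℝ) (a₁ a₃ : ℕ → ℝ) :
    TriE M K N₁ N₂ N₃ a₁ (fun n => ∑ k ∈ S, b k n) a₃ =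
      ∑ k ∈ S, TriE M K N₁ N₂ N₃ a₁ (b k) a₃ := by
  unfold TriE
  symm
  rw [Finset.sum_comm]
  apply Finset.sum_congr rfl
  intro n₁ _
  rw [Finset.sum_comm]
  apply Finset.sum_congr rfl
  intro n₂ _
  rw [Finset.sum_comm]
  apply Finset.sum_congr rfl
  intro n₃ _
  split_ifs
  · rw [Finset.mul_sum, Finset.sum_mul, Finset.sum_mul]
  · simp

theorem tri3 (M K : ℕ) (N₁ N₂ N₃ : ℝ) (S : Finset ℕ) (b : ℕ → ℕ → ℝ) (a₁ a₂ : ℕ → ℝ) :
    TriE M K N₁ N₂ N₃ a₁ a₂ (fun n => ∑ k ∈ S, b k n) =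
      ∑ k ∈ S, TriE M K N₁ N₂ N₃ a₁ a₂ (b k) := by
  unfold TriE
  symm
  rw [Finset.sum_comm]
  apply Finset.sum_congr rfl
  intro n₁ _
  rw [Finset.sum_comm]
  apply Finset.sum_congr rfl
  intro n₂ _
  rw [Finset.sum_comm]
  apply Finset.sum_congr rfl
  intro n₃ _
  split_ifs
  · rw [Finset.mul_sum, Finset.sum_mul]
  · simp

theorem tri_cut {M K : ℕ} {N₁ N₂ N₃ N₁' N₂' N₃' : ℝ} {a₁ a₂ a₃ : ℕ → ℝ} (h1 : N₁' ≤ N₁)
    (h2 : N₂' ≤ N₂) (h3 : N₃' ≤ N₃)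
    (g1 : ∀ n, a₁ n ≠ 0 → (n : ℝ) ≤ N₁') (g2 : ∀ n, a₂ n ≠ 0 → (n : ℝ) ≤ N₂')
    (g3 : ∀ n, a₃ n ≠ 0 → (n : ℝ) ≤ N₃') :
    TriE M K N₁ N₂ N₃ a₁ a₂ a₃ = TriE M K N₁' N₂' N₃' a₁ a₂ a₃ := by
  have sub : ∀ {N N' : ℝ}, N' ≤ N → Finset.Icc 1 ⌊N'⌋₊ ⊆ Finset.Icc 1 ⌊N⌋₊ := by
    intro N N' h
    exact Finset.Icc_subset_Icc_right (Nat.floor_mono h)
  have out : ∀ {N N' : ℝ} {a : ℕ → ℝ}, (∀ n, a n ≠ 0 → (n : ℝ) ≤ N') → ∀ n ∈ Finset.Icc 1 ⌊N⌋₊,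
      n ∉ Finset.Icc 1 ⌊N'⌋₊ → a n = 0 := by
    intro N N' a g n hn hn'
    by_contra hne
    apply hn'
    rw [Finset.mem_Icc] at hn ⊢
    exact ⟨hn.1, Nat.le_floor (g n hne)⟩
  unfold TriE
  symm
  have e3 : ∀ n₁ n₂, ∑ n₃ ∈ Finset.Icc 1 ⌊N₃'⌋₊, (if Squarefree (n₁ * n₂ * n₃) then
      a₁ n₁ * a₂ n₂ * a₃ n₃ * Est M K (n₁ * n₂ * n₃) else 0) =
      ∑ n₃ ∈ Finset.Icc 1 ⌊N₃⌋₊, (if Squarefree (n₁ * n₂ * n₃) then
      a₁ n₁ * a₂ n₂ * a₃ n₃ * Est M K (n₁ * n₂ * n₃) else 0) := by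
    intro n₁ n₂
    apply Finset.sum_subset (sub h3)
    intro n hn hn'
    rw [out g3 n hn hn']
    simp
  have e2 : ∀ n₁, ∑ n₂ ∈ Finset.Icc 1 ⌊N₂'⌋₊, ∑ n₃ ∈ Finset.Icc 1 ⌊N₃'⌋₊,
      (if Squarefree (n₁ * n₂ * n₃) then
      a₁ n₁ * a₂ n₂ * a₃ n₃ * Est M K (n₁ * n₂ * n₃) else 0) =
      ∑ n₂ ∈ Finset.Icc 1 ⌊N₂⌋₊, ∑ n₃ ∈ Finset.Icc 1 ⌊N₃⌋₊, (if Squarefree (n₁ * n₂ * n₃) then
      a₁ n₁ * a₂ n₂ * a₃ n₃ * Est M K (n₁ * n₂ * n₃) else 0) := by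
    intro n₁
    rw [Finset.sum_congr rfl (fun n₂ _ => e3 n₁ n₂)]
    apply Finset.sum_subset (sub h2)
    intro n hn hn'
    apply Finset.sum_eq_zero
    intro n₃ _
    rw [out g2 n hn hn']
    simp
  rw [Finset.sum_congr rfl (fun n₁ _ => e2 n₁)]
  apply Finset.sum_subset (sub h1)
  intro n hn hn'
  apply Finset.sum_eq_zero
  intro n₂ _
  apply Finset.sum_eq_zero
  intro n₃ _
  rw [out g1 n hn hn']
  simp

theorem tri_zero {M K : ℕ} {N₁ N₂ N₃ : ℝ} {a₁ a₂ a₃ : ℕ → ℝ}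
    (h : (∀ n, a₁ n = 0) ∨ (∀ n, a₂ n = 0) ∨ (∀ n, a₃ n = 0)) :
    TriE M K N₁ N₂ N₃ a₁ a₂ a₃ = 0 := by
  unfold TriE
  apply Finset.sum_eq_zero
  intro n₁ _
  apply Finset.sum_eq_zero
  intro n₂ _
  apply Finset.sum_eq_zero
  intro n₃ _
  rcases h with h | h | h
  · rw [h]; simp
  · rw [h]; simp
  · rw [h]; simp

/-- `(xyz)²/√(xy)` is increasing -/
theorem mono_w {x y z X Y Z : ℝ} (hx : 0 < x) (hy : 0 < y) (hz : 0 < z) (h1 : x ≤ X) (h2 : y ≤ Y)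
    (h3 : z ≤ Z) : (x * y * z) ^ 2 / Real.sqrt (x * y) ≤ (X * Y * Z) ^ 2 / Real.sqrt (X * Y) := by
  have key : ∀ a b c : ℝ, 0 < a → 0 < b → (a * b * c) ^ 2 / Real.sqrt (a * b) =
      Real.sqrt (a * b) * (a * b) * c ^ 2 := by
    intro a b c ha hb
    have hab : 0 < a * b := mul_pos ha hb
    have hs : 0 < Real.sqrt (a * b) := Real.sqrt_pos.2 hab
    rw [div_eq_iff hs.ne']
    have e : Real.sqrt (a * b) * Real.sqrt (a * b) = a * b := Real.mul_self_sqrt hab.le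
    calc (a * b * c) ^ 2 = (a * b) * (a * b) * c ^ 2 := by ring
      _ = (Real.sqrt (a * b) * Real.sqrt (a * b)) * (a * b) * c ^ 2 := by rw [e]
      _ = _ := by ring
  have hX : 0 < X := by linarith
  have hY : 0 < Y := by linarith
  have hZ : 0 < Z := by linarith
  rw [key x y z hx hy, key X Y Z hX hY]
  have h4 : x * y ≤ X * Y := mul_le_mul h1 h2 hy.le hX.le
  have h5 : Real.sqrt (x * y) ≤ Real.sqrt (X * Y) := Real.sqrt_le_sqrt h4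
  have h6 : z ^ 2 ≤ Z ^ 2 := by
    apply pow_le_pow_left₀ hz.le h3
  have hxy : 0 < x * y := mul_pos hx hy
  have hXY : 0 < X * Y := mul_pos hX hY
  have h7 : Real.sqrt (x * y) * (x * y) ≤ Real.sqrt (X * Y) * (X * Y) :=
    mul_le_mul h5 h4 hxy.le (Real.sqrt_nonneg _)
  exact mul_le_mul h7 h6 (by positivity) (by positivity)

/-- number of cells -/
theorem count {ε : ℝ} {K M : ℕ} (hε : 0 < ε) (hK : 1 ≤ K) (hM : 100 ≤ M) :
    ∃ R : ℕ, (R : ℝ) ≤ (800 * K / ε + 1) * (M : ℝ) ^ (2 * ε) ∧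
      (M : ℝ) ^ 2 < (1 + 1 / (200 * (K : ℝ) * (M : ℝ) ^ ε)) ^ R := by
  have hMr : (100 : ℝ) ≤ M := by exact_mod_cast hM
  have hKr : (1 : ℝ) ≤ K := by exact_mod_cast hK
  have hMe : (1 : ℝ) ≤ (M : ℝ) ^ ε := Real.one_le_rpow (by linarith) hε.le
  set ρ : ℝ := 1 / (200 * (K : ℝ) * (M : ℝ) ^ ε) with hρ
  have hρ0 : 0 < ρ := by positivity
  have hρ1 : ρ ≤ 1 := by
    rw [hρ, div_le_one (by positivity)]
    nlinarith
  have hlog : ρ / 2 ≤ Real.log (1 + ρ) := by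
    have h1 := Real.one_sub_inv_le_log_of_pos (x := 1 + ρ) (by linarith)
    have h2 : ρ / 2 ≤ 1 - (1 + ρ)⁻¹ := by
      have e : 1 - (1 + ρ)⁻¹ = ρ / (1 + ρ) := by
        field_simp
        ring
      rw [e]
      apply div_le_div_of_nonneg_left hρ0.le (by linarith) (by linarith)
    linarith
  have hlogpos : 0 < Real.log (1 + ρ) := by linarith
  have hlogM : 0 < Real.log M := Real.log_pos (by linarith)
  set X : ℝ := 2 * Real.log M / Real.log (1 + ρ) with hX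
  have hX0 : 0 ≤ X := by positivity
  refine ⟨⌊X⌋₊ + 1, ?_, ?_⟩
  · have h1 : (⌊X⌋₊ : ℝ) ≤ X := Nat.floor_le hX0
    have h2 : X ≤ 2 * Real.log M / (ρ / 2) := by
      apply div_le_div_of_nonneg_left (by positivity) (by positivity) hlog
    have h3 : 2 * Real.log M / (ρ / 2) = 800 * K * (M : ℝ) ^ ε * Real.log M := by
      rw [hρ]
      field_simp
      ring
    have h4 : Real.log M ≤ (M : ℝ) ^ ε / ε := Real.log_le_rpow_div (by linarith) hε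
    have h5 : 800 * K * (M : ℝ) ^ ε * Real.log M ≤ 800 * K * (M : ℝ) ^ ε * ((M : ℝ) ^ ε / ε) :=
      mul_le_mul_of_nonneg_left h4 (by positivity)
    have h6 : (M : ℝ) ^ (2 * ε) = (M : ℝ) ^ ε * (M : ℝ) ^ ε := by
      rw [← Real.rpow_add (by linarith)]
      congr 1
      ring
    have h7 : 800 * K * (M : ℝ) ^ ε * ((M : ℝ) ^ ε / ε) = 800 * K / ε * (M : ℝ) ^ (2 * ε) := by
      rw [h6]
      ring
    have h8 : (1 : ℝ) ≤ (M : ℝ) ^ (2 * ε) := Real.one_le_rpow (by linarith) (by linarith)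
    push_cast
    rw [add_mul, one_mul]
    linarith
  · have h1 : X < (⌊X⌋₊ : ℝ) + 1 := Nat.lt_floor_add_one X
    have h2 : 2 * Real.log M < ((⌊X⌋₊ : ℝ) + 1) * Real.log (1 + ρ) := by
      rw [hX, div_lt_iff₀ hlogpos] at h1
      exact h1
    have h3 : Real.log ((M : ℝ) ^ 2) < Real.log ((1 + ρ) ^ (⌊X⌋₊ + 1)) := by
      rw [Real.log_pow, Real.log_pow]
      push_cast
      exact h2
    exact (Real.log_lt_log_iff (by positivity) (by positivity)).1 h3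

end LB

open LB in
theorem tLB (hLBcell : St_LBcell) : St_LB := by
  intro ε K hε hε10 hKε
  obtain ⟨C0, hC0, hcell⟩ := hLBcell ε K hε hε10 hKε
  have hK : 1 ≤ K := by
    rcases Nat.eq_zero_or_pos K with h | h
    · rw [h] at hKε
      simp only [Nat.cast_zero, zero_mul] at hKε
      linarith
    · exact h
  have hKr : (1 : ℝ) ≤ K := by exact_mod_cast hK
  refine ⟨C0 * (800 * K / ε + 1) ^ 3, by positivity, ?_⟩
  intro M hM L₁ L₂ L₃ N₁ N₂ N₃ hL1 hL2 hL3 hLN1 hLN2 hLN3 hNM hN1 hN2 a₁ a₂ a₃ ha1 ha2 ha3 hs1 hs2 hs3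
  obtain ⟨R, hR1, hR2⟩ := count hε hK hM
  have hMr : (100 : ℝ) ≤ M := by exact_mod_cast hM
  have hMe : (1 : ℝ) ≤ (M : ℝ) ^ ε := Real.one_le_rpow (by linarith) hε.le
  set q : ℝ := 1 + 1 / (200 * (K : ℝ) * (M : ℝ) ^ ε) with hq
  have hq1 : 1 < q := by
    rw [hq]
    have : 0 < 1 / (200 * (K : ℝ) * (M : ℝ) ^ ε) := by positivity
    linarith
  have hq0 : 0 < q := by linarith
  have hN1p : 1 ≤ N₁ := hL1.trans hLN1
  have hN2p : 1 ≤ N₂ := hL2.trans hLN2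
  have hN3p : 1 ≤ N₃ := hL3.trans hLN3
  have hb1 : N₁ ≤ (M : ℝ) ^ 2 := by
    refine le_trans ?_ hNM
    have : N₁ * 1 ≤ N₁ * (N₂ * N₃) := by
      apply mul_le_mul_of_nonneg_left _ (by linarith)
      nlinarith
    linarith
  have hb2 : N₂ ≤ (M : ℝ) ^ 2 := by
    refine le_trans ?_ hNM
    have : N₂ * 1 ≤ N₂ * (N₁ * N₃) := by
      apply mul_le_mul_of_nonneg_left _ (by linarith)
      nlinarith
    linarith
  have hb3 : N₃ ≤ (M : ℝ) ^ 2 := by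
    refine le_trans ?_ hNM
    have : N₃ * 1 ≤ N₃ * (N₁ * N₂) := by
      apply mul_le_mul_of_nonneg_left _ (by linarith)
      nlinarith
    linarith
  have hRR : ∀ {N L : ℝ}, 1 ≤ L → N ≤ (M : ℝ) ^ 2 → N / q ^ R < L := by
    intro N L hL hN
    rw [div_lt_iff₀ (by positivity)]
    have : 1 * q ^ R ≤ L * q ^ R := mul_le_mul_of_nonneg_right hL (by positivity)
    linarith
  have e1 := cel_sum hq1 (by linarith) hs1 (hRR hL1 hb1)
  have e2 := cel_sum hq1 (by linarith) hs2 (hRR hL2 hb2)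
  have e3 := cel_sum hq1 (by linarith) hs3 (hRR hL3 hb3)
  have hexp : TriE M K N₁ N₂ N₃ a₁ a₂ a₃ = ∑ k₁ ∈ Finset.range R, ∑ k₂ ∈ Finset.range R,
      ∑ k₃ ∈ Finset.range R, TriE M K N₁ N₂ N₃ (cel a₁ N₁ q k₁) (cel a₂ N₂ q k₂)
        (cel a₃ N₃ q k₃) := by
    rw [tri_congr (fun n => (e1 n).symm) (fun n => (e2 n).symm) (fun n => (e3 n).symm)]
    rw [tri1]
    apply Finset.sum_congr rfl
    intro k₁ _
    rw [tri2]
    apply Finset.sum_congr rfl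
    intro k₂ _
    rw [tri3]
  set B : ℝ := C0 * XX M K * (M : ℝ) ^ (-3 + 12 * ε) *
    ((N₁ * N₂ * N₃) ^ 2 / Real.sqrt (N₁ * N₂)) with hB
  have hXX : 0 ≤ XX M K := by
    unfold XX
    positivity
  have hMp : 0 ≤ (M : ℝ) ^ (-3 + 12 * ε) := by positivity
  have hB0 : 0 ≤ B := by
    rw [hB]
    positivity
  have hdec : ∀ {N : ℝ}, 0 ≤ N → ∀ k : ℕ, N / q ^ k ≤ N := by
    intro N hN k
    apply div_le_self hN
    exact one_le_pow₀ hq1.le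
  have hone : ∀ k₁ k₂ k₃ : ℕ, |TriE M K N₁ N₂ N₃ (cel a₁ N₁ q k₁) (cel a₂ N₂ q k₂)
        (cel a₃ N₃ q k₃)| ≤ B := by
    intro k₁ k₂ k₃
    by_cases c1 : N₁ / q ^ k₁ < L₁
    · rw [tri_zero (Or.inl (cel_zero hs1 c1)), abs_zero]
      exact hB0
    by_cases c2 : N₂ / q ^ k₂ < L₂
    · rw [tri_zero (Or.inr (Or.inl (cel_zero hs2 c2))), abs_zero]
      exact hB0
    by_cases c3 : N₃ / q ^ k₃ < L₃
    · rw [tri_zero (Or.inr (Or.inr (cel_zero hs3 c3))), abs_zero]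
      exact hB0
    rw [not_lt] at c1 c2 c3
    have d1 := hdec (N := N₁) (by linarith) k₁
    have d2 := hdec (N := N₂) (by linarith) k₂
    have d3 := hdec (N := N₃) (by linarith) k₃
    rw [tri_cut d1 d2 d3 (fun n hn => (cel_supp hn).2) (fun n hn => (cel_supp hn).2)
      (fun n hn => (cel_supp hn).2)]
    set x := N₁ / q ^ k₁ with hx
    set y := N₂ / q ^ k₂ with hy
    set z := N₃ / q ^ k₃ with hz
    have hx1 : 1 ≤ x := hL1.trans c1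
    have hy1 : 1 ≤ y := hL2.trans c2
    have hz1 : 1 ≤ z := hL3.trans c3
    have hprod : x * y * z ≤ N₁ * N₂ * N₃ := by
      apply mul_le_mul (mul_le_mul d1 d2 (by linarith) (by linarith)) d3 (by linarith) (by positivity)
    have hprod2 : L₁ * L₂ * L₃ ≤ x * y * z := by
      apply mul_le_mul (mul_le_mul c1 c2 (by linarith) (by linarith)) c3 (by linarith) (by positivity)
    have hpow : 0 ≤ (M : ℝ) ^ (ε - 1) := by positivity
    have hprod3 : L₁ * L₂ * L₃ * (M : ℝ) ^ (ε - 1) ≤ x * y * z * (M : ℝ) ^ (ε - 1) :=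
      mul_le_mul_of_nonneg_right hprod2 hpow
    have h := hcell M hM x y z hx1 hy1 hz1 (hprod.trans hNM) (by linarith) (by linarith)
      (cel a₁ N₁ q k₁) (cel a₂ N₂ q k₂) (cel a₃ N₃ q k₃) (cel_abs ha1 _ _ _) (cel_abs ha2 _ _ _)
      (cel_abs ha3 _ _ _) (fun n hn => cel_supp hn) (fun n hn => cel_supp hn)
      (fun n hn => cel_supp hn)
    refine h.trans ?_
    rw [hB]
    apply mul_le_mul_of_nonneg_left _ (by positivity)
    exact mono_w (by linarith) (by linarith) (by linarith) d1 d2 d3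
  have hsum : |TriE M K N₁ N₂ N₃ a₁ a₂ a₃| ≤ (R : ℝ) ^ 3 * B := by
    rw [hexp]
    have h1 : ∀ k₁ k₂ : ℕ, |∑ k₃ ∈ Finset.range R, TriE M K N₁ N₂ N₃ (cel a₁ N₁ q k₁)
        (cel a₂ N₂ q k₂) (cel a₃ N₃ q k₃)| ≤ R * B := by
      intro k₁ k₂
      refine (Finset.abs_sum_le_sum_abs _ _).trans ?_
      refine (Finset.sum_le_sum (fun k₃ _ => hone k₁ k₂ k₃)).trans ?_
      rw [Finset.sum_const, Finset.card_range, nsmul_eq_mul]
    have h2 : ∀ k₁ : ℕ, |∑ k₂ ∈ Finset.range R, ∑ k₃ ∈ Finset.range R, TriE M K N₁ N₂ N₃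
        (cel a₁ N₁ q k₁) (cel a₂ N₂ q k₂) (cel a₃ N₃ q k₃)| ≤ R * (R * B) := by
      intro k₁
      refine (Finset.abs_sum_le_sum_abs _ _).trans ?_
      refine (Finset.sum_le_sum (fun k₂ _ => h1 k₁ k₂)).trans ?_
      rw [Finset.sum_const, Finset.card_range, nsmul_eq_mul]
    refine (Finset.abs_sum_le_sum_abs _ _).trans ?_
    refine (Finset.sum_le_sum (fun k₁ _ => h2 k₁)).trans ?_
    rw [Finset.sum_const, Finset.card_range, nsmul_eq_mul]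
    apply le_of_eq
    ring
  refine hsum.trans ?_
  have hR3 : (R : ℝ) ^ 3 ≤ (800 * K / ε + 1) ^ 3 * (M : ℝ) ^ (6 * ε) := by
    have h1 : (R : ℝ) ^ 3 ≤ ((800 * K / ε + 1) * (M : ℝ) ^ (2 * ε)) ^ 3 :=
      pow_le_pow_left₀ (Nat.cast_nonneg R) hR1 3
    have h2 : ((M : ℝ) ^ (2 * ε)) ^ 3 = (M : ℝ) ^ (6 * ε) := by
      rw [← Real.rpow_natCast, ← Real.rpow_mul (by linarith)]
      congr 1
      push_cast
      ring
    rw [mul_pow, h2] at h1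
    exact h1
  have hfin : (M : ℝ) ^ (6 * ε) * (M : ℝ) ^ (-3 + 12 * ε) ≤ (M : ℝ) ^ (-3 + 20 * ε) := by
    rw [← Real.rpow_add (by linarith)]
    apply Real.rpow_le_rpow_of_exponent_le (by linarith)
    linarith
  have hW : 0 ≤ (N₁ * N₂ * N₃) ^ 2 / Real.sqrt (N₁ * N₂) := by positivity
  calc (R : ℝ) ^ 3 * B ≤ ((800 * K / ε + 1) ^ 3 * (M : ℝ) ^ (6 * ε)) * B :=
        mul_le_mul_of_nonneg_right hR3 hB0
    _ = C0 * (800 * K / ε + 1) ^ 3 * XX M K * ((M : ℝ) ^ (6 * ε) * (M : ℝ) ^ (-3 + 12 * ε)) *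
        ((N₁ * N₂ * N₃) ^ 2 / Real.sqrt (N₁ * N₂)) := by
        rw [hB]
        ring
    _ ≤ C0 * (800 * K / ε + 1) ^ 3 * XX M K * (M : ℝ) ^ (-3 + 20 * ε) *
        ((N₁ * N₂ * N₃) ^ 2 / Real.sqrt (N₁ * N₂)) := by
        apply mul_le_mul_of_nonneg_right _ hW
        apply mul_le_mul_of_nonneg_left hfin (by positivity)

end Pool.Agent.TCub
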