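import Pool.Agent.TCub.Stmts

open Finset

namespace Pool.Agent.TCub

namespace LBcell

lemma dot_bound {H K M : ℕ} {h x : Fin 3 → ℤ} (hh : h ∈ cube H) (hx : x ∈ bx M K) :
    |(dot h x : ℝ)| ≤ 3 * H * (K * M) := by
  simp only [cube, Fintype.mem_piFinset, Finset.mem_Icc] at hh
  simp only [bx, Fintype.mem_piFinset, Finset.mem_Icc] at hx
  have h1 : ∀ i, |h i * x i| ≤ (H:ℤ) * (K * M) := by
    intro i
    rw [abs_mul]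
    have a1 : |h i| ≤ (H:ℤ) := abs_le.mpr (hh i)
    have a2 : |x i| ≤ (K:ℤ) * M := by
      rw [abs_le]; exact ⟨by linarith [(hx i).1, (hx i).2], (hx i).2⟩
    exact mul_le_mul a1 a2 (abs_nonneg _) (by positivity)
  have h2 : |dot h x| ≤ 3 * ((H:ℤ) * (K * M)) := by
    unfold dot
    refine (Finset.abs_sum_le_sum_abs _ _).trans ?_
    calc ∑ i, |h i * x i| ≤ ∑ i : Fin 3, (H:ℤ) * (K * M) := Finset.sum_le_sum fun i _ => h1 i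
      _ = 3 * ((H:ℤ) * (K * M)) := by simp
  have h3 : ((|dot h x| : ℤ) : ℝ) ≤ ((3 * ((H:ℤ) * (K * M)) : ℤ) : ℝ) := by exact_mod_cast h2
  push_cast at h3
  linarith

/-- the summand -/
noncomputable def TT (a₁ a₂ a₃ : ℕ → ℝ) (h : Fin 3 → ℤ) (n₁ n₂ n₃ : ℕ) : ℂ := by
  classical
  exact if Squarefree (n₁ * n₂ * n₃) then
    (a₁ n₁ : ℂ) * a₂ n₂ * a₃ n₃ * sS (n₁ * n₂ * n₃) h * (1 / (((n₁ * n₂ * n₃ : ℕ) : ℂ)) ^ 2) else 0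

lemma TT_zero {a₁ a₂ a₃ : ℕ → ℝ} {h : Fin 3 → ℤ} {n₁ n₂ n₃ : ℕ}
    (hz : a₁ n₁ * a₂ n₂ * a₃ n₃ = 0) : TT a₁ a₂ a₃ h n₁ n₂ n₃ = 0 := by
  unfold TT
  split_ifs
  · have : (a₁ n₁ : ℂ) * a₂ n₂ * a₃ n₃ = 0 := by exact_mod_cast hz
    rw [this]; ring
  · rfl

/-- normalised coefficient -/
noncomputable def nc (N ρ : ℝ) (a : ℕ → ℝ) (α : ℕ → ℂ) (n : ℕ) : ℂ :=
  α n * (a n : ℂ) * (((N / (1 + ρ) / n) ^ 2 : ℝ) : ℂ)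

lemma nc_le {N ρ : ℝ} {a : ℕ → ℝ} {α : ℕ → ℂ} (hN : 1 ≤ N) (hρ : 0 ≤ ρ) (ha : ∀ n, |a n| ≤ 1)
    (hα : ∀ n, ‖α n‖ ≤ 1) (hs : ∀ n, a n ≠ 0 → N / (1 + ρ) ≤ n ∧ (n:ℝ) ≤ N) (n : ℕ) :
    ‖nc N ρ a α n‖ ≤ 1 := by
  unfold nc
  by_cases h : a n = 0
  · rw [h]; simp
  · obtain ⟨h1, h2⟩ := hs n h
    have hp : 0 < N / (1 + ρ) := by positivity
    have hn : (0:ℝ) < n := lt_of_lt_of_le hp h1
    have h3 : N / (1 + ρ) / n ≤ 1 := by rw [div_le_one hn]; exact h1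
    have h4 : 0 ≤ N / (1 + ρ) / n := by positivity
    have h5 : (N / (1 + ρ) / n) ^ 2 ≤ 1 := pow_le_one₀ h4 h3
    rw [norm_mul, norm_mul, Complex.norm_real, Complex.norm_real, Real.norm_eq_abs, Real.norm_eq_abs,
      abs_of_nonneg (sq_nonneg (N / (1 + ρ) / n))]
    have h6 : ‖α n‖ * |a n| ≤ 1 := mul_le_one₀ (hα n) (abs_nonneg _) (ha n)
    exact mul_le_one₀ h6 (sq_nonneg _) h5

/-- shift -/
noncomputable def sh (N : ℝ) (a : ℕ → ℝ) (n : ℕ) : ℝ := if a n = 0 then 0 else N / n - 1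

lemma sh_bd {N ρ : ℝ} {a : ℕ → ℝ} (hN : 1 ≤ N) (hρ : 0 ≤ ρ)
    (hs : ∀ n, a n ≠ 0 → N / (1 + ρ) ≤ n ∧ (n:ℝ) ≤ N) (n : ℕ) :
    0 ≤ sh N a n ∧ sh N a n ≤ ρ := by
  unfold sh
  split_ifs with h
  · exact ⟨le_rfl, hρ⟩
  · obtain ⟨h1, h2⟩ := hs n h
    have hp : 0 < N / (1 + ρ) := by positivity
    have hn : (0:ℝ) < n := lt_of_lt_of_le hp h1
    constructor
    · have : 1 ≤ N / n := by rw [le_div_iff₀ hn]; linarith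
      linarith
    · have : N / n ≤ 1 + ρ := by
        rw [div_le_iff₀ hn]
        rw [div_le_iff₀ (by linarith)] at h1
        linarith
      linarith

lemma sh_ne {N : ℝ} {a : ℕ → ℝ} {n : ℕ} (h : a n ≠ 0) : 1 + sh N a n = N / n := by
  unfold sh; rw [if_neg h]; ring

end LBcell

open LBcell in
theorem tLBcell (hBil : St_Bil) (hSEP : St_SEP) (hDM : St_DM) (hEstT : St_EstT) : St_LBcell := by
  classical
  intro ε K hε hε1 hKε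
  obtain ⟨CB, hCB, hB⟩ := hBil ε hε
  obtain ⟨-, -, -, hXX, -⟩ := hDM
  refine ⟨1 + 6 * CB, by positivity, ?_⟩
  intro M hM N₁ N₂ N₃ hN₁ hN₂ hN₃ hD hN₁H hN₂H a₁ a₂ a₃ ha₁ ha₂ ha₃ hs₁ hs₂ hs₃
  set D := N₁ * N₂ * N₃ with hDdef
  set ρ := 1 / (200 * K * (M:ℝ) ^ ε) with hρdef
  have hMr : (100:ℝ) ≤ M := by exact_mod_cast hM
  have hM0 : (0:ℝ) < M := by linarith
  have hM1 : (1:ℝ) ≤ M := by linarith
  have hK200 : (200:ℝ) ≤ K := by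
    have hK0 : (0:ℝ) ≤ K := Nat.cast_nonneg K
    nlinarith
  have hK1 : 1 ≤ K := by
    have : (1:ℝ) ≤ K := by linarith
    exact_mod_cast this
  have hμ : 1 ≤ (M:ℝ) ^ ε := Real.one_le_rpow hM1 hε.le
  have hρ0 : 0 < ρ := by rw [hρdef]; positivity
  have hρ1 : ρ ≤ 1 / 40000 := by
    rw [hρdef]
    apply one_div_le_one_div_of_le (by norm_num)
    nlinarith
  have hρ3 : (1 + ρ) ^ 3 - 1 ≤ 4 * ρ := by nlinarith [mul_pos hρ0 hρ0, mul_pos (mul_pos hρ0 hρ0) hρ0]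
  have hρ6 : (1 + ρ) ^ 6 ≤ 2 := by
    have h1 : (1 + ρ) ^ 3 ≤ 1 + 1 / 10000 := by linarith
    have h2 : 0 ≤ (1 + ρ) ^ 3 := by positivity
    calc (1 + ρ) ^ 6 = (1 + ρ) ^ 3 * (1 + ρ) ^ 3 := by ring
      _ ≤ (1 + 1 / 10000) * (1 + 1 / 10000) := mul_le_mul h1 h1 h2 (by norm_num)
      _ ≤ 2 := by norm_num
  have hD1 : 1 ≤ D := by
    have : 1 ≤ N₁ * N₂ := by nlinarith
    nlinarith
  have hD0 : 0 < D := by linarith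
  set q := (M:ℝ) ^ (ε - 1) with hq
  have hq0 : 0 < q := by rw [hq]; positivity
  have hqM : q * M = (M:ℝ) ^ ε := by
    rw [hq, Real.rpow_sub_one hM0.ne']; field_simp
  have hqs : q ≤ 1 / 50 := by
    -- M^{ε-1} ≤ 100^{-9/10} ≤ 1/50
    have h1 : q ≤ (M:ℝ) ^ (-(9/10) : ℝ) := by
      rw [hq]; exact Real.rpow_le_rpow_of_exponent_le hM1 (by linarith)
    have h2 : (M:ℝ) ^ (-(9/10) : ℝ) ≤ (100:ℝ) ^ (-(9/10) : ℝ) :=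
      Real.rpow_le_rpow_of_nonpos (by norm_num) hMr (by norm_num)
    have h3 : (100:ℝ) ^ (-(9/10) : ℝ) ≤ 1 / 50 := by
      rw [Real.rpow_neg (by norm_num), one_div]
      apply inv_anti₀ (by norm_num)
      have h4 : (50:ℝ) ^ (10:ℕ) ≤ (100:ℝ) ^ (9:ℕ) := by norm_num
      have h5 : ((100:ℝ) ^ (9/10 : ℝ)) ^ (10:ℕ) = (100:ℝ) ^ (9:ℕ) := by
        rw [← Real.rpow_natCast, ← Real.rpow_mul (by norm_num)]
        norm_num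
      rw [← h5] at h4
      exact le_of_pow_le_pow_left₀ (by norm_num) (by positivity) h4
    linarith
  set H := ⌊D * q⌋₊ with hH
  have hHle : (H:ℝ) ≤ D * q := Nat.floor_le (by positivity)
  have hHlt : D * q < H + 1 := Nat.lt_floor_add_one _
  have hN₁0 : 0 < N₁ := by linarith
  have hN₂0 : 0 < N₂ := by linarith
  have hN₃0 : 0 < N₃ := by linarith
  have hf₁ : 1 ≤ ⌊N₁⌋₊ := Nat.le_floor (by exact_mod_cast hN₁)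
  have hf₂ : 1 ≤ ⌊N₂⌋₊ := Nat.le_floor (by exact_mod_cast hN₂)
  have hf₃ : 1 ≤ ⌊N₃⌋₊ := Nat.le_floor (by exact_mod_cast hN₃)
  have hfH₁ : ⌊N₁⌋₊ ≤ H := Nat.floor_le_floor hN₁H
  have hfH₂ : ⌊N₂⌋₊ ≤ H := Nat.floor_le_floor hN₂H
  have hg₁ : (⌊N₁⌋₊ : ℝ) ≤ N₁ := Nat.floor_le hN₁0.le
  have hg₂ : (⌊N₂⌋₊ : ℝ) ≤ N₂ := Nat.floor_le hN₂0.le
  have hg₃ : (⌊N₃⌋₊ : ℝ) ≤ N₃ := Nat.floor_le hN₃0.le
  have hX0 : 0 ≤ XX M K := by unfold XX; positivity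
  have hWW0 : ∀ x, 0 ≤ WW M K x := by
    intro x; unfold WW; positivity
  -- the bilinear bound
  set B : ℝ := (1 + ρ) ^ 6 / D ^ 2 * (CB * ((H:ℝ) * ⌊N₃⌋₊) ^ ε * ⌊N₃⌋₊ * (H:ℝ) ^ 3 *
    Real.sqrt ((⌊N₁⌋₊:ℝ) * ⌊N₂⌋₊)) with hBdef
  have hBbd : ∀ (ω : (Fin 3 → ℤ) → ℂ) (α β γ : ℕ → ℂ), (∀ h, ‖ω h‖ ≤ 1) → (∀ n, ‖α n‖ ≤ 1) →
      (∀ n, ‖β n‖ ≤ 1) → (∀ n, ‖γ n‖ ≤ 1) →
      ‖∑ h ∈ cube H, ω h * ∑ n₁ ∈ Finset.Icc 1 ⌊N₁⌋₊, ∑ n₂ ∈ Finset.Icc 1 ⌊N₂⌋₊,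
        ∑ n₃ ∈ Finset.Icc 1 ⌊N₃⌋₊, α n₁ * β n₂ * γ n₃ * TT a₁ a₂ a₃ h n₁ n₂ n₃‖ ≤ B := by
    intro ω α β γ hω hα hβ hγ
    have hb := hB H ⌊N₁⌋₊ ⌊N₂⌋₊ ⌊N₃⌋₊ hf₁ hf₂ hf₃ hfH₁ hfH₂ ω (nc N₁ ρ a₁ α) (nc N₂ ρ a₂ β)
      (nc N₃ ρ a₃ γ) hω (nc_le hN₁ hρ0.le ha₁ hα hs₁) (nc_le hN₂ hρ0.le ha₂ hβ hs₂)
      (nc_le hN₃ hρ0.le ha₃ hγ hs₃)
    have heq : ∑ h ∈ cube H, ω h * ∑ n₁ ∈ Finset.Icc 1 ⌊N₁⌋₊, ∑ n₂ ∈ Finset.Icc 1 ⌊N₂⌋₊,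
        ∑ n₃ ∈ Finset.Icc 1 ⌊N₃⌋₊, α n₁ * β n₂ * γ n₃ * TT a₁ a₂ a₃ h n₁ n₂ n₃ =
        (((1 + ρ) ^ 6 / D ^ 2 : ℝ) : ℂ) * ∑ h ∈ cube H, ω h * ∑ n₁ ∈ Finset.Icc 1 ⌊N₁⌋₊,
        ∑ n₂ ∈ Finset.Icc 1 ⌊N₂⌋₊, ∑ n₃ ∈ Finset.Icc 1 ⌊N₃⌋₊,
        (if Squarefree (n₁ * n₂ * n₃) then nc N₁ ρ a₁ α n₁ * nc N₂ ρ a₂ β n₂ * nc N₃ ρ a₃ γ n₃ *
          sS (n₁ * n₂ * n₃) h else 0) := by
      rw [Finset.mul_sum]
      refine Finset.sum_congr rfl fun h _ => ?_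
      rw [mul_left_comm]
      congr 1
      rw [Finset.mul_sum]
      refine Finset.sum_congr rfl fun n₁ hn₁ => ?_
      rw [Finset.mul_sum]
      refine Finset.sum_congr rfl fun n₂ hn₂ => ?_
      rw [Finset.mul_sum]
      refine Finset.sum_congr rfl fun n₃ hn₃ => ?_
      have k₁ : (n₁:ℂ) ≠ 0 := by
        have := (Finset.mem_Icc.mp hn₁).1
        exact_mod_cast (by omega : n₁ ≠ 0)
      have k₂ : (n₂:ℂ) ≠ 0 := by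
        have := (Finset.mem_Icc.mp hn₂).1
        exact_mod_cast (by omega : n₂ ≠ 0)
      have k₃ : (n₃:ℂ) ≠ 0 := by
        have := (Finset.mem_Icc.mp hn₃).1
        exact_mod_cast (by omega : n₃ ≠ 0)
      unfold TT nc
      split_ifs with hsq
      · rw [hDdef]
        push_cast
        have k4 : (N₁:ℂ) ≠ 0 := by exact_mod_cast hN₁0.ne'
        have k5 : (N₂:ℂ) ≠ 0 := by exact_mod_cast hN₂0.ne'
        have k6 : (N₃:ℂ) ≠ 0 := by exact_mod_cast hN₃0.ne'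
        have k7 : (1 + (ρ:ℂ)) ≠ 0 := by
          have : (1 + ρ) ≠ 0 := by positivity
          exact_mod_cast this
        field_simp
      · ring
    rw [heq, norm_mul, Complex.norm_real, Real.norm_eq_abs, abs_of_nonneg (by positivity), hBdef]
    exact mul_le_mul_of_nonneg_left hb (by positivity)
  -- the error terms
  have herr : ∀ n₁ ∈ Finset.Icc 1 ⌊N₁⌋₊, ∀ n₂ ∈ Finset.Icc 1 ⌊N₂⌋₊, ∀ n₃ ∈ Finset.Icc 1 ⌊N₃⌋₊,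
      ‖(((if Squarefree (n₁ * n₂ * n₃) then a₁ n₁ * a₂ n₂ * a₃ n₃ * Est M K (n₁ * n₂ * n₃) else 0 : ℝ)) : ℂ)
        - ∑ x ∈ bx M K, (WW M K x : ℂ) * ∑ h ∈ cube H, TT a₁ a₂ a₃ h n₁ n₂ n₃ *
          ee (-((dot h x : ℝ) / D) * ((1 + sh N₁ a₁ n₁) * (1 + sh N₂ a₂ n₂) * (1 + sh N₃ a₃ n₃)))‖ ≤
        XX M K * (M:ℝ) ^ (-14 : ℝ) := by
    intro n₁ hn₁ n₂ hn₂ n₃ hn₃
    have hE0 : 0 ≤ XX M K * (M:ℝ) ^ (-14 : ℝ) := by positivity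
    by_cases hz : a₁ n₁ * a₂ n₂ * a₃ n₃ = 0
    · have : (if Squarefree (n₁ * n₂ * n₃) then a₁ n₁ * a₂ n₂ * a₃ n₃ * Est M K (n₁ * n₂ * n₃) else 0 : ℝ) = 0 := by
        split_ifs
        · rw [hz]; ring
        · rfl
      rw [this]
      simp only [TT_zero hz, zero_mul, Finset.sum_const_zero, mul_zero, sub_self, Complex.ofReal_zero, norm_zero]
      exact hE0
    by_cases hsq : Squarefree (n₁ * n₂ * n₃)
    swap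
    · rw [if_neg hsq]
      have : ∀ h, TT a₁ a₂ a₃ h n₁ n₂ n₃ = 0 := by
        intro h; unfold TT; rw [if_neg hsq]
      simp only [this, zero_mul, Finset.sum_const_zero, mul_zero, sub_self, Complex.ofReal_zero, norm_zero]
      exact hE0
    have hz₁ : a₁ n₁ ≠ 0 := by intro h; apply hz; rw [h]; ring
    have hz₂ : a₂ n₂ ≠ 0 := by intro h; apply hz; rw [h]; ring
    have hz₃ : a₃ n₃ ≠ 0 := by intro h; apply hz; rw [h]; ring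
    obtain ⟨l₁, u₁⟩ := hs₁ n₁ hz₁
    obtain ⟨l₂, u₂⟩ := hs₂ n₂ hz₂
    obtain ⟨l₃, u₃⟩ := hs₃ n₃ hz₃
    have p₁ : (1:ℝ) ≤ n₁ := by exact_mod_cast (Finset.mem_Icc.mp hn₁).1
    have p₂ : (1:ℝ) ≤ n₂ := by exact_mod_cast (Finset.mem_Icc.mp hn₂).1
    have p₃ : (1:ℝ) ≤ n₃ := by exact_mod_cast (Finset.mem_Icc.mp hn₃).1
    set d := n₁ * n₂ * n₃ with hd
    have hdr : (d:ℝ) = n₁ * n₂ * n₃ := by rw [hd]; push_cast; ring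
    have hd1 : (1:ℝ) ≤ d := by
      rw [hdr]
      have : (1:ℝ) ≤ n₁ * n₂ := by nlinarith
      nlinarith
    have hdD : (d:ℝ) ≤ D := by
      rw [hdr, hDdef]
      exact mul_le_mul (mul_le_mul u₁ u₂ (by linarith) hN₁0.le) u₃ (by linarith) (by positivity)
    have hDd : D ≤ (1 + ρ) ^ 3 * d := by
      rw [hdr, hDdef]
      rw [div_le_iff₀ (by positivity)] at l₁ l₂ l₃
      calc N₁ * N₂ * N₃ ≤ (n₁ * (1 + ρ)) * (n₂ * (1 + ρ)) * (n₃ * (1 + ρ)) :=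
            mul_le_mul (mul_le_mul l₁ l₂ hN₂0.le (by positivity)) l₃ hN₃0.le (by positivity)
        _ = (1 + ρ) ^ 3 * (n₁ * n₂ * n₃) := by ring
    have hT := hEstT ε M K d H hε hε1 hKε hM hsq (hdD.trans hD)
      (by
        have := mul_le_mul_of_nonneg_right hdD hq0.le
        linarith)
      (by
        have h1 : (2 * H : ℝ) < d := by
          have h2 : (H:ℝ) ≤ ((1 + ρ) ^ 3 * d) * (1 / 50) :=
            hHle.trans (mul_le_mul hDd hqs hq0.le (by positivity))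
          have h3 : (1 + ρ) ^ 3 ≤ 2 := by linarith
          nlinarith
        exact_mod_cast h1)
    rw [if_pos hsq]
    -- rewrite the second term
    have heq : ∑ x ∈ bx M K, (WW M K x : ℂ) * ∑ h ∈ cube H, TT a₁ a₂ a₃ h n₁ n₂ n₃ *
          ee (-((dot h x : ℝ) / D) * ((1 + sh N₁ a₁ n₁) * (1 + sh N₂ a₂ n₂) * (1 + sh N₃ a₃ n₃))) =
        ((a₁ n₁ * a₂ n₂ * a₃ n₃ : ℝ) : ℂ) * ((1 / (d:ℂ) ^ 2) * ∑ h ∈ cube H, sS d h *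
      ∑ x ∈ bx M K, (WW M K x : ℂ) * ee (-((dot h x : ℝ) / d))) := by
      simp only [Finset.mul_sum]
      rw [Finset.sum_comm]
      refine Finset.sum_congr rfl fun h _ => Finset.sum_congr rfl fun x _ => ?_
      have e1 : -((dot h x : ℝ) / D) * ((1 + sh N₁ a₁ n₁) * (1 + sh N₂ a₂ n₂) * (1 + sh N₃ a₃ n₃)) =
          -((dot h x : ℝ) / d) := by
        rw [sh_ne hz₁, sh_ne hz₂, sh_ne hz₃, hdr, hDdef]
        field_simp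
      rw [e1]
      unfold TT
      rw [if_pos hsq, ← hd]
      push_cast
      ring
    rw [heq]
    have hfac : (((a₁ n₁ * a₂ n₂ * a₃ n₃ * Est M K d : ℝ)) : ℂ) - ((a₁ n₁ * a₂ n₂ * a₃ n₃ : ℝ) : ℂ) *
        ((1 / (d:ℂ) ^ 2) * ∑ h ∈ cube H, sS d h *
          ∑ x ∈ bx M K, (WW M K x : ℂ) * ee (-((dot h x : ℝ) / d))) =
        ((a₁ n₁ * a₂ n₂ * a₃ n₃ : ℝ) : ℂ) * ((Est M K d : ℂ) - (1 / (d:ℂ) ^ 2) * ∑ h ∈ cube H, sS d h *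
          ∑ x ∈ bx M K, (WW M K x : ℂ) * ee (-((dot h x : ℝ) / d))) := by
      push_cast; ring
    rw [hfac, norm_mul, Complex.norm_real, Real.norm_eq_abs]
    have hab : |a₁ n₁ * a₂ n₂ * a₃ n₃| ≤ 1 := by
      rw [abs_mul, abs_mul]
      exact mul_le_one₀ (mul_le_one₀ (ha₁ _) (abs_nonneg _) (ha₂ _)) (abs_nonneg _) (ha₃ _)
    calc |a₁ n₁ * a₂ n₂ * a₃ n₃| * _ ≤ 1 * (XX M K * (M:ℝ) ^ (-14 : ℝ)) :=
          mul_le_mul hab hT (norm_nonneg _) (by norm_num)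
      _ = _ := one_mul _
  -- the main term
  have hmain : ∀ x ∈ bx M K, ‖∑ h ∈ cube H, ∑ n₁ ∈ Finset.Icc 1 ⌊N₁⌋₊, ∑ n₂ ∈ Finset.Icc 1 ⌊N₂⌋₊,
      ∑ n₃ ∈ Finset.Icc 1 ⌊N₃⌋₊, TT a₁ a₂ a₃ h n₁ n₂ n₃ *
        ee (-((dot h x : ℝ) / D) * ((1 + sh N₁ a₁ n₁) * (1 + sh N₂ a₂ n₂) * (1 + sh N₃ a₃ n₃)))‖ ≤ 3 * B := by
    intro x hx
    refine hSEP (cube H) _ _ _ (TT a₁ a₂ a₃) (fun h => -((dot h x : ℝ) / D)) (sh N₁ a₁) (sh N₂ a₂)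
      (sh N₃ a₃) ρ B hρ0.le (sh_bd hN₁ hρ0.le hs₁) (sh_bd hN₂ hρ0.le hs₂) (sh_bd hN₃ hρ0.le hs₃) ?_ hBbd
    intro h hh
    have h1 := dot_bound hh hx
    have h2 : |(-((dot h x : ℝ) / D))| ≤ 3 * (K * (M:ℝ) ^ ε) := by
      rw [abs_neg, abs_div, abs_of_pos hD0, div_le_iff₀ hD0]
      calc |(dot h x : ℝ)| ≤ 3 * H * (K * M) := h1
        _ ≤ 3 * (D * q) * (K * M) := by
            apply mul_le_mul_of_nonneg_right _ (by positivity)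
            linarith
        _ = 3 * (K * (q * M)) * D := by ring
        _ = 3 * (K * (M:ℝ) ^ ε) * D := by rw [hqM]
    have h3 : K * (M:ℝ) ^ ε * ρ = 1 / 200 := by
      rw [hρdef]; field_simp
    have h4 : 0 ≤ (1 + ρ) ^ 3 - 1 := by nlinarith [mul_pos hρ0 hρ0, mul_pos (mul_pos hρ0 hρ0) hρ0]
    calc 2 * Real.pi * |(-((dot h x : ℝ) / D))| * ((1 + ρ) ^ 3 - 1)
        ≤ 2 * Real.pi * (3 * (K * (M:ℝ) ^ ε)) * (4 * ρ) := by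
          apply mul_le_mul _ hρ3 h4 (by positivity)
          exact mul_le_mul_of_nonneg_left h2 (by positivity)
      _ = 24 * Real.pi * (K * (M:ℝ) ^ ε * ρ) := by ring
      _ = 24 * Real.pi * (1 / 200) := by rw [h3]
      _ ≤ 1 := by nlinarith [Real.pi_lt_four]
  -- assembly
  have hsum : ‖((TriE M K N₁ N₂ N₃ a₁ a₂ a₃ : ℝ) : ℂ)‖ ≤ D * (XX M K * (M:ℝ) ^ (-14 : ℝ)) + XX M K * (3 * B) := by
    have hsplit : ((TriE M K N₁ N₂ N₃ a₁ a₂ a₃ : ℝ) : ℂ) =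
        (∑ n₁ ∈ Finset.Icc 1 ⌊N₁⌋₊, ∑ n₂ ∈ Finset.Icc 1 ⌊N₂⌋₊, ∑ n₃ ∈ Finset.Icc 1 ⌊N₃⌋₊,
          ((((if Squarefree (n₁ * n₂ * n₃) then a₁ n₁ * a₂ n₂ * a₃ n₃ * Est M K (n₁ * n₂ * n₃) else 0 : ℝ)) : ℂ)
        - ∑ x ∈ bx M K, (WW M K x : ℂ) * ∑ h ∈ cube H, TT a₁ a₂ a₃ h n₁ n₂ n₃ *
          ee (-((dot h x : ℝ) / D) * ((1 + sh N₁ a₁ n₁) * (1 + sh N₂ a₂ n₂) * (1 + sh N₃ a₃ n₃))))) +
        ∑ x ∈ bx M K, (WW M K x : ℂ) * ∑ h ∈ cube H, ∑ n₁ ∈ Finset.Icc 1 ⌊N₁⌋₊, ∑ n₂ ∈ Finset.Icc 1 ⌊N₂⌋₊,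
      ∑ n₃ ∈ Finset.Icc 1 ⌊N₃⌋₊, TT a₁ a₂ a₃ h n₁ n₂ n₃ *
        ee (-((dot h x : ℝ) / D) * ((1 + sh N₁ a₁ n₁) * (1 + sh N₂ a₂ n₂) * (1 + sh N₃ a₃ n₃))) := by
      have hcomm : ∑ x ∈ bx M K, (WW M K x : ℂ) * ∑ h ∈ cube H, ∑ n₁ ∈ Finset.Icc 1 ⌊N₁⌋₊, ∑ n₂ ∈ Finset.Icc 1 ⌊N₂⌋₊,
      ∑ n₃ ∈ Finset.Icc 1 ⌊N₃⌋₊, TT a₁ a₂ a₃ h n₁ n₂ n₃ *
        ee (-((dot h x : ℝ) / D) * ((1 + sh N₁ a₁ n₁) * (1 + sh N₂ a₂ n₂) * (1 + sh N₃ a₃ n₃))) =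
        ∑ n₁ ∈ Finset.Icc 1 ⌊N₁⌋₊, ∑ n₂ ∈ Finset.Icc 1 ⌊N₂⌋₊, ∑ n₃ ∈ Finset.Icc 1 ⌊N₃⌋₊,
         ∑ x ∈ bx M K, (WW M K x : ℂ) * ∑ h ∈ cube H, TT a₁ a₂ a₃ h n₁ n₂ n₃ *
          ee (-((dot h x : ℝ) / D) * ((1 + sh N₁ a₁ n₁) * (1 + sh N₂ a₂ n₂) * (1 + sh N₃ a₃ n₃))) := by
        have i1 : ∀ x : Fin 3 → ℤ, ∑ h ∈ cube H, ∑ n₁ ∈ Finset.Icc 1 ⌊N₁⌋₊, ∑ n₂ ∈ Finset.Icc 1 ⌊N₂⌋₊,
            ∑ n₃ ∈ Finset.Icc 1 ⌊N₃⌋₊, TT a₁ a₂ a₃ h n₁ n₂ n₃ *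
            ee (-((dot h x : ℝ) / D) * ((1 + sh N₁ a₁ n₁) * (1 + sh N₂ a₂ n₂) * (1 + sh N₃ a₃ n₃))) =
            ∑ n₁ ∈ Finset.Icc 1 ⌊N₁⌋₊, ∑ n₂ ∈ Finset.Icc 1 ⌊N₂⌋₊,
            ∑ n₃ ∈ Finset.Icc 1 ⌊N₃⌋₊, ∑ h ∈ cube H, TT a₁ a₂ a₃ h n₁ n₂ n₃ *
            ee (-((dot h x : ℝ) / D) * ((1 + sh N₁ a₁ n₁) * (1 + sh N₂ a₂ n₂) * (1 + sh N₃ a₃ n₃))) := by
          intro x
          rw [Finset.sum_comm]
          refine Finset.sum_congr rfl fun n₁ _ => ?_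
          rw [Finset.sum_comm]
          refine Finset.sum_congr rfl fun n₂ _ => ?_
          rw [Finset.sum_comm]
        simp only [i1, Finset.mul_sum (Finset.Icc _ _)]
        rw [Finset.sum_comm]
        refine Finset.sum_congr rfl fun n₁ _ => ?_
        rw [Finset.sum_comm]
        refine Finset.sum_congr rfl fun n₂ _ => ?_
        rw [Finset.sum_comm]
      rw [hcomm, ← Finset.sum_add_distrib]
      unfold TriE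
      rw [Complex.ofReal_sum]
      refine Finset.sum_congr rfl fun n₁ _ => ?_
      rw [← Finset.sum_add_distrib, Complex.ofReal_sum]
      refine Finset.sum_congr rfl fun n₂ _ => ?_
      rw [← Finset.sum_add_distrib, Complex.ofReal_sum]
      refine Finset.sum_congr rfl fun n₃ _ => ?_
      ring
    rw [hsplit]
    refine (norm_add_le _ _).trans (add_le_add ?_ ?_)
    · have hE0 : 0 ≤ XX M K * (M:ℝ) ^ (-14 : ℝ) := by positivity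
      calc _ ≤ ∑ n₁ ∈ Finset.Icc 1 ⌊N₁⌋₊, ∑ n₂ ∈ Finset.Icc 1 ⌊N₂⌋₊, ∑ n₃ ∈ Finset.Icc 1 ⌊N₃⌋₊,
              XX M K * (M:ℝ) ^ (-14 : ℝ) := by
            refine (norm_sum_le _ _).trans (Finset.sum_le_sum fun n₁ hn₁ => ?_)
            refine (norm_sum_le _ _).trans (Finset.sum_le_sum fun n₂ hn₂ => ?_)
            refine (norm_sum_le _ _).trans (Finset.sum_le_sum fun n₃ hn₃ => ?_)
            exact herr n₁ hn₁ n₂ hn₂ n₃ hn₃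
        _ = ((⌊N₁⌋₊:ℝ) * ⌊N₂⌋₊ * ⌊N₃⌋₊) * (XX M K * (M:ℝ) ^ (-14 : ℝ)) := by
            simp only [Finset.sum_const, Nat.card_Icc, Nat.add_sub_cancel, nsmul_eq_mul]
            ring
        _ ≤ D * (XX M K * (M:ℝ) ^ (-14 : ℝ)) := by
            apply mul_le_mul_of_nonneg_right _ hE0
            rw [hDdef]
            exact mul_le_mul (mul_le_mul hg₁ hg₂ (by positivity) hN₁0.le) hg₃ (by positivity) (by positivity)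
    · refine (norm_sum_le _ _).trans ?_
      rw [← hXX M K hK1, Finset.sum_mul]
      refine Finset.sum_le_sum fun x hx => ?_
      rw [norm_mul, Complex.norm_real, Real.norm_eq_abs, abs_of_nonneg (hWW0 x)]
      exact mul_le_mul_of_nonneg_left (hmain x hx) (hWW0 x)
  rw [Complex.norm_real, Real.norm_eq_abs] at hsum
  refine hsum.trans ?_
  -- final estimates
  have hsq0 : 0 < Real.sqrt (N₁ * N₂) := Real.sqrt_pos.mpr (by positivity)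
  have hsqN : Real.sqrt (N₁ * N₂) * Real.sqrt (N₁ * N₂) = N₁ * N₂ := Real.mul_self_sqrt (by positivity)
  have hsqD : Real.sqrt (N₁ * N₂) ≤ D := by
    have h1 : Real.sqrt (N₁ * N₂) ≤ N₁ * N₂ := by
      rw [Real.sqrt_le_left (by positivity)]
      have : 1 ≤ N₁ * N₂ := by nlinarith
      nlinarith
    have h2 : N₁ * N₂ ≤ D := by rw [hDdef]; nlinarith [mul_pos hN₁0 hN₂0]
    linarith
  set Q := D ^ 2 / Real.sqrt (N₁ * N₂) with hQ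
  have hQD : D ≤ Q := by
    rw [hQ, le_div_iff₀ hsq0]
    nlinarith
  have hQ0 : 0 < Q := by linarith
  have hp1 : (M:ℝ) ^ (-14 : ℝ) ≤ (M:ℝ) ^ (-3 + 12 * ε) := Real.rpow_le_rpow_of_exponent_le hM1 (by linarith)
  have hm0 : 0 < (M:ℝ) ^ (-3 + 12 * ε) := by positivity
  have hpart1 : D * (XX M K * (M:ℝ) ^ (-14 : ℝ)) ≤ XX M K * (M:ℝ) ^ (-3 + 12 * ε) * Q := by
    calc D * (XX M K * (M:ℝ) ^ (-14 : ℝ)) ≤ Q * (XX M K * (M:ℝ) ^ (-3 + 12 * ε)) := by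
          apply mul_le_mul hQD _ (by positivity) hQ0.le
          exact mul_le_mul_of_nonneg_left hp1 hX0
      _ = _ := by ring
  have hBle : B ≤ 2 * CB * (M:ℝ) ^ (-3 + 12 * ε) * Q := by
    have i1 : ((H:ℝ) * ⌊N₃⌋₊) ^ ε ≤ (M:ℝ) ^ (4 * ε) := by
      have j1 : (H:ℝ) * ⌊N₃⌋₊ ≤ (M:ℝ) ^ (4:ℝ) := by
        have j2 : (H:ℝ) ≤ (M:ℝ) ^ (2:ℝ) := by
          have : D * q ≤ (M:ℝ) ^ 2 * 1 := mul_le_mul hD (by linarith) hq0.le (by positivity)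
          rw [Real.rpow_two]; linarith
        have j3 : (⌊N₃⌋₊ : ℝ) ≤ (M:ℝ) ^ (2:ℝ) := by
          have : N₃ ≤ D := by
            rw [hDdef]
            have : 1 ≤ N₁ * N₂ := by nlinarith
            nlinarith
          rw [Real.rpow_two]; linarith
        calc (H:ℝ) * ⌊N₃⌋₊ ≤ (M:ℝ) ^ (2:ℝ) * (M:ℝ) ^ (2:ℝ) := mul_le_mul j2 j3 (by positivity) (by positivity)
          _ = (M:ℝ) ^ (4:ℝ) := by rw [← Real.rpow_add hM0]; norm_num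
      calc ((H:ℝ) * ⌊N₃⌋₊) ^ ε ≤ ((M:ℝ) ^ (4:ℝ)) ^ ε := Real.rpow_le_rpow (by positivity) j1 hε.le
        _ = (M:ℝ) ^ (4 * ε) := by rw [← Real.rpow_mul hM0.le]
    have i2 : (H:ℝ) ^ 3 ≤ D ^ 3 * (M:ℝ) ^ (3 * ε - 3) := by
      calc (H:ℝ) ^ 3 ≤ (D * q) ^ 3 := pow_le_pow_left₀ (by positivity) hHle 3
        _ = D ^ 3 * q ^ 3 := by ring
        _ = D ^ 3 * (M:ℝ) ^ (3 * ε - 3) := by
            rw [hq, ← Real.rpow_natCast ((M:ℝ) ^ (ε - 1)) 3, ← Real.rpow_mul hM0.le]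
            congr 2
            push_cast; ring
    have i3 : Real.sqrt ((⌊N₁⌋₊:ℝ) * ⌊N₂⌋₊) ≤ Real.sqrt (N₁ * N₂) :=
      Real.sqrt_le_sqrt (mul_le_mul hg₁ hg₂ (by positivity) hN₁0.le)
    have i4 : (M:ℝ) ^ (4 * ε) * (M:ℝ) ^ (3 * ε - 3) ≤ (M:ℝ) ^ (-3 + 12 * ε) := by
      rw [← Real.rpow_add hM0]
      exact Real.rpow_le_rpow_of_exponent_le hM1 (by linarith)
    have i5 : D * N₃ * Real.sqrt (N₁ * N₂) = Q := by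
      rw [hQ, eq_div_iff hsq0.ne']
      calc D * N₃ * Real.sqrt (N₁ * N₂) * Real.sqrt (N₁ * N₂) = D * N₃ * (Real.sqrt (N₁ * N₂) * Real.sqrt (N₁ * N₂)) := by ring
        _ = D * N₃ * (N₁ * N₂) := by rw [hsqN]
        _ = D ^ 2 := by rw [hDdef]; ring
    rw [hBdef]
    calc (1 + ρ) ^ 6 / D ^ 2 * (CB * ((H:ℝ) * ⌊N₃⌋₊) ^ ε * ⌊N₃⌋₊ * (H:ℝ) ^ 3 *
          Real.sqrt ((⌊N₁⌋₊:ℝ) * ⌊N₂⌋₊))
        ≤ 2 / D ^ 2 * (CB * (M:ℝ) ^ (4 * ε) * N₃ * (D ^ 3 * (M:ℝ) ^ (3 * ε - 3)) * Real.sqrt (N₁ * N₂)) := by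
          apply mul_le_mul
          · exact div_le_div_of_nonneg_right hρ6 (by positivity)
          · apply mul_le_mul _ i3 (by positivity) (by positivity)
            apply mul_le_mul _ i2 (by positivity) (by positivity)
            apply mul_le_mul _ hg₃ (by positivity) (by positivity)
            exact mul_le_mul_of_nonneg_left i1 hCB.le
          · positivity
          · positivity
      _ = 2 * CB * ((M:ℝ) ^ (4 * ε) * (M:ℝ) ^ (3 * ε - 3)) * (D * N₃ * Real.sqrt (N₁ * N₂)) := by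
          field_simp
      _ = 2 * CB * ((M:ℝ) ^ (4 * ε) * (M:ℝ) ^ (3 * ε - 3)) * Q := by rw [i5]
      _ ≤ 2 * CB * (M:ℝ) ^ (-3 + 12 * ε) * Q := by
          apply mul_le_mul_of_nonneg_right _ hQ0.le
          exact mul_le_mul_of_nonneg_left i4 (by positivity)
  calc D * (XX M K * (M:ℝ) ^ (-14 : ℝ)) + XX M K * (3 * B)
      ≤ XX M K * (M:ℝ) ^ (-3 + 12 * ε) * Q + XX M K * (3 * (2 * CB * (M:ℝ) ^ (-3 + 12 * ε) * Q)) := by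
        apply add_le_add hpart1
        apply mul_le_mul_of_nonneg_left _ hX0
        linarith
    _ = (1 + 6 * CB) * XX M K * (M:ℝ) ^ (-3 + 12 * ε) * Q := by ring

end Pool.Agent.TCub
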