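import Pool.Agent.TCub.Stmts

open Finset

namespace Pool.Agent.TCub

namespace LSm

/-- the inner sum -/
noncomputable def inner (H e m₁ m₂ : ℕ) : ℝ :=
  ∑ z ∈ (symb (e * m₁ * m₂)).filter (fun z => ((m₁ * m₂ : ℕ) : ℤ) ∣ F3 z),
    ∏ i, psi H (e * m₁ * m₂) (z i)

noncomputable def QQ (H e m₁ m₂ : ℕ) : ℝ :=
  ((4:ℝ) ^ (e.primeFactors.card) / (m₁ * m₂)) * inner H e m₁ m₂

theorem psi_nonneg (H : ℕ) (L : ℝ) (z : ℤ) : 0 ≤ psi H L z := by
  unfold psi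
  split_ifs
  · positivity
  · apply le_min <;> positivity

theorem inner_nonneg (H e m₁ m₂ : ℕ) : 0 ≤ inner H e m₁ m₂ :=
  sum_nonneg fun _ _ => prod_nonneg fun _ _ => psi_nonneg _ _ _

theorem QQ_nonneg (H e m₁ m₂ : ℕ) : 0 ≤ QQ H e m₁ m₂ :=
  mul_nonneg (by positivity) (inner_nonneg _ _ _ _)

theorem LSt_add (N H : ℕ) :
    ∑ e ∈ Finset.Icc 1 N, ∑ m₁ ∈ Finset.Icc 1 (N / e), ∑ m₂ ∈ Finset.Icc 1 (N / e),
      QQ H e m₁ m₂ = LSt N H (fun z => z = 0) + LSt N H (fun z => z ≠ 0 ∧ F3 z = 0) +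
        LSt N H (fun z => F3 z ≠ 0) := by
  classical
  unfold LSt QQ inner
  rw [← sum_add_distrib, ← sum_add_distrib]
  apply sum_congr rfl
  intro e _
  rw [← sum_add_distrib, ← sum_add_distrib]
  apply sum_congr rfl
  intro m₁ _
  rw [← sum_add_distrib, ← sum_add_distrib]
  apply sum_congr rfl
  intro m₂ _
  rw [← mul_add, ← mul_add]
  congr 1
  rw [sum_filter, sum_filter, sum_filter, sum_filter, ← sum_add_distrib, ← sum_add_distrib]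
  apply sum_congr rfl
  intro z _
  by_cases hdiv : ((m₁ * m₂ : ℕ) : ℤ) ∣ F3 z
  · by_cases hz : z = 0
    · have hF : F3 z = 0 := by
        rw [hz]
        simp [F3]
      rw [if_pos hdiv, if_pos ⟨hdiv, hz⟩, if_neg (by tauto), if_neg (by tauto)]
      ring
    · by_cases hF : F3 z = 0
      · rw [if_pos hdiv, if_neg (by tauto), if_pos ⟨hdiv, hz, hF⟩, if_neg (by tauto)]
        ring
      · rw [if_pos hdiv, if_neg (by tauto), if_neg (by tauto), if_pos ⟨hdiv, hF⟩]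
        ring
  · rw [if_neg hdiv, if_neg (by tauto), if_neg (by tauto), if_neg (by tauto)]
    ring

theorem pair_le (hsS : St_sS) (hfej : St_fej) (hfibre : St_fibre) {H : ℕ} (hH : 1 ≤ H)
    {e m₁ m₂ : ℕ} (he : 1 ≤ e) (h₁ : 1 ≤ m₁) (h₂ : 1 ≤ m₂) (c₁ : Nat.Coprime e m₁)
    (c₂ : Nat.Coprime e m₂) (c₃ : Nat.Coprime m₁ m₂) (hsq : Squarefree e) :
    (1 / (((e * m₁ : ℕ) : ℝ) * ((e * m₂ : ℕ) : ℝ))) * ∑ x ∈ cone (e * m₁), ∑ x' ∈ cone (e * m₂),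
        ∏ i, Fh H ((x i : ℝ) / ((e * m₁ : ℕ) : ℝ) - (x' i : ℝ) / ((e * m₂ : ℕ) : ℝ)) ≤
      QQ H e m₁ m₂ := by
  classical
  obtain ⟨_, _, _, hF0, hFper, hF6, hFθ⟩ := hfej H hH
  have her : (0 : ℝ) < e := by exact_mod_cast he
  have h₁r : (0 : ℝ) < m₁ := by exact_mod_cast h₁
  have h₂r : (0 : ℝ) < m₂ := by exact_mod_cast h₂
  obtain ⟨L, hL⟩ : ∃ L : ℝ, L = e * m₁ * m₂ := ⟨_, rfl⟩
  have hLpos : 0 < L := by rw [hL]; positivity
  obtain ⟨f, hf⟩ : ∃ f : (Fin 3 → ℤ) → ℝ, f = fun z => ∏ i, Fh H ((z i : ℝ) / L) := ⟨_, rfl⟩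
  have hf0 : ∀ z, 0 ≤ f z := by
    intro z
    rw [hf]
    exact prod_nonneg fun i _ => hF0 _
  have hfper : ∀ z z' : Fin 3 → ℤ, (∀ i, ((e * m₁ * m₂ : ℕ) : ℤ) ∣ z i - z' i) → f z = f z' := by
    intro z z' hzz
    rw [hf]
    apply prod_congr rfl
    intro i _
    obtain ⟨k, hk⟩ := hzz i
    have hzi : z i = z' i + ((e * m₁ * m₂ : ℕ) : ℤ) * k := by linarith
    have : (z i : ℝ) / L = (z' i : ℝ) / L + k := by
      rw [hzi]
      push_cast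
      rw [← hL]
      field_simp
    rw [this, hFper]
  have key := hfibre e m₁ m₂ he h₁ h₂ c₁ c₂ c₃ f hf0 hfper
  have hsum : ∑ x ∈ cone (e * m₁), ∑ x' ∈ cone (e * m₂),
        ∏ i, Fh H ((x i : ℝ) / ((e * m₁ : ℕ) : ℝ) - (x' i : ℝ) / ((e * m₂ : ℕ) : ℝ)) =
      ∑ x ∈ cone (e * m₁), ∑ x' ∈ cone (e * m₂), f (fun i => m₂ * x i - m₁ * x' i) := by
    apply sum_congr rfl
    intro x _
    apply sum_congr rfl
    intro x' _
    rw [hf]
    apply prod_congr rfl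
    intro i _
    congr 1
    rw [hL]
    push_cast
    field_simp
  rw [hsum]
  have hpsi : ∑ z ∈ (symb (e * m₁ * m₂)).filter (fun z => ((m₁ * m₂ : ℕ) : ℤ) ∣ F3 z), f z ≤
      inner H e m₁ m₂ := by
    unfold inner
    apply sum_le_sum
    intro z hz
    rw [mem_filter] at hz
    rw [hf]
    apply prod_le_prod (fun i _ => hF0 _)
    intro i _
    have hzi : -((e * m₁ * m₂ : ℕ) : ℤ) < 2 * z i ∧ 2 * z i ≤ ((e * m₁ * m₂ : ℕ) : ℤ) := by
      have h3 := hz.1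
      unfold symb at h3
      rw [Fintype.mem_piFinset] at h3
      have h4 := h3 i
      rw [mem_filter] at h4
      exact h4.2
    have habs : |(z i : ℝ) / L| ≤ 1 / 2 := by
      have h5 : -L ≤ 2 * (z i : ℝ) := by
        have := hzi.1.le
        have h6 : ((-((e * m₁ * m₂ : ℕ) : ℤ) : ℤ) : ℝ) ≤ ((2 * z i : ℤ) : ℝ) := by
          exact_mod_cast this
        push_cast at h6
        rw [hL]
        linarith
      have h7 : 2 * (z i : ℝ) ≤ L := by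
        have h6 : ((2 * z i : ℤ) : ℝ) ≤ (((e * m₁ * m₂ : ℕ) : ℤ) : ℝ) := by
          exact_mod_cast hzi.2
        push_cast at h6
        rw [hL]
        linarith
      rw [abs_le]
      constructor
      · rw [le_div_iff₀ hLpos]
        linarith
      · rw [div_le_iff₀ hLpos]
        linarith
    rw [← hL]
    unfold psi
    split_ifs with h0
    · exact hF6 _
    · apply le_min (hF6 _)
      have hz0 : (z i : ℝ) ≠ 0 := by exact_mod_cast h0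
      refine (hFθ _ (div_ne_zero hz0 hLpos.ne') habs).trans (le_of_eq ?_)
      have hHr : (0 : ℝ) < H := by exact_mod_cast hH
      field_simp
  have hrho : (rho e : ℝ) ≤ 4 ^ (e.primeFactors.card) * (e:ℝ) ^ 2 := hsS.2.1 e hsq
  unfold QQ
  have hin := inner_nonneg H e m₁ m₂
  calc (1 / (((e * m₁ : ℕ) : ℝ) * ((e * m₂ : ℕ) : ℝ))) *
        ∑ x ∈ cone (e * m₁), ∑ x' ∈ cone (e * m₂), f (fun i => m₂ * x i - m₁ * x' i)
      ≤ (1 / (((e * m₁ : ℕ) : ℝ) * ((e * m₂ : ℕ) : ℝ))) *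
        ((4 ^ (e.primeFactors.card) * (e:ℝ) ^ 2) * inner H e m₁ m₂) := by
        apply mul_le_mul_of_nonneg_left _ (by positivity)
        refine key.trans ?_
        apply mul_le_mul hrho hpsi (sum_nonneg fun z _ => hf0 z) (by positivity)
    _ = (4:ℝ) ^ (e.primeFactors.card) / (m₁ * m₂) * inner H e m₁ m₂ := by
        push_cast
        field_simp

theorem regroup (N H : ℕ) :
    ∑ n ∈ (Finset.Icc 1 N).filter Squarefree, ∑ n' ∈ (Finset.Icc 1 N).filter Squarefree,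
      QQ H (Nat.gcd n n') (n / Nat.gcd n n') (n' / Nat.gcd n n') ≤
    ∑ e ∈ Finset.Icc 1 N, ∑ m₁ ∈ Finset.Icc 1 (N / e), ∑ m₂ ∈ Finset.Icc 1 (N / e),
      QQ H e m₁ m₂ := by
  classical
  rw [← sum_product' _ _ (fun n n' => QQ H (Nat.gcd n n') (n / Nat.gcd n n') (n' / Nat.gcd n n'))]
  have hR : ∑ e ∈ Finset.Icc 1 N, ∑ m₁ ∈ Finset.Icc 1 (N / e), ∑ m₂ ∈ Finset.Icc 1 (N / e),
      QQ H e m₁ m₂ = ∑ t ∈ (Finset.Icc 1 N).sigma
        (fun e => (Finset.Icc 1 (N / e)) ×ˢ (Finset.Icc 1 (N / e))), QQ H t.1 t.2.1 t.2.2 := by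
    rw [sum_sigma]
    apply sum_congr rfl
    intro e _
    rw [sum_product]
  rw [hR]
  obtain ⟨φ, hφ⟩ : ∃ φ : ℕ × ℕ → (Σ _ : ℕ, ℕ × ℕ),
    φ = fun p => ⟨Nat.gcd p.1 p.2, (p.1 / Nat.gcd p.1 p.2, p.2 / Nat.gcd p.1 p.2)⟩ := ⟨_, rfl⟩
  have hinj : Set.InjOn φ ((((Finset.Icc 1 N).filter Squarefree) ×ˢ
      ((Finset.Icc 1 N).filter Squarefree) : Finset (ℕ × ℕ)) : Set (ℕ × ℕ)) := by
    rintro ⟨a, b⟩ _ ⟨a', b'⟩ _ hab
    rw [hφ] at hab
    simp only [Sigma.mk.injEq, heq_eq_eq, Prod.mk.injEq] at hab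
    obtain ⟨h1, h2, h3⟩ := hab
    have e1 : a = Nat.gcd a b * (a / Nat.gcd a b) := (Nat.mul_div_cancel' (Nat.gcd_dvd_left a b)).symm
    have e2 : a' = Nat.gcd a' b' * (a' / Nat.gcd a' b') :=
      (Nat.mul_div_cancel' (Nat.gcd_dvd_left a' b')).symm
    have e3 : b = Nat.gcd a b * (b / Nat.gcd a b) :=
      (Nat.mul_div_cancel' (Nat.gcd_dvd_right a b)).symm
    have e4 : b' = Nat.gcd a' b' * (b' / Nat.gcd a' b') :=
      (Nat.mul_div_cancel' (Nat.gcd_dvd_right a' b')).symm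
    rw [h2] at e1
    rw [h3] at e3
    rw [h1] at e1 e3
    rw [Prod.mk.injEq]
    exact ⟨e1.trans e2.symm, e3.trans e4.symm⟩
  have hL : ∑ p ∈ ((Finset.Icc 1 N).filter Squarefree) ×ˢ ((Finset.Icc 1 N).filter Squarefree),
      QQ H (Nat.gcd p.1 p.2) (p.1 / Nat.gcd p.1 p.2) (p.2 / Nat.gcd p.1 p.2) =
      ∑ t ∈ (((Finset.Icc 1 N).filter Squarefree) ×ˢ ((Finset.Icc 1 N).filter Squarefree)).image φ,
        QQ H t.1 t.2.1 t.2.2 := by
    rw [sum_image hinj]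
    apply sum_congr rfl
    intro p _
    rw [hφ]
  rw [hL]
  apply sum_le_sum_of_subset_of_nonneg
  · intro t ht
    rw [mem_image] at ht
    obtain ⟨⟨a, b⟩, hab, rfl⟩ := ht
    rw [mem_product, mem_filter, mem_filter, mem_Icc, mem_Icc] at hab
    obtain ⟨⟨⟨ha1, ha2⟩, _⟩, ⟨hb1, hb2⟩, _⟩ := hab
    simp only at ha1 ha2 hb1 hb2
    have hg : 0 < Nat.gcd a b := Nat.gcd_pos_of_pos_left _ ha1
    rw [hφ]
    simp only [mem_sigma, mem_product, mem_Icc]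
    refine ⟨⟨hg, (Nat.gcd_le_left _ ha1).trans ha2⟩, ⟨?_, ?_⟩, ?_, ?_⟩
    · exact Nat.div_pos (Nat.gcd_le_left _ ha1) hg
    · exact Nat.div_le_div_right ha2
    · exact Nat.div_pos (Nat.gcd_le_right _ hb1) hg
    · exact Nat.div_le_div_right hb2
  · intro t _ _
    exact QQ_nonneg _ _ _ _

end LSm

open LSm in
theorem tLS (hsS : St_sS) (hfej : St_fej) (hLSexp : St_LSexp) (hfibre : St_fibre) (hLS0 : St_LS012 (fun z => z = 0)) (hLS1 : St_LS012 (fun z => z ≠ 0 ∧ F3 z = 0)) (hLS2 : St_LS012 (fun z => F3 z ≠ 0)) : St_LS := by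
  classical
  intro ε hε
  obtain ⟨C₀, hC₀, h0⟩ := hLS0 ε hε
  obtain ⟨C₁, hC₁, h1⟩ := hLS1 ε hε
  obtain ⟨C₂, hC₂, h2⟩ := hLS2 ε hε
  refine ⟨C₀ + C₁ + C₂, by positivity, ?_⟩
  intro N H hN hNH α hα
  have hH : 1 ≤ H := hN.trans hNH
  refine (hLSexp N H hH α hα).trans ?_
  have hpt : ∀ n ∈ (Finset.Icc 1 N).filter Squarefree, ∀ n' ∈ (Finset.Icc 1 N).filter Squarefree,
      (1 / ((n:ℝ) * n')) * ∑ x ∈ cone n, ∑ x' ∈ cone n',
        ∏ i, Fh H ((x i : ℝ) / n - (x' i : ℝ) / n') ≤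
      QQ H (Nat.gcd n n') (n / Nat.gcd n n') (n' / Nat.gcd n n') := by
    intro n hn n' hn'
    rw [mem_filter, mem_Icc] at hn hn'
    obtain ⟨⟨hn1, _⟩, hnsq⟩ := hn
    obtain ⟨⟨hn1', _⟩, hnsq'⟩ := hn'
    obtain ⟨e, he⟩ : ∃ e, e = Nat.gcd n n' := ⟨_, rfl⟩
    have hepos : 0 < e := by rw [he]; exact Nat.gcd_pos_of_pos_left _ hn1
    obtain ⟨m₁, hm₁⟩ : e ∣ n := by rw [he]; exact Nat.gcd_dvd_left _ _
    obtain ⟨m₂, hm₂⟩ : e ∣ n' := by rw [he]; exact Nat.gcd_dvd_right _ _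
    rw [← he]
    have e1 : n / e = m₁ := by rw [hm₁, Nat.mul_div_cancel_left _ hepos]
    have e2 : n' / e = m₂ := by rw [hm₂, Nat.mul_div_cancel_left _ hepos]
    rw [e1, e2]
    have hm₁pos : 1 ≤ m₁ := by
      rcases Nat.eq_zero_or_pos m₁ with h | h
      · rw [h] at hm₁
        omega
      · exact h
    have hm₂pos : 1 ≤ m₂ := by
      rcases Nat.eq_zero_or_pos m₂ with h | h
      · rw [h] at hm₂
        omega
      · exact h
    have c₁ : Nat.Coprime e m₁ := Nat.coprime_of_squarefree_mul (by rw [← hm₁]; exact hnsq)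
    have c₂ : Nat.Coprime e m₂ := Nat.coprime_of_squarefree_mul (by rw [← hm₂]; exact hnsq')
    have c₃ : Nat.Coprime m₁ m₂ := by
      have h3 := Nat.coprime_div_gcd_div_gcd (m := n) (n := n') (by rw [← he]; exact hepos)
      rw [← he, e1, e2] at h3
      exact h3
    have hsq : Squarefree e := by
      apply Squarefree.squarefree_of_dvd _ hnsq
      exact ⟨m₁, hm₁⟩
    have := pair_le hsS hfej hfibre hH hepos hm₁pos hm₂pos c₁ c₂ c₃ hsq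
    rw [← hm₁, ← hm₂] at this
    exact this
  have h3 : ∑ n ∈ (Finset.Icc 1 N).filter Squarefree, ∑ n' ∈ (Finset.Icc 1 N).filter Squarefree,
      (1 / ((n:ℝ) * n')) * ∑ x ∈ cone n, ∑ x' ∈ cone n',
        ∏ i, Fh H ((x i : ℝ) / n - (x' i : ℝ) / n') ≤
      ∑ n ∈ (Finset.Icc 1 N).filter Squarefree, ∑ n' ∈ (Finset.Icc 1 N).filter Squarefree,
      QQ H (Nat.gcd n n') (n / Nat.gcd n n') (n' / Nat.gcd n n') :=
    sum_le_sum fun n hn => sum_le_sum fun n' hn' => hpt n hn n' hn'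
  refine h3.trans ((regroup N H).trans ?_)
  rw [LSt_add]
  have b0 := h0 N H hN hNH
  have b1 := h1 N H hN hNH
  have b2 := h2 N H hN hNH
  have : (C₀ + C₁ + C₂) * (H:ℝ) ^ (3 + ε) * N = C₀ * (H:ℝ) ^ (3 + ε) * N +
      C₁ * (H:ℝ) ^ (3 + ε) * N + C₂ * (H:ℝ) ^ (3 + ε) * N := by ring
  rw [this]
  exact add_le_add (add_le_add b0 b1) b2

end Pool.Agent.TCub
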