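import Pool.Agent.TCub.Stmts

open Finset

namespace Pool.Agent.TCub

namespace LS0

theorem sum_inv_le (n : ℕ) : ∑ m ∈ Finset.Icc 1 n, (1 : ℝ) / m ≤ 1 + Real.log n := by
  have h := harmonic_le_one_add_log n
  have e : ((harmonic n : ℚ) : ℝ) = ∑ m ∈ Finset.Icc 1 n, (1 : ℝ) / m := by
    rw [harmonic_eq_sum_Icc]
    push_cast
    refine sum_congr rfl fun m _ => ?_
    rw [one_div]
  rw [← e]
  exact h

end LS0

open LS0

theorem tLS0 (hdiv : St_div) : St_LS012 (fun z => z = 0) := by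
  classical
  intro ε hε
  obtain ⟨C₁, hC₁, hd⟩ := hdiv (ε / 3) (by positivity) 4 (by norm_num)
  set η : ℝ := ε / 3 with hη
  have hη0 : 0 < η := by positivity
  set C₂ : ℝ := 1 + 1 / η with hC₂
  have hC₂0 : 0 < C₂ := by positivity
  refine ⟨216 * C₁ * C₂ ^ 2, by positivity, ?_⟩
  intro N H hN hNH
  have hN0 : (0:ℝ) < N := by exact_mod_cast hN
  have hN1 : (1:ℝ) ≤ N := by exact_mod_cast hN
  have hH0 : (0:ℝ) < H := by exact_mod_cast (lt_of_lt_of_le hN hNH)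
  have hNH' : (N:ℝ) ≤ H := by exact_mod_cast hNH
  -- sum of reciprocals
  have hsum : ∀ n : ℕ, n ≤ N → ∑ m ∈ Finset.Icc 1 n, (1 : ℝ) / m ≤ C₂ * (N:ℝ) ^ η := by
    intro n hn
    refine (sum_inv_le n).trans ?_
    have hNη : 1 ≤ (N:ℝ) ^ η := Real.one_le_rpow hN1 hη0.le
    have hlog : Real.log n ≤ (N:ℝ) ^ η / η := by
      rcases Nat.eq_zero_or_pos n with h0 | h0
      · subst h0; simp; positivity
      · have h1 : Real.log n ≤ Real.log N :=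
          Real.log_le_log (by exact_mod_cast h0) (by exact_mod_cast hn)
        exact h1.trans (Real.log_le_rpow_div hN0.le hη0)
    rw [hC₂]
    have : (1 + 1 / η) * (N:ℝ) ^ η = (N:ℝ) ^ η + (N:ℝ) ^ η / η := by ring
    rw [this]
    linarith
  -- inner sum
  have hin : ∀ (e m₁ m₂ : ℕ) (Q : (Fin 3 → ℤ) → Prop) {_ : DecidablePred Q}, (∀ z, Q z → z = 0) →
      ∑ z ∈ (symb (e * m₁ * m₂)).filter Q, ∏ i, psi H (e * m₁ * m₂) (z i) ≤
      216 * (H:ℝ) ^ 3 := by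
    intro e m₁ m₂ Q inst hQ
    have hsub : (symb (e * m₁ * m₂)).filter Q ⊆ {0} := by
      intro z hz
      rw [mem_filter] at hz
      rw [mem_singleton]; exact hQ z hz.2
    have hpsi0 : ∀ L : ℝ, psi H L 0 = 6 * (H:ℝ) := fun L => by simp [psi]
    have hval : ∏ i : Fin 3, psi H (e * m₁ * m₂) ((0 : Fin 3 → ℤ) i) = 216 * (H:ℝ) ^ 3 := by
      simp only [Pi.zero_apply, hpsi0, prod_const, card_univ, Fintype.card_fin]
      ring
    refine (sum_le_sum_of_subset_of_nonneg hsub ?_).trans (le_of_eq ?_)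
    · intro z hz _
      rw [mem_singleton.mp hz, hval]
      positivity
    · rw [sum_singleton, hval]
  have hmain : LSt N H (fun z => z = 0) ≤ ∑ e ∈ Finset.Icc 1 N,
      (C₁ * (N:ℝ) ^ η) * (C₂ * (N:ℝ) ^ η) ^ 2 * (216 * (H:ℝ) ^ 3) := by
    unfold LSt
    apply sum_le_sum
    intro e he
    rw [mem_Icc] at he
    have he0 : (0:ℝ) < e := by exact_mod_cast he.1
    have h4 : (4:ℝ) ^ (e.primeFactors.card) ≤ C₁ * (N:ℝ) ^ η := by
      refine (hd e he.1).1.trans ?_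
      apply mul_le_mul_of_nonneg_left _ hC₁.le
      exact Real.rpow_le_rpow he0.le (by exact_mod_cast he.2) hη0.le
    have hNe : N / e ≤ N := Nat.div_le_self _ _
    have hS := hsum (N / e) hNe
    have hS0 : 0 ≤ ∑ m ∈ Finset.Icc 1 (N / e), (1 : ℝ) / m :=
      sum_nonneg fun m _ => by positivity
    have step1 : ∀ x : ℝ, ∑ m₁ ∈ Finset.Icc 1 (N / e), ∑ m₂ ∈ Finset.Icc 1 (N / e),
          ((4:ℝ) ^ (e.primeFactors.card) / (m₁ * m₂)) * x =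
          (4:ℝ) ^ (e.primeFactors.card) * (∑ m ∈ Finset.Icc 1 (N / e), (1 : ℝ) / m) ^ 2 * x := by
      intro x
      rw [sq, sum_mul_sum, mul_sum, sum_mul]
      apply sum_congr rfl; intro m₁ _
      rw [mul_sum, sum_mul]
      apply sum_congr rfl; intro m₂ _
      rw [div_mul_div_comm]
      ring
    refine le_trans (b := ∑ m₁ ∈ Finset.Icc 1 (N / e), ∑ m₂ ∈ Finset.Icc 1 (N / e),
          ((4:ℝ) ^ (e.primeFactors.card) / (m₁ * m₂)) * (216 * (H:ℝ) ^ 3)) ?_ ?_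
    · apply sum_le_sum
      intro m₁ _
      apply sum_le_sum
      intro m₂ _
      apply mul_le_mul_of_nonneg_left _ (by positivity)
      exact hin e m₁ m₂ _ (fun z hz => hz.2)
    · rw [step1]
      have hx : (0:ℝ) ≤ 216 * (H:ℝ) ^ 3 := by positivity
      apply mul_le_mul_of_nonneg_right _ hx
      apply mul_le_mul h4 (pow_le_pow_left₀ hS0 hS 2) (by positivity) (by positivity)
  refine hmain.trans ?_
  rw [sum_const, Nat.card_Icc, Nat.add_sub_cancel, nsmul_eq_mul]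
  have hpow : (N:ℝ) ^ η * ((N:ℝ) ^ η) ^ 2 = (N:ℝ) ^ ε := by
    rw [← Real.rpow_natCast ((N:ℝ) ^ η) 2, ← Real.rpow_mul hN0.le, ← Real.rpow_add hN0]
    congr 1
    rw [hη]
    push_cast
    ring
  have hHp : (H:ℝ) ^ (3 + ε) = (H:ℝ) ^ 3 * (H:ℝ) ^ ε := by
    rw [Real.rpow_add hH0]
    congr 1
    exact_mod_cast Real.rpow_natCast (H:ℝ) 3
  have hNHε : (N:ℝ) ^ ε ≤ (H:ℝ) ^ ε := Real.rpow_le_rpow hN0.le hNH' hε.le
  calc (N:ℝ) * ((C₁ * (N:ℝ) ^ η) * (C₂ * (N:ℝ) ^ η) ^ 2 * (216 * (H:ℝ) ^ 3))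
      = 216 * C₁ * C₂ ^ 2 * ((H:ℝ) ^ 3 * ((N:ℝ) ^ η * ((N:ℝ) ^ η) ^ 2)) * N := by ring
    _ = 216 * C₁ * C₂ ^ 2 * ((H:ℝ) ^ 3 * (N:ℝ) ^ ε) * N := by rw [hpow]
    _ ≤ 216 * C₁ * C₂ ^ 2 * ((H:ℝ) ^ 3 * (H:ℝ) ^ ε) * N := by gcongr
    _ = 216 * C₁ * C₂ ^ 2 * (H:ℝ) ^ (3 + ε) * N := by rw [hHp]

end Pool.Agent.TCub
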