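import Pool.Agent.TCub.Stmts

open Finset

namespace Pool.Agent.TCub

namespace LS1

theorem psi_nonneg (H : ℕ) (L : ℝ) (z : ℤ) : 0 ≤ psi H L z := by
  unfold psi
  split_ifs
  · positivity
  · exact le_min (by positivity) (by positivity)

theorem psi_le (H : ℕ) (L : ℝ) (z : ℤ) : psi H L z ≤ 6 * H := by
  unfold psi
  split_ifs
  · exact le_refl _
  · exact min_le_left _ _

theorem psi_neg (H : ℕ) (L : ℝ) (z : ℤ) : psi H L (-z) = psi H L z := by
  unfold psi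
  simp

theorem psi_zero (H : ℕ) (L : ℝ) : psi H L 0 = 6 * H := by
  unfold psi
  simp

theorem prod_le (H : ℕ) (L : ℝ) (a : ℤ) :
    psi H L 0 * psi H L a * psi H L (-a) ≤ (6 * H) ^ 2 * psi H L a := by
  rw [psi_neg, psi_zero]
  have h1 := psi_le H L a
  have h0 := psi_nonneg H L a
  have : (6 * (H:ℝ)) * psi H L a * psi H L a ≤ 6 * (H:ℝ) * psi H L a * (6 * H) :=
    mul_le_mul_of_nonneg_left h1 (by positivity)
  calc (6 * (H:ℝ)) * psi H L a * psi H L a ≤ 6 * (H:ℝ) * psi H L a * (6 * H) := this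
    _ = (6 * H) ^ 2 * psi H L a := by ring

/-- the three families of zeros -/
def ph (j : Fin 3) (a : ℤ) : Fin 3 → ℤ :=
  if j = 0 then ![0, a, -a] else if j = 1 then ![a, 0, -a] else ![a, -a, 0]

theorem ph_inj (j : Fin 3) : Function.Injective (ph j) := by
  intro a b h
  unfold ph at h
  fin_cases j
  · simpa using congrFun h 1
  · simpa using congrFun h 0
  · simpa using congrFun h 0

theorem ph_prod (H : ℕ) (L : ℝ) (j : Fin 3) (a : ℤ) :
    ∏ i, psi H L (ph j a i) ≤ (6 * H) ^ 2 * psi H L a := by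
  rw [Fin.prod_univ_three]
  fin_cases j
  · simpa [ph] using prod_le H L a
  · have := prod_le H L a
    simp [ph]
    linarith
  · have := prod_le H L a
    simp [ph]
    linarith

theorem sum_biUnion_le' {ι α : Type*} [DecidableEq α] (s : Finset ι) (t : ι → Finset α)
    (f : α → ℝ) (hf : ∀ a, 0 ≤ f a) : ∑ a ∈ s.biUnion t, f a ≤ ∑ i ∈ s, ∑ a ∈ t i, f a := by
  classical
  induction s using Finset.induction_on with
  | empty => simp
  | insert i s hi ih =>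
    rw [Finset.biUnion_insert, Finset.sum_insert hi]
    have h := Finset.sum_union_inter (s₁ := t i) (s₂ := s.biUnion t) (f := f)
    have h2 : 0 ≤ ∑ a ∈ t i ∩ s.biUnion t, f a := Finset.sum_nonneg (fun a _ => hf a)
    linarith

theorem inner (hfermat : St_fermat) {C₁ : ℝ} {H : ℕ} {n : ℕ} {L : ℕ} (hL : 1 ≤ L)
    (hpsi : ∀ Z : ℕ, ∑ z ∈ (Finset.Icc (-(Z:ℤ)) Z).erase 0, psi H L z ≤ C₁ * L)
    (s : Finset (Fin 3 → ℤ)) (hs : ∀ z ∈ s, z ∈ symb L ∧ z ≠ 0 ∧ F3 z = 0) :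
    ∑ z ∈ s, ∏ i, psi H L (z i) ≤ 3 * (6 * H) ^ 2 * (C₁ * L) := by
  classical
  set A : Finset ℤ := (Finset.Icc (-(L:ℤ)) L).erase 0 with hA
  have hsub : s ⊆ (Finset.univ : Finset (Fin 3)).biUnion (fun j => A.image (ph j)) := by
    intro z hz
    obtain ⟨hsy, hz0, hF⟩ := hs z hz
    unfold symb at hsy
    rw [Fintype.mem_piFinset] at hsy
    have hb : ∀ i, z i ∈ Finset.Icc (-(L:ℤ)) L := fun i => (Finset.mem_filter.1 (hsy i)).1
    rw [Finset.mem_biUnion]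
    rcases hfermat z hF with ⟨h1, h2⟩ | ⟨h1, h2⟩ | ⟨h1, h2⟩
    · refine ⟨0, Finset.mem_univ _, Finset.mem_image.2 ⟨z 1, ?_, ?_⟩⟩
      · rw [hA, Finset.mem_erase]
        refine ⟨?_, hb 1⟩
        intro h
        apply hz0
        funext i
        fin_cases i
        · exact h1
        · exact h
        · show z 2 = 0
          omega
      · funext i
        fin_cases i
        · simp [ph, h1]
        · simp [ph]
        · simp [ph, h2]
    · refine ⟨1, Finset.mem_univ _, Finset.mem_image.2 ⟨z 0, ?_, ?_⟩⟩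
      · rw [hA, Finset.mem_erase]
        refine ⟨?_, hb 0⟩
        intro h
        apply hz0
        funext i
        fin_cases i
        · exact h
        · exact h1
        · show z 2 = 0
          omega
      · funext i
        fin_cases i
        · simp [ph]
        · simp [ph, h1]
        · simp [ph, h2]
    · refine ⟨2, Finset.mem_univ _, Finset.mem_image.2 ⟨z 0, ?_, ?_⟩⟩
      · rw [hA, Finset.mem_erase]
        refine ⟨?_, hb 0⟩
        intro h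
        apply hz0
        funext i
        fin_cases i
        · exact h
        · show z 1 = 0
          omega
        · exact h1
      · funext i
        fin_cases i
        · simp [ph]
        · simp [ph, h2]
        · simp [ph, h1]
  have hnn : ∀ z : Fin 3 → ℤ, 0 ≤ ∏ i, psi H L (z i) :=
    fun z => Finset.prod_nonneg (fun i _ => psi_nonneg _ _ _)
  calc ∑ z ∈ s, ∏ i, psi H L (z i)
      ≤ ∑ z ∈ (Finset.univ : Finset (Fin 3)).biUnion (fun j => A.image (ph j)),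
          ∏ i, psi H L (z i) :=
        Finset.sum_le_sum_of_subset_of_nonneg hsub (fun z _ _ => hnn z)
    _ ≤ ∑ j : Fin 3, ∑ z ∈ A.image (ph j), ∏ i, psi H L (z i) := by
        exact sum_biUnion_le' _ _ _ hnn
    _ ≤ ∑ j : Fin 3, (6 * H) ^ 2 * (C₁ * L) := by
        refine Finset.sum_le_sum (fun j _ => ?_)
        rw [Finset.sum_image (fun a _ b _ h => ph_inj j h)]
        calc ∑ a ∈ A, ∏ i, psi H L (ph j a i) ≤ ∑ a ∈ A, (6 * H) ^ 2 * psi H L a :=
              Finset.sum_le_sum (fun a _ => ph_prod H L j a)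
          _ = (6 * H) ^ 2 * ∑ a ∈ A, psi H L a := by rw [Finset.mul_sum]
          _ ≤ (6 * H) ^ 2 * (C₁ * L) :=
              mul_le_mul_of_nonneg_left (hpsi L) (by positivity)
    _ = 3 * (6 * H) ^ 2 * (C₁ * L) := by
        simp
        ring

end LS1

open LS1 in
theorem tLS1 (hdiv : St_div) (hfermat : St_fermat) (hpsi : St_psi) : St_LS012 (fun z => z ≠ 0 ∧ F3 z = 0) := by
  intro ε hε
  obtain ⟨C₁, hC₁, hps⟩ := hpsi
  obtain ⟨C₂, hC₂, hdv⟩ := hdiv (ε / 2) (by positivity) 4 (by norm_num)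
  refine ⟨108 * C₁ * C₂ * (1 + 2 / ε), by positivity, ?_⟩
  intro N H hN hNH
  classical
  have hH : 1 ≤ H := hN.trans hNH
  have hHr : (1:ℝ) ≤ H := by exact_mod_cast hH
  have hNr : (1:ℝ) ≤ N := by exact_mod_cast hN
  have hNHr : (N:ℝ) ≤ H := by exact_mod_cast hNH
  -- term bound
  have hterm : ∀ e ∈ Finset.Icc 1 N, ∀ m₁ ∈ Finset.Icc 1 (N / e), ∀ m₂ ∈ Finset.Icc 1 (N / e),
      ((4:ℝ) ^ (e.primeFactors.card) / (m₁ * m₂)) *
        ∑ z ∈ (symb (e * m₁ * m₂)).filter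
            (fun z => ((m₁ * m₂ : ℕ) : ℤ) ∣ F3 z ∧ (z ≠ 0 ∧ F3 z = 0)),
          ∏ i, psi H (e * m₁ * m₂) (z i) ≤ 108 * C₁ * C₂ * H ^ 2 * (H:ℝ) ^ (ε / 2) * e := by
    intro e he m₁ hm₁ m₂ hm₂
    rw [Finset.mem_Icc] at he hm₁ hm₂
    have hL : 1 ≤ e * m₁ * m₂ := Nat.mul_pos (Nat.mul_pos he.1 hm₁.1) hm₂.1
    have hin := inner (H := H) (n := 0) (L := e * m₁ * m₂) (C₁ := C₁) hfermat hL
      (fun Z => (hps H hH _ (by exact_mod_cast hL) Z).1)
      ((symb (e * m₁ * m₂)).filter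
            (fun z => ((m₁ * m₂ : ℕ) : ℤ) ∣ F3 z ∧ (z ≠ 0 ∧ F3 z = 0)))
      (by
        intro z hz
        rw [Finset.mem_filter] at hz
        exact ⟨hz.1, hz.2.2.1, hz.2.2.2⟩)
    push_cast at hin
    have hm1 : (0:ℝ) < m₁ := by exact_mod_cast hm₁.1
    have hm2 : (0:ℝ) < m₂ := by exact_mod_cast hm₂.1
    have he0 : (0:ℝ) < e := by exact_mod_cast he.1
    have h4 : (4:ℝ) ^ (e.primeFactors.card) ≤ C₂ * (H:ℝ) ^ (ε / 2) := by
      refine ((hdv e he.1).1).trans (mul_le_mul_of_nonneg_left ?_ hC₂.le)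
      refine Real.rpow_le_rpow he0.le ?_ (by positivity)
      exact_mod_cast he.2.trans hNH
    calc ((4:ℝ) ^ (e.primeFactors.card) / (m₁ * m₂)) *
        ∑ z ∈ (symb (e * m₁ * m₂)).filter
            (fun z => ((m₁ * m₂ : ℕ) : ℤ) ∣ F3 z ∧ (z ≠ 0 ∧ F3 z = 0)),
          ∏ i, psi H (e * m₁ * m₂) (z i)
        ≤ ((4:ℝ) ^ (e.primeFactors.card) / (m₁ * m₂)) *
          (3 * (6 * H) ^ 2 * (C₁ * (e * m₁ * m₂))) := by
          refine mul_le_mul_of_nonneg_left ?_ (by positivity)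
          push_cast
          exact hin
      _ = 108 * C₁ * H ^ 2 * e * (4:ℝ) ^ (e.primeFactors.card) := by
          field_simp
          ring
      _ ≤ 108 * C₁ * H ^ 2 * e * (C₂ * (H:ℝ) ^ (ε / 2)) :=
          mul_le_mul_of_nonneg_left h4 (by positivity)
      _ = 108 * C₁ * C₂ * H ^ 2 * (H:ℝ) ^ (ε / 2) * e := by ring
  have hsum : LSt N H (fun z => z ≠ 0 ∧ F3 z = 0) ≤
      ∑ e ∈ Finset.Icc 1 N, 108 * C₁ * C₂ * H ^ 2 * (H:ℝ) ^ (ε / 2) * (N:ℝ) ^ 2 * (1 / e) := by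
    unfold LSt
    refine Finset.sum_le_sum (fun e he => ?_)
    have he' := Finset.mem_Icc.1 he
    have he0 : (0:ℝ) < e := by exact_mod_cast he'.1
    have hcard : ((Finset.Icc 1 (N / e)).card : ℝ) ≤ N / e := by
      rw [Nat.card_Icc]
      simp only [Nat.add_sub_cancel]
      exact Nat.cast_div_le
    calc _ ≤ ∑ m₁ ∈ Finset.Icc 1 (N / e), ∑ m₂ ∈ Finset.Icc 1 (N / e),
            108 * C₁ * C₂ * H ^ 2 * (H:ℝ) ^ (ε / 2) * e := by
          refine Finset.sum_le_sum (fun m₁ hm₁ => Finset.sum_le_sum (fun m₂ hm₂ => ?_))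
          have := hterm e he m₁ hm₁ m₂ hm₂
          refine (le_of_eq ?_).trans this
          congr 1
          refine Finset.sum_congr ?_ (fun _ _ => rfl)
          ext z
          simp only [Finset.mem_filter]
      _ = ((Finset.Icc 1 (N / e)).card : ℝ) * ((Finset.Icc 1 (N / e)).card : ℝ) *
            (108 * C₁ * C₂ * H ^ 2 * (H:ℝ) ^ (ε / 2) * e) := by
          simp only [Finset.sum_const, nsmul_eq_mul]
          ring
      _ ≤ (N / e) * (N / e) * (108 * C₁ * C₂ * H ^ 2 * (H:ℝ) ^ (ε / 2) * e) := by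
          refine mul_le_mul_of_nonneg_right ?_ (by positivity)
          exact mul_le_mul hcard hcard (by positivity) (by positivity)
      _ = 108 * C₁ * C₂ * H ^ 2 * (H:ℝ) ^ (ε / 2) * (N:ℝ) ^ 2 * (1 / e) := by
          field_simp
  refine hsum.trans ?_
  rw [← Finset.mul_sum]
  have hharm : ∑ e ∈ Finset.Icc 1 N, (1 / (e:ℝ)) ≤ (1 + 2 / ε) * (H:ℝ) ^ (ε / 2) := by
    have h1 : ∑ e ∈ Finset.Icc 1 N, (1 / (e:ℝ)) = ((harmonic N : ℚ) : ℝ) := by
      rw [harmonic_eq_sum_Icc]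
      push_cast
      exact Finset.sum_congr rfl (fun e _ => by rw [one_div])
    rw [h1]
    refine (harmonic_le_one_add_log N).trans ?_
    have h2 : Real.log N ≤ (N:ℝ) ^ (ε / 2) / (ε / 2) :=
      Real.log_le_rpow_div (by positivity) (by positivity)
    have h3 : (N:ℝ) ^ (ε / 2) ≤ (H:ℝ) ^ (ε / 2) :=
      Real.rpow_le_rpow (by positivity) hNHr (by positivity)
    have h4 : (1:ℝ) ≤ (H:ℝ) ^ (ε / 2) := Real.one_le_rpow hHr (by positivity)
    have h5 : (N:ℝ) ^ (ε / 2) / (ε / 2) ≤ (H:ℝ) ^ (ε / 2) * (2 / ε) := by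
      have : (N:ℝ) ^ (ε / 2) / (ε / 2) = (N:ℝ) ^ (ε / 2) * (2 / ε) := by
        field_simp
      rw [this]
      exact mul_le_mul_of_nonneg_right h3 (by positivity)
    linarith
  have hH3 : (H:ℝ) ^ 2 * (H:ℝ) ^ (ε / 2) * (N:ℝ) ^ 2 * ((H:ℝ) ^ (ε / 2)) ≤
      (H:ℝ) ^ (3 + ε) * N := by
    have e1 : (H:ℝ) ^ (3 + ε) = (H:ℝ) ^ 3 * ((H:ℝ) ^ (ε / 2) * (H:ℝ) ^ (ε / 2)) := by
      rw [← Real.rpow_add (by positivity), ← Real.rpow_natCast, ← Real.rpow_add (by positivity)]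
      congr 1
      push_cast
      ring
    rw [e1]
    have e2 : (H:ℝ) ^ 3 * ((H:ℝ) ^ (ε / 2) * (H:ℝ) ^ (ε / 2)) * N =
      (H:ℝ) ^ 2 * (H:ℝ) ^ (ε / 2) * (N * H) * ((H:ℝ) ^ (ε / 2)) := by ring
    rw [e2]
    refine mul_le_mul_of_nonneg_right ?_ (by positivity)
    refine mul_le_mul_of_nonneg_left ?_ (by positivity)
    rw [sq]
    exact mul_le_mul_of_nonneg_left hNHr (by positivity)
  calc 108 * C₁ * C₂ * (H:ℝ) ^ 2 * (H:ℝ) ^ (ε / 2) * (N:ℝ) ^ 2 * ∑ e ∈ Finset.Icc 1 N, (1 / (e:ℝ))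
      ≤ 108 * C₁ * C₂ * (H:ℝ) ^ 2 * (H:ℝ) ^ (ε / 2) * (N:ℝ) ^ 2 *
        ((1 + 2 / ε) * (H:ℝ) ^ (ε / 2)) := mul_le_mul_of_nonneg_left hharm (by positivity)
    _ = 108 * C₁ * C₂ * (1 + 2 / ε) *
        ((H:ℝ) ^ 2 * (H:ℝ) ^ (ε / 2) * (N:ℝ) ^ 2 * ((H:ℝ) ^ (ε / 2))) := by ring
    _ ≤ 108 * C₁ * C₂ * (1 + 2 / ε) * ((H:ℝ) ^ (3 + ε) * N) :=
        mul_le_mul_of_nonneg_left hH3 (by positivity)
    _ = 108 * C₁ * C₂ * (1 + 2 / ε) * (H:ℝ) ^ (3 + ε) * N := by ring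

end Pool.Agent.TCub
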