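import Pool.Agent.TCub.Stmts

open Finset

namespace Pool.Agent.TCub

namespace LS2

theorem psi_nonneg (H : ℕ) (L : ℝ) (z : ℤ) : 0 ≤ psi H L z := by
  unfold psi
  split_ifs
  · positivity
  · apply le_min
    · positivity
    · positivity

theorem psi_mono (H : ℕ) {L L' : ℝ} (hL : 0 ≤ L) (h : L ≤ L') (z : ℤ) :
    psi H L z ≤ psi H L' z := by
  unfold psi
  split_ifs
  · exact le_rfl
  · apply min_le_min le_rfl
    apply div_le_div_of_nonneg_right _ (by positivity)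
    exact pow_le_pow_left₀ hL h 2

theorem psi_key {H : ℕ} (hH : 1 ≤ H) {e k : ℝ} (he : 0 < e) (hk : 0 < k) {z : ℤ} (hz : z ≠ 0) :
    1 / k * psi H (e * k) z ≤ 3 * e / |(z : ℝ)| := by
  have hHp : (0 : ℝ) < H := by exact_mod_cast hH
  have hzp : 0 < |(z : ℝ)| := abs_pos.2 (by exact_mod_cast hz)
  have key : psi H (e * k) z ≤ 3 * (e * k) / |(z : ℝ)| := by
    unfold psi
    rw [if_neg hz]
    by_contra hcon
    push Not at hcon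
    rw [lt_min_iff] at hcon
    obtain ⟨h1, h2⟩ := hcon
    have hzz : (z : ℝ) ^ 2 = |(z : ℝ)| ^ 2 := (sq_abs _).symm
    rw [hzz] at h2
    rw [div_lt_iff₀ hzp] at h1
    rw [div_lt_div_iff₀ hzp (by positivity)] at h2
    -- h1 : 3 e k < 6 H |z| ; h2 : 3 e k (H |z|^2) < (e k)^2 |z|
    have h3 : 3 * (H * |(z : ℝ)|) < e * k := by
      have h4 : (3 * (H * |(z : ℝ)|)) * ((e * k) * |(z : ℝ)|) < (e * k) * ((e * k) * |(z : ℝ)|) := by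
        nlinarith
      exact lt_of_mul_lt_mul_right h4 (by positivity)
    nlinarith
  calc 1 / k * psi H (e * k) z ≤ 1 / k * (3 * (e * k) / |(z : ℝ)|) :=
        mul_le_mul_of_nonneg_left key (by positivity)
    _ = 3 * e / |(z : ℝ)| := by field_simp

theorem harm (δ : ℝ) (hδ : 0 < δ) : ∃ C : ℝ, 0 < C ∧ ∀ Z : ℕ, 1 ≤ Z →
    ∑ e ∈ Finset.Icc 1 Z, (1 : ℝ) / e ≤ C * (Z : ℝ) ^ δ := by
  refine ⟨1 + 1 / δ, by positivity, fun Z hZ => ?_⟩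
  have h1 : ∑ e ∈ Finset.Icc 1 Z, (1 : ℝ) / e ≤ 1 + Real.log Z := by
    have h2 := harmonic_le_one_add_log Z
    rw [harmonic_eq_sum_Icc] at h2
    push_cast at h2
    simpa using h2
  have hZ1 : (1 : ℝ) ≤ Z := by exact_mod_cast hZ
  have h3 : Real.log Z ≤ (Z : ℝ) ^ δ / δ := Real.log_le_rpow_div (by linarith) hδ
  have h4 : 1 ≤ (Z : ℝ) ^ δ := Real.one_le_rpow hZ1 hδ.le
  calc _ ≤ 1 + Real.log Z := h1
    _ ≤ (Z : ℝ) ^ δ + (Z : ℝ) ^ δ / δ := add_le_add h4 h3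
    _ = _ := by ring

theorem harmZ (Z : ℕ) :
    ∑ t ∈ (Finset.Icc (-(Z : ℤ)) Z).erase 0, (1 : ℝ) / |(t : ℝ)| ≤
      2 * ∑ e ∈ Finset.Icc 1 Z, (1 : ℝ) / e := by
  classical
  have hsub : (Finset.Icc (-(Z : ℤ)) Z).erase 0 ⊆
      (Finset.Icc 1 Z).image (fun k : ℕ => (k : ℤ)) ∪ (Finset.Icc 1 Z).image (fun k : ℕ => -(k : ℤ)) := by
    intro t ht
    rw [mem_erase, mem_Icc] at ht
    rw [mem_union, mem_image, mem_image]
    rcases lt_or_gt_of_ne ht.1 with h | h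
    · right
      refine ⟨t.natAbs, ?_, by omega⟩
      rw [mem_Icc]; omega
    · left
      refine ⟨t.natAbs, ?_, by omega⟩
      rw [mem_Icc]; omega
  have h1 := Finset.sum_le_sum_of_subset_of_nonneg (f := fun t : ℤ => (1 : ℝ) / |(t : ℝ)|) hsub
    (fun t _ _ => by positivity)
  refine le_trans h1 ?_
  have h2 := Finset.sum_union_inter (f := fun t : ℤ => (1 : ℝ) / |(t : ℝ)|)
    (s₁ := (Finset.Icc 1 Z).image (fun k : ℕ => (k : ℤ)))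
    (s₂ := (Finset.Icc 1 Z).image (fun k : ℕ => -(k : ℤ)))
  have h3 : 0 ≤ ∑ t ∈ (Finset.Icc 1 Z).image (fun k : ℕ => (k : ℤ)) ∩
      (Finset.Icc 1 Z).image (fun k : ℕ => -(k : ℤ)), (1 : ℝ) / |(t : ℝ)| :=
    Finset.sum_nonneg fun t _ => by positivity
  have h4 : ∑ t ∈ (Finset.Icc 1 Z).image (fun k : ℕ => (k : ℤ)), (1 : ℝ) / |(t : ℝ)| =
      ∑ e ∈ Finset.Icc 1 Z, (1 : ℝ) / e := by
    rw [Finset.sum_image (by intro a _ b _ h; simpa using h)]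
    refine Finset.sum_congr rfl fun k _ => ?_
    simp
  have h5 : ∑ t ∈ (Finset.Icc 1 Z).image (fun k : ℕ => -(k : ℤ)), (1 : ℝ) / |(t : ℝ)| =
      ∑ e ∈ Finset.Icc 1 Z, (1 : ℝ) / e := by
    rw [Finset.sum_image (by intro a _ b _ h; simpa using h)]
    refine Finset.sum_congr rfl fun k _ => ?_
    simp
  linarith

/-- number of pairs with `m₁ m₂ ∣ F` -/
theorem pairs {F : ℤ} (hF : F ≠ 0) (A : ℕ) :
    ∑ m₁ ∈ Finset.Icc 1 A, ∑ m₂ ∈ Finset.Icc 1 A, (if ((m₁ * m₂ : ℕ) : ℤ) ∣ F then (1 : ℝ) else 0) ≤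
      (F.natAbs.divisors.card : ℝ) ^ 2 := by
  rw [← Finset.sum_product']
  rw [← Finset.sum_filter, Finset.sum_const, nsmul_eq_mul, mul_one]
  have h1 : ((Finset.Icc 1 A ×ˢ Finset.Icc 1 A).filter
      (fun a : ℕ × ℕ => ((a.1 * a.2 : ℕ) : ℤ) ∣ F)) ⊆ F.natAbs.divisors ×ˢ F.natAbs.divisors := by
    intro a ha
    rw [mem_filter] at ha
    rw [mem_product, Nat.mem_divisors, Nat.mem_divisors]
    have h2 : a.1 * a.2 ∣ F.natAbs := Int.natCast_dvd.1 ha.2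
    have h3 : F.natAbs ≠ 0 := Int.natAbs_ne_zero.2 hF
    exact ⟨⟨(Dvd.intro _ rfl : a.1 ∣ a.1 * a.2).trans h2, h3⟩,
      ⟨(Dvd.intro_left _ rfl : a.2 ∣ a.1 * a.2).trans h2, h3⟩⟩
  have h4 := Finset.card_le_card h1
  rw [Finset.card_product] at h4
  calc _ ≤ ((F.natAbs.divisors.card * F.natAbs.divisors.card : ℕ) : ℝ) := by exact_mod_cast h4
    _ = _ := by push_cast; ring

/-- the factor in coordinate `j` of the `i`-th majorant -/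
noncomputable def gg (H : ℕ) (L e : ℝ) (i j : Fin 3) (t : ℤ) : ℝ :=
  if j = i then (if t = 0 then 0 else 3 * e / |(t : ℝ)|) else psi H L t

theorem gg_nonneg (H : ℕ) {L e : ℝ} (he : 0 < e) (i j : Fin 3) (t : ℤ) : 0 ≤ gg H L e i j t := by
  unfold gg
  split_ifs
  · exact le_rfl
  · positivity
  · exact psi_nonneg _ _ _

/-- the majorant -/
noncomputable def ff (H : ℕ) (L e : ℝ) (z : Fin 3 → ℤ) : ℝ := ∑ i, ∏ j, gg H L e i j (z j)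

theorem ff_nonneg (H : ℕ) {L e : ℝ} (he : 0 < e) (z : Fin 3 → ℤ) : 0 ≤ ff H L e z :=
  Finset.sum_nonneg fun i _ => Finset.prod_nonneg fun j _ => gg_nonneg H he i j _

theorem prod_le_ff {H : ℕ} (hH : 1 ≤ H) {e k L : ℝ} (he : 0 < e) (hk : 0 < k) (hL : e * k ≤ L)
    {z : Fin 3 → ℤ} (hz : z ≠ 0) : 1 / k * ∏ i, psi H (e * k) (z i) ≤ ff H L e z := by
  obtain ⟨i, hi⟩ : ∃ i, z i ≠ 0 := by
    by_contra h
    push Not at h
    exact hz (funext h)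
  have h1 : 1 / k * ∏ i, psi H (e * k) (z i) ≤ ∏ j, gg H L e i j (z j) := by
    rw [← Finset.mul_prod_erase univ _ (mem_univ i), ← Finset.mul_prod_erase univ _ (mem_univ i),
      ← mul_assoc]
    apply mul_le_mul
    · have h2 := psi_key hH he hk hi
      unfold gg
      rw [if_pos rfl, if_neg hi]
      exact h2
    · apply Finset.prod_le_prod
      · intro j _
        exact psi_nonneg _ _ _
      · intro j hj
        unfold gg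
        rw [if_neg (ne_of_mem_erase hj)]
        exact psi_mono H (by positivity) hL _
    · exact Finset.prod_nonneg fun j _ => psi_nonneg _ _ _
    · exact gg_nonneg H he i i _
  refine le_trans h1 ?_
  exact Finset.single_le_sum (f := fun i => ∏ j, gg H L e i j (z j))
    (fun i _ => Finset.prod_nonneg fun j _ => gg_nonneg H he i j _) (mem_univ i)

theorem sum_ff (H Z : ℕ) (L e : ℝ) :
    ∑ z ∈ cube Z, ff H L e z =
      3 * ((3 * e * ∑ t ∈ (Finset.Icc (-(Z : ℤ)) Z).erase 0, (1 : ℝ) / |(t : ℝ)|) *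
        (∑ t ∈ Finset.Icc (-(Z : ℤ)) Z, psi H L t) ^ 2) := by
  have h1 : ∑ t ∈ Finset.Icc (-(Z : ℤ)) Z, (if t = 0 then (0 : ℝ) else 3 * e / |(t : ℝ)|) =
      3 * e * ∑ t ∈ (Finset.Icc (-(Z : ℤ)) Z).erase 0, (1 : ℝ) / |(t : ℝ)| := by
    rw [← Finset.add_sum_erase _ _ (show (0 : ℤ) ∈ Finset.Icc (-(Z : ℤ)) Z by
      rw [mem_Icc]; omega), if_pos rfl, zero_add, Finset.mul_sum]
    refine Finset.sum_congr rfl fun t ht => ?_
    rw [if_neg (ne_of_mem_erase ht)]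
    ring
  unfold ff cube
  rw [Finset.sum_comm]
  have h2 : ∀ i : Fin 3, ∑ z ∈ Fintype.piFinset fun _ : Fin 3 => Finset.Icc (-(Z : ℤ)) Z,
      ∏ j, gg H L e i j (z j) =
      (3 * e * ∑ t ∈ (Finset.Icc (-(Z : ℤ)) Z).erase 0, (1 : ℝ) / |(t : ℝ)|) *
        (∑ t ∈ Finset.Icc (-(Z : ℤ)) Z, psi H L t) ^ 2 := by
    intro i
    rw [← Finset.prod_univ_sum, ← h1]
    fin_cases i <;> simp [gg, Fin.prod_univ_three] <;> ring
  rw [Finset.sum_congr rfl fun i _ => h2 i]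
  simp

theorem symb_sub {L Z : ℕ} (h : L ≤ Z) : symb L ⊆ cube Z := by
  intro z hz
  unfold symb at hz
  unfold cube
  rw [Fintype.mem_piFinset] at hz ⊢
  intro i
  have := hz i
  rw [mem_filter, mem_Icc] at this
  rw [mem_Icc]
  have : (L : ℤ) ≤ Z := by exact_mod_cast h
  omega

theorem F3_bound {Z : ℕ} {z : Fin 3 → ℤ} (hz : z ∈ cube Z) : (F3 z).natAbs ≤ 3 * Z ^ 3 := by
  unfold cube at hz
  rw [Fintype.mem_piFinset] at hz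
  have h1 : ∀ i, |z i ^ 3| ≤ (Z : ℤ) ^ 3 := by
    intro i
    rw [abs_pow]
    have := hz i
    rw [mem_Icc] at this
    exact pow_le_pow_left₀ (abs_nonneg _) (abs_le.2 this) 3
  have h2 : |F3 z| ≤ 3 * (Z : ℤ) ^ 3 := by
    unfold F3
    calc |z 0 ^ 3 + z 1 ^ 3 + z 2 ^ 3| ≤ |z 0 ^ 3| + |z 1 ^ 3| + |z 2 ^ 3| := abs_add_three _ _ _
      _ ≤ (Z : ℤ) ^ 3 + (Z : ℤ) ^ 3 + (Z : ℤ) ^ 3 := add_le_add (add_le_add (h1 0) (h1 1)) (h1 2)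
      _ = 3 * (Z : ℤ) ^ 3 := by ring
  have h3 : ((F3 z).natAbs : ℤ) = |F3 z| := Int.natCast_natAbs _
  have h4 : ((F3 z).natAbs : ℤ) ≤ ((3 * Z ^ 3 : ℕ) : ℤ) := by
    rw [h3]; push_cast; exact h2
  exact_mod_cast h4

/-- the inner sums for fixed `e` -/
theorem inner_le {N H e : ℕ} (hH : 1 ≤ H) (he : 1 ≤ e) (heN : e ≤ N) {T : ℝ}
    (hT : ∀ n : ℕ, 1 ≤ n → n ≤ 3 * (N ^ 2) ^ 3 → (n.divisors.card : ℝ) ≤ T) :
    ∑ m₁ ∈ Finset.Icc 1 (N / e), ∑ m₂ ∈ Finset.Icc 1 (N / e),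
      ((4:ℝ) ^ (e.primeFactors.card) / (m₁ * m₂)) *
      ∑ z ∈ (symb (e * m₁ * m₂)).filter (fun z => ((m₁ * m₂ : ℕ) : ℤ) ∣ F3 z ∧ F3 z ≠ 0),
        ∏ i, psi H (e * m₁ * m₂) (z i) ≤
      (4:ℝ) ^ (e.primeFactors.card) * (T ^ 2 * ∑ z ∈ cube (N ^ 2), ff H ((N : ℝ) ^ 2 / e) e z) := by
  have heR : (0 : ℝ) < e := by exact_mod_cast he
  have step1 : ∀ m₁ ∈ Finset.Icc 1 (N / e), ∀ m₂ ∈ Finset.Icc 1 (N / e),
      ((4:ℝ) ^ (e.primeFactors.card) / (m₁ * m₂)) *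
      ∑ z ∈ (symb (e * m₁ * m₂)).filter (fun z => ((m₁ * m₂ : ℕ) : ℤ) ∣ F3 z ∧ F3 z ≠ 0),
        ∏ i, psi H (e * m₁ * m₂) (z i) ≤
      (4:ℝ) ^ (e.primeFactors.card) * ∑ z ∈ (cube (N ^ 2)).filter (fun z => F3 z ≠ 0),
        (if ((m₁ * m₂ : ℕ) : ℤ) ∣ F3 z then (1 : ℝ) else 0) * ff H ((N : ℝ) ^ 2 / e) e z := by
    intro m₁ hm₁ m₂ hm₂
    rw [mem_Icc] at hm₁ hm₂
    have hm₁R : (0 : ℝ) < m₁ := by exact_mod_cast hm₁.1
    have hm₂R : (0 : ℝ) < m₂ := by exact_mod_cast hm₂.1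
    have hle1 : e * m₁ ≤ N := by
      calc e * m₁ ≤ e * (N / e) := Nat.mul_le_mul_left _ hm₁.2
        _ ≤ N := Nat.mul_div_le N e
    have hle2 : e * m₂ ≤ N := by
      calc e * m₂ ≤ e * (N / e) := Nat.mul_le_mul_left _ hm₂.2
        _ ≤ N := Nat.mul_div_le N e
    have hm₂N : m₂ ≤ N := le_trans (Nat.le_mul_of_pos_left m₂ he) hle2
    have hL : e * m₁ * m₂ ≤ N ^ 2 := by
      calc e * m₁ * m₂ ≤ N * N := Nat.mul_le_mul hle1 hm₂N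
        _ = N ^ 2 := by ring
    have hLR : (e : ℝ) * (m₁ * m₂) ≤ (N : ℝ) ^ 2 / e := by
      rw [le_div_iff₀ heR]
      have h1 : (e * m₁) * (e * m₂) ≤ N * N := Nat.mul_le_mul hle1 hle2
      have h2 : ((e : ℝ) * m₁) * (e * m₂) ≤ N * N := by exact_mod_cast h1
      calc (e : ℝ) * (m₁ * m₂) * e = ((e : ℝ) * m₁) * (e * m₂) := by ring
        _ ≤ N * N := h2
        _ = (N : ℝ) ^ 2 := by ring
    rw [div_mul_eq_mul_div, mul_div_assoc]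
    apply mul_le_mul_of_nonneg_left _ (by positivity)
    rw [div_eq_inv_mul, Finset.mul_sum]
    have hsub : (symb (e * m₁ * m₂)).filter (fun z => ((m₁ * m₂ : ℕ) : ℤ) ∣ F3 z ∧ F3 z ≠ 0) ⊆
        (cube (N ^ 2)).filter (fun z => F3 z ≠ 0) := by
      intro z hz
      rw [mem_filter] at hz ⊢
      exact ⟨symb_sub hL hz.1, hz.2.2⟩
    have hterm : ∀ z ∈ (symb (e * m₁ * m₂)).filter
        (fun z => ((m₁ * m₂ : ℕ) : ℤ) ∣ F3 z ∧ F3 z ≠ 0),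
        ((m₁ : ℝ) * m₂)⁻¹ * ∏ i, psi H (e * m₁ * m₂) (z i) ≤
        (if ((m₁ * m₂ : ℕ) : ℤ) ∣ F3 z then (1 : ℝ) else 0) * ff H ((N : ℝ) ^ 2 / e) e z := by
      intro z hz
      rw [mem_filter] at hz
      rw [if_pos hz.2.1, one_mul]
      have hz0 : z ≠ 0 := by
        rintro rfl
        exact hz.2.2 (by simp [F3])
      have h3 := prod_le_ff (k := (m₁ : ℝ) * m₂) hH heR (by positivity) hLR hz0
      rw [one_div, ← mul_assoc] at h3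
      exact h3
    refine le_trans (Finset.sum_le_sum hterm) ?_
    apply Finset.sum_le_sum_of_subset_of_nonneg hsub
    intro z _ _
    apply mul_nonneg _ (ff_nonneg H heR z)
    split_ifs <;> norm_num
  refine le_trans (Finset.sum_le_sum fun m₁ hm₁ => Finset.sum_le_sum fun m₂ hm₂ =>
    step1 m₁ hm₁ m₂ hm₂) ?_
  have step2 : ∑ m₁ ∈ Finset.Icc 1 (N / e), ∑ m₂ ∈ Finset.Icc 1 (N / e),
      (4:ℝ) ^ (e.primeFactors.card) * ∑ z ∈ (cube (N ^ 2)).filter (fun z => F3 z ≠ 0),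
        (if ((m₁ * m₂ : ℕ) : ℤ) ∣ F3 z then (1 : ℝ) else 0) * ff H ((N : ℝ) ^ 2 / e) e z =
      (4:ℝ) ^ (e.primeFactors.card) * ∑ z ∈ (cube (N ^ 2)).filter (fun z => F3 z ≠ 0),
        (∑ m₁ ∈ Finset.Icc 1 (N / e), ∑ m₂ ∈ Finset.Icc 1 (N / e),
          (if ((m₁ * m₂ : ℕ) : ℤ) ∣ F3 z then (1 : ℝ) else 0)) * ff H ((N : ℝ) ^ 2 / e) e z := by
    rw [Finset.mul_sum]
    simp_rw [Finset.sum_mul, Finset.mul_sum]
    rw [Finset.sum_comm]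
    have : ∀ m₂ ∈ Finset.Icc 1 (N / e), ∑ m₁ ∈ Finset.Icc 1 (N / e),
        ∑ z ∈ (cube (N ^ 2)).filter (fun z => F3 z ≠ 0), (4:ℝ) ^ (e.primeFactors.card) *
        ((if ((m₁ * m₂ : ℕ) : ℤ) ∣ F3 z then (1 : ℝ) else 0) * ff H ((N : ℝ) ^ 2 / e) e z) =
        ∑ z ∈ (cube (N ^ 2)).filter (fun z => F3 z ≠ 0), ∑ m₁ ∈ Finset.Icc 1 (N / e),
        (4:ℝ) ^ (e.primeFactors.card) *
        ((if ((m₁ * m₂ : ℕ) : ℤ) ∣ F3 z then (1 : ℝ) else 0) * ff H ((N : ℝ) ^ 2 / e) e z) :=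
      fun m₂ _ => Finset.sum_comm
    rw [Finset.sum_congr rfl this, Finset.sum_comm]
    refine Finset.sum_congr rfl fun z _ => ?_
    rw [Finset.sum_comm]
  rw [step2]
  apply mul_le_mul_of_nonneg_left _ (by positivity)
  rw [Finset.mul_sum]
  have step3 : ∀ z ∈ (cube (N ^ 2)).filter (fun z => F3 z ≠ 0),
      (∑ m₁ ∈ Finset.Icc 1 (N / e), ∑ m₂ ∈ Finset.Icc 1 (N / e),
          (if ((m₁ * m₂ : ℕ) : ℤ) ∣ F3 z then (1 : ℝ) else 0)) * ff H ((N : ℝ) ^ 2 / e) e z ≤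
      T ^ 2 * ff H ((N : ℝ) ^ 2 / e) e z := by
    intro z hz
    rw [mem_filter] at hz
    apply mul_le_mul_of_nonneg_right _ (ff_nonneg H heR z)
    refine le_trans (pairs hz.2 _) ?_
    apply pow_le_pow_left₀ (by positivity)
    apply hT
    · exact Nat.one_le_iff_ne_zero.2 (Int.natAbs_ne_zero.2 hz.2)
    · exact F3_bound hz.1
  refine le_trans (Finset.sum_le_sum step3) ?_
  apply Finset.sum_le_sum_of_subset_of_nonneg (Finset.filter_subset _ _)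
  intro z _ _
  exact mul_nonneg (by positivity) (ff_nonneg H heR z)

end LS2

open LS2 in
theorem tLS2 (hdiv : St_div) (hpsi : St_psi) : St_LS012 (fun z => F3 z ≠ 0) := by
  intro ε hε
  obtain ⟨C0, hC0, hpsi⟩ := hpsi
  set δ : ℝ := ε / 16 with hδ
  have hδ0 : 0 < δ := by positivity
  obtain ⟨C1, hC1, hdiv⟩ := hdiv δ hδ0 4 (by norm_num)
  obtain ⟨C3, hC3, hharm⟩ := harm δ hδ0
  refine ⟨C1 * (C1 * 3 ^ δ) ^ 2 * (9 * (2 * C3) * C0 ^ 2) * (2 + 2 * C3), by positivity, ?_⟩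
  intro N H hN hNH
  have hH : 1 ≤ H := le_trans hN hNH
  have hNR : (1 : ℝ) ≤ N := by exact_mod_cast hN
  have hHR : (1 : ℝ) ≤ H := by exact_mod_cast hH
  have hNHR : (N : ℝ) ≤ H := by exact_mod_cast hNH
  set x : ℝ := (H : ℝ) ^ δ with hx
  have hx1 : 1 ≤ x := Real.one_le_rpow hHR hδ0.le
  have hx0 : 0 < x := by linarith
  have hNx : (N : ℝ) ^ δ ≤ x := Real.rpow_le_rpow (by linarith) hNHR hδ0.le
  have hNx0 : 0 ≤ (N : ℝ) ^ δ := Real.rpow_nonneg (by linarith) _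
  have hZx : ((N ^ 2 : ℕ) : ℝ) ^ δ ≤ x ^ 2 := by
    push_cast
    rw [← Real.rpow_natCast (N : ℝ) 2, ← Real.rpow_mul (by linarith), mul_comm, Real.rpow_mul (by linarith),
      Real.rpow_natCast]
    exact pow_le_pow_left₀ hNx0 hNx 2
  -- the divisor bound
  have hT : ∀ n : ℕ, 1 ≤ n → n ≤ 3 * (N ^ 2) ^ 3 → (n.divisors.card : ℝ) ≤ C1 * 3 ^ δ * x ^ 6 := by
    intro n hn1 hn
    refine le_trans (hdiv n hn1).2 ?_
    have h1 : (n : ℝ) ≤ 3 * (N : ℝ) ^ 6 := by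
      have : (n : ℝ) ≤ ((3 * (N ^ 2) ^ 3 : ℕ) : ℝ) := by exact_mod_cast hn
      push_cast at this
      calc (n : ℝ) ≤ 3 * ((N : ℝ) ^ 2) ^ 3 := this
        _ = 3 * (N : ℝ) ^ 6 := by ring
    have h2 : (n : ℝ) ^ δ ≤ (3 * (N : ℝ) ^ 6) ^ δ :=
      Real.rpow_le_rpow (by positivity) h1 hδ0.le
    have h3 : (3 * (N : ℝ) ^ 6) ^ δ = 3 ^ δ * ((N : ℝ) ^ δ) ^ 6 := by
      rw [Real.mul_rpow (by norm_num) (by positivity), ← Real.rpow_natCast (N : ℝ) 6,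
        ← Real.rpow_mul (by linarith), mul_comm ((6 : ℕ) : ℝ) δ, Real.rpow_mul (by linarith),
        Real.rpow_natCast]
    have h4 : ((N : ℝ) ^ δ) ^ 6 ≤ x ^ 6 := pow_le_pow_left₀ hNx0 hNx 6
    calc C1 * (n : ℝ) ^ δ ≤ C1 * (3 ^ δ * ((N : ℝ) ^ δ) ^ 6) := by
          rw [← h3]; exact mul_le_mul_of_nonneg_left h2 hC1.le
      _ ≤ C1 * (3 ^ δ * x ^ 6) := by
          apply mul_le_mul_of_nonneg_left _ hC1.le
          exact mul_le_mul_of_nonneg_left h4 (by positivity)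
      _ = _ := by ring
  -- for each `e`
  have hmain : ∀ e ∈ Finset.Icc 1 N,
      ∑ m₁ ∈ Finset.Icc 1 (N / e), ∑ m₂ ∈ Finset.Icc 1 (N / e),
      ((4:ℝ) ^ (e.primeFactors.card) / (m₁ * m₂)) *
      ∑ z ∈ (symb (e * m₁ * m₂)).filter (fun z => ((m₁ * m₂ : ℕ) : ℤ) ∣ F3 z ∧ F3 z ≠ 0),
        ∏ i, psi H (e * m₁ * m₂) (z i) ≤
      (C1 * x) * ((C1 * 3 ^ δ * x ^ 6) ^ 2 * (9 * (2 * (C3 * x ^ 2)) * C0 ^ 2)) *
        (2 * N * (H : ℝ) ^ 2 + 2 * (N : ℝ) ^ 4 * (1 / e)) := by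
    intro e he
    rw [mem_Icc] at he
    have heR : (1 : ℝ) ≤ e := by exact_mod_cast he.1
    have heR0 : (0 : ℝ) < e := by linarith
    have heN : (e : ℝ) ≤ N := by exact_mod_cast he.2
    refine le_trans (inner_le hH he.1 he.2 hT) ?_
    have h4 : (4:ℝ) ^ (e.primeFactors.card) ≤ C1 * x := by
      refine le_trans (hdiv e he.1).1 ?_
      apply mul_le_mul_of_nonneg_left _ hC1.le
      exact le_trans (Real.rpow_le_rpow (by linarith) heN hδ0.le) hNx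
    have hL1 : (1 : ℝ) ≤ (N : ℝ) ^ 2 / e := by
      rw [le_div_iff₀ heR0]
      nlinarith
    have h5 := (hpsi H hH ((N : ℝ) ^ 2 / e) hL1 (N ^ 2)).2
    have h6 : ∑ t ∈ (Finset.Icc (-((N ^ 2 : ℕ) : ℤ)) ((N ^ 2 : ℕ) : ℤ)).erase 0, (1 : ℝ) / |(t : ℝ)| ≤
        2 * (C3 * x ^ 2) := by
      refine le_trans (harmZ (N ^ 2)) ?_
      have h7 := hharm (N ^ 2) (Nat.one_le_iff_ne_zero.2 (by positivity))
      have h8 : C3 * ((N ^ 2 : ℕ) : ℝ) ^ δ ≤ C3 * x ^ 2 := mul_le_mul_of_nonneg_left hZx hC3.le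
      linarith
    rw [sum_ff]
    have h9 : 0 ≤ ∑ t ∈ Finset.Icc (-((N ^ 2 : ℕ) : ℤ)) ((N ^ 2 : ℕ) : ℤ), psi H ((N : ℝ) ^ 2 / e) t :=
      Finset.sum_nonneg fun t _ => psi_nonneg _ _ _
    have h10 : (∑ t ∈ Finset.Icc (-((N ^ 2 : ℕ) : ℤ)) ((N ^ 2 : ℕ) : ℤ), psi H ((N : ℝ) ^ 2 / e) t) ^ 2 ≤
        (C0 * (H + (N : ℝ) ^ 2 / e)) ^ 2 := pow_le_pow_left₀ h9 h5 2
    have h11 : 3 * ((3 * (e : ℝ) * ∑ t ∈ (Finset.Icc (-((N ^ 2 : ℕ) : ℤ)) ((N ^ 2 : ℕ) : ℤ)).erase 0,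
        (1 : ℝ) / |(t : ℝ)|) *
        (∑ t ∈ Finset.Icc (-((N ^ 2 : ℕ) : ℤ)) ((N ^ 2 : ℕ) : ℤ), psi H ((N : ℝ) ^ 2 / e) t) ^ 2) ≤
        3 * ((3 * e * (2 * (C3 * x ^ 2))) * (C0 * (H + (N : ℝ) ^ 2 / e)) ^ 2) := by
      apply mul_le_mul_of_nonneg_left _ (by norm_num)
      apply mul_le_mul _ h10 (by positivity) (by positivity)
      exact mul_le_mul_of_nonneg_left h6 (by positivity)
    have h12 : 3 * ((3 * (e : ℝ) * (2 * (C3 * x ^ 2))) * (C0 * (H + (N : ℝ) ^ 2 / e)) ^ 2) =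
        (9 * (2 * (C3 * x ^ 2)) * C0 ^ 2) * (e * (H + (N : ℝ) ^ 2 / e) ^ 2) := by ring
    have h13 : (e : ℝ) * (H + (N : ℝ) ^ 2 / e) ^ 2 ≤ 2 * N * (H : ℝ) ^ 2 + 2 * (N : ℝ) ^ 4 * (1 / e) := by
      have h14 : ((H : ℝ) + (N : ℝ) ^ 2 / e) ^ 2 ≤ 2 * (H : ℝ) ^ 2 + 2 * ((N : ℝ) ^ 2 / e) ^ 2 := by
        nlinarith [sq_nonneg ((H : ℝ) - (N : ℝ) ^ 2 / e)]
      have h15 : (e : ℝ) * (2 * (H : ℝ) ^ 2 + 2 * ((N : ℝ) ^ 2 / e) ^ 2) =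
          2 * e * (H : ℝ) ^ 2 + 2 * (N : ℝ) ^ 4 * (1 / e) := by
        field_simp
      have h16 : (e : ℝ) * (H : ℝ) ^ 2 ≤ N * (H : ℝ) ^ 2 := mul_le_mul_of_nonneg_right heN (by positivity)
      calc (e : ℝ) * (H + (N : ℝ) ^ 2 / e) ^ 2 ≤ (e : ℝ) * (2 * (H : ℝ) ^ 2 + 2 * ((N : ℝ) ^ 2 / e) ^ 2) :=
            mul_le_mul_of_nonneg_left h14 heR0.le
        _ = 2 * e * (H : ℝ) ^ 2 + 2 * (N : ℝ) ^ 4 * (1 / e) := h15
        _ ≤ _ := by linarith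
    have h17 : (C1 * 3 ^ δ * x ^ 6) ^ 2 * (3 * ((3 * (e : ℝ) *
        ∑ t ∈ (Finset.Icc (-((N ^ 2 : ℕ) : ℤ)) ((N ^ 2 : ℕ) : ℤ)).erase 0,
        (1 : ℝ) / |(t : ℝ)|) *
        (∑ t ∈ Finset.Icc (-((N ^ 2 : ℕ) : ℤ)) ((N ^ 2 : ℕ) : ℤ), psi H ((N : ℝ) ^ 2 / e) t) ^ 2)) ≤
        (C1 * 3 ^ δ * x ^ 6) ^ 2 * ((9 * (2 * (C3 * x ^ 2)) * C0 ^ 2) *
          (2 * N * (H : ℝ) ^ 2 + 2 * (N : ℝ) ^ 4 * (1 / e))) := by
      apply mul_le_mul_of_nonneg_left _ (by positivity)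
      refine le_trans h11 ?_
      rw [h12]
      exact mul_le_mul_of_nonneg_left h13 (by positivity)
    calc _ ≤ (C1 * x) * ((C1 * 3 ^ δ * x ^ 6) ^ 2 * ((9 * (2 * (C3 * x ^ 2)) * C0 ^ 2) *
          (2 * N * (H : ℝ) ^ 2 + 2 * (N : ℝ) ^ 4 * (1 / e)))) :=
          mul_le_mul h4 h17 (by positivity) (by positivity)
      _ = _ := by ring
  have hLSt : LSt N H (fun z => F3 z ≠ 0) ≤ ∑ e ∈ Finset.Icc 1 N,
      (C1 * x) * ((C1 * 3 ^ δ * x ^ 6) ^ 2 * (9 * (2 * (C3 * x ^ 2)) * C0 ^ 2)) *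
        (2 * N * (H : ℝ) ^ 2 + 2 * (N : ℝ) ^ 4 * (1 / e)) := by
    unfold LSt
    refine Finset.sum_le_sum fun e he => ?_
    refine le_trans (le_of_eq ?_) (hmain e he)
    refine Finset.sum_congr rfl fun m₁ _ => Finset.sum_congr rfl fun m₂ _ => ?_
    congr 1
    apply Finset.sum_congr _ (fun _ _ => rfl)
    ext z
    simp only [mem_filter]
  refine le_trans hLSt ?_
  have h18 : ∀ Q a b : ℝ, ∑ e ∈ Finset.Icc 1 N, Q * (a + b * (1 / (e : ℝ))) =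
      Q * (N * a + b * ∑ e ∈ Finset.Icc 1 N, (1 : ℝ) / e) := by
    intro Q a b
    rw [← Finset.mul_sum, Finset.sum_add_distrib, Finset.sum_const, ← Finset.mul_sum]
    simp
  rw [h18]
  have h19 := hharm N hN
  have h20 : C3 * (N : ℝ) ^ δ ≤ C3 * x := mul_le_mul_of_nonneg_left hNx hC3.le
  have h21 : (N : ℝ) * (2 * N * (H : ℝ) ^ 2) + 2 * (N : ℝ) ^ 4 * ∑ e ∈ Finset.Icc 1 N, (1 : ℝ) / e ≤
      (2 + 2 * C3) * x * ((H : ℝ) ^ 3 * N) := by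
    have h22 : (N : ℝ) * (2 * N * (H : ℝ) ^ 2) ≤ 2 * ((H : ℝ) ^ 3 * N) := by
      have : (N : ℝ) * (N * (H : ℝ) ^ 2) ≤ H * (N * (H : ℝ) ^ 2) :=
        mul_le_mul_of_nonneg_right hNHR (by positivity)
      nlinarith
    have h23 : (N : ℝ) ^ 4 ≤ (H : ℝ) ^ 3 * N := by
      calc (N : ℝ) ^ 4 = (N : ℝ) ^ 3 * N := by ring
        _ ≤ (H : ℝ) ^ 3 * N := mul_le_mul_of_nonneg_right (pow_le_pow_left₀ (by linarith) hNHR 3) (by linarith)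
    have h24 : (N : ℝ) ^ 4 * ∑ e ∈ Finset.Icc 1 N, (1 : ℝ) / e ≤ ((H : ℝ) ^ 3 * N) * (C3 * x) :=
      mul_le_mul h23 (le_trans h19 h20) (Finset.sum_nonneg fun e _ => by positivity) (by positivity)
    have h25 : 2 * ((H : ℝ) ^ 3 * N) ≤ 2 * x * ((H : ℝ) ^ 3 * N) := by
      have : 0 ≤ (H : ℝ) ^ 3 * N := by positivity
      nlinarith
    nlinarith
  have h26 : (H : ℝ) ^ (3 + ε) = (H : ℝ) ^ 3 * x ^ 16 := by
    rw [Real.rpow_add (by linarith), hx, ← Real.rpow_natCast ((H : ℝ) ^ δ) 16,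
      ← Real.rpow_mul (by linarith)]
    congr 1
    · norm_cast
    · congr 1
      rw [hδ]; push_cast; ring
  rw [h26]
  calc _ ≤ (C1 * x) * ((C1 * 3 ^ δ * x ^ 6) ^ 2 * (9 * (2 * (C3 * x ^ 2)) * C0 ^ 2)) *
      ((2 + 2 * C3) * x * ((H : ℝ) ^ 3 * N)) := mul_le_mul_of_nonneg_left h21 (by positivity)
    _ = _ := by ring

end Pool.Agent.TCub
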