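import Pool.Agent.TCub.Stmts

open Finset

namespace Pool.Agent.TCub

namespace LSexp

theorem ee_conj (t : ℝ) : (starRingEnd ℂ) (ee t) = ee (-t) := by
  unfold ee
  rw [← Complex.exp_conj]
  congr 1
  have h2 : (starRingEnd ℂ) 2 = 2 := by
    have := Complex.conj_ofReal 2
    simpa using this
  rw [map_mul, map_mul, map_mul, h2, Complex.conj_ofReal, Complex.conj_ofReal, Complex.conj_I]
  push_cast
  ring

theorem ee_add (s t : ℝ) : ee (s + t) = ee s * ee t := by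
  unfold ee
  rw [← Complex.exp_add]
  congr 1
  push_cast
  ring

theorem ee_sum (f : Fin 3 → ℝ) : ee (∑ i, f i) = ∏ i, ee (f i) := by
  simp only [Fin.sum_univ_three, Fin.prod_univ_three, ee_add]

/-- the big cube -/
noncomputable def Q (H : ℕ) : Finset (Fin 3 → ℤ) :=
  Fintype.piFinset fun _ : Fin 3 => Finset.Icc (-(4 * (H:ℤ))) (4 * H)

/-- the sum over `h` of the products of Fejer weights -/
theorem sum_Q (hfej : St_fej) {H : ℕ} (hH : 1 ≤ H) (θ : Fin 3 → ℝ) :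
    ∑ h ∈ Q H, (∏ i, (fej H (h i) : ℂ)) * ee (∑ i, (h i : ℝ) * θ i) =
      ((∏ i, Fh H (θ i) : ℝ) : ℂ) := by
  have h1 := (hfej H hH).2.2.1
  have h2 : ∀ h : Fin 3 → ℤ, (∏ i, (fej H (h i) : ℂ)) * ee (∑ i, (h i : ℝ) * θ i) =
      ∏ i, ((fej H (h i) : ℂ) * ee ((h i : ℝ) * θ i)) := by
    intro h
    rw [ee_sum, Finset.prod_mul_distrib]
  calc ∑ h ∈ Q H, (∏ i, (fej H (h i) : ℂ)) * ee (∑ i, (h i : ℝ) * θ i)
      = ∑ h ∈ Q H, ∏ i, ((fej H (h i) : ℂ) * ee ((h i : ℝ) * θ i)) :=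
        Finset.sum_congr rfl fun h _ => h2 h
    _ = ∏ i : Fin 3, ∑ k ∈ Finset.Icc (-(4 * (H:ℤ))) (4 * H),
          ((fej H k : ℂ) * ee ((k : ℝ) * θ i)) := by
        unfold Q
        rw [Finset.prod_univ_sum]
    _ = ∏ i : Fin 3, (Fh H (θ i) : ℂ) := Finset.prod_congr rfl fun i _ => h1 (θ i)
    _ = _ := by push_cast; rfl

/-- the expansion of the square -/
theorem expand (hfej : St_fej) {H : ℕ} (hH : 1 ≤ H) {ι : Type*} (I : Finset ι) (c : ι → ℂ)
    (θ : ι → Fin 3 → ℝ) :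
    ((∑ h ∈ Q H, (∏ i, fej H (h i)) * ‖∑ j ∈ I, c j * ee (∑ i, (h i : ℝ) * θ j i)‖ ^ 2 : ℝ) : ℂ) =
      ∑ j ∈ I, ∑ k ∈ I, c j * (starRingEnd ℂ) (c k) *
        ((∏ i, Fh H (θ j i - θ k i) : ℝ) : ℂ) := by
  have h1 : ∀ h : Fin 3 → ℤ, ((‖∑ j ∈ I, c j * ee (∑ i, (h i : ℝ) * θ j i)‖ ^ 2 : ℝ) : ℂ) =
      ∑ j ∈ I, ∑ k ∈ I, c j * (starRingEnd ℂ) (c k) * ee (∑ i, (h i : ℝ) * (θ j i - θ k i)) := by
    intro h
    rw [Complex.ofReal_pow, ← Complex.mul_conj', map_sum, Finset.sum_mul_sum]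
    refine Finset.sum_congr rfl fun j _ => Finset.sum_congr rfl fun k _ => ?_
    rw [map_mul, ee_conj]
    have h3 : ee (∑ i, (h i : ℝ) * (θ j i - θ k i)) =
        ee (∑ i, (h i : ℝ) * θ j i) * ee (-∑ i, (h i : ℝ) * θ k i) := by
      rw [← ee_add]
      congr 1
      rw [← sub_eq_add_neg, ← Finset.sum_sub_distrib]
      refine Finset.sum_congr rfl fun i _ => ?_
      ring
    rw [h3]; ring
  calc ((∑ h ∈ Q H, (∏ i, fej H (h i)) * ‖∑ j ∈ I, c j * ee (∑ i, (h i : ℝ) * θ j i)‖ ^ 2 : ℝ) : ℂ)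
      = ∑ h ∈ Q H, (∏ i, (fej H (h i) : ℂ)) *
          ((‖∑ j ∈ I, c j * ee (∑ i, (h i : ℝ) * θ j i)‖ ^ 2 : ℝ) : ℂ) := by
        push_cast; rfl
    _ = ∑ h ∈ Q H, ∑ j ∈ I, ∑ k ∈ I, c j * (starRingEnd ℂ) (c k) *
          ((∏ i, (fej H (h i) : ℂ)) * ee (∑ i, (h i : ℝ) * (θ j i - θ k i))) := by
        refine Finset.sum_congr rfl fun h _ => ?_
        rw [h1 h, Finset.mul_sum]
        refine Finset.sum_congr rfl fun j _ => ?_
        rw [Finset.mul_sum]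
        refine Finset.sum_congr rfl fun k _ => ?_
        ring
    _ = ∑ j ∈ I, ∑ k ∈ I, c j * (starRingEnd ℂ) (c k) *
          ∑ h ∈ Q H, ((∏ i, (fej H (h i) : ℂ)) * ee (∑ i, (h i : ℝ) * (θ j i - θ k i))) := by
        rw [Finset.sum_comm]
        refine Finset.sum_congr rfl fun j _ => ?_
        rw [Finset.sum_comm]
        refine Finset.sum_congr rfl fun k _ => ?_
        rw [Finset.mul_sum]
    _ = _ := by
        refine Finset.sum_congr rfl fun j _ => Finset.sum_congr rfl fun k _ => ?_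
        rw [sum_Q hfej hH (fun i => θ j i - θ k i)]

theorem bound (hfej : St_fej) {H : ℕ} (hH : 1 ≤ H) {ι : Type*} (I : Finset ι) (c : ι → ℂ)
    (w : ι → ℝ) (hw : ∀ j ∈ I, ‖c j‖ ≤ w j)
    (θ : ι → Fin 3 → ℝ) :
    ∑ h ∈ cube H, ‖∑ j ∈ I, c j * ee (∑ i, (h i : ℝ) * θ j i)‖ ^ 2 ≤
      ∑ j ∈ I, ∑ k ∈ I, w j * w k * ∏ i, Fh H (θ j i - θ k i) := by
  obtain ⟨f0, f1, _, F0, _⟩ := hfej H hH
  have hsub : cube H ⊆ Q H := by
    intro h hh
    unfold cube at hh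
    unfold Q
    rw [Fintype.mem_piFinset] at hh ⊢
    intro i
    have := hh i
    rw [Finset.mem_Icc] at this ⊢
    constructor <;> linarith [this.1, this.2, Int.natCast_nonneg H]
  have hR : (0:ℝ) ≤ ∑ h ∈ Q H, (∏ i, fej H (h i)) * ‖∑ j ∈ I, c j * ee (∑ i, (h i : ℝ) * θ j i)‖ ^ 2 :=
    Finset.sum_nonneg fun h _ => mul_nonneg (Finset.prod_nonneg fun i _ => f0 _) (by positivity)
  calc ∑ h ∈ cube H, ‖∑ j ∈ I, c j * ee (∑ i, (h i : ℝ) * θ j i)‖ ^ 2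
      ≤ ∑ h ∈ cube H, (∏ i, fej H (h i)) * ‖∑ j ∈ I, c j * ee (∑ i, (h i : ℝ) * θ j i)‖ ^ 2 := by
        refine Finset.sum_le_sum fun h hh => ?_
        unfold cube at hh
        rw [Fintype.mem_piFinset] at hh
        have h1 : (1:ℝ) ≤ ∏ i, fej H (h i) := by
          have : ∏ i : Fin 3, (1:ℝ) ≤ ∏ i, fej H (h i) := by
            refine Finset.prod_le_prod (fun i _ => zero_le_one) fun i _ => f1 _ ?_
            have := hh i
            rw [Finset.mem_Icc] at this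
            exact abs_le.mpr this
          simpa using this
        nlinarith [sq_nonneg ‖∑ j ∈ I, c j * ee (∑ i, (h i : ℝ) * θ j i)‖]
    _ ≤ ∑ h ∈ Q H, (∏ i, fej H (h i)) * ‖∑ j ∈ I, c j * ee (∑ i, (h i : ℝ) * θ j i)‖ ^ 2 :=
        Finset.sum_le_sum_of_subset_of_nonneg hsub fun h _ _ =>
          mul_nonneg (Finset.prod_nonneg fun i _ => f0 _) (by positivity)
    _ = ‖((∑ h ∈ Q H, (∏ i, fej H (h i)) *
          ‖∑ j ∈ I, c j * ee (∑ i, (h i : ℝ) * θ j i)‖ ^ 2 : ℝ) : ℂ)‖ := by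
        rw [Complex.norm_real, Real.norm_of_nonneg hR]
    _ = ‖∑ j ∈ I, ∑ k ∈ I, c j * (starRingEnd ℂ) (c k) *
        ((∏ i, Fh H (θ j i - θ k i) : ℝ) : ℂ)‖ := by rw [expand hfej hH]
    _ ≤ ∑ j ∈ I, ‖∑ k ∈ I, c j * (starRingEnd ℂ) (c k) *
        ((∏ i, Fh H (θ j i - θ k i) : ℝ) : ℂ)‖ := norm_sum_le _ _
    _ ≤ ∑ j ∈ I, ∑ k ∈ I, ‖c j * (starRingEnd ℂ) (c k) *
        ((∏ i, Fh H (θ j i - θ k i) : ℝ) : ℂ)‖ :=
        Finset.sum_le_sum fun j _ => norm_sum_le _ _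
    _ ≤ _ := by
        refine Finset.sum_le_sum fun j hj => Finset.sum_le_sum fun k hk => ?_
        have hP : 0 ≤ ∏ i, Fh H (θ j i - θ k i) := Finset.prod_nonneg fun i _ => F0 _
        rw [norm_mul, norm_mul, Complex.norm_real, Real.norm_of_nonneg hP, RCLike.norm_conj]
        have hwj := hw j hj
        have hwk := hw k hk
        have hn1 := norm_nonneg (c j)
        have hn2 := norm_nonneg (c k)
        refine mul_le_mul_of_nonneg_right ?_ hP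
        exact mul_le_mul hwj hwk hn2 (hn1.trans hwj)

end LSexp

open LSexp in
theorem tLSexp (hfej : St_fej) : St_LSexp := by
  intro N H hH α hα
  obtain ⟨S, hS⟩ : ∃ S : Finset ℕ, S = (Finset.Icc 1 N).filter Squarefree := ⟨_, rfl⟩
  rw [← hS]
  have hpos : ∀ n ∈ S, (0:ℝ) < n := by
    intro n hn
    rw [hS, Finset.mem_filter, Finset.mem_Icc] at hn
    exact_mod_cast hn.1.1
  have hb := bound hfej hH (S.sigma fun n => cone n) (fun j => α j.1 / (j.1 : ℂ))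
    (fun j => 1 / (j.1 : ℝ)) (by
      intro j hj
      rw [Finset.mem_sigma] at hj
      have := hpos j.1 hj.1
      rw [norm_div, Complex.norm_natCast]
      gcongr
      exact hα _) (fun j i => (j.2 i : ℝ) / j.1)
  have hL : ∀ h : Fin 3 → ℤ, ∑ j ∈ (S.sigma fun n => cone n),
      (α j.1 / (j.1 : ℂ)) * ee (∑ i, (h i : ℝ) * ((j.2 i : ℝ) / j.1)) =
      ∑ n ∈ S, α n * sn n h := by
    intro h
    rw [Finset.sum_sigma]
    refine Finset.sum_congr rfl fun n _ => ?_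
    unfold sn SS
    rw [Finset.sum_div, Finset.mul_sum]
    refine Finset.sum_congr rfl fun x _ => ?_
    have : (∑ i, (h i : ℝ) * ((x i : ℝ) / n)) = ((dot h x : ℤ) : ℝ) / n := by
      unfold dot
      push_cast
      rw [Finset.sum_div]
      refine Finset.sum_congr rfl fun i _ => ?_
      ring
    simp only [this]
    ring
  calc ∑ h ∈ cube H, ‖∑ n ∈ S, α n * sn n h‖ ^ 2
      = ∑ h ∈ cube H, ‖∑ j ∈ (S.sigma fun n => cone n),
      (α j.1 / (j.1 : ℂ)) * ee (∑ i, (h i : ℝ) * ((j.2 i : ℝ) / j.1))‖ ^ 2 := by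
        refine Finset.sum_congr rfl fun h _ => ?_
        rw [hL h]
    _ ≤ _ := hb
    _ = _ := by
        rw [Finset.sum_sigma]
        refine Finset.sum_congr rfl fun n _ => ?_
        have : ∀ x ∈ cone n, ∑ k ∈ (S.sigma fun n => cone n), (1 / (n:ℝ)) * (1 / (k.1 : ℝ)) *
            ∏ i, Fh H ((x i : ℝ) / n - (k.2 i : ℝ) / k.1) =
            ∑ n' ∈ S, (1 / ((n:ℝ) * n')) * ∑ x' ∈ cone n',
              ∏ i, Fh H ((x i : ℝ) / n - (x' i : ℝ) / n') := by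
          intro x _
          rw [Finset.sum_sigma]
          refine Finset.sum_congr rfl fun n' _ => ?_
          rw [Finset.mul_sum]
          refine Finset.sum_congr rfl fun x' _ => ?_
          rw [one_div_mul_one_div]
        rw [Finset.sum_congr rfl this, Finset.sum_comm]
        refine Finset.sum_congr rfl fun n' _ => ?_
        rw [Finset.mul_sum]

end Pool.Agent.TCub
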