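import Pool.Agent.TCub.Stmts

open Finset

namespace Pool.Agent.TCub

namespace LSs

/-- gcd of the coordinates -/
def G (h : Fin 3 → ℤ) : ℕ := Nat.gcd (h 0).natAbs (Nat.gcd (h 1).natAbs (h 2).natAbs)

theorem dvd_G {e : ℕ} {h : Fin 3 → ℤ} : e ∣ G h ↔ ∀ i, (e : ℤ) ∣ h i := by
  unfold G
  rw [Nat.dvd_gcd_iff, Nat.dvd_gcd_iff]
  simp only [← Int.natCast_dvd]
  constructor
  · rintro ⟨h0, h1, h2⟩ i
    fin_cases i
    · exact h0
    · exact h1
    · exact h2
  · intro hh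
    exact ⟨hh 0, hh 1, hh 2⟩

theorem G_ne_zero {h : Fin 3 → ℤ} (hh : h ≠ 0) : G h ≠ 0 := by
  intro h0
  apply hh
  unfold G at h0
  rw [Nat.gcd_eq_zero_iff, Nat.gcd_eq_zero_iff] at h0
  funext i
  fin_cases i
  · exact Int.natAbs_eq_zero.1 h0.1
  · exact Int.natAbs_eq_zero.1 h0.2.1
  · exact Int.natAbs_eq_zero.1 h0.2.2

theorem G_le {H : ℕ} {h : Fin 3 → ℤ} (hh : h ≠ 0) (hc : h ∈ cube H) : G h ≤ H := by
  obtain ⟨i, hi⟩ : ∃ i, h i ≠ 0 := by
    by_contra hcon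
    push Not at hcon
    exact hh (funext hcon)
  have h1 : ((G h : ℕ) : ℤ) ∣ h i := dvd_G.1 (dvd_refl (G h)) i
  have h2 : G h ≤ (h i).natAbs := Nat.le_of_dvd (Int.natAbs_pos.2 hi) (Int.natCast_dvd.1 h1)
  unfold cube at hc
  rw [Fintype.mem_piFinset] at hc
  have h3 := hc i
  rw [mem_Icc] at h3
  omega

theorem good_iff {n : ℕ} {h : Fin 3 → ℤ} (hn : n ≠ 0) : good n h ↔ Nat.gcd n (G h) = 1 := by
  unfold good
  rw [← Nat.coprime_iff_gcd_eq_one]
  constructor
  · intro hg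
    apply Nat.coprime_of_dvd
    intro p hp hpn hpG
    obtain ⟨i, hi⟩ := hg p hp hpn
    exact hi (dvd_G.1 hpG i)
  · intro hc p hp hpn
    by_contra hcon
    push Not at hcon
    have h1 : p ∣ Nat.gcd n (G h) := Nat.dvd_gcd hpn (dvd_G.2 hcon)
    rw [Nat.coprime_iff_gcd_eq_one.1 hc] at h1
    exact hp.one_lt.ne' (Nat.dvd_one.1 h1)

theorem moebius_sum {m : ℕ} : ∑ e ∈ m.divisors, ((ArithmeticFunction.moebius e : ℤ) : ℂ) =
    if m = 1 then 1 else 0 := by
  have h1 : ((ArithmeticFunction.moebius * (ArithmeticFunction.zeta : ArithmeticFunction ℤ) :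
      ArithmeticFunction ℤ)) m = (1 : ArithmeticFunction ℤ) m := by
    rw [ArithmeticFunction.moebius_mul_coe_zeta]
  rw [ArithmeticFunction.coe_mul_zeta_apply, ArithmeticFunction.one_apply] at h1
  rw [← Int.cast_sum, h1]
  split_ifs <;> simp

theorem sS_eq {n : ℕ} {h : Fin 3 → ℤ} (hn : n ≠ 0) :
    sS n h = ∑ e ∈ n.divisors, (if ∀ i, (e : ℤ) ∣ h i then
      ((ArithmeticFunction.moebius e : ℤ) : ℂ) else 0) * sn n h := by
  rw [← Finset.sum_mul, ← Finset.sum_filter]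
  have h1 : n.divisors.filter (fun e : ℕ => ∀ i, (e : ℤ) ∣ h i) = (Nat.gcd n (G h)).divisors := by
    ext e
    rw [mem_filter, Nat.mem_divisors, Nat.mem_divisors, ← dvd_G, Nat.dvd_gcd_iff]
    constructor
    · rintro ⟨⟨h2, _⟩, h3⟩
      exact ⟨⟨h2, h3⟩, fun h4 => hn (Nat.eq_zero_of_gcd_eq_zero_left h4)⟩
    · rintro ⟨⟨h2, h3⟩, _⟩
      exact ⟨⟨h2, hn⟩, h3⟩
  rw [h1, moebius_sum]
  unfold sS
  by_cases hg : good n h
  · rw [if_pos hg, if_pos ((good_iff hn).1 hg), one_mul]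
  · rw [if_neg hg, if_neg (fun h4 => hg ((good_iff hn).2 h4)), zero_mul]

theorem swap (N : ℕ) (f : ℕ → ℕ → ℂ) :
    ∑ n ∈ Finset.Icc 1 N, ∑ e ∈ n.divisors, f e n =
      ∑ e ∈ Finset.Icc 1 N, ∑ m ∈ Finset.Icc 1 (N / e), f e (e * m) := by
  rw [Finset.sum_sigma', Finset.sum_sigma']
  refine Finset.sum_bij' (fun a _ => ⟨a.2, a.1 / a.2⟩) (fun b _ => ⟨b.1 * b.2, b.1⟩) ?_ ?_ ?_ ?_ ?_
  · rintro ⟨n, e⟩ ha
    rw [mem_sigma, mem_Icc, Nat.mem_divisors] at ha
    obtain ⟨⟨hn1, hnN⟩, hen, _⟩ := ha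
    have he : 0 < e := Nat.pos_of_dvd_of_pos hen hn1
    have hle : e ≤ n := Nat.le_of_dvd hn1 hen
    rw [mem_sigma, mem_Icc, mem_Icc]
    refine ⟨⟨he, le_trans hle hnN⟩, ?_, ?_⟩
    · exact Nat.div_pos hle he
    · exact Nat.div_le_div_right hnN
  · rintro ⟨e, m⟩ hb
    rw [mem_sigma, mem_Icc, mem_Icc] at hb
    obtain ⟨⟨he1, heN⟩, hm1, hmN⟩ := hb
    simp only at he1 heN hm1 hmN
    rw [mem_sigma, mem_Icc, Nat.mem_divisors]
    refine ⟨⟨Nat.mul_pos he1 hm1, ?_⟩, Dvd.intro _ rfl, (Nat.mul_pos he1 hm1).ne'⟩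
    calc e * m ≤ e * (N / e) := Nat.mul_le_mul_left _ hmN
      _ ≤ N := Nat.mul_div_le N e
  · rintro ⟨n, e⟩ ha
    rw [mem_sigma, mem_Icc, Nat.mem_divisors] at ha
    obtain ⟨_, hen, _⟩ := ha
    simp only at hen
    simp only [Nat.mul_div_cancel' hen]
  · rintro ⟨e, m⟩ hb
    rw [mem_sigma, mem_Icc, mem_Icc] at hb
    obtain ⟨⟨he1, _⟩, _, _⟩ := hb
    simp only at he1
    simp only [Nat.mul_div_cancel_left m he1]
  · rintro ⟨n, e⟩ ha
    rw [mem_sigma, mem_Icc, Nat.mem_divisors] at ha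
    obtain ⟨_, hen, _⟩ := ha
    simp only at hen
    simp only [Nat.mul_div_cancel' hen]

open Classical in
/-- twisted coefficients -/
noncomputable def al (α : ℕ → ℂ) (e m : ℕ) : ℂ := if Squarefree (e * m) then α (e * m) else 0

theorem al_le {α : ℕ → ℂ} (hα : ∀ n, ‖α n‖ ≤ 1) (e m : ℕ) : ‖al α e m‖ ≤ 1 := by
  unfold al
  split_ifs
  · exact hα _
  · simp

/-- the inner sum -/
noncomputable def BB (α : ℕ → ℂ) (N e : ℕ) (h : Fin 3 → ℤ) : ℂ :=
  ∑ m ∈ (Finset.Icc 1 (N / e)).filter Squarefree, al α e m * sn m h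

theorem sn_mul (hSSmul : St_SSmul) {m n : ℕ} (hc : Nat.Coprime m n) (h : Fin 3 → ℤ) :
    sn (m * n) h = sn m h * sn n h := by
  unfold sn
  rw [hSSmul m n hc h]
  push_cast
  rw [mul_div_mul_comm]

theorem term_eq (hSSmul : St_SSmul) (hSSunit : St_SSunit) (α : ℕ → ℂ) {e m : ℕ} (h' : Fin 3 → ℤ) :
    (if Squarefree (e * m) then α (e * m) * sn (e * m) (fun i => (e : ℤ) * h' i) else 0) =
      ((rho e : ℝ) / e : ℂ) * (al α e m * sn m h') := by
  classical
  unfold al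
  by_cases hs : Squarefree (e * m)
  · rw [if_pos hs, if_pos hs]
    have hc : Nat.Coprime e m := Nat.coprime_of_squarefree_mul hs
    rw [sn_mul hSSmul hc]
    have h1 : sn e (fun i => (e : ℤ) * h' i) = ((rho e : ℝ) / e : ℂ) := by
      unfold sn
      rw [hSSunit.2.2 e _ (fun i => Dvd.intro _ rfl)]
    have h2 : sn m (fun i => (e : ℤ) * h' i) = sn m h' := by
      unfold sn
      rw [hSSunit.1 m (e : ℤ) (Nat.isCoprime_iff_coprime.2 hc) h']
    rw [h1, h2]
    ring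
  · rw [if_neg hs, if_neg hs]
    simp

/-- decomposition of the sum -/
theorem decomp (α : ℕ → ℂ) (N : ℕ) (h : Fin 3 → ℤ) :
    ∑ n ∈ (Finset.Icc 1 N).filter Squarefree, α n * sS n h =
      ∑ e ∈ Finset.Icc 1 N, (if ∀ i, (e : ℤ) ∣ h i then
        ((ArithmeticFunction.moebius e : ℤ) : ℂ) *
        ∑ m ∈ Finset.Icc 1 (N / e), (if Squarefree (e * m) then α (e * m) * sn (e * m) h else 0)
        else 0) := by
  classical
  rw [Finset.sum_filter]
  have h1 : ∀ n ∈ Finset.Icc 1 N, (if Squarefree n then α n * sS n h else 0) =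
      ∑ e ∈ n.divisors, (if ∀ i, (e : ℤ) ∣ h i then ((ArithmeticFunction.moebius e : ℤ) : ℂ) *
        (if Squarefree n then α n * sn n h else 0) else 0) := by
    intro n hn
    rw [mem_Icc] at hn
    by_cases hs : Squarefree n
    · rw [if_pos hs, sS_eq (by omega), Finset.mul_sum]
      refine Finset.sum_congr rfl fun e _ => ?_
      by_cases hd : ∀ i, (e : ℤ) ∣ h i
      · rw [if_pos hd, if_pos hd, if_pos hs]; ring
      · rw [if_neg hd, if_neg hd]; ring
    · rw [if_neg hs]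
      symm
      apply Finset.sum_eq_zero
      intro e _
      rw [if_neg hs]
      split_ifs <;> simp
  rw [Finset.sum_congr rfl h1, swap N (fun e n => if ∀ i, (e : ℤ) ∣ h i then
    ((ArithmeticFunction.moebius e : ℤ) : ℂ) * (if Squarefree n then α n * sn n h else 0) else 0)]
  refine Finset.sum_congr rfl fun e _ => ?_
  by_cases hd : ∀ i, (e : ℤ) ∣ h i
  · simp only [if_pos hd]
    rw [Finset.mul_sum]
  · simp only [if_neg hd, Finset.sum_const_zero]

theorem inv_sq (N : ℕ) : ∑ e ∈ Finset.Icc 1 N, ((e : ℝ) ^ 2)⁻¹ ≤ 2 := by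
  rcases Nat.eq_zero_or_pos N with h0 | h0
  · subst h0; simp
  · have h1 : Finset.Icc 1 N = insert 1 (Finset.Ioc 1 N) := by
      ext k
      rw [mem_insert, mem_Icc, mem_Ioc]
      omega
    rw [h1, Finset.sum_insert (by simp)]
    have h2 := sum_Ioc_inv_sq_le_sub (α := ℝ) (k := 1) (n := N) one_ne_zero h0
    have h3 : (0 : ℝ) ≤ (N : ℝ)⁻¹ := by positivity
    simp only [Nat.cast_one, one_pow, inv_one] at h2 ⊢
    linarith

end LSs

open LSs in
theorem tLSs (hSSmul : St_SSmul) (hSSunit : St_SSunit) (hsS : St_sS) (hdiv : St_div) (hLS : St_LS) : St_LSs := by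
  classical
  intro ε hε
  set δ : ℝ := ε / 2 with hδ
  have hδ0 : 0 < δ := by positivity
  obtain ⟨C1, hC1, hdiv⟩ := hdiv δ hδ0 16 (by norm_num)
  obtain ⟨C2, hC2, hLS⟩ := hLS δ hδ0
  refine ⟨1 + C1 * (C1 * C2 * 2), by positivity, ?_⟩
  intro N H hN hNH α hα
  have hH : 1 ≤ H := le_trans hN hNH
  have hNR : (1 : ℝ) ≤ N := by exact_mod_cast hN
  have hHR : (1 : ℝ) ≤ H := by exact_mod_cast hH
  have hHR0 : (0 : ℝ) < H := by linarith
  set S : (Fin 3 → ℤ) → ℂ := fun h => ∑ n ∈ (Finset.Icc 1 N).filter Squarefree, α n * sS n h with hS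
  -- the term `h = 0`
  have h0mem : (0 : Fin 3 → ℤ) ∈ cube H := by
    unfold cube
    rw [Fintype.mem_piFinset]
    intro i
    rw [mem_Icc]
    simp
  have hzero : ‖S 0‖ ^ 2 ≤ 1 := by
    have h1 : S 0 = α 1 * sS 1 0 := by
      rw [hS]
      apply Finset.sum_eq_single 1
      · intro n hn hn1
        rw [mem_filter, mem_Icc] at hn
        have h2 : ¬ good n (0 : Fin 3 → ℤ) := by
          intro hg
          obtain ⟨p, hp, hpn⟩ := Nat.exists_prime_and_dvd hn1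
          obtain ⟨i, hi⟩ := hg p hp hpn
          exact hi (by simp)
        unfold sS
        rw [if_neg h2, mul_zero]
      · intro hn
        exfalso
        apply hn
        rw [mem_filter, mem_Icc]
        exact ⟨⟨le_rfl, hN⟩, squarefree_one⟩
    have h3 : ‖S 0‖ ≤ 1 := by
      rw [h1, norm_mul]
      have h4 := hsS.2.2.2 1 squarefree_one 0
      simp only [Nat.primeFactors_one, Finset.card_empty, pow_zero] at h4
      calc ‖α 1‖ * ‖sS 1 0‖ ≤ 1 * 1 := mul_le_mul (hα 1) h4 (norm_nonneg _) zero_le_one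
        _ = 1 := one_mul 1
    calc ‖S 0‖ ^ 2 ≤ 1 ^ 2 := pow_le_pow_left₀ (norm_nonneg _) h3 2
      _ = 1 := one_pow 2
  -- the terms of `S h`
  set R : ℕ → (Fin 3 → ℤ) → ℂ := fun e h =>
    ∑ m ∈ Finset.Icc 1 (N / e), (if Squarefree (e * m) then α (e * m) * sn (e * m) h else 0) with hR
  have hnz : ∀ h ∈ (cube H).erase 0, ‖S h‖ ^ 2 ≤ (C1 * (H : ℝ) ^ δ) *
      ∑ e ∈ Finset.Icc 1 N, (if ∀ i, (e : ℤ) ∣ h i then ‖R e h‖ ^ 2 else 0) := by
    intro h hh
    rw [mem_erase] at hh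
    have hdec : S h = ∑ e ∈ (Finset.Icc 1 N).filter (fun e => ∀ i, ((e : ℕ) : ℤ) ∣ h i),
        ((ArithmeticFunction.moebius e : ℤ) : ℂ) * R e h := by
      rw [hS]
      simp only
      rw [decomp, Finset.sum_filter]
    set E := (Finset.Icc 1 N).filter (fun e => ∀ i, ((e : ℕ) : ℤ) ∣ h i) with hE
    have h1 : ‖S h‖ ≤ ∑ e ∈ E, ‖R e h‖ := by
      rw [hdec]
      refine le_trans (norm_sum_le _ _) ?_
      refine Finset.sum_le_sum fun e _ => ?_
      rw [norm_mul]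
      have h2 : ‖((ArithmeticFunction.moebius e : ℤ) : ℂ)‖ ≤ 1 := by
        rw [Complex.norm_intCast]
        exact_mod_cast ArithmeticFunction.abs_moebius_le_one
      calc _ ≤ 1 * ‖R e h‖ := mul_le_mul_of_nonneg_right h2 (norm_nonneg _)
        _ = _ := one_mul _
    have h3 : ‖S h‖ ^ 2 ≤ (E.card : ℝ) * ∑ e ∈ E, ‖R e h‖ ^ 2 := by
      calc ‖S h‖ ^ 2 ≤ (∑ e ∈ E, ‖R e h‖) ^ 2 := pow_le_pow_left₀ (norm_nonneg _) h1 2
        _ ≤ _ := sq_sum_le_card_mul_sum_sq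
    have h4 : (E.card : ℝ) ≤ C1 * (H : ℝ) ^ δ := by
      have h5 : E ⊆ (G h).divisors := by
        intro e he
        rw [hE, mem_filter] at he
        rw [Nat.mem_divisors]
        exact ⟨dvd_G.2 he.2, G_ne_zero hh.1⟩
      have h6 := (hdiv (G h) (Nat.one_le_iff_ne_zero.2 (G_ne_zero hh.1))).2
      have h7 : ((G h : ℕ) : ℝ) ^ δ ≤ (H : ℝ) ^ δ :=
        Real.rpow_le_rpow (by positivity) (by exact_mod_cast G_le hh.1 hh.2) hδ0.le
      calc (E.card : ℝ) ≤ ((G h).divisors.card : ℝ) := by exact_mod_cast Finset.card_le_card h5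
        _ ≤ C1 * ((G h : ℕ) : ℝ) ^ δ := h6
        _ ≤ _ := mul_le_mul_of_nonneg_left h7 hC1.le
    rw [← Finset.sum_filter]
    refine le_trans h3 ?_
    exact mul_le_mul_of_nonneg_right h4 (Finset.sum_nonneg fun e _ => sq_nonneg _)
  -- for fixed `e`
  have he : ∀ e ∈ Finset.Icc 1 N, ∑ h ∈ (cube H).erase 0,
      (if ∀ i, (e : ℤ) ∣ h i then ‖R e h‖ ^ 2 else 0) ≤
      (C1 * C2 * ((H : ℝ) ^ (3 + δ) * N)) * ((e : ℝ) ^ 2)⁻¹ := by
    intro e he
    rw [mem_Icc] at he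
    have heR : (1 : ℝ) ≤ e := by exact_mod_cast he.1
    have heR0 : (0 : ℝ) < e := by linarith
    by_cases hes : Squarefree e
    swap
    · -- all terms vanish
      have h1 : ∀ h, R e h = 0 := by
        intro h
        rw [hR]
        apply Finset.sum_eq_zero
        intro m _
        rw [if_neg]
        intro hs
        exact hes (Squarefree.of_mul_left hs)
      have h2 : ∑ h ∈ (cube H).erase 0, (if ∀ i, (e : ℤ) ∣ h i then ‖R e h‖ ^ 2 else 0) = 0 := by
        apply Finset.sum_eq_zero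
        intro h _
        rw [h1 h]
        simp
      rw [h2]
      positivity
    -- reduce to the sublattice
    have hReq : ∀ h' : Fin 3 → ℤ, R e (fun i => (e : ℤ) * h' i) = ((rho e : ℝ) / e : ℂ) * BB α N e h' := by
      intro h'
      rw [hR]
      simp only
      rw [Finset.sum_congr rfl (fun m _ => term_eq hSSmul hSSunit α h'), ← Finset.mul_sum]
      congr 1
      unfold BB
      rw [Finset.sum_filter]
      refine Finset.sum_congr rfl fun m _ => ?_
      by_cases hm : Squarefree m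
      · rw [if_pos hm]
      · rw [if_neg hm]
        unfold al
        rw [if_neg (fun hs => hm (Squarefree.of_mul_right hs)), zero_mul]
    have h3 : ∑ h ∈ (cube H).erase 0, (if ∀ i, (e : ℤ) ∣ h i then ‖R e h‖ ^ 2 else 0) ≤
        ∑ h' ∈ cube (H / e), ‖R e (fun i => (e : ℤ) * h' i)‖ ^ 2 := by
      rw [← Finset.sum_filter]
      have hinj : Function.Injective (fun h' : Fin 3 → ℤ => fun i => (e : ℤ) * h' i) := by
        intro a b hab
        funext i
        have := congrFun hab i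
        simp only at this
        exact mul_left_cancel₀ (by exact_mod_cast (by omega : e ≠ 0)) this
      rw [← Finset.sum_image (f := fun h => ‖R e h‖ ^ 2)
        (g := fun h' : Fin 3 → ℤ => fun i => (e : ℤ) * h' i) (fun a _ b _ hab => hinj hab)]
      apply Finset.sum_le_sum_of_subset_of_nonneg
      · intro h hh
        rw [mem_filter, mem_erase] at hh
        obtain ⟨⟨_, hc⟩, hd⟩ := hh
        choose h' hh' using hd
        rw [mem_image]
        refine ⟨h', ?_, ?_⟩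
        · unfold cube at hc ⊢
          rw [Fintype.mem_piFinset] at hc ⊢
          intro i
          have h5 := hc i
          rw [mem_Icc] at h5 ⊢
          rw [hh' i] at h5
          have he0 : (0 : ℤ) < e := by exact_mod_cast he.1
          have h6 : h' i ≤ (H : ℤ) / e := by
            rw [Int.le_ediv_iff_mul_le he0]; linarith [h5.2]
          have h7 : - h' i ≤ (H : ℤ) / e := by
            rw [Int.le_ediv_iff_mul_le he0]; linarith [h5.1]
          have h8 : ((H / e : ℕ) : ℤ) = (H : ℤ) / e := by push_cast; rfl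
          rw [h8]
          constructor <;> linarith
        · funext i
          exact (hh' i).symm
      · intro h _ _
        positivity
    refine le_trans h3 ?_
    have h4 : ∑ h' ∈ cube (H / e), ‖R e (fun i => (e : ℤ) * h' i)‖ ^ 2 =
        ((rho e : ℝ) / e) ^ 2 * ∑ h' ∈ cube (H / e), ‖BB α N e h'‖ ^ 2 := by
      rw [Finset.mul_sum]
      refine Finset.sum_congr rfl fun h' _ => ?_
      rw [hReq h', norm_mul, mul_pow]
      congr 2
      rw [norm_div, Complex.norm_natCast, Complex.norm_real, Real.norm_of_nonneg (by positivity)]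
    rw [h4]
    have h5 : ∑ h' ∈ cube (H / e), ‖BB α N e h'‖ ^ 2 ≤ C2 * ((H / e : ℕ) : ℝ) ^ (3 + δ) * ((N / e : ℕ) : ℝ) := by
      have := hLS (N / e) (H / e) (Nat.div_pos he.2 he.1) (Nat.div_le_div_right hNH) (al α e)
        (al_le hα e)
      exact this
    have h6 : ((H / e : ℕ) : ℝ) ^ (3 + δ) ≤ (H : ℝ) ^ (3 + δ) / (e : ℝ) ^ (3 + δ) := by
      rw [← Real.div_rpow hHR0.le heR0.le]
      exact Real.rpow_le_rpow (by positivity) Nat.cast_div_le (by positivity)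
    have h7 : ((N / e : ℕ) : ℝ) ≤ (N : ℝ) / e := Nat.cast_div_le
    have h8 : ((rho e : ℝ) / e) ^ 2 ≤ (C1 * (e : ℝ) ^ δ) * (e : ℝ) ^ 2 := by
      have h9 := hsS.2.1 e hes
      have h10 : (rho e : ℝ) / e ≤ 4 ^ (e.primeFactors.card) * e := by
        rw [div_le_iff₀ heR0]
        calc (rho e : ℝ) ≤ _ := h9
          _ = _ := by ring
      calc ((rho e : ℝ) / e) ^ 2 ≤ (4 ^ (e.primeFactors.card) * e) ^ 2 :=
            pow_le_pow_left₀ (by positivity) h10 2
        _ = 16 ^ (e.primeFactors.card) * (e : ℝ) ^ 2 := by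
            rw [mul_pow, ← pow_mul, mul_comm _ 2, pow_mul]; norm_num
        _ ≤ _ := mul_le_mul_of_nonneg_right (hdiv e he.1).1 (by positivity)
    have h11 : ((rho e : ℝ) / e) ^ 2 * ∑ h' ∈ cube (H / e), ‖BB α N e h'‖ ^ 2 ≤
        ((C1 * (e : ℝ) ^ δ) * (e : ℝ) ^ 2) *
          (C2 * ((H : ℝ) ^ (3 + δ) / (e : ℝ) ^ (3 + δ)) * ((N : ℝ) / e)) := by
      apply mul_le_mul h8 _ (Finset.sum_nonneg fun h' _ => sq_nonneg _) (by positivity)
      refine le_trans h5 ?_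
      apply mul_le_mul _ h7 (by positivity) (by positivity)
      exact mul_le_mul_of_nonneg_left h6 hC2.le
    refine le_trans h11 (le_of_eq ?_)
    have h12 : (e : ℝ) ^ (3 + δ) = (e : ℝ) ^ 3 * (e : ℝ) ^ δ := by
      rw [Real.rpow_add heR0]
      norm_cast
    rw [h12]
    have h13 : (e : ℝ) ^ δ ≠ 0 := (Real.rpow_pos_of_pos heR0 _).ne'
    field_simp
  -- conclusion
  have hsum : ∑ h ∈ (cube H).erase 0, ‖S h‖ ^ 2 ≤
      (C1 * (H : ℝ) ^ δ) * ((C1 * C2 * ((H : ℝ) ^ (3 + δ) * N)) * 2) := by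
    refine le_trans (Finset.sum_le_sum hnz) ?_
    rw [← Finset.mul_sum, Finset.sum_comm]
    apply mul_le_mul_of_nonneg_left _ (by positivity)
    refine le_trans (Finset.sum_le_sum he) ?_
    rw [← Finset.mul_sum]
    exact mul_le_mul_of_nonneg_left (inv_sq N) (by positivity)
  have hpow : (H : ℝ) ^ (3 + ε) = (H : ℝ) ^ δ * (H : ℝ) ^ (3 + δ) := by
    rw [← Real.rpow_add hHR0]
    congr 1
    rw [hδ]; ring
  have hbig : 1 ≤ (H : ℝ) ^ (3 + ε) * N := by
    have h1 : 1 ≤ (H : ℝ) ^ (3 + ε) := Real.one_le_rpow hHR (by positivity)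
    nlinarith
  calc ∑ h ∈ cube H, ‖∑ n ∈ (Finset.Icc 1 N).filter Squarefree, α n * sS n h‖ ^ 2
      = ‖S 0‖ ^ 2 + ∑ h ∈ (cube H).erase 0, ‖S h‖ ^ 2 :=
        (Finset.add_sum_erase (cube H) (fun h => ‖S h‖ ^ 2) h0mem).symm
    _ ≤ 1 + (C1 * (H : ℝ) ^ δ) * ((C1 * C2 * ((H : ℝ) ^ (3 + δ) * N)) * 2) := add_le_add hzero hsum
    _ = 1 + (C1 * (C1 * C2 * 2)) * ((H : ℝ) ^ (3 + ε) * N) := by rw [hpow]; ring
    _ ≤ 1 * ((H : ℝ) ^ (3 + ε) * N) + (C1 * (C1 * C2 * 2)) * ((H : ℝ) ^ (3 + ε) * N) := by linarith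
    _ = _ := by ring

end Pool.Agent.TCub
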