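import Pool.Agent.TCub.Stmts

open Finset

namespace Pool.Agent.TCub

namespace LTm

/-! ### basic facts about `tv` -/

lemma tv_add (N : ℕ) (a b : Multiset ℕ) : tv N (a + b) = tv N a + tv N b := by
  unfold tv
  rw [Multiset.map_add, Multiset.sum_add]

lemma tv_nonneg (N : ℕ) (a : Multiset ℕ) : 0 ≤ tv N a := by
  unfold tv
  apply Multiset.sum_nonneg
  intro x hx
  rw [Multiset.mem_map] at hx
  obtain ⟨j, _, rfl⟩ := hx
  unfold ed
  positivity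

lemma tv_mono (N : ℕ) {a b : Multiset ℕ} (h : a ≤ b) : tv N a ≤ tv N b := by
  obtain ⟨c, rfl⟩ := Multiset.le_iff_exists_add.mp h
  rw [tv_add]
  have := tv_nonneg N c
  linarith

/-- `card/(1000N) ≤ tv` -/
lemma card_le_tv (N : ℕ) (a : Multiset ℕ) : (Multiset.card a : ℝ) / (1000 * N) ≤ tv N a := by
  induction a using Multiset.induction_on with
  | empty => simp [tv]
  | cons j s ih =>
    have h1 : tv N (j ::ₘ s) = ed N j + tv N s := by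
      unfold tv
      simp
    rw [h1, Multiset.card_cons]
    push_cast
    have h3 : (((Multiset.card s : ℝ) + 1) / (1000 * N)) =
      (Multiset.card s : ℝ) / (1000 * N) + 1 / (1000 * N) := by ring
    rw [h3]
    unfold ed
    have h2 : (1:ℝ) / (1000 * N) ≤ ((j:ℝ) + 1) / (1000 * N) := by
      apply div_le_div_of_nonneg_right _ (by positivity)
      have : (0:ℝ) ≤ j := by positivity
      linarith
    linarith

lemma XX_nonneg (M K : ℕ) : 0 ≤ XX M K := by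
  unfold XX
  positivity

lemma RR_expand (hRRexp : St_RRexp) {M K m0 d : ℕ} (hM : 1 ≤ M) (hK : 1 ≤ K)
    (h0 : Squarefree m0) (hd : Squarefree d) (hco : Nat.Coprime m0 d) :
    RR M K (m0 * d) = ∑ a ∈ m0.divisors, ∑ d' ∈ d.divisors,
      (if a * d' = 1 then 0 else gd ((m0 / a) * (d / d')) * Est M K (a * d')) := by
  rw [hRRexp M K (m0 * d) hM hK ((Nat.squarefree_mul hco).mpr ⟨h0, hd⟩)]
  rw [← Finset.sum_product']
  have h1 : ∑ D ∈ (m0 * d).divisors.erase 1, gd ((m0 * d) / D) * Est M K D =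
      ∑ D ∈ (m0 * d).divisors, (if D = 1 then 0 else gd ((m0 * d) / D) * Est M K D) := by
    rw [← Finset.sum_erase (s := (m0 * d).divisors) (a := 1)
      (f := fun D => if D = 1 then 0 else gd ((m0 * d) / D) * Est M K D) (by simp)]
    refine Finset.sum_congr rfl fun D hD => ?_
    rw [if_neg (Finset.ne_of_mem_erase hD)]
  rw [h1]
  symm
  refine Finset.sum_nbij (fun p => p.1 * p.2) ?_ hco.mul_injOn_divisors ?_ ?_
  · rintro ⟨a, b⟩ h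
    rw [Finset.mem_product, Nat.mem_divisors, Nat.mem_divisors] at h
    rw [Nat.mem_divisors]
    exact ⟨Nat.mul_dvd_mul h.1.1 h.2.1, Nat.mul_ne_zero h.1.2 h.2.2⟩
  · intro D hD
    rw [Finset.mem_coe, Nat.mem_divisors] at hD
    refine ⟨(Nat.gcd D m0, Nat.gcd D d), ?_, ?_⟩
    · rw [Finset.mem_coe, Finset.mem_product, Nat.mem_divisors, Nat.mem_divisors]
      exact ⟨⟨Nat.gcd_dvd_right _ _, h0.ne_zero⟩, ⟨Nat.gcd_dvd_right _ _, hd.ne_zero⟩⟩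
    · simp only
      rw [← Nat.Coprime.gcd_mul D hco]
      exact Nat.gcd_eq_left hD.1
  · rintro ⟨a, b⟩ h
    rw [Finset.mem_product, Nat.mem_divisors, Nat.mem_divisors] at h
    simp only
    rw [Nat.div_mul_div_comm h.1.1 h.2.1]

lemma decomp (hRRexp : St_RRexp) (hDcl : St_Dcl) (hsplitd : St_splitd) {M K N u m0 : ℕ}
    (hM : 2 ≤ M) (hK : 1 ≤ K) (hN : 1 ≤ N) (h0 : Squarefree m0)
    (h0u : ∀ p ∈ m0.primeFactors, p < u) (m : Multiset ℕ) :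
    ∑ d ∈ Dcl M N u m, RR M K (m0 * d) =
      ∑ a ∈ m0.divisors, ∑ n ∈ (Multiset.powerset m).toFinset, ∑ d'' ∈ Dcl M N u (m - n),
        gd ((m0 / a) * d'') * ∑ d' ∈ Dcl M N u n,
          (if Nat.Coprime d' d'' ∧ a * d' ≠ 1 then Est M K (a * d') else 0) := by
  have h1 : ∀ d ∈ Dcl M N u m, RR M K (m0 * d) = ∑ a ∈ m0.divisors, ∑ d' ∈ d.divisors,
      (if a * d' = 1 then 0 else gd ((m0 / a) * (d / d')) * Est M K (a * d')) := by
    intro d hd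
    have hd' := (hDcl.1 M N u m d hM hN).mp hd
    apply RR_expand hRRexp (by omega) hK h0 hd'.1
    rw [Nat.coprime_iff_gcd_eq_one]
    by_contra hne
    obtain ⟨p, hp, hpd⟩ := Nat.exists_prime_and_dvd hne
    have hp1 : p ∣ m0 := hpd.trans (Nat.gcd_dvd_left _ _)
    have hp2 : p ∣ d := hpd.trans (Nat.gcd_dvd_right _ _)
    have h2 := h0u p (Nat.mem_primeFactors.mpr ⟨hp, hp1, h0.ne_zero⟩)
    have h3 := hd'.2.1 p (Nat.mem_primeFactors.mpr ⟨hp, hp2, hd'.1.ne_zero⟩)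
    omega
  rw [Finset.sum_congr rfl h1, Finset.sum_comm]
  refine Finset.sum_congr rfl fun a _ => ?_
  rw [hsplitd.1 M N u m hM hN (fun d' d'' => if a * d' = 1 then 0 else
    gd ((m0 / a) * d'') * Est M K (a * d'))]
  refine Finset.sum_congr rfl fun n _ => ?_
  rw [Finset.sum_comm]
  refine Finset.sum_congr rfl fun d'' _ => ?_
  rw [Finset.mul_sum]
  refine Finset.sum_congr rfl fun d' _ => ?_
  by_cases hc : Nat.Coprime d' d''
  · by_cases ha : a * d' = 1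
    · rw [if_pos hc, if_pos ha, if_neg (fun h => h.2 ha), mul_zero]
    · rw [if_pos hc, if_neg ha, if_pos ⟨hc, ha⟩]
  · rw [if_neg hc, if_neg (fun h => hc h.1), mul_zero]

/-! ### numbers of a given type -/

section

variable (hDcl : St_Dcl) {M N u : ℕ} (hM : 100 ≤ M) (hN : 1 ≤ N)

include hDcl hM hN

lemma Dcl_pos {m : Multiset ℕ} {d : ℕ} (hd : d ∈ Dcl M N u m) : 1 ≤ d :=
  Nat.pos_of_ne_zero ((hDcl.1 M N u m d (by omega) hN).mp hd).1.ne_zero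

lemma Dcl_sub {m : Multiset ℕ} : Dcl M N u m ⊆ Finset.Icc 1 ⌊(M:ℝ) ^ tv N m⌋₊ := by
  intro d hd
  rw [Finset.mem_Icc]
  exact ⟨Dcl_pos hDcl hM hN hd, Nat.le_floor (hDcl.2.1 M N u m d (by omega) hN hd).2⟩

lemma Dcl_card {m : Multiset ℕ} : ((Dcl M N u m).card : ℝ) ≤ (M:ℝ) ^ tv N m := by
  have h1 := Finset.card_le_card (Dcl_sub hDcl hM hN (u := u) (m := m))
  rw [Nat.card_Icc, Nat.add_sub_cancel] at h1
  have h2 : (⌊(M:ℝ) ^ tv N m⌋₊ : ℝ) ≤ (M:ℝ) ^ tv N m := Nat.floor_le (by positivity)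
  have h3 : ((Dcl M N u m).card : ℝ) ≤ (⌊(M:ℝ) ^ tv N m⌋₊ : ℝ) := by exact_mod_cast h1
  linarith

lemma coprime_of {a : ℕ} (ha : Squarefree a) (hau : ∀ p ∈ a.primeFactors, p < u)
    {m : Multiset ℕ} {d : ℕ} (hd : d ∈ Dcl M N u m) : Nat.Coprime a d := by
  have hd' := (hDcl.1 M N u m d (by omega) hN).mp hd
  rw [Nat.coprime_iff_gcd_eq_one]
  by_contra hne
  obtain ⟨p, hp, hpd⟩ := Nat.exists_prime_and_dvd hne
  have hp1 : p ∣ a := hpd.trans (Nat.gcd_dvd_left _ _)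
  have hp2 : p ∣ d := hpd.trans (Nat.gcd_dvd_right _ _)
  have h2 := hau p (Nat.mem_primeFactors.mpr ⟨hp, hp1, ha.ne_zero⟩)
  have h3 := hd'.2.1 p (Nat.mem_primeFactors.mpr ⟨hp, hp2, hd'.1.ne_zero⟩)
  omega

end

lemma rpow_alg {M : ℝ} (hM : 0 < M) (c x y z w : ℝ) :
    M ^ x * (c * (M ^ y + M ^ z * M ^ w)) = c * (M ^ (x + y) + M ^ (x + (z + w))) := by
  rw [Real.rpow_add hM x y, Real.rpow_add hM x (z + w), Real.rpow_add hM z w]
  ring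

/-- the inner sum, small types -/
lemma S_small (hEstI : St_EstI) (hDcl : St_Dcl) (K N : ℕ) (hK : 200000 ≤ K) (hN : 1 ≤ N) :
    ∃ C : ℝ, 0 < C ∧ ∀ M : ℕ, 100 ≤ M → ∀ (u : ℕ) (n : Multiset ℕ), tv N n < 149 / 100 →
      ∀ a : ℕ, Squarefree a → (∀ p ∈ a.primeFactors, p < u) → (a:ℝ) ≤ (M:ℝ) ^ (1 / 4000 : ℝ) →
      ∀ d'' : ℕ, |∑ d' ∈ Dcl M N u n,
          (if Nat.Coprime d' d'' ∧ a * d' ≠ 1 then Est M K (a * d') else 0)| ≤
        C * XX M K * (M:ℝ) ^ (-(75 / 10000) : ℝ) := by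
  obtain ⟨C, hC, hE⟩ := hEstI (1 / 10000) K (by norm_num) (by norm_num) (by
    have : (200000:ℝ) ≤ K := by exact_mod_cast hK
    linarith)
  refine ⟨2 * C, by positivity, ?_⟩
  intro M hM u n hn a ha hau haM d''
  have hM1 : (1:ℝ) ≤ M := by exact_mod_cast (by omega : 1 ≤ M)
  have hM0 : (0:ℝ) < M := by linarith
  have hX := XX_nonneg M K
  set B : ℝ := C * XX M K * ((M:ℝ) ^ (-12 : ℝ) +
    (M:ℝ) ^ (-3 + 4 * (1 / 10000) : ℝ) * ((M:ℝ) ^ (1 / 4000 + 149 / 100 : ℝ)) ^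
      (1 + 1 / 10000 : ℝ)) with hB
  have hB0 : 0 ≤ B := by positivity
  have hterm : ∀ d' ∈ Dcl M N u n,
      |(if Nat.Coprime d' d'' ∧ a * d' ≠ 1 then Est M K (a * d') else 0)| ≤ B := by
    intro d' hd'
    by_cases hc : Nat.Coprime d' d'' ∧ a * d' ≠ 1
    · rw [if_pos hc]
      have hd1 := Dcl_pos hDcl hM hN hd'
      have hd2 := (hDcl.2.1 M N u n d' (by omega) hN hd').2
      have ha1 : 1 ≤ a := Nat.pos_of_ne_zero ha.ne_zero
      have hle : ((a * d' : ℕ) : ℝ) ≤ (M:ℝ) ^ (1 / 4000 + 149 / 100 : ℝ) := by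
        rw [Real.rpow_add hM0]
        push_cast
        apply mul_le_mul haM _ (by positivity) (by positivity)
        exact hd2.trans (Real.rpow_le_rpow_of_exponent_le hM1 hn.le)
      have hsq : Squarefree (a * d') := (Nat.squarefree_mul
        (coprime_of hDcl hM hN ha hau hd')).mpr ⟨ha, ((hDcl.1 M N u n d' (by omega) hN).mp hd').1⟩
      have h1 := hE M (a * d') hM hsq (by
        have : 1 ≤ a * d' := Nat.mul_pos ha1 hd1
        omega) (hle.trans (by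
          rw [← Real.rpow_natCast]
          apply Real.rpow_le_rpow_of_exponent_le hM1
          norm_num))
      refine h1.trans ?_
      rw [hB]
      apply mul_le_mul_of_nonneg_left _ (by positivity)
      gcongr
    · rw [if_neg hc, abs_zero]
      exact hB0
  have h1 : |∑ d' ∈ Dcl M N u n,
      (if Nat.Coprime d' d'' ∧ a * d' ≠ 1 then Est M K (a * d') else 0)| ≤
      (Dcl M N u n).card * B := by
    refine (Finset.abs_sum_le_sum_abs _ _).trans ?_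
    rw [← nsmul_eq_mul]
    exact Finset.sum_le_card_nsmul _ _ _ hterm
  refine h1.trans ?_
  have h2 : ((Dcl M N u n).card : ℝ) ≤ (M:ℝ) ^ (149 / 100 : ℝ) :=
    (Dcl_card hDcl hM hN).trans (Real.rpow_le_rpow_of_exponent_le hM1 hn.le)
  have h3 : ((Dcl M N u n).card : ℝ) * B ≤ (M:ℝ) ^ (149 / 100 : ℝ) * B :=
    mul_le_mul_of_nonneg_right h2 hB0
  refine h3.trans ?_
  rw [hB, ← Real.rpow_mul hM0.le]
  have h4 : (M:ℝ) ^ (149 / 100 : ℝ) * (C * XX M K * ((M:ℝ) ^ (-12 : ℝ) +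
      (M:ℝ) ^ (-3 + 4 * (1 / 10000) : ℝ) * (M:ℝ) ^ ((1 / 4000 + 149 / 100) *
      (1 + 1 / 10000) : ℝ))) = C * XX M K * ((M:ℝ) ^ (149 / 100 + -12 : ℝ) +
      (M:ℝ) ^ (149 / 100 + ((-3 + 4 * (1 / 10000)) + (1 / 4000 + 149 / 100) *
      (1 + 1 / 10000)) : ℝ)) := rpow_alg hM0 _ _ _ _ _
  rw [h4]
  have h5 : (M:ℝ) ^ (149 / 100 + -12 : ℝ) ≤ (M:ℝ) ^ (-(75 / 10000) : ℝ) :=
    Real.rpow_le_rpow_of_exponent_le hM1 (by norm_num)
  have h6 : (M:ℝ) ^ (149 / 100 + ((-3 + 4 * (1 / 10000)) + (1 / 4000 + 149 / 100) *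
      (1 + 1 / 10000)) : ℝ) ≤ (M:ℝ) ^ (-(75 / 10000) : ℝ) :=
    Real.rpow_le_rpow_of_exponent_le hM1 (by norm_num)
  have h7 : C * XX M K * ((M:ℝ) ^ (149 / 100 + -12 : ℝ) +
      (M:ℝ) ^ (149 / 100 + ((-3 + 4 * (1 / 10000)) + (1 / 4000 + 149 / 100) *
      (1 + 1 / 10000)) : ℝ)) ≤ C * XX M K * ((M:ℝ) ^ (-(75 / 10000) : ℝ) +
      (M:ℝ) ^ (-(75 / 10000) : ℝ)) := by
    apply mul_le_mul_of_nonneg_left _ (by positivity)
    linarith
  refine h7.trans (le_of_eq ?_)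
  ring

/-- exponent for the lower edge -/
lemma lower_exp_nonneg (N : ℕ) (m : Multiset ℕ) :
    0 ≤ tv N m - (Multiset.card m : ℝ) / (1000 * N) := by
  have := card_le_tv N m
  linarith

/-- the summand of the trilinear sum -/
noncomputable def GG3 (M K : ℕ) (a₁ a₂ a₃ : ℕ → ℝ) (n₁ n₂ n₃ : ℕ) : ℝ :=
  if Squarefree (n₁ * n₂ * n₃) then a₁ n₁ * a₂ n₂ * a₃ n₃ * Est M K (n₁ * n₂ * n₃) else 0

/-- the trilinear sum is the sum over the classes -/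
lemma TriE_eq (hDcl : St_Dcl) {M N K u : ℕ} (hM : 100 ≤ M) (hN : 1 ≤ N) {a : ℕ}
    (ha : Squarefree a) (hau : ∀ p ∈ a.primeFactors, p < u) (d'' : ℕ) (b₁ b₂ b₃ : Multiset ℕ) :
    ∑ n₁ ∈ Dcl M N u b₁, ∑ n₂ ∈ Dcl M N u b₂, ∑ k ∈ Dcl M N u b₃,
      (if Squarefree (n₁ * n₂ * k) then
        (if Nat.Coprime (n₁ * n₂ * k) d'' then Est M K (a * (n₁ * n₂ * k)) else 0) else 0) =
    TriE M K ((M:ℝ) ^ tv N b₁) ((M:ℝ) ^ tv N b₂) (a * (M:ℝ) ^ tv N b₃)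
      (fun n => if n ∈ Dcl M N u b₁ ∧ Nat.Coprime n d'' then 1 else 0)
      (fun n => if n ∈ Dcl M N u b₂ ∧ Nat.Coprime n d'' then 1 else 0)
      (fun n => if (a ∣ n ∧ n / a ∈ Dcl M N u b₃) ∧ Nat.Coprime (n / a) d'' then 1 else 0) := by
  have ha1 : 1 ≤ a := Nat.pos_of_ne_zero ha.ne_zero
  set a₁ : ℕ → ℝ := fun n => if n ∈ Dcl M N u b₁ ∧ Nat.Coprime n d'' then 1 else 0 with ha₁
  set a₂ : ℕ → ℝ := fun n => if n ∈ Dcl M N u b₂ ∧ Nat.Coprime n d'' then 1 else 0 with ha₂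
  set a₃ : ℕ → ℝ := fun n => if (a ∣ n ∧ n / a ∈ Dcl M N u b₃) ∧ Nat.Coprime (n / a) d''
    then 1 else 0 with ha₃
  have hG1 : ∀ n₁ n₂ n₃, n₁ ∉ Dcl M N u b₁ → GG3 M K a₁ a₂ a₃ n₁ n₂ n₃ = 0 := by
    intro n₁ n₂ n₃ h
    have h0 : a₁ n₁ = 0 := if_neg fun h' => h h'.1
    unfold GG3
    rw [h0]
    simp
  have hG2 : ∀ n₁ n₂ n₃, n₂ ∉ Dcl M N u b₂ → GG3 M K a₁ a₂ a₃ n₁ n₂ n₃ = 0 := by
    intro n₁ n₂ n₃ h
    have h0 : a₂ n₂ = 0 := if_neg fun h' => h h'.1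
    unfold GG3
    rw [h0]
    simp
  have hG3 : ∀ n₁ n₂ n₃, n₃ ∉ (Dcl M N u b₃).image (fun k => a * k) →
      GG3 M K a₁ a₂ a₃ n₁ n₂ n₃ = 0 := by
    intro n₁ n₂ n₃ h
    have h0 : a₃ n₃ = 0 := if_neg fun h' => h (Finset.mem_image.mpr
      ⟨n₃ / a, h'.1.2, Nat.mul_div_cancel' h'.1.1⟩)
    unfold GG3
    rw [h0]
    simp
  have e1 : TriE M K ((M:ℝ) ^ tv N b₁) ((M:ℝ) ^ tv N b₂) (a * (M:ℝ) ^ tv N b₃) a₁ a₂ a₃ =
      ∑ n₁ ∈ Finset.Icc 1 ⌊(M:ℝ) ^ tv N b₁⌋₊, ∑ n₂ ∈ Finset.Icc 1 ⌊(M:ℝ) ^ tv N b₂⌋₊,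
        ∑ n₃ ∈ Finset.Icc 1 ⌊a * (M:ℝ) ^ tv N b₃⌋₊, GG3 M K a₁ a₂ a₃ n₁ n₂ n₃ := rfl
  have e2 : ∀ n₁ n₂, ∑ n₃ ∈ Finset.Icc 1 ⌊a * (M:ℝ) ^ tv N b₃⌋₊, GG3 M K a₁ a₂ a₃ n₁ n₂ n₃ =
      ∑ k ∈ Dcl M N u b₃, GG3 M K a₁ a₂ a₃ n₁ n₂ (a * k) := by
    intro n₁ n₂
    rw [← Finset.sum_image (f := fun n₃ => GG3 M K a₁ a₂ a₃ n₁ n₂ n₃) (g := fun k => a * k)]
    · symm
      apply Finset.sum_subset
      · intro n hn
        obtain ⟨k, hk, rfl⟩ := Finset.mem_image.mp hn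
        rw [Finset.mem_Icc]
        refine ⟨Nat.mul_pos ha1 (Dcl_pos hDcl hM hN hk), Nat.le_floor ?_⟩
        push_cast
        exact mul_le_mul_of_nonneg_left (hDcl.2.1 M N u b₃ k (by omega) hN hk).2 (by positivity)
      · intro n _ hn
        exact hG3 n₁ n₂ n hn
    · intro k _ k' _ h
      exact Nat.eq_of_mul_eq_mul_left ha1 h
  have e3 : ∀ n₁, ∑ n₂ ∈ Finset.Icc 1 ⌊(M:ℝ) ^ tv N b₂⌋₊,
      ∑ k ∈ Dcl M N u b₃, GG3 M K a₁ a₂ a₃ n₁ n₂ (a * k) =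
      ∑ n₂ ∈ Dcl M N u b₂, ∑ k ∈ Dcl M N u b₃, GG3 M K a₁ a₂ a₃ n₁ n₂ (a * k) := by
    intro n₁
    symm
    apply Finset.sum_subset (Dcl_sub hDcl hM hN)
    intro n₂ _ hn
    exact Finset.sum_eq_zero fun k _ => hG2 n₁ n₂ _ hn
  have e4 : ∑ n₁ ∈ Finset.Icc 1 ⌊(M:ℝ) ^ tv N b₁⌋₊, ∑ n₂ ∈ Dcl M N u b₂,
      ∑ k ∈ Dcl M N u b₃, GG3 M K a₁ a₂ a₃ n₁ n₂ (a * k) =
      ∑ n₁ ∈ Dcl M N u b₁, ∑ n₂ ∈ Dcl M N u b₂, ∑ k ∈ Dcl M N u b₃,
        GG3 M K a₁ a₂ a₃ n₁ n₂ (a * k) := by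
    symm
    apply Finset.sum_subset (Dcl_sub hDcl hM hN)
    intro n₁ _ hn
    exact Finset.sum_eq_zero fun n₂ _ => Finset.sum_eq_zero fun k _ => hG1 n₁ n₂ _ hn
  rw [e1]
  simp_rw [e2, e3]
  rw [e4]
  refine Finset.sum_congr rfl fun n₁ h1 => Finset.sum_congr rfl fun n₂ h2 =>
    Finset.sum_congr rfl fun k h3 => ?_
  have c1 := coprime_of hDcl hM hN ha hau h1
  have c2 := coprime_of hDcl hM hN ha hau h2
  have c3 := coprime_of hDcl hM hN ha hau h3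
  have hprod : n₁ * n₂ * (a * k) = a * (n₁ * n₂ * k) := by ring
  have hco : Nat.Coprime a (n₁ * n₂ * k) := (c1.mul_right c2).mul_right c3
  unfold GG3
  rw [hprod]
  by_cases hs : Squarefree (n₁ * n₂ * k)
  · rw [if_pos hs, if_pos ((Nat.squarefree_mul hco).mpr ⟨ha, hs⟩)]
    have hdiv : a * k / a = k := Nat.mul_div_cancel_left k ha1
    have v1 : a₁ n₁ = if Nat.Coprime n₁ d'' then 1 else 0 := by
      simp only [ha₁, h1, true_and]
    have v2 : a₂ n₂ = if Nat.Coprime n₂ d'' then 1 else 0 := by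
      simp only [ha₂, h2, true_and]
    have v3 : a₃ (a * k) = if Nat.Coprime k d'' then 1 else 0 := by
      simp only [ha₃, hdiv, h3, and_true, dvd_mul_right, true_and]
    rw [v1, v2, v3]
    by_cases q1 : Nat.Coprime n₁ d''
    · by_cases q2 : Nat.Coprime n₂ d''
      · by_cases q3 : Nat.Coprime k d''
        · rw [if_pos q1, if_pos q2, if_pos q3, if_pos ((q1.mul_left q2).mul_left q3)]
          ring
        · rw [if_neg q3, if_neg (fun h => q3 (Nat.Coprime.coprime_mul_left h))]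
          ring
      · rw [if_neg q2, if_neg (fun h => q2 (Nat.Coprime.coprime_mul_left
          (Nat.Coprime.coprime_mul_right h)))]
        ring
    · rw [if_neg q1, if_neg (fun h => q1 (Nat.Coprime.coprime_mul_right
        (Nat.Coprime.coprime_mul_right h)))]
      ring
  · rw [if_neg hs, if_neg (fun h => hs ((Nat.squarefree_mul hco).mp h).2)]

/-- the inner sum, large types -/
lemma S_large (hLB : St_LB) (hDcl : St_Dcl) (hsplit3 : St_split3) (K r N : ℕ) (hK : 200000 ≤ K)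
    (hN : 1 ≤ N) (hr : 10 * r ≤ N) :
    ∃ C : ℝ, 0 < C ∧ ∀ M : ℕ, 100 ≤ M → ∀ (u : ℕ) (n : Multiset ℕ), 149 / 100 ≤ tv N n →
      tv N n ≤ 171 / 100 → Multiset.card n ≤ r →
      (∃ b₁ b₂ : Multiset ℕ, b₁ + b₂ ≤ n ∧
        tv N b₁ ≤ tv N n - 1 ∧ tv N b₂ ≤ tv N n - 1 ∧
        tv N n - tv N b₁ - tv N b₂ ≤ 6 - 3 * tv N n - 1 / 50) →
      ∀ a : ℕ, Squarefree a → (∀ p ∈ a.primeFactors, p < u) → (a:ℝ) ≤ (M:ℝ) ^ (1 / 4000 : ℝ) →
      ∀ d'' : ℕ, |∑ d' ∈ Dcl M N u n,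
          (if Nat.Coprime d' d'' ∧ a * d' ≠ 1 then Est M K (a * d') else 0)| ≤
        C * XX M K * (M:ℝ) ^ (-(75 / 10000) : ℝ) := by
  obtain ⟨C, hC, hE⟩ := hLB (1 / 10000) K (by norm_num) (by norm_num) (by
    have : (200000:ℝ) ≤ K := by exact_mod_cast hK
    linarith)
  refine ⟨C, hC, ?_⟩
  intro M hM u n hn1 hn2 hcard hsl a ha hau haM d''
  obtain ⟨b₁, b₂, hb, t1, t2, t3⟩ := hsl
  obtain ⟨b₃, hb3⟩ := Multiset.le_iff_exists_add.mp hb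
  subst hb3
  have hM1 : (1:ℝ) ≤ M := by exact_mod_cast (by omega : 1 ≤ M)
  have hM1' : (1:ℝ) < M := by exact_mod_cast (by omega : 1 < M)
  have hM0 : (0:ℝ) < M := by linarith
  have hX := XX_nonneg M K
  have ha1 : 1 ≤ a := Nat.pos_of_ne_zero ha.ne_zero
  have ha1' : (1:ℝ) ≤ a := by exact_mod_cast ha1
  have hN0 : (0:ℝ) < N := by exact_mod_cast hN
  have htv : tv N (b₁ + b₂ + b₃) = tv N b₁ + tv N b₂ + tv N b₃ := by rw [tv_add, tv_add]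
  rw [htv] at hn1 hn2 t1 t2 t3
  set t₁ := tv N b₁ with ht₁
  set t₂ := tv N b₂ with ht₂
  set t₃ := tv N b₃ with ht₃
  set q₁ : ℝ := (Multiset.card b₁ : ℝ) / (1000 * N) with hq₁
  set q₂ : ℝ := (Multiset.card b₂ : ℝ) / (1000 * N) with hq₂
  set q₃ : ℝ := (Multiset.card b₃ : ℝ) / (1000 * N) with hq₃
  have e1 : 0 ≤ t₁ - q₁ := lower_exp_nonneg N b₁
  have e2 : 0 ≤ t₂ - q₂ := lower_exp_nonneg N b₂
  have e3 : 0 ≤ t₃ - q₃ := lower_exp_nonneg N b₃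
  have p1 : 0 ≤ q₁ := by positivity
  have p2 : 0 ≤ q₂ := by positivity
  have p3 : 0 ≤ q₃ := by positivity
  have hq : q₁ + q₂ + q₃ ≤ 1 / 10000 := by
    have h1 : q₁ + q₂ + q₃ = (Multiset.card (b₁ + b₂ + b₃) : ℝ) / (1000 * N) := by
      rw [Multiset.card_add, Multiset.card_add, hq₁, hq₂, hq₃]
      push_cast
      ring
    rw [h1, div_le_iff₀ (by positivity)]
    have h2 : (10:ℝ) * (Multiset.card (b₁ + b₂ + b₃) : ℝ) ≤ N := by
      exact_mod_cast (Nat.mul_le_mul_left 10 hcard).trans hr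
    linarith
  have s1 : 0 ≤ t₁ := tv_nonneg N b₁
  have s2 : 0 ≤ t₂ := tv_nonneg N b₂
  have s3 : 0 ≤ t₃ := tv_nonneg N b₃
  -- remove the condition `a * d' ≠ 1`
  have hsum : ∑ d' ∈ Dcl M N u (b₁ + b₂ + b₃),
      (if Nat.Coprime d' d'' ∧ a * d' ≠ 1 then Est M K (a * d') else 0) =
      ∑ d' ∈ Dcl M N u (b₁ + b₂ + b₃),
        (if Nat.Coprime d' d'' then Est M K (a * d') else 0) := by
    refine Finset.sum_congr rfl fun d' hd' => ?_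
    have h1 := (hDcl.2.1 M N u _ d' (by omega) hN hd').1
    have h2 : (1:ℝ) < (M:ℝ) ^ (tv N (b₁ + b₂ + b₃) -
        (Multiset.card (b₁ + b₂ + b₃) : ℝ) / (1000 * N)) := by
      apply Real.one_lt_rpow hM1'
      have h3 : (Multiset.card (b₁ + b₂ + b₃) : ℝ) / (1000 * N) = q₁ + q₂ + q₃ := by
        rw [Multiset.card_add, Multiset.card_add, hq₁, hq₂, hq₃]
        push_cast
        ring
      rw [h3, htv]
      linarith
    have h3 : 1 < d' := by exact_mod_cast h2.trans_le h1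
    have h4 : a * d' ≠ 1 := by
      intro h
      have := Nat.eq_one_of_mul_eq_one_left h
      omega
    by_cases hc : Nat.Coprime d' d''
    · rw [if_pos ⟨hc, h4⟩, if_pos hc]
    · rw [if_neg (fun h => hc h.1), if_neg hc]
  rw [hsum]
  obtain ⟨c, hc, hs⟩ := hsplit3 M N u b₁ b₂ b₃ (by omega) hN
  have h1 := hs (fun d' => if Nat.Coprime d' d'' then Est M K (a * d') else 0)
  rw [TriE_eq hDcl hM hN ha hau d'' b₁ b₂ b₃] at h1
  set S := ∑ d' ∈ Dcl M N u (b₁ + b₂ + b₃),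
        (if Nat.Coprime d' d'' then Est M K (a * d') else 0) with hS
  have hcS : |S| ≤ |(c:ℝ) * S| := by
    rw [abs_mul, Nat.abs_cast]
    have : (1:ℝ) ≤ c := by exact_mod_cast hc
    nlinarith [abs_nonneg S]
  refine hcS.trans ?_
  rw [h1]
  have hN123 : (M:ℝ) ^ t₁ * (M:ℝ) ^ t₂ * (a * (M:ℝ) ^ t₃) = a * (M:ℝ) ^ (t₁ + t₂ + t₃) := by
    rw [Real.rpow_add hM0, Real.rpow_add hM0]
    ring
  have hL123 : (M:ℝ) ^ (t₁ - q₁) * (M:ℝ) ^ (t₂ - q₂) * (a * (M:ℝ) ^ (t₃ - q₃)) *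
      (M:ℝ) ^ ((1 / 10000 : ℝ) - 1) =
      a * (M:ℝ) ^ ((t₁ - q₁) + (t₂ - q₂) + (t₃ - q₃) + ((1 / 10000 : ℝ) - 1)) := by
    rw [Real.rpow_add hM0, Real.rpow_add hM0, Real.rpow_add hM0]
    ring
  have hge : ∀ t : ℝ, t ≤ (t₁ - q₁) + (t₂ - q₂) + (t₃ - q₃) + ((1 / 10000 : ℝ) - 1) →
      (M:ℝ) ^ t ≤ (M:ℝ) ^ (t₁ - q₁) * (M:ℝ) ^ (t₂ - q₂) * (a * (M:ℝ) ^ (t₃ - q₃)) *
      (M:ℝ) ^ ((1 / 10000 : ℝ) - 1) := by
    intro t ht
    rw [hL123]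
    have h2 := Real.rpow_le_rpow_of_exponent_le hM1 ht
    have h3 : (0:ℝ) ≤ (M:ℝ) ^ ((t₁ - q₁) + (t₂ - q₂) + (t₃ - q₃) + ((1 / 10000 : ℝ) - 1)) := by
      positivity
    nlinarith
  have hind : ∀ (P : Prop) [Decidable P], |(if P then (1:ℝ) else 0)| ≤ 1 := by
    intro P _
    by_cases h : P
    · rw [if_pos h]; norm_num
    · rw [if_neg h]; norm_num
  have hmain := hE M hM ((M:ℝ) ^ (t₁ - q₁)) ((M:ℝ) ^ (t₂ - q₂)) (a * (M:ℝ) ^ (t₃ - q₃))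
    ((M:ℝ) ^ t₁) ((M:ℝ) ^ t₂) (a * (M:ℝ) ^ t₃)
    (Real.one_le_rpow hM1 e1) (Real.one_le_rpow hM1 e2)
    (by
      have := Real.one_le_rpow hM1 e3
      nlinarith)
    (Real.rpow_le_rpow_of_exponent_le hM1 (by linarith))
    (Real.rpow_le_rpow_of_exponent_le hM1 (by linarith))
    (mul_le_mul_of_nonneg_left (Real.rpow_le_rpow_of_exponent_le hM1 (by linarith))
      (by positivity))
    (by
      rw [hN123, ← Real.rpow_natCast]
      calc (a:ℝ) * (M:ℝ) ^ (t₁ + t₂ + t₃) ≤ (M:ℝ) ^ (1 / 4000 : ℝ) * (M:ℝ) ^ (t₁ + t₂ + t₃) :=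
            mul_le_mul_of_nonneg_right haM (by positivity)
        _ = (M:ℝ) ^ (1 / 4000 + (t₁ + t₂ + t₃) : ℝ) := by rw [← Real.rpow_add hM0]
        _ ≤ (M:ℝ) ^ ((2:ℕ) : ℝ) := by
            apply Real.rpow_le_rpow_of_exponent_le hM1
            push_cast
            linarith)
    (hge t₁ (by linarith)) (hge t₂ (by linarith))
    (fun n => if n ∈ Dcl M N u b₁ ∧ Nat.Coprime n d'' then 1 else 0)
    (fun n => if n ∈ Dcl M N u b₂ ∧ Nat.Coprime n d'' then 1 else 0)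
    (fun n => if (a ∣ n ∧ n / a ∈ Dcl M N u b₃) ∧ Nat.Coprime (n / a) d'' then 1 else 0)
    (fun n => hind _) (fun n => hind _) (fun n => hind _)
    (by
      intro n hn
      have h : n ∈ Dcl M N u b₁ := by
        by_contra hcon
        exact hn (if_neg fun h' => hcon h'.1)
      exact hDcl.2.1 M N u b₁ n (by omega) hN h)
    (by
      intro n hn
      have h : n ∈ Dcl M N u b₂ := by
        by_contra hcon
        exact hn (if_neg fun h' => hcon h'.1)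
      exact hDcl.2.1 M N u b₂ n (by omega) hN h)
    (by
      intro n hn
      have h : a ∣ n ∧ n / a ∈ Dcl M N u b₃ := by
        by_contra hcon
        exact hn (if_neg fun h' => hcon h'.1)
      obtain ⟨k, rfl⟩ := h.1
      have hk : a * k / a = k := Nat.mul_div_cancel_left k ha1
      rw [hk] at h
      have h2 := hDcl.2.1 M N u b₃ k (by omega) hN h.2
      push_cast
      exact ⟨mul_le_mul_of_nonneg_left h2.1 (by positivity),
        mul_le_mul_of_nonneg_left h2.2 (by positivity)⟩)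
  refine hmain.trans ?_
  rw [hN123]
  have hsqrt : Real.sqrt ((M:ℝ) ^ t₁ * (M:ℝ) ^ t₂) = (M:ℝ) ^ ((t₁ + t₂) / 2) := by
    rw [← Real.rpow_add hM0, Real.sqrt_eq_rpow, ← Real.rpow_mul hM0.le]
    congr 1
    ring
  have hdv : (a * (M:ℝ) ^ (t₁ + t₂ + t₃)) ^ 2 / (M:ℝ) ^ ((t₁ + t₂) / 2) =
      (a:ℝ) ^ 2 * (M:ℝ) ^ ((t₁ + t₂ + t₃) * ((2:ℕ):ℝ)) * (M:ℝ) ^ (-((t₁ + t₂) / 2)) := by
    rw [Real.rpow_neg hM0.le, Real.rpow_mul hM0.le, Real.rpow_natCast, mul_pow]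
    exact div_eq_mul_inv _ _
  rw [hsqrt, hdv]
  have ha2 : (a:ℝ) ^ 2 ≤ (M:ℝ) ^ (1 / 2000 : ℝ) := by
    calc (a:ℝ) ^ 2 ≤ ((M:ℝ) ^ (1 / 4000 : ℝ)) ^ 2 := pow_le_pow_left₀ (by positivity) haM 2
      _ = (M:ℝ) ^ (1 / 2000 : ℝ) := by
          rw [← Real.rpow_natCast, ← Real.rpow_mul hM0.le]
          norm_num
  rw [mul_assoc (C * XX M K)]
  apply mul_le_mul_of_nonneg_left _ (by positivity)
  calc (M:ℝ) ^ (-3 + 20 * (1 / 10000) : ℝ) * ((a:ℝ) ^ 2 *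
        (M:ℝ) ^ ((t₁ + t₂ + t₃) * ((2:ℕ):ℝ)) * (M:ℝ) ^ (-((t₁ + t₂) / 2)))
      ≤ (M:ℝ) ^ (-3 + 20 * (1 / 10000) : ℝ) * ((M:ℝ) ^ (1 / 2000 : ℝ) *
        (M:ℝ) ^ ((t₁ + t₂ + t₃) * ((2:ℕ):ℝ)) * (M:ℝ) ^ (-((t₁ + t₂) / 2))) := by
        gcongr
    _ = (M:ℝ) ^ ((-3 + 20 * (1 / 10000)) + ((1 / 2000 + (t₁ + t₂ + t₃) * ((2:ℕ):ℝ)) +
          (-((t₁ + t₂) / 2))) : ℝ) := by
        rw [Real.rpow_add hM0 (-3 + 20 * (1 / 10000)), Real.rpow_add hM0 (1 / 2000 +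
          (t₁ + t₂ + t₃) * ((2:ℕ):ℝ)), Real.rpow_add hM0 (1 / 2000)]
    _ ≤ (M:ℝ) ^ (-(75 / 10000) : ℝ) := by
        apply Real.rpow_le_rpow_of_exponent_le hM1
        push_cast
        linarith

/-- harmonic sums -/
lemma harm (M : ℕ) (hM : 1 ≤ M) (s : Finset ℕ) (hs : s ⊆ Finset.Icc 1 (M ^ 2)) :
    ∑ d ∈ s, (1:ℝ) / d ≤ 20001 * (M:ℝ) ^ (1 / 10000 : ℝ) := by
  have hM1 : (1:ℝ) ≤ M := by exact_mod_cast hM
  have h1 : ∑ d ∈ s, (1:ℝ) / d ≤ ∑ d ∈ Finset.Icc 1 (M ^ 2), (1:ℝ) / d :=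
    Finset.sum_le_sum_of_subset_of_nonneg hs (fun _ _ _ => by positivity)
  have h2 : ∑ d ∈ Finset.Icc 1 (M ^ 2), (1:ℝ) / d = (harmonic (M ^ 2) : ℝ) := by
    rw [harmonic_eq_sum_Icc]
    push_cast
    simp only [one_div]
  have h3 := harmonic_le_one_add_log (M ^ 2)
  have h4 : Real.log ((M ^ 2 : ℕ) : ℝ) = 2 * Real.log M := by
    push_cast
    rw [Real.log_pow]
    push_cast
    ring
  have h5 := Real.log_natCast_le_rpow_div M (ε := 1 / 10000) (by norm_num)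
  have h6 : (1:ℝ) ≤ (M:ℝ) ^ (1 / 10000 : ℝ) := Real.one_le_rpow hM1 (by norm_num)
  rw [h2] at h1
  rw [h4] at h3
  have h7 : (M:ℝ) ^ (1 / 10000 : ℝ) / (1 / 10000) = 10000 * (M:ℝ) ^ (1 / 10000 : ℝ) := by ring
  rw [h7] at h5
  linarith

lemma gd_nonneg (k : ℕ) : 0 ≤ gd k := by
  unfold gd
  positivity

/-- the bound for the sum of the densities -/
lemma gd_sum (hsS : St_sS) (hdiv : St_div) (hDcl : St_Dcl) : ∃ C : ℝ, 0 < C ∧ ∀ M N u : ℕ,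
    100 ≤ M → 1 ≤ N → ∀ m : Multiset ℕ, tv N m ≤ 171 / 100 → ∀ e : ℕ, Squarefree e →
    (∀ p ∈ e.primeFactors, p < u) → (e:ℝ) ≤ (M:ℝ) ^ (1 / 4000 : ℝ) →
    ∑ d ∈ Dcl M N u m, gd (e * d) ≤ C * (M:ℝ) ^ (3 / 10000 : ℝ) := by
  obtain ⟨C, hC, h4⟩ := hdiv (1 / 10000) (by norm_num) 4 (by norm_num)
  refine ⟨20001 * C, by positivity, ?_⟩
  intro M N u hM hN m hm e he heu heM
  have hM1 : (1:ℝ) ≤ M := by exact_mod_cast (by omega : 1 ≤ M)
  have hM0 : (0:ℝ) < M := by linarith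
  have hdle : ∀ d ∈ Dcl M N u m, (d:ℝ) ≤ (M:ℝ) ^ (171 / 100 : ℝ) := by
    intro d hd
    exact (hDcl.2.1 M N u m d (by omega) hN hd).2.trans
      (Real.rpow_le_rpow_of_exponent_le hM1 hm)
  have hterm : ∀ d ∈ Dcl M N u m, gd (e * d) ≤ C * (M:ℝ) ^ (2 / 10000 : ℝ) * (1 / d) := by
    intro d hd
    have hd1 : 1 ≤ d := Dcl_pos hDcl hM hN hd
    have he1 : 1 ≤ e := Nat.pos_of_ne_zero he.ne_zero
    have hco := coprime_of hDcl hM hN he heu hd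
    have hsq : Squarefree (e * d) := (Nat.squarefree_mul hco).mpr
      ⟨he, ((hDcl.1 M N u m d (by omega) hN).mp hd).1⟩
    have hk1 : 1 ≤ e * d := Nat.mul_pos he1 hd1
    have hk0 : (0:ℝ) < ((e * d : ℕ) : ℝ) := by exact_mod_cast hk1
    have hd0 : (0:ℝ) < (d:ℝ) := by exact_mod_cast hd1
    have r1 := hsS.2.1 (e * d) hsq
    have r2 := (h4 (e * d) hk1).1
    have r3 : ((e * d : ℕ) : ℝ) ≤ (M:ℝ) ^ (2:ℝ) := by
      push_cast
      calc (e:ℝ) * d ≤ (M:ℝ) ^ (1 / 4000 : ℝ) * (M:ℝ) ^ (171 / 100 : ℝ) :=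
            mul_le_mul heM (hdle d hd) (by positivity) (by positivity)
        _ = (M:ℝ) ^ (1 / 4000 + 171 / 100 : ℝ) := by rw [← Real.rpow_add hM0]
        _ ≤ _ := Real.rpow_le_rpow_of_exponent_le hM1 (by norm_num)
    have r4 : ((e * d : ℕ) : ℝ) ^ (1 / 10000 : ℝ) ≤ (M:ℝ) ^ (2 / 10000 : ℝ) := by
      calc ((e * d : ℕ) : ℝ) ^ (1 / 10000 : ℝ) ≤ ((M:ℝ) ^ (2:ℝ)) ^ (1 / 10000 : ℝ) :=
            Real.rpow_le_rpow (by positivity) r3 (by norm_num)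
        _ = (M:ℝ) ^ (2 / 10000 : ℝ) := by
            rw [← Real.rpow_mul hM0.le]
            norm_num
    unfold gd
    have r5 : (rho (e * d) : ℝ) / ((e * d : ℕ) : ℝ) ^ 3 ≤
        (C * (M:ℝ) ^ (2 / 10000 : ℝ)) * ((e * d : ℕ) : ℝ) ^ 2 / ((e * d : ℕ) : ℝ) ^ 3 := by
      apply div_le_div_of_nonneg_right _ (by positivity)
      refine r1.trans ?_
      apply mul_le_mul_of_nonneg_right _ (by positivity)
      exact r2.trans (mul_le_mul_of_nonneg_left r4 hC.le)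
    have r6 : (C * (M:ℝ) ^ (2 / 10000 : ℝ)) * ((e * d : ℕ) : ℝ) ^ 2 / ((e * d : ℕ) : ℝ) ^ 3 =
        C * (M:ℝ) ^ (2 / 10000 : ℝ) * (1 / ((e * d : ℕ) : ℝ)) := by
      field_simp
    rw [r6] at r5
    refine r5.trans ?_
    apply mul_le_mul_of_nonneg_left _ (by positivity)
    apply one_div_le_one_div_of_le hd0
    push_cast
    have : (1:ℝ) ≤ e := by exact_mod_cast he1
    nlinarith
  calc ∑ d ∈ Dcl M N u m, gd (e * d)
      ≤ ∑ d ∈ Dcl M N u m, C * (M:ℝ) ^ (2 / 10000 : ℝ) * (1 / d) := Finset.sum_le_sum hterm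
    _ = C * (M:ℝ) ^ (2 / 10000 : ℝ) * ∑ d ∈ Dcl M N u m, (1:ℝ) / d := by rw [Finset.mul_sum]
    _ ≤ C * (M:ℝ) ^ (2 / 10000 : ℝ) * (20001 * (M:ℝ) ^ (1 / 10000 : ℝ)) := by
        apply mul_le_mul_of_nonneg_left _ (by positivity)
        apply harm M (by omega)
        intro d hd
        rw [Finset.mem_Icc]
        refine ⟨Dcl_pos hDcl hM hN hd, ?_⟩
        have h1 : (d:ℝ) ≤ (M:ℝ) ^ ((2:ℕ):ℝ) := (hdle d hd).trans
          (Real.rpow_le_rpow_of_exponent_le hM1 (by norm_num))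
        rw [Real.rpow_natCast] at h1
        exact_mod_cast h1
    _ = 20001 * C * ((M:ℝ) ^ (2 / 10000 : ℝ) * (M:ℝ) ^ (1 / 10000 : ℝ)) := by ring
    _ = 20001 * C * (M:ℝ) ^ (3 / 10000 : ℝ) := by
        rw [← Real.rpow_add hM0]
        norm_num

end LTm

open LTm in
theorem tLT (hsS : St_sS) (hdiv : St_div) (hRRexp : St_RRexp) (hEstI : St_EstI) (hLB : St_LB) (hDcl : St_Dcl) (hsplit3 : St_split3) (hsplitd : St_splitd) : St_LT := by
  intro K r N hK hN hr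
  obtain ⟨C₁, hC₁, h₁⟩ := S_small hEstI hDcl K N hK hN
  obtain ⟨C₂, hC₂, h₂⟩ := S_large hLB hDcl hsplit3 K r N hK hN hr
  obtain ⟨C₃, hC₃, h₃⟩ := gd_sum hsS hdiv hDcl
  refine ⟨2 ^ r * C₃ * (C₁ + C₂), by positivity, ?_⟩
  intro M hM u m hcard hm hsl m₀ hm₀ hm₀u hm₀M
  have hM1 : (1:ℝ) ≤ M := by exact_mod_cast (by omega : 1 ≤ M)
  have hM0 : (0:ℝ) < M := by linarith
  have hX := XX_nonneg M K
  rw [decomp hRRexp hDcl hsplitd (by omega) (by omega) hN hm₀ hm₀u m]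
  set B : ℝ := (C₁ + C₂) * XX M K * (M:ℝ) ^ (-(75 / 10000) : ℝ) with hB
  have hB0 : 0 ≤ B := by positivity
  have hle : ∀ a ∈ m₀.divisors, ∀ b : ℕ, b ∣ m₀ → Squarefree b ∧ (∀ p ∈ b.primeFactors, p < u) ∧
      (b:ℝ) ≤ (M:ℝ) ^ (1 / 4000 : ℝ) := by
    intro a _ b hb
    refine ⟨hm₀.squarefree_of_dvd hb, fun p hp => hm₀u p
      (Nat.primeFactors_mono hb hm₀.ne_zero hp), le_trans ?_ hm₀M⟩
    exact_mod_cast Nat.le_of_dvd (Nat.pos_of_ne_zero hm₀.ne_zero) hb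
  have hS : ∀ a ∈ m₀.divisors, ∀ n ∈ (Multiset.powerset m).toFinset, ∀ d'' : ℕ,
      |∑ d' ∈ Dcl M N u n,
          (if Nat.Coprime d' d'' ∧ a * d' ≠ 1 then Est M K (a * d') else 0)| ≤ B := by
    intro a ha n hn d''
    rw [Multiset.mem_toFinset, Multiset.mem_powerset] at hn
    obtain ⟨q1, q2, q3⟩ := hle a ha a (Nat.dvd_of_mem_divisors ha)
    rcases lt_or_ge (tv N n) (149 / 100) with h | h
    · refine (h₁ M hM u n h a q1 q2 q3 d'').trans ?_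
      rw [hB]
      apply mul_le_mul_of_nonneg_right _ (by positivity)
      apply mul_le_mul_of_nonneg_right _ hX
      linarith
    · refine (h₂ M hM u n h ((tv_mono N hn).trans hm) ((Multiset.card_le_card hn).trans hcard)
        (hsl n hn h) a q1 q2 q3 d'').trans ?_
      rw [hB]
      apply mul_le_mul_of_nonneg_right _ (by positivity)
      apply mul_le_mul_of_nonneg_right _ hX
      linarith
  have hinner : ∀ a ∈ m₀.divisors, ∀ n ∈ (Multiset.powerset m).toFinset,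
      |∑ d'' ∈ Dcl M N u (m - n), gd ((m₀ / a) * d'') * ∑ d' ∈ Dcl M N u n,
          (if Nat.Coprime d' d'' ∧ a * d' ≠ 1 then Est M K (a * d') else 0)| ≤
      C₃ * (M:ℝ) ^ (3 / 10000 : ℝ) * B := by
    intro a ha n hn
    refine (Finset.abs_sum_le_sum_abs _ _).trans ?_
    have h4 : ∀ d'' ∈ Dcl M N u (m - n), |gd ((m₀ / a) * d'') * ∑ d' ∈ Dcl M N u n,
          (if Nat.Coprime d' d'' ∧ a * d' ≠ 1 then Est M K (a * d') else 0)| ≤
        gd ((m₀ / a) * d'') * B := by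
      intro d'' _
      rw [abs_mul, abs_of_nonneg (gd_nonneg _)]
      exact mul_le_mul_of_nonneg_left (hS a ha n hn d'') (gd_nonneg _)
    refine (Finset.sum_le_sum h4).trans ?_
    rw [← Finset.sum_mul]
    apply mul_le_mul_of_nonneg_right _ hB0
    obtain ⟨q1, q2, q3⟩ := hle a ha (m₀ / a) (Nat.div_dvd_of_dvd (Nat.dvd_of_mem_divisors ha))
    rw [Multiset.mem_toFinset, Multiset.mem_powerset] at hn
    exact h₃ M N u hM hN (m - n) ((tv_mono N (Multiset.sub_le_self m n)).trans hm) (m₀ / a)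
      q1 q2 q3
  have hcardn : (((Multiset.powerset m).toFinset.card : ℕ) : ℝ) ≤ 2 ^ r := by
    have h5 : (Multiset.powerset m).toFinset.card ≤ 2 ^ r := by
      refine (Multiset.toFinset_card_le _).trans ?_
      rw [Multiset.card_powerset]
      exact Nat.pow_le_pow_right (by norm_num) hcard
    exact_mod_cast h5
  have hcarda : ((m₀.divisors.card : ℕ) : ℝ) ≤ (M:ℝ) ^ (1 / 4000 : ℝ) := by
    refine le_trans ?_ hm₀M
    exact_mod_cast Nat.card_divisors_le_self m₀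
  set B' : ℝ := C₃ * (M:ℝ) ^ (3 / 10000 : ℝ) * B with hB'
  have hB'0 : 0 ≤ B' := by positivity
  have htot : |∑ a ∈ m₀.divisors, ∑ n ∈ (Multiset.powerset m).toFinset,
      ∑ d'' ∈ Dcl M N u (m - n), gd ((m₀ / a) * d'') * ∑ d' ∈ Dcl M N u n,
          (if Nat.Coprime d' d'' ∧ a * d' ≠ 1 then Est M K (a * d') else 0)| ≤
      m₀.divisors.card * ((Multiset.powerset m).toFinset.card * B') := by
    refine (Finset.abs_sum_le_sum_abs _ _).trans ?_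
    rw [← nsmul_eq_mul]
    apply Finset.sum_le_card_nsmul
    intro a ha
    refine (Finset.abs_sum_le_sum_abs _ _).trans ?_
    rw [← nsmul_eq_mul]
    apply Finset.sum_le_card_nsmul
    intro n hn
    exact hinner a ha n hn
  refine htot.trans ?_
  calc (m₀.divisors.card : ℝ) * ((Multiset.powerset m).toFinset.card * B')
      ≤ (M:ℝ) ^ (1 / 4000 : ℝ) * (2 ^ r * B') := by
        apply mul_le_mul hcarda _ (by positivity) (by positivity)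
        exact mul_le_mul_of_nonneg_right hcardn hB'0
    _ = 2 ^ r * C₃ * (C₁ + C₂) * XX M K * ((M:ℝ) ^ (1 / 4000 : ℝ) *
          (M:ℝ) ^ (3 / 10000 : ℝ) * (M:ℝ) ^ (-(75 / 10000) : ℝ)) := by
        rw [hB', hB]
        ring
    _ ≤ 2 ^ r * C₃ * (C₁ + C₂) * XX M K * (M:ℝ) ^ (-(1 / 500) : ℝ) := by
        apply mul_le_mul_of_nonneg_left _ (by positivity)
        rw [← Real.rpow_add hM0, ← Real.rpow_add hM0]
        exact Real.rpow_le_rpow_of_exponent_le hM1 (by norm_num)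

end Pool.Agent.TCub
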