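import Pool.Agent.TCub.Stmts

open Finset

namespace Pool.Agent.TCub

namespace Lamf

theorem lin (c : ℕ → ℝ) (u : ℕ) (ι : Type) (s : Finset ι) (a : ι → ℝ) (w : ℕ) :
    ∀ (b : Bool) (L : ℝ) (φ : ι → ℕ → ℝ), Lam c u w b L (fun d => ∑ i ∈ s, a i * φ i d) =
      ∑ i ∈ s, a i * Lam c u w b L (φ i) := by
  induction w with
  | zero => intro b L φ; simp only [Lam]
  | succ w ih =>
    intro b L φ
    simp only [Lam]
    rw [ih b L φ]
    split_ifs with h
    · rw [ih (!b) (L - c w) (fun i d => φ i (w * d)), ← Finset.sum_sub_distrib]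
      exact Finset.sum_congr rfl (fun i _ => by ring)
    · simp

theorem pf_mul {w d : ℕ} (hw : w.Prime) (hd : Squarefree d) (hlt : ∀ p ∈ d.primeFactors, p < w) :
    Squarefree (w * d) ∧ (w * d).primeFactors = insert w d.primeFactors ∧
      w ∉ d.primeFactors := by
  have hd0 : d ≠ 0 := hd.ne_zero
  have hwd : w ∉ d.primeFactors := fun h => lt_irrefl _ (hlt w h)
  have hcop : Nat.Coprime w d := by
    rw [hw.coprime_iff_not_dvd]
    intro h
    exact hwd (Nat.mem_primeFactors.2 ⟨hw, h, hd0⟩)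
  refine ⟨(Nat.squarefree_mul hcop).2 ⟨hw.squarefree, hd⟩, ?_, hwd⟩
  rw [Nat.primeFactors_mul hw.ne_zero hd0, hw.primeFactors]
  rfl

theorem con (c : ℕ → ℝ) (u : ℕ) (w : ℕ) :
    ∀ (b : Bool) (L : ℝ) (φ ψ : ℕ → ℝ),
    (∀ d : ℕ, Squarefree d → (∀ p ∈ d.primeFactors, u ≤ p ∧ p < w) → φ d = ψ d) →
    Lam c u w b L φ = Lam c u w b L ψ := by
  induction w with
  | zero =>
    intro b L φ ψ h
    simp only [Lam]
    exact h 1 squarefree_one (by simp)
  | succ w ih =>
    intro b L φ ψ h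
    simp only [Lam]
    rw [ih b L φ ψ (fun d hd hp => h d hd (fun p hpp => ⟨(hp p hpp).1, by
      have := (hp p hpp).2; omega⟩))]
    split_ifs with hc
    · rw [ih (!b) (L - c w) (fun d => φ (w * d)) (fun d => ψ (w * d)) (fun d hd hp => ?_)]
      obtain ⟨h1, h2, _⟩ := pf_mul hc.1 hd (fun p hpp => (hp p hpp).2)
      refine h (w * d) h1 ?_
      intro p hpp
      rw [h2, Finset.mem_insert] at hpp
      rcases hpp with rfl | hpp
      · exact ⟨hc.2.1, by omega⟩
      · have := hp p hpp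
        exact ⟨this.1, by omega⟩
    · rfl

theorem mulf (g c : ℕ → ℝ) (u : ℕ) (w : ℕ) :
    ∀ (b : Bool) (L : ℝ), Lam c u w b L (fun d => ∏ p ∈ d.primeFactors, g p) =
      GG g c u w b L := by
  induction w with
  | zero => intro b L; simp [Lam, GG]
  | succ w ih =>
    intro b L
    simp only [Lam, GG]
    rw [ih b L]
    split_ifs with hc
    · have h1 : Lam c u w (!b) (L - c w) (fun d => ∏ p ∈ (w * d).primeFactors, g p) =
          Lam c u w (!b) (L - c w)
            (fun d => ∑ i ∈ ({()} : Finset Unit), g w * ∏ p ∈ d.primeFactors, g p) := by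
        refine con c u w (!b) (L - c w) _ _ (fun d hd hp => ?_)
        obtain ⟨_, h2, h3⟩ := pf_mul hc.1 hd (fun p hpp => (hp p hpp).2)
        simp only [Finset.sum_singleton]
        rw [h2, Finset.prod_insert h3]
      rw [h1, lin c u Unit {()} (fun _ => g w) w (!b) (L - c w)
        (fun _ d => ∏ p ∈ d.primeFactors, g p), Finset.sum_singleton, ih]
    · rfl

end Lamf

theorem tLamf : St_Lam :=
  ⟨fun c u w b L ι s a φ => Lamf.lin c u ι s a w b L φ,
    fun c u w b L φ ψ h => Lamf.con c u w b L φ ψ h,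
    fun g c u w b L => Lamf.mulf g c u w b L⟩

end Pool.Agent.TCub
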