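import Pool.Agent.TCub.Stmts

open Finset

namespace Pool.Agent.TCub

namespace LamsAux

/-- the index set -/
noncomputable def S (u : ℕ) (L : ℝ) (w : ℕ) : Finset ℕ :=
  (Finset.range ⌈Real.exp L⌉₊).filter
    (fun d => Squarefree d ∧ ∀ p ∈ d.primeFactors, u ≤ p ∧ p < w)

theorem mem_S {u : ℕ} {L : ℝ} {w d : ℕ} :
    d ∈ S u L w ↔ (d : ℝ) < Real.exp L ∧ Squarefree d ∧ ∀ p ∈ d.primeFactors, u ≤ p ∧ p < w := by
  unfold S
  rw [Finset.mem_filter, Finset.mem_range, Nat.lt_ceil]

theorem S_mono (u : ℕ) (L : ℝ) (w : ℕ) : S u L w ⊆ S u L (w + 1) := by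
  intro d hd
  rw [mem_S] at hd ⊢
  exact ⟨hd.1, hd.2.1, fun p hp => ⟨(hd.2.2 p hp).1, (hd.2.2 p hp).2.trans (Nat.lt_succ_self w)⟩⟩

theorem aux (c : ℕ → ℝ) (u : ℕ) (h1 : ∀ p, p.Prime → u ≤ p → Real.log p ≤ c p)
    (h2 : ∀ p q, p.Prime → q.Prime → u ≤ p → p ≤ q → c p ≤ c q) :
    ∀ (w : ℕ) (b : Bool) (L : ℝ) (φ : ℕ → ℝ), 0 < L →
    (b = false → ∀ p, p.Prime → u ≤ p → p < w → c p < L) →
    |Lam c u w b L φ| ≤ ∑ d ∈ S u L w, |φ d| := by
  intro w
  induction w with
  | zero =>
    intro b L φ hL _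
    have h : (1 : ℕ) ∈ S u L 0 := by
      rw [mem_S]
      refine ⟨?_, squarefree_one, by simp⟩
      simpa using hL
    simpa [Lam] using Finset.single_le_sum (f := fun d => |φ d|) (fun _ _ => abs_nonneg _) h
  | succ w ih =>
    intro b L φ hL hb
    have hfirst : |Lam c u w b L φ| ≤ ∑ d ∈ S u L w, |φ d| :=
      ih b L φ hL (fun h p hp hu hw => hb h p hp hu (hw.trans (Nat.lt_succ_self w)))
    by_cases hc : w.Prime ∧ u ≤ w ∧ (b = true → 3 * c w < L)
    · obtain ⟨hw, huw, hbw⟩ := hc
      have hlogw : 0 < Real.log w := Real.log_pos (by exact_mod_cast hw.one_lt)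
      have hcw : Real.log w ≤ c w := h1 w hw huw
      have hcw0 : 0 < c w := lt_of_lt_of_le hlogw hcw
      have hL' : 0 < L - c w := by
        cases b with
        | true => have := hbw rfl; linarith
        | false => have := hb rfl w hw huw (Nat.lt_succ_self w); linarith
      have hsecond : |Lam c u w (!b) (L - c w) (fun d => φ (w * d))| ≤
          ∑ d ∈ S u (L - c w) w, |φ (w * d)| := by
        apply ih (!b) (L - c w) (fun d => φ (w * d)) hL'
        intro hb' p hp hup hpw
        have hbt : b = true := by cases b <;> simp_all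
        have h3 := hbw hbt
        have h4 := h2 p w hp hw hup hpw.le
        linarith
      have himg : ∑ d ∈ S u (L - c w) w, |φ (w * d)| =
          ∑ e ∈ (S u (L - c w) w).image (fun d => w * d), |φ e| := by
        rw [Finset.sum_image]
        intro x _ y _ hxy
        exact Nat.eq_of_mul_eq_mul_left hw.pos hxy
      have hndvd : ∀ d, (Squarefree d ∧ ∀ p ∈ d.primeFactors, u ≤ p ∧ p < w) → ¬ w ∣ d := by
        intro d hd hdv
        have h5 := (hd.2 w (Nat.mem_primeFactors.2 ⟨hw, hdv, hd.1.ne_zero⟩)).2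
        exact lt_irrefl _ h5
      have hdisj : Disjoint (S u L w) ((S u (L - c w) w).image (fun d => w * d)) := by
        rw [Finset.disjoint_left]
        intro e he he'
        obtain ⟨d, _, rfl⟩ := Finset.mem_image.1 he'
        exact hndvd _ (mem_S.1 he).2 (dvd_mul_right w d)
      have hsub : S u L w ∪ (S u (L - c w) w).image (fun d => w * d) ⊆ S u L (w + 1) := by
        apply Finset.union_subset (S_mono u L w)
        intro e he
        obtain ⟨d, hd, rfl⟩ := Finset.mem_image.1 he
        rw [mem_S] at hd ⊢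
        have hdn := hndvd d hd.2
        refine ⟨?_, ?_, ?_⟩
        · push_cast
          have hw0 : (0 : ℝ) < w := by exact_mod_cast hw.pos
          have h6 : (w : ℝ) ≤ Real.exp (c w) := (Real.log_le_iff_le_exp hw0).1 hcw
          calc (w : ℝ) * d < w * Real.exp (L - c w) :=
                mul_lt_mul_of_pos_left hd.1 hw0
            _ ≤ Real.exp (c w) * Real.exp (L - c w) :=
                mul_le_mul_of_nonneg_right h6 (Real.exp_pos _).le
            _ = Real.exp L := by rw [← Real.exp_add]; congr 1; ring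
        · rw [Nat.squarefree_mul ((Nat.Prime.coprime_iff_not_dvd hw).2 hdn)]
          exact ⟨hw.squarefree, hd.2.1⟩
        · intro p hp
          rw [Nat.primeFactors_mul hw.ne_zero hd.2.1.ne_zero, hw.primeFactors,
            Finset.mem_union, Finset.mem_singleton] at hp
          rcases hp with rfl | hp
          · exact ⟨huw, Nat.lt_succ_self _⟩
          · exact ⟨(hd.2.2 p hp).1, (hd.2.2 p hp).2.trans (Nat.lt_succ_self w)⟩
      have hLam : Lam c u (w + 1) b L φ =
          Lam c u w b L φ - Lam c u w (!b) (L - c w) (fun d => φ (w * d)) := by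
        rw [Lam, if_pos ⟨hw, huw, hbw⟩]
      rw [hLam]
      calc |Lam c u w b L φ - Lam c u w (!b) (L - c w) (fun d => φ (w * d))|
          ≤ |Lam c u w b L φ| + |Lam c u w (!b) (L - c w) (fun d => φ (w * d))| :=
            abs_sub _ _
        _ ≤ ∑ d ∈ S u L w, |φ d| + ∑ d ∈ S u (L - c w) w, |φ (w * d)| :=
            add_le_add hfirst hsecond
        _ = ∑ d ∈ S u L w ∪ (S u (L - c w) w).image (fun d => w * d), |φ d| := by
            rw [himg, Finset.sum_union hdisj]
        _ ≤ ∑ d ∈ S u L (w + 1), |φ d| :=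
            Finset.sum_le_sum_of_subset_of_nonneg hsub (fun _ _ _ => abs_nonneg _)
    · have hLam : Lam c u (w + 1) b L φ = Lam c u w b L φ := by
        rw [Lam, if_neg hc, sub_zero]
      rw [hLam]
      exact hfirst.trans
        (Finset.sum_le_sum_of_subset_of_nonneg (S_mono u L w) (fun _ _ _ => abs_nonneg _))

end LamsAux

theorem tLams : St_Lams := by
  intro c u w b L hL h1 h2 hb φ
  exact LamsAux.aux c u h1 h2 w b L φ hL hb

end Pool.Agent.TCub
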