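import Pool.Agent.TCub.Stmts

open Finset

namespace Pool.Agent.TCub

namespace Low

theorem WW_nonneg (M K : ℕ) (x : Fin 3 → ℤ) : 0 ≤ WW M K x := by
  unfold WW
  exact Finset.prod_nonneg fun i _ => Nat.cast_nonneg _

theorem XX_nonneg (M K : ℕ) : 0 ≤ XX M K := by
  unfold XX
  positivity

theorem F3_natAbs_ne {M K : ℕ} {x : Fin 3 → ℤ} (hx : x ∈ bx M K) : (F3 x).natAbs ≠ 0 := by
  unfold bx at hx
  rw [Fintype.mem_piFinset] at hx
  have h0 : 0 < x 0 := by have := (Finset.mem_Icc.1 (hx 0)).1; omega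
  have h1 : 0 < x 1 := by have := (Finset.mem_Icc.1 (hx 1)).1; omega
  have h2 : 0 < x 2 := by have := (Finset.mem_Icc.1 (hx 2)).1; omega
  have h3 : 0 < F3 x := by
    unfold F3
    positivity
  omega

theorem dvd_iff (d : ℕ) (x : Fin 3 → ℤ) : (d:ℤ) ∣ F3 x ↔ d ∣ (F3 x).natAbs := Int.natCast_dvd

theorem Sft_iff (z : ℕ) (x : Fin 3 → ℤ) :
    Sft z x ↔ ∀ p : ℕ, p.Prime → p ∣ (F3 x).natAbs → z ≤ p := by
  unfold Sft
  simp only [dvd_iff]

/-- the indicator of the divisors of `F3 x` -/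
noncomputable def ind (x : Fin 3 → ℤ) (d : ℕ) : ℝ := if d ∣ (F3 x).natAbs then 1 else 0

theorem AA_eq (M K d : ℕ) : AA M K d = ∑ x ∈ bx M K, WW M K x * ind x d := by
  unfold AA
  apply Finset.sum_congr rfl
  intro x _
  unfold ind
  by_cases h : (d:ℤ) ∣ F3 x
  · rw [if_pos h, if_pos ((dvd_iff d x).1 h), mul_one]
  · rw [if_neg h, if_neg (fun h' => h ((dvd_iff d x).2 h')), mul_zero]

theorem CL_lin (hf : St_CLf) (M N u₀ u z : ℕ) (b₁ b₂ : Bool) (l a : ℝ) (φ ψ : ℕ → ℝ) :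
    CL M N u₀ u z b₁ b₂ l (fun d => a * φ d + ψ d) =
      a * CL M N u₀ u z b₁ b₂ l φ + CL M N u₀ u z b₁ b₂ l ψ := by
  have h := hf.1 M N u₀ u z b₁ b₂ l Bool Finset.univ (fun i => bif i then a else 1)
    (fun i => bif i then φ else ψ)
  simp only [Fintype.sum_bool, cond_true, cond_false, one_mul] at h
  exact h

theorem CL_AA (hf : St_CLf) (M N u₀ u z : ℕ) (b₁ b₂ : Bool) (l : ℝ) (K : ℕ) :
    CL M N u₀ u z b₁ b₂ l (AA M K) =
      ∑ x ∈ bx M K, WW M K x * CL M N u₀ u z b₁ b₂ l (ind x) := by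
  have h := hf.1 M N u₀ u z b₁ b₂ l (Fin 3 → ℤ) (bx M K) (WW M K) (fun x d => ind x d)
  have e : AA M K = fun d => ∑ x ∈ bx M K, WW M K x * ind x d := funext fun d => AA_eq M K d
  rw [e]
  exact h

theorem CL_RR (hf : St_CLf) (M N u₀ u z : ℕ) (b₁ b₂ : Bool) (l : ℝ) (K : ℕ) :
    CL M N u₀ u z b₁ b₂ l (AA M K) =
      XX M K * CL M N u₀ u z b₁ b₂ l gd + CL M N u₀ u z b₁ b₂ l (RR M K) := by
  rw [← CL_lin hf]
  congr 1
  funext d
  unfold RR
  ring

theorem low_pt (hpt : St_CLpt) (hf : St_CLf) {M N K u₀ u z : ℕ} (l₁ l₂ : ℝ) (h1 : u₀ ≤ u)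
    (h2 : u ≤ z) :
    CL M N u₀ u z true false l₁ (AA M K) + CL M N u₀ u z false true l₂ (AA M K) -
      CL M N u₀ u z true true l₂ (AA M K) ≤
      ∑ x ∈ bx M K, (open Classical in if Sft z x then WW M K x else 0) := by
  classical
  rw [CL_AA hf, CL_AA hf, CL_AA hf, ← Finset.sum_add_distrib, ← Finset.sum_sub_distrib]
  apply Finset.sum_le_sum
  intro x hx
  have h := (hpt M N u₀ u z l₁ l₂ (F3 x).natAbs (F3_natAbs_ne hx) h1 h2).2.2
  have hW := WW_nonneg M K x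
  have h3 : CL M N u₀ u z true false l₁ (ind x) + CL M N u₀ u z false true l₂ (ind x) -
      CL M N u₀ u z true true l₂ (ind x) ≤ if Sft z x then 1 else 0 := by
    refine le_trans ?_ (le_trans h ?_)
    · exact le_refl _
    · by_cases hs : Sft z x
      · rw [if_pos hs]
        split_ifs
        · exact le_refl _
        · norm_num
      · rw [if_neg hs, if_neg (fun h' => hs ((Sft_iff z x).2 h'))]
  calc WW M K x * CL M N u₀ u z true false l₁ (ind x) +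
        WW M K x * CL M N u₀ u z false true l₂ (ind x) -
        WW M K x * CL M N u₀ u z true true l₂ (ind x)
      = WW M K x * (CL M N u₀ u z true false l₁ (ind x) + CL M N u₀ u z false true l₂ (ind x) -
      CL M N u₀ u z true true l₂ (ind x)) := by ring
    _ ≤ WW M K x * (if Sft z x then 1 else 0) := mul_le_mul_of_nonneg_left h3 hW
    _ = if Sft z x then WW M K x else 0 := by split_ifs <;> ring

theorem up_pt (hpt : St_CLpt) (hf : St_CLf) {M N K u₀ u z : ℕ} (l : ℝ) (h1 : u₀ ≤ u)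
    (h2 : u ≤ z) {p : ℕ} (hp : p.Prime) (hzp : z ≤ p) :
    ∑ x ∈ bx M K, (open Classical in if Sft z x ∧ (p:ℤ) ∣ F3 x then WW M K x else 0) ≤
      XX M K * gd p * CL M N u₀ u z true true l gd +
        CL M N u₀ u z true true l (fun d => RR M K (p * d)) := by
  classical
  have e1 : XX M K * gd p * CL M N u₀ u z true true l gd +
        CL M N u₀ u z true true l (fun d => RR M K (p * d)) =
      CL M N u₀ u z true true l (fun d => AA M K (p * d)) := by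
    rw [← CL_lin hf]
    apply hf.2.1 M N u₀ u z true true l _ _ h1 h2
    intro d hd hdz
    have h3 := hf.2.2.2 p d hp hd (fun q hq => lt_of_lt_of_le (hdz q hq) hzp)
    unfold RR
    rw [h3]
    ring
  have e2 : CL M N u₀ u z true true l (fun d => AA M K (p * d)) =
      CL M N u₀ u z true true l (fun d => ∑ x ∈ bx M K, (WW M K x * ind x p) * ind x d) := by
    apply hf.2.1 M N u₀ u z true true l _ _ h1 h2
    intro d hd hdz
    rw [AA_eq]
    apply Finset.sum_congr rfl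
    intro x _
    rw [mul_assoc]
    congr 1
    have hcop : Nat.Coprime p d := by
      rw [Nat.Prime.coprime_iff_not_dvd hp]
      intro hpd
      have := hdz p (Nat.mem_primeFactors.2 ⟨hp, hpd, hd.ne_zero⟩)
      omega
    unfold ind
    by_cases ha : p ∣ (F3 x).natAbs
    · by_cases hb : d ∣ (F3 x).natAbs
      · rw [if_pos ha, if_pos hb, if_pos (hcop.mul_dvd_of_dvd_of_dvd ha hb), mul_one]
      · rw [if_neg hb, if_neg (fun h => hb ((Dvd.intro_left p rfl).trans h)), mul_zero]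
    · rw [if_neg ha, if_neg (fun h => ha ((Dvd.intro d rfl).trans h)), zero_mul]
  rw [e1, e2, hf.1 M N u₀ u z true true l (Fin 3 → ℤ) (bx M K) (fun x => WW M K x * ind x p)
    (fun x d => ind x d)]
  apply Finset.sum_le_sum
  intro x hx
  have h := hpt M N u₀ u z l l (F3 x).natAbs (F3_natAbs_ne hx) h1 h2
  have hW := WW_nonneg M K x
  have h0 : 0 ≤ CL M N u₀ u z true true l (ind x) := h.2.1
  have hi : 0 ≤ ind x p := by
    unfold ind
    split_ifs <;> norm_num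
  split_ifs with hs
  · have h4 : 1 ≤ CL M N u₀ u z true true l (ind x) := h.1 ((Sft_iff z x).1 hs.1)
    have h5 : ind x p = 1 := by
      unfold ind
      rw [if_pos ((dvd_iff p x).1 hs.2)]
    change WW M K x ≤ WW M K x * ind x p * CL M N u₀ u z true true l (ind x)
    rw [h5, mul_one]
    nlinarith
  · exact mul_nonneg (mul_nonneg hW hi) h0

theorem main_alg {V0 V1 V2 G1p G1m G2m G2p a e1 e2 B : ℝ} (h0 : 0 ≤ V0) (h1 : 0 ≤ V1)
    (h2 : 0 ≤ V2) (ha : 0 ≤ a) (he2 : 0 ≤ e2)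
    (hp : V1 ≤ G1p) (hp' : G1p ≤ V1 * (1 + e1)) (hm' : V1 * (1 - e1) ≤ G1m) (he1 : 0 ≤ e1)
    (g2m : V2 * (a - e2) ≤ G2m) (g2p : 0 ≤ G2p) (g2p' : G2p ≤ V2 * B) :
    V0 * V1 * V2 * (a - (1 + e1) * e2 - 2 * e1 * B) ≤
      V0 * G1p * G2m + V0 * G1m * G2p - V0 * G1p * G2p := by
  have hG1 : 0 ≤ G1p := h1.trans hp
  have A : V0 * (V1 * V2 * (a - (1 + e1) * e2)) ≤ V0 * (G1p * G2m) := by
    apply mul_le_mul_of_nonneg_left _ h0
    calc V1 * V2 * (a - (1 + e1) * e2) = V2 * (V1 * a - (V1 * (1 + e1)) * e2) := by ring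
      _ ≤ V2 * (G1p * a - G1p * e2) := by
          apply mul_le_mul_of_nonneg_left _ h2
          have := mul_le_mul_of_nonneg_right hp ha
          have := mul_le_mul_of_nonneg_right hp' he2
          linarith
      _ = G1p * (V2 * (a - e2)) := by ring
      _ ≤ G1p * G2m := mul_le_mul_of_nonneg_left g2m hG1
  have B' : V0 * (-(2 * e1 * V1 * (V2 * B))) ≤ V0 * ((G1m - G1p) * G2p) := by
    apply mul_le_mul_of_nonneg_left _ h0
    have h3 : -(2 * e1 * V1) ≤ G1m - G1p := by linarith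
    have h4 : -(2 * e1 * V1) * G2p ≤ (G1m - G1p) * G2p := mul_le_mul_of_nonneg_right h3 g2p
    have h5 : 2 * e1 * V1 * G2p ≤ 2 * e1 * V1 * (V2 * B) :=
      mul_le_mul_of_nonneg_left g2p' (by positivity)
    linarith
  have e : V0 * V1 * V2 * (a - (1 + e1) * e2 - 2 * e1 * B) =
      V0 * (V1 * V2 * (a - (1 + e1) * e2)) + V0 * (-(2 * e1 * V1 * (V2 * B))) := by ring
  rw [e]
  calc _ ≤ V0 * (G1p * G2m) + V0 * ((G1m - G1p) * G2p) := add_le_add A B'
    _ = _ := by ring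

theorem svh_small (hV : St_V) {u₀ : ℕ} {ε : ℝ} (h2 : 2 ≤ u₀) (hε : 0 ≤ ε)
    (hVV : ∀ u : ℕ, u₀ ≤ u → ∀ x y : ℝ, (u:ℝ) ≤ x → x ≤ y →
      VV gd u ⌈x⌉₊ ≤ (1 + ε) * (Real.log y / Real.log x) * VV gd u ⌈y⌉₊) :
    SvH gd (fun p => Real.log p) u₀ ε 0 where
  hu := h2
  hε := hε
  hδ := le_refl _
  hg0 := hV.1
  hg1 := hV.2.1
  hV := hVV u₀ (le_refl _)
  hc1 := fun p _ _ => le_refl _
  hc2 := fun p _ _ => by simp

theorem svh_box (hV : St_V) {M N u₀ u s₁ : ℕ} {ε δ : ℝ} (h2 : 2 ≤ u₀) (hε : 0 ≤ ε)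
    (hδ : 0 ≤ δ) (hu : u₀ ≤ u) (hM : 2 ≤ M) (hN : 1 ≤ N) (hs : 1 ≤ s₁)
    (hu' : (M:ℝ) ^ (1 / (5000 * (s₁:ℝ))) ≤ u) (hNδ : 5 * (s₁:ℝ) ≤ δ * N)
    (hVV : ∀ u : ℕ, u₀ ≤ u → ∀ x y : ℝ, (u:ℝ) ≤ x → x ≤ y →
      VV gd u ⌈x⌉₊ ≤ (1 + ε) * (Real.log y / Real.log x) * VV gd u ⌈y⌉₊) :
    SvH gd (cb M N) u ε δ where
  hu := h2.trans hu
  hε := hε
  hδ := hδ
  hg0 := hV.1
  hg1 := hV.2.1
  hV := hVV u hu
  hc1 := by
    intro p hp hup
    have hN0 : (0:ℝ) < N := by exact_mod_cast hN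
    have hM1 : (1:ℝ) < M := by exact_mod_cast hM
    have hL : 0 < Real.log M := Real.log_pos hM1
    unfold cb ed lab
    have h := Nat.lt_floor_add_one (1000 * (N:ℝ) * Real.log p / Real.log M)
    rw [div_mul_eq_mul_div, le_div_iff₀ (by positivity)]
    rw [div_lt_iff₀ hL] at h
    linarith
  hc2 := by
    intro p hp hup
    have hN0 : (0:ℝ) < N := by exact_mod_cast hN
    have hM1 : (1:ℝ) < M := by exact_mod_cast hM
    have hs0 : (0:ℝ) < s₁ := by exact_mod_cast hs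
    have hL : 0 < Real.log M := Real.log_pos hM1
    have hM0 : (0:ℝ) < M := by linarith
    have hp1 : (1:ℝ) ≤ p := by exact_mod_cast hp.one_lt.le
    have hlp : 0 ≤ Real.log p := Real.log_nonneg hp1
    have h := Nat.floor_le (a := 1000 * (N:ℝ) * Real.log p / Real.log M) (by positivity)
    have h3 : 1 / (5000 * (s₁:ℝ)) * Real.log M ≤ Real.log p := by
      rw [← Real.log_rpow hM0]
      apply Real.log_le_log (by positivity)
      exact hu'.trans (by exact_mod_cast hup)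
    have h4 : Real.log M ≤ 5000 * s₁ * Real.log p := by
      rw [div_mul_eq_mul_div, one_mul, div_le_iff₀ (by positivity)] at h3
      linarith
    have h5 : Real.log M ≤ 1000 * (N:ℝ) * δ * Real.log p := by
      refine h4.trans ?_
      have : 5000 * (s₁:ℝ) ≤ 1000 * (N:ℝ) * δ := by linarith
      exact mul_le_mul_of_nonneg_right this hlp
    unfold cb ed lab
    rw [div_mul_eq_mul_div, div_le_iff₀ (by positivity)]
    rw [le_div_iff₀ hL] at h
    nlinarith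

theorem HU_le {U W : ℝ → ℝ} (h : FPt U W) {s : ℝ} (hs : 0 < s) (hs3 : s ≤ 3) :
    HU s ≤ 8 / 21 * (1 + U s) := by
  have h1 := h.Ueq s hs
  have h2 : 0 ≤ ∫ t in Set.Ioi (max s 3), W (t - 1) := by
    apply MeasureTheory.setIntegral_nonneg measurableSet_Ioi
    intro t ht
    have ht' : (3:ℝ) < t := lt_of_le_of_lt (le_max_right s 3) ht
    exact h.W0 _ (by linarith)
  have h3 : 3 - s ≤ s * U s := by
    rw [h1]
    have := le_max_left (3 - s) 0
    linarith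
  unfold HU
  rw [if_pos hs3, div_le_iff₀ hs]
  linarith

theorem HU_nonneg {s : ℝ} (hs : 0 < s) : 0 ≤ HU s := by
  unfold HU
  split_ifs <;> positivity

theorem lv_bd {N j : ℕ} (hN : 1 ≤ N) (h1 : 425 * N ≤ j) (h2 : j < 1405 * N) :
    1 / 10 ≤ lv N j ∧ lv N j ≤ 1275 / 1000 := by
  have hN0 : (0:ℝ) < N := by exact_mod_cast hN
  have h3 : (425:ℝ) * N ≤ j := by exact_mod_cast h1
  have h4 : (j:ℝ) + 1 ≤ 1405 * N := by exact_mod_cast h2
  have h5 : ed N j ≤ 1405 / 1000 := by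
    unfold ed
    rw [div_le_iff₀ (by positivity)]
    linarith
  have h6 : 425 / 1000 ≤ ed N j := by
    unfold ed
    rw [le_div_iff₀ (by positivity)]
    linarith
  unfold lv
  constructor
  · have : (1405 / 1000 : ℝ) + 1 / 10 ≤ min (17 / 10) (199 / 100 - ed N j / 3) + (1405 / 1000 - ed N j) := by
      rcases min_cases (17 / 10 : ℝ) (199 / 100 - ed N j / 3) with ⟨h, _⟩ | ⟨h, _⟩ <;> rw [h] <;>
        linarith
    linarith
  · have := min_le_left (17 / 10 : ℝ) (199 / 100 - ed N j / 3)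
    linarith

theorem z_le {M N j p : ℕ} (hDcl : St_Dcl) (hM : 2 ≤ M) (hN : 1 ≤ N) (h1 : 425 * N ≤ j)
    (hp : p ∈ bxp M N j) : p.Prime ∧ zz M ≤ p := by
  rw [hDcl.2.2.1 M N j p hM hN] at hp
  obtain ⟨hp, hl⟩ := hp
  refine ⟨hp, ?_⟩
  have h2 := hDcl.2.2.2 M N j p hM hN hp
  have h3 : ¬ (p:ℝ) < (M:ℝ) ^ ((j:ℝ) / (1000 * N)) := by
    rw [← h2, hl]
    exact lt_irrefl _
  push Not at h3
  unfold zz
  rw [Nat.ceil_le]
  refine le_trans ?_ h3
  have hN0 : (0:ℝ) < N := by exact_mod_cast hN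
  have hM1 : (1:ℝ) ≤ M := by exact_mod_cast (by omega : 1 ≤ M)
  apply Real.rpow_le_rpow_of_exponent_le hM1
  rw [le_div_iff₀ (by positivity)]
  have : (425:ℝ) * N ≤ j := by exact_mod_cast h1
  linarith

/-- the main estimate for fixed `M` -/
theorem fixedM (hDcl : St_Dcl) (hV : St_V) (hGexp : St_Gexp) (hCLpt : St_CLpt) (hCLf : St_CLf)
    {U W : ℝ → ℝ} (hFP : FPt U W) (hW2 : W 2 = 1) {κ CF CA ε : ℝ} (hκ0 : 0 < κ) (hκ1 : κ ≤ 1)
    (hCA0 : 0 ≤ CA)
    {s₁ u₀ N K M : ℕ} (hs3 : 3 ≤ s₁)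
    (hs : CF * Real.exp (-(s₁:ℝ)) ≤ κ / (16 * (2 + U (1 / (425 / 1000)))))
    (hCF : 0 ≤ CF)
    (hε0 : 0 ≤ ε) (hε : CA * (ε + ε) ≤ κ / 8) (hN : 1 ≤ N) (hNs : 5 * (s₁:ℝ) ≤ ε * N)
    (hu₀ : 2 ≤ u₀)
    (hVV : ∀ u : ℕ, u₀ ≤ u → ∀ x y : ℝ, (u:ℝ) ≤ x → x ≤ y →
      VV gd u ⌈x⌉₊ ≤ (1 + ε) * (Real.log y / Real.log x) * VV gd u ⌈y⌉₊)
    (hF : ∀ w L : ℝ, 1 < w → 3 * Real.log w ≤ L →
      GG gd (fun p => Real.log p) u₀ ⌈w⌉₊ true L ≤
        VV gd u₀ ⌈w⌉₊ * (1 + CF * Real.exp (-(L / Real.log w))) ∧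
      VV gd u₀ ⌈w⌉₊ * (1 - CF * Real.exp (-(L / Real.log w))) ≤
        GG gd (fun p => Real.log p) u₀ ⌈w⌉₊ false L)
    (hA : SvH gd (cb M N) (uu M s₁) ε ε → ∀ w L : ℝ, 1 < w → 0 < L →
      GG gd (cb M N) (uu M s₁) ⌈w⌉₊ true L ≤ VV gd (uu M s₁) ⌈w⌉₊ *
        (1 + U (L / Real.log w) + CA * (ε + ε) * HU (L / Real.log w)) ∧
      (2 * Real.log w ≤ L → VV gd (uu M s₁) ⌈w⌉₊ *
        (1 - W (L / Real.log w) - CA * (ε + ε) * HW (L / Real.log w)) ≤
          GG gd (cb M N) (uu M s₁) ⌈w⌉₊ false L))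
    (hM2 : 2 ≤ M) (hMu : (u₀:ℝ) ≤ (M:ℝ) ^ (1 / (5000 * (s₁:ℝ))))
    {δ : ℝ}
    (hrem1 : ∀ b₁ : Bool,
      |CL M N u₀ (uu M s₁) (zz M) b₁ false (17 / 10) (RR M K)| ≤ δ * XX M K ∧
      |CL M N u₀ (uu M s₁) (zz M) b₁ true 1 (RR M K)| ≤ δ * XX M K)
    (hrem2 : ∀ j, 425 * N ≤ j → j < 1405 * N →
      |∑ p ∈ bxp M N j, CL M N u₀ (uu M s₁) (zz M) true true (lv N j) (fun d => RR M K (p * d))| ≤
        δ * XX M K)
    (hδ : 3 * δ * (1405 * N) ≤ κ / 2 * VV gd 0 (zz M)) (hδ0 : 0 ≤ δ)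
    (hbx : ∀ j, 425 * N ≤ j → j < 1405 * N →
      ∑ p ∈ bxp M N j, gd p ≤ (1 + κ / 8) * Real.log (((j:ℝ) + 1) / j)) :
    XX M K * VV gd 0 (zz M) * (1 - W 4 - κ) ≤
      ∑ x ∈ bx M K, (open Classical in if Sft (zz M) x then WW M K x else 0) ∧
    ∀ j, 425 * N ≤ j → j < 1405 * N →
      ∑ p ∈ bxp M N j, ∑ x ∈ bx M K,
        (open Classical in if Sft (zz M) x ∧ (p:ℤ) ∣ F3 x then WW M K x else 0) ≤
      (1 + κ) * (XX M K * VV gd 0 (zz M) * Real.log (((j:ℝ) + 1) / j) *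
        (1 + U (lv N j / (425 / 1000)))) := by
  classical
  have hM1 : (1:ℝ) < M := by exact_mod_cast (by omega : 1 < M)
  have hM0 : (0:ℝ) < M := by linarith
  have hL : 0 < Real.log M := Real.log_pos hM1
  have hN0 : (1:ℝ) ≤ N := by exact_mod_cast hN
  have hs0 : (3:ℝ) ≤ s₁ := by exact_mod_cast hs3
  have hX := XX_nonneg M K
  have hU1 : 0 ≤ U (1 / (425 / 1000)) := hFP.U0 _ (by norm_num)
  -- sizes
  have huz : uu M s₁ ≤ zz M := by
    unfold uu zz
    apply Nat.ceil_le_ceil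
    apply Real.rpow_le_rpow_of_exponent_le hM1.le
    rw [div_le_iff₀ (by positivity)]
    linarith
  have hu0u : u₀ ≤ uu M s₁ := by
    have : (u₀:ℝ) ≤ (uu M s₁ : ℝ) := hMu.trans (Nat.le_ceil _)
    exact_mod_cast this
  have hgd : ∀ p, p.Prime → 0 ≤ gd p ∧ gd p ≤ 1 := fun p hp => ⟨hV.1 p hp, (hV.2.1 p hp).le⟩
  -- the values
  have hprod := hV.2.2.2.2 u₀ (uu M s₁) (zz M) hu0u huz
  have hV0 : 0 ≤ VV gd 0 u₀ := (hGexp.2.2 gd (fun p => Real.log p) 0 u₀ hgd 1).2.2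
  have hG1 := hGexp.2.2 gd (fun p => Real.log p) u₀ (uu M s₁) hgd (1 / 5000 * Real.log M)
  have hV1 : 0 ≤ VV gd u₀ (uu M s₁) := hG1.2.2
  have hV2 : 0 ≤ VV gd (uu M s₁) (zz M) :=
    (hGexp.2.2 gd (fun p => Real.log p) (uu M s₁) (zz M) hgd 1).2.2
  have hVz : 0 ≤ VV gd 0 (zz M) := (hGexp.2.2 gd (fun p => Real.log p) 0 (zz M) hgd 1).2.2
  -- fundamental lemma
  have hw1 : 1 < (M:ℝ) ^ (1 / (5000 * (s₁:ℝ))) := by
    apply Real.one_lt_rpow hM1
    positivity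
  have hlw1 : Real.log ((M:ℝ) ^ (1 / (5000 * (s₁:ℝ)))) = 1 / (5000 * (s₁:ℝ)) * Real.log M :=
    Real.log_rpow hM0 _
  have hFs := hF ((M:ℝ) ^ (1 / (5000 * (s₁:ℝ)))) (1 / 5000 * Real.log M) hw1 (by
    rw [hlw1, ← mul_assoc]
    apply mul_le_mul_of_nonneg_right _ hL.le
    rw [mul_one_div, div_le_div_iff₀ (by positivity) (by norm_num)]
    linarith)
  have hLw1 : 1 / 5000 * Real.log M / Real.log ((M:ℝ) ^ (1 / (5000 * (s₁:ℝ)))) = s₁ := by
    rw [hlw1]
    field_simp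
  rw [hLw1] at hFs
  change GG gd (fun p => Real.log p) u₀ (uu M s₁) true (1 / 5000 * Real.log M) ≤
        VV gd u₀ (uu M s₁) * (1 + CF * Real.exp (-(s₁:ℝ))) ∧
      VV gd u₀ (uu M s₁) * (1 - CF * Real.exp (-(s₁:ℝ))) ≤
        GG gd (fun p => Real.log p) u₀ (uu M s₁) false (1 / 5000 * Real.log M) at hFs
  -- boxed sieve
  have hsvh : SvH gd (cb M N) (uu M s₁) ε ε :=
    svh_box hV hu₀ hε0 hε0 hu0u hM2 hN (by omega) (Nat.le_ceil _) hNs hVV
  have hw2 : 1 < (M:ℝ) ^ (425 / 1000 : ℝ) := Real.one_lt_rpow hM1 (by norm_num)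
  have hlw2 : Real.log ((M:ℝ) ^ (425 / 1000 : ℝ)) = 425 / 1000 * Real.log M :=
    Real.log_rpow hM0 _
  have hLw2 : ∀ l : ℝ, l * Real.log M / Real.log ((M:ℝ) ^ (425 / 1000 : ℝ)) = l / (425 / 1000) := by
    intro l
    rw [hlw2]
    field_simp
  have hA' : ∀ l : ℝ, 0 < l →
      GG gd (cb M N) (uu M s₁) (zz M) true (l * Real.log M) ≤ VV gd (uu M s₁) (zz M) *
        (1 + U (l / (425 / 1000)) + CA * (ε + ε) * HU (l / (425 / 1000))) ∧
      (2 * (425 / 1000) ≤ l → VV gd (uu M s₁) (zz M) *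
        (1 - W (l / (425 / 1000)) - CA * (ε + ε) * HW (l / (425 / 1000))) ≤
          GG gd (cb M N) (uu M s₁) (zz M) false (l * Real.log M)) := by
    intro l hl
    have h := hA hsvh _ (l * Real.log M) hw2 (by positivity)
    rw [hLw2] at h
    refine ⟨h.1, fun h2 => h.2 ?_⟩
    rw [hlw2, ← mul_assoc]
    exact mul_le_mul_of_nonneg_right h2 hL.le
  set V0 := VV gd 0 u₀ with hV0d
  set V1 := VV gd u₀ (uu M s₁) with hV1d
  set V2 := VV gd (uu M s₁) (zz M) with hV2d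
  set e1 := CF * Real.exp (-(s₁:ℝ)) with he1d
  have he1 : 0 ≤ e1 := by positivity
  have he1' : e1 * (16 * (2 + U (1 / (425 / 1000)))) ≤ κ := by
    rwa [le_div_iff₀ (by positivity)] at hs
  have he1'' : e1 ≤ κ / 8 := by
    have h := mul_nonneg he1 hU1
    have h' : e1 * (16 * (2 + U (1 / (425 / 1000)))) =
      32 * e1 + 16 * (e1 * U (1 / (425 / 1000))) := by ring
    linarith
  have hCLgd := fun (b₁ b₂ : Bool) (l : ℝ) =>
    hCLf.2.2.1 M N u₀ (uu M s₁) (zz M) b₁ b₂ l hu0u huz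
  constructor
  · -- lower bound
    have hlow := low_pt hCLpt hCLf (M := M) (N := N) (K := K) (17 / 10) 1 hu0u huz
    rw [CL_RR hCLf, CL_RR hCLf, CL_RR hCLf, hCLgd, hCLgd, hCLgd] at hlow
    have hB := hA' 1 one_pos
    have hC := (hA' (17 / 10) (by norm_num)).2 (by norm_num)
    have e4 : (17 / 10 : ℝ) / (425 / 1000) = 4 := by norm_num
    rw [e4] at hC
    have hHW : HW 4 ≤ 1 := by
      unfold HW
      apply Real.exp_le_one_iff.2
      norm_num
    have hHW0 : 0 ≤ HW 4 := (Real.exp_pos _).le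
    have hHU : HU (1 / (425 / 1000)) ≤ 1 := by
      unfold HU
      rw [if_pos (by norm_num)]
      norm_num
    have hHU0 : 0 ≤ HU (1 / (425 / 1000)) := HU_nonneg (by norm_num)
    have hCAε : 0 ≤ CA * (ε + ε) := by positivity
    have hW4 : W 4 ≤ 1 := by
      rw [← hW2]
      exact hFP.Wanti (Set.mem_Ici.2 (le_refl _)) (Set.mem_Ici.2 (by norm_num)) (by norm_num)
    have g2m : V2 * ((1 - W 4) - κ / 8) ≤
        GG gd (cb M N) (uu M s₁) (zz M) false (17 / 10 * Real.log M) := by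
      refine le_trans (mul_le_mul_of_nonneg_left ?_ hV2) hC
      have : CA * (ε + ε) * HW 4 ≤ κ / 8 := by
        calc CA * (ε + ε) * HW 4 ≤ CA * (ε + ε) * 1 := mul_le_mul_of_nonneg_left hHW hCAε
          _ ≤ κ / 8 := by linarith
      linarith
    have g2p' : GG gd (cb M N) (uu M s₁) (zz M) true (1 * Real.log M) ≤
        V2 * (2 + U (1 / (425 / 1000))) := by
      refine le_trans hB.1 (mul_le_mul_of_nonneg_left ?_ hV2)
      have : CA * (ε + ε) * HU (1 / (425 / 1000)) ≤ 1 := by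
        calc CA * (ε + ε) * HU (1 / (425 / 1000)) ≤ CA * (ε + ε) * 1 :=
              mul_le_mul_of_nonneg_left hHU hCAε
          _ ≤ 1 := by linarith
      linarith
    have g2p : 0 ≤ GG gd (cb M N) (uu M s₁) (zz M) true (1 * Real.log M) :=
      hV2.trans (hGexp.2.2 gd (cb M N) (uu M s₁) (zz M) hgd _).2.1
    have hmain := main_alg hV0 hV1 hV2 (by linarith : 0 ≤ 1 - W 4) (by positivity : 0 ≤ κ / 8)
      hG1.2.1 hFs.1 hFs.2 he1 g2m g2p g2p'
    rw [hprod] at hmain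
    have hcoef : 1 - W 4 - κ / 2 ≤ 1 - W 4 - (1 + e1) * (κ / 8) -
        2 * e1 * (2 + U (1 / (425 / 1000))) := by
      have h1 : (1 + e1) * (κ / 8) ≤ 2 * (κ / 8) :=
        mul_le_mul_of_nonneg_right (by linarith) (by linarith)
      have h2 : 2 * e1 * (2 + U (1 / (425 / 1000))) =
        (e1 * (16 * (2 + U (1 / (425 / 1000))))) / 8 := by ring
      rw [h2]
      linarith
    have hmain2 := (mul_le_mul_of_nonneg_left hcoef hVz).trans hmain
    have hmain3 := mul_le_mul_of_nonneg_left hmain2 hX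
    have r1 := (abs_le.1 (hrem1 true).1).1
    have r2 := (abs_le.1 (hrem1 false).2).1
    have r3 := (abs_le.1 (hrem1 true).2).2
    have hδ' : 3 * δ ≤ κ / 2 * VV gd 0 (zz M) := by
      refine le_trans ?_ hδ
      have h1 : (1:ℝ) ≤ 1405 * N := by linarith
      calc 3 * δ = 3 * δ * 1 := by ring
        _ ≤ 3 * δ * (1405 * N) := mul_le_mul_of_nonneg_left h1 (by positivity)
    have hδ'' := mul_le_mul_of_nonneg_left hδ' hX
    simp only [← hV0d] at hlow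
    refine le_trans ?_ hlow
    clear_value V0 V1 V2 e1
    generalize GG gd (fun p => Real.log p) u₀ (uu M s₁) true (1 / 5000 * Real.log M) = G1p at *
    generalize GG gd (fun p => Real.log p) u₀ (uu M s₁) false (1 / 5000 * Real.log M) = G1m at *
    generalize GG gd (cb M N) (uu M s₁) (zz M) true (1 * Real.log M) = G2p at *
    generalize GG gd (cb M N) (uu M s₁) (zz M) false (17 / 10 * Real.log M) = G2m at *
    generalize CL M N u₀ (uu M s₁) (zz M) true false (17 / 10) (RR M K) = R1 at *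
    generalize CL M N u₀ (uu M s₁) (zz M) false true 1 (RR M K) = R2 at *
    generalize CL M N u₀ (uu M s₁) (zz M) true true 1 (RR M K) = R3 at *
    have t1 : XX M K * VV gd 0 (zz M) * (1 - W 4 - κ) =
      XX M K * (VV gd 0 (zz M) * (1 - W 4 - κ / 2)) - XX M K * (κ / 2 * VV gd 0 (zz M)) := by
      ring
    have t2 : XX M K * (V0 * G1p * G2m) + R1 + (XX M K * (V0 * G1m * G2p) + R2) -
      (XX M K * (V0 * G1p * G2p) + R3) =
      XX M K * (V0 * G1p * G2m + V0 * G1m * G2p - V0 * G1p * G2p) + R1 + R2 - R3 := by ring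
    have t3 : XX M K * (3 * δ) = 3 * (δ * XX M K) := by ring
    rw [t3] at hδ''
    rw [t1, t2]
    linarith only [hmain3, r1, r2, r3, hδ'']
  · intro j hj1 hj2
    have hlv := lv_bd hN hj1 hj2
    have hlv0 : 0 < lv N j := by linarith
    have hs00 : 0 < lv N j / (425 / 1000) := by positivity
    have hs03 : lv N j / (425 / 1000) ≤ 3 := by
      rw [div_le_iff₀ (by norm_num)]
      linarith
    set Us := U (lv N j / (425 / 1000)) with hUs
    have hUs0 : 0 ≤ Us := hFP.U0 _ hs00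
    have hstep : ∑ p ∈ bxp M N j, ∑ x ∈ bx M K,
        (if Sft (zz M) x ∧ (p:ℤ) ∣ F3 x then WW M K x else 0) ≤
        ∑ p ∈ bxp M N j, (XX M K * gd p * CL M N u₀ (uu M s₁) (zz M) true true (lv N j) gd +
          CL M N u₀ (uu M s₁) (zz M) true true (lv N j) (fun d => RR M K (p * d))) := by
      apply Finset.sum_le_sum
      intro p hp
      obtain ⟨hp1, hp2⟩ := z_le hDcl hM2 hN hj1 hp
      exact up_pt hCLpt hCLf (lv N j) hu0u huz hp1 hp2
    refine hstep.trans ?_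
    rw [Finset.sum_add_distrib, ← Finset.sum_mul, ← Finset.mul_sum, hCLgd]
    have hr := (abs_le.1 (hrem2 j hj1 hj2)).2
    have hb := hbx j hj1 hj2
    have hgs : 0 ≤ ∑ p ∈ bxp M N j, gd p :=
      Finset.sum_nonneg fun p hp => hV.1 p (z_le hDcl hM2 hN hj1 hp).1
    have hj0 : (0:ℝ) < j := by
      have : 0 < j := by omega
      exact_mod_cast this
    have hjN : (j:ℝ) + 1 ≤ 1405 * N := by exact_mod_cast hj2
    have hlog : 1 / (1405 * (N:ℝ)) ≤ Real.log (((j:ℝ) + 1) / j) := by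
      have h1 := Real.one_sub_inv_le_log_of_pos (x := ((j:ℝ) + 1) / j) (by positivity)
      refine le_trans ?_ h1
      have h2 : 1 - (((j:ℝ) + 1) / j)⁻¹ = 1 / ((j:ℝ) + 1) := by
        field_simp
        ring
      rw [h2]
      apply one_div_le_one_div_of_le (by positivity) hjN
    set lg := Real.log (((j:ℝ) + 1) / j) with hlgd
    have hlg0 : 0 < lg := lt_of_lt_of_le (by positivity) hlog
    have hG2 := (hA' (lv N j) hlv0).1
    have hHU := HU_le hFP hs00 hs03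
    have hHU0 : 0 ≤ HU (lv N j / (425 / 1000)) := HU_nonneg hs00
    have hG2' : GG gd (cb M N) (uu M s₁) (zz M) true (lv N j * Real.log M) ≤
        V2 * ((1 + κ / 8) * (1 + Us)) := by
      refine hG2.trans (mul_le_mul_of_nonneg_left ?_ hV2)
      have h5 : CA * (ε + ε) * HU (lv N j / (425 / 1000)) ≤ κ / 8 * (1 + Us) := by
        refine mul_le_mul hε (hHU.trans ?_) hHU0 (by positivity)
        linarith
      linarith
    have hG20 : 0 ≤ GG gd (cb M N) (uu M s₁) (zz M) true (lv N j * Real.log M) :=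
      hV2.trans (hGexp.2.2 gd (cb M N) (uu M s₁) (zz M) hgd _).2.1
    have hG10 : 0 ≤ GG gd (fun p => Real.log p) u₀ (uu M s₁) true (1 / 5000 * Real.log M) :=
      hV1.trans hG1.2.1
    have hG1' : GG gd (fun p => Real.log p) u₀ (uu M s₁) true (1 / 5000 * Real.log M) ≤
        V1 * (1 + κ / 8) := by
      refine hFs.1.trans (mul_le_mul_of_nonneg_left ?_ hV1)
      linarith
    have hCL : V0 * GG gd (fun p => Real.log p) u₀ (uu M s₁) true (1 / 5000 * Real.log M) *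
        GG gd (cb M N) (uu M s₁) (zz M) true (lv N j * Real.log M) ≤
        VV gd 0 (zz M) * ((1 + κ / 8) ^ 2 * (1 + Us)) := by
      calc _ ≤ V0 * (V1 * (1 + κ / 8)) * (V2 * ((1 + κ / 8) * (1 + Us))) := by
            apply mul_le_mul _ hG2' hG20 (by positivity)
            exact mul_le_mul_of_nonneg_left hG1' hV0
        _ = (V0 * V1 * V2) * ((1 + κ / 8) ^ 2 * (1 + Us)) := by ring
        _ = _ := by rw [hprod]
    have hCL0 : 0 ≤ V0 * GG gd (fun p => Real.log p) u₀ (uu M s₁) true (1 / 5000 * Real.log M) *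
        GG gd (cb M N) (uu M s₁) (zz M) true (lv N j * Real.log M) := by positivity
    have hmain : XX M K * (∑ p ∈ bxp M N j, gd p) *
        (V0 * GG gd (fun p => Real.log p) u₀ (uu M s₁) true (1 / 5000 * Real.log M) *
        GG gd (cb M N) (uu M s₁) (zz M) true (lv N j * Real.log M)) ≤
        XX M K * ((1 + κ / 8) * lg) * (VV gd 0 (zz M) * ((1 + κ / 8) ^ 2 * (1 + Us))) := by
      apply mul_le_mul (mul_le_mul_of_nonneg_left hb hX) hCL hCL0 (by positivity)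
    have hcube : (1 + κ / 8) * (1 + κ / 8) ^ 2 ≤ 1 + κ / 2 := by
      have h1 : κ * κ ≤ κ := by
        calc κ * κ ≤ κ * 1 := mul_le_mul_of_nonneg_left hκ1 hκ0.le
          _ = κ := mul_one κ
      have h2 : κ * (κ * κ) ≤ κ := by
        calc κ * (κ * κ) ≤ κ * κ := mul_le_mul_of_nonneg_left h1 hκ0.le
          _ ≤ κ := h1
      have h3 : (1 + κ / 8) * (1 + κ / 8) ^ 2 =
        1 + 3 * κ / 8 + 3 * (κ * κ) / 64 + κ * (κ * κ) / 512 := by ring
      rw [h3]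
      linarith
    have hQ : 0 ≤ XX M K * VV gd 0 (zz M) * lg * (1 + Us) := by positivity
    have hmain2 : XX M K * ((1 + κ / 8) * lg) * (VV gd 0 (zz M) * ((1 + κ / 8) ^ 2 * (1 + Us))) ≤
        (1 + κ / 2) * (XX M K * VV gd 0 (zz M) * lg * (1 + Us)) := by
      calc _ = ((1 + κ / 8) * (1 + κ / 8) ^ 2) * (XX M K * VV gd 0 (zz M) * lg * (1 + Us)) := by
            ring
        _ ≤ _ := mul_le_mul_of_nonneg_right hcube hQ
    have hrem : δ * XX M K ≤ κ / 2 * (XX M K * VV gd 0 (zz M) * lg * (1 + Us)) := by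
      have h6 : δ * (1405 * N) ≤ κ / 2 * VV gd 0 (zz M) := by
        refine le_trans ?_ hδ
        have : 0 ≤ δ * (1405 * N) := by positivity
        linarith
      have h7 : 1 ≤ 1405 * N * lg := by
        rw [div_le_iff₀ (by positivity)] at hlog
        linarith
      have h8 : δ ≤ κ / 2 * VV gd 0 (zz M) * lg := by
        calc δ = δ * 1 := by ring
          _ ≤ δ * (1405 * N * lg) := mul_le_mul_of_nonneg_left h7 hδ0
          _ = δ * (1405 * N) * lg := by ring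
          _ ≤ _ := mul_le_mul_of_nonneg_right h6 hlg0.le
      have h9 : δ ≤ κ / 2 * VV gd 0 (zz M) * lg * (1 + Us) := by
        refine h8.trans ?_
        have h10 : 0 ≤ κ / 2 * VV gd 0 (zz M) * lg := by positivity
        calc κ / 2 * VV gd 0 (zz M) * lg = κ / 2 * VV gd 0 (zz M) * lg * 1 := by ring
          _ ≤ _ := mul_le_mul_of_nonneg_left (by linarith) h10
      calc δ * XX M K ≤ (κ / 2 * VV gd 0 (zz M) * lg * (1 + Us)) * XX M K :=
            mul_le_mul_of_nonneg_right h9 hX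
        _ = _ := by ring
    linarith

end Low

theorem tLow (hDcl : St_Dcl) (hDM : St_DM) (hAST : St_AST) (hFL : St_FL) (hV : St_V) (hgbox : St_gbox) (hGexp : St_Gexp) (hCLpt : St_CLpt) (hCLf : St_CLf) (hCLrem : St_CLrem) : St_low := by
  classical
  have _ := hDM
  intro U W hFP hW2 κ' hκ'
  obtain ⟨εF, CF, hεF0, -, hCF, hFL⟩ := hFL
  obtain ⟨εA, CA, hεA0, -, hCA, hAST⟩ := hAST
  obtain ⟨cV, hcV, hVlow⟩ := hV.2.2.2.1
  -- it is enough to treat `κ = min κ' 1`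
  obtain ⟨κ, hκ0, hκ1, hκκ⟩ : ∃ κ : ℝ, 0 < κ ∧ κ ≤ 1 ∧ κ ≤ κ' :=
    ⟨min κ' 1, lt_min hκ' one_pos, min_le_right _ _, min_le_left _ _⟩
  have hU1 : 0 ≤ U (1 / (425 / 1000)) := hFP.U0 _ (by norm_num)
  have hCF0 : 0 < CF := by linarith
  have hCA0 : 0 < CA := by linarith
  -- choose `s₁`
  obtain ⟨s₁, hs3, hs⟩ : ∃ s₁ : ℕ, 3 ≤ s₁ ∧
      CF * Real.exp (-(s₁:ℝ)) ≤ κ / (16 * (2 + U (1 / (425 / 1000)))) := by
    have h1 : Filter.Tendsto (fun n : ℕ => CF * Real.exp (-(n:ℝ))) Filter.atTop (nhds (CF * 0)) :=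
      (Real.tendsto_exp_neg_atTop_nhds_zero.comp tendsto_natCast_atTop_atTop).const_mul CF
    rw [mul_zero] at h1
    have h2 := h1.eventually (ge_mem_nhds
      (by positivity : (0:ℝ) < κ / (16 * (2 + U (1 / (425 / 1000))))))
    obtain ⟨n, hn⟩ := (h2.and (Filter.eventually_ge_atTop 3)).exists
    exact ⟨n, hn.2, hn.1⟩
  -- choose `ε`
  obtain ⟨ε, hε0, hεF, hεA, hε⟩ : ∃ ε : ℝ, 0 < ε ∧ ε ≤ εF ∧ ε ≤ εA ∧ CA * (ε + ε) ≤ κ / 8 := by
    refine ⟨min (min εF εA) (κ / (16 * CA)), by positivity, ?_, ?_, ?_⟩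
    · exact (min_le_left _ _).trans (min_le_left _ _)
    · exact (min_le_left _ _).trans (min_le_right _ _)
    · have h1 := min_le_right (min εF εA) (κ / (16 * CA))
      calc CA * (min (min εF εA) (κ / (16 * CA)) + min (min εF εA) (κ / (16 * CA)))
          ≤ CA * (κ / (16 * CA) + κ / (16 * CA)) := by gcongr
        _ = κ / 8 := by field_simp; ring
  obtain ⟨u₀, hu₀, hVV⟩ := hV.2.2.1 ε hε0
  have hεF' : (0:ℝ) ≤ εF := hεF0.le
  obtain ⟨N₀, hN₀⟩ := exists_nat_ge (5 * (s₁:ℝ) / ε)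
  refine ⟨max N₀ (100000 * s₁ + 10), fun N hN K hK => ?_⟩
  have hN1 : 100000 * s₁ + 10 ≤ N := (le_max_right _ _).trans hN
  have hN2 : N₀ ≤ N := (le_max_left _ _).trans hN
  have hN10 : 1 ≤ N := by omega
  have hN0 : (1:ℝ) ≤ N := by exact_mod_cast hN10
  have hNs : 5 * (s₁:ℝ) ≤ ε * N := by
    have h1 : 5 * (s₁:ℝ) / ε ≤ N := hN₀.trans (by exact_mod_cast hN2)
    rw [div_le_iff₀ hε0] at h1
    linarith
  obtain ⟨C, M₁, hC0, hrem⟩ := hCLrem u₀ s₁ N K (by omega) hN1 hK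
  have hs0 : (3:ℝ) ≤ s₁ := by exact_mod_cast hs3
  -- the conditions on `M`
  have E1 : ∀ᶠ M : ℕ in Filter.atTop, 2 ≤ M := Filter.eventually_ge_atTop 2
  have E2 : ∀ᶠ M : ℕ in Filter.atTop, (u₀:ℝ) ≤ (M:ℝ) ^ (1 / (5000 * (s₁:ℝ))) :=
    ((tendsto_rpow_atTop (by positivity)).comp tendsto_natCast_atTop_atTop).eventually_ge_atTop _
  have E3 : ∀ᶠ M : ℕ in Filter.atTop, (2:ℝ) ≤ (M:ℝ) ^ (425 / 1000 : ℝ) :=
    ((tendsto_rpow_atTop (by norm_num)).comp tendsto_natCast_atTop_atTop).eventually_ge_atTop _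
  have hη : 0 < κ / 2 * (cV / (425 / 1000)) / (3 * C * (1405 * N)) := by positivity
  have E4 : ∀ᶠ M : ℕ in Filter.atTop, Real.log M ≤
      κ / 2 * (cV / (425 / 1000)) / (3 * C * (1405 * N)) * (M:ℝ) ^ (1 / 1000 : ℝ) := by
    have h1 := (isLittleO_log_rpow_atTop (by norm_num : (0:ℝ) < 1 / 1000)).def hη
    have h2 := tendsto_natCast_atTop_atTop.eventually h1
    filter_upwards [h2] with M hM
    have h3 : |(M:ℝ) ^ (1 / 1000 : ℝ)| = (M:ℝ) ^ (1 / 1000 : ℝ) := abs_of_nonneg (by positivity)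
    rw [Real.norm_eq_abs, Real.norm_eq_abs, h3] at hM
    exact (le_abs_self _).trans hM
  have E5 : ∀ᶠ M : ℕ in Filter.atTop, ∀ j ∈ Finset.Ico (425 * N) (1405 * N),
      ∑ p ∈ bxp M N j, gd p ≤ (1 + κ / 8) * Real.log (((j:ℝ) + 1) / j) := by
    rw [Filter.eventually_all_finset]
    intro j hj
    rw [Finset.mem_Ico] at hj
    obtain ⟨M₀, hM₀⟩ := hgbox N j (κ / 8) hN10 (by omega) (by positivity)
    exact Filter.eventually_atTop.2 ⟨M₀, hM₀⟩
  have E6 : ∀ᶠ M : ℕ in Filter.atTop, M₁ ≤ M := Filter.eventually_ge_atTop M₁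
  apply Filter.eventually_atTop.1
  filter_upwards [E1, E2, E3, E4, E5, E6] with M h1 h2 h3 h4 h5 h6
  have hM1 : (1:ℝ) < M := by exact_mod_cast (by omega : 1 < M)
  have hM0 : (0:ℝ) < M := by linarith
  have hL : 0 < Real.log M := Real.log_pos hM1
  have hVz : cV / (425 / 1000 * Real.log M) ≤ VV gd 0 (zz M) := by
    have h7 := hVlow ((M:ℝ) ^ (425 / 1000 : ℝ)) h3
    rw [Real.log_rpow hM0] at h7
    exact h7
  have hVz0 : 0 < VV gd 0 (zz M) := lt_of_lt_of_le (by positivity) hVz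
  have hr := hrem M h6
  have hδ : 3 * (C * (M:ℝ) ^ (-(1 / 1000) : ℝ)) * (1405 * N) ≤ κ / 2 * VV gd 0 (zz M) := by
    refine le_trans ?_ (mul_le_mul_of_nonneg_left hVz (by positivity))
    rw [Real.rpow_neg hM0.le]
    have hMr : 0 < (M:ℝ) ^ (1 / 1000 : ℝ) := by positivity
    rw [div_mul_eq_mul_div, le_div_iff₀ (by positivity)] at h4
    have e1 : 3 * (C * ((M:ℝ) ^ (1 / 1000 : ℝ))⁻¹) * (1405 * N) =
        3 * C * (1405 * N) / (M:ℝ) ^ (1 / 1000 : ℝ) := by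
      field_simp
    have e2 : κ / 2 * (cV / (425 / 1000 * Real.log M)) =
        κ / 2 * (cV / (425 / 1000)) / Real.log M := by
      field_simp
    rw [e1, e2, div_le_div_iff₀ hMr hL]
    linarith
  have key := Low.fixedM hDcl hV hGexp hCLpt hCLf hFP hW2 hκ0 hκ1 hCA0.le hs3 hs hCF0.le hε0.le hε
    hN10 hNs hu₀ hVV
    (hFL gd (fun p => Real.log p) u₀ ε 0 hεF hεF' (Low.svh_small hV hu₀ hε0.le hVV))
    (fun hsv => hAST U W hFP hW2 gd (cb M N) (uu M s₁) ε ε hεA hεA hsv)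
    h1 h2 (δ := C * (M:ℝ) ^ (-(1 / 1000) : ℝ)) (K := K)
    (fun b₁ => by
      have h8 := hr.1 b₁
      have e : C * (M:ℝ) ^ (-(1 / 1000) : ℝ) * XX M K = C * XX M K * (M:ℝ) ^ (-(1 / 1000) : ℝ) := by
        ring
      rw [e]
      exact h8)
    (fun j hj1 hj2 => by
      have h8 := hr.2 j hj1 hj2
      have e : C * (M:ℝ) ^ (-(1 / 1000) : ℝ) * XX M K = C * XX M K * (M:ℝ) ^ (-(1 / 1000) : ℝ) := by
        ring
      rw [e]
      exact h8)
    hδ (by positivity)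
    (fun j hj1 hj2 => h5 j (Finset.mem_Ico.2 ⟨hj1, hj2⟩))
  have hX := Low.XX_nonneg M K
  refine ⟨le_trans ?_ key.1, fun j hj1 hj2 => (key.2 j hj1 hj2).trans ?_⟩
  · apply mul_le_mul_of_nonneg_left _ (by positivity)
    linarith
  · apply mul_le_mul_of_nonneg_right (by linarith)
    have hlv := Low.lv_bd hN10 hj1 hj2
    have hUs : 0 ≤ U (lv N j / (425 / 1000)) := hFP.U0 _ (by
      have : 0 < lv N j := by linarith
      positivity)
    have hlg : 0 ≤ Real.log (((j:ℝ) + 1) / j) := by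
      have hj0 : (0:ℝ) < j := by
        have : 0 < j := by omega
        exact_mod_cast this
      apply Real.log_nonneg
      rw [le_div_iff₀ hj0]
      linarith
    positivity

end Pool.Agent.TCub
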