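import Pool.Agent.TCub.Stmts

open Finset

namespace Pool.Agent.TCub

namespace Num

/-- telescoping of the logarithms -/
theorem tele (m : ℕ) (hm : 1 ≤ m) : ∀ k : ℕ,
    ∑ j ∈ Finset.Ico m (m + k), Real.log (((j:ℝ) + 1) / j) = Real.log (((m + k : ℕ):ℝ) / m) := by
  intro k
  induction k with
  | zero =>
    have hm0 : (m:ℝ) ≠ 0 := by positivity
    simp [div_self hm0]
  | succ k ih =>
    rw [← Nat.add_assoc, Finset.sum_Ico_succ_top (by omega), ih]
    have hm0 : (0:ℝ) < m := by exact_mod_cast hm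
    have h1 : (0:ℝ) < ((m + k : ℕ):ℝ) := by positivity
    rw [← Real.log_mul (by positivity) (by positivity)]
    congr 1
    push_cast
    field_simp

theorem log_le_half {t : ℝ} (ht : 1 ≤ t) : Real.log t ≤ (t - t⁻¹) / 2 := by
  have h0 : 0 < t := by linarith
  rw [← Real.sinh_log h0]
  exact Real.self_le_sinh_iff.mpr (Real.log_nonneg ht)

/-- numerator and denominator of the block bound -/
def nu (a : ℕ) : ℕ := (1157 * (1405 - a) + (if a = 999 then 1405000 else 0)) *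
  ((a + 2) ^ 2 - a ^ 2) * (if a + 2 ≤ 870 then 425 else 1275)
def de (a : ℕ) : ℕ := 1405000 * (2 * a * (a + 2)) *
  (if a + 2 ≤ 870 then 1700 - (a + 2) else 5970 - 4 * (a + 2))
def bn (a : ℕ) : ℕ := nu a * 10 ^ 9 / de a + 1

theorem bn_sum : ∑ i ∈ Finset.range 490, bn (425 + 2 * i) ≤ 272000000 := by
  decide +kernel

theorem de_pos {a : ℕ} (h1 : 425 ≤ a) (h2 : a + 2 ≤ 1405) : 0 < de a := by
  unfold de
  have h3 : 0 < (if a + 2 ≤ 870 then 1700 - (a + 2) else 5970 - 4 * (a + 2)) := by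
    split_ifs <;> omega
  have h4 : 0 < 2 * a * (a + 2) := by positivity
  positivity

theorem bn_ge {a : ℕ} (h1 : 425 ≤ a) (h2 : a + 2 ≤ 1405) :
    (nu a : ℝ) / de a ≤ (bn a : ℝ) / 10 ^ 9 := by
  have hd := de_pos h1 h2
  have hd' : (0:ℝ) < de a := by exact_mod_cast hd
  rw [div_le_div_iff₀ hd' (by norm_num)]
  have h3 : nu a * 10 ^ 9 < de a * (nu a * 10 ^ 9 / de a + 1) := Nat.lt_mul_div_succ _ hd
  have h4 : nu a * 10 ^ 9 ≤ bn a * de a := by
    unfold bn
    rw [mul_comm (nu a * 10 ^ 9 / de a + 1)]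
    exact h3.le
  exact_mod_cast h4

/-- the block bound equals `nu / de` -/
theorem block_val {a : ℕ} (h1 : 425 ≤ a) (h2 : a + 2 ≤ 1405) :
    ((1157 / 1000) * (1 - (a:ℝ) / 1405) + (if a = 999 then (1:ℝ) else 0)) *
      (((((a:ℝ) + 2) / a) - (((a:ℝ) + 2) / a)⁻¹) / 2) *
      ((425 / 1000) / (min (17 / 10) (199 / 100 - ((a:ℝ) + 2) / 1000 / 3) - ((a:ℝ) + 2) / 1000)) =
      (nu a : ℝ) / de a := by
  have ha0 : (0:ℝ) < a := by
    have : 0 < a := by omega
    exact_mod_cast this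
  have h405 : ((1405 - a : ℕ):ℝ) = 1405 - (a:ℝ) := by
    rw [Nat.cast_sub (by omega)]; norm_num
  have hsq : (((a + 2) ^ 2 - a ^ 2 : ℕ):ℝ) = 4 * (a:ℝ) + 4 := by
    have : (a + 2) ^ 2 - a ^ 2 = 4 * a + 4 := by
      rw [Nat.sub_eq_iff_eq_add (Nat.pow_le_pow_left (by omega) 2)]; ring
    rw [this]; push_cast; ring
  have hP : (1157 / 1000) * (1 - (a:ℝ) / 1405) + (if a = 999 then (1:ℝ) else 0) =
      ((1157 * (1405 - a) + (if a = 999 then 1405000 else 0) : ℕ) : ℝ) / 1405000 := by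
    push_cast [h405]
    split_ifs <;> field_simp <;> ring
  have hmid : (((((a:ℝ) + 2) / a) - (((a:ℝ) + 2) / a)⁻¹) / 2) =
      (4 * (a:ℝ) + 4) / (2 * a * (a + 2)) := by
    field_simp
    ring
  rw [hP, hmid]
  unfold nu de
  by_cases hc : a + 2 ≤ 870
  · have hc' : (a:ℝ) + 2 ≤ 870 := by exact_mod_cast hc
    have hmin : min (17 / 10 : ℝ) (199 / 100 - ((a:ℝ) + 2) / 1000 / 3) = 17 / 10 := by
      apply min_eq_left
      linarith
    rw [hmin]
    simp only [if_pos hc]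
    have h17 : ((1700 - (a + 2) : ℕ):ℝ) = 1700 - ((a:ℝ) + 2) := by
      rw [Nat.cast_sub (by omega)]; push_cast; ring
    have hne : (1700 - ((a:ℝ) + 2)) ≠ 0 := by
      have : 0 < 1700 - ((a:ℝ) + 2) := by linarith
      exact this.ne'
    have hne2 : (17 / 10 - ((a:ℝ) + 2) / 1000) ≠ 0 := by
      intro h; apply hne; linarith
    rw [Nat.cast_mul, Nat.cast_mul, Nat.cast_mul, Nat.cast_mul (1405000), h17, hsq]
    have e1 : (425 / 1000 : ℝ) / (17 / 10 - ((a:ℝ) + 2) / 1000) =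
        425 / (1700 - ((a:ℝ) + 2)) := by
      rw [div_eq_div_iff hne2 hne]; ring
    rw [e1]
    push_cast
    field_simp
  · have hc' : 870 < (a:ℝ) + 2 := by
      have : 870 < a + 2 := by omega
      exact_mod_cast this
    have hmin : min (17 / 10 : ℝ) (199 / 100 - ((a:ℝ) + 2) / 1000 / 3) =
        199 / 100 - ((a:ℝ) + 2) / 1000 / 3 := by
      apply min_eq_right
      linarith
    have hle : (a:ℝ) + 2 ≤ 1405 := by exact_mod_cast h2
    rw [hmin]
    simp only [if_neg hc]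
    have h17 : ((5970 - 4 * (a + 2) : ℕ):ℝ) = 5970 - 4 * ((a:ℝ) + 2) := by
      rw [Nat.cast_sub (by omega)]; push_cast; ring
    have hne : (5970 - 4 * ((a:ℝ) + 2)) ≠ 0 := by
      have : 0 < 5970 - 4 * ((a:ℝ) + 2) := by linarith
      exact this.ne'
    have hne2 : (199 / 100 - ((a:ℝ) + 2) / 1000 / 3 - ((a:ℝ) + 2) / 1000) ≠ 0 := by
      intro h; apply hne; linarith
    rw [Nat.cast_mul, Nat.cast_mul, Nat.cast_mul, Nat.cast_mul (1405000), h17, hsq]
    have e1 : (425 / 1000 : ℝ) / (199 / 100 - ((a:ℝ) + 2) / 1000 / 3 - ((a:ℝ) + 2) / 1000) =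
        1275 / (5970 - 4 * ((a:ℝ) + 2)) := by
      rw [div_eq_div_iff hne2 hne]; ring
    rw [e1]
    push_cast
    field_simp

/-- one block -/
theorem block {N a : ℕ} (hN : 1 ≤ N) (h1 : 425 ≤ a) (h2 : a + 2 ≤ 1405) (hodd : a % 2 = 1) :
    ∑ j ∈ Finset.Ico (a * N) ((a + 2) * N),
      pen N j * Real.log (((j:ℝ) + 1) / j) * ((425 / 1000) / lv N j) ≤ (bn a : ℝ) / 10 ^ 9 := by
  refine le_trans ?_ (bn_ge h1 h2)
  rw [← block_val h1 h2]
  have hN0 : (0:ℝ) < N := by exact_mod_cast hN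
  have ha0 : (0:ℝ) < a := by
    have : 0 < a := by omega
    exact_mod_cast this
  have ha1 : (a:ℝ) + 2 ≤ 1405 := by exact_mod_cast h2
  obtain ⟨P, hP⟩ : ∃ P : ℝ, P = (1157 / 1000) * (1 - (a:ℝ) / 1405) +
    (if a = 999 then (1:ℝ) else 0) := ⟨_, rfl⟩
  obtain ⟨l, hl⟩ : ∃ l : ℝ, l = min (17 / 10) (199 / 100 - ((a:ℝ) + 2) / 1000 / 3) -
    ((a:ℝ) + 2) / 1000 := ⟨_, rfl⟩
  rw [← hP, ← hl]
  have hl0 : 0 < l := by
    rw [hl, sub_pos, lt_min_iff]
    constructor <;> linarith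
  have hP0 : 0 ≤ P := by
    rw [hP]
    have : (a:ℝ) / 1405 ≤ 1 := by rw [div_le_one (by norm_num)]; linarith
    have h3 : (0:ℝ) ≤ (if a = 999 then (1:ℝ) else 0) := by split_ifs <;> norm_num
    nlinarith
  have hterm : ∀ j ∈ Finset.Ico (a * N) ((a + 2) * N),
      pen N j * Real.log (((j:ℝ) + 1) / j) * ((425 / 1000) / lv N j) ≤
        P * ((425 / 1000) / l) * Real.log (((j:ℝ) + 1) / j) := by
    intro j hj
    obtain ⟨hj1, hj2⟩ := Finset.mem_Ico.mp hj
    have hjN : 0 < a * N := by positivity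
    have hj0 : (0:ℝ) < j := by
      have : 0 < j := by omega
      exact_mod_cast this
    have hlog : 0 ≤ Real.log (((j:ℝ) + 1) / j) := by
      apply Real.log_nonneg
      rw [le_div_iff₀ hj0]; linarith
    have hj1' : (a:ℝ) * N ≤ j := by exact_mod_cast hj1
    have hj2' : (j:ℝ) + 1 ≤ ((a:ℝ) + 2) * N := by exact_mod_cast hj2
    have hpen : pen N j ≤ P := by
      unfold pen
      rw [if_pos ⟨by nlinarith, by nlinarith⟩, hP]
      refine add_le_add ?_ ?_
      · have h3 : (a:ℝ) / 1000 ≤ (j:ℝ) / (1000 * N) := by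
          rw [div_le_div_iff₀ (by norm_num) (by positivity)]
          nlinarith
        have h4 : (a:ℝ) / 1405 = (a:ℝ) / 1000 / (1405 / 1000) := by field_simp
        rw [h4]
        have h5 : (a:ℝ) / 1000 / (1405 / 1000) ≤ (j:ℝ) / (1000 * N) / (1405 / 1000) :=
          div_le_div_of_nonneg_right h3 (by norm_num)
        linarith
      · by_cases ha : a = 999
        · rw [if_pos ha]; split_ifs <;> norm_num
        · rw [if_neg ha, if_neg]
          rintro ⟨h5, h6⟩
          rcases Nat.lt_or_ge a 999 with h7 | h7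
          · have h8 : a + 2 ≤ 999 := by omega
            have : (a + 2) * N ≤ 999 * N := Nat.mul_le_mul_right N h8
            omega
          · have h8 : 1001 ≤ a := by omega
            have : 1001 * N ≤ a * N := Nat.mul_le_mul_right N h8
            omega
    have hlv : l ≤ lv N j := by
      unfold lv ed
      have h3 : ((j:ℝ) + 1) / (1000 * N) ≤ ((a:ℝ) + 2) / 1000 := by
        rw [div_le_div_iff₀ (by positivity) (by norm_num)]
        nlinarith
      rw [hl]
      have h4 : min (17 / 10 : ℝ) (199 / 100 - ((a:ℝ) + 2) / 1000 / 3) ≤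
          min (17 / 10 : ℝ) (199 / 100 - ((j:ℝ) + 1) / (1000 * N) / 3) := by
        apply min_le_min_left
        linarith
      linarith
    have hdiv : (425 / 1000 : ℝ) / lv N j ≤ (425 / 1000) / l :=
      div_le_div_of_nonneg_left (by norm_num) hl0 hlv
    have hdiv0 : (0:ℝ) ≤ (425 / 1000) / lv N j := div_nonneg (by norm_num) (by linarith)
    calc pen N j * Real.log (((j:ℝ) + 1) / j) * ((425 / 1000) / lv N j)
        ≤ P * Real.log (((j:ℝ) + 1) / j) * ((425 / 1000) / lv N j) :=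
          mul_le_mul_of_nonneg_right (mul_le_mul_of_nonneg_right hpen hlog) hdiv0
      _ ≤ P * Real.log (((j:ℝ) + 1) / j) * ((425 / 1000) / l) :=
          mul_le_mul_of_nonneg_left hdiv (mul_nonneg hP0 hlog)
      _ = P * ((425 / 1000) / l) * Real.log (((j:ℝ) + 1) / j) := by ring
  refine le_trans (Finset.sum_le_sum hterm) ?_
  rw [← Finset.mul_sum]
  have haN : 1 ≤ a * N := Nat.one_le_iff_ne_zero.mpr (by positivity)
  have htele := tele (a * N) haN (2 * N)
  rw [show a * N + 2 * N = (a + 2) * N by ring] at htele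
  rw [htele]
  have hq : (((a + 2) * N : ℕ):ℝ) / ((a * N : ℕ):ℝ) = ((a:ℝ) + 2) / a := by
    push_cast
    field_simp
  rw [hq]
  have h1t : 1 ≤ ((a:ℝ) + 2) / a := by
    rw [le_div_iff₀ ha0]; linarith
  have h3 := log_le_half h1t
  have h4 : 0 ≤ P * ((425 / 1000) / l) := mul_nonneg hP0 (by positivity)
  calc P * ((425 / 1000) / l) * Real.log (((a:ℝ) + 2) / a)
      ≤ P * ((425 / 1000) / l) * ((((a:ℝ) + 2) / a - (((a:ℝ) + 2) / a)⁻¹) / 2) :=
        mul_le_mul_of_nonneg_left h3 h4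
    _ = P * ((((a:ℝ) + 2) / a - (((a:ℝ) + 2) / a)⁻¹) / 2) * ((425 / 1000) / l) := by ring

theorem blocks {N : ℕ} (hN : 1 ≤ N) : ∀ k : ℕ, k ≤ 490 →
    ∑ j ∈ Finset.Ico (425 * N) ((425 + 2 * k) * N),
      pen N j * Real.log (((j:ℝ) + 1) / j) * ((425 / 1000) / lv N j) ≤
      ((∑ i ∈ Finset.range k, bn (425 + 2 * i) : ℕ) : ℝ) / 10 ^ 9 := by
  intro k
  induction k with
  | zero => intro _; simp
  | succ k ih =>
    intro hk
    have h1 := ih (by omega)
    have h2 := block (N := N) (a := 425 + 2 * k) hN (by omega) (by omega) (by omega)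
    rw [Finset.sum_range_succ, show 425 + 2 * (k + 1) = 425 + 2 * k + 2 by ring,
      ← Finset.sum_Ico_consecutive _ (show 425 * N ≤ (425 + 2 * k) * N from
        Nat.mul_le_mul_right N (by omega)) (show (425 + 2 * k) * N ≤ (425 + 2 * k + 2) * N from
        Nat.mul_le_mul_right N (by omega))]
    push_cast at h1 ⊢
    rw [add_div]
    exact add_le_add h1 h2

theorem log3 : (1.097 : ℝ) ≤ Real.log 3 := by
  have h1 : Real.log ((2:ℝ) ^ 19) ≤ Real.log ((3:ℝ) ^ 12) :=
    Real.log_le_log (by norm_num) (by norm_num)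
  rw [Real.log_pow, Real.log_pow] at h1
  have h2 := Real.log_two_gt_d9
  push_cast at h1
  linarith

end Num

theorem tNum : St_num := by
  refine ⟨1, le_refl 1, fun N hN => ?_⟩
  have h2 : ((∑ i ∈ Finset.range 490, Num.bn (425 + 2 * i) : ℕ) : ℝ) ≤ 272000000 := by
    exact_mod_cast Num.bn_sum
  have h3 := Num.log3
  refine le_trans ?_ (show (272000000 : ℝ) / 10 ^ 9 ≤ Real.log 3 / 4 - 1 / 500 by linarith)
  refine le_trans (Num.blocks hN 490 (le_refl _)) ?_
  exact div_le_div_of_nonneg_right h2 (by norm_num)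

end Pool.Agent.TCub
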