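import Pool.Agent.TCub.Stmts

open Finset

namespace Pool.Agent.TCub

namespace Psi

theorem key {H : ℕ} (hH : 1 ≤ H) {L : ℝ} (hL : 1 ≤ L) {z : ℤ} (hz : z ≠ 0) {x : ℝ}
    (hx : x = |(z : ℝ)|) (hx1 : 1 ≤ x) :
    psi H L z ≤ 24 * L * ((L / H) / (x - 1 + L / H) - (L / H) / (x + L / H)) := by
  have hHr : (1 : ℝ) ≤ H := by exact_mod_cast hH
  have hz2 : (z : ℝ) ^ 2 = x ^ 2 := by rw [hx, sq_abs]
  unfold psi
  rw [if_neg hz, hz2]
  set T : ℝ := L / H with hT
  have hT0 : 0 < T := by positivity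
  have hLT : L = T * H := by
    rw [hT]
    field_simp
  have e1 : T / (x - 1 + T) - T / (x + T) = T / ((x - 1 + T) * (x + T)) := by
    have h1 : x - 1 + T ≠ 0 := by linarith
    have h2 : x + T ≠ 0 := by linarith
    field_simp
    ring
  have h3 : T / (x + T) ^ 2 ≤ T / (x - 1 + T) - T / (x + T) := by
    rw [e1]
    apply div_le_div_of_nonneg_left hT0.le
    · apply mul_pos <;> linarith
    · nlinarith
  have h4 : min (6 * (H : ℝ)) (L ^ 2 / (H * x ^ 2)) ≤ 24 * L * (T / (x + T) ^ 2) := by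
    have hp : 0 < (x + T) ^ 2 := by positivity
    rw [hLT]
    rcases le_total T x with h | h
    · refine (min_le_right _ _).trans ?_
      have e2 : (T * H) ^ 2 / (H * x ^ 2) = T ^ 2 * H / x ^ 2 := by
        field_simp
      have e3 : 24 * (T * H) * (T / (x + T) ^ 2) = (24 * (T ^ 2 * H)) / (x + T) ^ 2 := by
        ring
      rw [e2, e3, div_le_div_iff₀ (by positivity) hp]
      have h5 : (x + T) ^ 2 ≤ 24 * x ^ 2 := by nlinarith
      have h6 : 0 ≤ T ^ 2 * (H : ℝ) := by positivity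
      nlinarith [mul_le_mul_of_nonneg_left h5 h6]
    · refine (min_le_left _ _).trans ?_
      have e3 : 24 * (T * H) * (T / (x + T) ^ 2) = (24 * (T ^ 2 * H)) / (x + T) ^ 2 := by
        ring
      rw [e3, le_div_iff₀ hp]
      have h5 : (x + T) ^ 2 ≤ 4 * T ^ 2 := by nlinarith
      have h6 : 0 ≤ 6 * (H : ℝ) := by positivity
      nlinarith [mul_le_mul_of_nonneg_left h5 h6]
  refine h4.trans ?_
  exact mul_le_mul_of_nonneg_left h3 (by positivity)

theorem main {H : ℕ} (hH : 1 ≤ H) {L : ℝ} (hL : 1 ≤ L) (Z : ℕ) :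
    ∑ z ∈ (Finset.Icc (-(Z:ℤ)) Z).erase 0, psi H L z ≤
      48 * L * (1 - (L / H) / ((Z : ℝ) + L / H)) := by
  have hHr : (1 : ℝ) ≤ H := by exact_mod_cast hH
  have hT0 : 0 < L / H := by positivity
  induction Z with
  | zero =>
    have e : (Finset.Icc (-((0 : ℕ) : ℤ)) ((0 : ℕ) : ℤ)).erase 0 = ∅ := by
      ext t
      simp only [Finset.mem_erase, Finset.mem_Icc, Finset.notMem_empty, iff_false]
      push_cast
      omega
    rw [e, Finset.sum_empty, Nat.cast_zero, zero_add, div_self hT0.ne']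
    simp
  | succ Z ih =>
    have e : (Finset.Icc (-((Z + 1 : ℕ) : ℤ)) ((Z + 1 : ℕ) : ℤ)).erase 0 =
        insert ((Z : ℤ) + 1) (insert (-((Z : ℤ) + 1)) ((Finset.Icc (-(Z:ℤ)) Z).erase 0)) := by
      ext t
      simp only [Finset.mem_erase, Finset.mem_Icc, Finset.mem_insert]
      push_cast
      omega
    rw [e, Finset.sum_insert, Finset.sum_insert]
    · have k1 := key hH hL (z := (Z : ℤ) + 1) (by omega) (x := (Z : ℝ) + 1) (by
        push_cast
        rw [abs_of_nonneg (by positivity)]) (by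
        have : (0 : ℝ) ≤ Z := Nat.cast_nonneg Z
        linarith)
      have k2 := key hH hL (z := -((Z : ℤ) + 1)) (by omega) (x := (Z : ℝ) + 1) (by
        push_cast
        rw [abs_neg, abs_of_nonneg (by positivity)]) (by
        have : (0 : ℝ) ≤ Z := Nat.cast_nonneg Z
        linarith)
      have e2 : (Z : ℝ) + 1 - 1 + L / H = (Z : ℝ) + L / H := by ring
      rw [e2] at k1 k2
      push_cast
      linarith
    · simp only [Finset.mem_erase, Finset.mem_Icc]
      omega
    · simp only [Finset.mem_insert, Finset.mem_erase, Finset.mem_Icc]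
      omega

end Psi

open Psi in
theorem tPsi : St_psi := by
  refine ⟨48, by norm_num, ?_⟩
  intro H hH L hL Z
  have hHr : (1 : ℝ) ≤ H := by exact_mod_cast hH
  have h1 := main hH hL Z
  have hT0 : 0 < L / H := by positivity
  have hZ : (0 : ℝ) ≤ Z := Nat.cast_nonneg Z
  have h2 : 0 ≤ (L / H) / ((Z : ℝ) + L / H) := by positivity
  have h3 : 48 * L * (1 - (L / H) / ((Z : ℝ) + L / H)) ≤ 48 * L := by
    nlinarith
  refine ⟨h1.trans h3, ?_⟩
  have h0 : (0 : ℤ) ∈ Finset.Icc (-(Z:ℤ)) Z := by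
    rw [Finset.mem_Icc]
    omega
  rw [← Finset.sum_erase_add _ _ h0]
  have h4 : psi H L 0 = 6 * (H : ℝ) := by
    unfold psi
    rw [if_pos rfl]
  rw [h4]
  linarith [h1.trans h3]

end Pool.Agent.TCub
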