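import Pool.Agent.TCub.Stmts

open Finset

namespace Pool.Agent.TCub

namespace RRexp

/-- divisors of a squarefree number are the products of the sets of primes -/
lemma sum_div (d : ℕ) (hd : Squarefree d) (f : ℕ → ℝ) :
    ∑ t ∈ d.primeFactors.powerset, f (∏ p ∈ t, p) = ∑ d' ∈ d.divisors, f d' := by
  refine Finset.sum_bij' (i := fun t _ => ∏ p ∈ t, p) (j := fun d' _ => d'.primeFactors) ?_ ?_ ?_ ?_ ?_
  · intro t ht
    rw [Finset.mem_powerset] at ht
    rw [Nat.mem_divisors]
    refine ⟨?_, hd.ne_zero⟩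
    calc (∏ p ∈ t, p) ∣ ∏ p ∈ d.primeFactors, p := Finset.prod_dvd_prod_of_subset _ _ _ ht
      _ = d := Nat.prod_primeFactors_of_squarefree hd
  · intro d' hd'
    rw [Finset.mem_powerset]
    exact Nat.primeFactors_mono (Nat.dvd_of_mem_divisors hd') hd.ne_zero
  · intro t ht
    rw [Finset.mem_powerset] at ht
    exact Nat.primeFactors_prod (fun p hp => Nat.prime_of_mem_primeFactors (ht hp))
  · intro d' hd'
    exact Nat.prod_primeFactors_of_squarefree (hd.squarefree_of_dvd (Nat.dvd_of_mem_divisors hd'))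
  · intro t ht
    rfl

lemma gd_mul (hsS : St_sS) (m n : ℕ) (h : Nat.Coprime m n) : gd (m * n) = gd m * gd n := by
  unfold gd
  rw [hsS.1 m n h]
  push_cast
  rw [div_mul_div_comm]
  congr 1
  ring

lemma rho_one : rho 1 = 1 := by
  have : cone 1 = {fun _ => 0} := by
    ext x
    simp only [cone, Finset.mem_filter, Fintype.mem_piFinset, Finset.mem_Ico, Finset.mem_singleton]
    constructor
    · rintro ⟨h, _⟩
      funext i
      have := h i
      push_cast at this
      omega
    · rintro rfl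
      exact ⟨fun i => by norm_num, by simp⟩
  simp [rho, this]

lemma gd_prod (hsS : St_sS) (t : Finset ℕ) (ht : ∀ p ∈ t, p.Prime) :
    gd (∏ p ∈ t, p) = ∏ p ∈ t, gd p := by
  classical
  induction t using Finset.induction_on with
  | empty => simp [gd, rho_one]
  | insert a s ha ih =>
    rw [Finset.prod_insert ha, Finset.prod_insert ha, gd_mul hsS, ih (fun p hp => ht p (Finset.mem_insert_of_mem hp))]
    refine Nat.Coprime.prod_right (fun p hp => ?_)
    rw [Nat.coprime_primes (ht a (Finset.mem_insert_self _ _)) (ht p (Finset.mem_insert_of_mem hp))]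
    rintro rfl
    exact ha hp

end RRexp

theorem tRRexp (hsS : St_sS) (hDM : St_DM) : St_RRexp := by
  classical
  intro M K d hM hK hd
  have h1 : ∀ x : Fin 3 → ℤ, (if (d:ℤ) ∣ F3 x then WW M K x else 0) =
      ∑ d' ∈ d.divisors, gd (d / d') *
        (WW M K x * ∏ p ∈ d'.primeFactors, ((if (p:ℤ) ∣ F3 x then (1:ℝ) else 0) - gd p)) := by
    intro x
    have e1 : (if (d:ℤ) ∣ F3 x then (1:ℝ) else 0) =
        ∏ p ∈ d.primeFactors, (if (p:ℤ) ∣ F3 x then (1:ℝ) else 0) := by
      rw [Finset.prod_ite_zero, Finset.prod_const_one]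
      refine if_congr ?_ rfl rfl
      constructor
      · intro h p hp
        exact (Int.natCast_dvd_natCast.2 (Nat.dvd_of_mem_primeFactors hp)).trans h
      · intro h
        rw [Int.natCast_dvd]
        have h2 : (∏ p ∈ d.primeFactors, p) ∣ (F3 x).natAbs := by
          refine Finset.prod_primes_dvd _ (fun p hp => (Nat.prime_of_mem_primeFactors hp).prime) ?_
          intro p hp
          exact Int.natCast_dvd.1 (h p hp)
        rwa [Nat.prod_primeFactors_of_squarefree hd] at h2
    have e2 : ∏ p ∈ d.primeFactors, (if (p:ℤ) ∣ F3 x then (1:ℝ) else 0) =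
        ∑ t ∈ d.primeFactors.powerset, (∏ p ∈ t, ((if (p:ℤ) ∣ F3 x then (1:ℝ) else 0) - gd p)) *
          ∏ p ∈ d.primeFactors \ t, gd p := by
      rw [← Finset.prod_add]
      refine Finset.prod_congr rfl (fun p _ => ?_)
      ring
    have e3 : ∑ t ∈ d.primeFactors.powerset, (∏ p ∈ t, ((if (p:ℤ) ∣ F3 x then (1:ℝ) else 0) - gd p)) *
          ∏ p ∈ d.primeFactors \ t, gd p =
        ∑ t ∈ d.primeFactors.powerset, (fun d' => gd (d / d') *
          ∏ p ∈ d'.primeFactors, ((if (p:ℤ) ∣ F3 x then (1:ℝ) else 0) - gd p)) (∏ p ∈ t, p) := by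
      refine Finset.sum_congr rfl (fun t ht => ?_)
      rw [Finset.mem_powerset] at ht
      have hpt : ∀ p ∈ t, p.Prime := fun p hp => Nat.prime_of_mem_primeFactors (ht hp)
      have hps : ∀ p ∈ d.primeFactors \ t, p.Prime := fun p hp =>
        Nat.prime_of_mem_primeFactors (Finset.mem_sdiff.1 hp).1
      simp only
      rw [Nat.primeFactors_prod hpt, mul_comm]
      congr 1
      rw [← RRexp.gd_prod hsS _ hps]
      congr 1
      have h2 : (∏ p ∈ d.primeFactors \ t, p) * (∏ p ∈ t, p) = d := by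
        rw [Finset.prod_sdiff ht, Nat.prod_primeFactors_of_squarefree hd]
      have h3 : 0 < ∏ p ∈ t, p := Finset.prod_pos (fun p hp => (hpt p hp).pos)
      exact (Nat.div_eq_of_eq_mul_left h3 h2.symm).symm
    have e4 : (if (d:ℤ) ∣ F3 x then WW M K x else 0) =
        WW M K x * (if (d:ℤ) ∣ F3 x then (1:ℝ) else 0) := by
      split_ifs <;> simp
    rw [e4, e1, e2, e3, RRexp.sum_div d hd (fun d' => gd (d / d') *
          ∏ p ∈ d'.primeFactors, ((if (p:ℤ) ∣ F3 x then (1:ℝ) else 0) - gd p)), Finset.mul_sum]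
    refine Finset.sum_congr rfl (fun d' _ => ?_)
    ring
  have h2 : AA M K d = ∑ d' ∈ d.divisors, gd (d / d') * Est M K d' := by
    unfold AA Est
    rw [Finset.sum_congr rfl (fun x _ => h1 x), Finset.sum_comm]
    refine Finset.sum_congr rfl (fun d' _ => ?_)
    rw [Finset.mul_sum]
  have h3 : Est M K 1 = XX M K := by
    unfold Est
    rw [← hDM.2.2.2.1 M K hK]
    refine Finset.sum_congr rfl (fun x _ => ?_)
    simp
  have h4 : (1:ℕ) ∈ d.divisors := Nat.one_mem_divisors.2 hd.ne_zero
  unfold RR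
  rw [h2, ← Finset.add_sum_erase _ _ h4, h3, Nat.div_one]
  ring

end Pool.Agent.TCub
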