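import Pool.Agent.TCub.Stmts

open Finset

namespace Pool.Agent.TCub

namespace Rhoprime

open scoped ComplexConjugate

variable (p : ℕ) [Fact p.Prime]

noncomputable def psi : AddChar (ZMod p) ℂ := ZMod.stdAddChar

theorem psi_prim : (psi p).IsPrimitive := ZMod.isPrimitive_stdAddChar p

noncomputable def T (t : ZMod p) : ℂ := ∑ x : ZMod p, psi p (t * x ^ 3)

theorem sum_psi (b : ZMod p) : ∑ t : ZMod p, psi p (t * b) = if b = 0 then (p:ℂ) else 0 := by
  have := AddChar.sum_mulShift b (psi_prim p)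
  rw [this, ZMod.card]
  split_ifs <;> simp

theorem T_zero : T p 0 = p := by
  unfold T
  simp

theorem T_cube (t : ZMod p) : T p t ^ 3 =
    ∑ x : Fin 3 → ZMod p, psi p (t * (x 0 ^ 3 + x 1 ^ 3 + x 2 ^ 3)) := by
  unfold T
  rw [Fintype.sum_pow]
  refine Finset.sum_congr rfl fun x _ => ?_
  rw [Fin.prod_univ_three, mul_add, mul_add, AddChar.map_add_eq_mul, AddChar.map_add_eq_mul]

theorem sum_T_cube : ∑ t : ZMod p, T p t ^ 3 = p *
    (((univ : Finset (Fin 3 → ZMod p)).filter fun x => x 0 ^ 3 + x 1 ^ 3 + x 2 ^ 3 = 0).card : ℂ) := by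
  simp_rw [T_cube]
  rw [Finset.sum_comm]
  simp_rw [sum_psi]
  rw [← Finset.sum_filter, Finset.sum_const, nsmul_eq_mul, mul_comm]

theorem normSq_T (t : ZMod p) : ((‖T p t‖ ^ 2 : ℝ) : ℂ) =
    ∑ x : ZMod p × ZMod p, psi p (t * (x.1 ^ 3 - x.2 ^ 3)) := by
  rw [← Complex.normSq_eq_norm_sq, ← Complex.mul_conj]
  unfold T
  rw [map_sum, Finset.sum_mul_sum, ← Finset.sum_product', Finset.univ_product_univ]
  refine Finset.sum_congr rfl fun x _ => ?_
  rw [← AddChar.map_neg_eq_conj, ← AddChar.map_add_eq_mul]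
  congr 1
  ring

theorem sum_normSq : ((∑ t : ZMod p, ‖T p t‖ ^ 2 : ℝ) : ℂ) = p *
    (((univ : Finset (ZMod p × ZMod p)).filter fun x => x.1 ^ 3 - x.2 ^ 3 = 0).card : ℂ) := by
  rw [Complex.ofReal_sum]
  simp_rw [normSq_T]
  rw [Finset.sum_comm]
  simp_rw [sum_psi]
  rw [← Finset.sum_filter, Finset.sum_const, nsmul_eq_mul, mul_comm]

theorem roots_le (a : ZMod p) : ((univ : Finset (ZMod p)).filter fun y => y ^ 3 = a).card ≤ 3 := by
  have h1 : ((univ : Finset (ZMod p)).filter fun y => y ^ 3 = a) ⊆ (Polynomial.nthRoots 3 a).toFinset := by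
    intro y hy
    rw [mem_filter] at hy
    rw [Multiset.mem_toFinset, Polynomial.mem_nthRoots (by norm_num)]
    exact hy.2
  exact le_trans (card_le_card h1) (le_trans (Multiset.toFinset_card_le _) (Polynomial.card_nthRoots _ _))

theorem pairs_le : ((univ : Finset (ZMod p × ZMod p)).filter fun x => x.1 ^ 3 - x.2 ^ 3 = 0).card + 2 ≤ 3 * p := by
  have hp : 2 ≤ p := (Fact.out : p.Prime).two_le
  have h1 : ((univ : Finset (ZMod p × ZMod p)).filter fun x => x.1 ^ 3 - x.2 ^ 3 = 0).card =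
      ∑ x : ZMod p, ((univ : Finset (ZMod p)).filter fun y => y ^ 3 = x ^ 3).card := by
    rw [Finset.card_filter, ← Finset.univ_product_univ, Finset.sum_product]
    refine Finset.sum_congr rfl fun x _ => ?_
    rw [Finset.card_filter]
    refine Finset.sum_congr rfl fun y _ => ?_
    simp only [sub_eq_zero]
    refine if_congr ⟨fun h => h.symm, fun h => h.symm⟩ rfl rfl
  rw [h1, ← Finset.add_sum_erase _ _ (mem_univ (0 : ZMod p))]
  have h2 : ((univ : Finset (ZMod p)).filter fun y => y ^ 3 = (0 : ZMod p) ^ 3).card = 1 := by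
    rw [Finset.card_eq_one]
    refine ⟨0, ?_⟩
    ext y
    simp
  have h3 : ∑ x ∈ (univ : Finset (ZMod p)).erase 0, ((univ : Finset (ZMod p)).filter fun y => y ^ 3 = x ^ 3).card
      ≤ ∑ x ∈ (univ : Finset (ZMod p)).erase 0, 3 := Finset.sum_le_sum fun x _ => roots_le p _
  rw [Finset.sum_const, Finset.card_erase_of_mem (mem_univ _), Finset.card_univ, ZMod.card, smul_eq_mul] at h3
  rw [h2]
  omega

theorem sum_normSq_le : ∑ t ∈ (univ : Finset (ZMod p)).erase 0, ‖T p t‖ ^ 2 ≤ 2 * p * (p - 1 : ℝ) := by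
  have h1 : (∑ t : ZMod p, ‖T p t‖ ^ 2 : ℝ) = p *
    (((univ : Finset (ZMod p × ZMod p)).filter fun x => x.1 ^ 3 - x.2 ^ 3 = 0).card : ℝ) := by
    have := sum_normSq p
    exact_mod_cast this
  rw [← Finset.add_sum_erase _ _ (mem_univ (0 : ZMod p)), T_zero] at h1
  have h2 : (((univ : Finset (ZMod p × ZMod p)).filter fun x => x.1 ^ 3 - x.2 ^ 3 = 0).card : ℝ) + 2 ≤ 3 * p := by
    exact_mod_cast pairs_le p
  have h3 : ‖(p:ℂ)‖ = p := Complex.norm_natCast p
  rw [h3] at h1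
  have h4 : (0:ℝ) ≤ p := Nat.cast_nonneg p
  nlinarith

theorem T_scale (t c : ZMod p) (hc : c ≠ 0) : T p (t * c ^ 3) = T p t := by
  unfold T
  refine Fintype.sum_equiv (Equiv.mulLeft₀ c hc) _ _ fun x => ?_
  change psi p (t * c ^ 3 * x ^ 3) = psi p (t * (c * x) ^ 3)
  congr 1
  ring

theorem fibre_le (t s : ZMod p) (ht : t ≠ 0) :
    (((univ : Finset (ZMod p)).erase 0).filter fun c => t * c ^ 3 = s).card ≤ 3 := by
  refine le_trans (card_le_card ?_) (roots_le p (t⁻¹ * s))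
  intro c hc
  rw [mem_filter] at hc
  rw [mem_filter]
  refine ⟨mem_univ _, ?_⟩
  rw [← hc.2, inv_mul_cancel_left₀ ht]

theorem T_le (t : ZMod p) (ht : t ≠ 0) : ‖T p t‖ ^ 2 ≤ 6 * p := by
  have hp : 2 ≤ p := (Fact.out : p.Prime).two_le
  have hp' : (2:ℝ) ≤ p := by exact_mod_cast hp
  have h1 : ∑ c ∈ (univ : Finset (ZMod p)).erase 0, ‖T p (t * c ^ 3)‖ ^ 2 = (p - 1 : ℝ) * ‖T p t‖ ^ 2 := by
    rw [Finset.sum_congr rfl (g := fun _ => ‖T p t‖ ^ 2)]
    · rw [Finset.sum_const, Finset.card_erase_of_mem (mem_univ _), Finset.card_univ, ZMod.card, nsmul_eq_mul,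
        Nat.cast_sub (by omega)]
      simp
    · intro c hc
      rw [T_scale p t c (ne_of_mem_erase hc)]
  have h2 : ∑ c ∈ (univ : Finset (ZMod p)).erase 0, ‖T p (t * c ^ 3)‖ ^ 2 =
      ∑ s ∈ (univ : Finset (ZMod p)).erase 0, ∑ c ∈ ((univ : Finset (ZMod p)).erase 0).filter (fun c => t * c ^ 3 = s),
        ‖T p (t * c ^ 3)‖ ^ 2 := by
    rw [Finset.sum_fiberwise_of_maps_to]
    intro c hc
    rw [mem_erase] at hc ⊢
    exact ⟨mul_ne_zero ht (pow_ne_zero _ hc.1), mem_univ _⟩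
  have h3 : ∑ s ∈ (univ : Finset (ZMod p)).erase 0, ∑ c ∈ ((univ : Finset (ZMod p)).erase 0).filter (fun c => t * c ^ 3 = s),
        ‖T p (t * c ^ 3)‖ ^ 2 ≤ ∑ s ∈ (univ : Finset (ZMod p)).erase 0, 3 * ‖T p s‖ ^ 2 := by
    refine Finset.sum_le_sum fun s _ => ?_
    rw [Finset.sum_congr rfl (g := fun _ => ‖T p s‖ ^ 2)]
    · rw [Finset.sum_const, nsmul_eq_mul]
      apply mul_le_mul_of_nonneg_right _ (by positivity)
      exact_mod_cast fibre_le p t s ht
    · intro c hc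
      rw [mem_filter] at hc
      rw [hc.2]
  rw [← Finset.mul_sum] at h3
  have h4 := sum_normSq_le p
  have h5 : (p - 1 : ℝ) * ‖T p t‖ ^ 2 ≤ (p - 1 : ℝ) * (6 * p) := by
    calc (p - 1 : ℝ) * ‖T p t‖ ^ 2 ≤ 3 * ∑ s ∈ (univ : Finset (ZMod p)).erase 0, ‖T p s‖ ^ 2 := by
          rw [← h1, h2]; exact h3
      _ ≤ 3 * (2 * p * (p - 1 : ℝ)) := by linarith
      _ = _ := by ring
  exact le_of_mul_le_mul_left h5 (by linarith)

theorem rho_eq : rho p = ((univ : Finset (Fin 3 → ZMod p)).filter fun x => x 0 ^ 3 + x 1 ^ 3 + x 2 ^ 3 = 0).card := by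
  unfold rho cone
  have hp : 0 < p := (Fact.out : p.Prime).pos
  refine Finset.card_nbij' (fun x i => (x i : ZMod p)) (fun y i => ((y i).val : ℤ)) ?_ ?_ ?_ ?_
  · intro x hx
    simp only [coe_filter, Set.mem_ofPred_eq, Fintype.mem_piFinset, mem_Ico] at hx
    simp only [coe_filter, Set.mem_ofPred_eq, mem_univ, true_and]
    have := (ZMod.intCast_zmod_eq_zero_iff_dvd (F3 x) p).2 hx.2
    unfold F3 at this
    push_cast at this
    exact this
  · intro y hy
    simp only [coe_filter, Set.mem_ofPred_eq, mem_univ, true_and] at hy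
    simp only [coe_filter, Set.mem_ofPred_eq, Fintype.mem_piFinset, mem_Ico]
    refine ⟨fun i => ⟨by positivity, ?_⟩, ?_⟩
    · exact_mod_cast ZMod.val_lt (y i)
    · rw [← ZMod.intCast_zmod_eq_zero_iff_dvd]
      unfold F3
      push_cast
      simp only [ZMod.natCast_val, ZMod.cast_id', id]
      exact hy
  · intro x hx
    simp only [coe_filter, Set.mem_ofPred_eq, Fintype.mem_piFinset, mem_Ico] at hx
    funext i
    simp only
    rw [ZMod.val_intCast]
    exact Int.emod_eq_of_lt (hx.1 i).1 (hx.1 i).2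
  · intro y hy
    funext i
    simp

end Rhoprime

open Rhoprime in
theorem tRhoprime : St_rhoprime := by
  intro p hpp
  have : Fact p.Prime := ⟨hpp⟩
  have hp2 : (2:ℝ) ≤ p := by exact_mod_cast hpp.two_le
  have hp0 : (0:ℝ) < p := by linarith
  have h1 := sum_T_cube p
  rw [← rho_eq, ← Finset.add_sum_erase _ _ (mem_univ (0 : ZMod p)), T_zero] at h1
  have h2 : ((p * ((rho p : ℝ) - (p:ℝ) ^ 2) : ℝ) : ℂ) = ∑ t ∈ (univ : Finset (ZMod p)).erase 0, T p t ^ 3 := by
    push_cast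
    linear_combination -h1
  have h3 : ‖∑ t ∈ (univ : Finset (ZMod p)).erase 0, T p t ^ 3‖ ≤ (p - 1 : ℝ) * (6 * p) ^ (3 / 2 : ℝ) := by
    refine le_trans (norm_sum_le _ _) ?_
    have h4 : ∀ t ∈ (univ : Finset (ZMod p)).erase 0, ‖T p t ^ 3‖ ≤ (6 * p : ℝ) ^ (3 / 2 : ℝ) := by
      intro t ht
      rw [norm_pow]
      have h5 := T_le p t (ne_of_mem_erase ht)
      have h6 : ‖T p t‖ ^ 3 = (‖T p t‖ ^ 2) ^ (3 / 2 : ℝ) := by
        rw [← Real.rpow_natCast, ← Real.rpow_natCast, ← Real.rpow_mul (norm_nonneg _)]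
        norm_num
      rw [h6]
      exact Real.rpow_le_rpow (by positivity) h5 (by norm_num)
    refine le_trans (Finset.sum_le_sum h4) ?_
    rw [Finset.sum_const, Finset.card_erase_of_mem (mem_univ _), Finset.card_univ, ZMod.card, nsmul_eq_mul,
        Nat.cast_sub hpp.one_lt.le]
    simp
  rw [← h2, Complex.norm_real, Real.norm_eq_abs, abs_mul, abs_of_pos hp0] at h3
  have h6 : (6 * p : ℝ) ^ (3 / 2 : ℝ) ≤ 15 * (p:ℝ) ^ (3 / 2 : ℝ) := by
    rw [Real.mul_rpow (by norm_num) hp0.le]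
    apply mul_le_mul_of_nonneg_right _ (by positivity)
    have h7 : (6:ℝ) ^ (3 / 2 : ℝ) = Real.sqrt 216 := by
      rw [Real.sqrt_eq_rpow, show (216:ℝ) = 6 ^ (3:ℝ) by norm_num, ← Real.rpow_mul (by norm_num)]
      norm_num
    rw [h7, Real.sqrt_le_left (by norm_num)]
    norm_num
  have h8 : (p:ℝ) * |(rho p : ℝ) - (p:ℝ) ^ 2| ≤ p * (15 * (p:ℝ) ^ (3 / 2 : ℝ)) := by
    refine le_trans h3 ?_
    apply mul_le_mul (by linarith) h6 (by positivity) hp0.le
  exact le_of_mul_le_mul_left h8 hp0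

end Pool.Agent.TCub
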