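import Pool.Agent.TCub.Stmts

open Finset

namespace Pool.Agent.TCub

namespace SEP

/-- separated bound with constant `κ` -/
def PP (s : Finset (Fin 3 → ℤ)) (t₁ t₂ t₃ : Finset ℕ) (T : (Fin 3 → ℤ) → ℕ → ℕ → ℕ → ℂ)
    (B κ : ℝ) (Φ : (Fin 3 → ℤ) → ℕ → ℕ → ℕ → ℂ) : Prop :=
  ∀ (ω : (Fin 3 → ℤ) → ℂ) (α β γ : ℕ → ℂ), (∀ h, ‖ω h‖ ≤ 1) → (∀ n, ‖α n‖ ≤ 1) →
      (∀ n, ‖β n‖ ≤ 1) → (∀ n, ‖γ n‖ ≤ 1) →
      ‖∑ h ∈ s, ω h * ∑ n₁ ∈ t₁, ∑ n₂ ∈ t₂, ∑ n₃ ∈ t₃, α n₁ * β n₂ * γ n₃ *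
        (Φ h n₁ n₂ n₃ * T h n₁ n₂ n₃)‖ ≤ κ * B

variable {s : Finset (Fin 3 → ℤ)} {t₁ t₂ t₃ : Finset ℕ} {T : (Fin 3 → ℤ) → ℕ → ℕ → ℕ → ℂ}
  {B : ℝ}

theorem PP_add {κ₁ κ₂ : ℝ} {Φ₁ Φ₂ : (Fin 3 → ℤ) → ℕ → ℕ → ℕ → ℂ}
    (h₁ : PP s t₁ t₂ t₃ T B κ₁ Φ₁) (h₂ : PP s t₁ t₂ t₃ T B κ₂ Φ₂) :
    PP s t₁ t₂ t₃ T B (κ₁ + κ₂) (fun h n₁ n₂ n₃ => Φ₁ h n₁ n₂ n₃ + Φ₂ h n₁ n₂ n₃) := by
  intro ω α β γ hω hα hβ hγ
  have e1 := h₁ ω α β γ hω hα hβ hγ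
  have e2 := h₂ ω α β γ hω hα hβ hγ
  have : ∑ h ∈ s, ω h * ∑ n₁ ∈ t₁, ∑ n₂ ∈ t₂, ∑ n₃ ∈ t₃, α n₁ * β n₂ * γ n₃ *
        ((Φ₁ h n₁ n₂ n₃ + Φ₂ h n₁ n₂ n₃) * T h n₁ n₂ n₃) =
      ∑ h ∈ s, ω h * ∑ n₁ ∈ t₁, ∑ n₂ ∈ t₂, ∑ n₃ ∈ t₃, α n₁ * β n₂ * γ n₃ *
        (Φ₁ h n₁ n₂ n₃ * T h n₁ n₂ n₃) +
      ∑ h ∈ s, ω h * ∑ n₁ ∈ t₁, ∑ n₂ ∈ t₂, ∑ n₃ ∈ t₃, α n₁ * β n₂ * γ n₃ *
        (Φ₂ h n₁ n₂ n₃ * T h n₁ n₂ n₃) := by
    rw [← sum_add_distrib]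
    apply sum_congr rfl
    intro h _
    rw [← mul_add, ← sum_add_distrib]
    congr 1
    apply sum_congr rfl
    intro n₁ _
    rw [← sum_add_distrib]
    apply sum_congr rfl
    intro n₂ _
    rw [← sum_add_distrib]
    apply sum_congr rfl
    intro n₃ _
    ring
  simp only [this]
  calc _ ≤ κ₁ * B + κ₂ * B := (norm_add_le _ _).trans (add_le_add e1 e2)
    _ = (κ₁ + κ₂) * B := by ring

theorem PP_congr {κ₁ κ₂ : ℝ} {Φ₁ Φ₂ : (Fin 3 → ℤ) → ℕ → ℕ → ℕ → ℂ}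
    (h₁ : PP s t₁ t₂ t₃ T B κ₁ Φ₁) (hκ : κ₁ = κ₂)
    (hΦ : ∀ h n₁ n₂ n₃, Φ₁ h n₁ n₂ n₃ = Φ₂ h n₁ n₂ n₃) : PP s t₁ t₂ t₃ T B κ₂ Φ₂ := by
  have : Φ₁ = Φ₂ := by
    funext h n₁ n₂ n₃
    exact hΦ h n₁ n₂ n₃
  rw [← this, ← hκ]
  exact h₁

theorem PP_mul {κ M₀ M₁ M₂ M₃ : ℝ} {Φ : (Fin 3 → ℤ) → ℕ → ℕ → ℕ → ℂ}
    (hΦ : PP s t₁ t₂ t₃ T B κ Φ) (hM₀ : 0 < M₀) (hM₁ : 0 < M₁) (hM₂ : 0 < M₂) (hM₃ : 0 < M₃)
    (u : (Fin 3 → ℤ) → ℂ) (v₁ v₂ v₃ : ℕ → ℂ) (hu : ∀ h ∈ s, ‖u h‖ ≤ M₀)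
    (hv₁ : ∀ n, ‖v₁ n‖ ≤ M₁) (hv₂ : ∀ n, ‖v₂ n‖ ≤ M₂) (hv₃ : ∀ n, ‖v₃ n‖ ≤ M₃) :
    PP s t₁ t₂ t₃ T B (κ * (M₀ * (M₁ * M₂ * M₃)))
      (fun h n₁ n₂ n₃ => u h * (v₁ n₁ * v₂ n₂ * v₃ n₃) * Φ h n₁ n₂ n₃) := by
  classical
  intro ω α β γ hω hα hβ hγ
  have hdiv : ∀ (M : ℝ) (x y : ℂ), 0 < M → ‖x‖ ≤ 1 → ‖y‖ ≤ M → ‖x * (y / (M : ℂ))‖ ≤ 1 := by
    intro M x y hM hx hy
    rw [norm_mul, norm_div, Complex.norm_real, Real.norm_eq_abs, abs_of_pos hM]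
    have h1 : ‖y‖ / M ≤ 1 := (div_le_one hM).2 hy
    calc ‖x‖ * (‖y‖ / M) ≤ 1 * 1 := mul_le_mul hx h1 (by positivity) zero_le_one
      _ = 1 := one_mul 1
  have key := hΦ (fun h => if h ∈ s then ω h * (u h / (M₀ : ℂ)) else 0)
    (fun n => α n * (v₁ n / (M₁ : ℂ))) (fun n => β n * (v₂ n / (M₂ : ℂ)))
    (fun n => γ n * (v₃ n / (M₃ : ℂ)))
    (by
      intro h
      split_ifs with hs
      · exact hdiv _ _ _ hM₀ (hω h) (hu h hs)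
      · simp)
    (fun n => hdiv _ _ _ hM₁ (hα n) (hv₁ n)) (fun n => hdiv _ _ _ hM₂ (hβ n) (hv₂ n))
    (fun n => hdiv _ _ _ hM₃ (hγ n) (hv₃ n))
  have c0 : (M₀ : ℂ) ≠ 0 := by exact_mod_cast hM₀.ne'
  have c1 : (M₁ : ℂ) ≠ 0 := by exact_mod_cast hM₁.ne'
  have c2 : (M₂ : ℂ) ≠ 0 := by exact_mod_cast hM₂.ne'
  have c3 : (M₃ : ℂ) ≠ 0 := by exact_mod_cast hM₃.ne'
  have e : ∑ h ∈ s, ω h * ∑ n₁ ∈ t₁, ∑ n₂ ∈ t₂, ∑ n₃ ∈ t₃, α n₁ * β n₂ * γ n₃ *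
        ((u h * (v₁ n₁ * v₂ n₂ * v₃ n₃) * Φ h n₁ n₂ n₃) * T h n₁ n₂ n₃) =
      ((M₀ * (M₁ * M₂ * M₃) : ℝ) : ℂ) *
      ∑ h ∈ s, (if h ∈ s then ω h * (u h / (M₀ : ℂ)) else 0) *
        ∑ n₁ ∈ t₁, ∑ n₂ ∈ t₂, ∑ n₃ ∈ t₃, (α n₁ * (v₁ n₁ / (M₁ : ℂ))) *
          (β n₂ * (v₂ n₂ / (M₂ : ℂ))) * (γ n₃ * (v₃ n₃ / (M₃ : ℂ))) *
        (Φ h n₁ n₂ n₃ * T h n₁ n₂ n₃) := by
    rw [mul_sum]
    apply sum_congr rfl
    intro h hs
    rw [if_pos hs]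
    rw [mul_sum, mul_sum, mul_sum]
    apply sum_congr rfl
    intro n₁ _
    rw [mul_sum, mul_sum, mul_sum]
    apply sum_congr rfl
    intro n₂ _
    rw [mul_sum, mul_sum, mul_sum]
    apply sum_congr rfl
    intro n₃ _
    push_cast
    field_simp
  simp only [e]
  rw [norm_mul, Complex.norm_real, Real.norm_eq_abs, abs_of_pos (by positivity)]
  calc M₀ * (M₁ * M₂ * M₃) * _ ≤ M₀ * (M₁ * M₂ * M₃) * (κ * B) :=
        mul_le_mul_of_nonneg_left key (by positivity)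
    _ = κ * (M₀ * (M₁ * M₂ * M₃)) * B := by ring

end SEP

open SEP in
theorem tSEP : St_SEP := by
  intro s t₁ t₂ t₃ T c a b d ρ B hρ ha hb hd hc hB
  have hB0 : 0 ≤ B := by
    have := hB (fun _ => 0) (fun _ => 0) (fun _ => 0) (fun _ => 0) (by simp) (by simp) (by simp)
      (by simp)
    exact (norm_nonneg _).trans this
  have hee1 : ∀ t : ℝ, ‖ee t‖ = 1 := by
    intro t
    unfold ee
    have : (2 * Real.pi * t * Complex.I : ℂ) = ((2 * Real.pi * t : ℝ) : ℂ) * Complex.I := by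
      push_cast
      ring
    rw [this, Complex.norm_exp_ofReal_mul_I]
  have hone : PP s t₁ t₂ t₃ T B 1 (fun _ _ _ _ => 1) := by
    intro ω α β γ hω hα hβ hγ
    have := hB ω α β γ hω hα hβ hγ
    simp only [one_mul]
    exact this
  -- `z = 2πi c ((1+a)(1+b)(1+d) - 1)`
  set z : (Fin 3 → ℤ) → ℕ → ℕ → ℕ → ℂ := fun h n₁ n₂ n₃ =>
    (2 * Real.pi * c h * Complex.I) * ((1 + (a n₁ : ℂ)) * (1 + (b n₂ : ℂ)) * (1 + (d n₃ : ℂ)) - 1)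
    with hz
  have hsplit : ∀ h n₁ n₂ n₃, ee (c h * ((1 + a n₁) * (1 + b n₂) * (1 + d n₃))) =
      ee (c h) * Complex.exp (z h n₁ n₂ n₃) := by
    intro h n₁ n₂ n₃
    unfold ee
    rw [← Complex.exp_add, hz]
    congr 1
    push_cast
    ring
  -- one multiplication by `z`
  have hstep : ∀ (κ : ℝ) (Φ : (Fin 3 → ℤ) → ℕ → ℕ → ℕ → ℂ), PP s t₁ t₂ t₃ T B κ Φ →
      PP s t₁ t₂ t₃ T B κ (fun h n₁ n₂ n₃ => z h n₁ n₂ n₃ * Φ h n₁ n₂ n₃) := by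
    intro κ Φ hΦ
    rcases hρ.eq_or_lt with h0 | hρ0
    · have ha0 : ∀ n, a n = 0 := fun n => le_antisymm (by rw [h0]; exact (ha n).2) (ha n).1
      have hb0 : ∀ n, b n = 0 := fun n => le_antisymm (by rw [h0]; exact (hb n).2) (hb n).1
      have hd0 : ∀ n, d n = 0 := fun n => le_antisymm (by rw [h0]; exact (hd n).2) (hd n).1
      have hκ : 0 ≤ κ * B := by
        have := hΦ (fun _ => 0) (fun _ => 0) (fun _ => 0) (fun _ => 0) (by simp) (by simp)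
          (by simp) (by simp)
        exact (norm_nonneg _).trans this
      intro ω α β γ _ _ _ _
      simp only [hz, ha0, hb0, hd0]
      simp only [Complex.ofReal_zero, add_zero, one_mul, sub_self, mul_zero, zero_mul, sum_const_zero,
        norm_zero]
      exact hκ
    · set R : ℝ := (1 + ρ) ^ 3 - 1 with hR
      have hR0 : 0 < R := by
        have : (1 : ℝ) < (1 + ρ) ^ 3 := one_lt_pow₀ (by linarith) (by norm_num)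
        linarith
      have hu : ∀ h ∈ s, ‖(2 * Real.pi * c h * Complex.I : ℂ)‖ ≤ 1 / R := by
        intro h hs
        rw [le_div_iff₀ hR0]
        have e1 : (2 * Real.pi * c h * Complex.I : ℂ) = ((2 * Real.pi * c h : ℝ) : ℂ) * Complex.I := by
          push_cast
          ring
        rw [e1, norm_mul, Complex.norm_I, mul_one, Complex.norm_real, Real.norm_eq_abs, abs_mul,
          abs_of_pos (by positivity)]
        exact hc h hs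
      have hv : ∀ (f : ℕ → ℝ), (∀ n, 0 ≤ f n ∧ f n ≤ ρ) → ∀ n, ‖((f n : ℝ) : ℂ)‖ ≤ ρ := by
        intro f hf n
        rw [Complex.norm_real, Real.norm_eq_abs, abs_of_nonneg (hf n).1]
        exact (hf n).2
      have h1 : ∀ n : ℕ, ‖(1 : ℂ)‖ ≤ 1 := by simp
      have hR1 : 0 < 1 / R := by positivity
      have m1 := PP_mul hΦ hR1 hρ0 one_pos one_pos
        (fun h => 2 * Real.pi * c h * Complex.I) (fun n => (a n : ℂ)) (fun _ => 1) (fun _ => 1)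
        hu (hv a ha) h1 h1
      have m2 := PP_mul hΦ hR1 one_pos hρ0 one_pos
        (fun h => 2 * Real.pi * c h * Complex.I) (fun _ => 1) (fun n => (b n : ℂ)) (fun _ => 1)
        hu h1 (hv b hb) h1
      have m3 := PP_mul hΦ hR1 one_pos one_pos hρ0
        (fun h => 2 * Real.pi * c h * Complex.I) (fun _ => 1) (fun _ => 1) (fun n => (d n : ℂ))
        hu h1 h1 (hv d hd)
      have m4 := PP_mul hΦ hR1 hρ0 hρ0 one_pos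
        (fun h => 2 * Real.pi * c h * Complex.I) (fun n => (a n : ℂ)) (fun n => (b n : ℂ))
        (fun _ => 1) hu (hv a ha) (hv b hb) h1
      have m5 := PP_mul hΦ hR1 hρ0 one_pos hρ0
        (fun h => 2 * Real.pi * c h * Complex.I) (fun n => (a n : ℂ)) (fun _ => 1)
        (fun n => (d n : ℂ)) hu (hv a ha) h1 (hv d hd)
      have m6 := PP_mul hΦ hR1 one_pos hρ0 hρ0
        (fun h => 2 * Real.pi * c h * Complex.I) (fun _ => 1) (fun n => (b n : ℂ))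
        (fun n => (d n : ℂ)) hu h1 (hv b hb) (hv d hd)
      have m7 := PP_mul hΦ hR1 hρ0 hρ0 hρ0
        (fun h => 2 * Real.pi * c h * Complex.I) (fun n => (a n : ℂ)) (fun n => (b n : ℂ))
        (fun n => (d n : ℂ)) hu (hv a ha) (hv b hb) (hv d hd)
      have mm := PP_add (PP_add (PP_add (PP_add (PP_add (PP_add m1 m2) m3) m4) m5) m6) m7
      refine PP_congr mm ?_ ?_
      · have hRe : R = 3 * ρ + 3 * ρ ^ 2 + ρ ^ 3 := by rw [hR]; ring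
        have : κ * (1 / R * (ρ * 1 * 1)) + κ * (1 / R * (1 * ρ * 1)) + κ * (1 / R * (1 * 1 * ρ)) +
            κ * (1 / R * (ρ * ρ * 1)) + κ * (1 / R * (ρ * 1 * ρ)) + κ * (1 / R * (1 * ρ * ρ)) +
            κ * (1 / R * (ρ * ρ * ρ)) = κ * ((3 * ρ + 3 * ρ ^ 2 + ρ ^ 3) / R) := by ring
        rw [this, ← hRe, div_self hR0.ne', mul_one]
      · intro h n₁ n₂ n₃
        simp only [hz]
        ring
  have hpow : ∀ k : ℕ, PP s t₁ t₂ t₃ T B 1 (fun h n₁ n₂ n₃ => z h n₁ n₂ n₃ ^ k) := by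
    intro k
    induction k with
    | zero =>
      simp only [pow_zero]
      exact hone
    | succ k ih =>
      refine PP_congr (hstep _ _ ih) rfl ?_
      intro h n₁ n₂ n₃
      rw [pow_succ']
  have hpowd : ∀ k : ℕ, PP s t₁ t₂ t₃ T B (1 / (k.factorial : ℝ))
      (fun h n₁ n₂ n₃ => z h n₁ n₂ n₃ ^ k / (k.factorial : ℂ)) := by
    intro k
    have hk : (0 : ℝ) < k.factorial := by exact_mod_cast k.factorial_pos
    have := PP_mul (hpow k) (M₀ := 1 / (k.factorial : ℝ)) (by positivity) one_pos one_pos one_pos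
      (fun _ => 1 / (k.factorial : ℂ)) (fun _ => 1) (fun _ => 1) (fun _ => 1)
      (by
        intro h _
        rw [norm_div, norm_one]
        simp)
      (by simp) (by simp) (by simp)
    refine PP_congr this (by ring) ?_
    intro h n₁ n₂ n₃
    ring
  have hpart : ∀ n : ℕ, PP s t₁ t₂ t₃ T B (∑ k ∈ range n, 1 / (k.factorial : ℝ))
      (fun h n₁ n₂ n₃ => ∑ k ∈ range n, z h n₁ n₂ n₃ ^ k / (k.factorial : ℂ)) := by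
    intro n
    induction n with
    | zero =>
      intro ω α β γ _ _ _ _
      simp
    | succ n ih =>
      refine PP_congr (PP_add ih (hpowd n)) ?_ ?_
      · rw [sum_range_succ]
      · intro h n₁ n₂ n₃
        rw [sum_range_succ]
  have hbound : ∀ n : ℕ, ‖∑ h ∈ s, ee (c h) * ∑ n₁ ∈ t₁, ∑ n₂ ∈ t₂, ∑ n₃ ∈ t₃, 1 * 1 * 1 *
      ((∑ k ∈ range n, z h n₁ n₂ n₃ ^ k / (k.factorial : ℂ)) * T h n₁ n₂ n₃)‖ ≤ 3 * B := by
    intro n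
    have h1 := hpart n (fun h => ee (c h)) (fun _ => 1) (fun _ => 1) (fun _ => 1)
      (fun h => (hee1 _).le) (by simp) (by simp) (by simp)
    refine h1.trans ?_
    apply mul_le_mul_of_nonneg_right _ hB0
    have h2 := Real.sum_le_exp_of_nonneg zero_le_one n
    simp only [one_pow] at h2
    have h3 := Real.exp_one_lt_d9
    linarith
  have hlim : Filter.Tendsto (fun n : ℕ => ∑ h ∈ s, ee (c h) * ∑ n₁ ∈ t₁, ∑ n₂ ∈ t₂, ∑ n₃ ∈ t₃,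
      1 * 1 * 1 * ((∑ k ∈ range n, z h n₁ n₂ n₃ ^ k / (k.factorial : ℂ)) * T h n₁ n₂ n₃))
      Filter.atTop (nhds (∑ h ∈ s, ee (c h) * ∑ n₁ ∈ t₁, ∑ n₂ ∈ t₂, ∑ n₃ ∈ t₃,
        1 * 1 * 1 * (Complex.exp (z h n₁ n₂ n₃) * T h n₁ n₂ n₃))) := by
    have hexp : ∀ x : ℂ, Filter.Tendsto (fun n : ℕ => ∑ k ∈ range n, x ^ k / (k.factorial : ℂ))
        Filter.atTop (nhds (Complex.exp x)) := by
      intro x
      have := (NormedSpace.expSeries_div_hasSum_exp x).tendsto_sum_nat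
      rw [← Complex.exp_eq_exp_ℂ] at this
      exact this
    apply tendsto_finsetSum
    intro h _
    apply Filter.Tendsto.const_mul
    apply tendsto_finsetSum
    intro n₁ _
    apply tendsto_finsetSum
    intro n₂ _
    apply tendsto_finsetSum
    intro n₃ _
    apply Filter.Tendsto.const_mul
    apply Filter.Tendsto.mul_const
    exact hexp _
  have hfin := le_of_tendsto hlim.norm (Filter.Eventually.of_forall hbound)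
  have hgoal : ∑ h ∈ s, ∑ n₁ ∈ t₁, ∑ n₂ ∈ t₂, ∑ n₃ ∈ t₃,
      T h n₁ n₂ n₃ * ee (c h * ((1 + a n₁) * (1 + b n₂) * (1 + d n₃))) =
      ∑ h ∈ s, ee (c h) * ∑ n₁ ∈ t₁, ∑ n₂ ∈ t₂, ∑ n₃ ∈ t₃,
        1 * 1 * 1 * (Complex.exp (z h n₁ n₂ n₃) * T h n₁ n₂ n₃) := by
    apply sum_congr rfl
    intro h _
    rw [mul_sum]
    apply sum_congr rfl
    intro n₁ _
    rw [mul_sum]
    apply sum_congr rfl
    intro n₂ _
    rw [mul_sum]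
    apply sum_congr rfl
    intro n₃ _
    rw [hsplit]
    ring
  rw [hgoal]
  exact hfin

end Pool.Agent.TCub
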