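import Pool.Agent.TCub.Stmts

open Finset

namespace Pool.Agent.TCub

namespace SSmulAux

theorem ee_add (a b : ℝ) : ee (a + b) = ee a * ee b := by
  unfold ee
  rw [← Complex.exp_add]
  congr 1
  push_cast
  ring

theorem ee_int (t : ℤ) : ee (t : ℝ) = 1 := by
  unfold ee
  rw [Complex.exp_eq_one_iff]
  exact ⟨t, by push_cast; ring⟩

theorem mem_cone {d : ℕ} {x : Fin 3 → ℤ} :
    x ∈ cone d ↔ (∀ i, 0 ≤ x i ∧ x i < d) ∧ (d:ℤ) ∣ F3 x := by
  unfold cone
  simp only [mem_filter, Fintype.mem_piFinset, mem_Ico]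

theorem F3_congr {d : ℤ} {x y : Fin 3 → ℤ} (h : ∀ i, x i ≡ y i [ZMOD d]) :
    F3 x ≡ F3 y [ZMOD d] := by
  unfold F3
  exact (((h 0).pow 3).add ((h 1).pow 3)).add ((h 2).pow 3)

theorem F3_smul (c : ℤ) (x : Fin 3 → ℤ) : F3 (fun i => c * x i) = c ^ 3 * F3 x := by
  unfold F3
  ring

theorem dvd_iff_of_modEq {d a b : ℤ} (h : a ≡ b [ZMOD d]) : d ∣ a ↔ d ∣ b :=
  Int.ModEq.dvd_iff h

end SSmulAux

open SSmulAux

theorem tSSmul : St_SSmul := by
  intro m n hmn h
  rcases Nat.eq_zero_or_pos m with rfl | hm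
  · have h0 : cone 0 = ∅ := by
      rw [eq_empty_iff_forall_notMem]
      intro x hx
      have := (mem_cone.1 hx).1 0
      push_cast at this
      omega
    simp [SS, h0]
  rcases Nat.eq_zero_or_pos n with rfl | hn
  · have h0 : cone 0 = ∅ := by
      rw [eq_empty_iff_forall_notMem]
      intro x hx
      have := (mem_cone.1 hx).1 0
      push_cast at this
      omega
    simp [SS, h0]
  have hm' : (0:ℤ) < m := by exact_mod_cast hm
  have hn' : (0:ℤ) < n := by exact_mod_cast hn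
  have hmn' : (0:ℤ) < (m:ℤ) * n := mul_pos hm' hn'
  have hcop : IsCoprime (n:ℤ) (m:ℤ) := (Nat.isCoprime_iff_coprime.2 hmn).symm
  obtain ⟨a, b, hab⟩ := hcop
  have hcop1 : IsCoprime (n:ℤ) (m:ℤ) := ⟨a, b, hab⟩
  unfold SS
  rw [sum_mul_sum, ← sum_product']
  symm
  refine sum_bij' (fun q _ => fun k => (n * q.1 k + m * q.2 k) % ((m:ℤ) * n))
    (fun x _ => (fun k => (a * x k) % m, fun k => (b * x k) % n)) ?_ ?_ ?_ ?_ ?_
  · rintro ⟨x, y⟩ hq
    obtain ⟨hx, hy⟩ := mem_product.1 hq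
    obtain ⟨hx1, hx2⟩ := mem_cone.1 hx
    obtain ⟨hy1, hy2⟩ := mem_cone.1 hy
    rw [mem_cone]
    refine ⟨fun i => ⟨Int.emod_nonneg _ hmn'.ne', ?_⟩, ?_⟩
    · push_cast
      exact Int.emod_lt_of_pos _ hmn'
    · push_cast
      refine IsCoprime.mul_dvd hcop1.symm ?_ ?_
      · have h1 : ∀ i, (n * x i + m * y i) % ((m:ℤ) * n) ≡ n * x i [ZMOD m] := by
          intro i
          have h2 : (n * x i + m * y i) % ((m:ℤ) * n) ≡ n * x i + m * y i [ZMOD m] :=
            (Int.mod_modEq _ _).of_mul_right _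
          refine h2.trans ?_
          have : n * x i + m * y i ≡ n * x i + 0 [ZMOD m] :=
            (Int.ModEq.refl _).add (Int.modEq_zero_iff_dvd.2 (dvd_mul_right _ _))
          simp
        rw [dvd_iff_of_modEq (F3_congr h1), F3_smul]
        exact hx2.mul_left _
      · have h1 : ∀ i, (n * x i + m * y i) % ((m:ℤ) * n) ≡ m * y i [ZMOD n] := by
          intro i
          have h2 : (n * x i + m * y i) % ((m:ℤ) * n) ≡ n * x i + m * y i [ZMOD n] :=
            (Int.mod_modEq _ _).of_mul_left _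
          refine h2.trans ?_
          have : n * x i + m * y i ≡ 0 + m * y i [ZMOD n] :=
            (Int.modEq_zero_iff_dvd.2 (dvd_mul_right _ _)).add (Int.ModEq.refl _)
          simp
        rw [dvd_iff_of_modEq (F3_congr h1), F3_smul]
        exact hy2.mul_left _
  · intro x hx
    obtain ⟨hx1, hx2⟩ := mem_cone.1 hx
    push_cast at hx2
    rw [mem_product]
    refine ⟨mem_cone.2 ⟨fun i => ⟨Int.emod_nonneg _ hm'.ne', Int.emod_lt_of_pos _ hm'⟩, ?_⟩,
      mem_cone.2 ⟨fun i => ⟨Int.emod_nonneg _ hn'.ne', Int.emod_lt_of_pos _ hn'⟩, ?_⟩⟩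
    · show (m:ℤ) ∣ F3 (fun k => (a * x k) % m)
      rw [dvd_iff_of_modEq (F3_congr (y := fun k => a * x k) fun i => Int.mod_modEq _ _), F3_smul]
      exact ((dvd_mul_right _ _).trans hx2).mul_left _
    · show (n:ℤ) ∣ F3 (fun k => (b * x k) % n)
      rw [dvd_iff_of_modEq (F3_congr (y := fun k => b * x k) fun i => Int.mod_modEq _ _), F3_smul]
      exact ((dvd_mul_left _ _).trans hx2).mul_left _
  · rintro ⟨x, y⟩ hq
    obtain ⟨hx, hy⟩ := mem_product.1 hq
    obtain ⟨hx1, hx2⟩ := mem_cone.1 hx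
    obtain ⟨hy1, hy2⟩ := mem_cone.1 hy
    refine Prod.ext (funext fun i => ?_) (funext fun i => ?_)
    · show (a * ((n * x i + m * y i) % ((m:ℤ) * n))) % m = x i
      have h1 : a * ((n * x i + m * y i) % ((m:ℤ) * n)) ≡ x i [ZMOD m] := by
        have h2 : a * ((n * x i + m * y i) % ((m:ℤ) * n)) ≡ a * (n * x i + m * y i) [ZMOD m] :=
          (Int.ModEq.refl a).mul ((Int.mod_modEq _ _).of_mul_right _)
        refine h2.trans (Int.modEq_iff_dvd.2 ⟨b * x i - a * y i, ?_⟩)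
        linear_combination (-(x i)) * hab
      rw [h1]
      exact Int.emod_eq_of_lt (hx1 i).1 (hx1 i).2
    · show (b * ((n * x i + m * y i) % ((m:ℤ) * n))) % n = y i
      have h1 : b * ((n * x i + m * y i) % ((m:ℤ) * n)) ≡ y i [ZMOD n] := by
        have h2 : b * ((n * x i + m * y i) % ((m:ℤ) * n)) ≡ b * (n * x i + m * y i) [ZMOD n] :=
          (Int.ModEq.refl b).mul ((Int.mod_modEq _ _).of_mul_left _)
        refine h2.trans (Int.modEq_iff_dvd.2 ⟨a * y i - b * x i, ?_⟩)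
        linear_combination (-(y i)) * hab
      rw [h1]
      exact Int.emod_eq_of_lt (hy1 i).1 (hy1 i).2
  · intro x hx
    obtain ⟨hx1, hx2⟩ := mem_cone.1 hx
    funext i
    show (n * ((a * x i) % m) + m * ((b * x i) % n)) % ((m:ℤ) * n) = x i
    have h1 : n * ((a * x i) % m) + m * ((b * x i) % n) ≡ x i [ZMOD ((m:ℤ) * n)] := by
      rw [Int.emod_def, Int.emod_def]
      refine Int.modEq_iff_dvd.2 ⟨a * x i / m + b * x i / n, ?_⟩
      linear_combination (-(x i)) * hab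
    rw [h1]
    refine Int.emod_eq_of_lt (hx1 i).1 ?_
    have := (hx1 i).2
    push_cast at this
    exact this
  · rintro ⟨x, y⟩ _
    show ee ((dot h x : ℝ) / m) * ee ((dot h y : ℝ) / n) =
      ee ((dot h (fun k => (n * x k + m * y k) % ((m:ℤ) * n)) : ℝ) / (m * n : ℕ))
    have hmR : (m:ℝ) ≠ 0 := by exact_mod_cast hm.ne'
    have hnR : (n:ℝ) ≠ 0 := by exact_mod_cast hn.ne'
    have h1 : dot h (fun k => (n * x k + m * y k) % ((m:ℤ) * n)) =
        n * dot h x + m * dot h y + (m * n) * (-∑ i, h i * ((n * x i + m * y i) / ((m:ℤ) * n))) := by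
      unfold dot
      rw [mul_neg, mul_sum, mul_sum, mul_sum, ← sum_add_distrib, ← sub_eq_add_neg,
        ← sum_sub_distrib]
      refine sum_congr rfl fun i _ => ?_
      show h i * ((n * x i + m * y i) % ((m:ℤ) * n)) = _
      rw [Int.emod_def]
      ring
    have h2 : ((dot h (fun k => (n * x k + m * y k) % ((m:ℤ) * n)) : ℤ) : ℝ) / ((m * n : ℕ) : ℝ) =
        (dot h x : ℝ) / m + (dot h y : ℝ) / n +
          ((-∑ i, h i * ((n * x i + m * y i) / ((m:ℤ) * n)) : ℤ) : ℝ) := by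
      rw [h1]
      push_cast
      field_simp
    rw [h2, ee_add, ee_add, ee_int, mul_one]

end Pool.Agent.TCub
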