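import Pool.Agent.TCub.Stmts

open Finset

namespace Pool.Agent.TCub

namespace SSprime

/-- roots of a nonzero polynomial of degree at most three -/
theorem cubic_roots {K : Type*} [Field K] [Fintype K] [DecidableEq K] (a b c d : K)
    (h : ¬ (a = 0 ∧ b = 0 ∧ c = 0 ∧ d = 0)) :
    (univ.filter fun u : K => a * u ^ 3 + b * u ^ 2 + c * u + d = 0).card ≤ 3 := by
  classical
  obtain ⟨P, hP⟩ : ∃ P : Cubic K, P = ⟨a, b, c, d⟩ := ⟨_, rfl⟩
  have h0 : P.toPoly ≠ 0 := by
    intro h1
    rw [Cubic.toPoly_eq_zero_iff] at h1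
    rw [hP] at h1
    apply h
    have := congrArg Cubic.a h1
    have h2 := congrArg Cubic.b h1
    have h3 := congrArg Cubic.c h1
    have h4 := congrArg Cubic.d h1
    exact ⟨this, h2, h3, h4⟩
  have hdeg : P.toPoly.natDegree ≤ 3 := by rw [hP]; exact Polynomial.natDegree_cubic_le
  calc (univ.filter fun u : K => a * u ^ 3 + b * u ^ 2 + c * u + d = 0).card
      ≤ P.toPoly.roots.toFinset.card := by
        refine Finset.card_le_card fun u hu => ?_
        rw [Finset.mem_filter] at hu
        rw [Multiset.mem_toFinset, Polynomial.mem_roots h0, Polynomial.IsRoot.def, hP]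
        simp only [Cubic.toPoly, Polynomial.eval_add, Polynomial.eval_mul, Polynomial.eval_C,
          Polynomial.eval_pow, Polynomial.eval_X]
        exact hu.2
    _ ≤ Multiset.card P.toPoly.roots := Multiset.toFinset_card_le _
    _ ≤ P.toPoly.natDegree := Polynomial.card_roots' _
    _ ≤ 3 := hdeg

variable (p : ℕ) [hp : Fact p.Prime]

/-- the cone over the field with `p` elements -/
def T : Finset (Fin 3 → ZMod p) := univ.filter fun x => x 0 ^ 3 + x 1 ^ 3 + x 2 ^ 3 = 0

theorem sum_cone (f : (Fin 3 → ZMod p) → ℂ) :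
    ∑ x ∈ cone p, f (fun i => ((x i : ℤ) : ZMod p)) = ∑ x ∈ T p, f x := by
  refine Finset.sum_bij' (fun x _ => fun i => ((x i : ℤ) : ZMod p))
    (fun y _ => fun i => (((y i).val : ℕ) : ℤ)) ?_ ?_ ?_ ?_ ?_
  · intro x hx
    unfold cone at hx
    rw [Finset.mem_filter] at hx
    unfold T
    rw [Finset.mem_filter]
    refine ⟨Finset.mem_univ _, ?_⟩
    have := (ZMod.intCast_zmod_eq_zero_iff_dvd (F3 x) p).mpr hx.2
    unfold F3 at this
    push_cast at this
    exact this
  · intro y hy
    unfold T at hy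
    rw [Finset.mem_filter] at hy
    unfold cone
    rw [Finset.mem_filter, Fintype.mem_piFinset]
    refine ⟨?_, ?_⟩
    · intro i
      rw [Finset.mem_Ico]
      constructor
      · exact Int.natCast_nonneg _
      · exact_mod_cast ZMod.val_lt (y i)
    · rw [← ZMod.intCast_zmod_eq_zero_iff_dvd]
      unfold F3
      push_cast
      simp only [ZMod.natCast_val, ZMod.cast_id', id]
      exact hy.2
  · intro x hx
    unfold cone at hx
    rw [Finset.mem_filter, Fintype.mem_piFinset] at hx
    funext i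
    have h1 := hx.1 i
    rw [Finset.mem_Ico] at h1
    have : (((x i : ℤ) : ZMod p).val : ℤ) = x i := by
      rw [ZMod.val_intCast, Int.emod_eq_of_lt h1.1 h1.2]
    exact this
  · intro y _
    funext i
    simp
  · intro x _
    rfl

theorem rho_eq : rho p = (T p).card := by
  have := sum_cone p (fun _ => 1)
  simp only [Finset.sum_const, nsmul_eq_mul, mul_one] at this
  exact_mod_cast this

/-- cubes: at most three solutions for each pair -/
theorem card_T : (T p).card ≤ 3 * p ^ 2 := by
  classical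
  have h1 : (T p).card ≤ 3 * ((T p).image fun x => (x 0, x 1)).card := by
    refine Finset.card_le_mul_card_image _ _ ?_
    rintro ⟨a, b⟩ _
    calc ((T p).filter fun x => (x 0, x 1) = (a, b)).card
        ≤ (univ.filter fun u : ZMod p => 1 * u ^ 3 + 0 * u ^ 2 + 0 * u + (a ^ 3 + b ^ 3) = 0).card := by
          refine Finset.card_le_card_of_injOn (fun x => x 2) ?_ ?_
          · intro x hx
            simp only [T, Finset.coe_filter, Finset.mem_filter, Finset.mem_univ, true_and,
              Set.mem_ofPred_eq, Prod.mk.injEq] at hx ⊢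
            obtain ⟨h1, rfl, rfl⟩ := hx
            linear_combination h1
          · intro x hx y hy hxy
            simp only [T, Finset.coe_filter, Finset.mem_filter, Finset.mem_univ, true_and,
              Set.mem_ofPred_eq, Prod.mk.injEq] at hx hy
            funext i
            fin_cases i
            · exact hx.2.1.trans hy.2.1.symm
            · exact hx.2.2.trans hy.2.2.symm
            · exact hxy
      _ ≤ 3 := cubic_roots _ _ _ _ (by simp)
  calc (T p).card ≤ 3 * ((T p).image fun x => (x 0, x 1)).card := h1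
    _ ≤ 3 * (univ : Finset (ZMod p × ZMod p)).card :=
        Nat.mul_le_mul_left _ (Finset.card_le_card (Finset.subset_univ _))
    _ = 3 * p ^ 2 := by
        rw [Finset.card_univ, Fintype.card_prod, ZMod.card]; ring

/-- a nonzero binary form -/
theorem line (h3 : (3 : ZMod p) ≠ 0) (a b : ZMod p) :
    (univ.filter fun w : ZMod p × ZMod p =>
      w.1 ^ 3 + w.2 ^ 3 + (a * w.1 + b * w.2) ^ 3 = 0).card ≤ 4 * p := by
  classical
  have hS : (univ.filter fun w : ZMod p × ZMod p =>
      w.1 ^ 3 + w.2 ^ 3 + (a * w.1 + b * w.2) ^ 3 = 0) ⊆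
      (univ.filter fun w : ZMod p × ZMod p => w.2 = 0) ∪
      (univ.filter fun w : ZMod p × ZMod p =>
      w.2 ≠ 0 ∧ w.1 ^ 3 + w.2 ^ 3 + (a * w.1 + b * w.2) ^ 3 = 0) := by
    intro w hw
    simp only [Finset.mem_union, Finset.mem_filter, Finset.mem_univ, true_and] at hw ⊢
    by_cases h : w.2 = 0
    · exact Or.inl h
    · exact Or.inr ⟨h, hw⟩
  have h1 : (univ.filter fun w : ZMod p × ZMod p => w.2 = 0).card ≤ p := by
    calc (univ.filter fun w : ZMod p × ZMod p => w.2 = 0).card
        ≤ (univ : Finset (ZMod p)).card := by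
          refine Finset.card_le_card_of_injOn (fun w => w.1) (fun _ _ => Finset.mem_univ _) ?_
          intro x hx y hy hxy
          simp only [Finset.coe_filter, Finset.mem_univ, true_and, Set.mem_ofPred_eq] at hx hy
          exact Prod.ext hxy (hx.trans hy.symm)
      _ = p := by rw [Finset.card_univ, ZMod.card]
  have h2 : (univ.filter fun w : ZMod p × ZMod p =>
      w.2 ≠ 0 ∧ w.1 ^ 3 + w.2 ^ 3 + (a * w.1 + b * w.2) ^ 3 = 0).card ≤ 3 * p := by
    have h4 : (univ.filter fun w : ZMod p × ZMod p =>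
      w.2 ≠ 0 ∧ w.1 ^ 3 + w.2 ^ 3 + (a * w.1 + b * w.2) ^ 3 = 0).card ≤
        3 * ((univ.filter fun w : ZMod p × ZMod p =>
      w.2 ≠ 0 ∧ w.1 ^ 3 + w.2 ^ 3 + (a * w.1 + b * w.2) ^ 3 = 0).image fun w => w.2).card := by
      refine Finset.card_le_mul_card_image _ _ ?_
      intro v hv
      have hv0 : v ≠ 0 := by
        rw [Finset.mem_image] at hv
        obtain ⟨w, hw, rfl⟩ := hv
        rw [Finset.mem_filter] at hw
        exact hw.2.1
      calc ((univ.filter fun w : ZMod p × ZMod p =>
          w.2 ≠ 0 ∧ w.1 ^ 3 + w.2 ^ 3 + (a * w.1 + b * w.2) ^ 3 = 0).filter fun w => w.2 = v).card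
          ≤ (univ.filter fun u : ZMod p => (1 + a ^ 3) * u ^ 3 + (3 * a ^ 2 * b * v) * u ^ 2 +
              (3 * a * b ^ 2 * v ^ 2) * u + (1 + b ^ 3) * v ^ 3 = 0).card := by
            refine Finset.card_le_card_of_injOn (fun x => x.1) ?_ ?_
            · intro x hx
              simp only [Finset.coe_filter, Finset.mem_filter, Finset.mem_univ, true_and,
                Set.mem_ofPred_eq] at hx ⊢
              obtain ⟨⟨_, h1⟩, rfl⟩ := hx
              linear_combination h1
            · intro x hx y hy hxy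
              simp only [Finset.coe_filter, Finset.mem_filter, Finset.mem_univ, true_and,
                Set.mem_ofPred_eq] at hx hy
              exact Prod.ext hxy (hx.2.trans hy.2.symm)
        _ ≤ 3 := by
            refine cubic_roots _ _ _ _ ?_
            rintro ⟨e1, e2, _, e4⟩
            have ha : a ≠ 0 := by
              rintro rfl
              simp at e1
            have hb : b ≠ 0 := by
              rintro rfl
              simp [hv0] at e4
            have : 3 * a ^ 2 * b * v ≠ 0 :=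
              mul_ne_zero (mul_ne_zero (mul_ne_zero h3 (pow_ne_zero _ ha)) hb) hv0
            exact this e2
    calc _ ≤ _ := h4
      _ ≤ 3 * (univ : Finset (ZMod p)).card :=
          Nat.mul_le_mul_left _ (Finset.card_le_card (Finset.subset_univ _))
      _ = 3 * p := by rw [Finset.card_univ, ZMod.card]
  calc _ ≤ _ := Finset.card_le_card hS
    _ ≤ _ := Finset.card_union_le _ _
    _ ≤ p + 3 * p := Nat.add_le_add h1 h2
    _ = 4 * p := by ring

/-- scalar product mod `p` -/
def dz (h x : Fin 3 → ZMod p) : ZMod p := ∑ i, h i * x i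

theorem card_A (h3 : (3 : ZMod p) ≠ 0) (h : Fin 3 → ZMod p) (hh : ∃ i, h i ≠ 0) :
    ((T p).filter fun x => dz p h x = 0).card ≤ 4 * p := by
  classical
  obtain ⟨i, hi⟩ := hh
  -- general: an index `i` with the two others `j k`
  have main : ∀ j k : Fin 3, (∀ x : Fin 3 → ZMod p, x ∈ T p → x j ^ 3 + x k ^ 3 + x i ^ 3 = 0) →
      (∀ x : Fin 3 → ZMod p, dz p h x = h j * x j + h k * x k + h i * x i) →
      (∀ x y : Fin 3 → ZMod p, x j = y j → x k = y k → x i = y i → x = y) →
      ((T p).filter fun x => dz p h x = 0).card ≤ 4 * p := by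
    intro j k e1 e2 e3
    have hxi : ∀ x : Fin 3 → ZMod p, dz p h x = 0 →
        x i = (-h j / h i) * x j + (-h k / h i) * x k := by
      intro x hx
      rw [e2] at hx
      field_simp
      linear_combination hx
    calc ((T p).filter fun x => dz p h x = 0).card
        ≤ (univ.filter fun w : ZMod p × ZMod p =>
            w.1 ^ 3 + w.2 ^ 3 + ((-h j / h i) * w.1 + (-h k / h i) * w.2) ^ 3 = 0).card := by
          refine Finset.card_le_card_of_injOn (fun x => (x j, x k)) ?_ ?_
          · intro x hx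
            simp only [Finset.coe_filter, Finset.mem_filter, Finset.mem_univ, true_and,
              Set.mem_ofPred_eq] at hx ⊢
            rw [← hxi x hx.2]
            exact e1 x hx.1
          · intro x hx y hy hxy
            simp only [Finset.coe_filter, Set.mem_ofPred_eq] at hx hy
            simp only [Prod.mk.injEq] at hxy
            refine e3 x y hxy.1 hxy.2 ?_
            rw [hxi x hx.2, hxi y hy.2, hxy.1, hxy.2]
      _ ≤ 4 * p := line p h3 _ _
  have hT : ∀ x : Fin 3 → ZMod p, x ∈ T p → x 0 ^ 3 + x 1 ^ 3 + x 2 ^ 3 = 0 := by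
    intro x hx
    unfold T at hx
    rw [Finset.mem_filter] at hx
    exact hx.2
  fin_cases i
  · refine main 1 2 ?_ ?_ ?_
    · intro x hx; have := hT x hx; simp only [Fin.zero_eta]; linear_combination this
    · intro x; unfold dz; rw [Fin.sum_univ_three]; simp only [Fin.zero_eta]; ring
    · intro x y h1 h2 h0; funext i; fin_cases i
      · exact h0
      · exact h1
      · exact h2
  · refine main 0 2 ?_ ?_ ?_
    · intro x hx; have := hT x hx; simp only [Fin.mk_one]; linear_combination this
    · intro x; unfold dz; rw [Fin.sum_univ_three]; simp only [Fin.mk_one]; ring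
    · intro x y h1 h2 h0; funext i; fin_cases i
      · exact h1
      · exact h0
      · exact h2
  · refine main 0 1 ?_ ?_ ?_
    · intro x hx; have := hT x hx; simp only [Fin.reduceFinMk]; linear_combination this
    · intro x; unfold dz; rw [Fin.sum_univ_three]; simp only [Fin.reduceFinMk]
    · intro x y h1 h2 h0; funext i; fin_cases i
      · exact h1
      · exact h2
      · exact h0

theorem SS_eq (h : Fin 3 → ℤ) :
    SS p h = ∑ x ∈ T p, ZMod.stdAddChar (dz p (fun i => ((h i : ℤ) : ZMod p)) x) := by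
  rw [← sum_cone]
  unfold SS
  refine Finset.sum_congr rfl fun x _ => ?_
  have : dz p (fun i => ((h i : ℤ) : ZMod p)) (fun i => ((x i : ℤ) : ZMod p)) =
      ((dot h x : ℤ) : ZMod p) := by
    unfold dz dot
    push_cast
    rfl
  rw [this, ZMod.stdAddChar_coe]
  unfold ee
  congr 1
  push_cast
  ring

/-- dilation invariance -/
theorem dil (h : Fin 3 → ZMod p) (t : ZMod p) (ht : t ≠ 0) :
    ∑ x ∈ T p, (ZMod.stdAddChar (dz p h x * t) : ℂ) = ∑ x ∈ T p, ZMod.stdAddChar (dz p h x) := by
  refine Finset.sum_bij' (fun x _ => fun i => x i * t) (fun x _ => fun i => x i * t⁻¹) ?_ ?_ ?_ ?_ ?_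
  · intro x hx
    unfold T at hx ⊢
    rw [Finset.mem_filter] at hx ⊢
    refine ⟨Finset.mem_univ _, ?_⟩
    linear_combination t ^ 3 * hx.2
  · intro x hx
    unfold T at hx ⊢
    rw [Finset.mem_filter] at hx ⊢
    refine ⟨Finset.mem_univ _, ?_⟩
    linear_combination t⁻¹ ^ 3 * hx.2
  · intro x _
    funext i
    field_simp
  · intro x _
    funext i
    field_simp
  · intro x _
    have : dz p h (fun i => x i * t) = dz p h x * t := by
      unfold dz
      rw [Finset.sum_mul]
      refine Finset.sum_congr rfl fun i _ => ?_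
      ring
    rw [this]

theorem average (h : Fin 3 → ZMod p) :
    ((p:ℂ) - 1) * ∑ x ∈ T p, (ZMod.stdAddChar (dz p h x) : ℂ) =
      p * (((T p).filter fun x => dz p h x = 0).card : ℂ) - ((T p).card : ℂ) := by
  classical
  have h1 : ∑ t : ZMod p, ∑ x ∈ T p, (ZMod.stdAddChar (dz p h x * t) : ℂ) =
      p * (((T p).filter fun x => dz p h x = 0).card : ℂ) := by
    rw [Finset.sum_comm]
    have h2 : ∀ x ∈ T p, ∑ t : ZMod p, (ZMod.stdAddChar (dz p h x * t) : ℂ) =
        if dz p h x = 0 then (p:ℂ) else 0 := by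
      intro x _
      have h3 := AddChar.sum_mulShift (R := ZMod p) (R' := ℂ) (ψ := ZMod.stdAddChar) (dz p h x)
        (ZMod.isPrimitive_stdAddChar p)
      rw [ZMod.card] at h3
      simp only [mul_comm] at h3 ⊢
      rw [h3]
      split_ifs <;> simp
    rw [Finset.sum_congr rfl h2, ← Finset.sum_filter, Finset.sum_const, nsmul_eq_mul, mul_comm]
  have h2 : ∑ t : ZMod p, ∑ x ∈ T p, (ZMod.stdAddChar (dz p h x * t) : ℂ) =
      ((T p).card : ℂ) + ((p:ℂ) - 1) * ∑ x ∈ T p, (ZMod.stdAddChar (dz p h x) : ℂ) := by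
    rw [← Finset.add_sum_erase _ _ (Finset.mem_univ (0 : ZMod p))]
    congr 1
    · simp
    · rw [Finset.sum_congr rfl (fun t ht => dil p h t (Finset.ne_of_mem_erase ht)),
        Finset.sum_const, Finset.card_erase_of_mem (Finset.mem_univ _), Finset.card_univ, ZMod.card,
        nsmul_eq_mul, Nat.cast_sub hp.out.one_le]
      simp
  rw [← h1, h2]
  ring

end SSprime

open SSprime in
theorem tSSprime : St_SSprime := by
  intro p hp
  haveI : Fact p.Prime := ⟨hp⟩
  have hr : (rho p : ℝ) ≤ 3 * (p:ℝ) ^ 2 := by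
    rw [rho_eq p]
    exact_mod_cast card_T p
  have hp2 : (2:ℝ) ≤ p := by exact_mod_cast hp.two_le
  refine ⟨by nlinarith, ?_⟩
  intro h hh
  have hee : ∀ t : ℝ, ‖ee t‖ = 1 := by
    intro t
    unfold ee
    rw [show (2 * (Real.pi:ℂ) * (t:ℂ) * Complex.I) = ((2 * Real.pi * t : ℝ) : ℂ) * Complex.I by
      push_cast; ring]
    exact Complex.norm_exp_ofReal_mul_I _
  by_cases hp3 : p ≤ 3
  · have h1 : ‖SS p h‖ ≤ rho p := by
      unfold SS rho
      calc ‖∑ x ∈ cone p, ee ((dot h x : ℝ) / p)‖ ≤ ∑ x ∈ cone p, ‖ee ((dot h x : ℝ) / p)‖ :=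
            norm_sum_le _ _
        _ = _ := by simp only [hee, Finset.sum_const, nsmul_eq_mul, mul_one]
    have hp3' : (p:ℝ) ≤ 3 := by exact_mod_cast hp3
    nlinarith
  · have h3 : (3 : ZMod p) ≠ 0 := by
      intro h0
      have : ((3:ℕ) : ZMod p) = 0 := by exact_mod_cast h0
      rw [ZMod.natCast_eq_zero_iff] at this
      exact hp3 (Nat.le_of_dvd (by norm_num) this)
    have hA := card_A p h3 (fun i => ((h i : ℤ) : ZMod p)) (by
      obtain ⟨i, hi⟩ := hh
      refine ⟨i, fun h0 => hi ?_⟩
      exact (ZMod.intCast_zmod_eq_zero_iff_dvd _ _).mp h0)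
    have hav := average p (fun i => ((h i : ℤ) : ZMod p))
    rw [← SS_eq p h] at hav
    obtain ⟨A, hAe⟩ : ∃ A : ℕ, A = ((T p).filter fun x =>
      dz p (fun i => ((h i : ℤ) : ZMod p)) x = 0).card := ⟨_, rfl⟩
    rw [← hAe] at hav hA
    have hAR : (A:ℝ) ≤ 4 * p := by exact_mod_cast hA
    have hTR : ((T p).card : ℝ) ≤ 3 * (p:ℝ) ^ 2 := by exact_mod_cast card_T p
    have hn : ((p:ℝ) - 1) * ‖SS p h‖ ≤ 4 * (p:ℝ) ^ 2 := by
      have h5 : ‖((p:ℂ) - 1) * SS p h‖ = ((p:ℝ) - 1) * ‖SS p h‖ := by
        rw [norm_mul]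
        congr 1
        rw [show ((p:ℂ) - 1) = (((p:ℝ) - 1 : ℝ) : ℂ) by push_cast; rfl, Complex.norm_real,
          Real.norm_of_nonneg (by linarith)]
      rw [← h5, hav]
      have h6 : (p:ℂ) * (A:ℂ) - ((T p).card : ℂ) = (((p:ℝ) * A - (T p).card : ℝ) : ℂ) := by
        push_cast; rfl
      rw [h6, Complex.norm_real, Real.norm_eq_abs, abs_le]
      have hA0 : (0:ℝ) ≤ A := Nat.cast_nonneg A
      have hT0 : (0:ℝ) ≤ (T p).card := Nat.cast_nonneg _
      constructor
      · nlinarith
      · nlinarith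
    have hp5 : (4:ℝ) ≤ p := by exact_mod_cast (by omega : 4 ≤ p)
    have hS0 := norm_nonneg (SS p h)
    nlinarith

end Pool.Agent.TCub
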