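import Pool.Agent.TCub.Stmts

open Finset

namespace Pool.Agent.TCub

namespace SSs

/-- induction over squarefree numbers -/
lemma sqf_induction {P : ℕ → Prop} (h1 : P 1)
    (hp : ∀ p m : ℕ, p.Prime → Squarefree m → Nat.Coprime p m → P m → P (p * m)) :
    ∀ n : ℕ, Squarefree n → P n := by
  intro n
  induction n using Nat.strong_induction_on with
  | _ n ih =>
    intro hn
    rcases eq_or_ne n 1 with rfl | hn1
    · exact h1
    · have hpr : (n.minFac).Prime := Nat.minFac_prime hn1
      obtain ⟨m, hm⟩ := Nat.minFac_dvd n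
      have hn0 : n ≠ 0 := hn.ne_zero
      have hm0 : m ≠ 0 := by
        rintro rfl
        simp at hm
        exact hn0 hm
      have hsq : Squarefree (n.minFac * m) := hm ▸ hn
      have hcop : Nat.Coprime n.minFac m := Nat.coprime_of_squarefree_mul hsq
      have hmsq : Squarefree m := hsq.of_mul_right
      have hlt : m < n := by
        conv_rhs => rw [hm]
        have := hpr.two_le
        have h0 : 0 < m := Nat.pos_of_ne_zero hm0
        nlinarith
      have := hp n.minFac m hpr hmsq hcop (ih m hlt hmsq)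
      rw [← hm] at this
      exact this

lemma card_pf (p m : ℕ) (hp : p.Prime) (hc : Nat.Coprime p m) (hm : m ≠ 0) :
    (p * m).primeFactors.card = m.primeFactors.card + 1 := by
  rw [Nat.primeFactors_mul hp.ne_zero hm, Finset.card_union_of_disjoint hc.disjoint_primeFactors,
    Nat.Prime.primeFactors hp, Finset.card_singleton, add_comm]

lemma cone_one : cone 1 = {fun _ => 0} := by
  ext x
  simp only [cone, Finset.mem_filter, Fintype.mem_piFinset, Finset.mem_Ico, Finset.mem_singleton]
  constructor
  · rintro ⟨h, _⟩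
    funext i
    have := h i
    push_cast at this
    omega
  · rintro rfl
    exact ⟨fun i => by norm_num, by simp⟩

lemma rho_one : rho 1 = 1 := by
  simp [rho, cone_one]

lemma ee_zero : ee 0 = 1 := by
  simp [ee]

lemma SS_one (h : Fin 3 → ℤ) : SS 1 h = 1 := by
  rw [SS, cone_one, Finset.sum_singleton]
  have : dot h (fun _ => 0) = 0 := by simp [dot]
  rw [this]
  simp [ee_zero]

lemma good_mul (m n : ℕ) (h : Fin 3 → ℤ) : good (m * n) h ↔ good m h ∧ good n h := by
  unfold good
  constructor
  · intro H
    exact ⟨fun p hp hd => H p hp (hd.mul_right _), fun p hp hd => H p hp (hd.mul_left _)⟩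
  · rintro ⟨H1, H2⟩ p hp hd
    rcases (Nat.Prime.dvd_mul hp).1 hd with h1 | h1
    · exact H1 p hp h1
    · exact H2 p hp h1

end SSs

theorem tSSs (hSSmul : St_SSmul) (hSSunit : St_SSunit) (hSSprime : St_SSprime) : St_sS := by
  classical
  have hS0 : ∀ n, SS n (fun _ => 0) = ((rho n : ℝ) : ℂ) := fun n =>
    hSSunit.2.2 n _ (fun i => dvd_zero _)
  have hmul : ∀ m n : ℕ, Nat.Coprime m n → rho (m * n) = rho m * rho n := by
    intro m n hmn
    have h1 := hSSmul m n hmn (fun _ => 0)
    rw [hS0, hS0, hS0] at h1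
    exact_mod_cast h1
  have hsmul : ∀ m n : ℕ, Nat.Coprime m n → ∀ h : Fin 3 → ℤ, sS (m * n) h = sS m h * sS n h := by
    intro m n hmn h
    unfold sS
    rw [show good (m * n) h ↔ good m h ∧ good n h from SSs.good_mul m n h]
    by_cases h1 : good m h
    · by_cases h2 : good n h
      · rw [if_pos ⟨h1, h2⟩, if_pos h1, if_pos h2]
        unfold sn
        rw [hSSmul m n hmn h]
        push_cast
        rw [div_mul_div_comm]
      · rw [if_neg (fun h3 => h2 h3.2), if_neg h2, mul_zero]
    · rw [if_neg (fun h3 => h1 h3.1), if_neg h1, zero_mul]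
  refine ⟨hmul, ?_, hsmul, ?_⟩
  · refine SSs.sqf_induction ?_ ?_
    · simp [SSs.rho_one]
    · intro p m hp hm hc ih
      rw [hmul p m hc, SSs.card_pf p m hp hc hm.ne_zero]
      have h1 := (hSSprime p hp).1
      push_cast
      calc (rho p : ℝ) * rho m ≤ (4 * (p:ℝ) ^ 2) * (4 ^ m.primeFactors.card * (m:ℝ) ^ 2) :=
            mul_le_mul h1 ih (Nat.cast_nonneg _) (by positivity)
        _ = 4 ^ (m.primeFactors.card + 1) * ((p:ℝ) * m) ^ 2 := by ring
  · intro n hn h
    revert n
    refine SSs.sqf_induction ?_ ?_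
    · have hg : good 1 h := by
        intro p hp hd
        exact absurd (Nat.dvd_one.1 hd) hp.one_lt.ne'
      simp only [sS, if_pos hg, sn, SSs.SS_one]
      simp
    · intro p m hp hm hc ih
      rw [hsmul p m hc, SSs.card_pf p m hp hc hm.ne_zero, norm_mul, pow_succ, mul_comm ((10:ℝ) ^ _)]
      refine mul_le_mul ?_ ih (norm_nonneg _) (by norm_num)
      unfold sS
      split_ifs with hg
      · have h1 := (hSSprime p hp).2 h (hg p hp dvd_rfl)
        unfold sn
        have hp0 : (0:ℝ) < p := by exact_mod_cast hp.pos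
        rw [norm_div, Complex.norm_natCast, div_le_iff₀ hp0]
        exact h1
      · simp

end Pool.Agent.TCub
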