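import Pool.Agent.TCub.Stmts

open Finset

namespace Pool.Agent.TCub

namespace SSunit

lemma ee_add_int (t : ℝ) (m : ℤ) : ee (t + m) = ee t := by
  unfold ee
  rw [show (2 * (Real.pi : ℂ) * ((t + m : ℝ) : ℂ) * Complex.I)
    = 2 * Real.pi * t * Complex.I + m * (2 * Real.pi * Complex.I) by push_cast; ring]
  rw [Complex.exp_add, Complex.exp_int_mul_two_pi_mul_I, mul_one]

lemma ee_congr {n : ℕ} (hn : n ≠ 0) {a b : ℤ} (h : (n:ℤ) ∣ a - b) :
    ee ((a:ℝ) / n) = ee ((b:ℝ) / n) := by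
  obtain ⟨c, hc⟩ := h
  have h0 : (n:ℝ) ≠ 0 := by exact_mod_cast hn
  have : (a:ℝ) / n = (b:ℝ) / n + (c:ℤ) := by
    have hc' : (a:ℝ) - b = n * c := by exact_mod_cast hc
    field_simp
    linarith
  rw [this, ee_add_int]

lemma mem_cone {d : ℕ} {x : Fin 3 → ℤ} :
    x ∈ cone d ↔ (∀ i, 0 ≤ x i ∧ x i < d) ∧ (d:ℤ) ∣ F3 x := by
  simp [cone, Fintype.mem_piFinset]

lemma cone_zero : cone 0 = ∅ := by
  ext x
  simp only [mem_cone]
  constructor
  · intro h
    have := h.1 0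
    simp at this
    omega
  · intro h
    simp at h

lemma partB (n : ℕ) (h h' : Fin 3 → ℤ) (hh : ∀ i, (n:ℤ) ∣ h i - h' i) : SS n h = SS n h' := by
  rcases Nat.eq_zero_or_pos n with rfl | hn
  · simp [SS, cone_zero]
  · unfold SS
    apply Finset.sum_congr rfl
    intro x _
    have : (n:ℤ) ∣ dot h x - dot h' x := by
      unfold dot
      rw [← Finset.sum_sub_distrib]
      apply Finset.dvd_sum
      intro i _
      rw [← sub_mul]
      exact Dvd.dvd.mul_right (hh i) _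
    exact ee_congr hn.ne' this

lemma F3_congr {n : ℤ} {x y : Fin 3 → ℤ} (h : ∀ i, n ∣ x i - y i) : n ∣ F3 x - F3 y := by
  unfold F3
  have key : ∀ i, n ∣ x i ^ 3 - y i ^ 3 := fun i =>
    (h i).trans (sub_dvd_pow_sub_pow (x i) (y i) 3)
  have : x 0 ^ 3 + x 1 ^ 3 + x 2 ^ 3 - (y 0 ^ 3 + y 1 ^ 3 + y 2 ^ 3)
      = (x 0 ^ 3 - y 0 ^ 3) + (x 1 ^ 3 - y 1 ^ 3) + (x 2 ^ 3 - y 2 ^ 3) := by ring
  rw [this]
  exact dvd_add (dvd_add (key 0) (key 1)) (key 2)

/-- scaling map mod `n` -/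
def sc (n : ℕ) (k : ℤ) (x : Fin 3 → ℤ) : Fin 3 → ℤ := fun i => (k * x i) % n

lemma sc_mem {n : ℕ} (hn : 0 < n) (k : ℤ) {x : Fin 3 → ℤ} (hx : x ∈ cone n) :
    sc n k x ∈ cone n := by
  have hn' : (0:ℤ) < n := by exact_mod_cast hn
  rw [mem_cone] at hx ⊢
  refine ⟨fun i => ⟨Int.emod_nonneg _ hn'.ne', Int.emod_lt_of_pos _ hn'⟩, ?_⟩
  have h1 : (n:ℤ) ∣ F3 (sc n k x) - F3 (fun i => k * x i) := by
    apply F3_congr
    intro i
    have := Int.emod_add_mul_ediv (k * x i) n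
    refine ⟨-((k * x i) / n), ?_⟩
    unfold sc
    linarith
  have h2 : (n:ℤ) ∣ F3 (fun i => k * x i) := by
    have : F3 (fun i => k * x i) = k ^ 3 * F3 x := by unfold F3; ring
    rw [this]
    exact Dvd.dvd.mul_left hx.2 _
  have := dvd_add h1 h2
  simpa using this

lemma sc_sc {n : ℕ} {k l m : ℤ} (hkl : l * k + m * n = 1) {x : Fin 3 → ℤ}
    (hx : x ∈ cone n) : sc n l (sc n k x) = x := by
  rw [mem_cone] at hx
  funext i
  unfold sc
  have h1 : (l * ((k * x i) % n)) % n = (l * (k * x i)) % n := by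
    rw [Int.mul_emod, Int.emod_emod_of_dvd _ (dvd_refl _), ← Int.mul_emod]
  rw [h1]
  have h2 : l * (k * x i) = x i + (-(m * x i)) * n := by
    have : l * k = 1 - m * n := by linarith
    calc l * (k * x i) = (l * k) * x i := by ring
      _ = (1 - m * n) * x i := by rw [this]
      _ = _ := by ring
  rw [h2, Int.add_mul_emod_self_right]
  exact Int.emod_eq_of_lt (hx.1 i).1 (hx.1 i).2

lemma partA (n : ℕ) (k : ℤ) (hk : IsCoprime k (n:ℤ)) (h : Fin 3 → ℤ) :
    SS n (fun i => k * h i) = SS n h := by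
  rcases Nat.eq_zero_or_pos n with rfl | hn
  · simp [SS, cone_zero]
  · obtain ⟨l, m, hlm⟩ := hk
    have hlm' : k * l + m * n = 1 := by rw [mul_comm k l]; exact hlm
    unfold SS
    refine Finset.sum_nbij' (sc n k) (sc n l) (fun x hx => sc_mem hn k hx)
      (fun x hx => sc_mem hn l hx) (fun x hx => sc_sc hlm hx) (fun x hx => sc_sc hlm' hx) ?_
    intro x _
    apply ee_congr hn.ne'
    unfold dot sc
    rw [← Finset.sum_sub_distrib]
    apply Finset.dvd_sum
    intro i _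
    have := Int.emod_add_mul_ediv (k * x i) n
    refine ⟨h i * ((k * x i) / n), ?_⟩
    have h2 : k * x i = (k * x i) % n + n * ((k * x i) / n) := by linarith
    calc k * h i * x i - h i * ((k * x i) % n)
        = h i * (k * x i - (k * x i) % n) := by ring
      _ = h i * (n * ((k * x i) / n)) := by congr 1; linarith
      _ = _ := by ring

lemma partC (n : ℕ) (h : Fin 3 → ℤ) (hh : ∀ i, (n:ℤ) ∣ h i) : SS n h = ((rho n : ℝ) : ℂ) := by
  rw [partB n h (fun _ => 0) (fun i => by simpa using hh i)]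
  unfold SS rho dot
  have : ∀ x ∈ cone n, ee (((∑ i : Fin 3, (0:ℤ) * x i : ℤ) : ℝ) / n) = 1 := by
    intro x _
    simp [ee]
  rw [Finset.sum_congr rfl this]
  simp

end SSunit

theorem tSSunit : St_SSunit :=
  ⟨SSunit.partA, SSunit.partB, SSunit.partC⟩

end Pool.Agent.TCub
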