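import Pool.Agent.TCub.Stmts

open Finset

namespace Pool.Agent.TCub

namespace Slack

theorem ed_nonneg (N j : ℕ) : 0 ≤ ed N j := by
  unfold ed
  positivity

theorem tv_add (N : ℕ) (a b : Multiset ℕ) : tv N (a + b) = tv N a + tv N b := by
  unfold tv
  rw [Multiset.map_add, Multiset.sum_add]

theorem tv_zero (N : ℕ) : tv N 0 = 0 := by
  unfold tv
  simp

theorem tv_single (N j : ℕ) : tv N {j} = ed N j := by
  unfold tv
  simp

theorem tv_cons (N j : ℕ) (a : Multiset ℕ) : tv N (j ::ₘ a) = ed N j + tv N a := by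
  unfold tv
  simp

theorem tv_nonneg (N : ℕ) (a : Multiset ℕ) : 0 ≤ tv N a := by
  unfold tv
  apply Multiset.sum_nonneg
  intro x hx
  rw [Multiset.mem_map] at hx
  obtain ⟨j, -, rfl⟩ := hx
  exact ed_nonneg N j

theorem tv_mono (N : ℕ) {a b : Multiset ℕ} (h : a ≤ b) : tv N a ≤ tv N b := by
  obtain ⟨c, rfl⟩ := Multiset.le_iff_exists_add.1 h
  rw [tv_add]
  have := tv_nonneg N c
  linarith

/-- the greedy algorithm for the small items -/
theorem greedy (N : ℕ) (h κ : ℝ) (b₁ b₂ : Multiset ℕ) (h1 : tv N b₁ ≤ h) (h2 : tv N b₂ ≤ h)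
    (S : Multiset ℕ) (hS : ∀ j ∈ S, ed N j ≤ κ) :
    ∃ c₁ c₂ : Multiset ℕ, c₁ + c₂ ≤ S ∧ tv N b₁ + tv N c₁ ≤ h ∧ tv N b₂ + tv N c₂ ≤ h ∧
      (c₁ + c₂ = S ∨ (h - κ < tv N b₁ + tv N c₁ ∧ h - κ < tv N b₂ + tv N c₂)) := by
  induction S using Multiset.induction_on with
  | empty =>
    refine ⟨0, 0, le_rfl, ?_, ?_, Or.inl rfl⟩
    · rw [tv_zero]; linarith
    · rw [tv_zero]; linarith
  | cons a S ih =>
    obtain ⟨c₁, c₂, e1, e2, e3, e4⟩ := ih (fun j hj => hS j (Multiset.mem_cons_of_mem hj))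
    have ha := hS a (Multiset.mem_cons_self a S)
    rcases e4 with e4 | e4
    · by_cases f1 : tv N b₁ + tv N c₁ + ed N a ≤ h
      · refine ⟨a ::ₘ c₁, c₂, ?_, ?_, e3, Or.inl ?_⟩
        · rw [Multiset.cons_add, e4]
        · rw [tv_cons]; linarith
        · rw [Multiset.cons_add, e4]
      · by_cases f2 : tv N b₂ + tv N c₂ + ed N a ≤ h
        · refine ⟨c₁, a ::ₘ c₂, ?_, e2, ?_, Or.inl ?_⟩
          · rw [Multiset.add_cons, e4]
          · rw [tv_cons]; linarith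
          · rw [Multiset.add_cons, e4]
        · refine ⟨c₁, c₂, le_trans e1 (Multiset.le_cons_self S a), e2, e3, Or.inr ⟨?_, ?_⟩⟩
          · linarith
          · linarith
    · exact ⟨c₁, c₂, le_trans e1 (Multiset.le_cons_self S a), e2, e3, Or.inr e4⟩

theorem two (N : ℕ) (h : ℝ) (h0 : 0 ≤ h) (R : Multiset ℕ) (hR : Multiset.card R ≤ 2)
    (hR2 : ∀ j ∈ R, ed N j ≤ h) : ∃ p₁ p₂, p₁ + p₂ = R ∧ tv N p₁ ≤ h ∧ tv N p₂ ≤ h := by
  rcases Nat.lt_or_ge (Multiset.card R) 1 with h1 | h1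
  · have h2 : Multiset.card R = 0 := by omega
    rw [Multiset.card_eq_zero] at h2
    subst h2
    exact ⟨0, 0, rfl, by rw [tv_zero]; exact h0, by rw [tv_zero]; exact h0⟩
  · rcases Nat.lt_or_ge (Multiset.card R) 2 with h2 | h2
    · obtain ⟨a, rfl⟩ := Multiset.card_eq_one.1 (by omega : Multiset.card R = 1)
      refine ⟨{a}, 0, by simp, ?_, by rw [tv_zero]; exact h0⟩
      rw [tv_single]
      exact hR2 a (by simp)
    · obtain ⟨a, b, rfl⟩ := Multiset.card_eq_two.1 (by omega : Multiset.card R = 2)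
      refine ⟨{a}, {b}, by simp, ?_, ?_⟩
      · rw [tv_single]; exact hR2 a (by simp)
      · rw [tv_single]; exact hR2 b (by simp)

/-- placement of the large items -/
theorem large (N : ℕ) (m L : Multiset ℕ) (hL : L ≤ m) (hc : Multiset.card L ≤ 3)
    (hSC : ∀ j ∈ m, 425 / 1000 < ed N j → tv N m + ed N j / 3 < 199 / 100 ∧
      ∀ i ∈ m.erase j, ed N i ≤ 425 / 1000) (T : ℝ) (hT : T ≤ tv N m) (hT1 : 149 / 100 ≤ T)
    (hT2 : T < 17001 / 10000) :
    ∃ p₁ p₂ s : Multiset ℕ, p₁ + p₂ + s = L ∧ tv N p₁ ≤ T - 1 ∧ tv N p₂ ≤ T - 1 ∧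
      tv N s ≤ 6 - 3 * T - 1 / 50 := by
  by_cases h1 : ∃ j ∈ L, T - 1 < ed N j
  · obtain ⟨j, hj, hj1⟩ := h1
    have hjm : j ∈ m := Multiset.mem_of_le hL hj
    obtain ⟨h2, h3⟩ := hSC j hjm (by linarith)
    obtain ⟨p₁, p₂, e1, e2, e3⟩ := two N (T - 1) (by linarith) (L.erase j)
      (by rw [Multiset.card_erase_of_mem hj, Nat.pred_eq_sub_one]; omega)
      (fun i hi => by
        have := h3 i (Multiset.mem_of_le (Multiset.erase_le_erase j hL) hi)
        linarith)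
    refine ⟨p₁, p₂, {j}, ?_, e2, e3, ?_⟩
    · rw [e1, add_comm, Multiset.singleton_add, Multiset.cons_erase hj]
    · rw [tv_single]; linarith
  · push Not at h1
    rcases Nat.lt_or_ge (Multiset.card L) 3 with h2 | h2
    · obtain ⟨p₁, p₂, e1, e2, e3⟩ := two N (T - 1) (by linarith) L (by omega) h1
      exact ⟨p₁, p₂, 0, by rw [add_zero, e1], e2, e3, by rw [tv_zero]; linarith⟩
    · obtain ⟨a, b, c, hL3⟩ := Multiset.card_eq_three.1 (by omega : Multiset.card L = 3)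
      have h3 : ∃ j ∈ L, ed N j ≤ 425 / 1000 := by
        by_cases ha : ed N a ≤ 425 / 1000
        · exact ⟨a, by rw [hL3]; simp, ha⟩
        · push Not at ha
          have ham : a ∈ m := Multiset.mem_of_le hL (by rw [hL3]; simp)
          have hb : b ∈ m.erase a := by
            refine Multiset.mem_of_le (Multiset.erase_le_erase a hL) ?_
            rw [hL3]
            simp
          exact ⟨b, by rw [hL3]; simp, (hSC a ham ha).2 b hb⟩
      obtain ⟨j, hj, hj1⟩ := h3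
      obtain ⟨p₁, p₂, e1, e2, e3⟩ := two N (T - 1) (by linarith) (L.erase j)
        (by rw [Multiset.card_erase_of_mem hj, Nat.pred_eq_sub_one]; omega)
        (fun i hi => h1 i (Multiset.mem_of_mem_erase hi))
      refine ⟨p₁, p₂, {j}, ?_, e2, e3, ?_⟩
      · rw [e1, add_comm, Multiset.singleton_add, Multiset.cons_erase hj]
      · rw [tv_single]; linarith

end Slack

open Slack in
theorem tSlack : St_slack := by
  intro N m hN hSC n hn hT1
  obtain ⟨h1, h2, h3⟩ := hSC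
  have hT : tv N n ≤ tv N m := tv_mono N hn
  have hT2 : tv N n < 17001 / 10000 := by linarith
  obtain ⟨L, hL⟩ : ∃ L, L = n.filter (fun j => 2865 / 10000 < ed N j) := ⟨_, rfl⟩
  obtain ⟨S, hS⟩ : ∃ S, S = n.filter (fun j => ¬ 2865 / 10000 < ed N j) := ⟨_, rfl⟩
  have hLS : L + S = n := by rw [hL, hS]; exact Multiset.filter_add_not _ _
  have hLm : L ≤ m := by
    rw [hL]
    exact le_trans (Multiset.filter_le _ _) hn
  have hLc : Multiset.card L ≤ 3 := by
    refine le_trans (Multiset.card_le_card ?_) h2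
    rw [hL]
    exact Multiset.filter_le_filter _ hn
  obtain ⟨p₁, p₂, s, e1, e2, e3, e4⟩ := large N m L hLm hLc h3 (tv N n) hT hT1 hT2
  obtain ⟨c₁, c₂, f1, f2, f3, f4⟩ := greedy N (tv N n - 1) (2 - tv N n - 1 / 100) p₁ p₂ e2 e3 S
    (fun j hj => by
      rw [hS, Multiset.mem_filter] at hj
      have := hj.2
      push Not at this
      linarith)
  refine ⟨p₁ + c₁, p₂ + c₂, ?_, ?_, ?_, ?_⟩
  · rw [← hLS, ← e1]
    have g1 : p₁ + c₁ + (p₂ + c₂) = p₁ + p₂ + (c₁ + c₂) := by abel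
    rw [g1]
    exact add_le_add (Multiset.le_add_right _ _) f1
  · rw [tv_add]; exact f2
  · rw [tv_add]; exact f3
  · rw [tv_add, tv_add]
    rcases f4 with f4 | f4
    · have g1 : tv N n = tv N p₁ + tv N p₂ + tv N s + (tv N c₁ + tv N c₂) := by
        rw [← tv_add, ← tv_add, ← tv_add, ← tv_add, f4, e1, hLS]
      linarith
    · linarith [f4.1, f4.2]

end Pool.Agent.TCub
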