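import Pool.Agent.TCub.Stmts

open Finset

namespace Pool.Agent.TCub

namespace Split3

theorem typ_mul {M N a b : ℕ} (h : Nat.Coprime a b) : typ M N (a * b) = typ M N a + typ M N b := by
  unfold typ
  rw [Nat.Coprime.primeFactors_mul h, Finset.union_val,
    ← Multiset.add_eq_union_iff_disjoint.2 (Finset.disjoint_val.2 h.disjoint_primeFactors),
    Multiset.map_add]

theorem pf_mul {a b : ℕ} (h : Nat.Coprime a b) (u : ℕ) :
    (∀ p ∈ (a * b).primeFactors, u ≤ p) ↔
      (∀ p ∈ a.primeFactors, u ≤ p) ∧ (∀ p ∈ b.primeFactors, u ≤ p) := by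
  rw [Nat.Coprime.primeFactors_mul h]
  constructor
  · intro h1
    exact ⟨fun p hp => h1 p (Finset.mem_union_left _ hp), fun p hp => h1 p (Finset.mem_union_right _ hp)⟩
  · rintro ⟨h1, h2⟩ p hp
    rcases Finset.mem_union.1 hp with h3 | h3
    · exact h1 p h3
    · exact h2 p h3

/-- the number of divisors of a given type depends only on the type -/
theorem count_typ (M N d : ℕ) (hd : Squarefree d) (b : Multiset ℕ) :
    (d.divisors.filter (fun x => typ M N x = b)).card =
      Multiset.count b (Multiset.powersetCard (Multiset.card b) (typ M N d)) := by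
  have h1 : Multiset.count b (Multiset.powersetCard (Multiset.card b) (typ M N d)) =
      ((d.primeFactors.powersetCard (Multiset.card b)).filter
        (fun A => b = A.val.map (lab M N))).card := by
    conv_lhs => rw [typ, Multiset.powersetCard_map, ← Finset.map_val_val_powersetCard,
      Multiset.map_map, Multiset.count_map]
    rfl
  rw [h1]
  refine Finset.card_bij' (fun x _ => x.primeFactors) (fun A _ => ∏ p ∈ A, p) ?_ ?_ ?_ ?_
  · intro x hx
    rw [Finset.mem_filter, Nat.mem_divisors] at hx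
    obtain ⟨⟨h2, h3⟩, h4⟩ := hx
    rw [Finset.mem_filter, Finset.mem_powersetCard]
    refine ⟨⟨Nat.primeFactors_mono h2 h3, ?_⟩, ?_⟩
    · rw [← h4]
      unfold typ
      rw [Multiset.card_map]
      rfl
    · rw [← h4]; rfl
  · intro A hA
    rw [Finset.mem_filter, Finset.mem_powersetCard] at hA
    obtain ⟨⟨h2, h3⟩, h4⟩ := hA
    have hpf : (∏ p ∈ A, p).primeFactors = A :=
      Nat.primeFactors_prod (fun p hp => Nat.prime_of_mem_primeFactors (h2 hp))
    rw [Finset.mem_filter, Nat.mem_divisors]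
    refine ⟨⟨?_, hd.ne_zero⟩, ?_⟩
    · have h5 := Nat.prod_primeFactors_of_squarefree hd
      conv_rhs => rw [← h5]
      exact Finset.prod_dvd_prod_of_subset _ _ _ h2
    · unfold typ
      rw [hpf, h4]
  · intro x hx
    rw [Finset.mem_filter, Nat.mem_divisors] at hx
    exact Nat.prod_primeFactors_of_squarefree (hd.squarefree_of_dvd hx.1.1)
  · intro A hA
    rw [Finset.mem_filter, Finset.mem_powersetCard] at hA
    exact Nat.primeFactors_prod (fun p hp => Nat.prime_of_mem_primeFactors (hA.1.1 hp))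

/-- splitting into two blocks -/
theorem two (hD1 : ∀ (M N u : ℕ) (m : Multiset ℕ) (d : ℕ), 2 ≤ M → 1 ≤ N →
    (d ∈ Dcl M N u m ↔ Squarefree d ∧ (∀ p ∈ d.primeFactors, u ≤ p) ∧ typ M N d = m))
    (M N u : ℕ) (b b' : Multiset ℕ) (hM : 2 ≤ M) (hN : 1 ≤ N) (ψ : ℕ → ℝ) :
    ((Multiset.count b (Multiset.powersetCard (Multiset.card b) (b + b')) : ℕ) : ℝ) *
      ∑ d ∈ Dcl M N u (b + b'), ψ d =
      ∑ x ∈ Dcl M N u b, ∑ y ∈ Dcl M N u b', (if Squarefree (x * y) then ψ (x * y) else 0) := by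
  have hmem : ∀ (m : Multiset ℕ) (d : ℕ), d ∈ Dcl M N u m ↔
      Squarefree d ∧ (∀ p ∈ d.primeFactors, u ≤ p) ∧ typ M N d = m :=
    fun m d => hD1 M N u m d hM hN
  have e1 : ((Multiset.count b (Multiset.powersetCard (Multiset.card b) (b + b')) : ℕ) : ℝ) *
      ∑ d ∈ Dcl M N u (b + b'), ψ d =
      ∑ d ∈ Dcl M N u (b + b'), ∑ x ∈ d.divisors.filter (fun x => typ M N x = b), ψ d := by
    rw [Finset.mul_sum]
    refine Finset.sum_congr rfl (fun d hd => ?_)
    rw [hmem] at hd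
    rw [Finset.sum_const, count_typ M N d hd.1, hd.2.2, nsmul_eq_mul]
  rw [e1, Finset.sum_sigma', ← Finset.sum_product', ← Finset.sum_filter]
  refine Finset.sum_bij' (fun x _ => (x.2, x.1 / x.2)) (fun x _ => ⟨x.1 * x.2, x.1⟩) ?_ ?_ ?_ ?_ ?_
  · rintro ⟨d, x⟩ h
    simp only [Finset.mem_sigma, Finset.mem_filter, Nat.mem_divisors] at h
    obtain ⟨h1, ⟨h2, h3⟩, h4⟩ := h
    obtain ⟨y, rfl⟩ := h2
    rw [hmem] at h1
    obtain ⟨g1, g2, g3⟩ := h1
    have hd0 : 0 < x := Nat.pos_of_ne_zero (fun h => h3 (by rw [h, zero_mul]))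
    have hco := (Nat.squarefree_mul_iff.1 g1)
    have hdiv : x * y / x = y := Nat.mul_div_cancel_left y hd0
    rw [pf_mul hco.1] at g2
    rw [typ_mul hco.1, h4] at g3
    simp only [Finset.mem_filter, Finset.mem_product, hdiv]
    refine ⟨⟨?_, ?_⟩, g1⟩
    · rw [hmem]; exact ⟨hco.2.1, g2.1, h4⟩
    · rw [hmem]; exact ⟨hco.2.2, g2.2, add_left_cancel g3⟩
  · rintro ⟨x, y⟩ h
    simp only [Finset.mem_filter, Finset.mem_product] at h
    obtain ⟨⟨h2, h3⟩, h4⟩ := h
    rw [hmem] at h2 h3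
    have hco := (Nat.squarefree_mul_iff.1 h4).1
    simp only [Finset.mem_sigma, Finset.mem_filter, Nat.mem_divisors]
    refine ⟨?_, ⟨dvd_mul_right _ _, h4.ne_zero⟩, h2.2.2⟩
    rw [hmem]
    refine ⟨h4, (pf_mul hco u).2 ⟨h2.2.1, h3.2.1⟩, ?_⟩
    rw [typ_mul hco, h2.2.2, h3.2.2]
  · rintro ⟨d, x⟩ h
    simp only [Finset.mem_sigma, Finset.mem_filter, Nat.mem_divisors] at h
    have := Nat.mul_div_cancel' h.2.1.1
    simp only [this]
  · rintro ⟨x, y⟩ h
    simp only [Finset.mem_filter, Finset.mem_product] at h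
    obtain ⟨⟨h2, h3⟩, h4⟩ := h
    rw [hmem] at h2
    have hd0 : 0 < x := Nat.pos_of_ne_zero h2.1.ne_zero
    simp only [Nat.mul_div_cancel_left y hd0]
  · rintro ⟨d, x⟩ h
    simp only [Finset.mem_sigma, Finset.mem_filter, Nat.mem_divisors] at h
    have := Nat.mul_div_cancel' h.2.1.1
    simp only [this]

theorem count_pos (b b' : Multiset ℕ) :
    1 ≤ Multiset.count b (Multiset.powersetCard (Multiset.card b) (b + b')) := by
  have : 0 < Multiset.count b (Multiset.powersetCard (Multiset.card b) (b + b')) := by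
    rw [Multiset.count_pos, Multiset.mem_powersetCard]
    exact ⟨Multiset.le_add_right _ _, rfl⟩
  omega

end Split3

open Split3 in
theorem tSplit3 (hDcl : St_Dcl) : St_split3 := by
  obtain ⟨hD1, hD2, hD3, hD4⟩ := hDcl
  intro M N u b₁ b₂ b₃ hM hN
  refine ⟨Multiset.count b₁ (Multiset.powersetCard (Multiset.card b₁) (b₁ + (b₂ + b₃))) *
    Multiset.count b₂ (Multiset.powersetCard (Multiset.card b₂) (b₂ + b₃)), ?_, ?_⟩
  · have h1 := count_pos b₁ (b₂ + b₃)
    have h2 := count_pos b₂ b₃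
    exact Nat.one_le_iff_ne_zero.2 (by positivity)
  · intro φ
    have h1 := two hD1 M N u b₁ (b₂ + b₃) hM hN φ
    have e1 : ∀ x ∈ Dcl M N u b₁, ∑ n₂ ∈ Dcl M N u b₂, ∑ n₃ ∈ Dcl M N u b₃,
        (if Squarefree (x * n₂ * n₃) then φ (x * n₂ * n₃) else 0) =
        ((Multiset.count b₂ (Multiset.powersetCard (Multiset.card b₂) (b₂ + b₃)) : ℕ) : ℝ) *
          ∑ y ∈ Dcl M N u (b₂ + b₃), (if Squarefree (x * y) then φ (x * y) else 0) := by
      intro x _
      rw [two hD1 M N u b₂ b₃ hM hN (fun y => if Squarefree (x * y) then φ (x * y) else 0)]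
      refine Finset.sum_congr rfl (fun n₂ _ => Finset.sum_congr rfl (fun n₃ _ => ?_))
      rw [mul_assoc]
      by_cases h : Squarefree (x * (n₂ * n₃))
      · rw [if_pos h, if_pos (h.squarefree_of_dvd (dvd_mul_left _ _))]
      · rw [if_neg h]
        simp
    rw [Finset.sum_congr rfl e1, ← Finset.mul_sum, ← h1, add_assoc]
    push_cast
    ring

end Pool.Agent.TCub
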