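import Pool.Agent.TCub.Stmts

open Finset

namespace Pool.Agent.TCub

namespace Splitd

theorem typ_mul {M N a b : ℕ} (h : Nat.Coprime a b) : typ M N (a * b) = typ M N a + typ M N b := by
  unfold typ
  rw [Nat.Coprime.primeFactors_mul h, Finset.union_val,
    ← Multiset.add_eq_union_iff_disjoint.2 (Finset.disjoint_val.2 h.disjoint_primeFactors),
    Multiset.map_add]

theorem pf_mul {a b : ℕ} (h : Nat.Coprime a b) (u : ℕ) :
    (∀ p ∈ (a * b).primeFactors, u ≤ p) ↔
      (∀ p ∈ a.primeFactors, u ≤ p) ∧ (∀ p ∈ b.primeFactors, u ≤ p) := by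
  rw [Nat.Coprime.primeFactors_mul h]
  constructor
  · intro h1
    exact ⟨fun p hp => h1 p (Finset.mem_union_left _ hp), fun p hp => h1 p (Finset.mem_union_right _ hp)⟩
  · rintro ⟨h1, h2⟩ p hp
    rcases Finset.mem_union.1 hp with h3 | h3
    · exact h1 p h3
    · exact h2 p h3

end Splitd

open Splitd in
theorem tSplitd (hDcl : St_Dcl) : St_splitd := by
  obtain ⟨hD1, hD2, hD3, hD4⟩ := hDcl
  refine ⟨?_, ?_⟩
  · intro M N u m hM hN f
    have hmem : ∀ (m : Multiset ℕ) (d : ℕ), d ∈ Dcl M N u m ↔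
        Squarefree d ∧ (∀ p ∈ d.primeFactors, u ≤ p) ∧ typ M N d = m :=
      fun m d => hD1 M N u m d hM hN
    have e1 : ∑ n ∈ (Multiset.powerset m).toFinset, ∑ d' ∈ Dcl M N u n, ∑ d'' ∈ Dcl M N u (m - n),
        (if Nat.Coprime d' d'' then f d' d'' else 0) =
        ∑ x ∈ ((Multiset.powerset m).toFinset.sigma
          (fun n => (Dcl M N u n) ×ˢ (Dcl M N u (m - n)))).filter
            (fun x => Nat.Coprime x.2.1 x.2.2), f x.2.1 x.2.2 := by
      rw [Finset.sum_filter, Finset.sum_sigma]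
      refine Finset.sum_congr rfl (fun n _ => ?_)
      rw [Finset.sum_product]
    rw [e1, Finset.sum_sigma']
    refine Finset.sum_bij' (fun x _ => ⟨typ M N x.2, (x.2, x.1 / x.2)⟩)
      (fun x _ => ⟨x.2.1 * x.2.2, x.2.1⟩) ?_ ?_ ?_ ?_ ?_
    · rintro ⟨d, d'⟩ h
      simp only [Finset.mem_sigma, Nat.mem_divisors] at h
      obtain ⟨h1, h2, h3⟩ := h
      obtain ⟨d'', rfl⟩ := h2
      rw [hmem] at h1
      obtain ⟨g1, g2, g3⟩ := h1
      have hd0 : 0 < d' := Nat.pos_of_ne_zero (fun h => h3 (by rw [h, zero_mul]))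
      have hco := (Nat.squarefree_mul_iff.1 g1)
      have hdiv : d' * d'' / d' = d'' := Nat.mul_div_cancel_left d'' hd0
      rw [pf_mul hco.1] at g2
      rw [typ_mul hco.1] at g3
      simp only [Finset.mem_filter, Finset.mem_sigma, Multiset.mem_toFinset,
        Multiset.mem_powerset, Finset.mem_product, hdiv]
      refine ⟨⟨?_, ?_, ?_⟩, hco.1⟩
      · rw [← g3]; exact Multiset.le_add_right _ _
      · rw [hmem]; exact ⟨hco.2.1, g2.1, rfl⟩
      · rw [hmem]
        refine ⟨hco.2.2, g2.2, ?_⟩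
        rw [← g3, add_tsub_cancel_left]
    · rintro ⟨n, d', d''⟩ h
      simp only [Finset.mem_filter, Finset.mem_sigma, Multiset.mem_toFinset,
        Multiset.mem_powerset, Finset.mem_product] at h
      obtain ⟨⟨h1, h2, h3⟩, h4⟩ := h
      rw [hmem] at h2 h3
      have hsq : Squarefree (d' * d'') := Nat.squarefree_mul_iff.2 ⟨h4, h2.1, h3.1⟩
      simp only [Finset.mem_sigma, Nat.mem_divisors]
      refine ⟨?_, dvd_mul_right _ _, hsq.ne_zero⟩
      rw [hmem]
      refine ⟨hsq, (pf_mul h4 u).2 ⟨h2.2.1, h3.2.1⟩, ?_⟩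
      rw [typ_mul h4, h2.2.2, h3.2.2]
      exact add_tsub_cancel_of_le h1
    · rintro ⟨d, d'⟩ h
      simp only [Finset.mem_sigma, Nat.mem_divisors] at h
      have := Nat.mul_div_cancel' h.2.1
      simp only [this]
    · rintro ⟨n, d', d''⟩ h
      simp only [Finset.mem_filter, Finset.mem_sigma, Multiset.mem_toFinset,
        Multiset.mem_powerset, Finset.mem_product] at h
      obtain ⟨⟨h1, h2, h3⟩, h4⟩ := h
      rw [hmem] at h2 h3
      have hd0 : 0 < d' := Nat.pos_of_ne_zero h2.1.ne_zero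
      simp only [Nat.mul_div_cancel_left d'' hd0, h2.2.2]
    · rintro ⟨d, d'⟩ h
      rfl
  · intro M N u j m hM hN hlt hu φ
    have hmem : ∀ (m : Multiset ℕ) (d : ℕ), d ∈ Dcl M N u m ↔
        Squarefree d ∧ (∀ p ∈ d.primeFactors, u ≤ p) ∧ typ M N d = m :=
      fun m d => hD1 M N u m d hM hN
    have hbx : ∀ p, p ∈ bxp M N j ↔ p.Prime ∧ lab M N p = j := fun p => hD3 M N j p hM hN
    have hlab : ∀ d ∈ Dcl M N u m, ∀ q ∈ d.primeFactors, lab M N q < j := by
      intro d hd q hq
      rw [hmem] at hd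
      apply hlt
      rw [← hd.2.2]
      unfold typ
      exact Multiset.mem_map_of_mem _ hq
    have hco : ∀ p ∈ bxp M N j, ∀ d ∈ Dcl M N u m, Nat.Coprime p d := by
      intro p hp d hd
      rw [hbx] at hp
      rw [Nat.Prime.coprime_iff_not_dvd hp.1]
      intro h
      have hd0 : d ≠ 0 := ((hmem m d).1 hd).1.ne_zero
      have := hlab d hd p (Nat.mem_primeFactors.2 ⟨hp.1, h, hd0⟩)
      omega
    rw [← Finset.sum_product']
    refine Finset.sum_bij (fun x _ => x.1 * x.2) ?_ ?_ ?_ ?_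
    · rintro ⟨p, d⟩ h
      rw [Finset.mem_product] at h
      have h1 := hco p h.1 d h.2
      have hp := (hbx p).1 h.1
      have hd := (hmem m d).1 h.2
      simp only []
      rw [hmem]
      refine ⟨Nat.squarefree_mul_iff.2 ⟨h1, hp.1.prime.squarefree, hd.1⟩, ?_, ?_⟩
      · rw [pf_mul h1]
        refine ⟨?_, hd.2.1⟩
        intro q hq
        rw [Nat.Prime.primeFactors hp.1, Finset.mem_singleton] at hq
        subst hq
        exact hu q h.1
      · rw [typ_mul h1, hd.2.2]
        have : typ M N p = {j} := by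
          unfold typ
          rw [Nat.Prime.primeFactors hp.1]
          simp [hp.2]
        rw [this, Multiset.singleton_add]
    · rintro ⟨p, d⟩ h ⟨p', d'⟩ h' heq
      rw [Finset.mem_product] at h h'
      simp only [] at heq h h'
      have hp := (hbx p).1 h.1
      have hp' := (hbx p').1 h'.1
      have hd0 : d' ≠ 0 := ((hmem m d').1 h'.2).1.ne_zero
      have h1 : p ∣ p' * d' := by rw [← heq]; exact dvd_mul_right _ _
      have h2 : p = p' := by
        rcases (Nat.Prime.dvd_mul hp.1).1 h1 with h3 | h3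
        · exact (Nat.prime_dvd_prime_iff_eq hp.1 hp'.1).1 h3
        · exfalso
          have := hlab d' h'.2 p (Nat.mem_primeFactors.2 ⟨hp.1, h3, hd0⟩)
          omega
      subst h2
      have h3 : d = d' := Nat.eq_of_mul_eq_mul_left hp.1.pos heq
      rw [h3]
    · intro d hd
      rw [hmem] at hd
      obtain ⟨g1, g2, g3⟩ := hd
      have h1 : j ∈ typ M N d := by rw [g3]; exact Multiset.mem_cons_self _ _
      unfold typ at h1
      rw [Multiset.mem_map] at h1
      obtain ⟨p, hp, hpj⟩ := h1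
      have hp' : p ∈ d.primeFactors := hp
      rw [Nat.mem_primeFactors] at hp'
      obtain ⟨d', rfl⟩ := hp'.2.1
      have hco' := Nat.squarefree_mul_iff.1 g1
      have hpb : p ∈ bxp M N j := (hbx p).2 ⟨hp'.1, hpj⟩
      rw [pf_mul hco'.1] at g2
      rw [typ_mul hco'.1] at g3
      have h3 : typ M N p = {j} := by
        unfold typ
        rw [Nat.Prime.primeFactors hp'.1]
        simp [hpj]
      rw [h3, Multiset.singleton_add, Multiset.cons_inj_right] at g3
      exact ⟨(p, d'), Finset.mem_product.2 ⟨hpb, (hmem m d').2 ⟨hco'.2.2, g2.2, g3⟩⟩, rfl⟩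
    · rintro ⟨p, d⟩ h
      rfl

end Pool.Agent.TCub
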