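import Pool.Agent.TCub.Stmts

open Finset

namespace Pool.Agent.TCub

namespace Sq

theorem cubeRoots (p : ℕ) (hp : p.Prime) (a : ZMod (p ^ 2)) (T : Finset (ZMod (p ^ 2)))
    (hT : ∀ x ∈ T, IsUnit x ∧ x ^ 3 = a) : T.card ≤ 3 := by
  classical
  have : NeZero (p ^ 2) := ⟨pow_ne_zero _ hp.ne_zero⟩
  by_cases hp2 : p = 2
  · subst hp2
    have key : ∀ x y : ZMod (2 ^ 2), x * y = 1 → x = 1 ∨ x = 3 := by decide
    have hsub : T ⊆ {1, 3} := by
      intro x hx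
      obtain ⟨y, hy⟩ := (hT x hx).1.exists_right_inv
      rcases key x y hy with h | h <;> simp [h]
    exact (Finset.card_le_card hsub).trans ((Finset.card_insert_le _ _).trans (by simp))
  · have : IsCyclic (ZMod (p ^ 2))ˣ := ZMod.isCyclic_units_of_prime_pow p hp hp2 2
    rcases T.eq_empty_or_nonempty with h | ⟨x0, hx0⟩
    · simp [h]
    · obtain ⟨u0, hu0⟩ := (hT x0 hx0).1
      have hc := IsCyclic.card_pow_eq_one_le (α := (ZMod (p ^ 2))ˣ) (n := 3) (by norm_num)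
      refine le_trans ?_ hc
      have h1 : ∀ x ∈ T, ∃ u : (ZMod (p ^ 2))ˣ, (u : ZMod (p ^ 2)) = x := by
        intro x hx
        exact (hT x hx).1
      choose! f hf using h1
      apply Finset.card_le_card_of_injOn (fun x => f x * u0⁻¹)
      · intro x hx
        have hx' : x ∈ T := hx
        simp only [Finset.coe_filter, Finset.mem_univ, true_and, Set.mem_ofPred_eq]
        rw [mul_pow, inv_pow, mul_inv_eq_one]
        apply Units.ext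
        rw [Units.val_pow_eq_pow_val, Units.val_pow_eq_pow_val, hf x hx', hu0, (hT x hx').2,
          (hT x0 hx0).2]
      · intro x hx y hy hxy
        have hx' : x ∈ T := hx
        have hy' : y ∈ T := hy
        have h2 : f x = f y := mul_right_cancel hxy
        rw [← hf x hx', ← hf y hy', h2]

theorem oneDim (p : ℕ) (hp : p.Prime) (P : ℕ) (c : ℤ) :
    ((Finset.Icc (1:ℤ) P).filter (fun x => ¬ (p:ℤ) ∣ x ∧ ((p ^ 2 : ℕ) : ℤ) ∣ x ^ 3 + c)).card ≤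
      (P / p ^ 2 + 1) * 3 := by
  classical
  have : NeZero (p ^ 2) := ⟨pow_ne_zero _ hp.ne_zero⟩
  have hn0 : (0:ℤ) < ((p ^ 2 : ℕ) : ℤ) := by
    exact_mod_cast pow_pos hp.pos 2
  refine (Finset.card_le_mul_card_image (f := fun x : ℤ => (x : ZMod (p ^ 2))) _
    (P / p ^ 2 + 1) ?_).trans (Nat.mul_le_mul_left _ ?_)
  · intro r _
    have h1 : (Finset.Icc (0:ℤ) ((P / p ^ 2 : ℕ) : ℤ)).card = P / p ^ 2 + 1 := by
      rw [Int.card_Icc]
      have : ((P / p ^ 2 : ℕ) : ℤ) + 1 - 0 = ((P / p ^ 2 + 1 : ℕ) : ℤ) := by push_cast; ring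
      rw [this, Int.toNat_natCast]
    rw [← h1]
    apply Finset.card_le_card_of_injOn (fun x : ℤ => (x - 1) / ((p ^ 2 : ℕ) : ℤ))
    · intro x hx
      simp only [Finset.coe_filter, Finset.mem_filter, Finset.mem_Icc, Set.mem_ofPred_eq] at hx
      obtain ⟨⟨⟨hx1, hx2⟩, _⟩, _⟩ := hx
      simp only [Finset.coe_Icc, Set.mem_Icc]
      constructor
      · exact Int.ediv_nonneg (by omega) hn0.le
      · rw [Int.natCast_ediv]
        exact Int.ediv_le_ediv hn0 (by omega)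
    · intro x hx y hy hxy
      simp only [Finset.coe_filter, Finset.mem_filter, Finset.mem_Icc, Set.mem_ofPred_eq] at hx hy
      have h2 : (x : ZMod (p ^ 2)) = (y : ZMod (p ^ 2)) := by rw [hx.2, hy.2]
      have h3 := (ZMod.intCast_eq_intCast_iff x y (p ^ 2)).1 h2
      have h4 : (x - 1) % ((p ^ 2 : ℕ) : ℤ) = (y - 1) % ((p ^ 2 : ℕ) : ℤ) := by
        exact (Int.ModEq.sub_right 1 h3)
      have h5 := Int.emod_add_mul_ediv (x - 1) ((p ^ 2 : ℕ) : ℤ)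
      have h6 := Int.emod_add_mul_ediv (y - 1) ((p ^ 2 : ℕ) : ℤ)
      have h7 : (x - 1) / ((p ^ 2 : ℕ) : ℤ) = (y - 1) / ((p ^ 2 : ℕ) : ℤ) := hxy
      rw [h4, h7, h6] at h5
      linarith
  · apply cubeRoots p hp (-(c : ZMod (p ^ 2)))
    intro r hr
    rw [Finset.mem_image] at hr
    obtain ⟨x, hx, rfl⟩ := hr
    rw [Finset.mem_filter] at hx
    obtain ⟨_, hx1, hx2⟩ := hx
    constructor
    · have hcop : IsCoprime x ((p ^ 2 : ℕ) : ℤ) := by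
        have h1 : IsCoprime ((p : ℕ) : ℤ) x :=
          ((Nat.prime_iff_prime_int.1 hp).irreducible.coprime_iff_not_dvd).2 hx1
        have h2 : IsCoprime x (((p : ℕ) : ℤ) ^ 2) := h1.symm.pow_right
        exact_mod_cast h2
      obtain ⟨u, v, huv⟩ := hcop
      have h3 : (x : ZMod (p ^ 2)) * (u : ZMod (p ^ 2)) = 1 := by
        have h4 := congrArg (fun t : ℤ => (t : ZMod (p ^ 2))) huv
        simp only [Int.cast_add, Int.cast_mul, Int.cast_natCast, Int.cast_one,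
          ZMod.natCast_self, mul_zero, add_zero] at h4
        rw [mul_comm]
        exact h4
      exact IsUnit.of_mul_eq_one _ h3
    · have h5 := (ZMod.intCast_zmod_eq_zero_iff_dvd (x ^ 3 + c) (p ^ 2)).2 hx2
      push_cast at h5
      exact eq_neg_of_add_eq_zero_left h5


/-- the box -/
noncomputable def Bx (P : ℕ) : Finset (Fin 3 → ℤ) :=
  Fintype.piFinset fun _ : Fin 3 => Finset.Icc (1:ℤ) P

theorem mem_Bx {P : ℕ} {x : Fin 3 → ℤ} : x ∈ Bx P ↔ ∀ i, 1 ≤ x i ∧ x i ≤ P := by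
  unfold Bx
  rw [Fintype.mem_piFinset]
  simp only [Finset.mem_Icc]

theorem ext3 {i j k : Fin 3} (hall : ∀ l : Fin 3, l = i ∨ l = j ∨ l = k) {x y : Fin 3 → ℤ}
    (h1 : x i = y i) (h2 : x j = y j) (h3 : x k = y k) : x = y := by
  funext l
  rcases hall l with h | h | h <;> rw [h] <;> assumption

theorem cardIcc1 (n : ℕ) : (Finset.Icc (1:ℤ) (n:ℤ)).card = n := by
  rw [Int.card_Icc]
  simp

theorem cardSq (P : ℕ) : (Finset.Icc (1:ℤ) P ×ˢ Finset.Icc (1:ℤ) P).card = P ^ 2 := by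
  rw [Finset.card_product, Int.card_Icc]
  have : ((P:ℤ) + 1 - 1).toNat = P := by simp
  rw [this, sq]

theorem boundA_i (p : ℕ) (hp : p.Prime) (P : ℕ) (i j k : Fin 3)
    (hF : ∀ x, F3 x = x i ^ 3 + (x j ^ 3 + x k ^ 3)) (hall : ∀ l : Fin 3, l = i ∨ l = j ∨ l = k) :
    ((Bx P).filter (fun x => ¬ (p:ℤ) ∣ x i ∧ ((p ^ 2 : ℕ) : ℤ) ∣ F3 x)).card ≤
      (P / p ^ 2 + 1) * 3 * P ^ 2 := by
  classical
  rw [← cardSq P]
  apply Finset.card_le_mul_card_image_of_maps_to (f := fun x : Fin 3 → ℤ => (x j, x k))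
  · intro x hx
    have h := mem_Bx.1 (Finset.mem_filter.1 hx).1
    rw [Finset.mem_product, Finset.mem_Icc, Finset.mem_Icc]
    exact ⟨h j, h k⟩
  · intro b _
    refine le_trans ?_ (oneDim p hp P (b.1 ^ 3 + b.2 ^ 3))
    apply Finset.card_le_card_of_injOn (fun x : Fin 3 → ℤ => x i)
    · intro x hx
      simp only [Finset.coe_filter, Finset.mem_filter, Set.mem_ofPred_eq] at hx
      obtain ⟨⟨hxB, h1, h2⟩, hb⟩ := hx
      simp only [Finset.coe_filter, Finset.mem_Icc, Set.mem_ofPred_eq]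
      refine ⟨mem_Bx.1 hxB i, h1, ?_⟩
      rw [hF x] at h2
      rw [← hb]
      exact h2
    · intro x hx y hy hxy
      simp only [Finset.coe_filter, Finset.mem_filter, Set.mem_ofPred_eq] at hx hy
      have h1 : (x j, x k) = (y j, y k) := by rw [hx.2, hy.2]
      rw [Prod.mk.injEq] at h1
      exact ext3 hall hxy h1.1 h1.2

theorem boundA (p : ℕ) (hp : p.Prime) (P : ℕ) :
    ((Bx P).filter (fun x => ((p ^ 2 : ℕ) : ℤ) ∣ F3 x)).card ≤
      3 * ((P / p ^ 2 + 1) * 3 * P ^ 2) + (P / p) ^ 3 := by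
  classical
  have hsub : (Bx P).filter (fun x => ((p ^ 2 : ℕ) : ℤ) ∣ F3 x) ⊆
      (((Bx P).filter (fun x => ¬ (p:ℤ) ∣ x 0 ∧ ((p ^ 2 : ℕ) : ℤ) ∣ F3 x) ∪
      (Bx P).filter (fun x => ¬ (p:ℤ) ∣ x 1 ∧ ((p ^ 2 : ℕ) : ℤ) ∣ F3 x)) ∪
      (Bx P).filter (fun x => ¬ (p:ℤ) ∣ x 2 ∧ ((p ^ 2 : ℕ) : ℤ) ∣ F3 x)) ∪
      (Bx P).filter (fun x => ∀ i, (p:ℤ) ∣ x i) := by
    intro x hx
    rw [Finset.mem_filter] at hx
    simp only [Finset.mem_union, Finset.mem_filter]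
    by_cases h0 : (p:ℤ) ∣ x 0
    · by_cases h1 : (p:ℤ) ∣ x 1
      · by_cases h2 : (p:ℤ) ∣ x 2
        · right
          refine ⟨hx.1, ?_⟩
          intro i
          fin_cases i
          · exact h0
          · exact h1
          · exact h2
        · exact Or.inl (Or.inr ⟨hx.1, h2, hx.2⟩)
      · exact Or.inl (Or.inl (Or.inr ⟨hx.1, h1, hx.2⟩))
    · exact Or.inl (Or.inl (Or.inl ⟨hx.1, h0, hx.2⟩))
  have h0 := boundA_i p hp P 0 1 2 (fun x => by unfold F3; ring) (fun l => by fin_cases l <;> simp)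
  have h1 := boundA_i p hp P 1 0 2 (fun x => by unfold F3; ring) (fun l => by fin_cases l <;> simp)
  have h2 := boundA_i p hp P 2 0 1 (fun x => by unfold F3; ring) (fun l => by fin_cases l <;> simp)
  have hp0 : (0:ℤ) < p := by exact_mod_cast hp.pos
  have h3 : ((Bx P).filter (fun x => ∀ i, (p:ℤ) ∣ x i)).card ≤ (P / p) ^ 3 := by
    have h4 : (Bx (P / p)).card = (P / p) ^ 3 := by
      unfold Bx
      rw [Fintype.card_piFinset_const, cardIcc1]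
    rw [← h4]
    apply Finset.card_le_card_of_injOn (fun x : Fin 3 → ℤ => fun i => x i / p)
    · intro x hx
      simp only [Finset.coe_filter, Set.mem_ofPred_eq] at hx
      obtain ⟨hxB, hd⟩ := hx
      rw [mem_Bx] at hxB
      rw [Finset.mem_coe, mem_Bx]
      intro i
      show 1 ≤ x i / (p:ℤ) ∧ x i / (p:ℤ) ≤ ((P / p : ℕ) : ℤ)
      constructor
      · have h5 := hxB i
        obtain ⟨t, ht⟩ := hd i
        rw [ht, Int.mul_ediv_cancel_left _ hp0.ne']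
        have : 0 < t := by
          by_contra hneg
          push Not at hneg
          have : (p:ℤ) * t ≤ 0 := mul_nonpos_of_nonneg_of_nonpos hp0.le hneg
          omega
        omega
      · rw [Int.natCast_ediv]
        exact Int.ediv_le_ediv hp0 (hxB i).2
    · intro x hx y hy hxy
      simp only [Finset.coe_filter, Set.mem_ofPred_eq] at hx hy
      funext i
      have h5 : x i / p = y i / p := congrFun hxy i
      obtain ⟨s, hs⟩ := hx.2 i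
      obtain ⟨t, ht⟩ := hy.2 i
      rw [hs, ht, Int.mul_ediv_cancel_left _ hp0.ne', Int.mul_ediv_cancel_left _ hp0.ne'] at h5
      rw [hs, ht, h5]
  calc _ ≤ _ := Finset.card_le_card hsub
    _ ≤ _ := Finset.card_union_le _ _
    _ ≤ _ := Nat.add_le_add_right ((Finset.card_union_le _ _).trans
        (Nat.add_le_add_right (Finset.card_union_le _ _) _)) _
    _ ≤ _ := by omega

theorem twoCubes (k : ℕ) (hk : 1 ≤ k) (T : Finset (ℤ × ℤ))
    (hT : ∀ q ∈ T, 1 ≤ q.1 ∧ 1 ≤ q.2 ∧ q.1 ^ 3 + q.2 ^ 3 = (k:ℤ)) :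
    T.card ≤ 2 * k.divisors.card := by
  classical
  apply Finset.card_le_mul_card_image_of_maps_to (f := fun q : ℤ × ℤ => (q.1 + q.2).toNat)
  · intro q hq
    obtain ⟨h1, h2, h3⟩ := hT q hq
    rw [Nat.mem_divisors]
    refine ⟨?_, by omega⟩
    have h4 : (((q.1 + q.2).toNat : ℕ) : ℤ) = q.1 + q.2 := Int.toNat_of_nonneg (by omega)
    have h5 : (((q.1 + q.2).toNat : ℕ) : ℤ) ∣ (k:ℤ) := by
      rw [h4, ← h3]
      exact ⟨q.1 ^ 2 - q.1 * q.2 + q.2 ^ 2, by ring⟩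
    exact_mod_cast h5
  · intro d _
    rcases (T.filter (fun q : ℤ × ℤ => (q.1 + q.2).toNat = d)).eq_empty_or_nonempty with h | ⟨q0, hq0⟩
    · rw [h]; simp
    · have hsub : T.filter (fun q : ℤ × ℤ => (q.1 + q.2).toNat = d) ⊆ {q0, (q0.2, q0.1)} := by
        intro q hq
        rw [Finset.mem_filter] at hq hq0
        obtain ⟨h1, h2, h3⟩ := hT q hq.1
        obtain ⟨g1, g2, g3⟩ := hT q0 hq0.1
        have hsum : q.1 + q.2 = q0.1 + q0.2 := by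
          have h4 : (((q.1 + q.2).toNat : ℕ) : ℤ) = q.1 + q.2 := Int.toNat_of_nonneg (by omega)
          have h5 : (((q0.1 + q0.2).toNat : ℕ) : ℤ) = q0.1 + q0.2 := Int.toNat_of_nonneg (by omega)
          rw [← h4, ← h5, hq.2, hq0.2]
        have hprod : q.1 * q.2 = q0.1 * q0.2 := by
          have h6 : (q0.1 + q0.2) * (3 * (q.1 * q.2)) = (q0.1 + q0.2) * (3 * (q0.1 * q0.2)) := by
            have e1 : (q.1 + q.2) ^ 3 - (k:ℤ) = (q.1 + q.2) * (3 * (q.1 * q.2)) := by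
              rw [← h3]; ring
            have e2 : (q0.1 + q0.2) ^ 3 - (k:ℤ) = (q0.1 + q0.2) * (3 * (q0.1 * q0.2)) := by
              rw [← g3]; ring
            rw [hsum] at e1
            rw [← e1, ← e2]
          have h7 := mul_left_cancel₀ (by omega : q0.1 + q0.2 ≠ 0) h6
          linarith
        have hfac : (q.1 - q0.1) * (q.1 - q0.2) = 0 := by
          have : (q.1 - q0.1) * (q.1 - q0.2) = q.1 ^ 2 - (q0.1 + q0.2) * q.1 + q0.1 * q0.2 := by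
            ring
          rw [this, ← hsum, ← hprod]
          ring
        rw [Finset.mem_insert, Finset.mem_singleton]
        rcases mul_eq_zero.1 hfac with h | h
        · left
          exact Prod.ext (by omega) (by omega)
        · right
          exact Prod.ext (by simp only; omega) (by simp only; omega)
      exact (Finset.card_le_card hsub).trans ((Finset.card_insert_le _ _).trans (by simp))

theorem boundB (p : ℕ) (hp : 0 < p) (P D : ℕ)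
    (hD : ∀ k : ℕ, 1 ≤ k → k ≤ 2 * P ^ 3 → k.divisors.card ≤ D) :
    ((Bx P).filter (fun x => ((p ^ 2 : ℕ) : ℤ) ∣ F3 x)).card ≤
      (2 * D) * ((3 * P ^ 3 / p ^ 2) * P) := by
  classical
  have hq0 : (0:ℤ) < ((p ^ 2 : ℕ) : ℤ) := by exact_mod_cast pow_pos hp 2
  have hcard : (Finset.Icc (1:ℤ) ((3 * P ^ 3 / p ^ 2 : ℕ) : ℤ) ×ˢ Finset.Icc (1:ℤ) P).card =
      (3 * P ^ 3 / p ^ 2) * P := by
    rw [Finset.card_product, cardIcc1, cardIcc1]
  rw [← hcard]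
  apply Finset.card_le_mul_card_image_of_maps_to
    (f := fun x : Fin 3 → ℤ => (F3 x / ((p ^ 2 : ℕ) : ℤ), x 2))
  · intro x hx
    rw [Finset.mem_filter, mem_Bx] at hx
    obtain ⟨hxB, hd⟩ := hx
    have hpos : ∀ i, 1 ≤ x i ^ 3 := fun i => one_le_pow₀ (hxB i).1
    have hle : ∀ i, x i ^ 3 ≤ (P:ℤ) ^ 3 := fun i =>
      pow_le_pow_left₀ (by linarith [(hxB i).1]) (hxB i).2 3
    have h1 : 0 < F3 x := by
      unfold F3
      linarith [hpos 0, hpos 1, hpos 2]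
    have h2 : F3 x ≤ 3 * (P:ℤ) ^ 3 := by
      unfold F3
      linarith [hle 0, hle 1, hle 2]
    rw [Finset.mem_product, Finset.mem_Icc, Finset.mem_Icc]
    refine ⟨⟨?_, ?_⟩, hxB 2⟩
    · obtain ⟨t, ht⟩ := hd
      show 1 ≤ F3 x / ((p ^ 2 : ℕ) : ℤ)
      rw [ht, Int.mul_ediv_cancel_left _ hq0.ne']
      by_contra hneg
      push Not at hneg
      have : ((p ^ 2 : ℕ) : ℤ) * t ≤ 0 := mul_nonpos_of_nonneg_of_nonpos hq0.le (by omega)
      omega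
    · show F3 x / ((p ^ 2 : ℕ) : ℤ) ≤ ((3 * P ^ 3 / p ^ 2 : ℕ) : ℤ)
      rw [Int.natCast_ediv]
      apply Int.ediv_le_ediv hq0
      push_cast
      exact h2
  · intro b _
    by_cases hk : ∃ x ∈ Bx P, ((p ^ 2 : ℕ) : ℤ) ∣ F3 x ∧ (F3 x / ((p ^ 2 : ℕ) : ℤ), x 2) = b
    · obtain ⟨x0, hx0, hd0, hb0⟩ := hk
      have hk1 : ∀ x ∈ Bx P, ((p ^ 2 : ℕ) : ℤ) ∣ F3 x → (F3 x / ((p ^ 2 : ℕ) : ℤ), x 2) = b →
          x 0 ^ 3 + x 1 ^ 3 = x0 0 ^ 3 + x0 1 ^ 3 := by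
        intro x hx hd hb
        rw [← hb0] at hb
        rw [Prod.mk.injEq] at hb
        have h3 : F3 x = F3 x0 := by
          rw [← Int.mul_ediv_cancel' hd, ← Int.mul_ediv_cancel' hd0, hb.1]
        unfold F3 at h3
        rw [hb.2] at h3
        linarith
      have hxB := mem_Bx.1 hx0
      have hpos : ∀ i, 1 ≤ x0 i ^ 3 := fun i => one_le_pow₀ (hxB i).1
      have hle : ∀ i, x0 i ^ 3 ≤ (P:ℤ) ^ 3 := fun i =>
        pow_le_pow_left₀ (by linarith [(hxB i).1]) (hxB i).2 3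
      set k : ℕ := (x0 0 ^ 3 + x0 1 ^ 3).toNat with hkdef
      have hkc : (k:ℤ) = x0 0 ^ 3 + x0 1 ^ 3 := Int.toNat_of_nonneg (by linarith [hpos 0, hpos 1])
      have hk1' : 1 ≤ k := by
        have : (1:ℤ) ≤ k := by rw [hkc]; linarith [hpos 0, hpos 1]
        exact_mod_cast this
      have hk2 : k ≤ 2 * P ^ 3 := by
        have : (k:ℤ) ≤ 2 * (P:ℤ) ^ 3 := by rw [hkc]; linarith [hle 0, hle 1]
        exact_mod_cast this
      refine le_trans ?_ (Nat.mul_le_mul_left 2 (hD k hk1' hk2))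
      refine le_trans ?_ (twoCubes k hk1' ((((Bx P).filter
        (fun x => ((p ^ 2 : ℕ) : ℤ) ∣ F3 x)).filter
        (fun x => (F3 x / ((p ^ 2 : ℕ) : ℤ), x 2) = b)).image (fun x => (x 0, x 1))) ?_)
      · apply le_of_eq
        symm
        apply Finset.card_image_of_injOn
        intro x hx y hy hxy
        simp only [Finset.coe_filter, Finset.mem_filter, Set.mem_ofPred_eq] at hx hy
        have h4 : (F3 x / ((p ^ 2 : ℕ) : ℤ), x 2) = (F3 y / ((p ^ 2 : ℕ) : ℤ), y 2) := by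
          rw [hx.2, hy.2]
        rw [Prod.mk.injEq] at h4
        have h5 : (x 0, x 1) = (y 0, y 1) := hxy
        rw [Prod.mk.injEq] at h5
        funext l
        fin_cases l
        · exact h5.1
        · exact h5.2
        · exact h4.2
      · intro q hq
        rw [Finset.mem_image] at hq
        obtain ⟨x, hx, rfl⟩ := hq
        rw [Finset.mem_filter, Finset.mem_filter] at hx
        have h6 := mem_Bx.1 hx.1.1
        refine ⟨(h6 0).1, (h6 1).1, ?_⟩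
        rw [hkc]
        exact hk1 x hx.1.1 hx.1.2 hx.2
    · have : ((Bx P).filter (fun x => ((p ^ 2 : ℕ) : ℤ) ∣ F3 x)).filter
          (fun x => (F3 x / ((p ^ 2 : ℕ) : ℤ), x 2) = b) = ∅ := by
        rw [Finset.eq_empty_iff_forall_notMem]
        intro x hx
        rw [Finset.mem_filter, Finset.mem_filter] at hx
        exact hk ⟨x, hx.1.1, hx.1.2, hx.2⟩
      rw [this]
      simp


theorem sumSq (a b : ℕ) (ha : 1 ≤ a) (c : ℝ) (hc : 0 ≤ c) (T : Finset ℕ)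
    (hT : ∀ p ∈ T, a ≤ p ∧ p < b) : ∑ p ∈ T, c / (p:ℝ) ^ 2 ≤ c * (2 / a) := by
  have h1 : ∑ p ∈ T, c / (p:ℝ) ^ 2 ≤ ∑ p ∈ Finset.Ioo (a - 1) b, c / (p:ℝ) ^ 2 := by
    apply Finset.sum_le_sum_of_subset_of_nonneg
    · intro p hp
      rw [Finset.mem_Ioo]
      have := hT p hp
      omega
    · intro i _ _
      positivity
  have h2 := sum_Ioo_inv_sq_le (α := ℝ) (a - 1) b
  have h3 : (((a - 1 : ℕ) : ℝ) + 1) = a := by
    have : ((a - 1 : ℕ) : ℝ) = (a:ℝ) - 1 := by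
      rw [Nat.cast_sub ha]; simp
    rw [this]; ring
  rw [h3] at h2
  refine h1.trans ?_
  have h4 : ∑ p ∈ Finset.Ioo (a - 1) b, c / (p:ℝ) ^ 2 =
      c * ∑ p ∈ Finset.Ioo (a - 1) b, ((p:ℝ) ^ 2)⁻¹ := by
    rw [Finset.mul_sum]
    apply Finset.sum_congr rfl
    intro i _
    rw [div_eq_mul_inv]
  rw [h4]
  exact mul_le_mul_of_nonneg_left h2 hc

end Sq

open Sq in
theorem tSq (hdiv : St_div) : St_sq := by
  classical
  intro K hK
  obtain ⟨C, hC, hCd⟩ := hdiv (1 / 6000) (by norm_num) 1 le_rfl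
  have hK1 : (1:ℝ) ≤ K := by exact_mod_cast hK
  have hK0 : (0:ℝ) < K := by linarith
  set G : ℝ := (2 * (K:ℝ) ^ 3) ^ (1 / 6000 : ℝ) with hG
  have hG0 : 0 < G := Real.rpow_pos_of_pos (by positivity) _
  refine ⟨20 * (K:ℝ) ^ 3 + 9 * (K:ℝ) ^ 2 + 12 * C * (K:ℝ) ^ 4 * G, by positivity, ?_⟩
  intro M hM
  have hm2 : (2:ℝ) ≤ M := by exact_mod_cast hM
  have hm1 : (1:ℝ) ≤ M := by linarith
  have hm0 : (0:ℝ) < M := by linarith
  set m : ℝ := (M:ℝ) with hmdef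
  set P : ℕ := K * M with hP
  have hPr : (P:ℝ) = K * m := by rw [hP]; push_cast; rfl
  have hbx : bx M K = Bx P := by
    unfold bx Bx
    rw [hP]
    push_cast
    rfl
  set S : ℕ → Finset (Fin 3 → ℤ) := fun p => (Bx P).filter (fun x => ((p ^ 2 : ℕ) : ℤ) ∣ F3 x)
    with hS
  set Y : ℕ := ⌊m ^ (999 / 1000 : ℝ)⌋₊ with hY
  set Z : ℕ := ⌈m ^ (1001 / 1000 : ℝ)⌉₊ with hZ
  set TA : Finset ℕ := (Finset.Icc (zz M) Y).filter Nat.Prime with hTA
  set TB : Finset ℕ := (Finset.Icc Z (3 * P ^ 3)).filter Nat.Prime with hTB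
  have hYle : (Y:ℝ) ≤ m ^ (999 / 1000 : ℝ) := Nat.floor_le (Real.rpow_nonneg hm0.le _)
  have hZge : m ^ (1001 / 1000 : ℝ) ≤ (Z:ℝ) := Nat.le_ceil _
  have hzge : m ^ (425 / 1000 : ℝ) ≤ (zz M : ℝ) := Nat.le_ceil _
  have hzpos : 0 < m ^ (425 / 1000 : ℝ) := Real.rpow_pos_of_pos hm0 _
  have hZpos : 0 < m ^ (1001 / 1000 : ℝ) := Real.rpow_pos_of_pos hm0 _
  have hz1 : 1 ≤ zz M := by
    have : (0:ℝ) < (zz M : ℝ) := lt_of_lt_of_le hzpos hzge
    exact_mod_cast this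
  have hZ1 : 1 ≤ Z := by
    have : (0:ℝ) < (Z : ℝ) := lt_of_lt_of_le hZpos hZge
    exact_mod_cast this
  have hsub : {x : Fin 3 → ℤ | x ∈ bx M K ∧ ∃ p : ℕ, p.Prime ∧ ((p ^ 2 : ℕ) : ℤ) ∣ F3 x ∧
      zz M ≤ p ∧ ((p:ℝ) ≤ (M:ℝ) ^ (999 / 1000 : ℝ) ∨ (M:ℝ) ^ (1001 / 1000 : ℝ) ≤ p)} ⊆
      ((TA.biUnion S ∪ TB.biUnion S : Finset (Fin 3 → ℤ)) : Set (Fin 3 → ℤ)) := by
    rintro x ⟨hxb, p, hp, hd, hzp, hor⟩
    rw [hbx] at hxb
    rw [Finset.mem_coe, Finset.mem_union, Finset.mem_biUnion, Finset.mem_biUnion]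
    have hxS : x ∈ S p := Finset.mem_filter.2 ⟨hxb, hd⟩
    rcases hor with h | h
    · left
      refine ⟨p, ?_, hxS⟩
      rw [hTA, Finset.mem_filter, Finset.mem_Icc]
      exact ⟨⟨hzp, Nat.le_floor h⟩, hp⟩
    · right
      refine ⟨p, ?_, hxS⟩
      rw [hTB, Finset.mem_filter, Finset.mem_Icc]
      refine ⟨⟨Nat.ceil_le.2 h, ?_⟩, hp⟩
      rw [mem_Bx] at hxb
      have hpos : ∀ i, 1 ≤ x i ^ 3 := fun i => one_le_pow₀ (hxb i).1
      have hle : ∀ i, x i ^ 3 ≤ (P:ℤ) ^ 3 := fun i =>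
        pow_le_pow_left₀ (by linarith [(hxb i).1]) (hxb i).2 3
      have h1 : 0 < F3 x := by
        unfold F3
        linarith [hpos 0, hpos 1, hpos 2]
      have h2 : F3 x ≤ 3 * (P:ℤ) ^ 3 := by
        unfold F3
        linarith [hle 0, hle 1, hle 2]
      have h3 : ((p ^ 2 : ℕ) : ℤ) ≤ 3 * (P:ℤ) ^ 3 := (Int.le_of_dvd h1 hd).trans h2
      have h4 : p ^ 2 ≤ 3 * P ^ 3 := by exact_mod_cast h3
      have h5 : p ≤ p ^ 2 := Nat.le_self_pow (by norm_num) p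
      omega
  have hcardle : (Set.ncard {x : Fin 3 → ℤ | x ∈ bx M K ∧ ∃ p : ℕ, p.Prime ∧
      ((p ^ 2 : ℕ) : ℤ) ∣ F3 x ∧ zz M ≤ p ∧
      ((p:ℝ) ≤ (M:ℝ) ^ (999 / 1000 : ℝ) ∨ (M:ℝ) ^ (1001 / 1000 : ℝ) ≤ p)} : ℝ) ≤
      ∑ p ∈ TA, ((S p).card : ℝ) + ∑ p ∈ TB, ((S p).card : ℝ) := by
    have h1 := Set.ncard_le_ncard hsub (Finset.finite_toSet _)
    rw [Set.ncard_coe_finset] at h1
    have h2 : (TA.biUnion S ∪ TB.biUnion S).card ≤ ∑ p ∈ TA, (S p).card + ∑ p ∈ TB, (S p).card :=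
      (Finset.card_union_le _ _).trans (Nat.add_le_add Finset.card_biUnion_le
        Finset.card_biUnion_le)
    exact_mod_cast h1.trans h2
  refine hcardle.trans ?_
  -- part A
  have hA : ∑ p ∈ TA, ((S p).card : ℝ) ≤
      (20 * (K:ℝ) ^ 3 + 9 * (K:ℝ) ^ 2) * m ^ (3 - 1 / 2000 : ℝ) := by
    have h1 : ∀ p ∈ TA, ((S p).card : ℝ) ≤ 10 * (P:ℝ) ^ 3 / (p:ℝ) ^ 2 + 9 * (P:ℝ) ^ 2 := by
      intro p hp
      rw [hTA, Finset.mem_filter] at hp
      have hpp := hp.2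
      have hp1 : (1:ℝ) ≤ p := by exact_mod_cast hpp.one_le
      have hp0 : (0:ℝ) < p := by linarith
      have h2 : ((S p).card : ℝ) ≤ 3 * (((P / p ^ 2 : ℕ) + 1) * 3 * (P:ℝ) ^ 2) +
          ((P / p : ℕ) : ℝ) ^ 3 := by
        exact_mod_cast boundA p hpp P
      have h3 : ((P / p ^ 2 : ℕ) : ℝ) ≤ (P:ℝ) / (p:ℝ) ^ 2 := by
        have := @Nat.cast_div_le ℝ _ _ _ P (p ^ 2)
        push_cast at this
        exact this
      have h4 : ((P / p : ℕ) : ℝ) ≤ (P:ℝ) / p := Nat.cast_div_le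
      have h5 : ((P / p : ℕ) : ℝ) ^ 3 ≤ (P:ℝ) ^ 3 / (p:ℝ) ^ 2 := by
        calc ((P / p : ℕ) : ℝ) ^ 3 ≤ ((P:ℝ) / p) ^ 3 :=
              pow_le_pow_left₀ (Nat.cast_nonneg _) h4 3
          _ = (P:ℝ) ^ 3 / (p:ℝ) ^ 3 := by rw [div_pow]
          _ ≤ (P:ℝ) ^ 3 / (p:ℝ) ^ 2 := by
              apply div_le_div_of_nonneg_left (by positivity) (by positivity)
              exact pow_le_pow_right₀ hp1 (by norm_num)
      have h6 : 3 * (((P / p ^ 2 : ℕ) + 1) * 3 * (P:ℝ) ^ 2) ≤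
          9 * (P:ℝ) ^ 3 / (p:ℝ) ^ 2 + 9 * (P:ℝ) ^ 2 := by
        have h7 : ((P / p ^ 2 : ℕ) : ℝ) * (P:ℝ) ^ 2 ≤ (P:ℝ) / (p:ℝ) ^ 2 * (P:ℝ) ^ 2 :=
          mul_le_mul_of_nonneg_right h3 (by positivity)
        have h8 : 9 * (P:ℝ) ^ 3 / (p:ℝ) ^ 2 = 9 * ((P:ℝ) / (p:ℝ) ^ 2 * (P:ℝ) ^ 2) := by ring
        rw [h8]
        linarith
      have h9 : 10 * (P:ℝ) ^ 3 / (p:ℝ) ^ 2 = 9 * (P:ℝ) ^ 3 / (p:ℝ) ^ 2 +
          (P:ℝ) ^ 3 / (p:ℝ) ^ 2 := by ring
      rw [h9]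
      linarith
    refine (Finset.sum_le_sum h1).trans ?_
    rw [Finset.sum_add_distrib, Finset.sum_const, nsmul_eq_mul]
    have h2 := sumSq (zz M) (Y + 1) hz1 (10 * (P:ℝ) ^ 3) (by positivity) TA (by
      intro p hp
      rw [hTA, Finset.mem_filter, Finset.mem_Icc] at hp
      omega)
    have h3 : (TA.card : ℝ) ≤ m ^ (999 / 1000 : ℝ) := by
      have : TA.card ≤ Y := by
        refine (Finset.card_filter_le _ _).trans ?_
        rw [Nat.card_Icc]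
        omega
      exact le_trans (by exact_mod_cast this) hYle
    have h4 : 10 * (P:ℝ) ^ 3 * (2 / (zz M : ℝ)) ≤ 20 * (K:ℝ) ^ 3 * m ^ (3 - 1 / 2000 : ℝ) := by
      have h5 : 2 / (zz M : ℝ) ≤ 2 / m ^ (425 / 1000 : ℝ) :=
        div_le_div_of_nonneg_left (by norm_num) hzpos hzge
      have h6 : m ^ 3 / m ^ (425 / 1000 : ℝ) ≤ m ^ (3 - 1 / 2000 : ℝ) := by
        rw [← Real.rpow_natCast m 3, ← Real.rpow_sub hm0]
        apply Real.rpow_le_rpow_of_exponent_le hm1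
        norm_num
      calc 10 * (P:ℝ) ^ 3 * (2 / (zz M : ℝ)) ≤ 10 * (P:ℝ) ^ 3 * (2 / m ^ (425 / 1000 : ℝ)) :=
            mul_le_mul_of_nonneg_left h5 (by positivity)
        _ = 20 * (K:ℝ) ^ 3 * (m ^ 3 / m ^ (425 / 1000 : ℝ)) := by rw [hPr]; ring
        _ ≤ _ := mul_le_mul_of_nonneg_left h6 (by positivity)
    have h7 : (TA.card : ℝ) * (9 * (P:ℝ) ^ 2) ≤ 9 * (K:ℝ) ^ 2 * m ^ (3 - 1 / 2000 : ℝ) := by
      have h8 : m ^ (999 / 1000 : ℝ) * m ^ 2 ≤ m ^ (3 - 1 / 2000 : ℝ) := by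
        rw [← Real.rpow_natCast m 2, ← Real.rpow_add hm0]
        apply Real.rpow_le_rpow_of_exponent_le hm1
        norm_num
      calc (TA.card : ℝ) * (9 * (P:ℝ) ^ 2) ≤ m ^ (999 / 1000 : ℝ) * (9 * (P:ℝ) ^ 2) :=
            mul_le_mul_of_nonneg_right h3 (by positivity)
        _ = 9 * (K:ℝ) ^ 2 * (m ^ (999 / 1000 : ℝ) * m ^ 2) := by rw [hPr]; ring
        _ ≤ _ := mul_le_mul_of_nonneg_left h8 (by positivity)
    have h10 : (20 * (K:ℝ) ^ 3 + 9 * (K:ℝ) ^ 2) * m ^ (3 - 1 / 2000 : ℝ) =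
      20 * (K:ℝ) ^ 3 * m ^ (3 - 1 / 2000 : ℝ) + 9 * (K:ℝ) ^ 2 * m ^ (3 - 1 / 2000 : ℝ) := by ring
    rw [h10]
    linarith
  -- part B
  have hB : ∑ p ∈ TB, ((S p).card : ℝ) ≤
      (12 * C * (K:ℝ) ^ 4 * G) * m ^ (3 - 1 / 2000 : ℝ) := by
    set E : ℝ := C * (2 * (P:ℝ) ^ 3) ^ (1 / 6000 : ℝ) with hE
    have hE0 : 0 ≤ E := by positivity
    have hD : ∀ k : ℕ, 1 ≤ k → k ≤ 2 * P ^ 3 → k.divisors.card ≤ ⌊E⌋₊ := by
      intro k hk1 hk2
      apply Nat.le_floor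
      refine ((hCd k hk1).2).trans ?_
      apply mul_le_mul_of_nonneg_left _ hC.le
      apply Real.rpow_le_rpow (Nat.cast_nonneg _) _ (by norm_num)
      exact_mod_cast hk2
    have hDle : ((⌊E⌋₊ : ℕ) : ℝ) ≤ E := Nat.floor_le hE0
    have h1 : ∀ p ∈ TB, ((S p).card : ℝ) ≤ 6 * E * (P:ℝ) ^ 4 / (p:ℝ) ^ 2 := by
      intro p hp
      rw [hTB, Finset.mem_filter] at hp
      have hpp := hp.2
      have hp0 : (0:ℝ) < p := by exact_mod_cast hpp.pos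
      have h2 : ((S p).card : ℝ) ≤ (2 * ((⌊E⌋₊ : ℕ) : ℝ)) * (((3 * P ^ 3 / p ^ 2 : ℕ) : ℝ) * P) := by
        exact_mod_cast boundB p hpp.pos P ⌊E⌋₊ hD
      have h3 : ((3 * P ^ 3 / p ^ 2 : ℕ) : ℝ) ≤ 3 * (P:ℝ) ^ 3 / (p:ℝ) ^ 2 := by
        have := @Nat.cast_div_le ℝ _ _ _ (3 * P ^ 3) (p ^ 2)
        push_cast at this
        exact this
      calc ((S p).card : ℝ) ≤ (2 * ((⌊E⌋₊ : ℕ) : ℝ)) * (((3 * P ^ 3 / p ^ 2 : ℕ) : ℝ) * P) := h2
        _ ≤ (2 * E) * ((3 * (P:ℝ) ^ 3 / (p:ℝ) ^ 2) * P) := by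
            apply mul_le_mul (by linarith) _ (by positivity) (by positivity)
            exact mul_le_mul_of_nonneg_right h3 (Nat.cast_nonneg _)
        _ = 6 * E * (P:ℝ) ^ 4 / (p:ℝ) ^ 2 := by ring
    refine (Finset.sum_le_sum h1).trans ?_
    refine (sumSq Z (3 * P ^ 3 + 1) hZ1 (6 * E * (P:ℝ) ^ 4) (by positivity) TB (by
      intro p hp
      rw [hTB, Finset.mem_filter, Finset.mem_Icc] at hp
      omega)).trans ?_
    have h5 : 2 / (Z : ℝ) ≤ 2 / m ^ (1001 / 1000 : ℝ) :=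
      div_le_div_of_nonneg_left (by norm_num) hZpos hZge
    have h6 : E = C * (G * m ^ (1 / 2000 : ℝ)) := by
      rw [hE, hG, hPr]
      congr 1
      have h7 : 2 * ((K:ℝ) * m) ^ 3 = (2 * (K:ℝ) ^ 3) * m ^ (3:ℕ) := by ring
      rw [h7, Real.mul_rpow (by positivity) (by positivity), ← Real.rpow_natCast m 3,
        ← Real.rpow_mul hm0.le]
      norm_num
    have h8 : m ^ (1 / 2000 : ℝ) * (m ^ 4 / m ^ (1001 / 1000 : ℝ)) = m ^ (3 - 1 / 2000 : ℝ) := by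
      rw [← Real.rpow_natCast m 4, ← Real.rpow_sub hm0, ← Real.rpow_add hm0]
      norm_num
    calc 6 * E * (P:ℝ) ^ 4 * (2 / (Z:ℝ)) ≤ 6 * E * (P:ℝ) ^ 4 * (2 / m ^ (1001 / 1000 : ℝ)) :=
          mul_le_mul_of_nonneg_left h5 (by positivity)
      _ = (12 * C * (K:ℝ) ^ 4 * G) * (m ^ (1 / 2000 : ℝ) * (m ^ 4 / m ^ (1001 / 1000 : ℝ))) := by
          rw [h6, hPr]; ring
      _ = _ := by rw [h8]
  have h11 : (20 * (K:ℝ) ^ 3 + 9 * (K:ℝ) ^ 2 + 12 * C * (K:ℝ) ^ 4 * G) *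
      m ^ (3 - 1 / 2000 : ℝ) = (20 * (K:ℝ) ^ 3 + 9 * (K:ℝ) ^ 2) * m ^ (3 - 1 / 2000 : ℝ) +
      (12 * C * (K:ℝ) ^ 4 * G) * m ^ (3 - 1 / 2000 : ℝ) := by ring
  rw [h11]
  linarith

end Pool.Agent.TCub
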