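import Pool.Agent.TCub.Stmts

open Finset MeasureTheory

namespace Pool.Agent.TCub

namespace StU

lemma HU_pos (s : ℝ) (hs : 0 < s) : 0 < HU s := by
  unfold HU
  split_ifs
  · positivity
  · positivity

lemma HW_pos (s : ℝ) : 0 < HW s := Real.exp_pos _

lemma exp_small (δ : ℝ) (_h0 : 0 ≤ δ) (h1 : δ ≤ 1 / 1000) : Real.exp δ ≤ 1 + 2 * δ := by
  have h := Real.abs_exp_sub_one_sub_id_le (x := δ) (by rw [abs_le]; constructor <;> linarith)
  rw [abs_le] at h
  nlinarith [h.2]

lemma int_shift (f : ℝ → ℝ) (s δ : ℝ) :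
    ∫ t in Set.Ioi s, f (t - δ) = ∫ t in Set.Ioi (s - δ), f t := by
  have h := (measurePreserving_sub_right (volume : Measure ℝ) δ).setIntegral_preimage_emb
    (MeasurableEquiv.subRight δ).measurableEmbedding f (Set.Ioi (s - δ))
  rw [← h]
  congr 2
  ext x
  simp

lemma intOn_shift (f : ℝ → ℝ) (s δ : ℝ) (hf : IntegrableOn f (Set.Ioi (s - δ))) :
    IntegrableOn (fun t => f (t - δ)) (Set.Ioi s) := by
  have h := (measurePreserving_sub_right (volume : Measure ℝ) δ).integrableOn_comp_preimage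
    (MeasurableEquiv.subRight δ).measurableEmbedding (f := f) (s := Set.Ioi (s - δ))
  have h2 : (fun x => x - δ) ⁻¹' (Set.Ioi (s - δ)) = Set.Ioi s := by
    ext x; simp
  rw [h2] at h
  exact h.2 hf

/-- `W(t-1)` is integrable on `(3,∞)` -/
lemma intW {U W : ℝ → ℝ} (hP : FPt U W)
    (hHW : IntegrableOn (fun t => HW (t - 1)) (Set.Ioi 3)) :
    IntegrableOn (fun t => W (t - 1)) (Set.Ioi 3) := by
  have hm : AEStronglyMeasurable (fun t => W (t - 1)) (volume.restrict (Set.Ioi 3)) := by
    apply AEMeasurable.aestronglyMeasurable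
    apply aemeasurable_restrict_of_antitoneOn measurableSet_Ioi
    intro x hx y hy hxy
    simp only [Set.mem_Ioi] at hx hy
    exact hP.Wanti (by simp only [Set.mem_Ici]; linarith) (by simp only [Set.mem_Ici]; linarith)
      (by linarith)
  refine Integrable.mono' (hHW.const_mul 21) hm ?_
  refine (ae_restrict_iff' measurableSet_Ioi).2 (Filter.Eventually.of_forall ?_)
  intro t ht
  simp only [Set.mem_Ioi] at ht
  rw [Real.norm_of_nonneg (hP.W0 _ (by linarith))]
  exact hP.Wbd _ (by linarith)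

/-- splitting the integral of `W(t-1)` -/
lemma splitW {U W : ℝ → ℝ} (hP : FPt U W)
    (hi : IntegrableOn (fun t => W (t - 1)) (Set.Ioi 3)) (a b : ℝ) (ha : 3 ≤ a) (hab : a ≤ b) :
    ∫ t in Set.Ioi a, W (t - 1) ≤ (b - a) * W (a - 1) + ∫ t in Set.Ioi b, W (t - 1) := by
  have hA : IntegrableOn (fun t => W (t - 1)) (Set.Ioc a b) :=
    hi.mono_set (fun t ht => by simp only [Set.mem_Ioi]; linarith [ht.1])
  have hB : IntegrableOn (fun t => W (t - 1)) (Set.Ioi b) :=
    hi.mono_set (Set.Ioi_subset_Ioi (by linarith))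
  rw [← Set.Ioc_union_Ioi_eq_Ioi hab,
    setIntegral_union (Set.Ioc_disjoint_Ioi le_rfl) measurableSet_Ioi hA hB]
  have h3 : ∫ t in Set.Ioc a b, W (t - 1) ≤ ∫ t in Set.Ioc a b, W (a - 1) := by
    apply setIntegral_mono_on hA (by simp) measurableSet_Ioc
    intro x hx
    apply hP.Wanti
    · simp only [Set.mem_Ici]; linarith
    · simp only [Set.mem_Ici]; linarith [hx.1]
    · linarith [hx.1]
  have h4 : ∫ t in Set.Ioc a b, W (a - 1) = (b - a) * W (a - 1) := by
    rw [setIntegral_const]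
    simp only [smul_eq_mul, Measure.real, Real.volume_Ioc]
    rw [ENNReal.toReal_ofReal (by linarith)]
  linarith

lemma antiW {U W : ℝ → ℝ} (hP : FPt U W)
    (hi : IntegrableOn (fun t => W (t - 1)) (Set.Ioi 3)) (a b : ℝ) (ha : 3 ≤ a) (hab : a ≤ b) :
    ∫ t in Set.Ioi b, W (t - 1) ≤ ∫ t in Set.Ioi a, W (t - 1) := by
  apply setIntegral_mono_set (hi.mono_set (Set.Ioi_subset_Ioi ha))
  · refine (ae_restrict_iff' measurableSet_Ioi).2 (Filter.Eventually.of_forall ?_)
    intro t ht
    simp only [Set.mem_Ioi] at ht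
    exact hP.W0 _ (by linarith)
  · exact (Set.Ioi_subset_Ioi hab).eventuallyLE

end StU

open StU in
theorem tStU (hcon : St_con) : St_stU := by
  obtain ⟨hHW, _, hcU, _⟩ := hcon
  refine ⟨1 / 1000, 10000, by norm_num, by norm_num, by norm_num, ?_⟩
  intro U W hP hW2 ε δ τ hε0 hε1 hδ0 hδ1 hτ s hs
  have hτ0 : 0 ≤ τ := by nlinarith
  have hi := intW hP hHW
  have hW1 : ∀ t, 2 ≤ t → W t ≤ 1 := by
    intro t ht
    rw [← hW2]
    exact hP.Wanti (by simp) (by simpa using ht) ht
  have hexp := exp_small δ hδ0 hδ1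
  have hexp1 : Real.exp δ ≤ 1002 / 1000 := by linarith
  have hexp0 : 1 ≤ Real.exp δ := Real.one_le_exp hδ0
  -- antitonicity of Φ₁
  have hanti1 : AntitoneOn (Φ₁ W δ) (Set.Ici s) := by
    intro x hx y hy hxy
    unfold Φ₁
    by_cases h1 : y ≤ 3 * (1 + δ)
    · rw [if_pos h1, if_pos (hxy.trans h1)]
    · rw [if_neg h1]
      push Not at h1
      by_cases h2 : x ≤ 3 * (1 + δ)
      · rw [if_pos h2]
        exact hW1 _ (by linarith)
      · rw [if_neg h2]
        push Not at h2
        exact hP.Wanti (by simp only [Set.mem_Ici]; linarith) (by simp only [Set.mem_Ici]; linarith)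
          (by linarith)
  have hnn1 : ∀ t, s ≤ t → 0 ≤ Φ₁ W δ t := by
    intro t _
    unfold Φ₁
    split_ifs with h
    · norm_num
    · push Not at h
      exact hP.W0 _ (by linarith)
  -- integrability of the shifted W
  have hshift : ∀ a, 3 + δ ≤ a → IntegrableOn (fun t => W (t - 1 - δ)) (Set.Ioi a) ∧
      ∫ t in Set.Ioi a, W (t - 1 - δ) = ∫ t in Set.Ioi (a - δ), W (t - 1) := by
    intro a ha
    have hcongr : (fun t => W (t - 1 - δ)) = (fun t => (fun u => W (u - 1)) (t - δ)) := by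
      funext t; congr 1; ring
    rw [hcongr]
    exact ⟨intOn_shift _ a δ (hi.mono_set (Set.Ioi_subset_Ioi (by linarith))),
      int_shift (fun u => W (u - 1)) a δ⟩
  -- Φ₁ beyond c
  have hc3 : (3:ℝ) ≤ 3 * (1 + δ) := by linarith
  have hbeyond : ∀ a, 3 * (1 + δ) ≤ a → IntegrableOn (Φ₁ W δ) (Set.Ioi a) ∧
      ∫ t in Set.Ioi a, Φ₁ W δ t = ∫ t in Set.Ioi (a - δ), W (t - 1) := by
    intro a ha
    have hEq : Set.EqOn (Φ₁ W δ) (fun t => W (t - 1 - δ)) (Set.Ioi a) := by
      intro t ht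
      simp only [Set.mem_Ioi] at ht
      unfold Φ₁
      rw [if_neg (by push Not; linarith)]
    obtain ⟨h1, h2⟩ := hshift a (by linarith)
    exact ⟨(integrableOn_congr_fun hEq measurableSet_Ioi).2 h1,
      by rw [setIntegral_congr_fun measurableSet_Ioi hEq, h2]⟩
  have hbelow : ∀ a, a ≤ 3 * (1 + δ) → IntegrableOn (Φ₁ W δ) (Set.Ioi a) ∧
      ∫ t in Set.Ioi a, Φ₁ W δ t = (3 * (1 + δ) - a) + ∫ t in Set.Ioi (3 * (1 + δ) - δ), W (t - 1) := by
    intro a ha
    have hEq : Set.EqOn (Φ₁ W δ) (fun _ => (1:ℝ)) (Set.Ioc a (3 * (1 + δ))) := by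
      intro t ht
      unfold Φ₁
      rw [if_pos ht.2]
    have h1 : IntegrableOn (Φ₁ W δ) (Set.Ioc a (3 * (1 + δ))) :=
      (integrableOn_congr_fun hEq measurableSet_Ioc).2 (by simp)
    obtain ⟨h2, h3⟩ := hbeyond (3 * (1 + δ)) le_rfl
    rw [← Set.Ioc_union_Ioi_eq_Ioi ha]
    refine ⟨h1.union h2, ?_⟩
    rw [setIntegral_union (Set.Ioc_disjoint_Ioi le_rfl) measurableSet_Ioi h1 h2, h3,
      setIntegral_congr_fun measurableSet_Ioc hEq, setIntegral_const]
    simp only [smul_eq_mul, mul_one, Measure.real, Real.volume_Ioc]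
    rw [ENNReal.toReal_ofReal (by linarith)]
  have hint1 : IntegrableOn (Φ₁ W δ) (Set.Ioi s) := by
    rcases le_total s (3 * (1 + δ)) with h | h
    · exact (hbelow s h).1
    · exact (hbeyond s h).1
  -- Φ₂
  have hanti2 : AntitoneOn (Φ₂ τ δ) (Set.Ici (max s 3)) := by
    intro x hx y hy hxy
    unfold Φ₂ HW
    apply mul_le_mul_of_nonneg_left _ hτ0
    apply Real.exp_le_exp.mpr
    have : max 2 (x - 1 - δ) ≤ max 2 (y - 1 - δ) := max_le_max le_rfl (by linarith)
    linarith
  have hnn2 : ∀ t, 0 ≤ Φ₂ τ δ t := by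
    intro t
    unfold Φ₂
    exact mul_nonneg hτ0 (HW_pos _).le
  have hΦ2le : ∀ t, Φ₂ τ δ t ≤ τ * Real.exp δ * HW (t - 1) := by
    intro t
    unfold Φ₂ HW
    rw [mul_assoc, ← Real.exp_add]
    apply mul_le_mul_of_nonneg_left _ hτ0
    apply Real.exp_le_exp.mpr
    have : t - 1 - δ ≤ max 2 (t - 1 - δ) := le_max_right _ _
    linarith
  have hcont2 : Continuous (Φ₂ τ δ) := by
    unfold Φ₂ HW
    fun_prop
  have hHWm : IntegrableOn (fun t => HW (t - 1)) (Set.Ioi (max s 3)) :=
    hHW.mono_set (Set.Ioi_subset_Ioi (le_max_right _ _))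
  have hint2 : IntegrableOn (Φ₂ τ δ) (Set.Ioi (max s 3)) := by
    refine Integrable.mono' (hHWm.const_mul (τ * Real.exp δ)) hcont2.aestronglyMeasurable ?_
    refine Filter.Eventually.of_forall ?_
    intro t
    rw [Real.norm_of_nonneg (hnn2 t)]
    exact hΦ2le t
  refine ⟨hanti1, hnn1, hint1, hanti2, hnn2, hint2, ?_⟩
  -- the main inequality
  have hHpos : 0 < HU s := HU_pos s hs
  have hUb : U s ≤ 21 * HU s := hP.Ubd s hs
  have hU0 : 0 ≤ U s := hP.U0 s hs
  have hUeq := hP.Ueq s hs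
  -- bound for I2
  have hI2 : ∫ t in Set.Ioi (max s 3), Φ₂ τ δ t ≤ τ * Real.exp δ * (7 / 8 * (s * HU s)) := by
    have h1 : ∫ t in Set.Ioi (max s 3), Φ₂ τ δ t ≤
        ∫ t in Set.Ioi (max s 3), τ * Real.exp δ * HW (t - 1) :=
      setIntegral_mono hint2 (hHWm.const_mul _) hΦ2le
    rw [integral_const_mul] at h1
    exact h1.trans (mul_le_mul_of_nonneg_left (hcU s hs) (by positivity))
  -- value at max s 3
  have hm3 : (max s 3 / s) * HW (max s 3 - 1) = 21 / 8 * HU s := by
    unfold HW HU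
    rcases le_or_gt s 3 with h | h
    · rw [max_eq_right h, if_pos h]
      norm_num
      field_simp
      norm_num
    · rw [max_eq_left h.le, if_neg (by push Not; exact h), div_self hs.ne']
      ring_nf
  have hPhi2 : (max s 3 / s) * Φ₂ τ δ (max s 3) ≤ τ * Real.exp δ * (21 / 8 * HU s) := by
    have h1 := hΦ2le (max s 3)
    have h2 : 0 ≤ max s 3 / s := by positivity
    calc (max s 3 / s) * Φ₂ τ δ (max s 3) ≤ (max s 3 / s) * (τ * Real.exp δ * HW (max s 3 - 1)) :=
          mul_le_mul_of_nonneg_left h1 h2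
      _ = τ * Real.exp δ * ((max s 3 / s) * HW (max s 3 - 1)) := by ring
      _ = _ := by rw [hm3]
  -- bounds for I1 and Φ₁ s
  have hI1 : (1 / s) * ∫ t in Set.Ioi s, Φ₁ W δ t ≤ U s + 19 * δ * HU s ∧ Φ₁ W δ s ≤ 56 * HU s := by
    rcases le_or_gt s (3 * (1 + δ)) with hA | hB
    · -- case A
      have hHUge : (8:ℝ) / 21 * (994 / 1000) ≤ HU s := by
        unfold HU
        split_ifs with h
        · rw [div_div, le_div_iff₀ (by positivity)]
          nlinarith
        · push Not at h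
          have : 1 - (s - 3) ≤ Real.exp (-(s - 3)) := by
            have := Real.add_one_le_exp (-(s - 3)); linarith
          nlinarith
      have e1 := (hbelow s hA).2
      have e2 : ∫ t in Set.Ioi s, Φ₁ W δ t ≤ s * U s + 3 * δ := by
        rw [e1, hUeq, show 3 * (1 + δ) - δ = 3 + 2 * δ by ring]
        rcases le_or_gt s 3 with h | h
        · rw [max_eq_right h, max_eq_left (by linarith)]
          have := antiW hP hi 3 (3 + 2 * δ) le_rfl (by linarith)
          linarith
        · rw [max_eq_left h.le, max_eq_right (by linarith)]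
          rcases le_or_gt s (3 + 2 * δ) with h' | h'
          · have := antiW hP hi s (3 + 2 * δ) h.le h'
            linarith
          · have h5 := splitW hP hi (3 + 2 * δ) s (by linarith) h'.le
            have h6 := hW1 (3 + 2 * δ - 1) (by linarith)
            have h7 : (s - (3 + 2 * δ)) * W (3 + 2 * δ - 1) ≤ (s - (3 + 2 * δ)) * 1 :=
              mul_le_mul_of_nonneg_left h6 (by linarith)
            linarith
      constructor
      · rw [one_div, inv_mul_le_iff₀ hs]
        refine e2.trans ?_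
        have h8 : 3 * δ ≤ s * (19 * δ * HU s) := by
          have h9 : (3:ℝ) ≤ 19 * (s * HU s) := by
            unfold HU
            split_ifs with h
            · rw [mul_div_cancel₀ _ hs.ne']; norm_num
            · push Not at h
              have : 1 - (s - 3) ≤ Real.exp (-(s - 3)) := by
                have := Real.add_one_le_exp (-(s - 3)); linarith
              have h10 : (994:ℝ) / 1000 ≤ Real.exp (-(s - 3)) := by nlinarith
              nlinarith
          nlinarith
        linarith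
      · unfold Φ₁
        rw [if_pos hA]
        linarith
    · -- case B
      have e1 := (hbeyond s hB.le).2
      have h3s : 3 < s := by linarith
      have hWs : W (s - 1 - δ) ≤ 56 * HU s := by
        have h1 := hP.Wbd (s - 1 - δ) (by linarith)
        have h2 : HW (s - 1 - δ) = Real.exp δ * (21 / 8 * HU s) := by
          unfold HW HU
          rw [if_neg (by push Not; exact h3s)]
          rw [show -(s - 1 - δ - 2) = δ + -(s - 3) by ring, Real.exp_add]
          ring
        rw [h2] at h1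
        nlinarith
      have hW0 : 0 ≤ W (s - 1 - δ) := hP.W0 _ (by linarith)
      constructor
      · rw [one_div, inv_mul_le_iff₀ hs, e1]
        have h5 := splitW hP hi (s - δ) s (by linarith) (by linarith)
        rw [hUeq.symm.trans hUeq] at hUeq
        rw [max_eq_left h3s.le, max_eq_right (by linarith : 3 - s ≤ 0)] at hUeq
        have h6 : (s - (s - δ)) * W (s - δ - 1) = δ * W (s - 1 - δ) := by
          rw [show s - (s - δ) = δ by ring, show s - δ - 1 = s - 1 - δ by ring]
        rw [h6] at h5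
        have h7 : δ * W (s - 1 - δ) ≤ δ * (56 * HU s) := mul_le_mul_of_nonneg_left hWs hδ0
        have h8 : δ * (56 * HU s) ≤ s * (19 * δ * HU s) := by
          have : 0 ≤ δ * HU s := by positivity
          nlinarith
        linarith
      · unfold Φ₁
        rw [if_neg (by push Not; exact hB)]
        exact hWs
  obtain ⟨hI1a, hI1b⟩ := hI1
  -- final computation
  set I1 := ∫ t in Set.Ioi s, Φ₁ W δ t
  set I2 := ∫ t in Set.Ioi (max s 3), Φ₂ τ δ t
  set H := HU s
  have hI2' : 1 / s * I2 ≤ τ * Real.exp δ * (7 / 8 * H) := by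
    rw [one_div, inv_mul_le_iff₀ hs]
    refine hI2.trans (le_of_eq ?_)
    ring
  have q1 : (1 + ε) * ((1 + ε) * (1 / s) * I1) ≤ (1 + 3 * ε) * (U s + 19 * δ * H) := by
    have : (1 + ε) * ((1 + ε) * (1 / s) * I1) = (1 + ε) ^ 2 * (1 / s * I1) := by ring
    rw [this]
    refine (mul_le_mul_of_nonneg_left hI1a (by positivity)).trans ?_
    apply mul_le_mul_of_nonneg_right
    · nlinarith
    · positivity
  have q2 : (1 + ε) * (ε * (s / s) * Φ₁ W δ s) ≤ 2 * ε * (56 * H) := by
    rw [div_self hs.ne']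
    have h1 : (1 + ε) * (ε * 1 * Φ₁ W δ s) = ((1 + ε) * ε) * Φ₁ W δ s := by ring
    rw [h1]
    calc ((1 + ε) * ε) * Φ₁ W δ s ≤ ((1 + ε) * ε) * (56 * H) :=
          mul_le_mul_of_nonneg_left hI1b (by positivity)
      _ ≤ 2 * ε * (56 * H) := by
          apply mul_le_mul_of_nonneg_right _ (by positivity)
          nlinarith
  have q3 : (1 + ε) * ((1 + ε) * (1 / s) * I2) ≤ (1 + 3 * ε) * (τ * (1002 / 1000) * (7 / 8 * H)) := by
    have : (1 + ε) * ((1 + ε) * (1 / s) * I2) = (1 + ε) ^ 2 * (1 / s * I2) := by ring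
    rw [this]
    have h1 : τ * Real.exp δ * (7 / 8 * H) ≤ τ * (1002 / 1000) * (7 / 8 * H) := by
      apply mul_le_mul_of_nonneg_right _ (by positivity)
      exact mul_le_mul_of_nonneg_left hexp1 hτ0
    refine (mul_le_mul_of_nonneg_left (hI2'.trans h1) (by positivity)).trans ?_
    apply mul_le_mul_of_nonneg_right
    · nlinarith
    · positivity
  have q4 : (1 + ε) * (ε * (max s 3 / s) * Φ₂ τ δ (max s 3)) ≤
      2 * ε * (τ * (1002 / 1000) * (21 / 8 * H)) := by
    have h0 : (1 + ε) * (ε * (max s 3 / s) * Φ₂ τ δ (max s 3)) =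
        ((1 + ε) * ε) * ((max s 3 / s) * Φ₂ τ δ (max s 3)) := by ring
    rw [h0]
    have h1 : τ * Real.exp δ * (21 / 8 * H) ≤ τ * (1002 / 1000) * (21 / 8 * H) := by
      apply mul_le_mul_of_nonneg_right _ (by positivity)
      exact mul_le_mul_of_nonneg_left hexp1 hτ0
    calc ((1 + ε) * ε) * ((max s 3 / s) * Φ₂ τ δ (max s 3))
        ≤ ((1 + ε) * ε) * (τ * (1002 / 1000) * (21 / 8 * H)) :=
          mul_le_mul_of_nonneg_left (hPhi2.trans h1) (by positivity)
      _ ≤ 2 * ε * (τ * (1002 / 1000) * (21 / 8 * H)) := by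
          apply mul_le_mul_of_nonneg_right _ (by positivity)
          nlinarith
  refine (add_le_add (add_le_add q1 q2) (add_le_add q3 q4)).trans ?_
  have k1 : 0 ≤ H := hHpos.le
  have k2 : 0 ≤ τ * H := by positivity
  have k3 : ε * U s ≤ 21 * (ε * H) := by nlinarith
  have k4 : ε * (τ * H) ≤ 1 / 1000 * (τ * H) := mul_le_mul_of_nonneg_right hε1 k2
  have k6 : 0 ≤ ε * H := by positivity
  have k7 : 0 ≤ δ * H := by positivity
  have k8 : 10000 * (ε * H + δ * H) ≤ τ * H := by
    have := mul_le_mul_of_nonneg_right hτ k1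
    linarith
  have k9 : ε * (δ * H) ≤ 1 / 1000 * (δ * H) := mul_le_mul_of_nonneg_right hε1 k7
  have expand : (1 + 3 * ε) * (U s + 19 * δ * H) + 2 * ε * (56 * H) +
      ((1 + 3 * ε) * (τ * (1002 / 1000) * (7 / 8 * H)) +
        2 * ε * (τ * (1002 / 1000) * (21 / 8 * H))) =
      U s + 3 * (ε * U s) + 19 * (δ * H) + 57 * (ε * (δ * H)) + 112 * (ε * H) +
      (1002 / 1000 * (7 / 8)) * (τ * H) + (3 * (1002 / 1000) * (7 / 8) + 2 * (1002 / 1000) * (21 / 8)) *
        (ε * (τ * H)) := by ring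
  rw [expand]
  linarith

end Pool.Agent.TCub
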