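import Pool.Agent.TCub.Stmts

open Finset MeasureTheory

namespace Pool.Agent.TCub

namespace StW

lemma HU_pos (s : ℝ) (hs : 0 < s) : 0 < HU s := by
  unfold HU
  split_ifs
  · positivity
  · positivity

lemma HU_anti : AntitoneOn HU (Set.Ioi 0) := by
  intro x hx y hy hxy
  simp only [Set.mem_Ioi] at hx hy
  unfold HU
  by_cases h1 : y ≤ 3
  · rw [if_pos h1, if_pos (hxy.trans h1)]
    exact div_le_div_of_nonneg_left (by norm_num) hx hxy
  · rw [if_neg h1]
    push Not at h1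
    by_cases h2 : x ≤ 3
    · rw [if_pos h2]
      have e1 : Real.exp (-(y - 3)) ≤ 1 := by
        rw [Real.exp_le_one_iff]; linarith
      have e2 : (8/21 : ℝ) ≤ 8/7/x := by
        rw [div_div, div_le_div_iff₀ (by norm_num) (by positivity)]
        linarith
      nlinarith
    · rw [if_neg h2]
      push Not at h2
      have : Real.exp (-(y - 3)) ≤ Real.exp (-(x - 3)) := by
        apply Real.exp_le_exp.mpr; linarith
      linarith

lemma HU_le_HW (s δ : ℝ) (hs : 2 ≤ s) (_h0 : 0 ≤ δ) (h1 : δ ≤ 1 / 10) :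
    HU (s - 1 - δ) ≤ 12 * HW s := by
  unfold HU HW
  split_ifs with h
  · have e1 : (8:ℝ) / 7 / (s - 1 - δ) ≤ 8 / 7 / (9 / 10) := by
      apply div_le_div_of_nonneg_left (by norm_num) (by norm_num) (by linarith)
    have e2 : Real.exp (-(21 / 10)) ≤ Real.exp (-(s - 2)) := by
      apply Real.exp_le_exp.mpr; linarith
    have e3 : (11:ℝ) / 100 ≤ Real.exp (-(21 / 10)) := by
      rw [Real.exp_neg, ← one_div, le_div_iff₀ (Real.exp_pos _)]
      have h3 : Real.exp (21 / 10) ≤ Real.exp 1 ^ (3:ℕ) / Real.exp (9/10) := by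
        rw [← Real.exp_nat_mul, ← Real.exp_sub]
        apply Real.exp_le_exp.mpr; norm_num
      have h4 : Real.exp 1 < 2.7182818286 := Real.exp_one_lt_d9
      have h5 : (9:ℝ)/10 + 1 + (9/10)^2/2 ≤ Real.exp (9/10) := by
        have := Real.quadratic_le_exp_of_nonneg (show (0:ℝ) ≤ 9/10 by norm_num)
        linarith
      have h6 : Real.exp 1 ^ (3:ℕ) ≤ 2.7182818286 ^ 3 := by
        apply pow_le_pow_left₀ (Real.exp_pos 1).le h4.le
      have h7 : Real.exp 1 ^ (3:ℕ) / Real.exp (9/10) ≤ 2.7182818286 ^ 3 / ((9:ℝ)/10 + 1 + (9/10)^2/2) := by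
        apply div_le_div₀ (by norm_num) h6 (by norm_num) h5
      have h8 : (2.7182818286:ℝ) ^ 3 / ((9:ℝ)/10 + 1 + (9/10)^2/2) ≤ 100 / 11 := by norm_num
      nlinarith [h3, h7, h8]
    have e4 : (8:ℝ) / 7 / (9 / 10) ≤ 12 * (11/100) := by norm_num
    linarith
  · push Not at h
    have e1 : Real.exp (-(s - 1 - δ - 3)) = Real.exp (-(s-2)) * Real.exp (2 + δ) := by
      rw [← Real.exp_add]; congr 1; ring
    rw [e1]
    have e2 : Real.exp (2 + δ) ≤ Real.exp 1 ^ (3:ℕ) := by
      rw [← Real.exp_nat_mul]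
      apply Real.exp_le_exp.mpr; push_cast; linarith
    have h4 : Real.exp 1 < 2.7182818286 := Real.exp_one_lt_d9
    have h6 : Real.exp 1 ^ (3:ℕ) ≤ 2.7182818286 ^ 3 := by
      apply pow_le_pow_left₀ (Real.exp_pos 1).le h4.le
    have h7 : Real.exp (2 + δ) ≤ 21 := by
      refine e2.trans (h6.trans ?_); norm_num
    have h8 := Real.exp_pos (-(s-2))
    nlinarith

/-- the function `f(t) = U(t-1) + τ HU(t-1)` -/
lemma anti_shift {F : ℝ → ℝ} (hF : AntitoneOn F (Set.Ioi 0)) (c : ℝ) :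
    AntitoneOn (fun t => F (t - c)) (Set.Ioi c) := by
  intro x hx y hy hxy
  simp only [Set.mem_Ioi] at hx hy
  exact hF (by simpa using hx) (by simpa using hy) (by linarith)

lemma int_Icc {F : ℝ → ℝ} (hF : AntitoneOn F (Set.Ioi 0)) (a b c : ℝ) (h : c < a) :
    IntegrableOn (fun t => F (t - c)) (Set.Icc a b) := by
  apply AntitoneOn.integrableOn_isCompact isCompact_Icc
  intro x hx y hy hxy
  exact anti_shift hF c (by simp only [Set.mem_Ioi]; linarith [hx.1])
    (by simp only [Set.mem_Ioi]; linarith [hy.1]) hxy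

lemma int_shift (f : ℝ → ℝ) (s δ : ℝ) :
    ∫ t in Set.Ioi s, f (t - δ) = ∫ t in Set.Ioi (s - δ), f t := by
  have h := (measurePreserving_sub_right (volume : Measure ℝ) δ).setIntegral_preimage_emb
    (MeasurableEquiv.subRight δ).measurableEmbedding f (Set.Ioi (s - δ))
  rw [← h]
  congr 2
  ext x
  simp

lemma intOn_shift (f : ℝ → ℝ) (s δ : ℝ) (hf : IntegrableOn f (Set.Ioi (s - δ))) :
    IntegrableOn (fun t => f (t - δ)) (Set.Ioi s) := by
  have h := (measurePreserving_sub_right (volume : Measure ℝ) δ).integrableOn_comp_preimage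
    (MeasurableEquiv.subRight δ).measurableEmbedding (f := f) (s := Set.Ioi (s - δ))
  have h2 : (fun x => x - δ) ⁻¹' (Set.Ioi (s - δ)) = Set.Ioi s := by
    ext x; simp
  rw [h2] at h
  exact h.2 hf

/-- key: for `F` antitone on `(0,∞)`, `F ≥ 0` -/
lemma key {F : ℝ → ℝ} (hF : AntitoneOn F (Set.Ioi 0))
    (hi : IntegrableOn (fun t => F (t - 1)) (Set.Ioi 2)) (s δ : ℝ) (hs : 2 ≤ s) (h0 : 0 ≤ δ)
    (h1 : δ ≤ 1 / 10) :
    IntegrableOn (fun t => F (t - 1 - δ)) (Set.Ioi s) ∧
    ∫ t in Set.Ioi s, F (t - 1 - δ) ≤ δ * F (s - 1 - δ) + ∫ t in Set.Ioi s, F (t - 1) := by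
  have hA : IntegrableOn (fun t => F (t - 1)) (Set.Icc (s - δ) s) := int_Icc hF _ _ _ (by linarith)
  have hA' : IntegrableOn (fun t => F (t - 1)) (Set.Ioc (s - δ) s) :=
    hA.mono_set Set.Ioc_subset_Icc_self
  have hB : IntegrableOn (fun t => F (t - 1)) (Set.Ioi s) :=
    hi.mono_set (Set.Ioi_subset_Ioi hs)
  have hC : IntegrableOn (fun t => F (t - 1)) (Set.Ioi (s - δ)) := by
    rw [← Set.Ioc_union_Ioi_eq_Ioi (show s - δ ≤ s by linarith)]
    exact hA'.union hB
  have hD := intOn_shift (fun t => F (t - 1)) s δ hC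
  have hcongr : (fun t => F (t - 1 - δ)) = (fun t => (fun u => F (u - 1)) (t - δ)) := by
    funext t; congr 1; ring
  refine ⟨by rw [hcongr]; exact hD, ?_⟩
  rw [hcongr, int_shift (fun u => F (u - 1)) s δ,
    ← Set.Ioc_union_Ioi_eq_Ioi (show s - δ ≤ s by linarith),
    setIntegral_union (Set.Ioc_disjoint_Ioi le_rfl) measurableSet_Ioi hA' hB]
  have : ∫ t in Set.Ioc (s - δ) s, F (t - 1) ≤ δ * F (s - 1 - δ) := by
    have h3 : ∫ t in Set.Ioc (s - δ) s, F (t - 1) ≤ ∫ t in Set.Ioc (s - δ) s, F (s - 1 - δ) := by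
      apply setIntegral_mono_on hA' (by simp) measurableSet_Ioc
      intro x hx
      apply hF
      · simp only [Set.mem_Ioi]; linarith
      · simp only [Set.mem_Ioi]; linarith [hx.1]
      · linarith [hx.1]
    refine h3.trans (le_of_eq ?_)
    rw [setIntegral_const]
    simp only [smul_eq_mul, Measure.real, Real.volume_Ioc]
    rw [show s - (s - δ) = δ by ring, ENNReal.toReal_ofReal h0]
  linarith

end StW

open StW in
theorem tStW (hcon : St_con) : St_stW := by
  obtain ⟨_, hHU2, _, hcW⟩ := hcon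
  refine ⟨1 / 1000, 10000, by norm_num, by norm_num, by norm_num, ?_⟩
  intro U W hP ε δ τ hε0 hε1 hδ0 hδ1 hτ s hs
  have hδ2 : δ ≤ 1 / 10 := by linarith
  have hτ0 : 0 ≤ τ := by nlinarith
  -- integrability of U(t-1) on Ioi 2
  have hUi : IntegrableOn (fun t => U (t - 1)) (Set.Ioi 2) := by
    have hm : AEStronglyMeasurable (fun t => U (t - 1)) (volume.restrict (Set.Ioi 2)) := by
      apply AEMeasurable.aestronglyMeasurable
      apply aemeasurable_restrict_of_antitoneOn measurableSet_Ioi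
      exact (anti_shift hP.Uanti 1).mono (Set.Ioi_subset_Ioi (by norm_num))
    refine Integrable.mono' (hHU2.const_mul 21) hm ?_
    refine (ae_restrict_iff' measurableSet_Ioi).2 (Filter.Eventually.of_forall ?_)
    intro t ht
    simp only [Set.mem_Ioi] at ht
    rw [Real.norm_of_nonneg (hP.U0 _ (by linarith))]
    exact hP.Ubd _ (by linarith)
  obtain ⟨iU, bU⟩ := key hP.Uanti hUi s δ hs hδ0 hδ2
  obtain ⟨iH, bH⟩ := key HU_anti hHU2 s δ hs hδ0 hδ2
  have hUs : U (s - 1 - δ) ≤ 21 * HU (s - 1 - δ) := hP.Ubd _ (by linarith)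
  have hHs : HU (s - 1 - δ) ≤ 12 * HW s := HU_le_HW s δ hs hδ0 hδ2
  have hHpos : 0 ≤ HU (s - 1 - δ) := (HU_pos _ (by linarith)).le
  have hHWpos : 0 < HW s := Real.exp_pos _
  have hWb : W s ≤ 21 * HW s := hP.Wbd s hs
  have hW0 : 0 ≤ W s := hP.W0 s hs
  have hUs0 : 0 ≤ U (s - 1 - δ) := hP.U0 _ (by linarith)
  have hWeq := hP.Weq s hs
  have hcW' := hcW s hs
  refine ⟨?_, ?_, ?_, ?_⟩
  · intro x hx y hy hxy
    simp only [Set.mem_Ici] at hx hy
    unfold Φ₃
    have a1 : U (y - 1 - δ) ≤ U (x - 1 - δ) := hP.Uanti (by simp only [Set.mem_Ioi]; linarith)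
      (by simp only [Set.mem_Ioi]; linarith) (by linarith)
    have a2 : HU (y - 1 - δ) ≤ HU (x - 1 - δ) := HU_anti (by simp only [Set.mem_Ioi]; linarith)
      (by simp only [Set.mem_Ioi]; linarith) (by linarith)
    have a3 := mul_le_mul_of_nonneg_left a2 hτ0
    linarith
  · intro t ht
    unfold Φ₃
    have a1 := hP.U0 (t - 1 - δ) (by linarith)
    have a2 := (HU_pos (t - 1 - δ) (by linarith)).le
    positivity
  · exact iU.add (iH.const_mul τ)
  · have e1 : ∫ t in Set.Ioi s, Φ₃ U τ δ t =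
        (∫ t in Set.Ioi s, U (t - 1 - δ)) + τ * ∫ t in Set.Ioi s, HU (t - 1 - δ) := by
      unfold Φ₃
      rw [integral_add iU (iH.const_mul τ), integral_const_mul]
    have hs0 : 0 < s := by linarith
    rw [e1, div_self hs0.ne']
    unfold Φ₃
    set A := ∫ t in Set.Ioi s, U (t - 1 - δ)
    set B := ∫ t in Set.Ioi s, HU (t - 1 - δ)
    have c1 : A ≤ δ * U (s - 1 - δ) + s * W s := by rw [hWeq]; exact bU
    have c2 : B ≤ δ * HU (s - 1 - δ) + 7 / 8 * (s * HW s) := by linarith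
    have c3 : A + τ * B ≤ δ * (252 * HW s) + s * W s + τ * (δ * (12 * HW s) + 7 / 8 * (s * HW s)) := by
      have d1 : δ * U (s - 1 - δ) ≤ δ * (252 * HW s) := by
        apply mul_le_mul_of_nonneg_left _ hδ0; linarith
      have d2 : δ * HU (s - 1 - δ) ≤ δ * (12 * HW s) := by
        apply mul_le_mul_of_nonneg_left _ hδ0; linarith
      have d3 : τ * B ≤ τ * (δ * (12 * HW s) + 7 / 8 * (s * HW s)) := by
        apply mul_le_mul_of_nonneg_left _ hτ0; linarith
      linarith
    have c4 : 1 / s * (A + τ * B) ≤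
        δ * (126 * HW s) + W s + τ * (δ * (6 * HW s) + 7 / 8 * HW s) := by
      rw [one_div, inv_mul_le_iff₀ hs0]
      refine c3.trans ?_
      have f1 : δ * (252 * HW s) ≤ s * (δ * (126 * HW s)) := by
        have : 0 ≤ δ * HW s := by positivity
        nlinarith
      have f2 : τ * (δ * (12 * HW s)) ≤ s * (τ * (δ * (6 * HW s))) := by
        have : 0 ≤ τ * (δ * HW s) := by positivity
        nlinarith
      nlinarith
    have g1 : (1 + ε) * ((1 + ε) * (1 / s) * (A + τ * B)) ≤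
        (1 + 3 * ε) * (δ * (126 * HW s) + W s + τ * (δ * (6 * HW s) + 7 / 8 * HW s)) := by
      have : (1 + ε) * ((1 + ε) * (1 / s) * (A + τ * B)) = (1 + ε) ^ 2 * (1 / s * (A + τ * B)) := by ring
      rw [this]
      have h2 : (1 + ε) ^ 2 * (1 / s * (A + τ * B)) ≤
          (1 + ε) ^ 2 * (δ * (126 * HW s) + W s + τ * (δ * (6 * HW s) + 7 / 8 * HW s)) :=
        mul_le_mul_of_nonneg_left c4 (by positivity)
      refine h2.trans ?_
      apply mul_le_mul_of_nonneg_right
      · nlinarith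
      · positivity
    have g2 : (1 + ε) * (ε * 1 * (U (s - 1 - δ) + τ * HU (s - 1 - δ))) ≤
        2 * ε * (252 * HW s + τ * (12 * HW s)) := by
      have h3 : U (s - 1 - δ) + τ * HU (s - 1 - δ) ≤ 252 * HW s + τ * (12 * HW s) := by
        have := mul_le_mul_of_nonneg_left hHs hτ0
        linarith
      have h4 : (1 + ε) * (ε * 1 * (U (s - 1 - δ) + τ * HU (s - 1 - δ))) =
        ((1 + ε) * ε) * (U (s - 1 - δ) + τ * HU (s - 1 - δ)) := by ring
      rw [h4]
      calc ((1 + ε) * ε) * (U (s - 1 - δ) + τ * HU (s - 1 - δ))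
          ≤ ((1 + ε) * ε) * (252 * HW s + τ * (12 * HW s)) :=
            mul_le_mul_of_nonneg_left h3 (by positivity)
        _ ≤ 2 * ε * (252 * HW s + τ * (12 * HW s)) := by
            apply mul_le_mul_of_nonneg_right _ (by positivity)
            nlinarith
    refine (add_le_add g1 g2).trans ?_
    have k1 : 0 ≤ HW s := hHWpos.le
    have k2 : 3 * ε * W s ≤ 63 * ε * HW s := by nlinarith
    have k3 : 0 ≤ τ * HW s := by positivity
    have k4 : ε * (τ * HW s) ≤ 1 / 1000 * (τ * HW s) := mul_le_mul_of_nonneg_right hε1 k3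
    have k5 : δ * (τ * HW s) ≤ 1 / 1000 * (τ * HW s) := mul_le_mul_of_nonneg_right hδ1 k3
    have k6 : 0 ≤ ε * HW s := by positivity
    have k7 : 0 ≤ δ * HW s := by positivity
    have k8 : 10000 * (ε * HW s + δ * HW s) ≤ τ * HW s := by
      have := mul_le_mul_of_nonneg_right hτ k1
      linarith
    have k9 : ε * (δ * HW s) ≤ 1 / 1000 * (δ * HW s) := mul_le_mul_of_nonneg_right hε1 k7
    have k10 : ε * (δ * (τ * HW s)) ≤ 1 / 1000 * (δ * (τ * HW s)) :=
      mul_le_mul_of_nonneg_right hε1 (by positivity)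
    have expand : (1 + 3 * ε) * (δ * (126 * HW s) + W s + τ * (δ * (6 * HW s) + 7 / 8 * HW s)) +
      2 * ε * (252 * HW s + τ * (12 * HW s)) =
      W s + 3 * ε * W s + 126 * (δ * HW s) + 378 * (ε * (δ * HW s)) + 6 * (δ * (τ * HW s)) +
      18 * (ε * (δ * (τ * HW s))) + 7 / 8 * (τ * HW s) + 21 / 8 * (ε * (τ * HW s)) +
      504 * (ε * HW s) + 24 * (ε * (τ * HW s)) := by ring
    rw [expand]
    linarith

end Pool.Agent.TCub
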