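import Pool.Agent.TCub.Stmts2

open Finset

namespace Pool.Agent.TCub

namespace T1s

theorem pen_nonneg (N j : ℕ) : 0 ≤ pen N j := by
  unfold pen
  by_cases h : 425 * N ≤ j ∧ j < 1405 * N
  · rw [if_pos h]
    have hN : 1 ≤ N := by
      rcases Nat.eq_zero_or_pos N with h0 | h0
      · subst h0; omega
      · exact h0
    have hN' : (0:ℝ) < N := by exact_mod_cast hN
    have h1 : (j:ℝ) / (1000 * N) ≤ 1405 / 1000 := by
      rw [div_le_iff₀ (by positivity)]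
      have : (j:ℝ) ≤ 1405 * N := by exact_mod_cast h.2.le
      linarith
    have h2 : ((j:ℝ) / (1000 * N)) / (1405 / 1000) ≤ 1 := by
      rw [div_le_one (by norm_num)]
      exact h1
    have h3 : (0:ℝ) ≤ (if 999 * N ≤ j ∧ j < 1001 * N then 1 else 0) := by
      split_ifs <;> norm_num
    have h4 : 0 ≤ (1157 / 1000) * (1 - ((j:ℝ) / (1000 * N)) / (1405 / 1000)) :=
      mul_nonneg (by norm_num) (by linarith)
    linarith
  · rw [if_neg h]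

theorem WW_nonneg (M K : ℕ) (x : Fin 3 → ℤ) : 0 ≤ WW M K x := by
  unfold WW
  exact Finset.prod_nonneg (fun i _ => Nat.cast_nonneg _)

/-- a repeated large prime factor -/
def Bad (M : ℕ) (x : Fin 3 → ℤ) : Prop :=
  ∃ p : ℕ, p.Prime ∧ ((p ^ 2 : ℕ) : ℤ) ∣ F3 x ∧ zz M ≤ p ∧
    ((p:ℝ) ≤ (M:ℝ) ^ (999 / 1000 : ℝ) ∨ (M:ℝ) ^ (1001 / 1000 : ℝ) ≤ p)

open Classical in
theorem tstar_le (hDM : St_DM) {M K N : ℕ} (hK : 1 ≤ K)
    (hk : ∀ x ∈ bx M K, Sft (zz M) x →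
      0 < 1 - ∑ p ∈ (F3 x).natAbs.primeFactors, pen N (lab M N p) →
      ArithmeticFunction.cardFactors (F3 x).natAbs ≤ 2 ∨ Bad M x) :
    Tstar M K N ≤ (M:ℝ) ^ (3 * (K - 1)) *
      ((((bx M K).filter (fun x => Sft (zz M) x ∧ ArithmeticFunction.cardFactors (F3 x).natAbs ≤ 2)).card : ℝ) +
        (((bx M K).filter (Bad M)).card : ℝ)) := by
  have h1 : ∀ x ∈ bx M K, (if Sft (zz M) x then
      WW M K x * (1 - ∑ p ∈ (F3 x).natAbs.primeFactors, pen N (lab M N p)) else 0) ≤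
      (M:ℝ) ^ (3 * (K - 1)) * ((if Sft (zz M) x ∧ ArithmeticFunction.cardFactors (F3 x).natAbs ≤ 2 then 1 else 0) +
        (if Bad M x then 1 else 0)) := by
    intro x hx
    have hM0 : (0:ℝ) ≤ (M:ℝ) ^ (3 * (K - 1)) := by positivity
    have hr0 : (0:ℝ) ≤ (if Sft (zz M) x ∧ ArithmeticFunction.cardFactors (F3 x).natAbs ≤ 2 then 1 else 0) +
        (if Bad M x then 1 else 0) := by
      split_ifs <;> norm_num
    by_cases hs : Sft (zz M) x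
    · rw [if_pos hs]
      by_cases hp : 0 < 1 - ∑ p ∈ (F3 x).natAbs.primeFactors, pen N (lab M N p)
      · have h2 := hk x hx hs hp
        have h3 : (1:ℝ) ≤ (if Sft (zz M) x ∧ ArithmeticFunction.cardFactors (F3 x).natAbs ≤ 2 then 1 else 0) +
            (if Bad M x then 1 else 0) := by
          rcases h2 with h2 | h2
          · rw [if_pos (show Sft (zz M) x ∧ ArithmeticFunction.cardFactors (F3 x).natAbs ≤ 2 from ⟨hs, h2⟩)]
            split_ifs <;> norm_num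
          · rw [if_pos h2]; split_ifs <;> norm_num
        have h4 : 0 ≤ ∑ p ∈ (F3 x).natAbs.primeFactors, pen N (lab M N p) :=
          Finset.sum_nonneg (fun p _ => pen_nonneg _ _)
        have h5 := hDM.2.2.2.2 M K x hK
        have h6 := WW_nonneg M K x
        have h7 : WW M K x * (1 - ∑ p ∈ (F3 x).natAbs.primeFactors, pen N (lab M N p)) ≤
            WW M K x * 1 := mul_le_mul_of_nonneg_left (by linarith) h6
        have h8 : (M:ℝ) ^ (3 * (K - 1)) * 1 ≤ (M:ℝ) ^ (3 * (K - 1)) *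
            ((if Sft (zz M) x ∧ ArithmeticFunction.cardFactors (F3 x).natAbs ≤ 2 then 1 else 0) +
            (if Bad M x then 1 else 0)) := mul_le_mul_of_nonneg_left h3 hM0
        linarith
      · push Not at hp
        have h6 := WW_nonneg M K x
        have h7 : WW M K x * (1 - ∑ p ∈ (F3 x).natAbs.primeFactors, pen N (lab M N p)) ≤ 0 :=
          mul_nonpos_of_nonneg_of_nonpos h6 hp
        exact le_trans h7 (mul_nonneg hM0 hr0)
    · rw [if_neg hs]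
      exact mul_nonneg hM0 hr0
  have h2 : Tstar M K N = ∑ x ∈ bx M K, (if Sft (zz M) x then
      WW M K x * (1 - ∑ p ∈ (F3 x).natAbs.primeFactors, pen N (lab M N p)) else 0) := rfl
  rw [h2]
  refine le_trans (Finset.sum_le_sum h1) (le_of_eq ?_)
  rw [← Finset.mul_sum, Finset.sum_add_distrib, Finset.sum_boole, Finset.sum_boole]

theorem bx_mem {M K : ℕ} {x : Fin 3 → ℤ} : x ∈ bx M K ↔ ∀ i, 1 ≤ x i ∧ x i ≤ K * M := by
  unfold bx
  rw [Fintype.mem_piFinset]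
  simp only [Finset.mem_Icc]

/-- the target set -/
def Tg (X : ℝ) : Set (ℕ × ℕ × ℕ) := Tg8 X

theorem Tg_finite (X : ℝ) : (Tg X).Finite := by
  refine Set.Finite.subset (((Finset.range (⌊X⌋₊ + 1)) ×ˢ ((Finset.range (⌊X⌋₊ + 1)) ×ˢ
    (Finset.range (⌊X⌋₊ + 1)))) : Finset (ℕ × ℕ × ℕ)).finite_toSet ?_
  rintro ⟨a, b, c⟩ ⟨h1, h2, h3, h4, -, -⟩
  simp only [] at h1 h2 h3 h4
  have h5 : a ^ 3 + b ^ 3 + c ^ 3 ≤ ⌊X⌋₊ := Nat.le_floor h4
  have ha : a ≤ a ^ 3 := Nat.le_self_pow (by norm_num) a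
  have hb : b ≤ b ^ 3 := Nat.le_self_pow (by norm_num) b
  have hc : c ≤ c ^ 3 := Nat.le_self_pow (by norm_num) c
  simp only [Finset.coe_product, Set.mem_prod, Finset.mem_coe, Finset.mem_range]
  omega

open Classical in
theorem count_le {M K : ℕ} {X : ℝ} (hX : 3 * ((K:ℝ) * M) ^ 3 ≤ X)
    (hX2 : X ^ (7 / 50 : ℝ) ≤ zz M) :
    (((bx M K).filter (fun x => Sft (zz M) x ∧ ArithmeticFunction.cardFactors (F3 x).natAbs ≤ 2)).card : ℝ) ≤
      ((Tg X).ncard : ℝ) := by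
  have h1 : ((bx M K).filter (fun x => Sft (zz M) x ∧ ArithmeticFunction.cardFactors (F3 x).natAbs ≤ 2)).card ≤
      (Tg_finite X).toFinset.card := by
    refine Finset.card_le_card_of_injOn (fun x => ((x 0).toNat, (x 1).toNat, (x 2).toNat)) ?_ ?_
    · intro x hx
      rw [Finset.mem_coe, Finset.mem_filter] at hx
      obtain ⟨hx1, hx2⟩ := hx
      rw [bx_mem] at hx1
      rw [Finset.mem_coe, Set.Finite.mem_toFinset]
      obtain ⟨a, ha⟩ : ∃ a : ℕ, x 0 = a := ⟨(x 0).toNat, by have := (hx1 0).1; omega⟩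
      obtain ⟨b, hb⟩ : ∃ a : ℕ, x 1 = a := ⟨(x 1).toNat, by have := (hx1 1).1; omega⟩
      obtain ⟨c, hc⟩ : ∃ a : ℕ, x 2 = a := ⟨(x 2).toNat, by have := (hx1 2).1; omega⟩
      have hF : (F3 x).natAbs = a ^ 3 + b ^ 3 + c ^ 3 := by
        unfold F3
        rw [ha, hb, hc]
        have : ((a:ℤ) ^ 3 + (b:ℤ) ^ 3 + (c:ℤ) ^ 3) = ((a ^ 3 + b ^ 3 + c ^ 3 : ℕ) : ℤ) := by
          push_cast; ring
        rw [this, Int.natAbs_natCast]
      have ha1 := hx1 0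
      have hb1 := hx1 1
      have hc1 := hx1 2
      rw [ha] at ha1
      rw [hb] at hb1
      rw [hc] at hc1
      show ((x 0).toNat, (x 1).toNat, (x 2).toNat) ∈ Tg X
      rw [ha, hb, hc]
      simp only [Int.toNat_natCast]
      refine ⟨by exact_mod_cast ha1.1, by exact_mod_cast hb1.1, by exact_mod_cast hc1.1, ?_, ?_, ?_⟩
      · refine le_trans ?_ hX
        have ha2 : (a:ℝ) ≤ K * M := by exact_mod_cast ha1.2
        have hb2 : (b:ℝ) ≤ K * M := by exact_mod_cast hb1.2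
        have hc2 : (c:ℝ) ≤ K * M := by exact_mod_cast hc1.2
        push_cast
        have ha3 := pow_le_pow_left₀ (Nat.cast_nonneg a) ha2 3
        have hb3 := pow_le_pow_left₀ (Nat.cast_nonneg b) hb2 3
        have hc3 := pow_le_pow_left₀ (Nat.cast_nonneg c) hc2 3
        linarith
      · rw [hF] at hx2
        exact hx2.2
      · intro p hp hpd
        have hF2 : F3 x = ((a ^ 3 + b ^ 3 + c ^ 3 : ℕ) : ℤ) := by
          unfold F3
          rw [ha, hb, hc]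
          push_cast; ring
        have h9 := hx2.1 p hp (by rw [hF2]; exact_mod_cast hpd)
        exact le_trans hX2 (by exact_mod_cast h9)
    · intro x hx y hy hxy
      rw [Finset.mem_coe, Finset.mem_filter, bx_mem] at hx hy
      simp only [Prod.mk.injEq] at hxy
      have hx1 := hx.1
      have hy1 := hy.1
      funext i
      have h0 := hx1 0
      have h1 := hx1 1
      have h2 := hx1 2
      have h3 := hy1 0
      have h4 := hy1 1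
      have h5 := hy1 2
      fin_cases i
      · show x 0 = y 0; omega
      · show x 1 = y 1; omega
      · show x 2 = y 2; omega
  rw [← Set.ncard_eq_toFinset_card _ (Tg_finite X)] at h1
  exact_mod_cast h1

end T1s

open T1s in
theorem tT1s (hDM : St_DM) (hmain : St_main) (hkuhn : St_kuhn) (hsq : St_sq) : St_T1s := by
  classical
  obtain ⟨N, K, hN, hK, c, hc, M₀, hM₀⟩ := hmain
  have hK1 : 1 ≤ K := by omega
  obtain ⟨M₁, hM₁⟩ := hkuhn N K hN hK1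
  obtain ⟨C, hC, hCs⟩ := hsq K hK1
  have hKr : (1:ℝ) ≤ K := by exact_mod_cast hK1
  -- eventually the exceptional set is negligible
  have hlog := (isLittleO_log_rpow_atTop (r := 1 / 2000) (by norm_num)).bound
    (show 0 < c / (2 * C) by positivity)
  rw [Filter.eventually_atTop] at hlog
  obtain ⟨y₀, hy₀⟩ := hlog
  -- main bound for M
  have hmainM : ∀ M : ℕ, M₀ ≤ M → M₁ ≤ M → 2 ≤ M → y₀ ≤ M → ∀ X : ℝ, 3 * ((K:ℝ) * M) ^ 3 ≤ X →
      X ^ (7 / 50 : ℝ) ≤ zz M → c / 2 * (M:ℝ) ^ 3 / Real.log M ≤ ((Tg X).ncard : ℝ) := by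
    intro M h0 h1 h2 h3 X hX hX2
    have hMr : (2:ℝ) ≤ M := by exact_mod_cast h2
    have hM0 : (0:ℝ) < M := by linarith
    have hlogM : 0 < Real.log M := Real.log_pos (by linarith)
    have e1 := hM₀ M h0
    have e2 := tstar_le (N := N) hDM hK1 (fun x hx hs hp => hM₁ M h1 x hx hs hp)
    have e3 : (((bx M K).filter (Bad M)).card : ℝ) ≤ C * (M:ℝ) ^ (3 - 1 / 2000 : ℝ) := by
      refine le_trans (le_of_eq ?_) (hCs M h2)
      congr 1
      rw [← Set.ncard_coe_finset]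
      congr 1
      ext x
      simp only [Finset.coe_filter, Set.mem_ofPred_eq]
      rfl
    have e4 := count_le (M := M) (K := K) hX hX2
    obtain ⟨A, hA⟩ : ∃ A : ℝ, A = (((bx M K).filter
      (fun x => Sft (zz M) x ∧ ArithmeticFunction.cardFactors (F3 x).natAbs ≤ 2)).card : ℝ) := ⟨_, rfl⟩
    rw [← hA] at e2 e4
    have hP : (0:ℝ) < (M:ℝ) ^ (3 * (K - 1)) := by positivity
    have e5 : XX M K = (M:ℝ) ^ (3 * (K - 1)) * (M:ℝ) ^ 3 := by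
      unfold XX
      rw [← pow_add]
      congr 1
      omega
    rw [e5] at e1
    have e6 : (M:ℝ) ^ (3 * (K - 1)) * (c * (M:ℝ) ^ 3 / Real.log M) ≤
        (M:ℝ) ^ (3 * (K - 1)) * (A + C * (M:ℝ) ^ (3 - 1 / 2000 : ℝ)) := by
      have f1 : c * ((M:ℝ) ^ (3 * (K - 1)) * (M:ℝ) ^ 3) / Real.log M =
          (M:ℝ) ^ (3 * (K - 1)) * (c * (M:ℝ) ^ 3 / Real.log M) := by ring
      rw [f1] at e1
      refine le_trans e1 (le_trans e2 ?_)
      exact mul_le_mul_of_nonneg_left (by linarith) hP.le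
    have e7 := le_of_mul_le_mul_left e6 hP
    -- the error
    have e8 : C * (M:ℝ) ^ (3 - 1 / 2000 : ℝ) ≤ c / 2 * (M:ℝ) ^ 3 / Real.log M := by
      have f1 := hy₀ M h3
      rw [Real.norm_eq_abs, Real.norm_eq_abs, abs_of_pos hlogM,
        abs_of_pos (Real.rpow_pos_of_pos hM0 _)] at f1
      rw [le_div_iff₀ hlogM]
      have f2 : (M:ℝ) ^ (3 - 1 / 2000 : ℝ) * (M:ℝ) ^ (1 / 2000 : ℝ) = (M:ℝ) ^ 3 := by
        rw [← Real.rpow_add hM0]
        norm_num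
      have f3 : 0 < (M:ℝ) ^ (3 - 1 / 2000 : ℝ) := Real.rpow_pos_of_pos hM0 _
      calc C * (M:ℝ) ^ (3 - 1 / 2000 : ℝ) * Real.log M ≤
          C * (M:ℝ) ^ (3 - 1 / 2000 : ℝ) * (c / (2 * C) * (M:ℝ) ^ (1 / 2000 : ℝ)) :=
            mul_le_mul_of_nonneg_left f1 (by positivity)
        _ = c / 2 * ((M:ℝ) ^ (3 - 1 / 2000 : ℝ) * (M:ℝ) ^ (1 / 2000 : ℝ)) := by
            field_simp
        _ = c / 2 * (M:ℝ) ^ 3 := by rw [f2]
    have e9 : c * (M:ℝ) ^ 3 / Real.log M = c / 2 * (M:ℝ) ^ 3 / Real.log M +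
        c / 2 * (M:ℝ) ^ 3 / Real.log M := by ring
    linarith
  -- choice of M
  obtain ⟨y₁, hy₁⟩ : ∃ y₁ : ℝ, y₁ = ((24 * (K:ℝ) ^ 3) ^ (7 / 50 : ℝ)) ^ (200 : ℝ) := ⟨_, rfl⟩
  obtain ⟨M₂, hM₂⟩ : ∃ M₂ : ℕ, M₀ ≤ M₂ ∧ M₁ ≤ M₂ ∧ 2 ≤ M₂ ∧ y₀ ≤ M₂ ∧ y₁ ≤ M₂ :=
    ⟨max (max M₀ M₁) (max 2 (max ⌈y₀⌉₊ ⌈y₁⌉₊)), by omega, by omega, by omega,
      le_trans (Nat.le_ceil _) (by exact_mod_cast (by omega : ⌈y₀⌉₊ ≤ max (max M₀ M₁) (max 2 (max ⌈y₀⌉₊ ⌈y₁⌉₊)))),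
      le_trans (Nat.le_ceil _) (by exact_mod_cast (by omega : ⌈y₁⌉₊ ≤ max (max M₀ M₁) (max 2 (max ⌈y₀⌉₊ ⌈y₁⌉₊))))⟩
  refine ⟨c / (48 * (K:ℝ) ^ 3), by positivity, 3 * (K:ℝ) ^ 3 * ((M₂:ℝ) + 1) ^ 3 + 3, ?_⟩
  intro X hX
  change c / (48 * (K:ℝ) ^ 3) * X / Real.log X ≤ ((Tg X).ncard : ℝ)
  have hX3 : 3 ≤ X := by
    have : 0 ≤ 3 * (K:ℝ) ^ 3 * ((M₂:ℝ) + 1) ^ 3 := by positivity
    linarith
  have hK3 : (0:ℝ) < 3 * (K:ℝ) ^ 3 := by positivity
  obtain ⟨y, hy, hy0⟩ : ∃ y : ℝ, y ^ 3 = X / (3 * (K:ℝ) ^ 3) ∧ 0 ≤ y := by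
    refine ⟨(X / (3 * (K:ℝ) ^ 3)) ^ (1 / 3 : ℝ), ?_, by positivity⟩
    rw [← Real.rpow_natCast, ← Real.rpow_mul (by positivity)]
    norm_num
  have hyM : (M₂:ℝ) + 1 ≤ y := by
    by_contra h
    push Not at h
    have h1 : y ^ 3 < ((M₂:ℝ) + 1) ^ 3 := pow_lt_pow_left₀ h hy0 (by norm_num)
    rw [hy, div_lt_iff₀ hK3] at h1
    linarith
  obtain ⟨M, hM⟩ : ∃ M : ℕ, M = ⌊y⌋₊ := ⟨_, rfl⟩
  have hMy : (M:ℝ) ≤ y := by rw [hM]; exact Nat.floor_le hy0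
  have hyM1 : y < M + 1 := by rw [hM]; exact Nat.lt_floor_add_one y
  have hM2M : M₂ ≤ M := by
    have : (M₂:ℝ) < M + 1 - 0 := by linarith
    have h2 : (M₂:ℝ) < ((M + 1 : ℕ) : ℝ) := by push_cast; linarith
    have := Nat.cast_lt.1 h2
    omega
  have hM2 : (2:ℝ) ≤ M := by
    have : 2 ≤ M := by omega
    exact_mod_cast this
  have h3X : 3 * ((K:ℝ) * M) ^ 3 ≤ X := by
    have h1 : (M:ℝ) ^ 3 ≤ y ^ 3 := pow_le_pow_left₀ (by positivity) hMy 3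
    rw [hy, le_div_iff₀ hK3] at h1
    nlinarith
  have hX24 : X ≤ 24 * (K:ℝ) ^ 3 * (M:ℝ) ^ 3 := by
    have f1 : y ≤ 2 * M := by linarith
    have f2 : y ^ 3 ≤ (2 * (M:ℝ)) ^ 3 := pow_le_pow_left₀ hy0 f1 3
    rw [hy, div_le_iff₀ hK3] at f2
    nlinarith
  have hXz : X ^ (7 / 50 : ℝ) ≤ zz M := by
    have hM0 : (0:ℝ) < M := by linarith
    have f1 : X ^ (7 / 50 : ℝ) ≤ (24 * (K:ℝ) ^ 3 * (M:ℝ) ^ 3) ^ (7 / 50 : ℝ) :=
      Real.rpow_le_rpow (by linarith) hX24 (by norm_num)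
    have f2 : (24 * (K:ℝ) ^ 3 * (M:ℝ) ^ 3) ^ (7 / 50 : ℝ) =
        (24 * (K:ℝ) ^ 3) ^ (7 / 50 : ℝ) * (M:ℝ) ^ (21 / 50 : ℝ) := by
      rw [Real.mul_rpow (by positivity) (by positivity), ← Real.rpow_natCast (M:ℝ) 3,
        ← Real.rpow_mul hM0.le]
      norm_num
    have f3 : (24 * (K:ℝ) ^ 3) ^ (7 / 50 : ℝ) ≤ (M:ℝ) ^ (1 / 200 : ℝ) := by
      have g1 : y₁ ≤ M := le_trans hM₂.2.2.2.2 (by exact_mod_cast hM2M)
      rw [hy₁] at g1
      have g2 := Real.rpow_le_rpow (by positivity) g1 (show (0:ℝ) ≤ 1 / 200 by norm_num)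
      rw [← Real.rpow_mul (by positivity)] at g2
      norm_num at g2
      convert g2 using 2
    have f4 : (M:ℝ) ^ (1 / 200 : ℝ) * (M:ℝ) ^ (21 / 50 : ℝ) = (M:ℝ) ^ (425 / 1000 : ℝ) := by
      rw [← Real.rpow_add hM0]
      norm_num
    have f5 : (M:ℝ) ^ (425 / 1000 : ℝ) ≤ zz M := Nat.le_ceil _
    calc X ^ (7 / 50 : ℝ) ≤ (24 * (K:ℝ) ^ 3) ^ (7 / 50 : ℝ) * (M:ℝ) ^ (21 / 50 : ℝ) := by rw [← f2]; exact f1
      _ ≤ (M:ℝ) ^ (1 / 200 : ℝ) * (M:ℝ) ^ (21 / 50 : ℝ) :=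
        mul_le_mul_of_nonneg_right f3 (by positivity)
      _ ≤ zz M := by rw [f4]; exact f5
  have h1 := hmainM M (by omega) (by omega) (by omega)
    (le_trans hM₂.2.2.2.1 (by exact_mod_cast hM2M)) X h3X hXz
  refine le_trans ?_ h1
  have hMX : (M:ℝ) ≤ X := by
    have f1 : (M:ℝ) ≤ (M:ℝ) ^ 3 := by
      have : (M:ℝ) ^ 1 ≤ (M:ℝ) ^ 3 := pow_le_pow_right₀ (by linarith) (by norm_num)
      simpa using this
    have f2 : (1:ℝ) ≤ (K:ℝ) ^ 3 := one_le_pow₀ hKr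
    have f3 : 0 ≤ (M:ℝ) ^ 3 := by positivity
    nlinarith
  have hlogM : 0 < Real.log M := Real.log_pos (by linarith)
  have hlogX : Real.log M ≤ Real.log X := Real.log_le_log (by linarith) hMX
  have hM3 : X / (24 * (K:ℝ) ^ 3) ≤ (M:ℝ) ^ 3 := by
    have f1 : y ≤ 2 * M := by linarith
    have f2 : y ^ 3 ≤ (2 * (M:ℝ)) ^ 3 := pow_le_pow_left₀ hy0 f1 3
    rw [hy] at f2
    have f3 : X / (24 * (K:ℝ) ^ 3) = X / (3 * (K:ℝ) ^ 3) / 8 := by
      field_simp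
      ring
    rw [f3]
    have f4 : (2 * (M:ℝ)) ^ 3 = 8 * (M:ℝ) ^ 3 := by ring
    rw [f4] at f2
    linarith
  have hX0 : 0 ≤ X := by linarith
  calc c / (48 * (K:ℝ) ^ 3) * X / Real.log X = c / 2 * (X / (24 * (K:ℝ) ^ 3)) / Real.log X := by
        field_simp
        ring
    _ ≤ c / 2 * (M:ℝ) ^ 3 / Real.log X := by
        apply div_le_div_of_nonneg_right _ (by linarith)
        exact mul_le_mul_of_nonneg_left hM3 (by positivity)
    _ ≤ c / 2 * (M:ℝ) ^ 3 / Real.log M := by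
        apply div_le_div_of_nonneg_left (by positivity) hlogM hlogX

end Pool.Agent.TCub
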