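import Pool.Agent.TCub.Stmts
import Pool.Agent.CoprimeSieve.Mertens

open Finset

namespace Pool.Agent.TCub

namespace VVm

theorem gd_nonneg (p : ℕ) : 0 ≤ gd p := by
  unfold gd
  positivity

theorem gd_lt {p : ℕ} (hp : p.Prime) : gd p < 1 := by
  have h1 : (cone p).card < ((Fintype.piFinset fun _ : Fin 3 => Finset.Ico (0:ℤ) p)).card := by
    apply Finset.card_lt_card
    unfold cone
    rw [Finset.filter_ssubset]
    refine ⟨fun i => if i = 0 then 1 else 0, ?_, ?_⟩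
    · rw [Fintype.mem_piFinset]
      intro i
      rw [Finset.mem_Ico]
      have := hp.two_le
      split_ifs
      · constructor
        · norm_num
        · exact_mod_cast (by omega : 1 < p)
      · constructor
        · exact le_rfl
        · exact_mod_cast (by omega : 0 < p)
    · intro h
      have h2 : F3 (fun i => if i = 0 then (1:ℤ) else 0) = 1 := by
        unfold F3
        simp
      rw [h2] at h
      have h3 : p ∣ 1 := by exact_mod_cast h
      have := hp.two_le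
      have := Nat.le_of_dvd one_pos h3
      omega
  have h2 : ((Fintype.piFinset fun _ : Fin 3 => Finset.Ico (0:ℤ) p)).card = p ^ 3 := by
    rw [Fintype.card_piFinset]
    simp
  rw [h2] at h1
  unfold gd rho
  have hp0 : (0:ℝ) < p := by exact_mod_cast hp.pos
  rw [div_lt_one (by positivity)]
  exact_mod_cast h1

theorem gd_le (hrho : St_rhoprime) {p : ℕ} (hp : p.Prime) :
    gd p ≤ 1 / (p:ℝ) + 15 * (1 / (Real.sqrt p) ^ 3) := by
  have h1 := (abs_le.1 (hrho p hp)).2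
  have hp0 : (0:ℝ) < p := by exact_mod_cast hp.pos
  obtain ⟨r, hr⟩ : ∃ r, r = Real.sqrt p := ⟨_, rfl⟩
  have hr0 : 0 < r := by rw [hr]; exact Real.sqrt_pos.2 hp0
  have hr2 : (p:ℝ) = r ^ 2 := by rw [hr, Real.sq_sqrt hp0.le]
  have h2 : (p:ℝ) ^ (3 / 2 : ℝ) = r ^ 3 := by
    have e1 : (3 / 2 : ℝ) = (1 / 2 : ℝ) * (3 : ℕ) := by norm_num
    rw [e1, Real.rpow_mul hp0.le, Real.rpow_natCast, ← Real.sqrt_eq_rpow, ← hr]
  rw [h2] at h1
  rw [← hr]
  unfold gd
  rw [hr2] at h1 ⊢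
  rw [div_le_iff₀ (by positivity)]
  have e2 : (1 / r ^ 2 + 15 * (1 / r ^ 3)) * (r ^ 2) ^ 3 = (r ^ 2) ^ 2 + 15 * r ^ 3 := by
    field_simp
  rw [e2]
  linarith

theorem gd_le16 (hrho : St_rhoprime) {p : ℕ} (hp : p.Prime) : gd p ≤ 16 / (p:ℝ) := by
  have h1 := gd_le hrho hp
  have hp0 : (0:ℝ) < p := by exact_mod_cast hp.pos
  have hp1 : (1:ℝ) ≤ p := by exact_mod_cast hp.pos
  obtain ⟨r, hr⟩ : ∃ r, r = Real.sqrt p := ⟨_, rfl⟩
  have hr1 : 1 ≤ r := by rw [hr]; exact Real.one_le_sqrt.2 hp1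
  have hr2 : (p:ℝ) = r ^ 2 := by rw [hr, Real.sq_sqrt hp0.le]
  rw [← hr] at h1
  have h2 : 1 / r ^ 3 ≤ 1 / r ^ 2 := by
    apply one_div_le_one_div_of_le (by positivity)
    exact pow_le_pow_right₀ hr1 (by norm_num)
  rw [hr2] at h1 ⊢
  have h3 : 16 / r ^ 2 = 1 / r ^ 2 + 15 * (1 / r ^ 2) := by ring
  rw [h3]
  linarith

theorem gd2_le (hrho : St_rhoprime) {p : ℕ} (hp : p.Prime) :
    gd p + 2 * gd p ^ 2 ≤ 1 / (p:ℝ) + 527 * (1 / (Real.sqrt p) ^ 3) := by
  have h1 := gd_le hrho hp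
  have h2 := gd_le16 hrho hp
  have hp0 : (0:ℝ) < p := by exact_mod_cast hp.pos
  have hp1 : (1:ℝ) ≤ p := by exact_mod_cast hp.pos
  have h3 : gd p ^ 2 ≤ (16 / (p:ℝ)) ^ 2 := pow_le_pow_left₀ (gd_nonneg p) h2 2
  have h4 : (16 / (p:ℝ)) ^ 2 ≤ 256 * (1 / (Real.sqrt p) ^ 3) := by
    obtain ⟨r, hr⟩ : ∃ r, r = Real.sqrt p := ⟨_, rfl⟩
    have hr1 : 1 ≤ r := by rw [hr]; exact Real.one_le_sqrt.2 hp1
    have hr2 : (p:ℝ) = r ^ 2 := by rw [hr, Real.sq_sqrt hp0.le]
    rw [← hr, hr2]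
    have e1 : (16 / r ^ 2) ^ 2 = 256 * (1 / r ^ 4) := by
      field_simp
      norm_num
    rw [e1]
    refine mul_le_mul_of_nonneg_left ?_ (by norm_num)
    apply one_div_le_one_div_of_le (by positivity)
    exact pow_le_pow_right₀ hr1 (by norm_num)
  linarith

theorem exp_le {g : ℝ} (h0 : 0 ≤ g) (h1 : g ≤ 1 / 2) : Real.exp (-(g + 2 * g ^ 2)) ≤ 1 - g := by
  rw [Real.exp_neg]
  have h2 := Real.add_one_le_exp (g + 2 * g ^ 2)
  have h3 : 0 < g + 2 * g ^ 2 + 1 := by positivity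
  refine le_trans (inv_anti₀ h3 h2) ?_
  rw [inv_le_iff_one_le_mul₀ h3]
  nlinarith [mul_nonneg (sq_nonneg g) (by linarith : 0 ≤ 1 - 2 * g)]

theorem sum_sq (a : ℕ) (ha : 2 ≤ a) (b : ℕ) (hab : a ≤ b) :
    ∑ n ∈ Finset.Ico a b, 1 / (Real.sqrt n) ^ 3 ≤
      2 / Real.sqrt ((a:ℝ) - 1) - 2 / Real.sqrt ((b:ℝ) - 1) := by
  induction b, hab using Nat.le_induction with
  | base => simp
  | succ b hab ih =>
    rw [Finset.sum_Ico_succ_top hab]
    have hb : (2:ℝ) ≤ b := by exact_mod_cast (by omega : 2 ≤ b)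
    obtain ⟨s, hs⟩ : ∃ s, s = Real.sqrt ((b:ℝ) - 1) := ⟨_, rfl⟩
    obtain ⟨t, ht⟩ : ∃ t, t = Real.sqrt (b:ℝ) := ⟨_, rfl⟩
    have hs1 : 1 ≤ s := by rw [hs]; exact Real.one_le_sqrt.2 (by linarith)
    have hs2 : s ^ 2 = b - 1 := by rw [hs, Real.sq_sqrt (by linarith)]
    have ht2 : t ^ 2 = b := by rw [ht, Real.sq_sqrt (by linarith)]
    have hst : s ≤ t := by rw [hs, ht]; exact Real.sqrt_le_sqrt (by linarith)
    have e1 : (((b + 1 : ℕ) : ℝ) - 1) = b := by push_cast; ring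
    rw [e1, ← ht]
    rw [← hs] at ih
    have ht0 : 0 < t := by linarith
    have hs0 : 0 < s := by linarith
    have h1 : 1 / t ^ 3 ≤ 2 / s - 2 / t := by
      have e2 : 2 / s - 2 / t = 2 / (s * t * (t + s)) := by
        rw [div_sub_div _ _ hs0.ne' ht0.ne', div_eq_div_iff (by positivity) (by positivity)]
        have : (t - s) * (t + s) = 1 := by nlinarith
        linear_combination 2 * (s * t) * this
      rw [e2, div_le_div_iff₀ (by positivity) (by positivity)]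
      have h3 : s * t * (t + s) ≤ t * t * (t + t) := by
        apply mul_le_mul _ _ (by positivity) (by positivity)
        · exact mul_le_mul_of_nonneg_right hst ht0.le
        · linarith
      nlinarith
    linarith

theorem mem_prs {u w p : ℕ} : p ∈ prs u w ↔ p.Prime ∧ u ≤ p ∧ p < w := by
  unfold prs
  rw [Finset.mem_filter, Finset.mem_range]
  tauto

theorem VV_split (g : ℕ → ℝ) {u v w : ℕ} (h1 : u ≤ v) (h2 : v ≤ w) :
    VV g u v * VV g v w = VV g u w := by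
  unfold VV
  rw [← Finset.prod_union]
  · congr 1
    ext p
    rw [Finset.mem_union, mem_prs, mem_prs, mem_prs]
    constructor
    · rintro (⟨a, b, c⟩ | ⟨a, b, c⟩)
      · exact ⟨a, b, by omega⟩
      · exact ⟨a, by omega, c⟩
    · rintro ⟨a, b, c⟩
      by_cases h : p < v
      · exact Or.inl ⟨a, b, h⟩
      · exact Or.inr ⟨a, by omega, c⟩
  · rw [Finset.disjoint_left]
    intro p hp hq
    rw [mem_prs] at hp hq
    omega

theorem VV_pos (u w : ℕ) : 0 < VV gd u w := by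
  unfold VV
  refine Finset.prod_pos (fun p hp => ?_)
  have := gd_lt (mem_prs.1 hp).1
  linarith

theorem VV_le_one (u w : ℕ) : VV gd u w ≤ 1 := by
  unfold VV
  refine Finset.prod_le_one (fun p hp => ?_) (fun p hp => ?_)
  · have := gd_lt (mem_prs.1 hp).1
    linarith
  · have := gd_nonneg p
    linarith

theorem part3 (hrho : St_rhoprime) : ∀ ε : ℝ, 0 < ε → ∃ u₀ : ℕ, 2 ≤ u₀ ∧ ∀ u : ℕ, u₀ ≤ u →
    ∀ x y : ℝ, (u:ℝ) ≤ x → x ≤ y →
    VV gd u ⌈x⌉₊ ≤ (1 + ε) * (Real.log y / Real.log x) * VV gd u ⌈y⌉₊ := by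
  intro ε hε
  obtain ⟨C, hC, hM⟩ := Pool.Agent.CoprimeSieve.mertens_second_upper
  obtain ⟨κ, hκ⟩ : ∃ κ, κ = Real.log (1 + ε) / 3 := ⟨_, rfl⟩
  have hκ0 : 0 < κ := by rw [hκ]; exact div_pos (Real.log_pos (by linarith)) (by norm_num)
  refine ⟨⌈Real.exp (C / κ)⌉₊ + ⌈1 / κ⌉₊ + ⌈(1054 / κ) ^ 2⌉₊ + 100, by omega, ?_⟩
  intro u hu x y hux hxy
  have hu1 : Real.exp (C / κ) + 1 / κ + (1054 / κ) ^ 2 + 100 ≤ u := by
    have h1 := Nat.le_ceil (Real.exp (C / κ))
    have h2 := Nat.le_ceil (1 / κ)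
    have h3 := Nat.le_ceil ((1054 / κ) ^ 2)
    have h4 : ((⌈Real.exp (C / κ)⌉₊ + ⌈1 / κ⌉₊ + ⌈(1054 / κ) ^ 2⌉₊ + 100 : ℕ) : ℝ) ≤ u := by
      exact_mod_cast hu
    push_cast at h4
    linarith
  have p1 : 0 < Real.exp (C / κ) := Real.exp_pos _
  have p2 : 0 < 1 / κ := by positivity
  have p3 : 0 < (1054 / κ) ^ 2 := by positivity
  have hx100 : 100 ≤ x := by linarith
  have hx0 : 0 < x := by linarith
  have hlogx : 0 < Real.log x := Real.log_pos (by linarith)
  have hlogy : 0 < Real.log y := Real.log_pos (by linarith)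
  have hux' : u ≤ ⌈x⌉₊ := by
    have := Nat.le_ceil x
    exact_mod_cast le_trans hux this
  have hcxy : ⌈x⌉₊ ≤ ⌈y⌉₊ := Nat.ceil_mono hxy
  have hcx := Nat.le_ceil x
  rw [← VV_split gd hux' hcxy]
  obtain ⟨a, ha⟩ : ∃ a, a = ⌈x⌉₊ := ⟨_, rfl⟩
  obtain ⟨b, hb⟩ : ∃ b, b = ⌈y⌉₊ := ⟨_, rfl⟩
  rw [← ha, ← hb]
  rw [← ha, ← hb] at hcxy
  rw [← ha] at hcx hux'
  have ha100 : (100:ℝ) ≤ a := by linarith
  have ha100' : 100 ≤ a := by exact_mod_cast ha100
  -- the product
  have h1 : Real.exp (-(∑ p ∈ prs a b, (gd p + 2 * gd p ^ 2))) ≤ VV gd a b := by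
    unfold VV
    rw [← Finset.sum_neg_distrib, Real.exp_sum]
    refine Finset.prod_le_prod (fun p _ => (Real.exp_pos _).le) (fun p hp => ?_)
    rw [mem_prs] at hp
    have hp0 : (0:ℝ) < p := by exact_mod_cast hp.1.pos
    have hpa : (100:ℝ) ≤ p := by
      have : a ≤ p := hp.2.1
      have : (a:ℝ) ≤ p := by exact_mod_cast this
      linarith
    refine exp_le (gd_nonneg p) ?_
    refine le_trans (gd_le16 hrho hp.1) ?_
    rw [div_le_iff₀ hp0]
    linarith
  have h2 : ∑ p ∈ prs a b, (gd p + 2 * gd p ^ 2) ≤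
      Real.log (Real.log y / Real.log x) + (C / Real.log x + 1 / x + 1054 / Real.sqrt (x - 1)) := by
    have f1 : ∑ p ∈ prs a b, (gd p + 2 * gd p ^ 2) ≤
        ∑ p ∈ prs a b, (1 / (p:ℝ) + 527 * (1 / (Real.sqrt p) ^ 3)) :=
      Finset.sum_le_sum (fun p hp => gd2_le hrho (mem_prs.1 hp).1)
    have f0 : ∑ p ∈ prs a b, (1 / (p:ℝ) + 527 * (1 / (Real.sqrt p) ^ 3)) =
        ∑ p ∈ prs a b, 1 / (p:ℝ) + 527 * ∑ p ∈ prs a b, 1 / (Real.sqrt p) ^ 3 := by
      rw [Finset.sum_add_distrib, ← Finset.mul_sum]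
    rw [f0] at f1
    have f2 : ∑ p ∈ prs a b, 1 / (Real.sqrt p) ^ 3 ≤ 2 / Real.sqrt (x - 1) := by
      have g1 : ∑ p ∈ prs a b, 1 / (Real.sqrt p) ^ 3 ≤
          ∑ n ∈ Finset.Ico a b, 1 / (Real.sqrt n) ^ 3 := by
        refine Finset.sum_le_sum_of_subset_of_nonneg ?_ (fun n _ _ => by positivity)
        intro p hp
        rw [mem_prs] at hp
        rw [Finset.mem_Ico]
        exact hp.2
      have g2 := sum_sq a (by omega) b hcxy
      have g3 : 0 ≤ 2 / Real.sqrt ((b:ℝ) - 1) := by positivity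
      have g4 : 2 / Real.sqrt ((a:ℝ) - 1) ≤ 2 / Real.sqrt (x - 1) := by
        apply div_le_div_of_nonneg_left (by norm_num)
        · exact Real.sqrt_pos.2 (by linarith)
        · exact Real.sqrt_le_sqrt (by linarith)
      linarith
    have f3 : ∑ p ∈ prs a b, 1 / (p:ℝ) ≤
        Real.log (Real.log y / Real.log x) + C / Real.log x + 1 / x := by
      have g1 := hM x y (by linarith) hxy
      rw [← Finset.sum_filter_add_sum_filter_not (prs a b) (fun p : ℕ => x < (p:ℝ))]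
      have g2 : ∑ p ∈ (prs a b).filter (fun p : ℕ => x < (p:ℝ)), 1 / (p:ℝ) ≤
          ∑ p ∈ (Pool.Agent.CoprimeSieve.pr y).filter (fun p : ℕ => x < (p:ℝ)), (1:ℝ) / p := by
        refine Finset.sum_le_sum_of_subset_of_nonneg ?_ (fun n _ _ => by positivity)
        intro p hp
        rw [Finset.mem_filter, mem_prs] at hp
        rw [Finset.mem_filter]
        refine ⟨?_, hp.2⟩
        unfold Pool.Agent.CoprimeSieve.pr
        rw [Finset.mem_filter, Finset.mem_Icc]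
        refine ⟨⟨hp.1.1.one_lt.le, ?_⟩, hp.1.1⟩
        apply Nat.le_floor
        have : p < ⌈y⌉₊ := by rw [← hb]; exact hp.1.2.2
        exact (Nat.lt_ceil.1 this).le
      have g3 : ∑ p ∈ (prs a b).filter (fun p : ℕ => ¬ x < (p:ℝ)), 1 / (p:ℝ) ≤ 1 / x := by
        have g4 : (prs a b).filter (fun p : ℕ => ¬ x < (p:ℝ)) ⊆ {a} := by
          intro p hp
          rw [Finset.mem_filter, mem_prs] at hp
          rw [Finset.mem_singleton]
          have h5 : (p:ℝ) ≤ x := not_lt.1 hp.2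
          have h6 : (p:ℝ) ≤ a := le_trans h5 hcx
          have h7 : p ≤ a := by exact_mod_cast h6
          omega
        refine le_trans (Finset.sum_le_sum_of_subset_of_nonneg g4 (fun n _ _ => by positivity)) ?_
        rw [Finset.sum_singleton]
        exact one_div_le_one_div_of_le hx0 hcx
      linarith
    have f4 : 527 * (2 / Real.sqrt (x - 1)) = 1054 / Real.sqrt (x - 1) := by ring
    linarith
  have h3 : C / Real.log x + 1 / x + 1054 / Real.sqrt (x - 1) ≤ Real.log (1 + ε) := by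
    have g1 : C / Real.log x ≤ κ := by
      rw [div_le_iff₀ hlogx]
      have : C / κ ≤ Real.log x := by
        rw [Real.le_log_iff_exp_le hx0]
        linarith
      rw [div_le_iff₀ hκ0] at this
      linarith
    have g2 : 1 / x ≤ κ := by
      rw [div_le_iff₀ hx0]
      have : 1 / κ ≤ x := by linarith
      rw [div_le_iff₀ hκ0] at this
      linarith
    have g3 : 1054 / Real.sqrt (x - 1) ≤ κ := by
      have g4 : 1054 / κ ≤ Real.sqrt (x - 1) := by
        apply Real.le_sqrt_of_sq_le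
        linarith
      have g5 : 0 < Real.sqrt (x - 1) := Real.sqrt_pos.2 (by linarith)
      rw [div_le_iff₀ g5]
      rw [div_le_iff₀ hκ0] at g4
      linarith
    have g4 : Real.log (1 + ε) = 3 * κ := by rw [hκ]; ring
    linarith
  -- conclusion
  have h4 : 1 ≤ (1 + ε) * (Real.log y / Real.log x) * VV gd a b := by
    have g1 : 0 < Real.log y / Real.log x := div_pos hlogy hlogx
    have g2 : Real.exp (-(Real.log (Real.log y / Real.log x) + Real.log (1 + ε))) ≤ VV gd a b :=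
      le_trans (Real.exp_le_exp.2 (by linarith)) h1
    rw [Real.exp_neg, Real.exp_add, Real.exp_log g1, Real.exp_log (by linarith)] at g2
    have g3 : 0 < Real.log y / Real.log x * (1 + ε) := by positivity
    rw [inv_le_iff_one_le_mul₀ g3] at g2
    linarith
  have h5 := mul_le_mul_of_nonneg_left h4 (VV_pos u a).le
  linarith

end VVm

open VVm in
theorem tVVm (hrhoprime : St_rhoprime) : St_V := by
  refine ⟨fun p _ => gd_nonneg p, fun p hp => gd_lt hp, part3 hrhoprime, ?_, ?_⟩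
  · obtain ⟨u₀, hu₀, h⟩ := part3 hrhoprime 1 one_pos
    have hu2 : (2:ℝ) ≤ u₀ := by exact_mod_cast hu₀
    have hlu : 0 < Real.log u₀ := Real.log_pos (by linarith)
    have hl2 : 0 < Real.log 2 := Real.log_pos (by norm_num)
    have hV := VV_pos 0 u₀
    refine ⟨min (VV gd 0 u₀ * (Real.log u₀ / 2)) (VV gd 0 u₀ * Real.log 2), by positivity, ?_⟩
    intro z hz
    have hlz : 0 < Real.log z := Real.log_pos (by linarith)
    by_cases hzu : (u₀:ℝ) ≤ z
    · have h1 := h u₀ le_rfl u₀ z le_rfl hzu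
      have e1 : VV gd u₀ ⌈(u₀:ℝ)⌉₊ = 1 := by
        rw [Nat.ceil_natCast]
        unfold VV prs
        refine Finset.prod_eq_one (fun p hp => ?_)
        rw [Finset.mem_filter, Finset.mem_range] at hp
        omega
      rw [e1] at h1
      have hz' : u₀ ≤ ⌈z⌉₊ := by
        have := Nat.le_ceil z
        exact_mod_cast le_trans hzu this
      rw [← VV_split gd (Nat.zero_le u₀) hz']
      have h2 : Real.log u₀ / 2 / Real.log z ≤ VV gd u₀ ⌈z⌉₊ := by
        rw [div_div, div_le_iff₀ (by positivity)]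
        have e2 : (1 + 1) * (Real.log z / Real.log u₀) * VV gd u₀ ⌈z⌉₊ =
            (VV gd u₀ ⌈z⌉₊ * (2 * Real.log z)) / Real.log u₀ := by ring
        rw [e2, le_div_iff₀ hlu] at h1
        linarith
      calc min (VV gd 0 u₀ * (Real.log u₀ / 2)) (VV gd 0 u₀ * Real.log 2) / Real.log z ≤
          VV gd 0 u₀ * (Real.log u₀ / 2) / Real.log z :=
            div_le_div_of_nonneg_right (min_le_left _ _) hlz.le
        _ = VV gd 0 u₀ * (Real.log u₀ / 2 / Real.log z) := by ring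
        _ ≤ VV gd 0 u₀ * VV gd u₀ ⌈z⌉₊ := mul_le_mul_of_nonneg_left h2 hV.le
    · push Not at hzu
      have hz' : ⌈z⌉₊ ≤ u₀ := Nat.ceil_le.2 hzu.le
      have h1 : VV gd 0 u₀ ≤ VV gd 0 ⌈z⌉₊ := by
        rw [← VV_split gd (Nat.zero_le _) hz']
        have := mul_le_mul_of_nonneg_left (VV_le_one ⌈z⌉₊ u₀) (VV_pos 0 ⌈z⌉₊).le
        linarith
      refine le_trans ?_ h1
      rw [div_le_iff₀ hlz]
      refine le_trans (min_le_right _ _) ?_
      exact mul_le_mul_of_nonneg_left (Real.log_le_log (by norm_num) hz) hV.le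
  · intro u₀ u z h1 h2
    rw [VV_split gd (Nat.zero_le u₀) h1, VV_split gd (Nat.zero_le u) h2]

end Pool.Agent.TCub
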