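import Pool.Agent.TCub.Stmts

namespace Pool.Agent.TCub

namespace W2

open MeasureTheory Set

/-- `U t ≤ 12 exp (3-t)` etc. -/
lemma HU_le (t : ℝ) (ht : 2 ≤ t) : HU t ≤ Real.exp (3 - t) := by
  unfold HU
  split_ifs with h
  · have h1 : (1:ℝ) ≤ Real.exp (3 - t) := Real.one_le_exp (by linarith)
    have h2 : 8 / 7 / t ≤ 1 := by
      rw [div_le_one (by linarith)]
      linarith
    linarith
  · have : -(t - 3) = 3 - t := by ring
    rw [this]
    have := Real.exp_pos (3 - t)
    linarith

lemma HW_le (t : ℝ) : HW t ≤ Real.exp (3 - t) := by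
  unfold HW
  exact Real.exp_le_exp.2 (by linarith)

lemma mul_exp_le (t : ℝ) : t * Real.exp (3 - t) ≤ 2 * Real.exp 3 * Real.exp (-(1/2) * t) := by
  have h1 : t / 2 + 1 ≤ Real.exp (t / 2) := Real.add_one_le_exp _
  have h2 : Real.exp (3 - t) = Real.exp 3 * Real.exp (-(1/2) * t) * Real.exp (-(1/2) * t) := by
    rw [← Real.exp_add, ← Real.exp_add]
    congr 1
    ring
  have h3 : Real.exp (t / 2) * Real.exp (-(1/2) * t) = 1 := by
    rw [← Real.exp_add]
    have : t / 2 + -(1/2) * t = 0 := by ring
    rw [this, Real.exp_zero]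
  rw [h2]
  have h4 : 0 < Real.exp 3 * Real.exp (-(1/2) * t) := by positivity
  have h5 : 0 < Real.exp (-(1/2) * t) := by positivity
  have h6 : t * Real.exp (-(1/2) * t) ≤ 2 := by
    nlinarith
  nlinarith

/-- Fubini -/
lemma fub (f : ℝ → ℝ) (hm : AEMeasurable f (volume.restrict (Ioi 2))) :
    ∫⁻ t in Ioi 2, ∫⁻ x in Ioi t, ENNReal.ofReal (f x) =
      ∫⁻ x in Ioi 2, ENNReal.ofReal ((x - 2) * f x) := by
  obtain ⟨g, hg, hfg⟩ := hm
  have hfg' : (fun x => ENNReal.ofReal (f x)) =ᵐ[volume.restrict (Ioi 2)]
      (fun x => ENNReal.ofReal (g x)) := hfg.fun_comp ENNReal.ofReal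
  have h1 : ∀ t ∈ Ioi (2:ℝ), ∫⁻ x in Ioi t, ENNReal.ofReal (f x) =
      ∫⁻ x, (Ioi t).indicator (fun x => ENNReal.ofReal (g x)) x := by
    intro t ht
    rw [lintegral_indicator measurableSet_Ioi]
    exact lintegral_congr_ae (ae_restrict_of_ae_restrict_of_subset (Ioi_subset_Ioi (mem_Ioi.1 ht).le) hfg')
  rw [setLIntegral_congr_fun measurableSet_Ioi h1]
  rw [lintegral_lintegral_swap]
  · rw [← lintegral_indicator measurableSet_Ioi]
    have h2 : ∫⁻ x in Ioi (2:ℝ), ENNReal.ofReal ((x - 2) * f x) =
        ∫⁻ x in Ioi (2:ℝ), ENNReal.ofReal ((x - 2) * g x) := by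
      refine lintegral_congr_ae ?_
      filter_upwards [hfg] with x hx
      rw [hx]
    rw [show (∫⁻ x, (Ioi (2:ℝ)).indicator (fun x => ENNReal.ofReal ((x - 2) * f x)) x) =
      ∫⁻ x in Ioi (2:ℝ), ENNReal.ofReal ((x - 2) * f x) from lintegral_indicator measurableSet_Ioi _, h2]
    rw [← lintegral_indicator measurableSet_Ioi]
    refine lintegral_congr (fun x => ?_)
    have h3 : ∀ t : ℝ, (Ioi t).indicator (fun x => ENNReal.ofReal (g x)) x =
        (Iio x).indicator (fun _ => ENNReal.ofReal (g x)) t := by
      intro t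
      simp only [indicator_apply, mem_Ioi, mem_Iio]
    simp_rw [h3]
    rw [← lintegral_indicator measurableSet_Ioi]
    have h4 : ∀ t : ℝ, (Ioi (2:ℝ)).indicator (fun t => (Iio x).indicator (fun _ => ENNReal.ofReal (g x)) t) t =
        (Ioo 2 x).indicator (fun _ => ENNReal.ofReal (g x)) t := by
      intro t
      simp only [indicator_apply, mem_Ioi, mem_Iio, mem_Ioo]
      split_ifs <;> simp_all
    simp_rw [h4]
    rw [lintegral_indicator measurableSet_Ioo, setLIntegral_const, Real.volume_Ioo]
    simp only [indicator_apply, mem_Ioi]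
    split_ifs with h
    · rw [mul_comm, ENNReal.ofReal_mul (by linarith)]
    · push Not at h
      rw [ENNReal.ofReal_of_nonpos (show x - 2 ≤ 0 by linarith), mul_zero]
  · refine Measurable.aemeasurable ?_
    have : (Function.uncurry fun (t x : ℝ) => (Ioi t).indicator (fun x => ENNReal.ofReal (g x)) x) =
        {p : ℝ × ℝ | p.1 < p.2}.indicator (fun p => ENNReal.ofReal (g p.2)) := by
      funext p
      simp only [Function.uncurry, indicator_apply, mem_Ioi, mem_ofPred_eq]
    rw [this]
    exact (hg.comp measurable_snd).ennreal_ofReal.indicator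
      (measurableSet_lt measurable_fst measurable_snd)

end W2

open MeasureTheory Set in
theorem tW2 : St_W2 := by
  classical
  intro U W h
  -- integrability
  have hexp : IntegrableOn (fun t : ℝ => Real.exp (-(1/2) * t)) (Ioi 1) :=
    exp_neg_integrableOn_Ioi 1 (by norm_num)
  set A : ℝ := 3 + ∫ t in Set.Ioi 3, W (t - 1) with hA
  have hUA : ∀ s, 0 < s → s ≤ 3 → s * (1 + U s) = A := by
    intro s hs hs3
    have h1 := h.Ueq s hs
    rw [max_eq_left (show (0:ℝ) ≤ 3 - s by linarith), max_eq_right hs3] at h1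
    rw [hA]
    linarith
  -- f
  set f : ℝ → ℝ := fun x => U (x - 1) + (if x ≤ 3 then 1 else W (x - 1)) with hf
  have hf0 : ∀ x, 2 < x → 0 ≤ f x := by
    intro x hx
    have h1 := h.U0 (x - 1) (by linarith)
    simp only [hf]
    split_ifs with h3
    · linarith
    · have h2 := h.W0 (x - 1) (by push Not at h3; linarith)
      linarith
  have hUm : AEMeasurable (fun x => U (x - 1)) (volume.restrict (Ioi 2)) := by
    refine aemeasurable_restrict_of_antitoneOn measurableSet_Ioi ?_
    intro a ha b hb hab
    simp only [mem_Ioi] at ha hb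
    exact h.Uanti (by simp only [mem_Ioi]; linarith) (by simp only [mem_Ioi]; linarith) (by linarith)
  have hWm : AEMeasurable (fun x => W (x - 1)) (volume.restrict (Ioi 3)) := by
    refine aemeasurable_restrict_of_antitoneOn measurableSet_Ioi ?_
    intro a ha b hb hab
    simp only [mem_Ioi] at ha hb
    exact h.Wanti (by simp only [mem_Ici]; linarith) (by simp only [mem_Ici]; linarith) (by linarith)
  have hWm2 : AEMeasurable (fun x : ℝ => if x ≤ 3 then (1:ℝ) else W (x - 1)) (volume.restrict (Ioi 2)) := by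
    have h1 : (fun x : ℝ => if x ≤ 3 then (1:ℝ) else W (x - 1)) =
        fun x => (Iic 3).indicator (fun _ => (1:ℝ)) x + (Ioi 3).indicator (fun x => W (x - 1)) x := by
      funext x
      simp only [indicator_apply, mem_Iic, mem_Ioi]
      by_cases hx : x ≤ 3
      · simp [hx, not_lt.2 hx]
      · simp [hx, not_le.1 hx]
    rw [h1]
    refine AEMeasurable.add ?_ ?_
    · exact (measurable_const.indicator measurableSet_Iic).aemeasurable
    · exact ((aemeasurable_indicator_iff measurableSet_Ioi).2 hWm).restrict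
  have hfm : AEMeasurable f (volume.restrict (Ioi 2)) := hUm.add hWm2
  -- bounds
  have hiU : IntegrableOn (fun t => U (t - 1)) (Ioi 2) := by
    have hb : IntegrableOn (fun t : ℝ => 21 * (8/7) * Real.exp 3 * Real.exp (-(1/2) * t)) (Ioi 2) :=
      Integrable.const_mul (hexp.mono_set (Ioi_subset_Ioi (by norm_num))) _
    refine Integrable.mono' hb hUm.aestronglyMeasurable ?_
    refine (ae_restrict_iff' measurableSet_Ioi).2 (Filter.Eventually.of_forall ?_)
    intro t ht
    simp only [mem_Ioi] at ht
    rw [Real.norm_of_nonneg (h.U0 _ (by linarith))]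
    have h1 := h.Ubd (t - 1) (by linarith)
    have h2 : HU (t - 1) ≤ (8/7) * (Real.exp 3 * Real.exp (-(1/2) * t)) := by
      rw [← Real.exp_add]
      unfold HU
      split_ifs with h3
      · have h4 : (1:ℝ) ≤ Real.exp (3 + -(1/2) * t) := Real.one_le_exp (by linarith)
        have h5 : 8 / 7 / (t - 1) ≤ 8 / 7 := by
          rw [div_le_iff₀ (by linarith)]
          linarith
        linarith
      · push Not at h3
        have h4 : Real.exp (-(t - 1 - 3)) ≤ Real.exp (3 + -(1/2) * t) :=
          Real.exp_le_exp.2 (by linarith)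
        have h5 := Real.exp_pos (-(t - 1 - 3))
        linarith
    nlinarith
  have hiW : IntegrableOn (fun t => W (t - 1)) (Ioi 3) := by
    have hb : IntegrableOn (fun t : ℝ => 21 * Real.exp 3 * Real.exp (-(1/2) * t)) (Ioi 3) :=
      Integrable.const_mul (hexp.mono_set (Ioi_subset_Ioi (by norm_num))) _
    refine Integrable.mono' hb hWm.aestronglyMeasurable ?_
    refine (ae_restrict_iff' measurableSet_Ioi).2 (Filter.Eventually.of_forall ?_)
    intro t ht
    simp only [mem_Ioi] at ht
    rw [Real.norm_of_nonneg (h.W0 _ (by linarith))]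
    have h1 := h.Wbd (t - 1) (by linarith)
    have h2 : HW (t - 1) ≤ Real.exp 3 * Real.exp (-(1/2) * t) := by
      rw [← Real.exp_add]
      unfold HW
      exact Real.exp_le_exp.2 (by linarith)
    nlinarith
  have hi1 : IntegrableOn (fun x : ℝ => if x ≤ 3 then (1:ℝ) else W (x - 1)) (Ioi 2) := by
    rw [← Ioc_union_Ioi_eq_Ioi (show (2:ℝ) ≤ 3 by norm_num)]
    refine IntegrableOn.union ?_ ?_
    · refine IntegrableOn.congr_fun (f := fun _ => (1:ℝ)) ?_ ?_ measurableSet_Ioc
      · exact integrableOn_const (by simp)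
      · intro x hx
        simp [hx.2]
    · refine IntegrableOn.congr_fun (f := fun x => W (x - 1)) hiW ?_ measurableSet_Ioi
      intro x hx
      simp only [mem_Ioi] at hx
      simp [not_le.2 hx]
  have hif : IntegrableOn f (Ioi 2) := Integrable.add hiU hi1
  -- g(t) = t (U t + W t) = ∫_{t}^∞ f
  have hg : ∀ t, 2 ≤ t → t * (U t + W t) = ∫ x in Ioi t, f x := by
    intro t ht
    have h1 := h.Ueq t (by linarith)
    have h2 := h.Weq t ht
    rw [mul_add, h1, h2]
    have h3 : ∫ x in Ioi t, f x = (∫ x in Ioi t, U (x - 1)) +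
        ∫ x in Ioi t, (if x ≤ 3 then (1:ℝ) else W (x - 1)) :=
      integral_add (hiU.mono_set (Ioi_subset_Ioi ht)) (hi1.mono_set (Ioi_subset_Ioi ht))
    rw [h3]
    have h4 : ∫ x in Ioi t, (if x ≤ 3 then (1:ℝ) else W (x - 1)) =
        max (3 - t) 0 + ∫ x in Ioi (max t 3), W (x - 1) := by
      rcases le_total t 3 with h5 | h5
      · rw [max_eq_left (show (0:ℝ) ≤ 3 - t by linarith), max_eq_right h5,
          ← Ioc_union_Ioi_eq_Ioi h5]
        rw [setIntegral_union (by
            rw [Set.disjoint_left]
            intro x hx hx'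
            simp only [mem_Ioc, mem_Ioi] at hx hx'
            linarith) measurableSet_Ioi
          ((hi1.mono_set (Ioi_subset_Ioi ht)).mono_set (by
            rw [← Ioc_union_Ioi_eq_Ioi h5]; exact subset_union_left))
          ((hi1.mono_set (Ioi_subset_Ioi ht)).mono_set (by
            rw [← Ioc_union_Ioi_eq_Ioi h5]; exact subset_union_right))]
        congr 1
        · rw [setIntegral_congr_fun (g := fun _ => (1:ℝ)) measurableSet_Ioc (by
            intro x hx
            simp [hx.2])]
          simp [h5]
        · refine setIntegral_congr_fun measurableSet_Ioi ?_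
          intro x hx
          simp only [mem_Ioi] at hx
          simp [not_le.2 hx]
      · rw [max_eq_right (show (3 - t:ℝ) ≤ 0 by linarith), max_eq_left h5, zero_add]
        refine setIntegral_congr_fun measurableSet_Ioi ?_
        intro x hx
        simp only [mem_Ioi] at hx
        simp [not_le.2 (lt_of_le_of_lt h5 hx)]
    rw [h4]
    ring
  -- integrability of g
  set g : ℝ → ℝ := fun t => t * (U t + W t) with hgdef
  have hg0 : ∀ t, 2 ≤ t → 0 ≤ g t := by
    intro t ht
    have h1 := h.U0 t (by linarith)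
    have h2 := h.W0 t ht
    have : 0 ≤ U t + W t := by linarith
    exact mul_nonneg (by linarith) this
  have hgb : ∀ t, 2 ≤ t → g t ≤ 84 * Real.exp 3 * Real.exp (-(1/2) * t) := by
    intro t ht
    have h1 := h.Ubd t (by linarith)
    have h2 := h.Wbd t ht
    have h3 := W2.HU_le t ht
    have h4 := W2.HW_le t
    have h5 := W2.mul_exp_le t
    have h6 : U t + W t ≤ 42 * Real.exp (3 - t) := by linarith
    have h7 : t * (U t + W t) ≤ t * (42 * Real.exp (3 - t)) :=
      mul_le_mul_of_nonneg_left h6 (by linarith)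
    simp only [hgdef]
    nlinarith
  have hgm : AEMeasurable g (volume.restrict (Ioi 2)) := by
    refine AEMeasurable.mul measurable_id.aemeasurable ?_
    refine AEMeasurable.add ?_ ?_
    · refine aemeasurable_restrict_of_antitoneOn measurableSet_Ioi ?_
      intro a ha b hb hab
      simp only [mem_Ioi] at ha hb
      exact h.Uanti (by simp only [mem_Ioi]; linarith) (by simp only [mem_Ioi]; linarith) hab
    · refine aemeasurable_restrict_of_antitoneOn measurableSet_Ioi ?_
      intro a ha b hb hab
      simp only [mem_Ioi] at ha hb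
      exact h.Wanti (by simp only [mem_Ici]; linarith) (by simp only [mem_Ici]; linarith) hab
  have hig : IntegrableOn g (Ioi 2) := by
    have hb : IntegrableOn (fun t : ℝ => 84 * Real.exp 3 * Real.exp (-(1/2) * t)) (Ioi 2) :=
      Integrable.const_mul (hexp.mono_set (Ioi_subset_Ioi (by norm_num))) _
    refine Integrable.mono' hb hgm.aestronglyMeasurable ?_
    refine (ae_restrict_iff' measurableSet_Ioi).2 (Filter.Eventually.of_forall ?_)
    intro t ht
    simp only [mem_Ioi] at ht
    rw [Real.norm_of_nonneg (hg0 _ ht.le)]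
    exact hgb _ ht.le
  -- Fubini
  have hF : ∫⁻ t in Ioi 2, ENNReal.ofReal (g t) = ∫⁻ x in Ioi 2, ENNReal.ofReal ((x - 2) * f x) := by
    rw [← W2.fub f hfm]
    refine setLIntegral_congr_fun measurableSet_Ioi ?_
    intro t ht
    simp only [mem_Ioi] at ht
    show ENNReal.ofReal (t * (U t + W t)) = _
    rw [hg t ht.le]
    rw [ofReal_integral_eq_lintegral_ofReal (hif.mono_set (Ioi_subset_Ioi ht.le))]
    refine (ae_restrict_iff' measurableSet_Ioi).2 (Filter.Eventually.of_forall ?_)
    intro x hx
    simp only [mem_Ioi] at hx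
    exact hf0 x (by linarith)
  have hfin : ∫⁻ x in Ioi 2, ENNReal.ofReal ((x - 2) * f x) ≠ ⊤ := by
    rw [← hF]
    have := hig.2
    rw [hasFiniteIntegral_iff_ofReal] at this
    · exact this.ne
    · refine (ae_restrict_iff' measurableSet_Ioi).2 (Filter.Eventually.of_forall ?_)
      intro t ht
      simp only [mem_Ioi] at ht
      exact hg0 _ ht.le
  have hiF : IntegrableOn (fun x => (x - 2) * f x) (Ioi 2) := by
    refine ⟨?_, ?_⟩
    · exact ((measurable_id.sub_const 2).aemeasurable.mul hfm).aestronglyMeasurable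
    · rw [hasFiniteIntegral_iff_ofReal]
      · exact lt_top_iff_ne_top.2 hfin
      · refine (ae_restrict_iff' measurableSet_Ioi).2 (Filter.Eventually.of_forall ?_)
        intro t ht
        simp only [mem_Ioi] at ht
        exact mul_nonneg (by linarith) (hf0 _ ht)
  have hFr : ∫ t in Ioi 2, g t = ∫ x in Ioi 2, (x - 2) * f x := by
    have e1 := ofReal_integral_eq_lintegral_ofReal hig (by
      refine (ae_restrict_iff' measurableSet_Ioi).2 (Filter.Eventually.of_forall ?_)
      intro t ht
      simp only [mem_Ioi] at ht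
      exact hg0 _ ht.le)
    have e2 := ofReal_integral_eq_lintegral_ofReal hiF (by
      refine (ae_restrict_iff' measurableSet_Ioi).2 (Filter.Eventually.of_forall ?_)
      intro t ht
      simp only [mem_Ioi] at ht
      exact mul_nonneg (by linarith) (hf0 _ ht))
    rw [hF, ← e2] at e1
    refine (ENNReal.ofReal_eq_ofReal_iff ?_ ?_).1 e1
    · refine setIntegral_nonneg measurableSet_Ioi (fun t ht => hg0 t (le_of_lt ht))
    · refine setIntegral_nonneg measurableSet_Ioi (fun t ht => ?_)
      simp only [mem_Ioi] at ht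
      exact mul_nonneg (by linarith) (hf0 _ ht)
  -- (x-1) f
  have hix : IntegrableOn (fun x => (x - 1) * f x) (Ioi 2) := by
    have : (fun x => (x - 1) * f x) = fun x => (x - 2) * f x + f x := by
      funext x
      ring
    rw [this]
    exact hiF.add hif
  have e1 : ∫ x in Ioi 2, (x - 1) * f x = (∫ x in Ioi 2, (x - 2) * f x) + ∫ x in Ioi 2, f x := by
    rw [← integral_add hiF hif]
    congr 1
    funext x
    ring
  have e2 : ∫ x in Ioi 2, (x - 1) * f x = A + ∫ t in Ioi 2, g t := by
    rw [← Ioc_union_Ioi_eq_Ioi (show (2:ℝ) ≤ 3 by norm_num),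
      setIntegral_union (by
            rw [Set.disjoint_left]
            intro x hx hx'
            simp only [mem_Ioc, mem_Ioi] at hx hx'
            linarith) measurableSet_Ioi
        (hix.mono_set (by rw [← Ioc_union_Ioi_eq_Ioi (show (2:ℝ) ≤ 3 by norm_num)]; exact subset_union_left))
        (hix.mono_set (by rw [← Ioc_union_Ioi_eq_Ioi (show (2:ℝ) ≤ 3 by norm_num)]; exact subset_union_right))]
    congr 1
    · rw [setIntegral_congr_fun (g := fun _ => A) measurableSet_Ioc (by
        intro x hx
        simp only [hf, if_pos hx.2]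
        have := hUA (x - 1) (by linarith [hx.1]) (by linarith [hx.2])
        linarith)]
      simp
      norm_num
    · have h1 : ∫ x in Ioi (3:ℝ), (x - 1) * f x = ∫ x in Ioi (3:ℝ), g (x - 1) := by
        refine setIntegral_congr_fun measurableSet_Ioi ?_
        intro x hx
        simp only [mem_Ioi] at hx
        simp only [hf, hgdef, if_neg (not_le.2 hx)]
      rw [h1, Ioc_union_Ioi_eq_Ioi (show (2:ℝ) ≤ 3 by norm_num)]
      rw [← integral_indicator measurableSet_Ioi, ← integral_indicator measurableSet_Ioi]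
      rw [← integral_sub_right_eq_self ((Ioi (2:ℝ)).indicator g) 1]
      congr 1
      funext x
      simp only [indicator_apply, mem_Ioi]
      have h3 : (3:ℝ) < x ↔ 2 < x - 1 := by
        constructor <;> intro h4 <;> linarith
      simp only [h3]
  have e3 := hg 2 le_rfl
  have e4 := hUA 2 (by norm_num) (by norm_num)
  have e5 : ∫ x in Ioi 2, f x = A := by linarith
  rw [e5] at e3
  linarith

end Pool.Agent.TCub
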