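import Pool.Agent.TCub.Stmts2

open Finset

namespace Pool.Agent.TCub

/- HINT: |f|^2 = sum_{|h|<P} sum_{x, x+h in [1,P]} e(a((x+h)^3-x^3)); Cauchy over h (2P terms): |f|^4 <= 2P sum_h |sum_x e(a h(3x^2+3hx+h^2))|^2; h=0 gives P^2; h<>0: square out with x'=x+h2: e(3a h h2 (2x+h+h2)); terms h2=0 give <= P each (h), total c_0 <= 2P(P^2+2P*P); for h2<>0: 2x+h+h2 = x+(x+h+h2) >= 2, so m=3 h h2 (2x+h+h2) <> 0, |m|<=6P^3 and the number of (h,h2,x) with given m is <= (2 tau(|m|))^3 <= C P^eps. c m := 2P * number of (h,h2,x) (valid ones) with this m (+ the h=0 term in c 0). All c>=0; symmetric so the sum is real. -/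

namespace WeylA

theorem ee_add (a b : ℝ) : ee (a + b) = ee a * ee b := by
  unfold ee
  rw [← Complex.exp_add]
  congr 1
  push_cast
  ring

theorem ee_conj (a : ℝ) : (starRingEnd ℂ) (ee a) = ee (-a) := by
  unfold ee
  rw [← Complex.exp_conj]
  congr 1
  have h1 : (2 * Real.pi * a * Complex.I : ℂ) = ((2 * Real.pi * a : ℝ) : ℂ) * Complex.I := by
    push_cast
    ring
  rw [h1, map_mul, Complex.conj_ofReal, Complex.conj_I]
  push_cast
  ring

/-- the range of the variables -/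
noncomputable def II (P : ℕ) : Finset ℤ := Icc 1 (P : ℤ)

/-- the range of the differences -/
noncomputable def HH (P : ℕ) : Finset ℤ := Icc (-((P : ℤ) - 1)) ((P : ℤ) - 1)

/-- admissible `x` for the difference `h` -/
noncomputable def JJh (P : ℕ) (h : ℤ) : Finset ℤ := (II P).filter fun x => x + h ∈ II P

/-- the triples `(h, x, y)` -/
noncomputable def QQ (P : ℕ) : Finset (ℤ × ℤ × ℤ) :=
  (HH P ×ˢ (II P ×ˢ II P)).filter fun q => q.2.1 + q.1 ∈ II P ∧ q.2.2 + q.1 ∈ II P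

/-- the frequency -/
def MM (q : ℤ × ℤ × ℤ) : ℤ := 3 * q.1 * (q.2.2 - q.2.1) * (q.2.1 + q.2.2 + q.1)

theorem mem_QQ {P : ℕ} {q : ℤ × ℤ × ℤ} (hq : q ∈ QQ P) :
    1 ≤ q.2.1 ∧ q.2.1 ≤ P ∧ 1 ≤ q.2.2 ∧ q.2.2 ≤ P ∧ 1 ≤ q.2.1 + q.1 ∧ q.2.1 + q.1 ≤ P ∧
      1 ≤ q.2.2 + q.1 ∧ q.2.2 + q.1 ≤ P := by
  simp only [QQ, II, HH, mem_filter, mem_product, mem_Icc] at hq
  omega

theorem MM_le {P : ℕ} {q : ℤ × ℤ × ℤ} (hq : q ∈ QQ P) :
    MM q ∈ Icc (-(6 * (P : ℤ) ^ 3)) (6 * (P : ℤ) ^ 3) := by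
  obtain ⟨h1, h2, h3, h4, h5, h6, h7, h8⟩ := mem_QQ hq
  rw [mem_Icc, ← abs_le]
  unfold MM
  rw [abs_mul, abs_mul, abs_mul]
  have a1 : |q.1| ≤ P := by rw [abs_le]; omega
  have a2 : |q.2.2 - q.2.1| ≤ P := by rw [abs_le]; omega
  have a3 : |q.2.1 + q.2.2 + q.1| ≤ 2 * P := by rw [abs_le]; omega
  have hP : (0 : ℤ) ≤ P := by positivity
  calc |(3 : ℤ)| * |q.1| * |q.2.2 - q.2.1| * |q.2.1 + q.2.2 + q.1|
      ≤ 3 * P * P * (2 * P) := by
        have : |(3 : ℤ)| = 3 := rfl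
        rw [this]
        gcongr
    _ = 6 * (P : ℤ) ^ 3 := by ring

/-- integer divisors -/
def DD (m : ℤ) : Finset ℤ :=
  ((Nat.divisors m.natAbs).image fun d : ℕ => (d : ℤ)) ∪
    ((Nat.divisors m.natAbs).image fun d : ℕ => -(d : ℤ))

theorem card_DD (m : ℤ) : (DD m).card ≤ 2 * (Nat.divisors m.natAbs).card := by
  refine (card_union_le _ _).trans ?_
  have h1 := card_image_le (s := Nat.divisors m.natAbs) (f := fun d : ℕ => (d : ℤ))
  have h2 := card_image_le (s := Nat.divisors m.natAbs) (f := fun d : ℕ => -(d : ℤ))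
  omega

theorem mem_DD {m a : ℤ} (hm : m ≠ 0) (h : a ∣ m) : a ∈ DD m := by
  have h1 : a.natAbs ∈ Nat.divisors m.natAbs := by
    rw [Nat.mem_divisors]
    exact ⟨Int.natAbs_dvd_natAbs.2 h, Int.natAbs_ne_zero.2 hm⟩
  unfold DD
  rw [mem_union, mem_image, mem_image]
  rcases le_total 0 a with h2 | h2
  · left
    exact ⟨_, h1, by omega⟩
  · right
    exact ⟨_, h1, by omega⟩

theorem card_fiber (P : ℕ) {m : ℤ} (hm : m ≠ 0) :
    ((QQ P).filter fun q => MM q = m).card ≤ (2 * (Nat.divisors m.natAbs).card) ^ 3 := by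
  have h1 : ((QQ P).filter fun q => MM q = m).card ≤ (DD m ×ˢ (DD m ×ˢ DD m)).card := by
    apply card_le_card_of_injOn (fun q : ℤ × ℤ × ℤ => (q.1, q.2.2 - q.2.1, q.2.1 + q.2.2 + q.1))
    · intro q hq
      simp only [coe_filter, Set.mem_ofPred_eq] at hq
      have hM : 3 * q.1 * (q.2.2 - q.2.1) * (q.2.1 + q.2.2 + q.1) = m := hq.2
      simp only [coe_product, Set.mem_prod, mem_coe]
      refine ⟨mem_DD hm ?_, mem_DD hm ?_, mem_DD hm ?_⟩
      · exact ⟨3 * (q.2.2 - q.2.1) * (q.2.1 + q.2.2 + q.1), by rw [← hM]; ring⟩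
      · exact ⟨3 * q.1 * (q.2.1 + q.2.2 + q.1), by rw [← hM]; ring⟩
      · exact ⟨3 * q.1 * (q.2.2 - q.2.1), by rw [← hM]; ring⟩
    · rintro ⟨h, x, y⟩ _ ⟨h', x', y'⟩ _ he
      simp only [Prod.mk.injEq] at he ⊢
      omega
  refine h1.trans ?_
  rw [card_product, card_product]
  have h2 := card_DD m
  calc (DD m).card * ((DD m).card * (DD m).card) = (DD m).card ^ 3 := by ring
    _ ≤ _ := Nat.pow_le_pow_left h2 3

theorem card_zero (P : ℕ) : ((QQ P).filter fun q => MM q = 0).card ≤ 2 * P ^ 2 := by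
  have hsub : ((QQ P).filter fun q => MM q = 0) ⊆
      ((II P ×ˢ II P).image fun p : ℤ × ℤ => ((0 : ℤ), p.1, p.2)) ∪
        ((II P ×ˢ II P).image fun p : ℤ × ℤ => (p.2 - p.1, p.1, p.1)) := by
    rintro ⟨h, x, y⟩ hq
    rw [mem_filter] at hq
    obtain ⟨h1, h2, h3, h4, h5, h6, h7, h8⟩ := mem_QQ hq.1
    simp only at h1 h2 h3 h4 h5 h6 h7 h8
    have hM : 3 * h * (y - x) * (x + y + h) = 0 := hq.2
    have h9 : x + y + h ≠ 0 := by omega
    rw [mem_union, mem_image, mem_image]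
    rcases mul_eq_zero.1 hM with h10 | h10
    · rcases mul_eq_zero.1 h10 with h11 | h11
      · left
        refine ⟨(x, y), ?_, ?_⟩
        · simp only [mem_product, II, mem_Icc]
          omega
        · simp only [Prod.mk.injEq, and_true]
          omega
      · right
        refine ⟨(x, x + h), ?_, ?_⟩
        · simp only [mem_product, II, mem_Icc]
          omega
        · simp only [Prod.mk.injEq, true_and]
          omega
    · exact absurd h10 h9
  refine (card_le_card hsub).trans ((card_union_le _ _).trans ?_)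
  have hc : (II P ×ˢ II P).card = P ^ 2 := by
    rw [card_product, II, Int.card_Icc]
    simp [pow_two]
  have h1 := card_image_le (s := II P ×ˢ II P) (f := fun p : ℤ × ℤ => ((0 : ℤ), p.1, p.2))
  have h2 := card_image_le (s := II P ×ˢ II P) (f := fun p : ℤ × ℤ => (p.2 - p.1, p.1, p.1))
  omega

/-- reindexing a double sum by the difference -/
theorem sum_diff (P : ℕ) (g : ℤ → ℤ → ℂ) :
    ∑ x ∈ II P, ∑ y ∈ II P, g x y = ∑ h ∈ HH P, ∑ x ∈ JJh P h, g x (x + h) := by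
  have h1 : ∀ x ∈ II P, ∑ y ∈ II P, g x y =
      ∑ h ∈ HH P, if x + h ∈ II P then g x (x + h) else 0 := by
    intro x hx
    rw [← sum_filter]
    apply sum_bij' (fun y _ => y - x) (fun h _ => x + h)
    · intro y hy
      simp only [II, HH, mem_filter, mem_Icc] at *
      omega
    · intro h hh
      simp only [mem_filter] at hh
      exact hh.2
    · intro y _
      ring
    · intro h _
      ring
    · intro y _
      congr 1
      ring
  rw [sum_congr rfl h1, sum_comm]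
  apply sum_congr rfl
  intro h _
  rw [JJh, sum_filter]

theorem main (P N k : ℕ) : ‖fN P N k‖ ^ 4 ≤
    (∑ q ∈ QQ P, ((2 * P : ℝ) : ℂ) * ee ((k : ℝ) * (MM q : ℝ) / N)).re := by
  set e : ℤ → ℂ := fun m => ee ((k : ℝ) * (m : ℝ) / N) with he
  have e_sub : ∀ a b : ℤ, e (a - b) = e a * (starRingEnd ℂ) (e b) := by
    intro a b
    simp only [he]
    rw [ee_conj, ← ee_add]
    congr 1
    push_cast
    ring
  have hf : fN P N k = ∑ x ∈ II P, e (x ^ 3) := by
    unfold fN II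
    apply sum_bij' (fun (x : ℕ) _ => (x : ℤ)) (fun (x : ℤ) _ => x.toNat)
    · intro x hx
      simp only [mem_Icc] at *
      omega
    · intro x hx
      simp only [mem_Icc] at *
      omega
    · intro x _
      simp
    · intro x hx
      simp only [mem_Icc] at hx
      omega
    · intro x _
      simp only [he]
      congr 1
      push_cast
      ring
  -- first squaring
  set T : ℤ → ℂ := fun h => ∑ x ∈ JJh P h, e ((x + h) ^ 3 - x ^ 3) with hT
  have h1 : (starRingEnd ℂ) (fN P N k) * fN P N k = ∑ h ∈ HH P, T h := by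
    rw [hf, map_sum, sum_mul_sum, sum_diff P fun x y => (starRingEnd ℂ) (e (x ^ 3)) * e (y ^ 3)]
    apply sum_congr rfl
    intro h _
    apply sum_congr rfl
    intro x _
    rw [e_sub, mul_comm]
  have h2 : ‖fN P N k‖ ^ 2 ≤ ∑ h ∈ HH P, ‖T h‖ := by
    have h3 : ‖(starRingEnd ℂ) (fN P N k) * fN P N k‖ = ‖fN P N k‖ ^ 2 := by
      rw [norm_mul, RCLike.norm_conj, pow_two]
    rw [← h3, h1]
    exact norm_sum_le _ _
  have hcard : ((HH P).card : ℝ) ≤ 2 * P := by
    have : (HH P).card ≤ 2 * P := by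
      rw [HH, Int.card_Icc]
      omega
    exact_mod_cast this
  have h4 : ‖fN P N k‖ ^ 4 ≤ 2 * P * ∑ h ∈ HH P, ‖T h‖ ^ 2 := by
    calc ‖fN P N k‖ ^ 4 = (‖fN P N k‖ ^ 2) ^ 2 := by ring
      _ ≤ (∑ h ∈ HH P, ‖T h‖) ^ 2 := by
        apply pow_le_pow_left₀ (by positivity) h2
      _ ≤ (HH P).card * ∑ h ∈ HH P, ‖T h‖ ^ 2 := sq_sum_le_card_mul_sum_sq
      _ ≤ _ := by
        apply mul_le_mul_of_nonneg_right hcard
        exact sum_nonneg fun _ _ => by positivity
  -- second squaring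
  have h5 : ∀ h ∈ HH P, ((‖T h‖ ^ 2 : ℝ) : ℂ) =
      ∑ x ∈ JJh P h, ∑ y ∈ JJh P h, e (3 * h * (y - x) * (x + y + h)) := by
    intro h _
    have h6 : ((‖T h‖ ^ 2 : ℝ) : ℂ) = (starRingEnd ℂ) (T h) * T h := by
      rw [← Complex.normSq_eq_norm_sq, Complex.normSq_eq_conj_mul_self]
    rw [h6, hT]
    simp only
    rw [map_sum, sum_mul_sum]
    apply sum_congr rfl
    intro x _
    apply sum_congr rfl
    intro y _
    rw [mul_comm, ← e_sub]
    congr 1
    ring
  have h7 : ∑ q ∈ QQ P, e (MM q) = ((∑ h ∈ HH P, ‖T h‖ ^ 2 : ℝ) : ℂ) := by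
    rw [Complex.ofReal_sum, sum_congr rfl h5, QQ, sum_filter, sum_product]
    apply sum_congr rfl
    intro h _
    rw [sum_product, JJh, sum_filter]
    apply sum_congr rfl
    intro x _
    split_ifs with h8
    · rw [sum_filter]
      apply sum_congr rfl
      intro y _
      simp only [h8, true_and]
      rfl
    · apply sum_eq_zero
      intro y _
      simp [h8]
  rw [← mul_sum, h7, ← Complex.ofReal_mul, Complex.ofReal_re]
  exact h4

end WeylA

open WeylA in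
theorem tWeyl (hdiv : St_div) : St_weyl := by
  intro ε hε
  obtain ⟨C₀, hC₀, hdiv⟩ := hdiv (ε / 9) (by positivity) 1 le_rfl
  refine ⟨4 + 16 * C₀ ^ 3 * (6 : ℝ) ^ (ε / 3), by positivity, ?_⟩
  intro P hP
  have hP1 : (1 : ℝ) ≤ P := by exact_mod_cast hP
  have hP0 : (0 : ℝ) ≤ P := by positivity
  refine ⟨fun m => 2 * P * ((QQ P).filter fun q => MM q = m).card, ?_, ?_, ?_, ?_⟩
  · intro m
    positivity
  · have h1 : ((((QQ P).filter fun q => MM q = 0).card : ℕ) : ℝ) ≤ 2 * (P : ℝ) ^ 2 := by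
      exact_mod_cast card_zero P
    calc 2 * (P : ℝ) * ((QQ P).filter fun q => MM q = 0).card
        ≤ 2 * (P : ℝ) * (2 * (P : ℝ) ^ 2) := by gcongr
      _ = 4 * (P : ℝ) ^ 3 := by ring
      _ ≤ _ := by
        apply mul_le_mul_of_nonneg_right _ (by positivity)
        have : 0 ≤ 16 * C₀ ^ 3 * (6 : ℝ) ^ (ε / 3) := by positivity
        linarith
  · intro m hm
    have hpos : 0 ≤ (4 + 16 * C₀ ^ 3 * (6 : ℝ) ^ (ε / 3)) * (P : ℝ) ^ (1 + ε) := by positivity
    rcases Finset.eq_empty_or_nonempty ((QQ P).filter fun q => MM q = m) with h0 | h0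
    · simp only [h0, card_empty, Nat.cast_zero, mul_zero]
      exact hpos
    · obtain ⟨q, hq⟩ := h0
      rw [mem_filter] at hq
      have hm6 := MM_le hq.1
      rw [hq.2, mem_Icc, ← abs_le] at hm6
      have hnat : m.natAbs ≤ 6 * P ^ 3 := by
        have : ((m.natAbs : ℕ) : ℤ) ≤ ((6 * P ^ 3 : ℕ) : ℤ) := by
          rw [Int.natCast_natAbs]
          push_cast
          exact hm6
        exact_mod_cast this
      have hn1 : 1 ≤ m.natAbs := Nat.one_le_iff_ne_zero.2 (Int.natAbs_ne_zero.2 hm)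
      have h1 := (hdiv m.natAbs hn1).2
      have h2 : ((m.natAbs : ℕ) : ℝ) ^ (ε / 9) ≤ (6 * (P : ℝ) ^ 3) ^ (ε / 9) := by
        apply Real.rpow_le_rpow (by positivity) _ (by positivity)
        exact_mod_cast hnat
      have h3 : ((Nat.divisors m.natAbs).card : ℝ) ≤ C₀ * (6 * (P : ℝ) ^ 3) ^ (ε / 9) :=
        h1.trans (by gcongr)
      have h4 : ((((QQ P).filter fun q => MM q = m).card : ℕ) : ℝ) ≤
          (2 * (C₀ * (6 * (P : ℝ) ^ 3) ^ (ε / 9))) ^ 3 := by
        have h5 : ((((QQ P).filter fun q => MM q = m).card : ℕ) : ℝ) ≤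
            (2 * ((Nat.divisors m.natAbs).card : ℝ)) ^ 3 := by
          exact_mod_cast card_fiber P hm
        refine h5.trans ?_
        gcongr
      have h6 : ((6 * (P : ℝ) ^ 3) ^ (ε / 9)) ^ 3 = (6 : ℝ) ^ (ε / 3) * (P : ℝ) ^ ε := by
        rw [← Real.rpow_natCast, ← Real.rpow_mul (by positivity),
          Real.mul_rpow (by norm_num) (by positivity), ← Real.rpow_natCast (P : ℝ) 3,
          ← Real.rpow_mul hP0]
        congr 2
        · push_cast
          ring
        · push_cast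
          ring
      have h7 : (P : ℝ) ^ (1 + ε) = P * (P : ℝ) ^ ε := by
        rw [Real.rpow_add (by positivity), Real.rpow_one]
      calc 2 * (P : ℝ) * ((QQ P).filter fun q => MM q = m).card
          ≤ 2 * (P : ℝ) * (2 * (C₀ * (6 * (P : ℝ) ^ 3) ^ (ε / 9))) ^ 3 := by gcongr
        _ = 16 * C₀ ^ 3 * ((6 * (P : ℝ) ^ 3) ^ (ε / 9)) ^ 3 * P := by ring
        _ = 16 * C₀ ^ 3 * (6 : ℝ) ^ (ε / 3) * (P : ℝ) ^ (1 + ε) := by rw [h6, h7]; ring
        _ ≤ _ := by
          apply mul_le_mul_of_nonneg_right _ (by positivity)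
          linarith
  · intro N k _
    refine (main P N k).trans (le_of_eq ?_)
    congr 1
    rw [← sum_fiberwise_of_maps_to (s := QQ P)
      (t := Icc (-(6 * (P : ℤ) ^ 3)) (6 * (P : ℤ) ^ 3)) (g := MM) (fun q hq => MM_le hq)]
    apply sum_congr rfl
    intro m _
    have h1 : ∀ q ∈ (QQ P).filter (fun q => MM q = m),
        ((2 * P : ℝ) : ℂ) * ee ((k : ℝ) * (MM q : ℝ) / N) =
          ((2 * P : ℝ) : ℂ) * ee ((k : ℝ) * (m : ℝ) / N) := by
      intro q hq
      rw [mem_filter] at hq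
      rw [hq.2]
    rw [sum_congr rfl h1, sum_const, nsmul_eq_mul]
    push_cast
    ring

end Pool.Agent.TCub
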