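import Pool.Agent.TCub.Stmts
import Pool.Agent.TCub.SSmul
import Pool.Agent.TCub.SSunit
import Pool.Agent.TCub.Rhoprime
import Pool.Agent.TCub.SSprime
import Pool.Agent.TCub.SSs
import Pool.Agent.TCub.Div
import Pool.Agent.TCub.Fermat
import Pool.Agent.TCub.Fej
import Pool.Agent.TCub.LSexp
import Pool.Agent.TCub.Fibre
import Pool.Agent.TCub.Psi
import Pool.Agent.TCub.LS0
import Pool.Agent.TCub.LS1
import Pool.Agent.TCub.LS2
import Pool.Agent.TCub.LS
import Pool.Agent.TCub.LSs
import Pool.Agent.TCub.LSse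
import Pool.Agent.TCub.Bil
import Pool.Agent.TCub.RRexp
import Pool.Agent.TCub.EstF
import Pool.Agent.TCub.DMs
import Pool.Agent.TCub.EstT
import Pool.Agent.TCub.EstI
import Pool.Agent.TCub.SEP
import Pool.Agent.TCub.LBcell
import Pool.Agent.TCub.LB
import Pool.Agent.TCub.Dclm
import Pool.Agent.TCub.Split3
import Pool.Agent.TCub.Splitd
import Pool.Agent.TCub.LT
import Pool.Agent.TCub.Contr
import Pool.Agent.TCub.FP
import Pool.Agent.TCub.W2
import Pool.Agent.TCub.FA
import Pool.Agent.TCub.SumL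
import Pool.Agent.TCub.Gexp
import Pool.Agent.TCub.StU
import Pool.Agent.TCub.StW
import Pool.Agent.TCub.AST
import Pool.Agent.TCub.FL
import Pool.Agent.TCub.Lamf
import Pool.Agent.TCub.Lams
import Pool.Agent.TCub.Boxs
import Pool.Agent.TCub.Adms
import Pool.Agent.TCub.Slack
import Pool.Agent.TCub.VVm
import Pool.Agent.TCub.Gbox
import Pool.Agent.TCub.Num
import Pool.Agent.TCub.CLpt
import Pool.Agent.TCub.CLf
import Pool.Agent.TCub.CLrem
import Pool.Agent.TCub.Low
import Pool.Agent.TCub.MainP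
import Pool.Agent.TCub.Kuhn
import Pool.Agent.TCub.Sq
import Pool.Agent.TCub.T1s
import Pool.Agent.TCub.Four
import Pool.Agent.TCub.J2b
import Pool.Agent.TCub.Weyl
import Pool.Agent.TCub.J4b
import Pool.Agent.TCub.J3b
import Pool.Agent.TCub.Bfin

namespace Pool.Agent.TCub

theorem zSSmul : St_SSmul := tSSmul
theorem zSSunit : St_SSunit := tSSunit
theorem zRhoprime : St_rhoprime := tRhoprime
theorem zSSprime : St_SSprime := tSSprime
theorem zSSs : St_sS := tSSs zSSmul zSSunit zSSprime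
theorem zDiv : St_div := tDiv
theorem zFermat : St_fermat := tFermat
theorem zFej : St_fej := tFej
theorem zLSexp : St_LSexp := tLSexp zFej
theorem zFibre : St_fibre := tFibre
theorem zPsi : St_psi := tPsi
theorem zLS0 : St_LS012 (fun z => z = 0) := tLS0 zDiv
theorem zLS1 : St_LS012 (fun z => z ≠ 0 ∧ F3 z = 0) := tLS1 zDiv zFermat zPsi
theorem zLS2 : St_LS012 (fun z => F3 z ≠ 0) := tLS2 zDiv zPsi
theorem zLS : St_LS := tLS zSSs zFej zLSexp zFibre zLS0 zLS1 zLS2
theorem zLSs : St_LSs := tLSs zSSmul zSSunit zSSs zDiv zLS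
theorem zLSse : St_LSse := tLSse zSSs zDiv zLSs
theorem zBil : St_Bil := tBil zSSs zDiv zLSse
theorem zDMs : St_DM := tDMs
theorem zRRexp : St_RRexp := tRRexp zSSs zDMs
theorem zEstF : St_EstF := tEstF zSSmul zSSunit
theorem zEstT : St_EstT := tEstT zEstF zDMs
theorem zEstI : St_EstI := tEstI zSSs zDiv zDMs zEstT
theorem zSEP : St_SEP := tSEP
theorem zLBcell : St_LBcell := tLBcell zBil zSEP zDMs zEstT
theorem zLB : St_LB := tLB zLBcell
theorem zDclm : St_Dcl := tDclm
theorem zSplit3 : St_split3 := tSplit3 zDclm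
theorem zSplitd : St_splitd := tSplitd zDclm
theorem zLT : St_LT := tLT zSSs zDiv zRRexp zEstI zLB zDclm zSplit3 zSplitd
theorem zContr : St_con := tContr
theorem zFP : St_FP := tFP zContr
theorem zW2 : St_W2 := tW2
theorem zFA : St_FA := tFA
theorem zSumL : St_sum := tSumL
theorem zGexp : St_Gexp := tGexp
theorem zStU : St_stU := tStU zContr
theorem zStW : St_stW := tStW zContr
theorem zAST : St_AST := tAST zSumL zGexp zStU zStW
theorem zFL : St_FL := tFL zFP zW2 zAST
theorem zLamf : St_Lam := tLamf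
theorem zLams : St_Lams := tLams
theorem zBoxs : St_box := tBoxs zDclm
theorem zAdms : St_adm := tAdms
theorem zSlack : St_slack := tSlack
theorem zVVm : St_V := tVVm zRhoprime
theorem zGbox : St_gbox := tGbox zVVm
theorem zNum : St_num := tNum
theorem zCLpt : St_CLpt := tCLpt zLamf zGexp
theorem zCLf : St_CLf := tCLf zSSs zLamf
theorem zCLrem : St_CLrem := tCLrem zLT zLamf zLams zBoxs zAdms zSlack zDclm zSplitd
theorem zLow : St_low := tLow zDclm zDMs zAST zFL zVVm zGbox zGexp zCLpt zCLf zCLrem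
theorem zMainP : St_main := tMainP zFP zW2 zFA zVVm zNum zDclm zLow
theorem zKuhn : St_kuhn := tKuhn
theorem zSq : St_sq := tSq zDiv
theorem zT1s : St_T1s := tT1s zDMs zMainP zKuhn zSq
theorem zFour : St_four := tFour
theorem zJ2b : St_J2 := tJ2b zDiv
theorem zWeyl : St_weyl := tWeyl zDiv
theorem zJ4b : St_J4 := tJ4b zFour zJ2b zWeyl
theorem zJ3b : St_J3 := tJ3b zFour zJ2b zJ4b
theorem zBfin : St_B := tBfin zJ3b zT1s

end Pool.Agent.TCub
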