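import Mathlib

/-!
# TCub: P_2-values of sums of three positive cubes, right order of magnitude (MP_4483ed_nt)

All definitions of the project.  See `TCub_blueprint.md`.
-/

open Finset

namespace Pool.Agent.TCub

noncomputable section

/-! ## The cone and its exponential sums -/

/-- `e(t) = exp(2πit)` -/
def ee (t : ℝ) : ℂ := Complex.exp (2 * Real.pi * t * Complex.I)

/-- the cubic form `x₀³+x₁³+x₂³` -/
def F3 (x : Fin 3 → ℤ) : ℤ := x 0 ^ 3 + x 1 ^ 3 + x 2 ^ 3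

/-- scalar product -/
def dot (h x : Fin 3 → ℤ) : ℤ := ∑ i, h i * x i

/-- the residues `0 ≤ x_i < d` with `d ∣ F3 x` -/
def cone (d : ℕ) : Finset (Fin 3 → ℤ) :=
  (Fintype.piFinset fun _ : Fin 3 => Finset.Ico (0:ℤ) d).filter fun x => (d:ℤ) ∣ F3 x

/-- number of points of the cone mod `d` -/
def rho (d : ℕ) : ℕ := (cone d).card

/-- the density `ρ(d)/d³` -/
def gd (d : ℕ) : ℝ := (rho d : ℝ) / (d:ℝ) ^ 3

/-- `S_d(h)` -/
def SS (d : ℕ) (h : Fin 3 → ℤ) : ℂ := ∑ x ∈ cone d, ee ((dot h x : ℝ) / d)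

/-- `s_d(h) = S_d(h)/d` -/
def sn (d : ℕ) (h : Fin 3 → ℤ) : ℂ := SS d h / d

/-- no prime `p ∣ n` divides all `h_i` -/
def good (n : ℕ) (h : Fin 3 → ℤ) : Prop := ∀ p : ℕ, p.Prime → p ∣ n → ∃ i, ¬ (p:ℤ) ∣ h i

open Classical in
/-- `s*_n(h) = s_n(h)` if `h` is good for `n`, else `0` -/
def sS (n : ℕ) (h : Fin 3 → ℤ) : ℂ := if good n h then sn n h else 0

/-- the cube `|h_i| ≤ H` -/
def cube (H : ℕ) : Finset (Fin 3 → ℤ) := Fintype.piFinset fun _ : Fin 3 => Finset.Icc (-(H:ℤ)) H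

/-- symmetric residues mod `L` : `-L < 2 z_i ≤ L` -/
def symb (L : ℕ) : Finset (Fin 3 → ℤ) :=
  Fintype.piFinset fun _ : Fin 3 => (Finset.Icc (-(L:ℤ)) L).filter fun z => -(L:ℤ) < 2 * z ∧ 2 * z ≤ L

/-! ## Fejer majorant -/

/-- Fejer weight, `≥ 1` on `|h| ≤ H`, supported in `|h| ≤ 4H` -/
def fej (H : ℕ) (h : ℤ) : ℝ := max 0 (1 - |(h:ℝ)| / (4 * H)) * (4 / 3)

/-- its Fourier transform -/
def Fh (H : ℕ) (θ : ℝ) : ℝ :=
  (1 / (3 * (H:ℝ))) * ‖∑ j ∈ Finset.range (4 * H), ee ((j:ℝ) * θ)‖ ^ 2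

/-- majorant of `Fh H (z/L)` for `|z| ≤ L/2` -/
def psi (H : ℕ) (L : ℝ) (z : ℤ) : ℝ :=
  if z = 0 then 6 * (H:ℝ) else min (6 * (H:ℝ)) (L ^ 2 / (H * (z:ℝ) ^ 2))

/-! ## Weights on the variables -/

/-- number of representations of `n` as a sum of `K` integers in `[1,M]` -/
def wt (M K : ℕ) (n : ℤ) : ℕ :=
  ((Fintype.piFinset fun _ : Fin K => Finset.Icc (1:ℤ) M).filter fun y => ∑ i, y i = n).card

/-- the box `[1,KM]³` -/
def bx (M K : ℕ) : Finset (Fin 3 → ℤ) := Fintype.piFinset fun _ : Fin 3 => Finset.Icc (1:ℤ) (K * M)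

def WW (M K : ℕ) (x : Fin 3 → ℤ) : ℝ := ∏ i, (wt M K (x i) : ℝ)

def XX (M K : ℕ) : ℝ := (M:ℝ) ^ (3 * K)

/-- `A_d` -/
def AA (M K d : ℕ) : ℝ := ∑ x ∈ bx M K, if (d:ℤ) ∣ F3 x then WW M K x else 0

/-- the primitive error term -/
def Est (M K d : ℕ) : ℝ :=
  ∑ x ∈ bx M K, WW M K x * ∏ p ∈ d.primeFactors, ((if (p:ℤ) ∣ F3 x then (1:ℝ) else 0) - gd p)

/-- remainder -/
def RR (M K d : ℕ) : ℝ := AA M K d - gd d * XX M K

/-- `∑_{1≤y≤M} e(yθ)` -/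
def DM (M : ℕ) (θ : ℝ) : ℂ := ∑ y ∈ Finset.Icc 1 M, ee ((y:ℝ) * θ)

/-! ## Boxes of primes -/

/-- the label of `p` : `p ∈ [M^{j/(1000N)}, M^{(j+1)/(1000N)})` -/
def lab (M N p : ℕ) : ℕ := ⌊1000 * (N:ℝ) * Real.log p / Real.log M⌋₊

/-- the type of `d` : the multiset of labels of its prime factors -/
def typ (M N d : ℕ) : Multiset ℕ := d.primeFactors.val.map (lab M N)

/-- the upper edge of box `j` (log scale, base `M`) -/
def ed (N j : ℕ) : ℝ := ((j:ℝ) + 1) / (1000 * N)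

/-- total of the upper edges -/
def tv (N : ℕ) (m : Multiset ℕ) : ℝ := (m.map (ed N)).sum

/-- the squarefree numbers of type `m` with all prime factors `≥ u` -/
def Dcl (M N u : ℕ) (m : Multiset ℕ) : Finset ℕ :=
  (Finset.range (M ^ (m.sum + Multiset.card m) + 1)).filter
    fun d => Squarefree d ∧ (∀ p ∈ d.primeFactors, u ≤ p) ∧ typ M N d = m

/-- every sub-multiset of total `≥ 1.49` has two disjoint blocks with small complement -/
def slackOK (N : ℕ) (m : Multiset ℕ) : Prop :=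
  ∀ n ≤ m, 149 / 100 ≤ tv N n → ∃ b₁ b₂ : Multiset ℕ, b₁ + b₂ ≤ n ∧
    tv N b₁ ≤ tv N n - 1 ∧ tv N b₂ ≤ tv N n - 1 ∧
    tv N n - tv N b₁ - tv N b₂ ≤ 6 - 3 * tv N n - 1 / 50

/-! ## Rosser's sieve -/

open Classical in
/-- Rosser's weights as a linear functional: `∑_d λ^±(d) φ(d)`, `d` squarefree with prime factors
in `[u,w)`, `b = true` for the upper bound sieve; `c p` is the cost of the prime `p`,
`L` the (logarithmic) level. -/
def Lam (c : ℕ → ℝ) (u : ℕ) : ℕ → Bool → ℝ → (ℕ → ℝ) → ℝ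
  | 0, _, _, φ => φ 1
  | (w + 1), b, L, φ => Lam c u w b L φ -
      if (w.Prime ∧ u ≤ w ∧ (b = true → 3 * c w < L)) then
        Lam c u w (!b) (L - c w) (fun d => φ (w * d)) else 0

open Classical in
/-- the value of `Lam` at the multiplicative function `g` -/
def GG (g c : ℕ → ℝ) (u : ℕ) : ℕ → Bool → ℝ → ℝ
  | 0, _, _ => 1
  | (w + 1), b, L => GG g c u w b L -
      if (w.Prime ∧ u ≤ w ∧ (b = true → 3 * c w < L)) then g w * GG g c u w (!b) (L - c w) else 0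

/-- the primes of `[u,w)` -/
def prs (u w : ℕ) : Finset ℕ := (Finset.range w).filter fun p => p.Prime ∧ u ≤ p

/-- `V(w) = ∏_{u ≤ p < w} (1-g(p))` -/
def VV (g : ℕ → ℝ) (u w : ℕ) : ℝ := ∏ p ∈ prs u w, (1 - g p)

/-- weights of the contraction -/
def HU (s : ℝ) : ℝ := if s ≤ 3 then (8 / 7) / s else (8 / 21) * Real.exp (-(s - 3))
def HW (s : ℝ) : ℝ := Real.exp (-(s - 2))

/-- The functions of the linear sieve: `F = 1 + U`, `f = 1 - W`. -/
structure FPt (U W : ℝ → ℝ) : Prop where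
  U0 : ∀ s, 0 < s → 0 ≤ U s
  Uanti : AntitoneOn U (Set.Ioi 0)
  Ubd : ∀ s, 0 < s → U s ≤ 21 * HU s
  W0 : ∀ s, 2 ≤ s → 0 ≤ W s
  Wanti : AntitoneOn W (Set.Ici 2)
  Wbd : ∀ s, 2 ≤ s → W s ≤ 21 * HW s
  Ueq : ∀ s, 0 < s → s * U s = max (3 - s) 0 + ∫ t in Set.Ioi (max s 3), W (t - 1)
  Weq : ∀ s, 2 ≤ s → s * W s = ∫ t in Set.Ioi s, U (t - 1)

/-- hypotheses of the abstract linear sieve -/
structure SvH (g c : ℕ → ℝ) (u : ℕ) (ε δ : ℝ) : Prop where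
  hu : 2 ≤ u
  hε : 0 ≤ ε
  hδ : 0 ≤ δ
  hg0 : ∀ p, p.Prime → 0 ≤ g p
  hg1 : ∀ p, p.Prime → g p < 1
  hV : ∀ x y : ℝ, (u:ℝ) ≤ x → x ≤ y →
    VV g u ⌈x⌉₊ ≤ (1 + ε) * (Real.log y / Real.log x) * VV g u ⌈y⌉₊
  hc1 : ∀ p, p.Prime → u ≤ p → Real.log p ≤ c p
  hc2 : ∀ p, p.Prime → u ≤ p → c p ≤ (1 + δ) * Real.log p

/-- boxed cost of a prime (real) -/
def cb (M N p : ℕ) : ℝ := ed N (lab M N p) * Real.log M

/-- admissible lists of labels (in decreasing order) -/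
def Adm (N : ℕ) : Bool → ℝ → List ℕ → Prop
  | _, _, [] => True
  | b, l, (j :: js) => (b = true → 3 * ed N j < l) ∧ Adm N (!b) (l - ed N j) js

/-- all multisets of labels `< J` with multiplicities `≤ r` -/
def Ty (J r : ℕ) : Finset (Multiset ℕ) :=
  (Multiset.powerset (∑ j ∈ Finset.range J, Multiset.replicate r j)).toFinset

/-- structure condition guaranteeing slack (see `St_slack`) -/
def SC (N : ℕ) (m : Multiset ℕ) : Prop :=
  tv N m < 17001 / 10000 ∧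
  Multiset.card (m.filter (fun j => 2865 / 10000 < ed N j)) ≤ 3 ∧
  (∀ j ∈ m, 425 / 1000 < ed N j → tv N m + ed N j / 3 < 199 / 100 ∧
    ∀ i ∈ m.erase j, ed N i ≤ 425 / 1000)

/-! ## Parameters of the final argument -/

/-- the composite sieve functional: exact inclusion-exclusion for the primes `< u₀`, Rosser with
level `M^{1/5000}` for `[u₀,u)`, boxed Rosser with level `M^l` for `[u,z)`. -/
def CL (M N u₀ u z : ℕ) (b₁ b₂ : Bool) (l : ℝ) (φ : ℕ → ℝ) : ℝ :=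
  ∑ d₀ ∈ (∏ p ∈ prs 0 u₀, p).divisors, ((ArithmeticFunction.moebius d₀ : ℤ) : ℝ) *
    Lam (fun p => Real.log p) u₀ u b₁ (1 / 5000 * Real.log M) (fun m =>
      Lam (cb M N) u z b₂ (l * Real.log M) (fun d => φ (d₀ * m * d)))

/-- the number `x` is sifted: all prime factors of `F3 x` are `≥ z` -/
def Sft (z : ℕ) (x : Fin 3 → ℤ) : Prop := ∀ p : ℕ, p.Prime → (p:ℤ) ∣ F3 x → z ≤ p

/-- level for box `j` : `min(1.7, 1.99 - t/3) - t`, `t = ed N j` -/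
def lv (N j : ℕ) : ℝ := min (17 / 10) (199 / 100 - ed N j / 3) - ed N j

/-- penalty of box `j` -/
def pen (N j : ℕ) : ℝ :=
  if 425 * N ≤ j ∧ j < 1405 * N then
    (1157 / 1000) * (1 - ((j:ℝ) / (1000 * N)) / (1405 / 1000)) +
      (if 999 * N ≤ j ∧ j < 1001 * N then 1 else 0)
  else 0

/-- primes of the box `j` -/
def bxp (M N j : ℕ) : Finset ℕ :=
  (Finset.range (M ^ (j + 1) + 1)).filter fun p => p.Prime ∧ lab M N p = j

/-- admissible types -/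
def Tya (N : ℕ) (b : Bool) (l : ℝ) (J r : ℕ) : Finset (Multiset ℕ) := by
  classical
  exact (Ty J r).filter fun m => Multiset.card m ≤ r ∧ Adm N b l (m.sort (· ≥ ·))

end

end Pool.Agent.TCub
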