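import Pool.Agent.TCub.Stmts

open Finset

namespace Pool.Agent.TCub

namespace LSse

/-- re-indexing the multiples of `e` -/
theorem reindex (N e : ℕ) (he : 1 ≤ e) (f : ℕ → ℂ) :
    ∑ n ∈ (Finset.Icc 1 N).filter (fun n => Squarefree n ∧ e ∣ n), f n =
      ∑ m ∈ (Finset.Icc 1 (N / e)).filter Squarefree, if Squarefree (e * m) then f (e * m) else 0 := by
  rw [← Finset.sum_filter]
  symm
  refine Finset.sum_bij (fun m _ => e * m) ?_ ?_ ?_ ?_
  · intro m hm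
    simp only [Finset.mem_filter, Finset.mem_Icc] at hm ⊢
    obtain ⟨⟨⟨h1, h2⟩, h3⟩, h4⟩ := hm
    refine ⟨⟨?_, ?_⟩, h4, Dvd.intro _ rfl⟩
    · exact Nat.mul_pos he h1
    · calc e * m ≤ e * (N / e) := Nat.mul_le_mul_left _ h2
        _ ≤ N := Nat.mul_div_le N e
  · intro a _ b _ hab
    exact Nat.eq_of_mul_eq_mul_left he hab
  · intro n hn
    simp only [Finset.mem_filter, Finset.mem_Icc] at hn
    obtain ⟨⟨h1, h2⟩, h3, m, rfl⟩ := hn
    refine ⟨m, ?_, rfl⟩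
    simp only [Finset.mem_filter, Finset.mem_Icc]
    refine ⟨⟨⟨?_, ?_⟩, h3.squarefree_of_dvd (Dvd.intro_left _ rfl)⟩, h3⟩
    · rcases Nat.eq_zero_or_pos m with h | h
      · subst h; simp at h1
      · exact h
    · rw [Nat.le_div_iff_mul_le he, mul_comm]; exact h2
  · intro m _; rfl

end LSse

open LSse in
theorem tLSse (hsS : St_sS) (hdiv : St_div) (hLSs : St_LSs) : St_LSse := by
  intro ε hε
  obtain ⟨C1, hC1, h1⟩ := hdiv (ε / 2) (by positivity) 100 (by norm_num)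
  obtain ⟨C2, hC2, h2⟩ := hLSs (ε / 2) (by positivity)
  refine ⟨C1 * C2, by positivity, ?_⟩
  intro N H e hN hNH he α hα
  have hH1 : (1:ℝ) ≤ H := by exact_mod_cast hN.trans hNH
  have heR : (0:ℝ) < e := by exact_mod_cast he
  by_cases heN : e ≤ N
  swap
  · have hz : (Finset.Icc 1 N).filter (fun n => Squarefree n ∧ e ∣ n) = ∅ := by
      rw [Finset.filter_eq_empty_iff]
      rintro n hn ⟨_, hd⟩
      rw [Finset.mem_Icc] at hn
      exact heN ((Nat.le_of_dvd hn.1 hd).trans hn.2)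
    rw [hz]
    simp only [Finset.sum_empty, norm_zero]
    norm_num
    positivity
  by_cases hes : Squarefree e
  swap
  · have hz : (Finset.Icc 1 N).filter (fun n => Squarefree n ∧ e ∣ n) = ∅ := by
      rw [Finset.filter_eq_empty_iff]
      rintro n hn ⟨hs, hd⟩
      exact hes (hs.squarefree_of_dvd hd)
    rw [hz]
    simp only [Finset.sum_empty, norm_zero]
    norm_num
    positivity
  have hN' : 1 ≤ N / e := (Nat.one_le_div_iff he).mpr heN
  have hN'H : N / e ≤ H := (Nat.div_le_self N e).trans hNH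
  obtain ⟨β, hβ⟩ : ∃ β : ℕ → ℂ, β = fun m => if Squarefree (e * m) then α (e * m) else 0 := ⟨_, rfl⟩
  have hβ1 : ∀ n, ‖β n‖ ≤ 1 := by
    intro n
    rw [hβ]
    by_cases h : Squarefree (e * n)
    · simp only [h, if_true]; exact hα _
    · simp only [h, if_false, norm_zero]; exact zero_le_one
  have key : ∀ h : Fin 3 → ℤ,
      ∑ n ∈ (Finset.Icc 1 N).filter (fun n => Squarefree n ∧ e ∣ n), α n * sS n h =
        sS e h * ∑ m ∈ (Finset.Icc 1 (N / e)).filter Squarefree, β m * sS m h := by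
    intro h
    rw [reindex N e he, Finset.mul_sum]
    refine Finset.sum_congr rfl fun m hm => ?_
    rw [hβ]
    by_cases hs : Squarefree (e * m)
    · simp only [hs, if_true]
      rw [hsS.2.2.1 e m (Nat.coprime_of_squarefree_mul hs)]
      ring
    · simp only [hs, if_false]; ring
  have hb1 : ∀ h : Fin 3 → ℤ, ‖sS e h‖ ^ 2 ≤ C1 * (H:ℝ) ^ (ε / 2) := by
    intro h
    have h3 := hsS.2.2.2 e hes h
    have h4 : ‖sS e h‖ ^ 2 ≤ (10 ^ (e.primeFactors.card)) ^ 2 :=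
      pow_le_pow_left₀ (norm_nonneg _) h3 2
    have h5 : ((10:ℝ) ^ (e.primeFactors.card)) ^ 2 = 100 ^ (e.primeFactors.card) := by
      rw [← pow_mul, mul_comm, pow_mul]; norm_num
    have h6 := (h1 e he).1
    have h7 : (e:ℝ) ^ (ε / 2) ≤ (H:ℝ) ^ (ε / 2) :=
      Real.rpow_le_rpow heR.le (by exact_mod_cast heN.trans hNH) (by positivity)
    calc ‖sS e h‖ ^ 2 ≤ 100 ^ (e.primeFactors.card) := by rw [← h5]; exact h4
      _ ≤ C1 * (e:ℝ) ^ (ε / 2) := h6
      _ ≤ C1 * (H:ℝ) ^ (ε / 2) := by gcongr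
  have hmain := h2 (N / e) H hN' hN'H β hβ1
  calc ∑ h ∈ cube H, ‖∑ n ∈ (Finset.Icc 1 N).filter (fun n => Squarefree n ∧ e ∣ n), α n * sS n h‖ ^ 2
      = ∑ h ∈ cube H, ‖sS e h‖ ^ 2 *
          ‖∑ m ∈ (Finset.Icc 1 (N / e)).filter Squarefree, β m * sS m h‖ ^ 2 := by
        refine Finset.sum_congr rfl fun h _ => ?_
        rw [key h, norm_mul, mul_pow]
    _ ≤ ∑ h ∈ cube H, (C1 * (H:ℝ) ^ (ε / 2)) *
          ‖∑ m ∈ (Finset.Icc 1 (N / e)).filter Squarefree, β m * sS m h‖ ^ 2 := by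
        refine Finset.sum_le_sum fun h _ => ?_
        exact mul_le_mul_of_nonneg_right (hb1 h) (by positivity)
    _ = (C1 * (H:ℝ) ^ (ε / 2)) * ∑ h ∈ cube H,
          ‖∑ m ∈ (Finset.Icc 1 (N / e)).filter Squarefree, β m * sS m h‖ ^ 2 := by
        rw [Finset.mul_sum]
    _ ≤ (C1 * (H:ℝ) ^ (ε / 2)) * (C2 * (H:ℝ) ^ (3 + ε / 2) * ((N / e : ℕ) : ℝ)) := by
        gcongr
    _ ≤ (C1 * (H:ℝ) ^ (ε / 2)) * (C2 * (H:ℝ) ^ (3 + ε / 2) * ((N:ℝ) / e)) := by
        gcongr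
        exact Nat.cast_div_le
    _ = C1 * C2 * (H:ℝ) ^ (3 + ε) * N / e := by
        have h8 : (H:ℝ) ^ (3 + ε) = (H:ℝ) ^ (ε / 2) * (H:ℝ) ^ (3 + ε / 2) := by
          rw [← Real.rpow_add (by linarith)]
          congr 1; ring
        rw [h8]; ring

end Pool.Agent.TCub
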