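import Pool.Agent.TCub.Stmts

open Finset

namespace Pool.Agent.TCub

namespace MainP

theorem F3_pos {M K : ℕ} {x : Fin 3 → ℤ} (hx : x ∈ bx M K) : 0 < F3 x := by
  unfold bx at hx
  rw [Fintype.mem_piFinset] at hx
  have h0 := (Finset.mem_Icc.mp (hx 0)).1
  have h1 := (Finset.mem_Icc.mp (hx 1)).1
  have h2 := (Finset.mem_Icc.mp (hx 2)).1
  unfold F3
  positivity

theorem WW_nonneg (M K : ℕ) (x : Fin 3 → ℤ) : 0 ≤ WW M K x := by
  unfold WW
  exact Finset.prod_nonneg fun i _ => Nat.cast_nonneg _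

theorem pen_nonneg {N j : ℕ} (hN : 1 ≤ N) : 0 ≤ pen N j := by
  unfold pen
  have hN0 : (0:ℝ) < N := by exact_mod_cast hN
  split_ifs with h1 h2
  · have h3 : (j:ℝ) < 1405 * N := by exact_mod_cast h1.2
    have h4 : (j:ℝ) / (1000 * N) / (1405 / 1000) ≤ 1 := by
      rw [div_div, div_le_one (by positivity)]
      nlinarith
    nlinarith
  · have h3 : (j:ℝ) < 1405 * N := by exact_mod_cast h1.2
    have h4 : (j:ℝ) / (1000 * N) / (1405 / 1000) ≤ 1 := by
      rw [div_div, div_le_one (by positivity)]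
      nlinarith
    nlinarith
  · exact le_refl _

theorem lv_pos {N j : ℕ} (hN : 1 ≤ N) (h1 : 425 * N ≤ j) (h2 : j < 1405 * N) :
    0 < lv N j ∧ lv N j ≤ 1275 / 1000 := by
  have hN0 : (0:ℝ) < N := by exact_mod_cast hN
  have h1' : (425:ℝ) * N ≤ j := by exact_mod_cast h1
  have h2' : (j:ℝ) + 1 ≤ 1405 * N := by exact_mod_cast h2
  have h3 : 425 / 1000 ≤ ed N j := by
    unfold ed
    rw [div_le_div_iff₀ (by norm_num) (by positivity)]
    nlinarith
  have h4 : ed N j ≤ 1405 / 1000 := by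
    unfold ed
    rw [div_le_div_iff₀ (by positivity) (by norm_num)]
    nlinarith
  unfold lv
  constructor
  · rw [sub_pos, lt_min_iff]
    constructor <;> linarith
  · have := min_le_left (17 / 10 : ℝ) (199 / 100 - ed N j / 3)
    linarith

open Classical in
theorem pen_sum {M K N : ℕ} (hM : 2 ≤ M) (hN : 1 ≤ N) (hDcl : St_Dcl) {x : Fin 3 → ℤ}
    (hx : x ∈ bx M K) :
    ∑ p ∈ (F3 x).natAbs.primeFactors, pen N (lab M N p) =
      ∑ j ∈ Finset.Ico (425 * N) (1405 * N), pen N j *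
        ∑ p ∈ bxp M N j, (if (p:ℤ) ∣ F3 x then (1:ℝ) else 0) := by
  have hF := F3_pos hx
  have h1 : ∀ p ∈ (F3 x).natAbs.primeFactors, pen N (lab M N p) =
      ∑ j ∈ Finset.Ico (425 * N) (1405 * N), (if lab M N p = j then pen N j else 0) := by
    intro p _
    rw [Finset.sum_ite_eq]
    split_ifs with h2
    · rfl
    · unfold pen
      rw [if_neg]
      rintro ⟨h3, h4⟩
      exact h2 (Finset.mem_Ico.mpr ⟨h3, h4⟩)
  rw [Finset.sum_congr rfl h1, Finset.sum_comm]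
  refine Finset.sum_congr rfl fun j _ => ?_
  rw [← Finset.sum_filter, ← Finset.sum_filter, Finset.sum_const, Finset.sum_const, nsmul_eq_mul,
    nsmul_eq_mul, mul_one, mul_comm]
  congr 2
  congr 1
  ext p
  rw [Finset.mem_filter, Finset.mem_filter, hDcl.2.2.1 M N j p hM hN, Nat.mem_primeFactors,
    Int.natCast_dvd]
  constructor
  · rintro ⟨⟨h2, h3, _⟩, h4⟩
    exact ⟨⟨h2, h4⟩, h3⟩
  · rintro ⟨⟨h2, h4⟩, h3⟩
    exact ⟨⟨h2, h3, by omega⟩, h4⟩

open Classical in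
theorem tstar_eq {M K N : ℕ} (hM : 2 ≤ M) (hN : 1 ≤ N) (hDcl : St_Dcl) :
    Tstar M K N = ∑ x ∈ bx M K, (if Sft (zz M) x then WW M K x else 0) -
      ∑ j ∈ Finset.Ico (425 * N) (1405 * N), pen N j *
        ∑ p ∈ bxp M N j, ∑ x ∈ bx M K,
          (if Sft (zz M) x ∧ (p:ℤ) ∣ F3 x then WW M K x else 0) := by
  have h1 : ∑ j ∈ Finset.Ico (425 * N) (1405 * N), pen N j *
        ∑ p ∈ bxp M N j, ∑ x ∈ bx M K,
          (if Sft (zz M) x ∧ (p:ℤ) ∣ F3 x then WW M K x else 0) =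
      ∑ x ∈ bx M K, ∑ j ∈ Finset.Ico (425 * N) (1405 * N), pen N j *
        ∑ p ∈ bxp M N j, (if Sft (zz M) x ∧ (p:ℤ) ∣ F3 x then WW M K x else 0) := by
    rw [Finset.sum_comm]
    refine Finset.sum_congr rfl fun j _ => ?_
    rw [Finset.sum_comm, Finset.mul_sum]
  rw [h1, ← Finset.sum_sub_distrib]
  unfold Tstar
  refine Finset.sum_congr rfl fun x hx => ?_
  by_cases hs : Sft (zz M) x
  · rw [if_pos hs, if_pos hs, pen_sum hM hN hDcl hx, mul_sub, mul_one, Finset.mul_sum]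
    congr 1
    refine Finset.sum_congr rfl fun j _ => ?_
    rw [Finset.mul_sum, Finset.mul_sum, Finset.mul_sum]
    refine Finset.sum_congr rfl fun p _ => ?_
    by_cases hp : (p:ℤ) ∣ F3 x
    · rw [if_pos hp, if_pos ⟨hs, hp⟩]; ring
    · rw [if_neg hp, if_neg (fun h => hp h.2)]; ring
  · rw [if_neg hs, if_neg hs]
    rw [Finset.sum_eq_zero, sub_zero]
    intro j _
    rw [Finset.sum_eq_zero, mul_zero]
    intro p _
    rw [if_neg (fun h => hs h.1)]

end MainP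

open Classical in
theorem tMainP (hFP : St_FP) (hW2 : St_W2) (hFA : St_FA) (hV : St_V) (hnum : St_num) (hDcl : St_Dcl) (hlow : St_low) : St_main := by
  obtain ⟨U, W, hUW⟩ := hFP
  have hW := hW2 U W hUW
  obtain ⟨A, hA3, hAU, hAW⟩ := hFA U W hUW hW
  obtain ⟨N1, hN1⟩ := hlow U W hUW hW (1 / 2000) (by norm_num)
  obtain ⟨N2, hN2, hnum2⟩ := hnum
  obtain ⟨_, _, _, ⟨c, hc, hcV⟩, _⟩ := hV
  obtain ⟨N, hNN1, hNN2, hN⟩ : ∃ N : ℕ, N1 ≤ N ∧ N2 ≤ N ∧ 1 ≤ N :=
    ⟨max N1 N2, le_max_left _ _, le_max_right _ _, le_trans hN2 (le_max_right _ _)⟩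
  obtain ⟨M0, hM0⟩ := hN1 N hNN1 200000 (le_refl _)
  refine ⟨N, 200000, hN, le_refl _, c * (3 / 1000) / (425 / 1000), by positivity, max M0 100, ?_⟩
  intro M hM
  have hMM0 : M0 ≤ M := le_trans (le_max_left _ _) hM
  have hM100 : 100 ≤ M := le_trans (le_max_right _ _) hM
  obtain ⟨hS, hT⟩ := hM0 M hMM0
  have hM100' : (100:ℝ) ≤ M := by exact_mod_cast hM100
  have hM0' : (0:ℝ) < M := by linarith
  have hlogM : 0 < Real.log M := Real.log_pos (by linarith)
  have hz2 : (2:ℝ) ≤ (M:ℝ) ^ (425 / 1000 : ℝ) := by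
    have h1 : (100:ℝ) ^ (425 / 1000 : ℝ) ≤ (M:ℝ) ^ (425 / 1000 : ℝ) :=
      Real.rpow_le_rpow (by norm_num) hM100' (by norm_num)
    have h2 : (2:ℝ) = ((2:ℝ) ^ (4:ℝ)) ^ (1 / 4 : ℝ) := by
      rw [← Real.rpow_mul (by norm_num)]; norm_num
    have h3 : ((2:ℝ) ^ (4:ℝ)) ^ (1 / 4 : ℝ) ≤ (100:ℝ) ^ (1 / 4 : ℝ) :=
      Real.rpow_le_rpow (by positivity) (by norm_num) (by norm_num)
    have h4 : (100:ℝ) ^ (1 / 4 : ℝ) ≤ (100:ℝ) ^ (425 / 1000 : ℝ) :=
      Real.rpow_le_rpow_of_exponent_le (by norm_num) (by norm_num)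
    linarith
  have hVlow := hcV _ hz2
  rw [Real.log_rpow hM0'] at hVlow
  obtain ⟨V, hVdef⟩ : ∃ V : ℝ, V = VV gd 0 (zz M) := ⟨_, rfl⟩
  have hVlow' : c / (425 / 1000 * Real.log M) ≤ V := by rw [hVdef]; exact hVlow
  have hV0 : 0 < V := lt_of_lt_of_le (by positivity) hVlow'
  rw [← hVdef] at hS hT
  have hX0 : 0 ≤ XX M 200000 := by unfold XX; positivity
  obtain ⟨X, hXdef⟩ : ∃ X : ℝ, X = XX M 200000 := ⟨_, rfl⟩
  rw [← hXdef] at hS hT hX0 ⊢
  have hXV : 0 ≤ X * V := mul_nonneg hX0 hV0.le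
  rw [MainP.tstar_eq (by omega) hN hDcl]
  have hsum : ∑ j ∈ Finset.Ico (425 * N) (1405 * N), pen N j *
        ∑ p ∈ bxp M N j, ∑ x ∈ bx M 200000,
          (if Sft (zz M) x ∧ (p:ℤ) ∣ F3 x then WW M 200000 x else 0) ≤
      (1 + 1 / 2000) * (X * V) * A * (Real.log 3 / 4 - 1 / 500) := by
    calc ∑ j ∈ Finset.Ico (425 * N) (1405 * N), pen N j *
        ∑ p ∈ bxp M N j, ∑ x ∈ bx M 200000,
          (if Sft (zz M) x ∧ (p:ℤ) ∣ F3 x then WW M 200000 x else 0)
        ≤ ∑ j ∈ Finset.Ico (425 * N) (1405 * N), (1 + 1 / 2000) * (X * V) * A *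
            (pen N j * Real.log (((j:ℝ) + 1) / j) * ((425 / 1000) / lv N j)) := by
          refine Finset.sum_le_sum fun j hj => ?_
          obtain ⟨hj1, hj2⟩ := Finset.mem_Ico.mp hj
          have hl := MainP.lv_pos hN hj1 hj2
          have h1 := hT j hj1 hj2
          have h2 : 1 + U (lv N j / (425 / 1000)) = A * ((425 / 1000) / lv N j) := by
            rw [hAU _ (div_pos hl.1 (by norm_num))
              (by rw [div_le_iff₀ (by norm_num)]; linarith)]
            have := hl.1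
            field_simp
          rw [h2] at h1
          calc pen N j * ∑ p ∈ bxp M N j, ∑ x ∈ bx M 200000,
                (if Sft (zz M) x ∧ (p:ℤ) ∣ F3 x then WW M 200000 x else 0)
              ≤ pen N j * ((1 + 1 / 2000) * (X * V * Real.log (((j:ℝ) + 1) / j) *
                (A * ((425 / 1000) / lv N j)))) :=
                mul_le_mul_of_nonneg_left h1 (MainP.pen_nonneg hN)
            _ = _ := by ring
      _ = (1 + 1 / 2000) * (X * V) * A * ∑ j ∈ Finset.Ico (425 * N) (1405 * N),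
            pen N j * Real.log (((j:ℝ) + 1) / j) * ((425 / 1000) / lv N j) := by
          rw [Finset.mul_sum]
      _ ≤ (1 + 1 / 2000) * (X * V) * A * (Real.log 3 / 4 - 1 / 500) := by
          refine mul_le_mul_of_nonneg_left (hnum2 N hNN2) ?_
          have : 0 ≤ A := by linarith
          positivity
  have hlog3 : Real.log 3 / 4 ≤ 1 := by
    have := Real.log_le_sub_one_of_pos (show (0:ℝ) < 3 by norm_num)
    linarith
  have hkey : X * V * (3 / 1000) ≤ X * V * (1 - W 4 - 1 / 2000) -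
      (1 + 1 / 2000) * (X * V) * A * (Real.log 3 / 4 - 1 / 500) := by
    rw [hAW]
    have h1 : X * V * (A * Real.log 3 / 4 - 1 / 2000) -
        (1 + 1 / 2000) * (X * V) * A * (Real.log 3 / 4 - 1 / 500) =
        X * V * (A / 500 - 1 / 2000 - A / 2000 * (Real.log 3 / 4 - 1 / 500)) := by ring
    rw [h1]
    refine mul_le_mul_of_nonneg_left ?_ hXV
    have h2 : A / 2000 * (Real.log 3 / 4 - 1 / 500) ≤ A / 2000 * 1 :=
      mul_le_mul_of_nonneg_left (by linarith) (by linarith)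
    linarith
  have hfin : c * (3 / 1000) / (425 / 1000) * X / Real.log M ≤ X * V * (3 / 1000) := by
    have h1 : c * (3 / 1000) / (425 / 1000) * X / Real.log M =
        X * (c / (425 / 1000 * Real.log M)) * (3 / 1000) := by
      field_simp
    rw [h1]
    refine mul_le_mul_of_nonneg_right ?_ (by norm_num)
    exact mul_le_mul_of_nonneg_left hVlow' hX0
  linarith

end Pool.Agent.TCub
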