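import Pool.Agent.TCub.Defs

/-!
# TCub: all statements.  Every module proves `theorem X (hyps : St_A) ... : St_X`.
-/

open Finset

namespace Pool.Agent.TCub

noncomputable section

/-! ## Part I : level of distribution -/

/-- I01 -/
def St_SSmul : Prop := ∀ m n : ℕ, Nat.Coprime m n → ∀ h : Fin 3 → ℤ, SS (m * n) h = SS m h * SS n h

/-- I02 -/
def St_SSunit : Prop :=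
  (∀ (n : ℕ) (k : ℤ), IsCoprime k (n:ℤ) → ∀ h : Fin 3 → ℤ, SS n (fun i => k * h i) = SS n h) ∧
  (∀ (n : ℕ) (h h' : Fin 3 → ℤ), (∀ i, (n:ℤ) ∣ h i - h' i) → SS n h = SS n h') ∧
  (∀ (n : ℕ) (h : Fin 3 → ℤ), (∀ i, (n:ℤ) ∣ h i) → SS n h = ((rho n : ℝ) : ℂ))

/-- I03 -/
def St_rhoprime : Prop :=
  ∀ p : ℕ, p.Prime → |(rho p : ℝ) - (p:ℝ) ^ 2| ≤ 15 * (p:ℝ) ^ (3 / 2 : ℝ)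

/-- I04 -/
def St_SSprime : Prop :=
  ∀ p : ℕ, p.Prime → (rho p : ℝ) ≤ 4 * (p:ℝ) ^ 2 ∧
    ∀ h : Fin 3 → ℤ, (∃ i, ¬ (p:ℤ) ∣ h i) → ‖SS p h‖ ≤ 10 * p

/-- I05 (from I01, I02, I04) -/
def St_sS : Prop :=
  (∀ m n : ℕ, Nat.Coprime m n → rho (m * n) = rho m * rho n) ∧
  (∀ n : ℕ, Squarefree n → (rho n : ℝ) ≤ 4 ^ (n.primeFactors.card) * (n:ℝ) ^ 2) ∧
  (∀ m n : ℕ, Nat.Coprime m n → ∀ h : Fin 3 → ℤ, sS (m * n) h = sS m h * sS n h) ∧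
  (∀ n : ℕ, Squarefree n → ∀ h : Fin 3 → ℤ, ‖sS n h‖ ≤ 10 ^ (n.primeFactors.card))

/-- I06 -/
def St_div : Prop :=
  ∀ ε : ℝ, 0 < ε → ∀ a : ℝ, 1 ≤ a → ∃ C : ℝ, 0 < C ∧ ∀ n : ℕ, 1 ≤ n →
    a ^ (n.primeFactors.card) ≤ C * (n:ℝ) ^ ε ∧ (n.divisors.card : ℝ) ≤ C * (n:ℝ) ^ ε

/-- I07 -/
def St_fermat : Prop :=
  ∀ z : Fin 3 → ℤ, F3 z = 0 →
    (z 0 = 0 ∧ z 1 = - z 2) ∨ (z 1 = 0 ∧ z 0 = - z 2) ∨ (z 2 = 0 ∧ z 0 = - z 1)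

/-- I08 -/
def St_fej : Prop :=
  ∀ H : ℕ, 1 ≤ H →
    (∀ h, 0 ≤ fej H h) ∧ (∀ h : ℤ, |h| ≤ H → 1 ≤ fej H h) ∧
    (∀ θ : ℝ, ∑ h ∈ Finset.Icc (-(4 * (H:ℤ))) (4 * H), (fej H h : ℂ) * ee ((h:ℝ) * θ) = (Fh H θ : ℂ)) ∧
    (∀ θ, 0 ≤ Fh H θ) ∧ (∀ (θ : ℝ) (n : ℤ), Fh H (θ + n) = Fh H θ) ∧
    (∀ θ, Fh H θ ≤ 6 * H) ∧ (∀ θ, θ ≠ 0 → |θ| ≤ 1 / 2 → Fh H θ ≤ 1 / (H * θ ^ 2))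

/-- I09 -/
def St_LSexp : Prop :=
  ∀ N H : ℕ, 1 ≤ H → ∀ α : ℕ → ℂ, (∀ n, ‖α n‖ ≤ 1) →
    ∑ h ∈ cube H, ‖∑ n ∈ (Finset.Icc 1 N).filter Squarefree, α n * sn n h‖ ^ 2 ≤
    ∑ n ∈ (Finset.Icc 1 N).filter Squarefree, ∑ n' ∈ (Finset.Icc 1 N).filter Squarefree,
      (1 / ((n:ℝ) * n')) * ∑ x ∈ cone n, ∑ x' ∈ cone n',
        ∏ i, Fh H ((x i : ℝ) / n - (x' i : ℝ) / n')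

/-- I10 -/
def St_fibre : Prop :=
  ∀ e m₁ m₂ : ℕ, 1 ≤ e → 1 ≤ m₁ → 1 ≤ m₂ → Nat.Coprime e m₁ → Nat.Coprime e m₂ →
    Nat.Coprime m₁ m₂ → ∀ f : (Fin 3 → ℤ) → ℝ, (∀ z, 0 ≤ f z) →
    (∀ z z' : Fin 3 → ℤ, (∀ i, ((e * m₁ * m₂ : ℕ) : ℤ) ∣ z i - z' i) → f z = f z') →
    ∑ x ∈ cone (e * m₁), ∑ x' ∈ cone (e * m₂), f (fun i => m₂ * x i - m₁ * x' i) ≤
      (rho e : ℝ) * ∑ z ∈ (symb (e * m₁ * m₂)).filter (fun z => ((m₁ * m₂ : ℕ) : ℤ) ∣ F3 z), f z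

/-- I11 -/
def St_psi : Prop :=
  ∃ C : ℝ, 0 < C ∧ ∀ H : ℕ, 1 ≤ H → ∀ L : ℝ, 1 ≤ L → ∀ Z : ℕ,
    ∑ z ∈ (Finset.Icc (-(Z:ℤ)) Z).erase 0, psi H L z ≤ C * L ∧
    ∑ z ∈ Finset.Icc (-(Z:ℤ)) Z, psi H L z ≤ C * (H + L)

/-- the triple sum of the large sieve, restricted to the `z` with property `P` -/
def LSt (N H : ℕ) (P : (Fin 3 → ℤ) → Prop) : ℝ := by
  classical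
  exact ∑ e ∈ Finset.Icc 1 N, ∑ m₁ ∈ Finset.Icc 1 (N / e), ∑ m₂ ∈ Finset.Icc 1 (N / e),
    ((4:ℝ) ^ (e.primeFactors.card) / (m₁ * m₂)) *
      ∑ z ∈ (symb (e * m₁ * m₂)).filter (fun z => ((m₁ * m₂ : ℕ) : ℤ) ∣ F3 z ∧ P z),
        ∏ i, psi H (e * m₁ * m₂) (z i)

/-- I12, I13, I14 : `P z = (z = 0)`, `(z ≠ 0 ∧ F3 z = 0)`, `(F3 z ≠ 0)` -/
def St_LS012 (P : (Fin 3 → ℤ) → Prop) : Prop :=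
  ∀ ε : ℝ, 0 < ε → ∃ C : ℝ, 0 < C ∧ ∀ N H : ℕ, 1 ≤ N → N ≤ H →
    LSt N H P ≤ C * (H:ℝ) ^ (3 + ε) * N

/-- I15 large sieve for the cone -/
def St_LS : Prop :=
  ∀ ε : ℝ, 0 < ε → ∃ C : ℝ, 0 < C ∧ ∀ N H : ℕ, 1 ≤ N → N ≤ H →
    ∀ α : ℕ → ℂ, (∀ n, ‖α n‖ ≤ 1) →
    ∑ h ∈ cube H, ‖∑ n ∈ (Finset.Icc 1 N).filter Squarefree, α n * sn n h‖ ^ 2 ≤
      C * (H:ℝ) ^ (3 + ε) * N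

/-- I16 large sieve for `s*` -/
def St_LSs : Prop :=
  ∀ ε : ℝ, 0 < ε → ∃ C : ℝ, 0 < C ∧ ∀ N H : ℕ, 1 ≤ N → N ≤ H →
    ∀ α : ℕ → ℂ, (∀ n, ‖α n‖ ≤ 1) →
    ∑ h ∈ cube H, ‖∑ n ∈ (Finset.Icc 1 N).filter Squarefree, α n * sS n h‖ ^ 2 ≤
      C * (H:ℝ) ^ (3 + ε) * N

/-- I17 the same over the multiples of `e` -/
def St_LSse : Prop :=
  ∀ ε : ℝ, 0 < ε → ∃ C : ℝ, 0 < C ∧ ∀ N H e : ℕ, 1 ≤ N → N ≤ H → 1 ≤ e →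
    ∀ α : ℕ → ℂ, (∀ n, ‖α n‖ ≤ 1) →
    ∑ h ∈ cube H, ‖∑ n ∈ (Finset.Icc 1 N).filter (fun n => Squarefree n ∧ e ∣ n), α n * sS n h‖ ^ 2 ≤
      C * (H:ℝ) ^ (3 + ε) * N / e

/-- I18 bilinear (trilinear) bound -/
def St_Bil : Prop :=
  ∀ ε : ℝ, 0 < ε → ∃ C : ℝ, 0 < C ∧ ∀ H N₁ N₂ N₃ : ℕ, 1 ≤ N₁ → 1 ≤ N₂ → 1 ≤ N₃ →
    N₁ ≤ H → N₂ ≤ H → ∀ (ω : (Fin 3 → ℤ) → ℂ) (a₁ a₂ a₃ : ℕ → ℂ),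
    (∀ h, ‖ω h‖ ≤ 1) → (∀ n, ‖a₁ n‖ ≤ 1) → (∀ n, ‖a₂ n‖ ≤ 1) → (∀ n, ‖a₃ n‖ ≤ 1) →
    ‖∑ h ∈ cube H, ω h * ∑ n₁ ∈ Finset.Icc 1 N₁, ∑ n₂ ∈ Finset.Icc 1 N₂, ∑ n₃ ∈ Finset.Icc 1 N₃,
      (if Squarefree (n₁ * n₂ * n₃) then a₁ n₁ * a₂ n₂ * a₃ n₃ * sS (n₁ * n₂ * n₃) h else 0)‖ ≤
      C * ((H:ℝ) * N₃) ^ ε * N₃ * (H:ℝ) ^ 3 * Real.sqrt ((N₁:ℝ) * N₂)

/-- I19 -/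
def St_RRexp : Prop :=
  ∀ M K d : ℕ, 1 ≤ M → 1 ≤ K → Squarefree d →
    RR M K d = ∑ d' ∈ d.divisors.erase 1, gd (d / d') * Est M K d'

/-- I20 -/
def St_EstF : Prop :=
  ∀ M K d : ℕ, 1 ≤ K → Squarefree d →
    (Est M K d : ℂ) = (1 / (d:ℂ) ^ 2) * ∑ h ∈ symb d, sS d h *
      ∑ x ∈ bx M K, (WW M K x : ℂ) * ee (-((dot h x : ℝ) / d))

/-- I21 -/
def St_DM : Prop :=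
  (∀ (M K : ℕ) (θ : Fin 3 → ℝ), 1 ≤ K →
    ∑ x ∈ bx M K, (WW M K x : ℂ) * ee (∑ i, θ i * (x i : ℝ)) = ∏ i, DM M (θ i) ^ K) ∧
  (∀ (M : ℕ) (θ : ℝ), ‖DM M θ‖ ≤ M) ∧
  (∀ (M : ℕ) (θ : ℝ), θ ≠ 0 → |θ| ≤ 1 / 2 → ‖DM M θ‖ ≤ 1 / (2 * |θ|)) ∧
  (∀ M K : ℕ, 1 ≤ K → ∑ x ∈ bx M K, WW M K x = XX M K) ∧
  (∀ (M K : ℕ) (x : Fin 3 → ℤ), 1 ≤ K → WW M K x ≤ (M:ℝ) ^ (3 * (K - 1)))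

/-- I22 truncated Fourier expansion -/
def St_EstT : Prop :=
  ∀ (ε : ℝ) (M K d H : ℕ), 0 < ε → ε ≤ 1 / 10 → 20 ≤ (K:ℝ) * ε → 100 ≤ M → Squarefree d →
    (d:ℝ) ≤ (M:ℝ) ^ 2 → (d:ℝ) * (M:ℝ) ^ (ε - 1) ≤ H + 1 → 2 * H < d →
    ‖(Est M K d : ℂ) - (1 / (d:ℂ) ^ 2) * ∑ h ∈ cube H, sS d h *
      ∑ x ∈ bx M K, (WW M K x : ℂ) * ee (-((dot h x : ℝ) / d))‖ ≤
      XX M K * (M:ℝ) ^ (-14 : ℝ)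

/-- I23 individual bound -/
def St_EstI : Prop :=
  ∀ (ε : ℝ) (K : ℕ), 0 < ε → ε ≤ 1 / 10 → 20 ≤ (K:ℝ) * ε → ∃ C : ℝ, 0 < C ∧ ∀ M d : ℕ,
    100 ≤ M → Squarefree d → 1 < d → (d:ℝ) ≤ (M:ℝ) ^ 2 →
    |Est M K d| ≤ C * XX M K * ((M:ℝ) ^ (-12 : ℝ) + (M:ℝ) ^ (-3 + 4 * ε) * (d:ℝ) ^ (1 + ε))

/-- I24 separation of variables -/
def St_SEP : Prop :=
  ∀ (s : Finset (Fin 3 → ℤ)) (t₁ t₂ t₃ : Finset ℕ) (T : (Fin 3 → ℤ) → ℕ → ℕ → ℕ → ℂ)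
    (c : (Fin 3 → ℤ) → ℝ) (a b d : ℕ → ℝ) (ρ B : ℝ), 0 ≤ ρ →
    (∀ n, 0 ≤ a n ∧ a n ≤ ρ) → (∀ n, 0 ≤ b n ∧ b n ≤ ρ) → (∀ n, 0 ≤ d n ∧ d n ≤ ρ) →
    (∀ h ∈ s, 2 * Real.pi * |c h| * ((1 + ρ) ^ 3 - 1) ≤ 1) →
    (∀ (ω : (Fin 3 → ℤ) → ℂ) (α β γ : ℕ → ℂ), (∀ h, ‖ω h‖ ≤ 1) → (∀ n, ‖α n‖ ≤ 1) →
      (∀ n, ‖β n‖ ≤ 1) → (∀ n, ‖γ n‖ ≤ 1) →
      ‖∑ h ∈ s, ω h * ∑ n₁ ∈ t₁, ∑ n₂ ∈ t₂, ∑ n₃ ∈ t₃, α n₁ * β n₂ * γ n₃ * T h n₁ n₂ n₃‖ ≤ B) →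
    ‖∑ h ∈ s, ∑ n₁ ∈ t₁, ∑ n₂ ∈ t₂, ∑ n₃ ∈ t₃,
      T h n₁ n₂ n₃ * ee (c h * ((1 + a n₁) * (1 + b n₂) * (1 + d n₃)))‖ ≤ 3 * B

/-- the trilinear sum of `Est` -/
def TriE (M K : ℕ) (N₁ N₂ N₃ : ℝ) (a₁ a₂ a₃ : ℕ → ℝ) : ℝ :=
  ∑ n₁ ∈ Finset.Icc 1 ⌊N₁⌋₊, ∑ n₂ ∈ Finset.Icc 1 ⌊N₂⌋₊, ∑ n₃ ∈ Finset.Icc 1 ⌊N₃⌋₊,
    (if Squarefree (n₁ * n₂ * n₃) then a₁ n₁ * a₂ n₂ * a₃ n₃ * Est M K (n₁ * n₂ * n₃) else 0)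

/-- I25 trilinear bound in one short cell -/
def St_LBcell : Prop :=
  ∀ (ε : ℝ) (K : ℕ), 0 < ε → ε ≤ 1 / 10 → 20 ≤ (K:ℝ) * ε → ∃ C : ℝ, 0 < C ∧ ∀ M : ℕ, 100 ≤ M →
    ∀ N₁ N₂ N₃ : ℝ, 1 ≤ N₁ → 1 ≤ N₂ → 1 ≤ N₃ → N₁ * N₂ * N₃ ≤ (M:ℝ) ^ 2 →
    N₁ ≤ N₁ * N₂ * N₃ * (M:ℝ) ^ (ε - 1) → N₂ ≤ N₁ * N₂ * N₃ * (M:ℝ) ^ (ε - 1) →
    ∀ a₁ a₂ a₃ : ℕ → ℝ, (∀ n, |a₁ n| ≤ 1) → (∀ n, |a₂ n| ≤ 1) → (∀ n, |a₃ n| ≤ 1) →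
    (∀ n, a₁ n ≠ 0 → N₁ / (1 + 1 / (200 * K * (M:ℝ) ^ ε)) ≤ n ∧ (n:ℝ) ≤ N₁) →
    (∀ n, a₂ n ≠ 0 → N₂ / (1 + 1 / (200 * K * (M:ℝ) ^ ε)) ≤ n ∧ (n:ℝ) ≤ N₂) →
    (∀ n, a₃ n ≠ 0 → N₃ / (1 + 1 / (200 * K * (M:ℝ) ^ ε)) ≤ n ∧ (n:ℝ) ≤ N₃) →
    |TriE M K N₁ N₂ N₃ a₁ a₂ a₃| ≤
      C * XX M K * (M:ℝ) ^ (-3 + 12 * ε) * ((N₁ * N₂ * N₃) ^ 2 / Real.sqrt (N₁ * N₂))

/-- I26 trilinear bound -/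
def St_LB : Prop :=
  ∀ (ε : ℝ) (K : ℕ), 0 < ε → ε ≤ 1 / 10 → 20 ≤ (K:ℝ) * ε → ∃ C : ℝ, 0 < C ∧ ∀ M : ℕ, 100 ≤ M →
    ∀ L₁ L₂ L₃ N₁ N₂ N₃ : ℝ, 1 ≤ L₁ → 1 ≤ L₂ → 1 ≤ L₃ → L₁ ≤ N₁ → L₂ ≤ N₂ → L₃ ≤ N₃ →
    N₁ * N₂ * N₃ ≤ (M:ℝ) ^ 2 →
    N₁ ≤ L₁ * L₂ * L₃ * (M:ℝ) ^ (ε - 1) → N₂ ≤ L₁ * L₂ * L₃ * (M:ℝ) ^ (ε - 1) →
    ∀ a₁ a₂ a₃ : ℕ → ℝ, (∀ n, |a₁ n| ≤ 1) → (∀ n, |a₂ n| ≤ 1) → (∀ n, |a₃ n| ≤ 1) →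
    (∀ n, a₁ n ≠ 0 → L₁ ≤ n ∧ (n:ℝ) ≤ N₁) → (∀ n, a₂ n ≠ 0 → L₂ ≤ n ∧ (n:ℝ) ≤ N₂) →
    (∀ n, a₃ n ≠ 0 → L₃ ≤ n ∧ (n:ℝ) ≤ N₃) →
    |TriE M K N₁ N₂ N₃ a₁ a₂ a₃| ≤
      C * XX M K * (M:ℝ) ^ (-3 + 20 * ε) * ((N₁ * N₂ * N₃) ^ 2 / Real.sqrt (N₁ * N₂))

/-- I27 membership and size -/
def St_Dcl : Prop :=
  (∀ (M N u : ℕ) (m : Multiset ℕ) (d : ℕ), 2 ≤ M → 1 ≤ N →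
    (d ∈ Dcl M N u m ↔ Squarefree d ∧ (∀ p ∈ d.primeFactors, u ≤ p) ∧ typ M N d = m)) ∧
  (∀ (M N u : ℕ) (m : Multiset ℕ) (d : ℕ), 2 ≤ M → 1 ≤ N → d ∈ Dcl M N u m →
    (M:ℝ) ^ (tv N m - (Multiset.card m : ℝ) / (1000 * N)) ≤ d ∧ (d:ℝ) ≤ (M:ℝ) ^ (tv N m)) ∧
  (∀ (M N j p : ℕ), 2 ≤ M → 1 ≤ N →
    (p ∈ bxp M N j ↔ p.Prime ∧ lab M N p = j)) ∧
  (∀ (M N j p : ℕ), 2 ≤ M → 1 ≤ N → p.Prime →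
    (lab M N p < j ↔ (p:ℝ) < (M:ℝ) ^ ((j:ℝ) / (1000 * N))))

/-- I28 splitting of a type into three blocks -/
def St_split3 : Prop :=
  ∀ (M N u : ℕ) (b₁ b₂ b₃ : Multiset ℕ), 2 ≤ M → 1 ≤ N → ∃ c : ℕ, 1 ≤ c ∧ ∀ φ : ℕ → ℝ,
    (c:ℝ) * ∑ d ∈ Dcl M N u (b₁ + b₂ + b₃), φ d =
      ∑ n₁ ∈ Dcl M N u b₁, ∑ n₂ ∈ Dcl M N u b₂, ∑ n₃ ∈ Dcl M N u b₃,
        (if Squarefree (n₁ * n₂ * n₃) then φ (n₁ * n₂ * n₃) else 0)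

/-- I29 divisors of the numbers of a given type; numbers with a prime of a top box -/
def St_splitd : Prop :=
  (∀ (M N u : ℕ) (m : Multiset ℕ), 2 ≤ M → 1 ≤ N → ∀ f : ℕ → ℕ → ℝ,
    ∑ d ∈ Dcl M N u m, ∑ d' ∈ d.divisors, f d' (d / d') =
      ∑ n ∈ (Multiset.powerset m).toFinset, ∑ d' ∈ Dcl M N u n, ∑ d'' ∈ Dcl M N u (m - n),
        (if Nat.Coprime d' d'' then f d' d'' else 0)) ∧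
  (∀ (M N u j : ℕ) (m : Multiset ℕ), 2 ≤ M → 1 ≤ N → (∀ i ∈ m, i < j) →
    (∀ p ∈ bxp M N j, u ≤ p) → ∀ φ : ℕ → ℝ,
    ∑ p ∈ bxp M N j, ∑ d ∈ Dcl M N u m, φ (p * d) = ∑ d ∈ Dcl M N u (j ::ₘ m), φ d)

/-- I30 the level of distribution -/
def St_LT : Prop :=
  ∀ K r N : ℕ, 200000 ≤ K → 1 ≤ N → 10 * r ≤ N → ∃ C : ℝ, 0 < C ∧ ∀ M : ℕ, 100 ≤ M →
    ∀ (u : ℕ) (m : Multiset ℕ), Multiset.card m ≤ r → tv N m ≤ 171 / 100 → slackOK N m →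
    ∀ m₀ : ℕ, Squarefree m₀ → (∀ p ∈ m₀.primeFactors, p < u) → (m₀:ℝ) ≤ (M:ℝ) ^ (1 / 4000 : ℝ) →
    |∑ d ∈ Dcl M N u m, RR M K (m₀ * d)| ≤ C * XX M K * (M:ℝ) ^ (-(1 / 500) : ℝ)

/-! ## Part II : the linear sieve -/

/-- S01 -/
def St_con : Prop :=
  MeasureTheory.IntegrableOn (fun t => HW (t - 1)) (Set.Ioi 3) ∧
  MeasureTheory.IntegrableOn (fun t => HU (t - 1)) (Set.Ioi 2) ∧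
  (∀ s, 0 < s → ∫ t in Set.Ioi (max s 3), HW (t - 1) ≤ 7 / 8 * (s * HU s)) ∧
  (∀ s, 2 ≤ s → ∫ t in Set.Ioi s, HU (t - 1) ≤ 7 / 8 * (s * HW s))

/-- S02 -/
def St_FP : Prop := ∃ U W : ℝ → ℝ, FPt U W

/-- S03 -/
def St_W2 : Prop := ∀ U W : ℝ → ℝ, FPt U W → W 2 = 1

/-- S04 -/
def St_FA : Prop := ∀ U W : ℝ → ℝ, FPt U W → W 2 = 1 → ∃ A : ℝ, 3 ≤ A ∧
  (∀ s, 0 < s → s ≤ 3 → 1 + U s = A / s) ∧ 1 - W 4 = A * Real.log 3 / 4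

/-- S05 summation lemma -/
def St_sum : Prop :=
  ∀ (g c : ℕ → ℝ) (u : ℕ) (ε δ : ℝ), SvH g c u ε δ → ∀ (w L a : ℝ) (Φ : ℝ → ℝ), 1 < w → 0 < L →
    L / Real.log w ≤ a → AntitoneOn Φ (Set.Ici a) → (∀ t, a ≤ t → 0 ≤ Φ t) →
    MeasureTheory.IntegrableOn Φ (Set.Ioi a) →
    ∑ p ∈ (prs u ⌈w⌉₊).filter (fun p : ℕ => a < L / Real.log p), g p * VV g u p * Φ (L / Real.log p) ≤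
      VV g u ⌈w⌉₊ * ((1 + ε) * ((1 + ε) * (Real.log w / L) * ∫ t in Set.Ioi a, Φ t) +
        (1 + ε) * (ε * (a * Real.log w / L) * Φ a))

/-- S06 expansion of `G`, and `G^- ≤ V ≤ G^+` -/
def St_Gexp : Prop :=
  (∀ (g c : ℕ → ℝ) (u w : ℕ) (b : Bool) (L : ℝ),
    GG g c u w b L = 1 - ∑ p ∈ (prs u w).filter (fun p => b = true → 3 * c p < L),
      g p * GG g c u p (!b) (L - c p)) ∧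
  (∀ (g : ℕ → ℝ) (u w : ℕ), VV g u w = 1 - ∑ p ∈ prs u w, g p * VV g u p) ∧
  (∀ (g c : ℕ → ℝ) (u w : ℕ), (∀ p, p.Prime → 0 ≤ g p ∧ g p ≤ 1) → ∀ L : ℝ,
    GG g c u w false L ≤ VV g u w ∧ VV g u w ≤ GG g c u w true L ∧ 0 ≤ VV g u w)

def Φ₁ (W : ℝ → ℝ) (δ t : ℝ) : ℝ := if t ≤ 3 * (1 + δ) then 1 else W (t - 1 - δ)
def Φ₂ (τ δ t : ℝ) : ℝ := τ * HW (max 2 (t - 1 - δ))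
def Φ₃ (U : ℝ → ℝ) (τ δ t : ℝ) : ℝ := U (t - 1 - δ) + τ * HU (t - 1 - δ)

/-- S07 one step, upper bound sieve -/
def St_stU : Prop :=
  ∃ ε₁ C : ℝ, 0 < ε₁ ∧ ε₁ ≤ 1 / 10 ∧ 1 ≤ C ∧ ∀ U W : ℝ → ℝ, FPt U W → W 2 = 1 → ∀ ε δ τ : ℝ,
    0 ≤ ε → ε ≤ ε₁ → 0 ≤ δ → δ ≤ ε₁ → C * (ε + δ) ≤ τ → ∀ s : ℝ, 0 < s →
    AntitoneOn (Φ₁ W δ) (Set.Ici s) ∧ (∀ t, s ≤ t → 0 ≤ Φ₁ W δ t) ∧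
    MeasureTheory.IntegrableOn (Φ₁ W δ) (Set.Ioi s) ∧
    AntitoneOn (Φ₂ τ δ) (Set.Ici (max s 3)) ∧ (∀ t, 0 ≤ Φ₂ τ δ t) ∧
    MeasureTheory.IntegrableOn (Φ₂ τ δ) (Set.Ioi (max s 3)) ∧
    ((1 + ε) * ((1 + ε) * (1 / s) * ∫ t in Set.Ioi s, Φ₁ W δ t) +
        (1 + ε) * (ε * (s / s) * Φ₁ W δ s)) +
      ((1 + ε) * ((1 + ε) * (1 / s) * ∫ t in Set.Ioi (max s 3), Φ₂ τ δ t) +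
        (1 + ε) * (ε * (max s 3 / s) * Φ₂ τ δ (max s 3))) ≤ U s + τ * HU s

/-- S08 one step, lower bound sieve -/
def St_stW : Prop :=
  ∃ ε₁ C : ℝ, 0 < ε₁ ∧ ε₁ ≤ 1 / 10 ∧ 1 ≤ C ∧ ∀ U W : ℝ → ℝ, FPt U W → ∀ ε δ τ : ℝ,
    0 ≤ ε → ε ≤ ε₁ → 0 ≤ δ → δ ≤ ε₁ → C * (ε + δ) ≤ τ → ∀ s : ℝ, 2 ≤ s →
    AntitoneOn (Φ₃ U τ δ) (Set.Ici s) ∧ (∀ t, s ≤ t → 0 ≤ Φ₃ U τ δ t) ∧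
    MeasureTheory.IntegrableOn (Φ₃ U τ δ) (Set.Ioi s) ∧
    ((1 + ε) * ((1 + ε) * (1 / s) * ∫ t in Set.Ioi s, Φ₃ U τ δ t) +
        (1 + ε) * (ε * (s / s) * Φ₃ U τ δ s)) ≤ W s + τ * HW s

/-- S09 the abstract linear sieve -/
def St_AST : Prop :=
  ∃ ε₁ C : ℝ, 0 < ε₁ ∧ ε₁ ≤ 1 / 10 ∧ 1 ≤ C ∧ ∀ U W : ℝ → ℝ, FPt U W → W 2 = 1 →
    ∀ (g c : ℕ → ℝ) (u : ℕ) (ε δ : ℝ), ε ≤ ε₁ → δ ≤ ε₁ → SvH g c u ε δ →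
    ∀ w L : ℝ, 1 < w → 0 < L →
    GG g c u ⌈w⌉₊ true L ≤ VV g u ⌈w⌉₊ *
      (1 + U (L / Real.log w) + C * (ε + δ) * HU (L / Real.log w)) ∧
    (2 * Real.log w ≤ L → VV g u ⌈w⌉₊ *
      (1 - W (L / Real.log w) - C * (ε + δ) * HW (L / Real.log w)) ≤ GG g c u ⌈w⌉₊ false L)

/-- S10 fundamental lemma -/
def St_FL : Prop :=
  ∃ ε₁ C : ℝ, 0 < ε₁ ∧ ε₁ ≤ 1 / 10 ∧ 1 ≤ C ∧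
    ∀ (g c : ℕ → ℝ) (u : ℕ) (ε δ : ℝ), ε ≤ ε₁ → δ ≤ ε₁ → SvH g c u ε δ →
    ∀ w L : ℝ, 1 < w → 3 * Real.log w ≤ L →
    GG g c u ⌈w⌉₊ true L ≤ VV g u ⌈w⌉₊ * (1 + C * Real.exp (-(L / Real.log w))) ∧
    VV g u ⌈w⌉₊ * (1 - C * Real.exp (-(L / Real.log w))) ≤ GG g c u ⌈w⌉₊ false L

/-- S11 formal properties of `Lam` -/
def St_Lam : Prop :=
  (∀ (c : ℕ → ℝ) (u w : ℕ) (b : Bool) (L : ℝ) (ι : Type) (s : Finset ι) (a : ι → ℝ)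
    (φ : ι → ℕ → ℝ), Lam c u w b L (fun d => ∑ i ∈ s, a i * φ i d) =
      ∑ i ∈ s, a i * Lam c u w b L (φ i)) ∧
  (∀ (c : ℕ → ℝ) (u w : ℕ) (b : Bool) (L : ℝ) (φ ψ : ℕ → ℝ),
    (∀ d : ℕ, Squarefree d → (∀ p ∈ d.primeFactors, u ≤ p ∧ p < w) → φ d = ψ d) →
    Lam c u w b L φ = Lam c u w b L ψ) ∧
  (∀ (g c : ℕ → ℝ) (u w : ℕ) (b : Bool) (L : ℝ),
    Lam c u w b L (fun d => ∏ p ∈ d.primeFactors, g p) = GG g c u w b L)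

/-- S12 support of Rosser's weights (trivial bound) -/
def St_Lams : Prop :=
  ∀ (c : ℕ → ℝ) (u w : ℕ) (b : Bool) (L : ℝ), 0 < L →
    (∀ p, p.Prime → u ≤ p → Real.log p ≤ c p) →
    (∀ p q, p.Prime → q.Prime → u ≤ p → p ≤ q → c p ≤ c q) →
    (b = false → ∀ p, p.Prime → u ≤ p → p < w → c p < L) →
    ∀ φ : ℕ → ℝ, |Lam c u w b L φ| ≤
      ∑ d ∈ (Finset.range ⌈Real.exp L⌉₊).filter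
        (fun d => Squarefree d ∧ ∀ p ∈ d.primeFactors, u ≤ p ∧ p < w), |φ d|

/-- S13 the boxed sieve as a sum over types -/
def St_box : Prop :=
  ∀ (M N u J r : ℕ) (υ l : ℝ) (b : Bool), 2 ≤ M → 1 ≤ N → 0 < υ → (M:ℝ) ^ υ ≤ u →
    2 / υ ≤ r → 0 < l → l ≤ 2 → (b = false → (J:ℝ) / (1000 * N) < l) → ∀ φ : ℕ → ℝ,
    Lam (cb M N) u ⌈(M:ℝ) ^ ((J:ℝ) / (1000 * N))⌉₊ b (l * Real.log M) φ =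
      ∑ m ∈ Tya N b l J r, (-1 : ℝ) ^ (Multiset.card m) * ∑ d ∈ Dcl M N u m, φ d

/-- S14 admissible types satisfy the structure condition -/
def St_adm : Prop :=
  ∀ (N r : ℕ), 1 ≤ N →
    (∀ m ∈ Tya N false (17 / 10) (425 * N) r, Multiset.card m ≤ r ∧ SC N m) ∧
    (∀ m ∈ Tya N true 1 (425 * N) r, Multiset.card m ≤ r ∧ SC N m) ∧
    (∀ j, 425 * N ≤ j → j < 1405 * N → 0 < lv N j ∧ lv N j ≤ 1275 / 1000 ∧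
      ∀ m ∈ Tya N true (lv N j) (425 * N) r,
        Multiset.card m ≤ r ∧ SC N (j ::ₘ m) ∧ ∀ i ∈ m, i < j)

/-! ## Part III : the weighted sieve -/

/-- T01 -/
def St_slack : Prop := ∀ (N : ℕ) (m : Multiset ℕ), 1 ≤ N → SC N m → slackOK N m

/-- T02 Mertens for `gd` -/
def St_V : Prop :=
  (∀ p, p.Prime → 0 ≤ gd p) ∧ (∀ p, p.Prime → gd p < 1) ∧
  (∀ ε : ℝ, 0 < ε → ∃ u₀ : ℕ, 2 ≤ u₀ ∧ ∀ u : ℕ, u₀ ≤ u → ∀ x y : ℝ, (u:ℝ) ≤ x → x ≤ y →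
    VV gd u ⌈x⌉₊ ≤ (1 + ε) * (Real.log y / Real.log x) * VV gd u ⌈y⌉₊) ∧
  (∃ c : ℝ, 0 < c ∧ ∀ z : ℝ, 2 ≤ z → c / Real.log z ≤ VV gd 0 ⌈z⌉₊) ∧
  (∀ u₀ u z : ℕ, u₀ ≤ u → u ≤ z → VV gd 0 u₀ * VV gd u₀ u * VV gd u z = VV gd 0 z)

/-- T03 primes of one box -/
def St_gbox : Prop :=
  ∀ (N j : ℕ) (ε : ℝ), 1 ≤ N → 1 ≤ j → 0 < ε → ∃ M₀ : ℕ, ∀ M : ℕ, M₀ ≤ M →
    ∑ p ∈ bxp M N j, gd p ≤ (1 + ε) * Real.log (((j:ℝ) + 1) / j)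

/-- T04 the numerical inequality -/
def St_num : Prop :=
  ∃ N₀ : ℕ, 1 ≤ N₀ ∧ ∀ N : ℕ, N₀ ≤ N →
    ∑ j ∈ Finset.Ico (425 * N) (1405 * N),
      pen N j * Real.log (((j:ℝ) + 1) / j) * ((425 / 1000) / lv N j) ≤ Real.log 3 / 4 - 1 / 500

open Classical in
/-- T05 pointwise sieve inequalities for `CL` -/
def St_CLpt : Prop :=
  ∀ (M N u₀ u z : ℕ) (l₁ l₂ : ℝ) (n : ℕ), n ≠ 0 → u₀ ≤ u → u ≤ z →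
    ((∀ p, p.Prime → p ∣ n → z ≤ p) →
      1 ≤ CL M N u₀ u z true true l₁ (fun d => if d ∣ n then 1 else 0)) ∧
    0 ≤ CL M N u₀ u z true true l₁ (fun d => if d ∣ n then 1 else 0) ∧
    (CL M N u₀ u z true false l₁ (fun d => if d ∣ n then 1 else 0) +
      CL M N u₀ u z false true l₂ (fun d => if d ∣ n then 1 else 0) -
      CL M N u₀ u z true true l₂ (fun d => if d ∣ n then 1 else 0) ≤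
      if (∀ p, p.Prime → p ∣ n → z ≤ p) then (1:ℝ) else 0)

/-- T06 formal properties of `CL` -/
def St_CLf : Prop :=
  (∀ (M N u₀ u z : ℕ) (b₁ b₂ : Bool) (l : ℝ) (ι : Type) (s : Finset ι) (a : ι → ℝ)
    (φ : ι → ℕ → ℝ), CL M N u₀ u z b₁ b₂ l (fun d => ∑ i ∈ s, a i * φ i d) =
      ∑ i ∈ s, a i * CL M N u₀ u z b₁ b₂ l (φ i)) ∧
  (∀ (M N u₀ u z : ℕ) (b₁ b₂ : Bool) (l : ℝ) (φ ψ : ℕ → ℝ), u₀ ≤ u → u ≤ z →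
    (∀ d : ℕ, Squarefree d → (∀ p ∈ d.primeFactors, p < z) → φ d = ψ d) →
    CL M N u₀ u z b₁ b₂ l φ = CL M N u₀ u z b₁ b₂ l ψ) ∧
  (∀ (M N u₀ u z : ℕ) (b₁ b₂ : Bool) (l : ℝ), u₀ ≤ u → u ≤ z →
    CL M N u₀ u z b₁ b₂ l gd =
      VV gd 0 u₀ * GG gd (fun p => Real.log p) u₀ u b₁ (1 / 5000 * Real.log M) *
        GG gd (cb M N) u z b₂ (l * Real.log M)) ∧
  (∀ p d : ℕ, p.Prime → Squarefree d → (∀ q ∈ d.primeFactors, q < p) → gd (p * d) = gd p * gd d)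

/-- parameters: `u = ⌈M^{1/(5000 s₁)}⌉`, `z = ⌈M^{0.425}⌉` -/
def uu (M s₁ : ℕ) : ℕ := ⌈(M:ℝ) ^ (1 / (5000 * (s₁:ℝ)))⌉₊
def zz (M : ℕ) : ℕ := ⌈(M:ℝ) ^ (425 / 1000 : ℝ)⌉₊

/-- T07 remainders -/
def St_CLrem : Prop :=
  ∀ u₀ s₁ N K : ℕ, 2 ≤ s₁ → 100000 * s₁ + 10 ≤ N → 200000 ≤ K → ∃ C : ℝ, ∃ M₀ : ℕ, 0 < C ∧
    ∀ M : ℕ, M₀ ≤ M →
    (∀ b₁ : Bool,
      |CL M N u₀ (uu M s₁) (zz M) b₁ false (17 / 10) (RR M K)| ≤ C * XX M K * (M:ℝ) ^ (-(1 / 1000) : ℝ) ∧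
      |CL M N u₀ (uu M s₁) (zz M) b₁ true 1 (RR M K)| ≤ C * XX M K * (M:ℝ) ^ (-(1 / 1000) : ℝ)) ∧
    (∀ j, 425 * N ≤ j → j < 1405 * N →
      |∑ p ∈ bxp M N j, CL M N u₀ (uu M s₁) (zz M) true true (lv N j) (fun d => RR M K (p * d))| ≤
        C * XX M K * (M:ℝ) ^ (-(1 / 1000) : ℝ))

/-- T08 lower bound for the sifted sum and upper bounds box by box -/
def St_low : Prop :=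
  ∀ U W : ℝ → ℝ, FPt U W → W 2 = 1 → ∀ κ : ℝ, 0 < κ → ∃ N₀ : ℕ, ∀ N : ℕ, N₀ ≤ N → ∀ K : ℕ,
    200000 ≤ K → ∃ M₀ : ℕ, ∀ M : ℕ, M₀ ≤ M →
    XX M K * VV gd 0 (zz M) * (1 - W 4 - κ) ≤
      ∑ x ∈ bx M K, (open Classical in if Sft (zz M) x then WW M K x else 0) ∧
    ∀ j, 425 * N ≤ j → j < 1405 * N →
      ∑ p ∈ bxp M N j, ∑ x ∈ bx M K,
        (open Classical in if Sft (zz M) x ∧ (p:ℤ) ∣ F3 x then WW M K x else 0) ≤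
      (1 + κ) * (XX M K * VV gd 0 (zz M) * Real.log (((j:ℝ) + 1) / j) *
        (1 + U (lv N j / (425 / 1000))))

/-- the weighted sum -/
def Tstar (M K N : ℕ) : ℝ :=
  ∑ x ∈ bx M K, (open Classical in if Sft (zz M) x then
    WW M K x * (1 - ∑ p ∈ (F3 x).natAbs.primeFactors, pen N (lab M N p)) else 0)

/-- T09 positivity -/
def St_main : Prop :=
  ∃ N K : ℕ, 1 ≤ N ∧ 200000 ≤ K ∧ ∃ c : ℝ, 0 < c ∧ ∃ M₀ : ℕ, ∀ M : ℕ, M₀ ≤ M →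
    c * XX M K / Real.log M ≤ Tstar M K N

/-- T10 Richert's weights -/
def St_kuhn : Prop :=
  ∀ N K : ℕ, 1 ≤ N → 1 ≤ K → ∃ M₀ : ℕ, ∀ M : ℕ, M₀ ≤ M → ∀ x ∈ bx M K, Sft (zz M) x →
    0 < 1 - ∑ p ∈ (F3 x).natAbs.primeFactors, pen N (lab M N p) →
    ArithmeticFunction.cardFactors (F3 x).natAbs ≤ 2 ∨
    ∃ p : ℕ, p.Prime ∧ ((p ^ 2 : ℕ) : ℤ) ∣ F3 x ∧ zz M ≤ p ∧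
      ((p:ℝ) ≤ (M:ℝ) ^ (999 / 1000 : ℝ) ∨ (M:ℝ) ^ (1001 / 1000 : ℝ) ≤ p)

/-- T11 repeated primes -/
def St_sq : Prop :=
  ∀ K : ℕ, 1 ≤ K → ∃ C : ℝ, 0 < C ∧ ∀ M : ℕ, 2 ≤ M →
    (Set.ncard {x : Fin 3 → ℤ | x ∈ bx M K ∧ ∃ p : ℕ, p.Prime ∧ ((p ^ 2 : ℕ) : ℤ) ∣ F3 x ∧
      zz M ≤ p ∧ ((p:ℝ) ≤ (M:ℝ) ^ (999 / 1000 : ℝ) ∨ (M:ℝ) ^ (1001 / 1000 : ℝ) ≤ p)} : ℝ) ≤
    C * (M:ℝ) ^ (3 - 1 / 2000 : ℝ)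

/-- T12 the theorem -/
def St_T1 : Prop :=
  ∃ c : ℝ, 0 < c ∧ ∃ X₀ : ℝ, ∀ X : ℝ, X₀ ≤ X →
    c * X / Real.log X ≤
      (Set.ncard {t : ℕ × ℕ × ℕ | 1 ≤ t.1 ∧ 1 ≤ t.2.1 ∧ 1 ≤ t.2.2 ∧
        ((t.1 ^ 3 + t.2.1 ^ 3 + t.2.2 ^ 3 : ℕ) : ℝ) ≤ X ∧
        ArithmeticFunction.cardFactors (t.1 ^ 3 + t.2.1 ^ 3 + t.2.2 ^ 3) ≤ 2} : ℝ)

end

end Pool.Agent.TCub
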