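import Pool.Agent.TCub.Stmts

/-!
# TCub, second part: number of distinct values (Hua's inequality), and the final forms.
-/

open Finset

namespace Pool.Agent.TCub

noncomputable section

/-- number of solutions of `∑ x_i³ = ∑ y_i³`, `s` variables on each side, in `[1,P]` -/
def JJ (s P : ℕ) : ℕ :=
  (((Fintype.piFinset fun _ : Fin s => Finset.Icc 1 P) ×ˢ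
    (Fintype.piFinset fun _ : Fin s => Finset.Icc 1 P)).filter
      fun t : (Fin s → ℕ) × (Fin s → ℕ) => ∑ i, t.1 i ^ 3 = ∑ i, t.2 i ^ 3).card

/-- Weyl sum at `k/N` -/
def fN (P N k : ℕ) : ℂ := ∑ x ∈ Finset.Icc 1 P, ee ((k:ℝ) * (x:ℝ) ^ 3 / N)

/-- B1 -/
def St_four : Prop := ∀ s P N : ℕ, 1 ≤ P → s ≤ 4 → 8 * P ^ 3 < N →
  ∑ k ∈ Finset.range N, ‖fN P N k‖ ^ (2 * s) = (N:ℝ) * JJ s P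

/-- B2 -/
def St_J2 : Prop := ∀ ε : ℝ, 0 < ε → ∃ C : ℝ, 0 < C ∧ ∀ P : ℕ, 1 ≤ P →
  (JJ 2 P : ℝ) ≤ C * (P:ℝ) ^ (2 + ε)

/-- B3 Weyl differencing twice -/
def St_weyl : Prop := ∀ ε : ℝ, 0 < ε → ∃ C : ℝ, 0 < C ∧ ∀ P : ℕ, 1 ≤ P → ∃ c : ℤ → ℝ,
  (∀ m, 0 ≤ c m) ∧ c 0 ≤ C * (P:ℝ) ^ 3 ∧ (∀ m, m ≠ 0 → c m ≤ C * (P:ℝ) ^ (1 + ε)) ∧
  ∀ N k : ℕ, 1 ≤ N → ‖fN P N k‖ ^ 4 ≤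
    (∑ m ∈ Finset.Icc (-(6 * (P:ℤ) ^ 3)) (6 * (P:ℤ) ^ 3), (c m : ℂ) * ee ((k:ℝ) * (m:ℝ) / N)).re

/-- B4 Hua -/
def St_J4 : Prop := ∀ ε : ℝ, 0 < ε → ∃ C : ℝ, 0 < C ∧ ∀ P : ℕ, 1 ≤ P →
  (JJ 4 P : ℝ) ≤ C * (P:ℝ) ^ (5 + ε)

/-- B5 -/
def St_J3 : Prop := ∀ ε : ℝ, 0 < ε → ∃ C : ℝ, 0 < C ∧ ∀ P : ℕ, 1 ≤ P →
  (JJ 3 P : ℝ) ≤ C * (P:ℝ) ^ (7 / 2 + ε)

/-- the triples counted -/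
def Tg8 (X : ℝ) : Set (ℕ × ℕ × ℕ) := {t : ℕ × ℕ × ℕ | 1 ≤ t.1 ∧ 1 ≤ t.2.1 ∧ 1 ≤ t.2.2 ∧
  ((t.1 ^ 3 + t.2.1 ^ 3 + t.2.2 ^ 3 : ℕ) : ℝ) ≤ X ∧
  ArithmeticFunction.cardFactors (t.1 ^ 3 + t.2.1 ^ 3 + t.2.2 ^ 3) ≤ 2 ∧
  ∀ p : ℕ, p.Prime → p ∣ t.1 ^ 3 + t.2.1 ^ 3 + t.2.2 ^ 3 → X ^ (7 / 50 : ℝ) ≤ p}

/-- T12' the theorem, with all prime factors large -/
def St_T1s : Prop :=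
  ∃ c : ℝ, 0 < c ∧ ∃ X₀ : ℝ, ∀ X : ℝ, X₀ ≤ X → c * X / Real.log X ≤ ((Tg8 X).ncard : ℝ)

/-- B6 distinct values -/
def St_B : Prop :=
  ∀ ε : ℝ, 0 < ε → ∃ X₀ : ℝ, ∀ X : ℝ, X₀ ≤ X →
    X ^ (5 / 6 - ε) ≤ (Set.ncard {n : ℕ | (n:ℝ) ≤ X ∧ ArithmeticFunction.cardFactors n ≤ 2 ∧
      (∀ p : ℕ, p.Prime → p ∣ n → X ^ (7 / 50 : ℝ) ≤ p) ∧
      ∃ k l m : ℕ, 1 ≤ k ∧ 1 ≤ l ∧ 1 ≤ m ∧ n = k ^ 3 + l ^ 3 + m ^ 3} : ℝ)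

end

end Pool.Agent.TCub
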