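import Pool.Agent.TCub.Stmts

open Finset

namespace Pool.Agent.TCub

namespace SumL

open MeasureTheory

theorem ii {Φ : ℝ → ℝ} {a s t : ℝ} (hint : IntegrableOn Φ (Set.Ioi a)) (has : a ≤ s)
    (hst : s ≤ t) : IntervalIntegrable Φ volume s t :=
  (intervalIntegrable_iff_integrableOn_Ioc_of_le hst).2
    (hint.mono_set (fun _ hx => lt_of_le_of_lt has hx.1))

theorem int_low {Φ : ℝ → ℝ} {a s t : ℝ} (hΦ : AntitoneOn Φ (Set.Ici a))
    (hint : IntegrableOn Φ (Set.Ioi a)) (has : a ≤ s) (hst : s ≤ t) :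
    (t - s) * Φ t ≤ ∫ x in s..t, Φ x := by
  have h1 : ∫ _ in s..t, Φ t ≤ ∫ x in s..t, Φ x := by
    apply intervalIntegral.integral_mono_on hst intervalIntegrable_const (ii hint has hst)
    intro x hx
    exact hΦ (Set.mem_Ici.2 (has.trans hx.1)) (Set.mem_Ici.2 (has.trans hst)) hx.2
  rwa [intervalIntegral.integral_const, smul_eq_mul] at h1

theorem abel {V' ε a : ℝ} (ha : 0 < a) (hε : 0 ≤ ε) (hV' : 0 ≤ V') {Φ : ℝ → ℝ}
    (hΦ : AntitoneOn Φ (Set.Ici a)) (hint : IntegrableOn Φ (Set.Ioi a)) (V t : ℕ → ℝ) (N n0 : ℕ)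
    (ht : ∀ k, n0 ≤ k → k < N → a < t k) (htt : ∀ k, n0 ≤ k → k + 1 < N → t (k + 1) ≤ t k)
    (hD : ∀ k, n0 ≤ k → k < N → V k ≤ (1 + ε) * (t k / a) * V') (hVN : V N = V') (j : ℕ) :
    ∀ n, n0 ≤ n → n + j + 1 = N →
      ∑ k ∈ Ico n N, (V k - V (k + 1)) * Φ (t k) ≤
        (V n - V' - V' * ((1 + ε) * (t n / a) - 1)) * Φ (t n) +
          V' * ((1 + ε) / a * (∫ x in a..t n, Φ x) + ε * Φ a) := by
  induction j with
  | zero =>
    intro n hn hN
    have hN' : N = n + 1 := by omega
    have hta : a < t n := ht n hn (by omega)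
    have h1 := int_low hΦ hint le_rfl hta.le
    have h2 : Φ (t n) ≤ Φ a := hΦ (Set.mem_Ici.2 le_rfl) (Set.mem_Ici.2 hta.le) hta.le
    rw [hN', Finset.sum_Ico_succ_top (Nat.le_refl n), Finset.Ico_self, Finset.sum_empty, zero_add]
    rw [hN'] at hVN
    rw [hVN]
    have h3 : ((1 + ε) * (t n / a) - 1) * Φ (t n) ≤
        (1 + ε) / a * (∫ x in a..t n, Φ x) + ε * Φ a := by
      have h4 : ((1 + ε) * (t n / a) - 1) * Φ (t n) =
          (1 + ε) / a * ((t n - a) * Φ (t n)) + ε * Φ (t n) := by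
        field_simp
        ring
      rw [h4]
      have h5 : (1 + ε) / a * ((t n - a) * Φ (t n)) ≤ (1 + ε) / a * (∫ x in a..t n, Φ x) :=
        mul_le_mul_of_nonneg_left h1 (by positivity)
      have h6 : ε * Φ (t n) ≤ ε * Φ a := mul_le_mul_of_nonneg_left h2 hε
      linarith
    have h7 := mul_le_mul_of_nonneg_left h3 hV'
    nlinarith [h7]
  | succ j ih =>
    intro n hn hN
    have hlt : n < N := by omega
    have ih' := ih (n + 1) (by omega) (by omega)
    have hta : a < t n := ht n hn hlt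
    have hta' : a < t (n + 1) := ht (n + 1) (by omega) (by omega)
    have htn : t (n + 1) ≤ t n := htt n hn (by omega)
    have h1 := int_low hΦ hint hta'.le htn
    have h2 : Φ (t n) ≤ Φ (t (n + 1)) := hΦ (Set.mem_Ici.2 hta'.le) (Set.mem_Ici.2 hta.le) htn
    have h3 : (∫ x in a..t n, Φ x) = (∫ x in a..t (n + 1), Φ x) + ∫ x in t (n + 1)..t n, Φ x :=
      (intervalIntegral.integral_add_adjacent_intervals (ii hint le_rfl hta'.le)
        (ii hint hta'.le htn)).symm
    rw [Finset.sum_eq_sum_Ico_succ_bot hlt, h3]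
    have hD' := hD (n + 1) (by omega) (by omega)
    set I1 := ∫ x in a..t (n + 1), Φ x with hI1
    set I2 := ∫ x in t (n + 1)..t n, Φ x with hI2
    have h4 : (V (n + 1) - (1 + ε) * (t (n + 1) / a) * V') * (Φ (t (n + 1)) - Φ (t n)) ≤ 0 :=
      mul_nonpos_of_nonpos_of_nonneg (by linarith) (by linarith)
    have h5 : V' * ((1 + ε) / a) * ((t n - t (n + 1)) * Φ (t n)) ≤ V' * ((1 + ε) / a) * I2 :=
      mul_le_mul_of_nonneg_left h1 (by positivity)
    have h6 : V' * ((1 + ε) / a) * ((t n - t (n + 1)) * Φ (t n)) =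
        V' * ((1 + ε) * (t n / a) - (1 + ε) * (t (n + 1) / a)) * Φ (t n) := by
      field_simp
    rw [h6] at h5
    nlinarith [ih', h4, h5]

theorem VV_succ (g : ℕ → ℝ) (u k : ℕ) :
    VV g u k - VV g u (k + 1) = if k.Prime ∧ u ≤ k then g k * VV g u k else 0 := by
  unfold VV prs
  rw [Finset.range_add_one, Finset.filter_insert]
  split_ifs with h
  · rw [Finset.prod_insert (by simp)]
    ring
  · rw [sub_self]

theorem VV_nonneg {g : ℕ → ℝ} (hg : ∀ p, p.Prime → g p < 1) (u k : ℕ) : 0 ≤ VV g u k := by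
  unfold VV
  apply Finset.prod_nonneg
  intro p hp
  unfold prs at hp
  rw [Finset.mem_filter] at hp
  have := hg p hp.2.1
  linarith

end SumL

theorem tSumL : St_sum := by
  intro g c u ε δ hS w L a Φ hw hL ha hΦ hΦ0 hint
  have hlogw : 0 < Real.log w := Real.log_pos hw
  have ha0 : 0 < a := lt_of_lt_of_le (by positivity) ha
  have hε := hS.hε
  set w' : ℝ := Real.exp (L / a) with hw'
  have hLa : 0 < L / a := by positivity
  have hlogw' : Real.log w' = L / a := by rw [hw', Real.log_exp]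
  have hw'w : w' ≤ w := by
    rw [← Real.exp_log (lt_trans one_pos hw), hw']
    apply Real.exp_le_exp.2
    rw [div_le_iff₀ ha0]
    rw [div_le_iff₀ hlogw] at ha
    linarith
  set N : ℕ := ⌈w'⌉₊ with hN
  have hVw := SumL.VV_nonneg hS.hg1 u ⌈w⌉₊
  have hVN := SumL.VV_nonneg hS.hg1 u N
  have hu := hS.hu
  have hlogk : ∀ k : ℕ, u ≤ k → 0 < Real.log k := by
    intro k hk
    apply Real.log_pos
    have : 2 ≤ k := hu.trans hk
    exact_mod_cast (by omega : 1 < k)
  -- the sum as a sum over all integers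
  have hsum : ∑ p ∈ (prs u ⌈w⌉₊).filter (fun p : ℕ => a < L / Real.log p),
      g p * VV g u p * Φ (L / Real.log p) =
      ∑ k ∈ Ico u N, (VV g u k - VV g u (k + 1)) * Φ (L / Real.log k) := by
    have h1 : ∀ k ∈ Ico u N, (VV g u k - VV g u (k + 1)) * Φ (L / Real.log k) =
        if k.Prime then g k * VV g u k * Φ (L / Real.log k) else 0 := by
      intro k hk
      rw [Finset.mem_Ico] at hk
      rw [SumL.VV_succ]
      by_cases hp : k.Prime
      · rw [if_pos ⟨hp, hk.1⟩, if_pos hp]
      · rw [if_neg (fun h => hp h.1), if_neg hp, zero_mul]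
    rw [Finset.sum_congr rfl h1, ← Finset.sum_filter]
    apply Finset.sum_congr _ (fun _ _ => rfl)
    ext p
    unfold prs
    simp only [Finset.mem_filter, Finset.mem_range, Finset.mem_Ico]
    constructor
    · rintro ⟨⟨hpw, hp, hup⟩, hap⟩
      refine ⟨⟨hup, ?_⟩, hp⟩
      rw [hN, Nat.lt_ceil, hw', ← Real.exp_log (by
        have := hp.pos
        exact_mod_cast this : (0 : ℝ) < p)]
      apply Real.exp_lt_exp.2
      rw [lt_div_iff₀ ha0]
      rw [lt_div_iff₀ (hlogk p hup)] at hap
      linarith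
    · rintro ⟨⟨hup, hpN⟩, hp⟩
      rw [hN, Nat.lt_ceil] at hpN
      refine ⟨⟨?_, hp, hup⟩, ?_⟩
      · rw [Nat.lt_ceil]
        exact lt_of_lt_of_le hpN hw'w
      · rw [lt_div_iff₀ (hlogk p hup)]
        have h2 : Real.log p < L / a := by
          rw [← hlogw']
          exact Real.log_lt_log (by
            have := hp.pos
            exact_mod_cast this) hpN
        rw [lt_div_iff₀ ha0] at h2
        linarith
  rw [hsum]
  have hint0 : 0 ≤ ∫ t in Set.Ioi a, Φ t := by
    apply MeasureTheory.setIntegral_nonneg measurableSet_Ioi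
    intro t ht
    exact hΦ0 t (le_of_lt ht)
  have hΦa : 0 ≤ Φ a := hΦ0 a le_rfl
  have hRHS : 0 ≤ VV g u ⌈w⌉₊ *
      ((1 + ε) * ((1 + ε) * (Real.log w / L) * ∫ t in Set.Ioi a, Φ t) +
        (1 + ε) * (ε * (a * Real.log w / L) * Φ a)) := by
    positivity
  by_cases huN : u < N
  · -- main case
    have huw' : (u : ℝ) < w' := by
      rw [hN, Nat.lt_ceil] at huN
      exact huN
    have hD : ∀ k, u ≤ k → k < N →
        VV g u k ≤ (1 + ε) * ((L / Real.log k) / a) * VV g u N := by
      intro k hk hkN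
      have hkw : (k : ℝ) < w' := by
        rw [hN, Nat.lt_ceil] at hkN
        exact hkN
      have h1 := hS.hV k w' (by exact_mod_cast hk) hkw.le
      rw [Nat.ceil_natCast, hlogw'] at h1
      have h2 : L / a / Real.log k = (L / Real.log k) / a := by
        have := (hlogk k hk).ne'
        field_simp
      rwa [h2] at h1
    have ht : ∀ k, u ≤ k → k < N → a < L / Real.log k := by
      intro k hk hkN
      have hkw : (k : ℝ) < w' := by
        rw [hN, Nat.lt_ceil] at hkN
        exact hkN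
      have hk0 : (0 : ℝ) < k := by
        have : 0 < k := by omega
        exact_mod_cast this
      rw [lt_div_iff₀ (hlogk k hk)]
      have h2 : Real.log k < L / a := by
        rw [← hlogw']
        exact Real.log_lt_log hk0 hkw
      rw [lt_div_iff₀ ha0] at h2
      linarith
    have htt : ∀ k, u ≤ k → k + 1 < N → L / Real.log ((k + 1 : ℕ) : ℝ) ≤ L / Real.log k := by
      intro k hk _
      have hk0 : (0 : ℝ) < k := by
        have : 0 < k := by omega
        exact_mod_cast this
      apply div_le_div_of_nonneg_left hL.le (hlogk k hk)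
      apply Real.log_le_log hk0
      push_cast
      linarith
    have key := SumL.abel ha0 hε hVN hΦ hint (VV g u) (fun k => L / Real.log k) N u ht htt hD
      rfl (N - 1 - u) u le_rfl (by omega)
    have hu' := hD u le_rfl huN
    have hta := ht u le_rfl huN
    set V' := VV g u N with hV'
    have h1 : (VV g u u - V' - V' * ((1 + ε) * (L / Real.log u / a) - 1)) * Φ (L / Real.log u) ≤ 0 := by
      apply mul_nonpos_of_nonpos_of_nonneg
      · linarith
      · exact hΦ0 _ hta.le
    have h2 : (∫ x in a..L / Real.log u, Φ x) ≤ ∫ t in Set.Ioi a, Φ t := by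
      rw [intervalIntegral.integral_of_le hta.le]
      apply MeasureTheory.setIntegral_mono_set hint
      · rw [Filter.EventuallyLE, MeasureTheory.ae_restrict_iff' measurableSet_Ioi]
        exact Filter.Eventually.of_forall (fun t ht => hΦ0 t (le_of_lt ht))
      · exact Filter.Eventually.of_forall (fun x hx => hx.1)
    have h3 : V' ≤ (1 + ε) * (a * Real.log w / L) * VV g u ⌈w⌉₊ := by
      have h4 := hS.hV w' w huw'.le hw'w
      rw [hlogw'] at h4
      have h5 : Real.log w / (L / a) = a * Real.log w / L := by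
        field_simp
      rwa [h5] at h4
    set I := ∫ t in Set.Ioi a, Φ t with hI
    have h6 : V' * ((1 + ε) / a * (∫ x in a..L / Real.log u, Φ x) + ε * Φ a) ≤
        V' * ((1 + ε) / a * I + ε * Φ a) := by
      apply mul_le_mul_of_nonneg_left _ hVN
      have : (1 + ε) / a * (∫ x in a..L / Real.log u, Φ x) ≤ (1 + ε) / a * I :=
        mul_le_mul_of_nonneg_left h2 (by positivity)
      linarith
    have h7 : V' * ((1 + ε) / a * I + ε * Φ a) ≤
        (1 + ε) * (a * Real.log w / L) * VV g u ⌈w⌉₊ * ((1 + ε) / a * I + ε * Φ a) :=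
      mul_le_mul_of_nonneg_right h3 (by positivity)
    have h8 : (1 + ε) * (a * Real.log w / L) * VV g u ⌈w⌉₊ * ((1 + ε) / a * I + ε * Φ a) =
        VV g u ⌈w⌉₊ * ((1 + ε) * ((1 + ε) * (Real.log w / L) * I) +
        (1 + ε) * (ε * (a * Real.log w / L) * Φ a)) := by
      field_simp
    linarith
  · rw [Finset.Ico_eq_empty huN, Finset.sum_empty]
    exact hRHS

end Pool.Agent.TCub
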